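import Mathlib
import Pool.Agent.Lib.MP_16ef92_ag.AL.WMain

set_option autoImplicit false
set_option linter.unusedSectionVars false
set_option linter.unusedVariables false

namespace Pool.Agent.Lib.MP_16ef92_ag.HY

open Polynomial AL Pool.Agent.Lib.MP_6adaea_nt

noncomputable section

section ring

variable {A A' I : Type} [CommRing A] [CommRing A'] [Fintype I]

/-- The monic polynomial with roots `e i`. -/
def ff (e : I → A) : A[X] := ∏ i, (X - C (e i))

theorem ff_map (e : I → A) (τ : A →+* A') : (ff e).map τ = ff fun i => τ (e i) := by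
  simp [ff, Polynomial.map_prod]

theorem ff_monic (e : I → A) : (ff e).Monic := monic_prod_of_monic _ _ fun _ _ => monic_X_sub_C _

theorem ff_natDegree [Nontrivial A] (e : I → A) : (ff e).natDegree = Fintype.card I := by
  rw [ff, natDegree_prod_of_monic _ _ fun _ _ => monic_X_sub_C _]
  simp

theorem ff_eval (e : I → A) (a : A) : (ff e).eval a = ∏ i, (a - e i) := by
  simp [ff, eval_prod]

theorem ff_aeval {B : Type} [CommRing B] [Algebra A B] (e : I → A) (b : B) :
    aeval b (ff e) = ∏ i, (b - algebraMap A B (e i)) := by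
  simp [ff]

/-- The division trick. -/
theorem div_trick (f u v : A[X]) {x₀ y₀ : A} (h0 : y₀ ^ 2 = f.eval x₀)
    (h : u.eval x₀ + v.eval x₀ * y₀ = 0) : ∃ u₁ v₁ : A[X],
      u * C y₀ + v * f = (X - C x₀) * u₁ ∧ u + v * C y₀ = (X - C x₀) * v₁ := by
  obtain ⟨u₁, h1⟩ : X - C x₀ ∣ u * C y₀ + v * f := dvd_iff_isRoot.2 (by
    simp only [IsRoot.def, eval_add, eval_mul, eval_C]
    linear_combination y₀ * h - v.eval x₀ * h0)
  obtain ⟨v₁, h2⟩ : X - C x₀ ∣ u + v * C y₀ := dvd_iff_isRoot.2 (by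
    simpa only [IsRoot.def, eval_add, eval_mul, eval_C] using h)
  exact ⟨u₁, v₁, h1, h2⟩

/-- The coordinate ring of `y ^ 2 = f (x)`. -/
abbrev Yr (f : A[X]) : Type := AdjoinRoot (X ^ 2 - C f : A[X][X])

/-- The first coordinate. -/
def xY (f : A[X]) : Yr f := AdjoinRoot.of _ X

/-- The second coordinate. -/
def yY (f : A[X]) : Yr f := AdjoinRoot.root _

end ring

variable {k K I : Type} [Field k] [Field K] [Algebra k K] [Fintype I]

/-- `K` is the function field of `y ^ 2 = ∏ (x - e i)`. -/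
structure HE (e : I → k) (x y : K) : Prop where
  two : (2 : k) ≠ 0
  odd : Odd (Fintype.card I)
  inj : Function.Injective e
  tr : Transcendental k x
  eq : y ^ 2 = aeval x (ff e)
  gen : ∀ z : K, ∃ u v d : k[X], d ≠ 0 ∧ z * aeval x d = aeval x u + aeval x v * y

theorem sa_ext {s t : SA k K} (h : ∀ z, s.γ z = t.γ z) : s = t := by
  obtain ⟨γ, a, h1⟩ := s
  obtain ⟨γ', a', h2⟩ := t
  obtain rfl : γ = γ' := RingEquiv.ext h
  obtain rfl : a = a' := RingEquiv.ext fun c => (algebraMap k K).injective ((h1 c).symm.trans (h2 c))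
  rfl

instance saGroup : Group (SA k K) where
  mul s t := ⟨t.γ.trans s.γ, t.a.trans s.a, fun c => by
    rw [RingEquiv.trans_apply, t.h, s.h, RingEquiv.trans_apply]⟩
  one := ⟨RingEquiv.refl K, RingEquiv.refl k, fun _ => rfl⟩
  inv := SA.symm
  mul_assoc _ _ _ := rfl
  one_mul _ := rfl
  mul_one _ := rfl
  inv_mul_cancel s := sa_ext fun z => s.γ.symm_apply_apply z

theorem mul_γ (s t : SA k K) (z : K) : (s * t).γ z = s.γ (t.γ z) := rfl

theorem mul_a (s t : SA k K) (c : k) : (s * t).a c = s.a (t.a c) := rfl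

theorem one_γ (z : K) : (1 : SA k K).γ z = z := rfl

theorem one_a (c : k) : (1 : SA k K).a c = c := rfl

theorem mul_pl (s t : SA k K) (v : Place k K) : (s * t).pl v = s.pl (t.pl v) := rfl

theorem one_pl (v : Place k K) : (1 : SA k K).pl v = v := rfl

theorem mul_dm (s t : SA k K) (D : Dv k K) : (s * t).dm D = s.dm (t.dm D) := Finsupp.ext fun _ => rfl

theorem one_dm (D : Dv k K) : (1 : SA k K).dm D = D := Finsupp.ext fun _ => rfl

theorem sa_aeval (s : SA k K) {x : K} (hx : s.γ x = x) (p : k[X]) :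
    s.γ (aeval x p) = aeval x (p.map (s.a : k →+* k)) := by
  induction p using Polynomial.induction_on' with
  | add p q hp hq => simp [hp, hq]
  | monomial n a => simp [aeval_monomial, s.h, hx]

variable [IsAlgClosed k] [IsFF k K] [PosChar k]

theorem mul_pic (s t : SA k K) (c : Pic k K) : (s * t).pic c = s.pic (t.pic c) := by
  obtain ⟨D, rfl⟩ := cl_surj c
  rw [SA.pic_cl, SA.pic_cl, SA.pic_cl, mul_dm]

theorem one_pic (c : Pic k K) : (1 : SA k K).pic c = c := by
  obtain ⟨D, rfl⟩ := cl_surj c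
  rw [SA.pic_cl, one_dm]

/-- The Weil pairing is perfect. -/
theorem wp_perfect {n : ℕ} (hn : (n : k) ≠ 0) (χ : Tor k K n → k) (h1 : ∀ y, χ y ≠ 0)
    (h2 : ∀ y y', χ (y + y') = χ y * χ y') : ∃ x, ∀ y, wp n x y = χ y := by
  obtain ⟨F, _, _, _, _, _, _, _⟩ := exists_bc k K (AlgebraicClosure K)
  have := bc_isFF k K (AlgebraicClosure K) F
  have := posChar_of k (AlgebraicClosure K)
  obtain ⟨X, -⟩ := exists_uni (K := K) (AlgebraicClosure K) F hn (Classical.arbitrary _) ∅
  exact (X.perfect hn).2.2 χ h1 h2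

theorem wp_nondeg {n : ℕ} (hn : (n : k) ≠ 0) {c : Tor k K n} (h : ∀ d, wp n c d = 1) : c = 0 := by
  obtain ⟨F, _, _, _, _, _, _, _⟩ := exists_bc k K (AlgebraicClosure K)
  have := bc_isFF k K (AlgebraicClosure K) F
  have := posChar_of k (AlgebraicClosure K)
  obtain ⟨X, -⟩ := exists_uni (K := K) (AlgebraicClosure K) F hn (Classical.arbitrary _) ∅
  exact X.nondeg hn fun σ => h _

theorem wp_swap {n : ℕ} (hn : n ≠ 0) (c d : Tor k K n) : wp n c d * wp n d c = 1 := by
  obtain ⟨A, f, hA, hc, -⟩ := exists_adm c ∅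
  obtain ⟨B, g, hB, hd, h1, -⟩ := wpair_avoid d A A
  rw [wp_spec hn hA hB h1 hc hd, wp_spec hn hB hA h1.symm hd hc]
  have h2 := evD_ne_zero (hA.dj h1)
  have h3 := evD_ne_zero (hB.dj h1.symm)
  field_simp

end

end Pool.Agent.Lib.MP_16ef92_ag.HY
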