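import Mathlib
import Pool.Agent.Lib.MP_16ef92_ag.CV.E7
import Pool.Agent.Lib.MP_16ef92_ag.LH.Def
import Pool.Agent.Lib.MP_16ef92_ag.HY.Def

set_option autoImplicit false
set_option linter.unusedSectionVars false
set_option linter.unusedVariables false
set_option linter.style.haveILetI false

namespace Pool.Agent.Lib.MP_16ef92_ag.HY

open Polynomial

noncomputable section

variable {A A' Z : Type} [CommRing A] [CommRing A'] [CommRing Z]

/-- The curve is smooth with one point at infinity. -/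
structure OkF (f : A[X]) : Prop where
  monic : f.Monic
  odd : Odd f.natDegree
  sep : f.Separable
  two : IsUnit (2 : A)

variable {f : A[X]} {f' : A'[X]}

theorem OkF.nontrivial (h : OkF f) : Nontrivial A := by
  by_contra h0
  have h1 := not_nontrivial_iff_subsingleton.1 h0
  exact h.odd.pos.ne' (by rw [Subsingleton.elim f 0, natDegree_zero])

theorem OkF.map [Nontrivial A'] (h : OkF f) (τ : A →+* A') : OkF (f.map τ) :=
  ⟨h.monic.map τ, by rw [h.monic.natDegree_map]; exact h.odd, h.sep.map,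
    by simpa only [map_ofNat] using h.two.map τ⟩

theorem okF_prod [Nontrivial A] {ι : Type} [Fintype ι] {e : ι → A} (hι : Odd (Fintype.card ι))
    (he : ∀ i j, i ≠ j → IsUnit (e i - e j)) (h2 : IsUnit (2 : A)) :
    OkF (ff e) :=
  ⟨ff_monic e, by rwa [ff_natDegree],
    separable_prod (fun i j hij => isCoprime_X_sub_C_of_isUnit_sub (he i j hij))
      fun _ => separable_X_sub_C, h2⟩

theorem Y_monic (f : A[X]) : (X ^ 2 - C f : A[X][X]).Monic := monic_X_pow_sub_C _ two_ne_zero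

theorem xY_eq (f : A[X]) : xY f = algebraMap A[X] (Yr f) X := rfl

theorem Y_alg (f : A[X]) (a : A) : algebraMap A (Yr f) a = algebraMap A[X] (Yr f) (C a) := rfl

theorem yY_sq (f : A[X]) : yY f ^ 2 = algebraMap A[X] (Yr f) f := by
  have h := AdjoinRoot.eval₂_root (X ^ 2 - C f : A[X][X])
  rwa [eval₂_sub, eval₂_X_pow, eval₂_C, sub_eq_zero] at h

theorem Y_eval (w : Yr f →+* Z) (p : A[X]) :
    w (algebraMap A[X] (Yr f) p) = p.eval₂ (w.comp (algebraMap A (Yr f))) (w (xY f)) := by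
  have h : w.comp (algebraMap A[X] (Yr f)) =
      eval₂RingHom (w.comp (algebraMap A (Yr f))) (w (xY f)) :=
    Polynomial.ringHom_ext
      (fun a => (eval₂_C (w.comp (algebraMap A (Yr f))) (w (xY f)) (a := a)).symm)
      (eval₂_X (w.comp (algebraMap A (Yr f))) (w (xY f))).symm
  exact RingHom.congr_fun h p

theorem Y_eq (w : Yr f →+* Z) :
    w (yY f) ^ 2 = f.eval₂ (w.comp (algebraMap A (Yr f))) (w (xY f)) := by
  rw [← map_pow, yY_sq, Y_eval]

theorem Y_lift (f : A[X]) (u : A →+* Z) (x y : Z) (h : y ^ 2 = f.eval₂ u x) :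
    ∃ w : Yr f →+* Z, w.comp (algebraMap A (Yr f)) = u ∧ w (xY f) = x ∧ w (yY f) = y := by
  have h0 : (X ^ 2 - C f : A[X][X]).eval₂ (eval₂RingHom u x) y = 0 := by
    rw [eval₂_sub, eval₂_X_pow, eval₂_C, h, coe_eval₂RingHom, sub_self]
  exact ⟨AdjoinRoot.lift _ y h0, RingHom.ext fun a => (AdjoinRoot.lift_of h0).trans (eval₂_C _ _),
    (AdjoinRoot.lift_of h0).trans (eval₂_X _ _), AdjoinRoot.lift_root h0⟩

theorem Y_ext {w w' : Yr f →+* Z}
    (h : w.comp (algebraMap A (Yr f)) = w'.comp (algebraMap A (Yr f)))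
    (hx : w (xY f) = w' (xY f)) (hy : w (yY f) = w' (yY f)) : w = w' :=
  AdjoinRoot.ringHom_ext (Polynomial.ringHom_ext (fun a => RingHom.congr_fun h a) hx) hy

theorem Y_rep (z : Yr f) : ∃ u v : A[X],
    z = algebraMap A[X] (Yr f) u + algebraMap A[X] (Yr f) v * yY f := by
  obtain ⟨p, rfl⟩ := AdjoinRoot.mk_surjective z
  induction p using Polynomial.induction_on' with
  | add p q hp hq =>
    obtain ⟨u, v, h1⟩ := hp
    obtain ⟨u', v', h2⟩ := hq
    exact ⟨u + u', v + v', by rw [map_add, h1, h2, map_add, map_add]; ring⟩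
  | monomial k a =>
    rw [← C_mul_X_pow_eq_monomial, map_mul, map_pow]
    change ∃ u v, algebraMap A[X] (Yr f) a * yY f ^ k = _
    obtain ⟨m, rfl | rfl⟩ := k.even_or_odd'
    · exact ⟨a * f ^ m, 0, by rw [pow_mul, yY_sq, map_mul, map_pow, map_zero, zero_mul, add_zero]⟩
    · exact ⟨0, a * f ^ m, by
        rw [pow_succ (yY f), pow_mul, yY_sq, map_mul, map_pow, map_zero, zero_add, mul_assoc]⟩

theorem Y_rep_zero {u v : A[X]}
    (h : algebraMap A[X] (Yr f) u + algebraMap A[X] (Yr f) v * yY f = 0) : u = 0 ∧ v = 0 := by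
  nontriviality A
  have h1 : AdjoinRoot.mk (X ^ 2 - C f : A[X][X]) (C v * X + C u) = 0 := by
    rw [map_add, map_mul, add_comm]
    exact h
  have h2 : (C v * X + C u : A[X][X]) = 0 := by
    by_contra e
    refine AdjoinRoot.mk_ne_zero_of_natDegree_lt (Y_monic f) e ?_ h1
    rw [natDegree_X_pow_sub_C]
    exact natDegree_linear_le.trans_lt one_lt_two
  exact ⟨by simpa using congrArg (coeff · 0) h2, by simpa using congrArg (coeff · 1) h2⟩

theorem Y_inj (f : A[X]) : Function.Injective (algebraMap A[X] (Yr f)) :=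
  (injective_iff_map_eq_zero _).2 fun u h =>
    (Y_rep_zero (v := 0) (by rw [h, map_zero, zero_mul, add_zero])).1

theorem Y_inj' (f : A[X]) : Function.Injective (algebraMap A (Yr f)) :=
  (Y_inj f).comp C_injective

/-- The involution `y ↦ -y`. -/
def cY (f : A[X]) : Yr f →ₐ[A[X]] Yr f :=
  AdjoinRoot.liftAlgHom _ (Algebra.ofId _ _) (-yY f) (by
    rw [eval₂_sub, eval₂_X_pow, eval₂_C, neg_sq, yY_sq, sub_eq_zero]
    rfl)

theorem cY_y (f : A[X]) : cY f (yY f) = -yY f := AdjoinRoot.liftAlgHom_root _ _ _ _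

theorem cY_rep (u v : A[X]) : cY f (algebraMap A[X] (Yr f) u + algebraMap A[X] (Yr f) v * yY f) =
    algebraMap A[X] (Yr f) u - algebraMap A[X] (Yr f) v * yY f := by
  rw [map_add, map_mul, AlgHom.commutes, AlgHom.commutes, cY_y, mul_neg]
  exact (sub_eq_add_neg _ _).symm

theorem cY_cY (z : Yr f) : cY f (cY f z) = z := by
  obtain ⟨u, v, rfl⟩ := Y_rep z
  rw [cY_rep, map_sub, map_mul, AlgHom.commutes, AlgHom.commutes, cY_y, mul_neg, sub_neg_eq_add]

theorem Y_norm (u v : A[X]) : (algebraMap A[X] (Yr f) u + algebraMap A[X] (Yr f) v * yY f) *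
    cY f (algebraMap A[X] (Yr f) u + algebraMap A[X] (Yr f) v * yY f) =
      algebraMap A[X] (Yr f) (u ^ 2 - v ^ 2 * f) := by
  rw [cY_rep, map_sub, map_mul, map_pow, map_pow, ← yY_sq]
  ring

/-- The map over a homomorphism of base rings. -/
def Ymap (τ : A →+* A') (h : f.map τ = f') : Yr f →+* Yr f' :=
  AdjoinRoot.lift ((algebraMap A'[X] (Yr f')).comp (mapRingHom τ)) (yY f') (by
    rw [eval₂_sub, eval₂_X_pow, eval₂_C, yY_sq, RingHom.comp_apply, coe_mapRingHom, h, sub_self])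

theorem Ymap_pol (τ : A →+* A') (h : f.map τ = f') (p : A[X]) :
    Ymap τ h (algebraMap A[X] (Yr f) p) = algebraMap A'[X] (Yr f') (p.map τ) :=
  AdjoinRoot.lift_of _

theorem Ymap_y (τ : A →+* A') (h : f.map τ = f') : Ymap τ h (yY f) = yY f' :=
  AdjoinRoot.lift_root _

theorem Ymap_x (τ : A →+* A') (h : f.map τ = f') : Ymap τ h (xY f) = xY f' :=
  (Ymap_pol τ h X).trans (congrArg _ (map_X τ))

theorem Ymap_alg (τ : A →+* A') (h : f.map τ = f') (a : A) :
    Ymap τ h (algebraMap A (Yr f) a) = algebraMap A' (Yr f') (τ a) :=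
  (Ymap_pol τ h (C a)).trans (congrArg _ (map_C τ))

theorem Ymap_comp (τ : A →+* A') (h : f.map τ = f') :
    (Ymap τ h).comp (algebraMap A (Yr f)) = (algebraMap A' (Yr f')).comp τ :=
  RingHom.ext (Ymap_alg τ h)

theorem Y_po (τ : A →+* A') (h : f.map τ = f') :
    FA.PO (algebraMap A (Yr f)) τ (Ymap τ h) (algebraMap A' (Yr f')) := by
  refine ⟨Ymap_comp τ h, fun Z _ u v e => ?_, fun Z _ w w' h1 h2 => ?_⟩
  · obtain ⟨w, w1, w2, w3⟩ := Y_lift f' v (u (xY f)) (u (yY f)) (by
      rw [Y_eq, e, ← h, eval₂_map])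
    refine ⟨w, Y_ext ?_ ?_ ?_, w1⟩
    · rw [RingHom.comp_assoc, Ymap_comp, ← RingHom.comp_assoc, w1, e]
    · rw [RingHom.comp_apply, Ymap_x, w2]
    · rw [RingHom.comp_apply, Ymap_y, w3]
  · have key : ∀ (z : Yr f) (z' : Yr f'), Ymap τ h z = z' → w z' = w' z' := fun z z' e => by
      have h3 := RingHom.congr_fun h1 z
      rwa [RingHom.comp_apply, RingHom.comp_apply, e] at h3
    exact Y_ext h2 (key _ _ (Ymap_x τ h)) (key _ _ (Ymap_y τ h))

theorem Ymap_ker (τ : A →+* A') (h : f.map τ = f') :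
    RingHom.ker (Ymap τ h) = (RingHom.ker τ).map (algebraMap A (Yr f)) := by
  refine le_antisymm (fun z hz => ?_) (Ideal.map_le_iff_le_comap.2 fun a ha => ?_)
  · obtain ⟨u, v, rfl⟩ := Y_rep z
    rw [RingHom.mem_ker, map_add, map_mul, Ymap_pol, Ymap_pol, Ymap_y] at hz
    have key : ∀ p : A[X], p.map τ = 0 →
        algebraMap A[X] (Yr f) p ∈ (RingHom.ker τ).map (algebraMap A (Yr f)) := fun p hp => by
      have h1 : p ∈ (RingHom.ker τ).map (C : A →+* A[X]) := ker_mapRingHom τ ▸ hp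
      have h2 := Ideal.mem_map_of_mem (algebraMap A[X] (Yr f)) h1
      rwa [Ideal.map_map] at h2
    exact add_mem (key u (Y_rep_zero hz).1) (Ideal.mul_mem_right _ _ (key v (Y_rep_zero hz).2))
  · rw [Ideal.mem_comap, RingHom.mem_ker, Ymap_alg, RingHom.mem_ker.1 ha, map_zero]

theorem Ymap_inj {τ : A →+* A'} (h : f.map τ = f') (hτ : Function.Injective τ) :
    Function.Injective (Ymap τ h) := by
  rw [RingHom.injective_iff_ker_eq_bot] at hτ ⊢
  rw [Ymap_ker, hτ, Ideal.map_bot]

instance Y_fin (f : A[X]) : Module.Finite A[X] (Yr f) := (Y_monic f).finite_adjoinRoot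

theorem Y_flat (f : A[X]) : (algebraMap A (Yr f)).Flat := by
  have h1 : Module.Free A[X] (Yr f) := (Y_monic f).free_adjoinRoot
  exact RingHom.flat_algebraMap_iff.2 (Module.Flat.trans A A[X] (Yr f))

theorem Y_fp (f : A[X]) : (algebraMap A (Yr f)).FinitePresentation :=
  RingHom.finitePresentation_algebraMap.2 (Algebra.FinitePresentation.trans A A[X] (Yr f))

theorem Y_sur (f : A[X]) {K : Type} [Field K] [IsAlgClosed K] (u : A →+* K) :
    ∃ w : Yr f →+* K, w.comp (algebraMap A (Yr f)) = u := by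
  obtain ⟨y, hy⟩ := IsAlgClosed.exists_pow_nat_eq (f.eval₂ u 0) two_pos
  exact (Y_lift f u 0 y hy).imp fun w hw => hw.1

theorem norm_ne [IsDomain A] (hm : f.Monic) (ho : Odd f.natDegree) {u v : A[X]}
    (h : u ^ 2 - v ^ 2 * f = 0) : u = 0 ∧ v = 0 := by
  have hv : v = 0 := by
    by_contra hv
    have h1 := congrArg natDegree (sub_eq_zero.1 h)
    rw [natDegree_mul (pow_ne_zero _ hv) hm.ne_zero, natDegree_pow, natDegree_pow] at h1
    obtain ⟨k, hk⟩ := ho
    omega
  rw [hv] at h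
  exact ⟨by simpa using h, hv⟩

theorem Y_dom [IsDomain A] (hm : f.Monic) (ho : Odd f.natDegree) : IsDomain (Yr f) := by
  have h0 : Nontrivial (Yr f) := (Y_inj f).nontrivial
  have key : ∀ z : Yr f, z ≠ 0 → ∃ p : A[X], p ≠ 0 ∧ z * cY f z = algebraMap A[X] (Yr f) p :=
    fun z hz => by
      obtain ⟨u, v, rfl⟩ := Y_rep z
      exact ⟨_, fun e => hz (by simp [norm_ne hm ho e]), Y_norm u v⟩
  have : NoZeroDivisors (Yr f) := ⟨fun {a b} hab => by
    by_contra hn
    obtain ⟨p, p0, hp⟩ := key a fun e => hn (Or.inl e)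
    obtain ⟨q, q0, hq⟩ := key b fun e => hn (Or.inr e)
    refine mul_ne_zero p0 q0 (Y_inj f ?_)
    rw [map_mul, ← hp, ← hq, mul_mul_mul_comm, hab, zero_mul, map_zero]⟩
  exact NoZeroDivisors.to_isDomain _

theorem OkF.dom [IsDomain A] (h : OkF f) : IsDomain (Yr f) := Y_dom h.monic h.odd

theorem OkF.prime (h : OkF f) (P : Ideal A) [P.IsPrime] :
    (P.map (algebraMap A (Yr f))).IsPrime := by
  have := (h.map (Ideal.Quotient.mk P)).dom
  have h1 := RingHom.ker_isPrime (Ymap (f := f) (Ideal.Quotient.mk P) rfl)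
  rwa [Ymap_ker, Ideal.mk_ker] at h1

theorem OkF.normal [IsDomain A] [IsIntegrallyClosed A] (h : OkF f) :
    IsIntegrallyClosed (Yr f) := by
  have := h.dom
  have : FaithfulSMul A[X] (Yr f) := (faithfulSMul_iff_algebraMap_injective _ _).2 (Y_inj f)
  refine CV.e2_core (yY_sq f) (fun x => ?_) (cY f) (cY_y f) ?_ h.monic.ne_zero fun s hd => ?_
  · obtain ⟨p, q, rfl⟩ := Y_rep x
    exact ⟨p, q, rfl⟩
  · have h2 := h.two.map (C : A →+* A[X])
    rwa [map_ofNat] at h2
  · have hi := IsFractionRing.injective A (FractionRing A)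
    rw [← map_dvd_map _ hi h.monic] at hd ⊢
    rw [Polynomial.map_pow] at hd
    exact (h.sep.map.squarefree.dvd_pow_iff_dvd two_ne_zero).1 hd

theorem OkF.crv {K : Type} [Field K] {f : K[X]} (h : OkF f) : CV.Crv K (Yr f) := by
  have := h.dom
  have := h.normal
  have : FaithfulSMul K[X] (Yr f) := (faithfulSMul_iff_algebraMap_injective _ _).2 (Y_inj f)
  have h1 : IsNoetherianRing (Yr f) := IsNoetherianRing.of_finite K[X] _
  have h2 : Ring.DimensionLEOne (Yr f) := Ring.DimensionLEOne.of_isIntegral K[X] _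
  have h3 : IsDedekindRing (Yr f) := { }
  refine ⟨inferInstance, Algebra.FiniteType.trans (S := K[X]) inferInstance inferInstance,
    fun hf => Polynomial.not_isField K ?_⟩
  exact (Algebra.IsIntegral.isField_iff_isField (Y_inj f)).2 hf

/-- Away from `y = 0` the function `x` is etale. -/
theorem etale_x (h : OkF f) : ((algebraMap (Yr f) (Localization.Away (yY f))).comp
    (algebraMap A[X] (Yr f))).Etale := by
  obtain ⟨u, hu⟩ := h.two.exists_right_inv
  refine CV.e7b_std (g := X) (Y_monic f) ⟨C (C u), ?_⟩ (RingHom.id _) Function.bijective_id rfl rfl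
  have h2 : (2 : A[X][X]) * C (C u) = 1 := by
    simpa only [map_mul, map_ofNat, map_one] using congrArg (fun a : A => (C (C a) : A[X][X])) hu
  simp only [derivative_sub, derivative_C, derivative_X_pow, sub_zero, Nat.cast_ofNat, map_ofNat,
    Nat.add_one_sub_one, pow_one]
  linear_combination X * h2

/-- The derivative of `f`. -/
def dY (f : A[X]) : Yr f := algebraMap A[X] (Yr f) (derivative f)

/-- Away from the zeros of the derivative of `f` the function `y` is etale. -/
theorem etale_y (h : OkF f) : ((algebraMap (Yr f) (Localization.Away (dY f))).comp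
    (eval₂RingHom (algebraMap A (Yr f)) (yY f))).Etale := by
  have := h.nontrivial
  obtain ⟨g, hg⟩ : ∃ g : A[X][X], g = f.map C - C (X ^ 2) := ⟨_, rfl⟩
  have hm : g.Monic := by
    rw [hg]
    refine (h.monic.map C).sub_of_left (degree_C_le.trans_lt ?_)
    rw [← natDegree_pos_iff_degree_pos, h.monic.natDegree_map]
    exact h.odd.pos
  have hc : (eval₂RingHom (algebraMap A (Yr f)) (yY f)).comp C = algebraMap A (Yr f) :=
    RingHom.ext fun a => eval₂_C _ _
  have h1 := Y_eq (f := f) (RingHom.id _)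
  rw [RingHom.id_comp, RingHom.id_apply, RingHom.id_apply] at h1
  have h2 : g.eval₂ (eval₂RingHom (algebraMap A (Yr f)) (yY f)) (xY f) = 0 := by
    rw [hg, eval₂_sub, eval₂_map, hc, eval₂_C, coe_eval₂RingHom, eval₂_X_pow, h1, sub_self]
  obtain ⟨w, w1, w2, w3⟩ := Y_lift f ((AdjoinRoot.of g).comp C) (AdjoinRoot.root g)
    (AdjoinRoot.of g X) (by
      have h3 := (congrArg (eval₂ (AdjoinRoot.of g) (AdjoinRoot.root g)) hg).symm.trans
        (AdjoinRoot.eval₂_root g)
      rw [eval₂_sub, eval₂_map, eval₂_C, map_pow, sub_eq_zero] at h3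
      exact h3.symm)
  have w4 : ∀ a, w (algebraMap A _ a) = AdjoinRoot.of g (C a) := RingHom.congr_fun w1
  have e1 : w.comp (AdjoinRoot.lift _ _ h2) = RingHom.id _ := by
    refine AdjoinRoot.ringHom_ext (Polynomial.ringHom_ext (fun a => ?_) ?_) ?_
    · rw [RingHom.comp_assoc, AdjoinRoot.lift_comp_of, RingHom.comp_apply, coe_eval₂RingHom,
        eval₂_C, w4]
      rfl
    · rw [RingHom.comp_assoc, AdjoinRoot.lift_comp_of, RingHom.comp_apply, coe_eval₂RingHom,
        eval₂_X, w3]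
      rfl
    · rw [RingHom.comp_apply, AdjoinRoot.lift_root, w2]
      rfl
  have e2 : (AdjoinRoot.lift _ _ h2).comp w = RingHom.id _ := by
    refine Y_ext (RingHom.ext fun a => ?_) ?_ ?_
    · rw [RingHom.comp_apply, RingHom.comp_apply, w4, AdjoinRoot.lift_of, coe_eval₂RingHom,
        eval₂_C]
      rfl
    · rw [RingHom.comp_apply, w2, AdjoinRoot.lift_root]
      rfl
    · rw [RingHom.comp_apply, w3, AdjoinRoot.lift_of, coe_eval₂RingHom, eval₂_X]
      rfl
  refine CV.e7b_std (g := derivative g) hm ⟨1, mul_one _⟩ (AdjoinRoot.lift _ _ h2)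
    (Function.bijective_iff_has_inverse.2 ⟨w, RingHom.congr_fun e1, RingHom.congr_fun e2⟩) ?_
    (AdjoinRoot.lift_comp_of h2)
  have h5 : derivative g = (derivative f).map C := by
    rw [hg, derivative_sub, derivative_C, sub_zero, derivative_map]
  rw [AdjoinRoot.lift_mk, h5, eval₂_map, hc]
  exact (Y_eval (RingHom.id _) _).symm

theorem y_or_d (h : OkF f) {K : Type} [Field K] (w : Yr f →+* K) :
    w (yY f) ≠ 0 ∨ w (dY f) ≠ 0 := by
  by_contra hn
  simp only [not_or, not_not] at hn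
  obtain ⟨a, b, hab⟩ := h.sep
  have h1 := congrArg (fun p => w (algebraMap A[X] (Yr f) p)) hab
  simp only [map_add, map_mul, map_one, ← yY_sq, map_pow, hn.1] at h1
  have h2 : w (algebraMap A[X] (Yr f) (derivative f)) = 0 := hn.2
  rw [h2] at h1
  simp at h1

theorem OkF.locA [RS.Bg] (h : OkF f) : LH.LocA (algebraMap A (Yr f)) := fun y => by
  rcases y_or_d h y with h1 | h1
  · obtain ⟨z, hz⟩ := RS.pnt_away y h1
    exact ⟨_, _, _, z, _, RS.et_away _, hz, etale_x h, rfl⟩
  · obtain ⟨z, hz⟩ := RS.pnt_away y h1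
    refine ⟨_, _, _, z, _, RS.et_away _, hz, etale_y h, RingHom.ext fun a => ?_⟩
    simp only [RingHom.comp_apply, coe_eval₂RingHom, eval₂_C]

theorem good_Y [RS.Bg] (h : RS.Good A) (f : A[X]) : RS.Good (Yr f) :=
  h.ft (RingHom.FiniteType.of_finitePresentation (Y_fp f))

end

end Pool.Agent.Lib.MP_16ef92_ag.HY
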