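import Mathlib
import Pool.Agent.Lib.MP_16ef92_ag.ET.Ufd
import Pool.Agent.Lib.MP_16ef92_ag.HY.Rng

set_option autoImplicit false
set_option linter.unusedSectionVars false
set_option linter.unusedVariables false
set_option linter.style.haveILetI false

namespace Pool.Agent.Lib.MP_16ef92_ag.HY

open Polynomial IsLocalRing

noncomputable section

section od

variable {Y : Type} [CommRing Y] [IsDomain Y] {P : Ideal Y} {π z z' : Y} {a a' n : ℕ}

/-- `z` is `π ^ a` times a unit at `P`. -/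
def Od (P : Ideal Y) (π z : Y) (a : ℕ) : Prop := ∃ s t, s ∉ P ∧ t ∉ P ∧ z * t = π ^ a * s

/-- `π` is a uniformiser at `P`. -/
structure Un (P : Ideal Y) (π : Y) : Prop where
  prime : P.IsPrime
  mem : π ∈ P
  ne : π ≠ 0
  ex : ∀ z, z ≠ 0 → ∃ a, Od P π z a

theorem Un.le (h : Un P π) (h1 : Od P π z a) (h2 : Od P π z a') : a ≤ a' := by
  obtain ⟨s, t, hs, ht, e⟩ := h1
  obtain ⟨s', t', hs', ht', e'⟩ := h2
  by_contra hlt
  obtain ⟨d, rfl⟩ := Nat.exists_eq_add_of_lt (not_le.1 hlt)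
  have h3 : s' * t = π * (π ^ d * s * t') := mul_left_cancel₀ (pow_ne_zero a' h.ne) (by
    linear_combination t' * e - t * e')
  exact (h.prime.mem_or_mem (h3 ▸ P.mul_mem_right _ h.mem)).elim hs' ht

theorem Un.uq (h : Un P π) (h1 : Od P π z a) (h2 : Od P π z a') : a = a' :=
  (h.le h1 h2).antisymm (h.le h2 h1)

theorem Un.one_not (h : Un P π) : (1 : Y) ∉ P := (Ideal.ne_top_iff_one P).1 h.prime.ne_top

theorem Un.mul (h : Un P π) (h1 : Od P π z a) (h2 : Od P π z' a') : Od P π (z * z') (a + a') := by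
  obtain ⟨s, t, hs, ht, e⟩ := h1
  obtain ⟨s', t', hs', ht', e'⟩ := h2
  exact ⟨s * s', t * t', fun h0 => (h.prime.mem_or_mem h0).elim hs hs',
    fun h0 => (h.prime.mem_or_mem h0).elim ht ht', by
      rw [mul_mul_mul_comm, e, e', pow_add, mul_mul_mul_comm]⟩

theorem Un.zero (h : Un P π) (hz : z ∉ P) : Od P π z 0 := ⟨z, 1, hz, h.one_not, by ring⟩

theorem Un.self (h : Un P π) : Od P π π 1 := ⟨1, 1, h.one_not, h.one_not, by ring⟩

theorem Un.pow (h : Un P π) (h1 : Od P π z a) (k : ℕ) : Od P π (z ^ k) (k * a) := by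
  induction k with
  | zero => simpa using h.zero h.one_not
  | succ k ih => rw [pow_succ, Nat.succ_mul]; exact h.mul ih h1

theorem Od.neg (h1 : Od P π z a) : Od P π (-z) a := by
  obtain ⟨s, t, hs, ht, e⟩ := h1
  exact ⟨-s, t, fun h0 => hs (neg_mem_iff.1 h0), ht, by rw [neg_mul, e, mul_neg]⟩

theorem Un.od_of_mul (h : Un P π) {t : Y} (ht : t ∉ P) (h1 : Od P π (z * t) a) : Od P π z a := by
  obtain ⟨s, t', hs, ht', e⟩ := h1
  exact ⟨s, t * t', hs, fun h0 => (h.prime.mem_or_mem h0).elim ht ht', by rw [← mul_assoc, e]⟩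

/-- A nonzero prime below `P` is `P`. -/
theorem Un.eq_of_le (h : Un P π) {Q : Ideal Y} (hQ : Q.IsPrime) (h0 : Q ≠ ⊥) (hle : Q ≤ P) :
    Q = P := by
  have key : π ∈ Q := by
    obtain ⟨z, hz, z0⟩ := (Submodule.ne_bot_iff Q).1 h0
    obtain ⟨a, s, t, hs, ht, e⟩ := h.ex z z0
    exact hQ.mem_of_pow_mem a ((hQ.mem_or_mem (e ▸ Q.mul_mem_right t hz)).resolve_right
      fun h1 => hs (hle h1))
  refine le_antisymm hle fun z hz => ?_
  by_cases z0 : z = 0
  · exact z0 ▸ Q.zero_mem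
  obtain ⟨a, s, t, hs, ht, e⟩ := h.ex z z0
  cases a with
  | zero =>
    rw [pow_zero, one_mul] at e
    exact absurd (e ▸ P.mul_mem_right t hz) hs
  | succ a =>
    have h1 : z * t ∈ Q := e ▸ Q.mul_mem_right s (Q.pow_mem_of_mem key _ a.succ_pos)
    exact (hQ.mem_or_mem h1).resolve_right fun h2 => ht (hle h2)

/-- An involution that fixes `P` preserves the order. -/
theorem Un.inv (h : Un P π) (σ : Y →+* Y) (hσ : ∀ z, σ (σ z) = z) (hP : ∀ z ∈ P, σ z ∈ P)
    (h1 : Od P π z a) : Od P π (σ z) a := by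
  have hn : ∀ z, z ∉ P → σ z ∉ P := fun z hz h0 => hz (hσ z ▸ hP _ h0)
  have key : ∀ {z : Y} {a b : ℕ}, Od P π (σ π) b → Od P π z a → Od P π (σ z) (a * b) := by
    rintro z a b hb ⟨s, t, hs, ht, e⟩
    refine h.od_of_mul (hn t ht) ?_
    rw [← map_mul, e, map_mul, map_pow]
    exact h.mul (h.pow hb a) (h.zero (hn s hs))
  obtain ⟨b, hb⟩ := h.ex (σ π) fun e => h.ne (by rw [← hσ π, e, map_zero])
  have h2 := key hb hb
  rw [hσ] at h2
  obtain rfl : b = 1 := Nat.eq_one_of_mul_eq_one_left (h.uq h2 h.self)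
  simpa using key hb h1

theorem ufd_pow {T : Type} [CommRing T] [IsDomain T] [UniqueFactorizationMonoid T] {g : T}
    (h0 : g ≠ 0) (h : ∀ (π b : T) (a : ℕ), Prime π → g = π ^ a * b → ¬π ∣ b → n ∣ a) :
    ∃ u z : T, IsUnit u ∧ g = u * z ^ n := by
  induction g using WellFounded.induction (wellFounded_dvdNotUnit (α := T)) with
  | _ g ih =>
    by_cases hu : IsUnit g
    · exact ⟨g, 1, hu, by simp⟩
    obtain ⟨π, hπ, hd⟩ := WfDvdMonoid.exists_irreducible_factor hu h0
    have hp := UniqueFactorizationMonoid.irreducible_iff_prime.1 hπ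
    obtain ⟨a, b, hb, rfl⟩ := WfDvdMonoid.max_power_factor h0 hπ
    obtain ⟨c, hc⟩ := h π b a hp rfl hb
    have a0 : a ≠ 0 := by
      rintro rfl
      exact hb (by simpa using hd)
    have b0 : b ≠ 0 := right_ne_zero_of_mul h0
    obtain ⟨u, z, hu', e⟩ := ih b ⟨b0, π ^ a, fun e => hπ.not_isUnit (isUnit_pow_iff a0 |>.1 e),
      mul_comm _ _⟩ b0 fun π' b' a' hp' e hb' => by
        by_cases e' : π' ∣ π
        · cases a' with
          | zero => exact dvd_zero _
          | succ a' =>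
            exact absurd (((hp'.associated_of_dvd hp e').symm.dvd).trans
              (e ▸ (dvd_pow_self π' a'.succ_ne_zero).mul_right b')) hb
        · exact h π' (π ^ a * b') a' hp' (by rw [e]; ring) fun h1 =>
            (hp'.dvd_or_dvd h1).elim (fun h2 => e' (hp'.dvd_of_dvd_pow h2)) hb'
    exact ⟨u, π ^ c * z, hu', by rw [e, hc, mul_comm n c, pow_mul]; ring⟩

/-- In a locally factorial domain an element all of whose orders are divisible by `n` is locally
a unit times an `n`-th power. -/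
theorem pw_of_un
    (hU : ∀ (m : Ideal Y) [m.IsMaximal], UniqueFactorizationMonoid (Localization.AtPrime m))
    {g : Y} (h0 : g ≠ 0) (h : ∀ (P : Ideal Y) (π : Y) (a : ℕ), Un P π → Od P π g a → n ∣ a)
    (q : Ideal Y) (hq : q.IsPrime) : ∃ r s z : Y, r ∉ q ∧ s ∉ q ∧ g * r = s * z ^ n := by
  obtain ⟨m, hm, hle⟩ := q.exists_le_maximal hq.ne_top
  have := hU m
  let T := Localization.AtPrime m
  have hi : Function.Injective (algebraMap Y T) :=
    IsLocalization.injective T m.primeCompl_le_nonZeroDivisors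
  have hun : ∀ t : m.primeCompl, IsUnit (algebraMap Y T t) := IsLocalization.map_units T
  obtain ⟨u, z, hu, e⟩ := ufd_pow (n := n) ((map_ne_zero_iff _ hi).2 h0) fun π b a hp e hb => by
    obtain ⟨⟨π₀, t₀⟩, e₀⟩ := IsLocalization.surj m.primeCompl π
    have hP := (Ideal.span_singleton_prime hp.ne_zero).2 hp
    have hm' : ∀ z, z ∈ (Ideal.span {π}).comap (algebraMap Y T) ↔ π ∣ algebraMap Y T z :=
      fun z => Ideal.mem_span_singleton
    have hn : ∀ t : m.primeCompl, t.1 ∉ (Ideal.span {π}).comap (algebraMap Y T) := fun t ht =>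
      hp.not_isUnit (isUnit_of_dvd_unit ((hm' _).1 ht) (hun t))
    have key : ∀ (z : Y) (b : T) (a : ℕ), algebraMap Y T z = π ^ a * b → ¬π ∣ b →
        Od ((Ideal.span {π}).comap (algebraMap Y T)) π₀ z a := fun z b a e hb => by
      obtain ⟨⟨s, t⟩, e₁⟩ := IsLocalization.surj m.primeCompl b
      refine ⟨s, (t₀ ^ a * t : m.primeCompl), fun h1 => hb ?_, hn _, hi ?_⟩
      · rw [hm', ← e₁] at h1
        exact (hun t).dvd_mul_right.1 h1
      · simp only [Submonoid.coe_mul, SubmonoidClass.coe_pow, map_mul, map_pow, e] at e₀ e₁ ⊢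
        rw [← e₀, ← e₁]
        ring
    refine h _ π₀ a ⟨inferInstance, (hm' _).2 (e₀ ▸ dvd_mul_right _ _), fun e1 => ?_, fun z hz => ?_⟩
      (key g b a e hb)
    · rw [e1, map_zero] at e₀
      exact mul_ne_zero hp.ne_zero (hun t₀).ne_zero e₀
    · obtain ⟨a, b, hb, e⟩ := WfDvdMonoid.max_power_factor ((map_ne_zero_iff _ hi).2 hz)
        hp.irreducible
      exact ⟨a, key z b a e hb⟩
  obtain ⟨⟨s, t⟩, e₁⟩ := IsLocalization.surj m.primeCompl u
  obtain ⟨⟨z₀, t'⟩, e₂⟩ := IsLocalization.surj m.primeCompl z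
  refine ⟨(t * t' ^ n : m.primeCompl), s, z₀, fun h1 => (t * t' ^ n).2 (hle h1), fun h1 => ?_, hi ?_⟩
  · exact (IsLocalization.AtPrime.isUnit_to_map_iff T m s).1 (e₁ ▸ hu.mul (hun t)) (hle h1)
  · simp only [Submonoid.coe_mul, SubmonoidClass.coe_pow, map_mul, map_pow, e] at e₁ e₂ ⊢
    rw [← e₁, ← e₂]
    ring

end od

theorem ded_gen {A : Type} [CommRing A] [IsDedekindDomain A] {m : Ideal A} (hm : m.IsPrime)
    (h0 : m ≠ ⊥) : ∃ w ∈ m, w ≠ 0 ∧ ∀ a ∈ m, ∃ s ∉ m, w ∣ s * a := by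
  let T := Localization.AtPrime m
  have := IsLocalization.AtPrime.isDiscreteValuationRing_of_dedekind_domain A h0 T
  have hi : Function.Injective (algebraMap A T) :=
    IsLocalization.injective T m.primeCompl_le_nonZeroDivisors
  obtain ⟨ϖ, hϖ⟩ := IsDiscreteValuationRing.exists_irreducible T
  obtain ⟨⟨w, t⟩, e⟩ := IsLocalization.surj m.primeCompl ϖ
  have hm' : ∀ a, a ∈ m ↔ ϖ ∣ algebraMap A T a := fun a => by
    rw [← IsLocalization.AtPrime.to_map_mem_maximal_iff T m, hϖ.maximalIdeal_eq,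
      Ideal.mem_span_singleton]
  refine ⟨w, (hm' w).2 (e ▸ dvd_mul_right _ _), fun e1 => ?_, fun a ha => ?_⟩
  · rw [e1, map_zero] at e
    exact mul_ne_zero hϖ.ne_zero (IsLocalization.map_units T t).ne_zero e
  · obtain ⟨c, hc⟩ := (hm' a).1 ha
    obtain ⟨⟨c₀, t'⟩, e'⟩ := IsLocalization.surj m.primeCompl c
    refine ⟨(t * t' : m.primeCompl), (t * t').2, c₀, hi ?_⟩
    simp only [Submonoid.coe_mul, map_mul, hc] at e e' ⊢
    rw [← e, ← e']
    ring

variable {A : Type} [CommRing A] [IsDedekindDomain A] {f : A[X]}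

theorem Ymap_surj {A' : Type} [CommRing A'] {f' : A'[X]} {τ : A →+* A'} (h : f.map τ = f')
    (hτ : Function.Surjective τ) : Function.Surjective (Ymap τ h) := fun z => by
  obtain ⟨u, v, rfl⟩ := Y_rep z
  obtain ⟨u, rfl⟩ := map_surjective τ hτ u
  obtain ⟨v, rfl⟩ := map_surjective τ hτ v
  exact ⟨algebraMap A[X] _ u + algebraMap A[X] _ v * yY f, by
    rw [map_add, map_mul, Ymap_pol, Ymap_pol, Ymap_y]⟩

/-- The local rings of the surface are factorial: the maximal ideal is generated by a uniformiser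
of the base and a uniformiser of the fibre. -/
theorem OkF.ufd [IsJacobsonRing A] (hA : ¬IsField A) (h : OkF f) (m : Ideal (Yr f))
    [hm : m.IsMaximal] : UniqueFactorizationMonoid (Localization.AtPrime m) := by
  have := h.dom
  have hft : Algebra.FiniteType A (Yr f) :=
    Algebra.FiniteType.trans (S := A[X]) inferInstance inferInstance
  have : IsNoetherianRing (Yr f) := Algebra.FiniteType.isNoetherianRing A _
  have hm0 : (m.under A).IsMaximal := by
    let := Ideal.Quotient.field m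
    have : Module.Finite A (Yr f ⧸ m) := finite_of_finite_type_of_isJacobsonRing A _
    have := Ideal.isMaximal_comap_of_isIntegral_of_isMaximal (R := A) (⊥ : Ideal (Yr f ⧸ m))
    rwa [IsScalarTower.algebraMap_eq A (Yr f) (Yr f ⧸ m), ← Ideal.comap_comap,
      ← RingHom.ker_eq_comap_bot, Ideal.Quotient.algebraMap_eq, Ideal.mk_ker] at this
  obtain ⟨p, hp, p0, hpg⟩ := ded_gen hm0.isPrime (Ring.ne_bot_of_isMaximal_of_not_isField hm0 hA)
  letI := Ideal.Quotient.field (m.under A)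
  let ψ := Ymap (f := f) (Ideal.Quotient.mk (m.under A)) rfl
  have hs : Function.Surjective ψ := Ymap_surj rfl Ideal.Quotient.mk_surjective
  have hk : RingHom.ker ψ = (m.under A).map (algebraMap A (Yr f)) := by
    rw [Ymap_ker, Ideal.mk_ker]
  have hkm : RingHom.ker ψ ≤ m := hk ▸ Ideal.map_comap_le
  have hc := (h.map (Ideal.Quotient.mk (m.under A))).crv
  have := hc.ded
  have hcm : (m.map ψ).comap ψ = m := by
    rw [Ideal.comap_map_of_surjective ψ hs, ← RingHom.ker_eq_comap_bot, sup_eq_left.2 hkm]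
  have hm1 : (m.map ψ).IsMaximal := (Ideal.map_eq_top_or_isMaximal_of_surjective ψ hs hm).resolve_left
    fun e => hm.ne_top (by rw [← hcm, e, Ideal.comap_top])
  obtain ⟨w', hw', w0, hwg⟩ := ded_gen hm1.isPrime
    (Ring.ne_bot_of_isMaximal_of_not_isField hm1 hc.nf)
  obtain ⟨w, rfl⟩ := hs w'
  let T := Localization.AtPrime m
  have hi : Function.Injective (algebraMap (Yr f) T) :=
    IsLocalization.injective T m.primeCompl_le_nonZeroDivisors
  have hun : ∀ t, t ∉ m → IsUnit (algebraMap (Yr f) T t) := fun t ht =>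
    IsLocalization.map_units T (⟨t, ht⟩ : m.primeCompl)
  obtain ⟨P, hP⟩ : ∃ P, P = algebraMap (Yr f) T (algebraMap A (Yr f) p) := ⟨_, rfl⟩
  have k1 : ∀ z, ψ z = 0 → P ∣ algebraMap (Yr f) T z := fun z hz => by
    have h1 : (m.under A).map (algebraMap A (Yr f)) ≤
        (Ideal.span {P}).comap (algebraMap (Yr f) T) := by
      refine Ideal.map_le_iff_le_comap.2 fun a ha => ?_
      obtain ⟨s, hs, hd⟩ := hpg a ha
      have h2 := map_dvd (algebraMap (Yr f) T) (map_dvd (algebraMap A (Yr f)) hd)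
      rw [map_mul, map_mul, ← hP] at h2
      exact Ideal.mem_span_singleton.2 ((hun _ hs).dvd_mul_left.1 h2)
    exact Ideal.mem_span_singleton.1 (h1 (hk ▸ hz))
  have k2 : ∀ z, P ∣ algebraMap (Yr f) T z → ψ z = 0 := fun z ⟨c, hc⟩ => by
    obtain ⟨⟨c₀, t⟩, e⟩ := IsLocalization.surj m.primeCompl c
    have h1 : z * t = algebraMap A (Yr f) p * c₀ := hi (by
      rw [map_mul, map_mul, hc, ← hP, ← e, mul_assoc])
    have h2 : ψ (algebraMap A (Yr f) p) = 0 := by
      rw [← RingHom.mem_ker, hk]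
      exact Ideal.mem_map_of_mem _ hp
    have h3 := congrArg ψ h1
    rw [map_mul, map_mul, h2, zero_mul] at h3
    exact (mul_eq_zero.1 h3).resolve_right fun e => t.2 (hkm e)
  have e' : maximalIdeal T = Ideal.span {P, algebraMap (Yr f) T w} := by
    rw [← Localization.AtPrime.map_eq_maximalIdeal]
    refine le_antisymm (Ideal.map_le_iff_le_comap.2 fun a ha => ?_) (Ideal.span_le.2 ?_)
    · obtain ⟨s', hs', c', hd⟩ := hwg _ (Ideal.mem_map_of_mem ψ ha)
      obtain ⟨s, rfl⟩ := hs s'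
      obtain ⟨c, rfl⟩ := hs c'
      obtain ⟨d, hd'⟩ := k1 (s * a - w * c) (by rw [map_sub, map_mul, map_mul, hd, sub_self])
      rw [Ideal.mem_comap, ← Ideal.unit_mul_mem_iff_mem _
        (hun s fun h1 => hs' (Ideal.mem_map_of_mem ψ h1))]
      rw [map_sub, map_mul, map_mul] at hd'
      exact Ideal.mem_span_pair.2 ⟨d, algebraMap _ _ c, by linear_combination -hd'⟩
    · rintro _ (rfl | rfl)
      · exact hP ▸ Ideal.mem_map_of_mem _ hp
      · exact Ideal.mem_map_of_mem _ (hcm ▸ hw')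
  refine ET.reg2_ufd e' ?_ fun a ha => ?_
  · rw [hP, map_ne_zero_iff _ hi, map_ne_zero_iff _ (Y_inj' f)]
    exact p0
  · obtain ⟨⟨a₀, t⟩, e⟩ := IsLocalization.surj m.primeCompl a
    have h1 := ha.mul_right (algebraMap (Yr f) T t)
    rw [mul_assoc, e, ← map_mul] at h1
    have h2 := k2 _ h1
    rw [map_mul] at h2
    have h3 := k1 _ ((mul_eq_zero.1 h2).resolve_left w0)
    rw [← e] at h3
    exact (hun _ t.2).dvd_mul_right.1 h3

/-- At a vertical prime the order is invariant under the involution. -/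
theorem OkF.vert (h : OkF f) [IsDomain (Yr f)] {P : Ideal (Yr f)} {π g : Yr f} (hP : Un P π)
    (h0 : P.under A ≠ ⊥) {a n' : ℕ} (ha : Od P π g a) {u d : Yr f} (hd : d ≠ 0) (hg : g ≠ 0)
    (e : g * cY f g * d ^ n' = u ^ n' ∨ g * cY f g * d ^ n' = -u ^ n') : n' ∣ 2 * a := by
  have := hP.prime
  have h1 : (P.under A).map (algebraMap A (Yr f)) = P :=
    hP.eq_of_le (h.prime _) (fun e => h0 ((Ideal.map_eq_bot_iff_of_injective (Y_inj' f)).1 e))
      Ideal.map_comap_le
  have h2 : ∀ z ∈ P, (cY f : Yr f →+* Yr f) z ∈ P := by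
    have h3 : (P.under A).map (algebraMap A (Yr f)) ≤ P.comap (cY f : Yr f →+* Yr f) :=
      Ideal.map_le_iff_le_comap.2 fun a ha => by
        rw [Ideal.mem_comap, Ideal.mem_comap, Y_alg, RingHom.coe_coe, AlgHom.commutes]
        exact ha
    exact fun z hz => h3 (h1.symm ▸ hz)
  have h4 := hP.inv (cY f : Yr f →+* Yr f) cY_cY h2 ha
  rcases n'.eq_zero_or_pos with rfl | hn
  · have h5 : Od P π (g * cY f g) 0 := by
      rw [pow_zero, mul_one, pow_zero] at e
      rcases e with e | e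
      · exact e ▸ hP.zero hP.one_not
      · exact e ▸ (hP.zero hP.one_not).neg
    rw [two_mul, hP.uq (hP.mul ha h4) h5]
  have hc : cY f g ≠ 0 := fun e => hg (by rw [← cY_cY g, e, map_zero])
  have h6 : g * cY f g * d ^ n' ≠ 0 := mul_ne_zero (mul_ne_zero hg hc) (pow_ne_zero _ hd)
  have hu : u ≠ 0 := by
    rintro rfl
    rw [zero_pow hn.ne', neg_zero, or_self] at e
    exact h6 e
  obtain ⟨b, hb⟩ := hP.ex d hd
  obtain ⟨c, hc'⟩ := hP.ex u hu
  have h7 := hP.mul (hP.mul ha h4) (hP.pow hb n')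
  have h8 : a + a + n' * b = n' * c := by
    rcases e with e | e
    · exact hP.uq h7 (e ▸ hP.pow hc' n')
    · exact hP.uq h7 (e ▸ (hP.pow hc' n').neg)
  rw [two_mul]
  exact (Nat.dvd_add_left (dvd_mul_right n' b)).1 (h8 ▸ dvd_mul_right n' c)

end

end Pool.Agent.Lib.MP_16ef92_ag.HY
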