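import Mathlib
import Pool.Agent.Lib.MP_16ef92_ag.HY.Def

set_option autoImplicit false
set_option linter.unusedSectionVars false
set_option linter.unusedVariables false

namespace Pool.Agent.Lib.MP_16ef92_ag.HY

open Polynomial AL Pool.Agent.Lib.MP_6adaea_nt

noncomputable section

variable {k K I : Type} [Field k] [Field K] [Algebra k K] [Fintype I] {e : I → k} {x y : K}

theorem HE.aeval_ne (h : HE e x y) {p : k[X]} (hp : p ≠ 0) : aeval x p ≠ 0 := fun e0 =>
  hp (transcendental_iff.1 h.tr p e0)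

/-- `u ^ 2 = v ^ 2 f` is impossible by the parity of the degree. -/
theorem HE.ind (h : HE e x y) {u v : k[X]} (h0 : aeval x u + aeval x v * y = 0) :
    u = 0 ∧ v = 0 := by
  have h1 : u ^ 2 = v ^ 2 * ff e := by
    refine sub_eq_zero.1 (transcendental_iff.1 h.tr _ ?_)
    simp only [map_sub, map_mul, map_pow, ← h.eq]
    linear_combination (aeval x u - aeval x v * y) * h0
  have h2 : v = 0 := by
    by_contra hv
    have h3 := congrArg natDegree h1
    rw [natDegree_pow, natDegree_mul (pow_ne_zero 2 hv) (ff_monic e).ne_zero, natDegree_pow,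
      ff_natDegree] at h3
    obtain ⟨m, hm⟩ := h.odd
    omega
  rw [h2, zero_pow two_ne_zero, zero_mul] at h1
  exact ⟨pow_eq_zero_iff two_ne_zero |>.1 h1, h2⟩

theorem HE.y_ne (h : HE e x y) : y ≠ 0 := fun e0 =>
  one_ne_zero (h.ind (u := 0) (v := 1) (by simp [e0])).2

theorem HE.xc_ne (h : HE e x y) (c : k) : x - algebraMap k K c ≠ 0 := by
  simpa using h.aeval_ne (X_sub_C_ne_zero c)

theorem HE.norm (h : HE e x y) (u v : k[X]) :
    (aeval x u + aeval x v * y) * (aeval x u - aeval x v * y) = aeval x (u ^ 2 - v ^ 2 * ff e) := by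
  simp only [map_sub, map_mul, map_pow, ← h.eq]
  ring

/-- `K` is spanned by `1, y` over `k(x)`. -/
theorem HE.isFF (h : HE e x y) : IsFF k K := by
  classical
  refine ⟨x, h.tr, ⟨⟨{1, y}, eq_top_iff.2 fun z _ => ?_⟩⟩⟩
  obtain ⟨u, v, d, hd, hz⟩ := h.gen z
  have hm : ∀ p : k[X], aeval x p / aeval x d ∈ IntermediateField.adjoin k {x} := fun p =>
    div_mem (IntermediateField.algebra_adjoin_le_adjoin k _ (aeval_mem_adjoin_singleton k x))
      (IntermediateField.algebra_adjoin_le_adjoin k _ (aeval_mem_adjoin_singleton k x))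
  rw [Finset.coe_pair, Submodule.mem_span_pair]
  refine ⟨⟨_, hm u⟩, ⟨_, hm v⟩, ?_⟩
  have h1 := h.aeval_ne hd
  show aeval x u / aeval x d * 1 + aeval x v / aeval x d * y = z
  field_simp
  linear_combination -hz

theorem HE.hom_ext (h : HE e x y) {L : Type} [Field L] {φ ψ : K →+* L}
    (h1 : ∀ c, φ (algebraMap k K c) = ψ (algebraMap k K c)) (h2 : φ x = ψ x) (h3 : φ y = ψ y) :
    φ = ψ := by
  have h4 : ∀ p : k[X], φ (aeval x p) = ψ (aeval x p) := fun p => by
    induction p using Polynomial.induction_on' with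
    | add p q hp hq => simp only [map_add, hp, hq]
    | monomial n a => simp only [aeval_monomial, map_mul, map_pow, h1, h2]
  refine RingHom.ext fun z => ?_
  obtain ⟨u, v, d, hd, hz⟩ := h.gen z
  have h5 := congrArg φ hz
  have h6 := congrArg ψ hz
  simp only [map_add, map_mul, h4, h3] at h5 h6
  exact mul_right_cancel₀ ((map_ne_zero ψ).2 (h.aeval_ne hd)) (h5.trans h6.symm)

/-- Define `φ z = (u (x') + v (x') y') / d (x')`; well defined by `HE.ind`. -/
theorem HE.exists_hom (h : HE e x y) {L : Type} [Field L] (τ : k →+* L) {x' y' : L}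
    (h1 : ∀ p : k[X], p ≠ 0 → eval₂ τ x' p ≠ 0) (h2 : y' ^ 2 = eval₂ τ x' (ff e)) :
    ∃ φ : K →+* L, (∀ c, φ (algebraMap k K c) = τ c) ∧ φ x = x' ∧ φ y = y' := by
  obtain ⟨E, hE⟩ : ∃ E : k[X] →+* L, ∀ p, E p = eval₂ τ x' p := ⟨eval₂RingHom τ x', fun _ => rfl⟩
  simp only [← hE] at h1 h2
  let R : K → L → Prop := fun z w => ∃ u v d : k[X], d ≠ 0 ∧
    z * aeval x d = aeval x u + aeval x v * y ∧ w * E d = E u + E v * y'
  have ex : ∀ z, ∃ w, R z w := fun z => by
    obtain ⟨u, v, d, hd, hz⟩ := h.gen z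
    exact ⟨(E u + E v * y') / E d, u, v, d, hd, hz, div_mul_cancel₀ _ (h1 d hd)⟩
  have un : ∀ {z w w'}, R z w → R z w' → w = w' := by
    rintro z w w' ⟨u, v, d, hd, a1, a2⟩ ⟨u', v', d', hd', b1, b2⟩
    obtain ⟨c1, c2⟩ := h.ind (u := u * d' - u' * d) (v := v * d' - v' * d) (by
      simp only [map_sub, map_mul]
      linear_combination aeval x d * b1 - aeval x d' * a1)
    have c3 := congrArg E c1
    have c4 := congrArg E c2
    simp only [map_sub, map_mul, map_zero] at c3 c4
    refine mul_right_cancel₀ (mul_ne_zero (h1 d hd) (h1 d' hd')) ?_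
    linear_combination E d' * a2 - E d * b2 + c3 + y' * c4
  have ad : ∀ {z w z' w'}, R z w → R z' w' → R (z + z') (w + w') := by
    rintro z w z' w' ⟨u, v, d, hd, a1, a2⟩ ⟨u', v', d', hd', b1, b2⟩
    refine ⟨u * d' + u' * d, v * d' + v' * d, d * d', mul_ne_zero hd hd', ?_, ?_⟩
    · simp only [map_add, map_mul]
      linear_combination aeval x d' * a1 + aeval x d * b1
    · simp only [map_add, map_mul]
      linear_combination E d' * a2 + E d * b2
  have mu : ∀ {z w z' w'}, R z w → R z' w' → R (z * z') (w * w') := by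
    rintro z w z' w' ⟨u, v, d, hd, a1, a2⟩ ⟨u', v', d', hd', b1, b2⟩
    refine ⟨u * u' + v * v' * ff e, u * v' + u' * v, d * d', mul_ne_zero hd hd', ?_, ?_⟩
    · simp only [map_add, map_mul, ← h.eq]
      linear_combination z' * aeval x d' * a1 + (aeval x u + aeval x v * y) * b1
    · simp only [map_add, map_mul, ← h2]
      linear_combination w' * E d' * a2 + (E u + E v * y') * b2
  have po : ∀ p : k[X], R (aeval x p) (E p) := fun p => ⟨p, 0, 1, one_ne_zero, by simp, by simp⟩
  choose φ hφ using ex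
  refine ⟨⟨⟨⟨φ, un (hφ 1) ?_⟩, fun z z' => un (hφ _) (mu (hφ z) (hφ z'))⟩, un (hφ 0) ?_,
    fun z z' => un (hφ _) (ad (hφ z) (hφ z'))⟩, fun c => un (hφ _) ?_, un (hφ x) ?_,
    un (hφ y) ⟨0, 1, 1, one_ne_zero, by simp, by simp⟩⟩
  · simpa only [map_one] using po 1
  · simpa only [map_zero] using po 0
  · simpa only [aeval_C, hE, eval₂_C] using po (C c)
  · simpa only [aeval_X, hE, eval₂_X] using po X

/-- `exists_hom` for `a` and for `a.symm`, `hom_ext`. -/
theorem HE.exists_sa (h : HE e x y) (a : k ≃+* k) (ha : ∀ i, a (e i) = e i) {ε : K}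
    (hε : ε = 1 ∨ ε = -1) : ∃ s : SA k K, s.a = a ∧ s.γ x = x ∧ s.γ y = ε * y := by
  have h0 : ε ^ 2 = 1 := by rcases hε with rfl | rfl <;> ring
  have h1 : ∀ φ : K →+* K, φ ε = ε := fun φ => by rcases hε with rfl | rfl <;> simp
  have key : ∀ b : k ≃+* k, (∀ i, b (e i) = e i) → ∃ φ : K →+* K,
      (∀ c, φ (algebraMap k K c) = algebraMap k K (b c)) ∧ φ x = x ∧ φ y = ε * y := fun b hb => by
    have h2 : ∀ p : k[X], eval₂ ((algebraMap k K).comp (b : k →+* k)) x p =
        aeval x (p.map (b : k →+* k)) := fun p => by rw [aeval_def, eval₂_map]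
    refine h.exists_hom ((algebraMap k K).comp (b : k →+* k)) (fun p hp => ?_) ?_
    · rw [h2]
      exact h.aeval_ne (Polynomial.map_ne_zero hp)
    · rw [h2, ff_map, mul_pow, h0, one_mul, h.eq]
      exact congrArg (fun e' => aeval x (ff e')) (funext fun i => (hb i).symm)
  obtain ⟨φ, a1, a2, a3⟩ := key a ha
  obtain ⟨ψ, b1, b2, b3⟩ := key a.symm fun i => by rw [RingEquiv.symm_apply_eq, ha]
  refine ⟨⟨RingEquiv.ofRingHom φ ψ (h.hom_ext (fun c => ?_) ?_ ?_) (h.hom_ext (fun c => ?_) ?_ ?_),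
    a, a1⟩, rfl, a2, a3⟩
  · rw [RingHom.comp_apply, b1, a1, RingEquiv.apply_symm_apply, RingHom.id_apply]
  · rw [RingHom.comp_apply, b2, a2, RingHom.id_apply]
  · rw [RingHom.comp_apply, b3, map_mul, h1, a3, ← mul_assoc, ← sq, h0, one_mul, RingHom.id_apply]
  · rw [RingHom.comp_apply, a1, b1, RingEquiv.symm_apply_apply, RingHom.id_apply]
  · rw [RingHom.comp_apply, a2, b2, RingHom.id_apply]
  · rw [RingHom.comp_apply, a3, map_mul, h1, b3, ← mul_assoc, ← sq, h0, one_mul, RingHom.id_apply]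

theorem HE.sa_ext (h : HE e x y) {s t : SA k K} (h1 : ∀ c, s.a c = t.a c) (h2 : s.γ x = t.γ x)
    (h3 : s.γ y = t.γ y) : s = t :=
  HY.sa_ext fun z => RingHom.congr_fun (h.hom_ext (φ := (s.γ : K →+* K)) (ψ := (t.γ : K →+* K))
    (fun c => (s.h c).trans ((congrArg _ (h1 c)).trans (t.h c).symm)) h2 h3) z

/-- The hyperelliptic involution. -/
def HE.io (h : HE e x y) : SA k K :=
  (h.exists_sa (RingEquiv.refl k) (fun _ => rfl) (Or.inr rfl)).choose

theorem HE.io_a (h : HE e x y) (c : k) : h.io.a c = c :=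
  RingEquiv.congr_fun (h.exists_sa (RingEquiv.refl k) (fun _ => rfl) (Or.inr rfl)).choose_spec.1 c

theorem HE.io_x (h : HE e x y) : h.io.γ x = x :=
  (h.exists_sa (RingEquiv.refl k) (fun _ => rfl) (Or.inr rfl)).choose_spec.2.1

theorem HE.io_y (h : HE e x y) : h.io.γ y = -y :=
  (h.exists_sa (RingEquiv.refl k) (fun _ => rfl) (Or.inr rfl)).choose_spec.2.2.trans
    (neg_one_mul y)

theorem HE.io_const (h : HE e x y) (c : k) : h.io.γ (algebraMap k K c) = algebraMap k K c := by
  rw [h.io.h, h.io_a]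

theorem HE.io_aeval (h : HE e x y) (p : k[X]) : h.io.γ (aeval x p) = aeval x p := by
  rw [sa_aeval _ h.io_x, show (h.io.a : k →+* k) = RingHom.id k from RingHom.ext h.io_a, map_id]

theorem HE.io_io (h : HE e x y) : h.io * h.io = 1 :=
  h.sa_ext (fun c => by rw [mul_a, h.io_a, h.io_a, one_a]) (by rw [mul_γ, h.io_x, h.io_x, one_γ])
    (by rw [mul_γ, h.io_y, map_neg, h.io_y, neg_neg, one_γ])

/-- The fraction field of `Yr (ff e)`. -/
theorem exists_HE (e : I → k) (h2 : (2 : k) ≠ 0) (ho : Odd (Fintype.card I))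
    (hi : Function.Injective e) :
    ∃ (K : Type) (_ : Field K) (_ : Algebra k K) (x y : K), HE e x y := by
  obtain ⟨q, hq⟩ : ∃ q : (RatFunc k)[X], q = X ^ 2 - C (algebraMap k[X] (RatFunc k) (ff e)) :=
    ⟨_, rfl⟩
  have hq1 : Irreducible q := by
    rw [hq]
    refine X_pow_sub_C_irreducible_of_prime Nat.prime_two fun b hb => ?_
    have h0 : algebraMap k[X] (RatFunc k) (ff e) ≠ 0 :=
      RatFunc.algebraMap_ne_zero (ff_monic e).ne_zero
    have h1 : b ≠ 0 := fun e0 => h0 (by rw [← hb, e0, zero_pow two_ne_zero])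
    have h3 := congrArg RatFunc.intDegree hb
    rw [sq, RatFunc.intDegree_mul h1 h1, RatFunc.intDegree_polynomial, ff_natDegree] at h3
    obtain ⟨m, hm⟩ := ho
    omega
  have hq2 : q.Monic := hq ▸ monic_X_pow_sub_C _ two_ne_zero
  have hq3 : q.degree = 2 := hq ▸ degree_X_pow_sub_C two_pos _
  have : Fact (Irreducible q) := ⟨hq1⟩
  have ha : ∀ p : k[X], aeval (algebraMap (RatFunc k) (AdjoinRoot q) RatFunc.X) p =
      AdjoinRoot.of q (algebraMap k[X] (RatFunc k) p) := fun p => by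
    rw [aeval_algebraMap_apply, RatFunc.aeval_X_left_eq_algebraMap]
    rfl
  refine ⟨AdjoinRoot q, inferInstance, inferInstance,
    algebraMap (RatFunc k) (AdjoinRoot q) RatFunc.X, AdjoinRoot.root q, h2, ho, hi,
    transcendental_iff.2 fun p hp => ?_, ?_, fun z => ?_⟩
  · rw [ha, map_eq_zero] at hp
    exact by_contra fun h0 => RatFunc.algebraMap_ne_zero h0 hp
  · have h1 := (congrArg (eval₂ (AdjoinRoot.of q) (AdjoinRoot.root q)) hq).symm.trans
      (AdjoinRoot.eval₂_root q)
    rw [eval₂_sub, eval₂_X_pow, eval₂_C, sub_eq_zero] at h1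
    rw [h1, ha]
  · obtain ⟨p, rfl⟩ := AdjoinRoot.mk_surjective z
    have h1 : (p %ₘ q).degree ≤ 1 := by
      have h3 := degree_modByMonic_lt p hq2
      rw [hq3] at h3
      exact Order.le_of_lt_succ h3
    have h3 : AdjoinRoot.mk q p = AdjoinRoot.of q ((p %ₘ q).coeff 1) * AdjoinRoot.root q +
        AdjoinRoot.of q ((p %ₘ q).coeff 0) := by
      rw [← AdjoinRoot.mk_C, ← AdjoinRoot.mk_C, ← AdjoinRoot.mk_X, ← map_mul, ← map_add,
        ← eq_X_add_C_of_degree_le_one h1, AdjoinRoot.mk_eq_mk, modByMonic_eq_sub_mul_div,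
        sub_sub_cancel]
      exact dvd_mul_right _ _
    rw [h3]
    generalize (p %ₘ q).coeff 1 = b
    generalize (p %ₘ q).coeff 0 = a
    have h4 : ∀ c : RatFunc k, AdjoinRoot.of q c * AdjoinRoot.of q (algebraMap _ _ c.denom) =
        AdjoinRoot.of q (algebraMap _ _ c.num) := fun c => by
      rw [← map_mul, ← eq_div_iff_mul_eq (RatFunc.algebraMap_ne_zero c.denom_ne_zero) |>.1
        (RatFunc.num_div_denom c).symm]
    refine ⟨a.num * b.denom, b.num * a.denom, a.denom * b.denom,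
      mul_ne_zero a.denom_ne_zero b.denom_ne_zero, ?_⟩
    simp only [map_mul, ha, ← h4]
    ring

/-- Change of coordinates. -/
theorem HE.scale (h : HE e x y) {u s : k} (w : k) (hu : u ≠ 0) (hs : s ^ 2 = u ^ Fintype.card I) :
    HE (fun i => (e i - w) / u) ((x - algebraMap k K w) / algebraMap k K u)
      (y / algebraMap k K s) := by
  have hu' : algebraMap k K u ≠ 0 := (_root_.map_ne_zero _).2 hu
  have hs0 : s ≠ 0 := fun e0 => pow_ne_zero _ hu (by rw [← hs, e0, zero_pow two_ne_zero])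
  have hs' : algebraMap k K s ≠ 0 := (_root_.map_ne_zero _).2 hs0
  have h1 : aeval ((x - algebraMap k K w) / algebraMap k K u) (C u * X + C w) = x := by
    simp only [map_add, map_mul, aeval_C, aeval_X]
    field_simp
    ring
  have h2 : ∀ p : k[X], aeval ((x - algebraMap k K w) / algebraMap k K u)
      (p.comp (C u * X + C w)) = aeval x p := fun p => by rw [aeval_comp, h1]
  refine ⟨h.two, h.odd, fun i j hij => h.inj (sub_left_injective ((div_left_inj' hu).1 hij)),
    transcendental_iff.2 fun p hp => ?_, ?_, fun z => ?_⟩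
  · have h3 : p.comp (C u⁻¹ * (X - C w)) = 0 := transcendental_iff.1 h.tr _ (by
      rw [aeval_comp, ← hp]
      simp only [map_mul, map_sub, aeval_C, aeval_X, map_inv₀, div_eq_inv_mul])
    have h4 := congrArg (·.comp (C u * X + C w)) h3
    simpa only [comp_assoc, mul_comp, sub_comp, C_comp, X_comp, add_sub_cancel_right, ← mul_assoc,
      ← C_mul, inv_mul_cancel₀ hu, C_1, one_mul, comp_X, zero_comp] using h4
  · rw [div_pow, h.eq, ← map_pow, hs, map_pow, ff_aeval, ff_aeval, ← Finset.card_univ,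
      ← Finset.prod_const, ← Finset.prod_div_distrib]
    refine Finset.prod_congr rfl fun i _ => ?_
    rw [map_div₀, map_sub]
    ring
  · obtain ⟨a, b, d, hd, hz⟩ := h.gen z
    refine ⟨a.comp (C u * X + C w), b.comp (C u * X + C w) * C s, d.comp (C u * X + C w),
      fun e0 => h.aeval_ne hd (by rw [← h2, e0, map_zero]), ?_⟩
    rw [map_mul, h2, h2, h2, aeval_C, hz, mul_assoc, mul_div_cancel₀ _ hs']

end

end Pool.Agent.Lib.MP_16ef92_ag.HY
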