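import Mathlib
import Pool.Agent.Lib.MP_16ef92_ag.HY.Fld

set_option autoImplicit false
set_option linter.unusedSectionVars false
set_option linter.unusedVariables false

namespace Pool.Agent.Lib.MP_16ef92_ag.HY

open Polynomial AL Pool.Agent.Lib.MP_6adaea_nt
open scoped Classical

noncomputable section

variable {k K I : Type} [Field k] [Field K] [Algebra k K] [Fintype I] {e : I → k} {x y : K}
  [IsAlgClosed k] [IsFF k K] [PosChar k] {v w : Place k K}

theorem ge_aeval (hv : v.Ge x 0) (p : k[X]) :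
    v.Ge (aeval x p) 0 ∧ val v (aeval x p) = p.eval (val v x) := by
  induction p using Polynomial.induction_on' with
  | add p q hp hq =>
    rw [map_add, eval_add, val_add hp.1 hq.1, hp.2, hq.2]
    exact ⟨hp.1.add hq.1, rfl⟩
  | monomial n a =>
    rw [aeval_monomial, eval_monomial, val_mul (v.ge_const a) (ge_pow_zero hv n), val_const,
      val_pow hv]
    exact ⟨ge_mul_zero (v.ge_const a) (ge_pow_zero hv n), rfl⟩

theorem HE.ge_y (h : HE e x y) (hv : v.Ge x 0) : v.Ge y 0 := by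
  have h1 := (ge_aeval hv (ff e)).1
  rw [← h.eq] at h1
  have h2 := h1.le (pow_ne_zero 2 h.y_ne)
  rw [Place.ord_pow] at h2
  exact Or.inr (by omega)

theorem HE.ge_el (h : HE e x y) (hv : v.Ge x 0) (a b : k[X]) :
    v.Ge (aeval x a + aeval x b * y) 0 ∧
      val v (aeval x a + aeval x b * y) = a.eval (val v x) + b.eval (val v x) * val v y := by
  have h1 := ge_aeval hv a
  have h2 := ge_aeval hv b
  have h3 := ge_mul_zero h2.1 (h.ge_y hv)
  rw [val_add h1.1 h3, val_mul h2.1 (h.ge_y hv), h1.2, h2.2]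
  exact ⟨h1.1.add h3, rfl⟩

theorem HE.on (h : HE e x y) (hv : v.Ge x 0) : val v y ^ 2 = (ff e).eval (val v x) := by
  rw [← val_pow (h.ge_y hv), h.eq, (ge_aeval hv _).2]

theorem HE.pl1_fac (h : HE e x y) {x₀ : k} (h0 : (ff e).eval x₀ = 0) :
    ∃ g : k[X], g.eval x₀ ≠ 0 ∧ ff e = (X - C x₀) * g := by
  rw [ff_eval, Finset.prod_eq_zero_iff] at h0
  obtain ⟨i, -, hi⟩ := h0
  obtain rfl : x₀ = e i := sub_eq_zero.1 hi
  refine ⟨∏ j ∈ Finset.univ.erase i, (X - C (e j)), ?_,
    (Finset.mul_prod_erase _ (fun j => X - C (e j)) (Finset.mem_univ i)).symm⟩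
  rw [eval_prod, Finset.prod_ne_zero_iff]
  intro j hj
  rw [eval_sub, eval_X, eval_C, sub_ne_zero]
  exact fun e0 => Finset.ne_of_mem_erase hj (h.inj e0).symm

/-- The local parameter at a point. -/
def pl1_par (x y : K) (x₀ y₀ : k) : K := if y₀ = 0 then y else x - algebraMap k K x₀

theorem HE.pl1_step (h : HE e x y) {x₀ y₀ : k} (h0 : y₀ ^ 2 = (ff e).eval x₀) {a b : k[X]}
    (h1 : a.eval x₀ + b.eval x₀ * y₀ = 0) : ∃ a₁ b₁ c d : k[X],
      c.eval x₀ + d.eval x₀ * y₀ ≠ 0 ∧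
      (aeval x a + aeval x b * y) * (aeval x c + aeval x d * y) =
        pl1_par x y x₀ y₀ * (aeval x a₁ + aeval x b₁ * y) := by
  have h2 := h.eq
  unfold pl1_par
  split_ifs with h3
  · subst h3
    obtain ⟨g, h4, h5⟩ := h.pl1_fac (x₀ := x₀) (by rw [← h0, zero_pow two_ne_zero])
    obtain ⟨a', rfl⟩ : X - C x₀ ∣ a := dvd_iff_isRoot.2 (by simpa using h1)
    refine ⟨b * g, a', g, 0, by simpa using h4, ?_⟩
    rw [h5] at h2
    simp only [map_mul, map_zero] at h2 ⊢
    linear_combination (-aeval x a') * h2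
  · obtain ⟨u, w, h4, h5⟩ := div_trick (ff e) a b h0 h1
    refine ⟨u, w, C y₀, 1, ?_, ?_⟩
    · rw [eval_C, eval_one, one_mul, ← two_mul]
      exact mul_ne_zero h.two h3
    · have h6 := congrArg (aeval x) h4
      have h7 := congrArg (aeval x) h5
      simp only [map_add, map_mul, map_sub, aeval_X, aeval_C, map_one] at h6 h7 ⊢
      linear_combination h6 + y * h7 + aeval x b * h2

theorem HE.pl1_pos (h : HE e x y) (hv : v.Ge x 0) :
    pl1_par x y (val v x) (val v y) ≠ 0 ∧ 1 ≤ v.ord (pl1_par x y (val v x) (val v y)) := by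
  unfold pl1_par
  split_ifs with h1
  · exact ⟨h.y_ne, ((val_eq_zero_iff (h.ge_y hv)).1 h1).le h.y_ne⟩
  · exact ⟨h.xc_ne _, (val_spec hv).le (h.xc_ne _)⟩

theorem HE.pl1_el (h : HE e x y) (hv : v.Ge x 0) (n : ℕ) : ∀ a b : k[X],
    aeval x a + aeval x b * y ≠ 0 → v.ord (aeval x a + aeval x b * y) < n →
    ∃ m : ℤ, ∀ w : Place k K, w.Ge x 0 → val w x = val v x → val w y = val v y →
      w.ord (aeval x a + aeval x b * y) = m * w.ord (pl1_par x y (val v x) (val v y)) := by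
  have key : ∀ (c d : k[X]) (w : Place k K), w.Ge x 0 → val w x = val v x → val w y = val v y →
      c.eval (val v x) + d.eval (val v x) * val v y ≠ 0 →
      aeval x c + aeval x d * y ≠ 0 ∧ w.ord (aeval x c + aeval x d * y) = 0 :=
    fun c d w h1 h2 h3 h4 => ord_of_val_ne (by rwa [(h.ge_el h1 c d).2, h2, h3])
  induction n with
  | zero =>
    intro a b h1 h2
    have := (h.ge_el hv a b).1.le h1
    omega
  | succ n ih =>
    intro a b h1 h2
    by_cases h3 : a.eval (val v x) + b.eval (val v x) * val v y = 0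
    · obtain ⟨a₁, b₁, c, d, h4, h5⟩ := h.pl1_step (h.on hv) h3
      have h6 := h.pl1_pos hv
      have h7 : aeval x a₁ + aeval x b₁ * y ≠ 0 := fun e0 =>
        mul_ne_zero h1 (key c d v hv rfl rfl h4).1 (by rw [h5, e0, mul_zero])
      have h8 : ∀ w : Place k K, w.Ge x 0 → val w x = val v x → val w y = val v y →
          w.ord (aeval x a + aeval x b * y) = w.ord (pl1_par x y (val v x) (val v y)) +
            w.ord (aeval x a₁ + aeval x b₁ * y) := fun w k1 k2 k3 => by
        have k4 := key c d w k1 k2 k3 h4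
        rw [← w.ord_mul h6.1 h7, ← h5, w.ord_mul h1 k4.1, k4.2, add_zero]
      obtain ⟨m, hm⟩ := ih a₁ b₁ h7 (by
        have := h8 v hv rfl rfl
        omega)
      exact ⟨m + 1, fun w k1 k2 k3 => by rw [h8 w k1 k2 k3, hm w k1 k2 k3]; ring⟩
    · exact ⟨0, fun w k1 k2 k3 => by rw [(key a b w k1 k2 k3 h3).2, zero_mul]⟩

theorem HE.pl1_all (h : HE e x y) (hv : v.Ge x 0) {z : K} (hz : z ≠ 0) :
    ∃ m : ℤ, ∀ w : Place k K, w.Ge x 0 → val w x = val v x → val w y = val v y →
      w.ord z = m * w.ord (pl1_par x y (val v x) (val v y)) := by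
  obtain ⟨a, b, d, h1, h2⟩ := h.gen z
  have h3 := h.aeval_ne h1
  have h4 : aeval x d + aeval x (0 : k[X]) * y = aeval x d := by simp
  obtain ⟨m, hm⟩ := h.pl1_el hv ((v.ord (aeval x a + aeval x b * y)).toNat + 1) a b
    (h2 ▸ mul_ne_zero hz h3) (by omega)
  obtain ⟨m', hm'⟩ := h.pl1_el hv ((v.ord (aeval x d + aeval x (0 : k[X]) * y)).toNat + 1) d 0
    (by rwa [h4]) (by omega)
  refine ⟨m - m', fun w k1 k2 k3 => ?_⟩
  have k4 := hm w k1 k2 k3
  have k5 := hm' w k1 k2 k3
  rw [← h2, w.ord_mul hz h3] at k4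
  rw [h4] at k5
  linear_combination k4 - k5

theorem HE.pl1_one (h : HE e x y) (hv : v.Ge x 0) :
    v.ord (pl1_par x y (val v x) (val v y)) = 1 := by
  obtain ⟨t, h1, h2⟩ := v.surj
  obtain ⟨m, hm⟩ := h.pl1_all hv h1
  have h3 := hm v hv rfl rfl
  rw [h2] at h3
  exact Int.eq_one_of_mul_eq_one_left (by have := (h.pl1_pos hv).2; omega) h3.symm

/-- The orders of the local parameters.  If `y₀ ≠ 0`, every `a + b y` that vanishes at the point
is `(x - x₀) (a₁ + b₁ y) / (y + y₀)` by `div_trick`, so every order is a multiple of the order of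
`x - x₀` (induction on the order; `HE.gen`, `Place.surj`).  If `y₀ = 0` then `x₀ = e i`,
`x - e i = y ^ 2 / unit`, and `a + b y` with `a (x₀) = 0` is `y` times a quotient of the same kind
by a unit. -/
theorem HE.ord_par (h : HE e x y) (hv : v.Ge x 0) :
    (val v y ≠ 0 → v.ord (x - algebraMap k K (val v x)) = 1) ∧ (val v y = 0 → v.ord y = 1) := by
  have h1 := h.pl1_one hv
  unfold pl1_par at h1
  exact ⟨fun h2 => by rwa [if_neg h2] at h1, fun h2 => by rwa [if_pos h2] at h1⟩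

theorem HE.ord_y (h : HE e x y) (hv : v.Ge x 0) : v.ord y = if val v y = 0 then 1 else 0 := by
  split_ifs with h1
  · exact (h.ord_par hv).2 h1
  · exact (ord_of_val_ne h1).2

theorem HE.ord_xc (h : HE e x y) (hv : v.Ge x 0) (c : k) : v.ord (x - algebraMap k K c) =
    if val v x = c then (if val v y = 0 then 2 else 1) else 0 := by
  split_ifs with h1 h2
  · obtain ⟨g, h3, h4⟩ := h.pl1_fac (x₀ := c) (by rw [← h1, ← h.on hv, h2, zero_pow two_ne_zero])
    have h5 := ord_of_val_ne (v := v) (f := aeval x g) (by rwa [(ge_aeval hv g).2, h1])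
    have h6 := congrArg v.ord h.eq
    rw [h4, map_mul, map_sub, aeval_X, aeval_C, v.ord_mul (h.xc_ne c) h5.1, h5.2, Place.ord_pow,
      (h.ord_par hv).2 h2] at h6
    omega
  · exact h1 ▸ (h.ord_par hv).1 h2
  · exact (ord_of_val_ne (by
      rw [val_sub hv (v.ge_const c), val_const]
      exact sub_ne_zero.2 h1)).2

theorem HE.ord_aeval (h : HE e x y) (hv : v.Ge x 0) {p : k[X]} (hp : p ≠ 0) :
    v.ord (aeval x p) = (if val v y = 0 then 2 else 1) * p.rootMultiplicity (val v x) := by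
  obtain ⟨q, h1, h2⟩ := exists_eq_pow_rootMultiplicity_mul_and_not_dvd p hp (val v x)
  have h3 := ord_of_val_ne (v := v) (f := aeval x q) (by
    rw [(ge_aeval hv q).2]
    exact fun e0 => h2 (dvd_iff_isRoot.2 e0))
  conv_lhs => rw [h1]
  rw [map_mul, map_pow, map_sub, aeval_X, aeval_C, v.ord_mul (pow_ne_zero _ (h.xc_ne _)) h3.1, h3.2,
    Place.ord_pow, h.ord_xc hv, if_pos rfl, add_zero, mul_comm]

/-- The same induction shows that the order of `a + b y` depends only on the point. -/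
theorem HE.pl_ext (h : HE e x y) (hv : v.Ge x 0) (hw : w.Ge x 0) (h1 : val v x = val w x)
    (h2 : val v y = val w y) : v = w := by
  refine Place.ext (funext fun z => ?_)
  by_cases hz : z = 0
  · rw [hz, v.ord_zero, w.ord_zero]
  obtain ⟨m, hm⟩ := h.pl1_all hv hz
  rw [hm v hv rfl rfl, hm w hw h1.symm h2.symm, h.pl1_one hv, h1, h2, h.pl1_one hw]

/-- `exists_place_of_ideal` for the ring of all `a + b y` and the kernel of the evaluation. -/
theorem HE.exists_pl (h : HE e x y) {x₀ y₀ : k} (h0 : y₀ ^ 2 = (ff e).eval x₀) :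
    ∃ v : Place k K, v.Ge x 0 ∧ val v x = x₀ ∧ val v y = y₀ := by
  have hm : ∀ a b c d : k[X], (aeval x a + aeval x b * y) * (aeval x c + aeval x d * y) =
      aeval x (a * c + b * d * ff e) + aeval x (a * d + b * c) * y := fun a b c d => by
    simp only [map_add, map_mul, ← h.eq]
    ring
  let A : Subring K :=
    { carrier := {z | ∃ a b : k[X], z = aeval x a + aeval x b * y}
      mul_mem' := by
        rintro _ _ ⟨a, b, rfl⟩ ⟨c, d, rfl⟩
        exact ⟨_, _, hm a b c d⟩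
      one_mem' := ⟨1, 0, by simp⟩
      add_mem' := by
        rintro _ _ ⟨a, b, rfl⟩ ⟨c, d, rfl⟩
        exact ⟨a + c, b + d, by simp only [map_add]; ring⟩
      zero_mem' := ⟨0, 0, by simp⟩
      neg_mem' := by
        rintro _ ⟨a, b, rfl⟩
        exact ⟨-a, -b, by simp only [map_neg]; ring⟩ }
  let J : Ideal A :=
    { carrier := {z | ∃ a b : k[X], (z : K) = aeval x a + aeval x b * y ∧
        a.eval x₀ + b.eval x₀ * y₀ = 0}
      add_mem' := by
        rintro z z' ⟨a, b, h1, h2⟩ ⟨c, d, h3, h4⟩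
        refine ⟨a + c, b + d, ?_, ?_⟩
        · rw [Subring.coe_add, h1, h3]
          simp only [map_add]
          ring
        · simp only [eval_add]
          linear_combination h2 + h4
      zero_mem' := ⟨0, 0, by simp, by simp⟩
      smul_mem' := by
        rintro ⟨_, a, b, rfl⟩ z ⟨c, d, h3, h4⟩
        refine ⟨_, _, (congrArg _ h3).trans (hm a b c d), ?_⟩
        simp only [eval_add, eval_mul, ← h0]
        linear_combination (a.eval x₀ + b.eval x₀ * y₀) * h4 }
  have h1 : x - algebraMap k K x₀ = aeval x (X - C x₀) + aeval x (0 : k[X]) * y := by simp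
  have h2 : y - algebraMap k K y₀ = aeval x (-C y₀) + aeval x (1 : k[X]) * y := by
    simp only [map_neg, aeval_C, map_one]
    ring
  have h3 : (⟨_, _, _, h1⟩ : A) ∈ J := ⟨_, _, h1, by simp⟩
  have h4 : (⟨_, _, _, h2⟩ : A) ∈ J := ⟨_, _, h2, by simp⟩
  obtain ⟨v, h5, h6⟩ := exists_place_of_ideal (k := k) A (fun c => ⟨C c, 0, by simp⟩) J
    ((Ideal.ne_top_iff_one J).2 (by
      rintro ⟨a, b, h7, h8⟩
      obtain ⟨h9, rfl⟩ := h.ind (u := a - 1) (v := b) (by
        rw [map_sub, map_one]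
        exact (sub_add_eq_add_sub _ _ _).trans (sub_eq_zero.2 h7.symm))
      rw [sub_eq_zero.1 h9] at h8
      simp at h8))
    fun e0 => h.xc_ne x₀ (by
      rw [e0, Ideal.mem_bot, Subtype.ext_iff] at h3
      exact h3)
  exact ⟨v, h5 x ⟨X, 0, by simp⟩, val_eq (h6 _ h3), val_eq (h6 _ h4)⟩

theorem sa_fin (s : SA k K) (hx : s.γ x = x) : (s.pl v).Ge x 0 ↔ v.Ge x 0 := by
  conv_lhs => rw [← hx]
  exact s.pl_ge v x 0

theorem sa_val (s : SA k K) (hx : s.γ x = x) (v : Place k K) : val (s.pl v) x = s.a (val v x) := by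
  conv_lhs => rw [← hx]
  exact s.val_pl v x

theorem HE.io_val (h : HE e x y) (hv : v.Ge x 0) :
    (h.io.pl v).Ge x 0 ∧ val (h.io.pl v) x = val v x ∧ val (h.io.pl v) y = -val v y := by
  refine ⟨(sa_fin _ h.io_x).2 hv, by rw [sa_val _ h.io_x, h.io_a], ?_⟩
  have h1 := h.io.val_pl v (-y)
  rwa [map_neg, h.io_y, neg_neg, h.io_a, val_neg (h.ge_y hv)] at h1

theorem HE.io_fix (h : HE e x y) (hv : v.Ge x 0) : h.io.pl v = v ↔ val v y = 0 := by
  obtain ⟨h1, h2, h3⟩ := h.io_val hv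
  refine ⟨fun h4 => ?_, fun h4 => h.pl_ext h1 hv h2 (by rw [h3, h4, neg_zero])⟩
  rw [h4] at h3
  exact (mul_eq_zero.1 (show 2 * val v y = 0 by linear_combination h3)).resolve_left h.two

/-- The places over a point of the line. -/
theorem HE.over (h : HE e x y) (hv : v.Ge x 0) (hw : w.Ge x 0) :
    val w x = val v x ↔ w = v ∨ w = h.io.pl v := by
  obtain ⟨h1, h2, h3⟩ := h.io_val hv
  refine ⟨fun h4 => ?_, fun h4 => h4.elim (fun e0 => by rw [e0]) fun e0 => by rw [e0, h2]⟩
  exact (sq_eq_sq_iff_eq_or_eq_neg.1 (by rw [h.on hw, h.on hv, h4])).imp (h.pl_ext hw hv h4)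
    fun h5 => h.pl_ext hw h1 (h4.trans h2.symm) (h5.trans h3.symm)

/-- The Weierstrass points. -/
def HE.W (h : HE e x y) (i : I) : Place k K :=
  (h.exists_pl (x₀ := e i) (y₀ := 0) (by
    rw [ff_eval, Finset.prod_eq_zero (Finset.mem_univ i) (sub_self _), zero_pow two_ne_zero])).choose

theorem HE.W_spec (h : HE e x y) (i : I) :
    (h.W i).Ge x 0 ∧ val (h.W i) x = e i ∧ val (h.W i) y = 0 :=
  (h.exists_pl (x₀ := e i) (y₀ := 0) (by
    rw [ff_eval, Finset.prod_eq_zero (Finset.mem_univ i) (sub_self _),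
      zero_pow two_ne_zero])).choose_spec

theorem HE.W_inj (h : HE e x y) : Function.Injective h.W := fun i j hij =>
  h.inj (by rw [← (h.W_spec i).2.1, hij, (h.W_spec j).2.1])

theorem HE.eq_W (h : HE e x y) (hv : v.Ge x 0) : val v y = 0 ↔ ∃ i, v = h.W i := by
  refine ⟨fun h1 => ?_, fun ⟨i, hi⟩ => hi ▸ (h.W_spec i).2.2⟩
  have h2 := h.on hv
  rw [h1, zero_pow two_ne_zero, ff_eval, eq_comm, Finset.prod_eq_zero_iff] at h2
  obtain ⟨i, -, hi⟩ := h2
  obtain ⟨h3, h4, h5⟩ := h.W_spec i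
  exact ⟨i, h.pl_ext hv h3 ((sub_eq_zero.1 hi).trans h4.symm) (h1.trans h5.symm)⟩

theorem HE.sa_W (h : HE e x y) (s : SA k K) (hx : s.γ x = x) {i : I} (hi : s.a (e i) = e i) :
    s.pl (h.W i) = h.W i := by
  obtain ⟨h1, h2, h3⟩ := h.W_spec i
  have h4 := (sa_fin s hx).2 h1
  have h5 : val (s.pl (h.W i)) x = val (h.W i) x := by rw [sa_val s hx, h2, hi]
  refine h.pl_ext h4 h1 h5 ?_
  have h6 := h.on h4
  rw [h5, ← h.on h1, h3, zero_pow two_ne_zero] at h6
  rw [h3, pow_eq_zero_iff two_ne_zero |>.1 h6]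

end

end Pool.Agent.Lib.MP_16ef92_ag.HY
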