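import Mathlib
import Pool.Agent.Lib.MP_16ef92_ag.HY.Pl1

set_option autoImplicit false
set_option linter.unusedSectionVars false
set_option linter.unusedVariables false

namespace Pool.Agent.Lib.MP_16ef92_ag.HY

open Polynomial AL Pool.Agent.Lib.MP_6adaea_nt
open scoped Classical

noncomputable section

variable {k K I : Type} [Field k] [Field K] [Algebra k K] [Fintype I] {e : I → k} {x y : K}
  [IsAlgClosed k] [IsFF k K] [PosChar k] {v w : Place k K}

theorem pl2_pole_aeval (hv : ¬ v.Ge x 0) (p : k[X]) :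
    v.ord (aeval x p) = p.natDegree * v.ord x := by
  obtain ⟨h0, h1⟩ := Place.not_ge_iff.1 hv
  by_cases hp : p = 0
  · simp [hp]
  have h2 : v.ord (p.coeff p.natDegree • x ^ p.natDegree) = p.natDegree * v.ord x := by
    rw [v.ord_smul (by simpa using hp), v.ord_pow]
  rw [aeval_eq_sum_range, ← h2]
  refine (Place.ord_sum_of_lt (f := fun i => p.coeff i • x ^ i) (Finset.self_mem_range_succ _)
    (smul_ne_zero (by simpa using hp) (pow_ne_zero _ h0)) fun i hi hne => ?_).2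
  have h3 : (i : ℤ) + 1 ≤ p.natDegree := by
    have := Finset.mem_range.1 hi
    omega
  refine (((v.ge_ord x).pow i).smul _).mono ?_
  rw [h2]
  nlinarith

theorem pl2_pole_xc (hv : ¬ v.Ge x 0) (c : k) : v.ord (x - algebraMap k K c) = v.ord x := by
  have h1 := pl2_pole_aeval hv (X - C c)
  rwa [natDegree_X_sub_C, map_sub, aeval_X, aeval_C, Nat.cast_one, one_mul] at h1

theorem HE.pl2_pole_y (h : HE e x y) (hv : ¬ v.Ge x 0) :
    2 * v.ord y = Fintype.card I * v.ord x := by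
  have h1 := pl2_pole_aeval hv (ff e)
  rw [← h.eq, v.ord_pow, ff_natDegree] at h1
  exact_mod_cast h1

theorem HE.pl2_pole_le (h : HE e x y) (hv : ¬ v.Ge x 0) : v.ord x ≤ -2 := by
  have h1 := (Place.not_ge_iff.1 hv).2
  have h2 := h.pl2_pole_y hv
  obtain ⟨m, hm⟩ := h.odd
  by_contra h3
  rw [show v.ord x = -1 by omega, hm] at h2
  omega

theorem HE.pl2_fin (h : HE e x y) (hv : v.Ge x 0) (hw : w.Ge x 0) :
    w.ord (x - algebraMap k K (val v x)) =
      (Finsupp.single v 1 + Finsupp.single (h.io.pl v) 1 : Dv k K) w := by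
  rw [h.ord_xc hw, Finsupp.add_apply, Finsupp.single_apply, Finsupp.single_apply]
  have h1 := h.over hv hw
  have h2 := h.io_fix hv
  have h3 := (h.io_val hv).2.2
  by_cases h4 : val w x = val v x
  · rw [if_pos h4]
    by_cases h5 : val v y = 0
    · have h6 : w = v := (h1.1 h4).elim id fun e0 => e0.trans (h2.2 h5)
      rw [h2.2 h5, h6, if_pos h5, if_pos rfl]
      rfl
    · have h6 : h.io.pl v ≠ v := mt h2.1 h5
      rcases h1.1 h4 with h7 | h7
      · rw [h7, if_neg h5, if_pos rfl, if_neg h6, add_zero]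
      · rw [h7, h3, if_neg (neg_ne_zero.2 h5), if_neg h6.symm, if_pos rfl, zero_add]
  · rw [if_neg h4, if_neg fun e0 => h4 (h1.2 (Or.inl e0.symm)),
      if_neg fun e0 => h4 (h1.2 (Or.inr e0.symm)), add_zero]

/-- The zeros of `x - e i` have degree 2 (`ord_xc`, `over`), so the poles have degree 2
(`deg_dv`); at a pole `2 ord y = card I * ord x`, so `ord x` is even. -/
theorem HE.exists_inf (h : HE e x y) : ∃ o : Place k K, o.ord x = -2 ∧
    o.ord y = -(Fintype.card I : ℤ) ∧ ∀ v : Place k K, v ≠ o → v.Ge x 0 := by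
  obtain ⟨i⟩ : Nonempty I := Fintype.card_pos_iff.1 h.odd.pos
  have hu := (h.W_spec i).1
  generalize h.W i = u at hu
  obtain ⟨E, hE⟩ : ∃ E : Dv k K, E = Finsupp.single u 1 + Finsupp.single (h.io.pl u) 1 -
    dv k (x - algebraMap k K (val u x)) := ⟨_, rfl⟩
  have h1 : ∀ w : Place k K, w.Ge x 0 → E w = 0 := fun w hw => by
    rw [hE, Finsupp.sub_apply, dv_apply, h.pl2_fin hu hw, sub_self]
  have h2 : ∀ w : Place k K, ¬ w.Ge x 0 → E w = -w.ord x := fun w hw => by
    rw [hE, Finsupp.sub_apply, dv_apply, pl2_pole_xc hw, Finsupp.add_apply,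
      Finsupp.single_eq_of_ne (show w ≠ u from fun e0 => hw (e0 ▸ hu)),
      Finsupp.single_eq_of_ne (show w ≠ h.io.pl u from fun e0 => hw (e0 ▸ (h.io_val hu).1)),
      add_zero, zero_sub]
  have h3 : deg E = 2 := by
    rw [hE, map_sub, map_add, deg_single, deg_single, deg_dv]
    rfl
  obtain ⟨o, ho⟩ : ∃ o : Place k K, ¬ o.Ge x 0 := by
    by_contra h4
    rw [show E = 0 from Finsupp.ext fun w => h1 w (by_contra fun h5 => h4 ⟨w, h5⟩), map_zero] at h3
    omega
  have h4 : E - Finsupp.single o 2 = 0 := by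
    refine eq_zero_of_deg_le (fun w => ?_) (by rw [map_sub, h3, deg_single, sub_self])
    rw [Finsupp.sub_apply, Finsupp.single_apply, Finsupp.zero_apply]
    by_cases hw : w.Ge x 0
    · rw [h1 w hw, if_neg (show o ≠ w from fun e0 => ho (e0 ▸ hw)), sub_self]
    · have := h.pl2_pole_le hw
      rw [h2 w hw]
      split_ifs <;> omega
  have h5 : ∀ w, E w = Finsupp.single o 2 w := fun w => by rw [sub_eq_zero.1 h4]
  have h6 : o.ord x = -2 := by
    have := h5 o
    rw [h2 o ho, Finsupp.single_eq_same] at this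
    omega
  refine ⟨o, h6, ?_, fun w hw => by_contra fun h7 => ?_⟩
  · have := h.pl2_pole_y ho
    rw [h6] at this
    omega
  · have h8 := h5 w
    have := h.pl2_pole_le h7
    rw [h2 w h7, Finsupp.single_eq_of_ne hw] at h8
    omega

/-- The place at infinity. -/
def HE.inf (h : HE e x y) : Place k K := h.exists_inf.choose

theorem HE.inf_x (h : HE e x y) : h.inf.ord x = -2 := h.exists_inf.choose_spec.1

theorem HE.inf_y (h : HE e x y) : h.inf.ord y = -(Fintype.card I : ℤ) :=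
  h.exists_inf.choose_spec.2.1

theorem HE.fin_iff (h : HE e x y) : v.Ge x 0 ↔ v ≠ h.inf := by
  refine ⟨fun hv e0 => ?_, h.exists_inf.choose_spec.2.2 v⟩
  have := hv.le (by simpa using h.xc_ne 0)
  rw [e0, h.inf_x] at this
  omega

theorem HE.W_ne (h : HE e x y) (i : I) : h.W i ≠ h.inf := h.fin_iff.1 (h.W_spec i).1

theorem HE.sa_inf (h : HE e x y) (s : SA k K) (hx : s.γ x = x) : s.pl h.inf = h.inf :=
  not_not.1 fun e0 => h.fin_iff.1 ((sa_fin s hx).1 (h.fin_iff.2 e0)) rfl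

theorem HE.inf_aeval (h : HE e x y) (p : k[X]) : h.inf.ord (aeval x p) = -2 * p.natDegree := by
  rw [pl2_pole_aeval (fun h1 => h.fin_iff.1 h1 rfl), h.inf_x, mul_comm]

/-- The order at infinity is minus the degree of the norm. -/
theorem HE.inf_el (h : HE e x y) (a b : k[X]) :
    h.inf.ord (aeval x a + aeval x b * y) = -((a ^ 2 - b ^ 2 * ff e).natDegree : ℤ) := by
  by_cases h0 : aeval x a + aeval x b * y = 0
  · obtain ⟨rfl, rfl⟩ := h.ind h0
    simp
  have h1 : h.io.γ (aeval x a + aeval x b * y) = aeval x a - aeval x b * y := by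
    rw [map_add, map_mul, h.io_aeval, h.io_aeval, h.io_y, mul_neg, sub_eq_add_neg]
  have h2 := h.io.pl_ord h.inf (aeval x a + aeval x b * y)
  have h3 := h.inf_aeval (a ^ 2 - b ^ 2 * ff e)
  rw [← h.norm, h.inf.ord_mul h0 (h1 ▸ (_root_.map_ne_zero _).2 h0)] at h3
  rw [h.sa_inf _ h.io_x, h1] at h2
  omega

theorem HE.dv_xc (h : HE e x y) (hv : v.Ge x 0) : dv k (x - algebraMap k K (val v x)) =
    Finsupp.single v 1 + Finsupp.single (h.io.pl v) 1 - Finsupp.single h.inf 2 := by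
  ext w
  rw [dv_apply, Finsupp.sub_apply]
  by_cases hw : w = h.inf
  · rw [hw, pl2_pole_xc (fun h1 => h.fin_iff.1 h1 rfl), h.inf_x, Finsupp.add_apply,
      Finsupp.single_eq_of_ne (h.fin_iff.1 hv).symm,
      Finsupp.single_eq_of_ne (h.fin_iff.1 (h.io_val hv).1).symm, Finsupp.single_eq_same]
    rfl
  · rw [h.pl2_fin hv (h.fin_iff.2 hw), Finsupp.single_eq_of_ne hw, sub_zero]

theorem HE.dv_xe (h : HE e x y) (i : I) : dv k (x - algebraMap k K (e i)) =
    2 • (Finsupp.single (h.W i) 1 - Finsupp.single h.inf 1) := by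
  obtain ⟨h1, h2, h3⟩ := h.W_spec i
  have h4 := h.dv_xc h1
  rw [h2, (h.io_fix h1).2 h3] at h4
  rw [h4, smul_sub, two_nsmul, Finsupp.smul_single]
  rfl

theorem HE.dv_y (h : HE e x y) :
    dv k y = ∑ i, (Finsupp.single (h.W i) 1 - Finsupp.single h.inf 1) := by
  have h1 : 2 • dv k y = 2 • ∑ i, (Finsupp.single (h.W i) 1 - Finsupp.single h.inf 1 : Dv k K) := by
    rw [← dv_pow, h.eq, ff_aeval, Finset.smul_sum]
    ext w
    rw [dv_apply, w.ord_prod _ _ fun i _ => h.xc_ne _, Finsupp.finsetSum_apply]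
    exact Finset.sum_congr rfl fun i _ => by rw [← h.dv_xe, dv_apply]
  ext w
  have h2 := DFunLike.congr_fun h1 w
  rw [Finsupp.smul_apply, Finsupp.smul_apply, two_nsmul, two_nsmul] at h2
  omega

/-- The involution is `-1` on the classes of degree zero. -/
theorem HE.io_pic (h : HE e x y) {D : Dv k K} (hD : deg D = 0) : h.io.pic (cl D) = -cl D := by
  have h1 : ∀ v : Place k K, cl (Finsupp.single v 1 + Finsupp.single (h.io.pl v) 1) =
      cl (Finsupp.single h.inf 2 : Dv k K) := fun v => by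
    by_cases hv : v = h.inf
    · rw [hv, h.sa_inf _ h.io_x, ← Finsupp.single_add]
      rfl
    · exact cl_eq.2 ⟨_, h.xc_ne _, h.dv_xc (h.fin_iff.2 hv)⟩
  have h2 : ∀ D : Dv k K, cl D + h.io.pic (cl D) = deg D • cl (Finsupp.single h.inf 2 : Dv k K) :=
    fun D => by
      induction D using Finsupp.induction_linear with
      | zero => simp
      | add a b ha hb => rw [map_add, map_add, map_add, add_add_add_comm, ha, hb, add_zsmul]
      | single v m =>
        rw [SA.pic_cl, SA.dm_single, deg_single, ← h1 v, ← map_add, ← map_zsmul, smul_add,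
          Finsupp.smul_single, Finsupp.smul_single, smul_eq_mul, mul_one]
  have h3 := h2 D
  rw [hD, zero_zsmul] at h3
  exact eq_neg_of_add_eq_zero_right h3

theorem HE.io_tor (h : HE e x y) {n : ℕ} (hn : n ≠ 0) {c : Pic k K} (hc : n • c = 0) :
    h.io.pic c = -c := by
  obtain ⟨A, f, hA, h1, -⟩ := exists_adm (⟨c, hc⟩ : Tor k K n) ∅
  rw [← show cl A = c from h1, h.io_pic (hA.deg_eq hn)]

theorem HE.pl2_two (h : HE e x y) (hv : v.Ge x 0) (h0 : val v y = 0) {p : k[X]}
    (hp : p.eval (val v x) = 0) : v.Ge (aeval x p) 2 := by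
  obtain ⟨q, rfl⟩ := dvd_iff_isRoot.2 hp
  have h1 := h.ord_xc hv (val v x)
  rw [if_pos rfl, if_pos h0] at h1
  simpa using (Place.Ge.of_le h1.ge).mul (ge_aeval hv q).1

theorem HE.pl2_root (h : HE e x y) {z : K} (hz : ∀ v : Place k K, v ≠ h.inf → v.Ge z 0)
    {a b d : k[X]} (h1 : z * aeval x d = aeval x a + aeval x b * y) {c : k} (hc : d.eval c = 0) :
    a.eval c = 0 ∧ b.eval c = 0 := by
  obtain ⟨y₀, h0⟩ := IsAlgClosed.exists_pow_nat_eq ((ff e).eval c) two_pos
  have h2 : ∀ v : Place k K, v.Ge x 0 → val v x = c → a.eval c + b.eval c * val v y = 0 :=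
    fun v hv e0 => by
      rw [← e0, ← (h.ge_el hv a b).2, ← h1, val_mul (hz v (h.fin_iff.1 hv)) (ge_aeval hv d).1,
        (ge_aeval hv d).2, e0, hc, mul_zero]
  obtain ⟨v, hv, rfl, rfl⟩ := h.exists_pl h0
  obtain ⟨h3, h4, h5⟩ := h.io_val hv
  have h6 := h2 v hv rfl
  have h7 := h2 _ h3 h4
  rw [h5] at h7
  have h8 : a.eval (val v x) = 0 :=
    (mul_eq_zero.1 (show 2 * a.eval (val v x) = 0 by linear_combination h6 + h7)).resolve_left h.two
  refine ⟨h8, by_contra fun h9 => ?_⟩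
  rw [h8, zero_add] at h6
  have hy := (mul_eq_zero.1 h6).resolve_left h9
  have g1 := ((hz v (h.fin_iff.1 hv)).mul (h.pl2_two hv hy hc)).sub
    ((h.pl2_two hv hy h8).mono (zero_add _).le)
  obtain ⟨g2, g3⟩ := ord_of_val_ne (v := v) (f := aeval x b) (by rwa [(ge_aeval hv b).2])
  rw [h1, add_sub_cancel_left] at g1
  have g4 := g1.le (mul_ne_zero g2 h.y_ne)
  rw [v.ord_mul g2 h.y_ne, g3, h.ord_y hv, if_pos hy] at g4
  omega

/-- Take `z d = a + b y` with `d` of minimal degree.  If `d (x₀) = 0`, then `a + b y` vanishes at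
the places over `x₀` (to order 2 at a Weierstrass point), so `a (x₀) = b (x₀) = 0`. -/
theorem HE.poly (h : HE e x y) {z : K} (hz : ∀ v : Place k K, v ≠ h.inf → v.Ge z 0) :
    ∃ a b : k[X], z = aeval x a + aeval x b * y := by
  obtain ⟨a, b, d, hd, h1⟩ := h.gen z
  induction hn : d.natDegree using Nat.strong_induction_on generalizing a b d with
  | _ n ih =>
  by_cases h0 : d.degree = 0
  · obtain ⟨c, rfl⟩ : ∃ c, d = C c := ⟨_, eq_C_of_degree_eq_zero h0⟩
    have hc : algebraMap k K c ≠ 0 := by simpa using hd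
    refine ⟨C c⁻¹ * a, C c⁻¹ * b, mul_right_cancel₀ hc ?_⟩
    rw [aeval_C] at h1
    rw [h1, map_mul, map_mul, aeval_C, map_inv₀]
    field_simp
  obtain ⟨c, hc⟩ := IsAlgClosed.exists_root d h0
  obtain ⟨h2, h3⟩ := h.pl2_root hz h1 hc
  obtain ⟨a₁, rfl⟩ := dvd_iff_isRoot.2 h2
  obtain ⟨b₁, rfl⟩ := dvd_iff_isRoot.2 h3
  obtain ⟨d₁, rfl⟩ := dvd_iff_isRoot.2 hc
  have hd₁ := right_ne_zero_of_mul hd
  refine ih d₁.natDegree ?_ a₁ b₁ d₁ hd₁ (mul_left_cancel₀ (h.xc_ne c) ?_) rfl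
  · rw [← hn, natDegree_mul (X_sub_C_ne_zero c) hd₁, natDegree_X_sub_C]
    omega
  · simp only [map_mul, map_sub, aeval_X, aeval_C] at h1
    linear_combination h1

/-- The fixed places of a semilinear automorphism that fixes the coordinates. -/
theorem HE.ncard_fix (h : HE e x y) (s : SA k K) (hx : s.γ x = x) (hy : s.γ y = y)
    (hf : {v | s.pl v = v}.Finite) : {v | s.pl v = v}.ncard =
      {P : k × k | P.2 ^ 2 = (ff e).eval P.1 ∧ s.a P.1 = P.1 ∧ s.a P.2 = P.2}.ncard + 1 := by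
  have h1 : {v | s.pl v = v} = insert h.inf {v | s.pl v = v ∧ v.Ge x 0} := by
    ext v
    refine ⟨fun hv => ?_, ?_⟩
    · by_cases h2 : v = h.inf
      exacts [Or.inl h2, Or.inr ⟨hv, h.fin_iff.2 h2⟩]
    · rintro (rfl | hv)
      exacts [h.sa_inf s hx, hv.1]
  have h2 : {P : k × k | P.2 ^ 2 = (ff e).eval P.1 ∧ s.a P.1 = P.1 ∧ s.a P.2 = P.2} =
      (fun v : Place k K => (val v x, val v y)) '' {v | s.pl v = v ∧ v.Ge x 0} := by
    ext ⟨x₀, y₀⟩
    refine ⟨fun ⟨g1, g2, g3⟩ => ?_, ?_⟩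
    · obtain ⟨v, hv, rfl, rfl⟩ := h.exists_pl g1
      exact ⟨v, ⟨h.pl_ext ((sa_fin s hx).2 hv) hv ((sa_val s hx v).trans g2)
        ((sa_val s hy v).trans g3), hv⟩, rfl⟩
    · rintro ⟨v, ⟨g1, g2⟩, g3⟩
      obtain ⟨rfl, rfl⟩ := Prod.mk.inj g3
      exact ⟨h.on g2, by rw [← sa_val s hx, g1], by rw [← sa_val s hy, g1]⟩
  rw [h2, Set.InjOn.ncard_image fun v hv w hw e0 =>
    h.pl_ext hv.2 hw.2 (Prod.mk.inj e0).1 (Prod.mk.inj e0).2, h1,
    Set.ncard_insert_of_notMem (fun g => h.fin_iff.1 g.2 rfl) (hf.subset fun v hv => hv.1)]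

end

end Pool.Agent.Lib.MP_16ef92_ag.HY
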