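import Mathlib
import Pool.Agent.Lib.MP_16ef92_ag.HY.BUfd
import Pool.Agent.Lib.MP_16ef92_ag.HY.Pl2

set_option autoImplicit false
set_option linter.unusedSectionVars false
set_option linter.unusedVariables false
set_option linter.style.haveILetI false

namespace Pool.Agent.Lib.MP_16ef92_ag.HY

open Polynomial AL Pool.Agent.Lib.MP_6adaea_nt

noncomputable section

variable {A k K I : Type} [CommRing A] [Field k] [Field K] [Algebra k K] [Fintype I] {e : I → k}
  {x y : K} {f : A[X]} {ι : A →+* k} {φ : Yr f →+* K}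

/-- `φ` maps the coordinate ring over `A` to the function field over `k`. -/
structure YM (e : I → k) (x y : K) (ι : A →+* k) {f : A[X]} (φ : Yr f →+* K) : Prop where
  map : f.map ι = ff e
  alg : ∀ a, φ (algebraMap A _ a) = algebraMap k K (ι a)
  x : φ (xY f) = x
  y : φ (yY f) = y

theorem HE.exists_ym (h : HE e x y) (hf : f.map ι = ff e) : ∃ φ : Yr f →+* K, YM e x y ι φ := by
  obtain ⟨w, w1, w2, w3⟩ := Y_lift f ((algebraMap k K).comp ι) x y (by
    rw [h.eq, ← hf, aeval_def, eval₂_map])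
  exact ⟨w, hf, RingHom.congr_fun w1, w2, w3⟩

theorem YM.unique {φ' : Yr f →+* K} (h : YM e x y ι φ) (h' : YM e x y ι φ') : φ = φ' :=
  Y_ext (RingHom.ext fun a => (h.alg a).trans (h'.alg a).symm) (h.x.trans h'.x.symm)
    (h.y.trans h'.y.symm)

theorem YM.pol (h : YM e x y ι φ) (p : A[X]) :
    φ (algebraMap A[X] (Yr f) p) = aeval x (p.map ι) := by
  rw [Y_eval, h.x, aeval_def, eval₂_map]
  exact congrArg (fun u => eval₂ u x p) (RingHom.ext h.alg)

theorem YM.rep (h : YM e x y ι φ) (u v : A[X]) :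
    φ (algebraMap A[X] (Yr f) u + algebraMap A[X] (Yr f) v * yY f) =
      aeval x (u.map ι) + aeval x (v.map ι) * y := by
  rw [map_add, map_mul, h.pol, h.pol, h.y]

theorem YM.comp {A' : Type} [CommRing A'] {f' : A'[X]} {τ : A' →+* A} (hτ : f'.map τ = f)
    (h : YM e x y ι φ) : YM e x y (ι.comp τ) (φ.comp (Ymap τ hτ)) :=
  ⟨by rw [← map_map, hτ, h.map], fun a => by rw [RingHom.comp_apply, Ymap_alg, h.alg]; rfl,
    by rw [RingHom.comp_apply, Ymap_x, h.x], by rw [RingHom.comp_apply, Ymap_y, h.y]⟩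

theorem YM.eq_zero (h : YM e x y ι φ) (H : HE e x y) {u v : A[X]} :
    φ (algebraMap A[X] (Yr f) u + algebraMap A[X] (Yr f) v * yY f) = 0 ↔
      u.map ι = 0 ∧ v.map ι = 0 := by
  rw [h.rep]
  exact ⟨H.ind, fun h0 => by rw [h0.1, h0.2, map_zero, zero_mul, add_zero]⟩

theorem YM.inj (h : YM e x y ι φ) (H : HE e x y) (hι : Function.Injective ι) :
    Function.Injective φ := (injective_iff_map_eq_zero _).2 fun z hz => by
  obtain ⟨u, v, rfl⟩ := Y_rep z
  obtain ⟨h1, h2⟩ := (h.eq_zero H).1 hz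
  rw [(Polynomial.map_eq_zero_iff hι).1 h1, (Polynomial.map_eq_zero_iff hι).1 h2, map_zero,
    zero_mul, add_zero]

/-- The kernel is generated by the kernel on the base. -/
theorem YM.ker (h : YM e x y ι φ) (H : HE e x y) :
    RingHom.ker φ = (RingHom.ker ι).map (algebraMap A (Yr f)) := by
  obtain ⟨ψ, hψ⟩ := H.exists_ym (f := ff e) (ι := RingHom.id k) (map_id)
  have h1 := (hψ.comp h.map).unique (RingHom.id_comp ι ▸ h)
  rw [← h1, ← Ymap_ker ι h.map, ← RingHom.comap_ker,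
    (RingHom.injective_iff_ker_eq_bot _).1 (hψ.inj H Function.injective_id)]
  rfl

theorem YM.io (h : YM e x y ι φ) (H : HE e x y) (z : Yr f) : φ (cY f z) = H.io.γ (φ z) := by
  obtain ⟨u, v, rfl⟩ := Y_rep z
  rw [cY_rep, h.rep, map_sub, map_mul, h.pol, h.pol, h.y, map_add, map_mul, H.io_aeval, H.io_aeval,
    H.io_y, mul_neg, sub_eq_add_neg]

theorem YM.frac {φ : Yr (ff e) →+* K} (h : YM e x y (RingHom.id k) φ) (H : HE e x y) :
    letI := φ.toAlgebra
    IsFractionRing (Yr (ff e)) K := by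
  letI := φ.toAlgebra
  have hi := h.inj H Function.injective_id
  have := hi.isDomain
  have : FaithfulSMul (Yr (ff e)) K := (faithfulSMul_iff_algebraMap_injective _ _).2 hi
  refine IsFractionRing.of_field _ _ fun z => ?_
  obtain ⟨u, v, d, hd, h1⟩ := H.gen z
  refine ⟨algebraMap k[X] _ u + algebraMap k[X] _ v * yY _, algebraMap k[X] _ d, ?_⟩
  change z = φ _ / φ _
  rw [h.rep, h.pol, map_id, map_id, map_id, ← h1, mul_div_cancel_right₀ _ (H.aeval_ne hd)]

theorem exists_mult [IsDomain A] (hι : Function.Injective ι) (p : ℕ) [ExpChar k p] {x₀ : k}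
    {N : A[X]} (hN : N ≠ 0) (h0 : N.eval₂ ι x₀ = 0) :
    ∃ (g : A[X]) (j : ℕ), g ≠ 0 ∧ (g.map ι).rootMultiplicity x₀ = p ^ j := by
  let L := FractionRing A
  letI : Algebra L k := (IsFractionRing.lift hι : L →+* k).toAlgebra
  have hc : (algebraMap L k).comp (algebraMap A L) = ι :=
    RingHom.ext (IsFractionRing.lift_algebraMap hι)
  have hi : IsIntegral L x₀ := IsAlgebraic.isIntegral ⟨N.map (algebraMap A L),
    (Polynomial.map_ne_zero_iff (IsFractionRing.injective A L)).2 hN, by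
      rw [aeval_def, eval₂_map, hc, h0]⟩
  have : ExpChar L p := RingHom.expChar (algebraMap L k) (algebraMap L k).injective p
  obtain ⟨g, hg, j, hj⟩ := (minpoly.irreducible hi).hasSeparableContraction p
  obtain ⟨b, hb, h1⟩ := IsLocalization.integerNormalization_spec (nonZeroDivisors A) (minpoly L x₀)
  have h2 : (IsLocalization.integerNormalization (nonZeroDivisors A) (minpoly L x₀)).map ι =
      C (ι b) * expand k (p ^ j) (g.map (algebraMap L k)) := by
    rw [← hc, ← map_map, h1, ← hj, ← map_expand, Algebra.smul_def, Polynomial.map_mul,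
      Polynomial.algebraMap_apply, map_C]
    rfl
  have h3 : g.map (algebraMap L k) ≠ 0 := hg.map.ne_zero
  have h4 : C (ι b) * expand k (p ^ j) (g.map (algebraMap L k)) ≠ 0 :=
    mul_ne_zero (C_ne_zero.2 ((map_ne_zero_iff _ hι).2 (nonZeroDivisors.ne_zero hb)))
      ((expand_ne_zero (expChar_pow_pos k p j)).2 h3)
  refine ⟨IsLocalization.integerNormalization (nonZeroDivisors A) (minpoly L x₀), j,
    fun e0 => h4 (by rw [← h2, e0, Polynomial.map_zero]), ?_⟩
  have h5 : (g.map (algebraMap L k)).IsRoot (x₀ ^ p ^ j) := by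
    rw [IsRoot.def, eval_map, ← aeval_def, ← expand_aeval, hj, minpoly.aeval]
  rw [h2, rootMultiplicity_mul h4, rootMultiplicity_C, zero_add, rootMultiplicity_expand_pow,
    le_antisymm (rootMultiplicity_le_one_of_separable hg.map _) ((rootMultiplicity_pos h3).2 h5),
    mul_one]

/-- A horizontal prime is the kernel of a point with values in `k`. -/
theorem exists_pt_ker [IsDomain A] [IsDomain (Yr f)] [IsAlgClosed k] (hι : Function.Injective ι)
    {P : Ideal (Yr f)} (hP : P.IsPrime) (h0 : P.under A = ⊥) {π : Yr f} (hπ : π ∈ P) (π0 : π ≠ 0) :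
    ∃ (w : Yr f →+* k) (N : A[X]), w.comp (algebraMap A _) = ι ∧ (∀ z, w z = 0 ↔ z ∈ P) ∧ N ≠ 0 ∧
      N.eval₂ ι (w (xY f)) = 0 := by
  obtain ⟨N, hN⟩ : ∃ N : A[X], π * cY f π = algebraMap A[X] (Yr f) N := by
    obtain ⟨u, v, rfl⟩ := Y_rep π
    exact ⟨_, Y_norm u v⟩
  have π1 : cY f π ≠ 0 := fun e1 => π0 (by rw [← cY_cY π, e1, map_zero])
  have N0 : N ≠ 0 := fun e0 => mul_ne_zero π0 π1 (by rw [hN, e0, map_zero])
  have hNP : algebraMap A[X] (Yr f) N ∈ P := hN ▸ P.mul_mem_right _ hπ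
  have hev : ∀ p : A[X], Ideal.Quotient.mk P (algebraMap A[X] (Yr f) p) =
      aeval (Ideal.Quotient.mk P (xY f)) p := Y_eval (Ideal.Quotient.mk P)
  have hx : Ideal.Quotient.mk P (xY f) ∈ Subalgebra.algebraicClosure A (Yr f ⧸ P) :=
    ⟨N, N0, by rw [← hev, Ideal.Quotient.eq_zero_iff_mem.2 hNP]⟩
  have hp : ∀ p : A[X], Ideal.Quotient.mk P (algebraMap A[X] (Yr f) p) ∈
      Subalgebra.algebraicClosure A (Yr f ⧸ P) := fun p => by
    rw [hev]
    exact Algebra.adjoin_le (Set.singleton_subset_iff.2 hx) (aeval_mem_adjoin_singleton A _)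
  have hy : Ideal.Quotient.mk P (yY f) ∈ Subalgebra.algebraicClosure A (Yr f ⧸ P) :=
    IsAlgebraic.of_pow two_pos (by rw [← map_pow, yY_sq]; exact hp f)
  have ha : Algebra.IsAlgebraic A (Yr f ⧸ P) := ⟨fun z => by
    obtain ⟨z, rfl⟩ := Ideal.Quotient.mk_surjective z
    obtain ⟨u, v, rfl⟩ := Y_rep z
    rw [map_add, map_mul]
    exact add_mem (hp u) (mul_mem (hp v) hy)⟩
  letI := ι.toAlgebra
  have : FaithfulSMul A k := (faithfulSMul_iff_algebraMap_injective _ _).2 hι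
  have : FaithfulSMul A (Yr f ⧸ P) := (faithfulSMul_iff_algebraMap_injective _ _).2
    ((injective_iff_map_eq_zero _).2 fun a h1 => by
      rw [← Ideal.mem_bot, ← h0]
      exact (Ideal.Quotient.eq_zero_iff_mem (I := P)).1 h1)
  obtain ⟨j, hj⟩ : ∃ j : (Yr f ⧸ P) →+* k, j.comp (algebraMap A _) = ι :=
    ⟨(IsAlgClosed.lift : (Yr f ⧸ P) →ₐ[A] k), AlgHom.comp_algebraMap _⟩
  have hc : (j.comp (Ideal.Quotient.mk P)).comp (algebraMap A _) = ι := hj
  have hk : ∀ z, (j.comp (Ideal.Quotient.mk P)) z = 0 ↔ z ∈ P := fun z => by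
    rw [← Ideal.Quotient.eq_zero_iff_mem]
    refine ⟨fun h1 => by_contra fun h2 => Ideal.comap_ne_bot_of_algebraic_mem
      (I := RingHom.ker j) h2 h1 (ha.1 _) ?_, fun h1 => by rw [RingHom.comp_apply, h1, map_zero]⟩
    rw [RingHom.comap_ker, ← RingHom.injective_iff_ker_eq_bot, hj]
    exact hι
  exact ⟨_, N, hc, hk, N0, by rw [← hc, ← Y_eval, hk]; exact hNP⟩

variable [IsAlgClosed k] [IsFF k K] [PosChar k] {v : Place k K}

theorem YM.ge (h : YM e x y ι φ) (H : HE e x y) (hv : v.Ge x 0) (z : Yr f) : v.Ge (φ z) 0 := by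
  obtain ⟨a, b, rfl⟩ := Y_rep z
  rw [h.rep]
  exact (H.ge_el hv _ _).1

theorem YM.val (h : YM e x y ι φ) (H : HE e x y) (hv : v.Ge x 0) {w : Yr f →+* k}
    (w1 : w.comp (algebraMap A _) = ι) (w2 : w (xY f) = val v x) (w3 : w (yY f) = val v y)
    (z : Yr f) : val v (φ z) = w z := by
  obtain ⟨a, b, rfl⟩ := Y_rep z
  rw [h.rep, (H.ge_el hv _ _).2, map_add, map_mul, Y_eval, Y_eval, w1, w2, w3, eval_map, eval_map]

/-- The point of a finite place. -/
theorem YM.exists_pt (h : YM e x y ι φ) (H : HE e x y) (hv : v.Ge x 0) :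
    ∃ w : Yr f →+* k, w.comp (algebraMap A _) = ι ∧ ∀ z, AL.val v (φ z) = w z := by
  obtain ⟨w, w1, w2, w3⟩ := Y_lift f ι (AL.val v x) (AL.val v y) (by
    rw [H.on hv, ← h.map, eval_map])
  exact ⟨w, w1, h.val H hv w1 w2 w3⟩

/-- The place of a point. -/
theorem YM.exists_pl (h : YM e x y ι φ) (H : HE e x y) {w : Yr f →+* k}
    (w1 : w.comp (algebraMap A _) = ι) :
    ∃ v : Place k K, v.Ge x 0 ∧ ∀ z, AL.val v (φ z) = w z := by
  obtain ⟨v, hv, h1, h2⟩ := H.exists_pl (x₀ := w (xY f)) (y₀ := w (yY f)) (by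
    rw [Y_eq, w1, ← h.map, eval_map])
  exact ⟨v, hv, h.val H hv w1 h1.symm h2.symm⟩

/-- At a horizontal prime the order of a place above is a power of `p` times the order. -/
theorem YM.hor [IsDomain A] [IsDomain (Yr f)] (h : YM e x y ι φ) (H : HE e x y)
    (hι : Function.Injective ι) {n : ℕ} (hn : (n : k) ≠ 0) {P : Ideal (Yr f)} {π g : Yr f}
    (hP : Un P π) (h0 : P.under A = ⊥) {a : ℕ} (ha : Od P π g a)
    (hg : ∀ v : Place k K, v ≠ H.inf → (n : ℤ) ∣ v.ord (φ g)) : n ∣ a := by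
  obtain ⟨p, hp, _⟩ := PosChar.ex (k := k)
  have := Fact.mk hp
  obtain ⟨w, N, w1, hw, N0, hN⟩ := exists_pt_ker hι hP.prime h0 hP.mem hP.ne
  obtain ⟨v, hv, hval⟩ := h.exists_pl H w1
  have hi := h.inj H hι
  have key : ∀ {z : Yr f} {b : ℕ}, Od P π z b → v.ord (φ z) = b * v.ord (φ π) := by
    rintro z b ⟨s, t, hs, ht, e0⟩
    have h1 := ord_of_val_ne (v := v) (f := φ s) (by rw [hval]; exact fun e1 => hs ((hw s).1 e1))
    have h2 := ord_of_val_ne (v := v) (f := φ t) (by rw [hval]; exact fun e1 => ht ((hw t).1 e1))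
    have h3 : φ π ^ b ≠ 0 := pow_ne_zero _ ((map_ne_zero_iff _ hi).2 hP.ne)
    have h4 := congrArg φ e0
    rw [map_mul, map_mul, map_pow] at h4
    have h5 := congrArg v.ord h4
    rwa [v.ord_mul (left_ne_zero_of_mul (h4 ▸ mul_ne_zero h3 h1.1)) h2.1, v.ord_mul h3 h1.1, h1.2,
      h2.2, add_zero, add_zero, v.ord_pow] at h5
  obtain ⟨z, j, z0, hz⟩ : ∃ (z : Yr f) (j : ℕ), z ≠ 0 ∧ v.ord (φ z) = p ^ j := by
    by_cases hy : AL.val v y = 0
    · exact ⟨yY f, 0, fun e0 => H.y_ne (by rw [← h.y, e0, map_zero]), by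
        rw [h.y, (H.ord_par hv).2 hy, pow_zero]⟩
    · obtain ⟨q, j, q0, hq⟩ := exists_mult hι p N0 hN
      refine ⟨algebraMap A[X] _ q, j, (map_ne_zero_iff _ (Y_inj f)).2 q0, ?_⟩
      rw [h.pol, H.ord_aeval hv ((Polynomial.map_ne_zero_iff hι).2 q0), if_neg hy, one_mul, ← h.x,
        hval, hq, Nat.cast_pow]
  obtain ⟨b, hb⟩ := hP.ex z z0
  have h1 := (hg v (H.fin_iff.1 hv)).mul_left b
  rw [key ha, mul_left_comm, ← key hb, hz] at h1
  have h2 : n.Coprime (p ^ j) := (((Nat.Prime.coprime_iff_not_dvd hp).2 fun h3 =>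
    hn ((CharP.cast_eq_zero_iff k p n).2 h3)).symm).pow_right j
  exact h2.dvd_of_dvd_mul_right (by exact_mod_cast h1)

/-- The hypothesis of `CV.exists_isKum`. -/
theorem YM.pw {A : Type} [CommRing A] [IsDedekindDomain A] [IsJacobsonRing A] (hA : ¬IsField A)
    {f : A[X]} {ι : A →+* k} {φ : Yr f →+* K} (h : YM e x y ι φ) (H : HE e x y) (ho : OkF f)
    (hι : Function.Injective ι) {n n' : ℕ} (hn : (n : k) ≠ 0) (hn' : ∀ a, n' ∣ 2 * a → n ∣ a)
    {g u d : Yr f} (g0 : g ≠ 0) (hg : ∀ v : Place k K, v ≠ H.inf → (n : ℤ) ∣ v.ord (φ g))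
    (hd : d ≠ 0) (e0 : g * cY f g * d ^ n' = u ^ n' ∨ g * cY f g * d ^ n' = -u ^ n')
    (q : Ideal (Yr f)) (hq : q.IsPrime) :
    ∃ r s z : Yr f, r ∉ q ∧ s ∉ q ∧ g * r = s * z ^ n := by
  have := ho.dom
  refine pw_of_un (fun m _ => ho.ufd hA m) g0 (fun P π a hP ha => ?_) q hq
  by_cases h0 : P.under A = ⊥
  · exact h.hor H hι hn hP h0 ha hg
  · exact hn' a (ho.vert hP h0 ha hd g0 e0)

theorem dvd_of_two {l : ℕ} (hl : l.Prime) (m a : ℕ) (h : l ^ (m + 1) ∣ 2 * a) : l ^ m ∣ a := by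
  rcases hl.eq_two_or_odd' with rfl | ho
  · rw [pow_succ'] at h
    exact Nat.dvd_of_mul_dvd_mul_left two_pos h
  · exact (pow_dvd_pow l m.le_succ).trans
      ((Nat.Coprime.pow_left _ (Nat.coprime_two_right.2 ho)).dvd_of_dvd_mul_left h)

end

end Pool.Agent.Lib.MP_16ef92_ag.HY
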