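import Mathlib
import Pool.Agent.Lib.MP_16ef92_ag.LH.Main

set_option autoImplicit false
set_option linter.unusedSectionVars false
set_option linter.unusedVariables false
set_option linter.style.haveILetI false

namespace Pool.Agent.Lib.MP_16ef92_ag.HY

open RS LH Polynomial

noncomputable section

variable [Bg] {A R R' T Y V W : Type} [CommRing A] [CommRing R] [CommRing R'] [CommRing T]
  [CommRing Y] [CommRing V] [CommRing W] {n : ℕ} [NeZero n] {κ : Type} [Fintype κ]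

/-- The sum of the cup products with the classes. -/
def lh (c : κ → H 1 (cst V (ZMod n))) (j : R →+* V) {F : Sys R} (hF : F.Tor n) (q : ℕ)
    (m : κ → H q F) : HH (q + 1) F j :=
  ∑ e, cup (hF.pb j) (c e) q (Hmap q (F.can j) (m e))

/-- The cohomology of `V` over a base without cohomology. -/
structure FibK (n : ℕ) [NeZero n] (j : R →+* V) (c : κ → H 1 (cst V (ZMod n))) : Prop where
  b0 : ∀ F : Sys R, Function.Surjective (Hmap 0 (F.can j))
  b1 : ∀ F : Sys R, F.Tor n → ∀ (q : ℕ) (ξ : HH (q + 2) F j), ξ = 0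
  b2 : ∀ (F : Sys R) (hF : F.Tor n) (ξ : HH 1 F j), ∃ m, lh c j hF 0 m = ξ
  b3 : ∀ (F : Sys R) (hF : F.Tor n) (m : κ → H 0 F), lh c j hF 0 m = 0 → m = 0

/-- A family of curves with classes that form a basis on every geometric fibre. -/
structure Fbr (n : ℕ) [NeZero n] (f : A →+* Y) (c : κ → H 1 (cst Y (ZMod n))) : Prop where
  flat : f.Flat
  fp : f.FinitePresentation
  sur : Sur f
  loc : LocA f
  fib : ∀ (K : Type) [Field K] [IsAlgClosed K], Good K → ∀ (τ : A →+* K) (V : Type) [CommRing V]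
    (i : Y →+* V) (j : K →+* V), FA.PO f τ i j → FibK n j fun e => cpb i (c e)

theorem lh_nat (c : κ → H 1 (cst Y (ZMod n))) {g : R →+* T} {F : Sys R} {F' : Sys T}
    (hF : F.Tor n) (hF' : F'.Tor n) (μ : Mor g F F') {j : R →+* Y} {i : Y →+* V} {j' : T →+* V}
    (h : i.comp j = j'.comp g) (q : ℕ) (m : κ → H q F) :
    Hmap (q + 1) (bcM μ h) (lh c j hF q m) =
      lh (fun e => cpb i (c e)) j' hF' q fun e => Hmap q μ (m e) := by
  rw [lh, lh, map_sum]
  exact Finset.sum_congr rfl fun e _ => by rw [cup_nat _ (hF'.pb j'), bcM_can]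

/-- The Leray-Hirsch map as an additive map. -/
def lhL (c : κ → H 1 (cst V (ZMod n))) (j : R →+* V) {F : Sys R} (hF : F.Tor n) (q : ℕ) :
    (κ → H q F) →+ HH (q + 1) F j :=
  AddMonoidHom.mk' (lh c j hF q) fun m m' => by
    simp only [lh, Pi.add_apply, map_add, Finset.sum_add_distrib]

theorem lh_zero' (c : κ → H 1 (cst V (ZMod n))) (j : R →+* V) {F : Sys R} (hF : F.Tor n)
    (q : ℕ) : lh c j hF q 0 = 0 := map_zero (lhL c j hF q)

theorem del_lh {F₁ F₂ F₃ : Sys R} {i : Hom F₁ F₂} {p : Hom F₂ F₃} (h : SES i p) (h₁ : F₁.Tor n)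
    (h₂ : F₂.Tor n) (h₃ : F₃.Tor n) (c : κ → H 1 (cst V (ZMod n))) (j : R →+* V) (q : ℕ)
    (m : κ → H q F₃) :
    (h.pb j).del (q + 1) (lh c j h₃ q m) = lh c j h₁ (q + 1) fun e => h.del q (m e) := by
  rw [lh, lh]
  refine (map_sum _ _ _).trans (Finset.sum_congr rfl fun e _ => ?_)
  refine (del_cup (h.pb j) (h₁.pb j) (h₂.pb j) (h₃.pb j) (c e) q _).trans (congrArg _ ?_)
  exact (h.del_nat (h.pb j) (F₁.can j) (F₂.can j) (F₃.can j) (fun _ _ _ => rfl) (fun _ _ _ => rfl)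
    q (m e)).symm

theorem Fbr.bc {f : A →+* Y} {c : κ → H 1 (cst Y (ZMod n))} (h : Fbr n f c) {τ : A →+* R}
    {i : Y →+* V} {j : R →+* V} (hP : FA.PO f τ i j) : Fbr n j fun e => cpb i (c e) := by
  refine ⟨hP.symm.of_stable RingHom.Flat.respectsIso RingHom.Flat.isStableUnderBaseChange h.flat,
    hP.symm.fp h.fp, fun x => ?_, h.loc.bc hP, fun K _ _ hK τ' V' _ i' j' hP' => ?_⟩
  · obtain ⟨y, hy⟩ := h.sur (x.comp τ)
    obtain ⟨z, -, z2⟩ := hP.ex OO y x hy
    exact ⟨z, z2⟩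
  · have := h.fib K hK _ V' _ j' (hP.symm.paste hP'.symm).symm
    simpa only [cpb_cpb] using this

theorem fiba_lh {V' : Type} [CommRing V'] {j : R →+* V} {j' : R →+* V'} {e : V →+* V'}
    (h : e.comp j = j') (c : κ → H 1 (cst V (ZMod n))) {F : Sys R} (hF : F.Tor n) (q : ℕ)
    (m : κ → H q F) : HR (q + 1) F e h (lh c j hF q m) = lh (fun i => cpb e (c i)) j' hF q m := by
  rw [lh, lh, map_sum]
  exact Finset.sum_congr rfl fun i _ =>
    (cup_nat (hF.pb j) (hF.pb j') (F.rm e h) (c i) q _).trans (congrArg _ (HR_can q F e h (m i)))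

theorem fiba_bij {V' : Type} [CommRing V'] {j : R →+* V} {j' : R →+* V'} {e : V →+* V'}
    (he : Function.Bijective e) (h : e.comp j = j') (q : ℕ) (F : Sys R) :
    Function.Bijective (HR q F e h) := by
  subst h
  exact Hmap_bij' q _ he (fun _ _ _ h => h) fun _ v hv => ⟨v, hv, rfl⟩

theorem fibK_equiv {V' : Type} [CommRing V'] {j : R →+* V} {j' : R →+* V'} {e : V →+* V'}
    (he : Function.Bijective e) (h : e.comp j = j') {c : κ → H 1 (cst V (ZMod n))}
    (hc : FibK n j c) : FibK n j' fun i => cpb e (c i) where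
  b0 F ξ := by
    obtain ⟨ξ, rfl⟩ := (fiba_bij he h 0 F).2 ξ
    obtain ⟨ξ, rfl⟩ := hc.b0 F ξ
    exact ⟨ξ, (HR_can 0 F e h ξ).symm⟩
  b1 F hF q ξ := by
    obtain ⟨ξ, rfl⟩ := (fiba_bij he h (q + 2) F).2 ξ
    rw [hc.b1 F hF q ξ, map_zero]
  b2 F hF ξ := by
    obtain ⟨ξ, rfl⟩ := (fiba_bij he h 1 F).2 ξ
    obtain ⟨m, rfl⟩ := hc.b2 F hF ξ
    exact ⟨m, (fiba_lh h c hF 0 m).symm⟩
  b3 F hF m h0 := hc.b3 F hF m ((fiba_bij he h 1 F).1
    ((fiba_lh h c hF 0 m).trans (h0.trans (map_zero _).symm)))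

end

end Pool.Agent.Lib.MP_16ef92_ag.HY
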