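import Mathlib
import Pool.Agent.Lib.MP_16ef92_ag.HY.Def

set_option autoImplicit false
set_option linter.unusedSectionVars false
set_option linter.unusedVariables false

namespace Pool.Agent.Lib.MP_16ef92_ag.HY

open Polynomial Module AL Pool.Agent.Lib.MP_6adaea_nt

noncomputable section

/-- Coordinates on the Tate module of an abelian group. -/
structure TA (l : ℕ) [Fact l.Prime] {A κ : Type} [AddCommGroup A]
    (ev : (κ → ℤ_[l]) →+ ℕ → A) : Prop where
  mem : ∀ x, ev x 0 = 0 ∧ ∀ n, l • ev x (n + 1) = ev x n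
  surj : ∀ P : ℕ → A, (P 0 = 0 ∧ ∀ n, l • P (n + 1) = P n) → ∃ x, ev x = P
  lvl : ∀ n (P : A), l ^ n • P = 0 → ∃ x, ev x n = P
  zero : ∀ n x, ev x n = 0 ↔ ∀ i, (l : ℤ_[l]) ^ n ∣ x i

variable {l : ℕ} [Fact l.Prime] {A B κ κ' : Type} [AddCommGroup A] [AddCommGroup B] [Fintype κ]
  [Fintype κ'] {ev : (κ → ℤ_[l]) →+ ℕ → A} {ev' : (κ' → ℤ_[l]) →+ ℕ → B}

theorem tat_div {d : ℕ} (h : ∀ j, Nat.card {P : A // l ^ j • P = 0} = l ^ (d * j)) (j : ℕ) (P : A)
    (hP : l ^ j • P = 0) : ∃ Q, l • Q = P := by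
  have l0 : 0 < l := (Fact.out : l.Prime).pos
  have hc : ∀ j, Nat.card (nsmulAddMonoidHom (l ^ j) : A →+ A).ker = l ^ (d * j) := h
  have hf : ∀ j, Finite (nsmulAddMonoidHom (l ^ j) : A →+ A).ker := fun j =>
    Nat.finite_of_card_ne_zero (by rw [hc]; positivity)
  let f : (nsmulAddMonoidHom (l ^ (j + 1)) : A →+ A).ker →+
      (nsmulAddMonoidHom (l ^ j) : A →+ A).ker :=
    ((nsmulAddMonoidHom l).comp (AddSubgroup.subtype _)).codRestrict _ fun Q => by
      change l ^ j • l • (Q : A) = 0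
      rw [smul_smul, ← pow_succ]
      exact Q.2
  have h1 : Nat.card f.ker ≤ l ^ (d * 1) := by
    rw [← h]
    have : Finite {P : A // l ^ 1 • P = 0} := hf 1
    exact Nat.card_le_card_of_injective
      (fun Q => (⟨Q.1.1, by rw [pow_one]; exact congrArg Subtype.val Q.2⟩ : {P : A // l ^ 1 • P = 0}))
      fun Q R e => Subtype.ext (Subtype.ext (Subtype.ext_iff.1 e :))
  have h2 := AddSubgroup.card_eq_card_quotient_mul_card_addSubgroup f.ker
  rw [Nat.card_congr (QuotientAddGroup.quotientKerEquivRange f).toEquiv, hc, mul_add, pow_add] at h2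
  have h3 : f.range = ⊤ := AddSubgroup.eq_top_of_le_card _ (by
    rw [hc]
    exact Nat.le_of_mul_le_mul_right (h2.trans_le (Nat.mul_le_mul_left _ h1)) (by positivity))
  obtain ⟨Q, hQ⟩ := AddMonoidHom.range_eq_top.1 h3 ⟨P, hP⟩
  exact ⟨Q, congrArg Subtype.val hQ⟩

theorem tat_vs {T : Type} [AddCommGroup T] (h : Nat.card T = l ^ (Fintype.card κ * 1)) (h0 : ∀ x : T, l • x = 0) :
    ∃ e : κ → T, ∀ m : κ → ℕ, ∑ i, m i • e i = 0 → ∀ i, l ∣ m i := by
  have l1 : 1 < l := (Fact.out : l.Prime).one_lt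
  have : Finite T := Nat.finite_of_card_ne_zero (by rw [h]; positivity)
  obtain ⟨_⟩ : Nonempty (Module (ZMod l) T) := ⟨AddCommGroup.zmodModule h0⟩
  rw [Module.natCard_eq_pow_finrank (K := ZMod l), Nat.card_zmod, mul_one] at h
  let b := (Module.finBasisOfFinrankEq (ZMod l) T (Nat.pow_right_injective l1 h)).reindex
    (Fintype.equivFin κ).symm
  refine ⟨b, fun m hm i => (ZMod.natCast_eq_zero_iff _ _).1 ?_⟩
  refine Fintype.linearIndependent_iff.1 b.linearIndependent (fun i => (m i : ZMod l)) ?_ i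
  simpa only [Nat.cast_smul_eq_nsmul] using hm

theorem tat_basis (h : Nat.card {P : A // l ^ 1 • P = 0} = l ^ (Fintype.card κ * 1)) :
    ∃ e : κ → A,
    (∀ i, l ^ 1 • e i = 0) ∧ ∀ m : κ → ℕ, ∑ i, m i • e i = 0 → ∀ i, l ∣ m i := by
  obtain ⟨e, he⟩ := tat_vs (l := l) (κ := κ) (T := (nsmulAddMonoidHom (l ^ 1) : A →+ A).ker) h fun x =>
    Subtype.ext ((congrArg (· • x.1) (pow_one l)).symm.trans x.2)
  exact ⟨fun i => e i, fun i => (e i).2, fun m hm => he m (Subtype.ext (by simpa using hm))⟩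

theorem tat_pow {b : ℕ → A} (h : ∀ n, l • b (n + 1) = b n) (k n : ℕ) : l ^ n • b (k + n) = b k := by
  induction n with
  | zero => simp
  | succ n ih => rw [pow_succ, mul_smul, ← add_assoc, h, ih]

theorem tat_chain (h : ∀ (j : ℕ) (P : A), l ^ j • P = 0 → ∃ Q, l • Q = P) {e : A}
    (he : l ^ 1 • e = 0) : ∃ b : ℕ → A, b 0 = 0 ∧ b 1 = e ∧ ∀ n, l • b (n + 1) = b n := by
  have h1 : ∀ P : {P : A // ∃ j, l ^ j • P = 0}, ∃ Q : {P : A // ∃ j, l ^ j • P = 0},
      l • Q.1 = P.1 := fun ⟨P, j, hj⟩ => by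
    obtain ⟨Q, hQ⟩ := h j P hj
    exact ⟨⟨Q, j + 1, by rw [pow_succ, mul_smul, hQ, hj]⟩, hQ⟩
  choose f hf using h1
  refine ⟨fun n => Nat.casesOn n 0 fun m => (f^[m] ⟨e, 1, he⟩).1, rfl, rfl, fun n => ?_⟩
  cases n with
  | zero => exact (congrArg (· • e) (pow_one l)).symm.trans he
  | succ n =>
    change l • (f^[n + 1] _).1 = (f^[n] _).1
    rw [Function.iterate_succ_apply', hf]

theorem tat_red {n : ℕ} {a : ℤ_[l]} : PadicInt.toZModPow n a = 0 ↔ (l : ℤ_[l]) ^ n ∣ a := by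
  rw [← RingHom.mem_ker, PadicInt.ker_toZModPow, Ideal.mem_span_singleton]

theorem tat_pe (n : ℕ) {P : A} (h : l ^ n • P = 0) : ∃ f : ℤ_[l] →+ A,
    ∀ (a : ℤ_[l]) (m : ℕ), (l : ℤ_[l]) ^ n ∣ a - m → f a = m • P := by
  refine ⟨(ZMod.lift (l ^ n) ⟨zmultiplesHom A P, (natCast_zsmul P _).trans h⟩).comp
    (PadicInt.toZModPow n).toAddMonoidHom, fun a m hm => ?_⟩
  rw [← tat_red, map_sub, sub_eq_zero, map_natCast, ← Int.cast_natCast] at hm
  rw [AddMonoidHom.comp_apply, RingHom.toAddMonoidHom_eq_coe, AddMonoidHom.coe_coe, hm,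
    ZMod.lift_coe]
  exact natCast_zsmul P m

/-- Copy of `AL/E6a`. -/
theorem exists_TA (h : ∀ j, Nat.card {P : A // l ^ j • P = 0} = l ^ (Fintype.card κ * j)) :
    ∃ ev : (κ → ℤ_[l]) →+ ℕ → A, TA l ev := by
  have l0 : 0 < l := (Fact.out : l.Prime).pos
  obtain ⟨e, he, hi⟩ := tat_basis (h 1)
  choose b b0 b1 b2 using fun i => tat_chain (tat_div h) (he i)
  choose f hf using fun i n => tat_pe (l := l) n (P := b i n) (by
    rw [← b0 i, ← tat_pow (b2 i) 0 n, zero_add])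
  obtain ⟨ev, key⟩ : ∃ ev : (κ → ℤ_[l]) →+ ℕ → A, ∀ n x (m : κ → ℕ),
      (∀ i, (l : ℤ_[l]) ^ n ∣ x i - m i) → ev x n = ∑ i, m i • b i n :=
    ⟨AddMonoidHom.mk' (fun x n => ∑ i, f i n (x i)) fun x y => funext fun n => by
      simp only [Pi.add_apply, map_add, Finset.sum_add_distrib], fun n x m hm =>
      Finset.sum_congr (s₁ := Finset.univ) rfl fun i _ => hf i n _ _ (hm i)⟩
  have ap : ∀ n (x : κ → ℤ_[l]) i, (l : ℤ_[l]) ^ n ∣ x i - ((x i).appr n : ℕ) := fun n x i =>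
    Ideal.mem_span_singleton.1 (PadicInt.appr_spec n (x i))
  have st : ∀ x n, l • ev x (n + 1) = ev x n := fun x n => by
    rw [key _ _ _ (ap (n + 1) x), key n _ _ fun i => (pow_dvd_pow _ n.le_succ).trans (ap _ x i),
      Finset.smul_sum]
    exact Finset.sum_congr rfl fun i _ => by rw [smul_comm, b2]
  have z0 : ∀ x, ev x 0 = 0 := fun x => by simp [key _ _ _ (ap 0 x), b0]
  have hn : ∀ n (m : κ → ℕ), ∑ i, m i • b i n = 0 → ∀ i, l ^ n ∣ m i := fun n => by
    induction n with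
    | zero => simp
    | succ n ih =>
      intro m hm
      choose c hc using ih m (by
        rw [← smul_zero l, ← hm, Finset.smul_sum]
        exact Finset.sum_congr rfl fun i _ => by rw [smul_comm, b2])
      intro i
      rw [hc, pow_succ]
      refine mul_dvd_mul_left _ (hi c (hm ▸ Finset.sum_congr rfl fun i _ => ?_) i)
      rw [hc, mul_comm, mul_smul, add_comm, tat_pow (b2 i), b1]
  have hz : ∀ n x, ev x n = 0 ↔ ∀ i, (l : ℤ_[l]) ^ n ∣ x i := fun n x => by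
    refine ⟨fun hx i => ?_, fun hx => by simp [key n x 0 (by simpa using hx)]⟩
    have h1 := (Nat.cast_dvd_cast (α := ℤ_[l]) (hn n _ (key _ _ _ (ap n x) ▸ hx) i))
    rw [Nat.cast_pow] at h1
    simpa using dvd_add (ap n x i) h1
  have cg : ∀ n x y, ev x n = ev y n ↔ ∀ i, (l : ℤ_[l]) ^ n ∣ x i - y i := fun n x y => by
    rw [← sub_eq_zero, ← Pi.sub_apply, ← map_sub, hz]
    rfl
  have lv : ∀ n (P : A), l ^ n • P = 0 → ∃ x, ev x n = P := fun n P hP => by
    have : Finite {P : A // l ^ n • P = 0} := Nat.finite_of_card_ne_zero (by rw [h]; positivity)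
    have h1 : Function.Injective fun z : κ → ZMod (l ^ n) =>
        (⟨ev (fun i => ((z i).val : ℕ)) n, by
          rw [← z0 _, ← tat_pow (st _) 0 n, zero_add]⟩ : {P : A // l ^ n • P = 0}) := by
      intro z w hzw
      funext i
      have h2 := tat_red.2 ((cg _ _ _).1 (congrArg Subtype.val hzw) i)
      rwa [map_sub, map_natCast, map_natCast, ZMod.natCast_zmod_val, ZMod.natCast_zmod_val,
        sub_eq_zero] at h2
    obtain ⟨z, hz⟩ := (h1.bijective_of_nat_card_le (by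
      rw [h, Nat.card_fun, Nat.card_zmod, Nat.card_eq_fintype_card, pow_mul'])).2 ⟨P, hP⟩
    exact ⟨_, congrArg Subtype.val hz⟩
  refine ⟨ev, fun x => ⟨z0 x, st x⟩, fun P hP => ?_, lv, hz⟩
  have hcl : ∀ n, IsClosed {x | ev x n = P n} := fun n => by
    rw [← isOpen_compl_iff, Metric.isOpen_iff]
    intro x hx
    have hp : (0 : ℝ) < (l : ℝ) ^ (-(n : ℤ)) := by positivity
    refine ⟨_, hp, fun y hy hC => hx (((cg n x y).2 fun i => ?_).trans hC)⟩
    have h1 := (dist_pi_lt_iff hp).1 (Metric.mem_ball'.1 hy) i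
    rw [dist_eq_norm] at h1
    exact Ideal.mem_span_singleton.1 ((PadicInt.norm_le_pow_iff_mem_span_pow _ n).1 h1.le)
  obtain ⟨x, hx⟩ := IsCompact.nonempty_iInter_of_sequence_nonempty_isCompact_isClosed
    (fun n => {x | ev x n = P n}) (fun n x hx => by
      change ev x n = P n
      rw [← st, ← hP.2, show ev x (n + 1) = _ from hx])
    (fun n => lv n _ (by rw [← hP.1, ← tat_pow hP.2 0 n, zero_add])) (hcl 0).isCompact hcl
  exact ⟨x, funext (Set.mem_iInter.1 hx)⟩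

theorem padic_zero {c : ℤ_[l]} (h : ∀ n, (l : ℤ_[l]) ^ n ∣ c) : c = 0 := by
  refine PadicInt.ext_of_toZModPow.1 fun n => ?_
  rw [map_zero, ← RingHom.mem_ker, PadicInt.ker_toZModPow, Ideal.mem_span_singleton]
  exact h n

theorem TA.inj (h : TA l ev) : Function.Injective ev :=
  (injective_iff_map_eq_zero ev).2 fun x hx => funext fun i =>
    padic_zero fun n => (h.zero n x).1 (congrFun hx n) i

theorem TA.ext (h : TA l ev) {x y : κ → ℤ_[l]} (e : ∀ n, ev x n = ev y n) : x = y :=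
  h.inj (funext e)

theorem TA.tors (h : TA l ev) (x : κ → ℤ_[l]) (n : ℕ) : l ^ n • ev x n = 0 := by
  have e := (h.zero n (l ^ n • x)).2 fun i => ⟨x i, by simp⟩
  rwa [map_nsmul] at e

theorem TA.eq_iff (h : TA l ev) (n : ℕ) (x y : κ → ℤ_[l]) :
    ev x n = ev y n ↔ ∀ i, (l : ℤ_[l]) ^ n ∣ x i - y i := by
  rw [← sub_eq_zero, ← Pi.sub_apply, ← map_sub, h.zero]
  rfl

theorem tat_val (n : ℕ) (c : ℤ_[l]) :
    (l : ℤ_[l]) ^ n ∣ c - ((PadicInt.toZModPow n c).val : ℕ) := by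
  rw [← tat_red, map_sub, map_natCast, ZMod.natCast_zmod_val, sub_self]

theorem TA.smul (h : TA l ev) (c : ℤ_[l]) (x : κ → ℤ_[l]) (n : ℕ) :
    ev (c • x) n = (PadicInt.toZModPow n c).val • ev x n := by
  have e := (h.zero n (c • x - (PadicInt.toZModPow n c).val • x)).2 fun i => by
    have h2 : (c • x - (PadicInt.toZModPow n c).val • x) i =
        (c - ((PadicInt.toZModPow n c).val : ℕ)) * x i := by
      rw [Pi.sub_apply, Pi.smul_apply, Pi.smul_apply, smul_eq_mul, nsmul_eq_mul, sub_mul]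
    rw [h2]
    exact (tat_val n c).mul_right _
  rw [map_sub, map_nsmul] at e
  exact sub_eq_zero.1 e

theorem TA.shift (h : TA l ev) (x : κ → ℤ_[l]) (k n : ℕ) : l ^ n • ev x (k + n) = ev x k :=
  tat_pow (h.mem x).2 k n

theorem TA.exists_map (h : TA l ev) (h' : TA l ev') (f : A →+ B) :
    ∃ M : (κ → ℤ_[l]) →ₗ[ℤ_[l]] κ' → ℤ_[l], ∀ x n, ev' (M x) n = f (ev x n) := by
  choose M hM using fun x => h'.surj (fun n => f (ev x n))
    ⟨by rw [(h.mem x).1, map_zero], fun n => by rw [← map_nsmul, (h.mem x).2]⟩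
  have hM' : ∀ x n, ev' (M x) n = f (ev x n) := fun x n => congrFun (hM x) n
  refine ⟨⟨⟨M, fun x y => h'.inj (funext fun n => ?_)⟩, fun c x => h'.inj (funext fun n => ?_)⟩,
    hM'⟩
  · rw [map_add, Pi.add_apply, hM', hM', hM', map_add, Pi.add_apply, map_add]
  · rw [RingHom.id_apply, h'.smul, hM', hM', h.smul, map_nsmul]

theorem TA.exists_rep (h : TA l ev) {G : Type} [Group G] (f : G → A →+ A)
    (h1 : ∀ P, f 1 P = P) (h2 : ∀ a b P, f (a * b) P = f a (f b P)) :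
    ∃ ro : G →* End ℤ_[l] (κ → ℤ_[l]), ∀ g x n, ev (ro g x) n = f g (ev x n) := by
  choose M hM using fun g => h.exists_map h (f g)
  refine ⟨⟨⟨M, LinearMap.ext fun x => h.inj (funext fun n => ?_)⟩,
    fun a b => LinearMap.ext fun x => h.inj (funext fun n => ?_)⟩, hM⟩
  · rw [hM, h1, Module.End.one_apply]
  · rw [Module.End.mul_apply, hM, hM, hM, h2]

theorem tat_dvd (M : (κ → ℤ_[l]) →ₗ[ℤ_[l]] κ' → ℤ_[l]) {c : ℤ_[l]} {x : κ → ℤ_[l]}
    (hx : ∀ i, c ∣ x i) (j : κ') : c ∣ M x j := by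
  choose y hy using hx
  obtain rfl : x = c • y := funext hy
  rw [map_smul]
  exact ⟨_, rfl⟩

theorem TA.comp (h : TA l ev) (φ : (κ' → ℤ_[l]) ≃ₗ[ℤ_[l]] κ → ℤ_[l]) :
    TA l (ev.comp φ.toLinearMap.toAddMonoidHom) := by
  refine ⟨fun x => h.mem (φ x), fun P hP => ?_, fun n P hP => ?_, fun n x => ?_⟩
  · obtain ⟨x, hx⟩ := h.surj P hP
    exact ⟨φ.symm x, (congrArg ev (φ.apply_symm_apply x)).trans hx⟩
  · obtain ⟨x, hx⟩ := h.lvl n P hP
    exact ⟨φ.symm x, (congrFun (congrArg ev (φ.apply_symm_apply x)) n).trans hx⟩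
  · refine (h.zero n (φ x)).trans ⟨fun hx => ?_, tat_dvd φ.toLinearMap⟩
    have := tat_dvd φ.symm.toLinearMap hx
    rwa [LinearEquiv.coe_coe, φ.symm_apply_apply] at this

theorem tat_unit (M : End ℤ_[l] (κ → ℤ_[l]))
    (hM : ∀ x, (∀ i, (l : ℤ_[l]) ∣ M x i) → ∀ i, (l : ℤ_[l]) ∣ x i) : Function.Bijective M := by
  classical
  have hk : ∀ c : ℤ_[l], PadicInt.toZMod c = 0 ↔ (l : ℤ_[l]) ∣ c := fun c => by
    rw [← RingHom.mem_ker, PadicInt.ker_toZMod, PadicInt.maximalIdeal_eq_span_p,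
      Ideal.mem_span_singleton]
  rw [← Module.End.isUnit_iff, LinearMap.isUnit_iff_isUnit_det, ← LinearMap.det_toMatrix']
  by_contra hn
  have h0 : PadicInt.toZMod (LinearMap.toMatrix' M).det = 0 := by
    rw [← RingHom.mem_ker, PadicInt.ker_toZMod]
    exact hn
  rw [RingHom.map_det] at h0
  obtain ⟨v, hv, h1⟩ := Matrix.exists_mulVec_eq_zero_iff.2 h0
  have h2 : (PadicInt.toZMod : ℤ_[l] → ZMod l) ∘ (fun i => ((v i).val : ℤ_[l])) = v :=
    funext fun i => by simp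
  refine hv (funext fun i => ?_)
  rw [← congrFun h2 i]
  refine (hk _).2 (hM (fun i => ((v i).val : ℤ_[l])) (fun j => (hk _).1 ?_) i)
  rw [← LinearMap.toMatrix'_mulVec, RingHom.map_mulVec, h2]
  exact congrFun h1 j

/-- A map that is injective on the `l`-torsion is injective modulo `l`, so its determinant is a
unit. -/
theorem TA.bij (h : TA l ev) (h' : TA l ev') (hc : Fintype.card κ = Fintype.card κ') {f : A →+ B}
    (hf : ∀ P, l • P = 0 → f P = 0 → P = 0) {M : (κ → ℤ_[l]) →ₗ[ℤ_[l]] κ' → ℤ_[l]}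
    (hM : ∀ x n, ev' (M x) n = f (ev x n)) : Function.Bijective M := by
  classical
  let e : (κ' → ℤ_[l]) ≃ₗ[ℤ_[l]] κ → ℤ_[l] :=
    LinearEquiv.funCongrLeft ℤ_[l] ℤ_[l] (Fintype.equivOfCardEq hc)
  have hu := tat_unit (e.toLinearMap ∘ₗ M) fun x hx => by
    have h1 := tat_dvd e.symm.toLinearMap hx
    rw [LinearMap.comp_apply, LinearEquiv.coe_coe, LinearEquiv.coe_coe, e.symm_apply_apply] at h1
    have h2 := (h'.zero 1 (M x)).2 (by simpa only [pow_one] using h1)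
    rw [hM] at h2
    simpa only [pow_one] using (h.zero 1 x).1 (hf _ (by simpa only [pow_one] using h.tors x 1) h2)
  exact (Function.Bijective.of_comp_iff' e.bijective M).1 hu

variable {k K : Type} [Field k] [Field K] [Algebra k K] [IsAlgClosed k] [IsFF k K] [PosChar k]

/-- The classes `ev (single i 1) m` are a basis of `Tor (l ^ m)`. -/
theorem TA.trace {ev : (κ → ℤ_[l]) →+ ℕ → Pic k K} (h : TA l ev) (s : SA k K)
    {M : End ℤ_[l] (κ → ℤ_[l])} (hM : ∀ x n, ev (M x) n = s.pic (ev x n)) (m : ℕ) :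
    PadicInt.toZModPow m (LinearMap.trace _ _ M) =
      LinearMap.trace (ZMod (l ^ m)) _ (s.tor (l ^ m)) := by
  classical
  let π : (κ → ℤ_[l]) → κ → ZMod (l ^ m) := fun x => PadicInt.toZModPow m ∘ x
  let σ : (κ → ZMod (l ^ m)) → κ → ℤ_[l] := fun z i => ((z i).val : ℕ)
  have h1 : ∀ z, π (σ z) = z := fun z => funext fun i => by
    simp only [π, σ, Function.comp_apply, map_natCast, ZMod.natCast_zmod_val]
  have h2 : ∀ x y, ev x m = ev y m ↔ π x = π y := fun x y => by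
    rw [h.eq_iff, funext_iff]
    exact forall_congr' fun i => by
      rw [← tat_red, map_sub, sub_eq_zero]
      rfl
  have h3 : ∀ x y, π (x + y) = π x + π y := fun x y => funext fun i => map_add _ _ _
  let ψ₀ : (κ → ZMod (l ^ m)) →+ Tor k K (l ^ m) :=
    AddMonoidHom.mk' (fun z => ⟨ev (σ z) m, h.tors _ _⟩) fun z w => Subtype.ext (by
      change ev (σ (z + w)) m = ev (σ z) m + ev (σ w) m
      rw [← Pi.add_apply, ← map_add, h2, h3, h1, h1, h1])
  have h4 : Function.Bijective (ψ₀.toZModLinearMap (l ^ m)) := by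
    refine ⟨fun z w e => ?_, fun c => ?_⟩
    · rw [← h1 z, ← h1 w]
      exact (h2 _ _).1 (congrArg Subtype.val e)
    · obtain ⟨x, hx⟩ := h.lvl m c.1 c.2
      exact ⟨π x, Subtype.ext (((h2 _ _).2 (h1 _)).trans hx)⟩
  let ψ := LinearEquiv.ofBijective _ h4
  have h5 : s.tor (l ^ m) =
      ψ.conj (Matrix.toLin' ((LinearMap.toMatrix' M).map (PadicInt.toZModPow m))) := by
    refine LinearMap.ext fun c => ?_
    obtain ⟨z, rfl⟩ := ψ.surjective c
    rw [LinearEquiv.conj_apply_apply, ψ.symm_apply_apply, Matrix.toLin'_apply]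
    refine Subtype.ext ?_
    change s.pic (ev (σ z) m) = ev (σ _) m
    rw [← hM, h2, h1, ← LinearMap.toMatrix'_mulVec]
    funext j
    change PadicInt.toZModPow m _ = _
    rw [RingHom.map_mulVec]
    exact congrArg (fun w => Matrix.mulVec _ w j) (h1 z)
  rw [h5, LinearMap.trace_conj', Matrix.trace_toLin'_eq,
    LinearMap.trace_eq_matrix_trace _ (Pi.basisFun ℤ_[l] κ), LinearMap.toMatrix_eq_toMatrix']
  exact AddMonoidHom.map_trace (PadicInt.toZModPow m : ℤ_[l] →+* ZMod (l ^ m)) _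

/-- `weil_frob`. -/
theorem TA.trace_frob {ev : (κ → ℤ_[l]) →+ ℕ → Pic k K} (h : TA l ev) (hl : (l : k) ≠ 0)
    (s : SA k K) {M : End ℤ_[l] (κ → ℤ_[l])} (hM : ∀ x n, ev (M x) n = s.pic (ev x n)) (p r : ℕ)
    [Fact p.Prime] [CharP k p] (hr : 0 < r) (hs : ∀ c, s.a c = c ^ p ^ r) :
    {v | s.pl v = v}.Finite ∧ LinearMap.trace _ _ M =
      ((1 + (p : ℤ) ^ r - ({v | s.pl v = v}.ncard : ℕ) : ℤ) : ℤ_[l]) := by
  refine ⟨(weil_frob Fact.out hl 0 s p r hr hs).1, PadicInt.ext_of_toZModPow.1 fun m => ?_⟩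
  rw [h.trace s hM, (weil_frob Fact.out hl m s p r hr hs).2, map_intCast]
  push_cast
  rfl

end

end Pool.Agent.Lib.MP_16ef92_ag.HY
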