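import Mathlib
import Pool.Agent.Lib.MP_16ef92_ag.CV.Fib
import Pool.Agent.Lib.MP_16ef92_ag.HY.LDef
import Pool.Agent.Lib.MP_16ef92_ag.HY.BPw
import Pool.Agent.Lib.MP_16ef92_ag.HY.Tat

set_option autoImplicit false
set_option linter.unusedSectionVars false
set_option linter.unusedVariables false
set_option linter.style.haveILetI false

namespace Pool.Agent.Lib.MP_16ef92_ag.HY

open Polynomial RS AL CV Pool.Agent.Lib.MP_6adaea_nt

noncomputable section

section bas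

variable {G G' κ : Type} [AddCommGroup G] [AddCommGroup G'] [Fintype κ] {n : ℕ} {P : κ → G}

/-- A basis of the `n`-torsion. -/
structure Bas (n : ℕ) (P : κ → G) : Prop where
  tors : ∀ i, n • P i = 0
  span : ∀ Q, n • Q = 0 → ∃ a : κ → ℕ, Q = ∑ i, a i • P i
  ind : ∀ a : κ → ℕ, ∑ i, a i • P i = 0 → ∀ i, n ∣ a i

theorem Bas.map (h : Bas n P) (f : G →+ G') (h1 : ∀ Q, n • Q = 0 → f Q = 0 → Q = 0)
    (h2 : ∀ Q', n • Q' = 0 → ∃ Q, n • Q = 0 ∧ f Q = Q') : Bas n fun i => f (P i) := by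
  have key : ∀ a : κ → ℕ, ∑ i, a i • f (P i) = f (∑ i, a i • P i) := fun a => by
    simp only [map_sum, map_nsmul]
  refine ⟨fun i => by rw [← map_nsmul, h.tors, map_zero], fun Q' hQ => ?_,
    fun a ha => h.ind a (h1 _ ?_ ((key a).symm.trans ha))⟩
  · obtain ⟨Q, hQ', rfl⟩ := h2 Q' hQ
    obtain ⟨a, rfl⟩ := h.span Q hQ'
    exact ⟨a, (key a).symm⟩
  · rw [Finset.smul_sum]
    exact Finset.sum_eq_zero fun i _ => by rw [smul_comm, h.tors, smul_zero]

theorem Bas.div (h : Bas n P) {d d' : ℕ} (hd : n = d * d') (d0 : d ≠ 0) {Q : G} (hQ : d • Q = 0) :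
    ∃ a : κ → ℕ, Q = d' • ∑ i, a i • P i := by
  obtain ⟨b, rfl⟩ := h.span Q (by rw [hd, mul_comm, mul_smul, hQ, smul_zero])
  have h1 := h.ind (fun i => d * b i) (by simpa only [Finset.smul_sum, smul_smul] using hQ)
  choose a ha using fun i => Nat.dvd_of_mul_dvd_mul_left (Nat.pos_of_ne_zero d0) (hd ▸ h1 i)
  exact ⟨a, by simp only [Finset.smul_sum, smul_smul, ha]⟩

theorem TA.bas [DecidableEq κ] {l : ℕ} [Fact l.Prime] {ev : (κ → ℤ_[l]) →+ ℕ → G} (h : TA l ev)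
    (m : ℕ) : Bas (l ^ m) fun i => ev (Pi.single i 1) m := by
  have key : ∀ a : κ → ℕ, ∑ i, a i • ev (Pi.single i 1) m = ev (fun i => a i) m := fun a => by
    rw [← Finset.univ_sum_single fun i => (a i : ℤ_[l]), map_sum, Finset.sum_apply]
    refine Finset.sum_congr rfl fun i _ => ?_
    rw [← Pi.smul_apply, ← map_nsmul, ← Pi.single_smul, nsmul_one]
  refine ⟨fun i => h.tors _ m, fun Q hQ => ?_, fun a ha i => ?_⟩
  · obtain ⟨x, rfl⟩ := h.lvl m Q hQ
    exact ⟨fun i => (PadicInt.toZModPow m (x i)).val, by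
      rw [key, h.eq_iff]
      intro i
      rw [← tat_red, map_sub, map_natCast, ZMod.natCast_zmod_val, sub_self]⟩
  · have h1 := tat_red.2 ((h.zero m _).1 ((key a).symm.trans ha) i)
    rwa [map_natCast, ZMod.natCast_eq_zero_iff] at h1

end bas

variable {k K I κ : Type} [Field k] [Field K] [Algebra k K] [Fintype I] [Fintype κ] {e : I → k}
  {x y : K} [IsAlgClosed k] [IsFF k K] [PosChar k] {n : ℕ} {B : κ → Dv k K} {u : κ → Kˣ}

theorem dv_prod_pow (hu : ∀ i, dv k (u i : K) = n • B i) (a : κ → ℕ) :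
    dv k ((∏ i, u i ^ a i : Kˣ) : K) = n • ∑ i, a i • B i := by
  classical
  induction (Finset.univ : Finset κ) using Finset.induction_on with
  | empty => simp [dv_one]
  | insert i s hi ih =>
    rw [Finset.prod_insert hi, Finset.sum_insert hi, Units.val_mul, dv_mul (Units.ne_zero _)
      (Units.ne_zero _), ih, Units.val_pow_eq_pow_val, dv_pow, hu, smul_add, smul_comm]

theorem dv_div_nat {d : ℕ} {f : K} (h : ∀ v : Place k K, (d : ℤ) ∣ v.ord f) :
    ∃ D : Dv k K, dv k f = d • D :=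
  ⟨(dv k f).mapRange (· / d) (Int.zero_ediv _), Finsupp.ext fun v => by
    simpa using (Int.mul_ediv_cancel' (h v)).symm⟩

theorem HE.dvd_inf (H : HE e x y) {d : ℤ} {f : K}
    (h : ∀ v : Place k K, v ≠ H.inf → d ∣ v.ord f) (v : Place k K) : d ∣ v.ord f := by
  classical
  by_cases hv : v = H.inf
  · have h1 := deg_dv (k := k) f
    rw [deg_eq_sum _ (Finset.subset_insert v _), ← Finset.add_sum_erase _ _
      (Finset.mem_insert_self v _), add_eq_zero_iff_eq_neg] at h1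
    rw [← dv_apply, h1, dvd_neg]
    exact Finset.dvd_sum fun w hw => h w (hv ▸ Finset.ne_of_mem_erase hw)
  · exact h v hv

theorem YM.pw_ord {A : Type} [CommRing A] {f : A[X]} {ι : A →+* k} [Algebra (Yr f) K]
    (h : YM e x y ι (algebraMap (Yr f) K)) (H : HE e x y) {d : ℕ} {g : K}
    (hg : ∀ q : Ideal (Yr f), q.IsPrime → Pw q d g) (v : Place k K) : (d : ℤ) ∣ v.ord g := by
  refine H.dvd_inf (fun v hv => ?_) v
  obtain ⟨w, -, hw⟩ := h.exists_pt H (H.fin_iff.2 hv)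
  obtain ⟨z, hz, s, t, hs, ht, e0⟩ := hg _ (RingHom.ker_isPrime w)
  have h1 := ord_of_val_ne (v := v) (f := algebraMap (Yr f) K s) (by rw [hw]; exact hs)
  have h2 := ord_of_val_ne (v := v) (f := algebraMap (Yr f) K t) (by rw [hw]; exact ht)
  have h3 : g / z ^ d ≠ 0 := left_ne_zero_of_mul (e0 ▸ h1.1)
  have h4 := congrArg v.ord e0
  rw [v.ord_mul h3 h2.1, h1.2, h2.2, add_zero, v.ord_div (div_ne_zero_iff.1 h3).1
    (pow_ne_zero _ hz), v.ord_pow, sub_eq_zero] at h4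
  exact ⟨_, h4⟩

/-- A function whose divisor is divisible by `d` is a product of the basic functions and a `d`-th
power. -/
theorem Bas.fn (h : Bas n fun i => cl (B i)) (hu : ∀ i, dv k (u i : K) = n • B i) (hn : n ≠ 0)
    {d : ℕ} (hd : d ∣ n) (f : Kˣ) (hf : ∀ v : Place k K, (d : ℤ) ∣ v.ord f) :
    ∃ (a : κ → ℕ) (z : Kˣ), f = (∏ i, u i ^ a i) * z ^ d := by
  obtain ⟨d', hd⟩ := hd
  have d0 : d ≠ 0 := left_ne_zero_of_mul (hd ▸ hn)
  obtain ⟨D, hD⟩ := dv_div_nat hf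
  obtain ⟨a, ha⟩ := h.div hd d0 (Q := cl D) (by rw [← map_nsmul, ← hD, cl_dv f.ne_zero])
  obtain ⟨w, w0, hw⟩ := (cl_eq (D := D) (D' := d' • ∑ i, a i • B i)).1 (by
    simpa only [map_nsmul, map_sum] using ha)
  obtain ⟨c, hc⟩ := const_of_dv (k := k) (f := f / (((∏ i, u i ^ a i : Kˣ) : K) * w ^ d)) (by
    rw [dv_div f.ne_zero (mul_ne_zero (Units.ne_zero _) (pow_ne_zero _ w0)),
      dv_mul (Units.ne_zero _) (pow_ne_zero _ w0), dv_prod_pow hu, dv_pow, hw, hD, smul_sub,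
      smul_smul, ← hd, add_sub_cancel, sub_self])
  obtain ⟨c', rfl⟩ := IsAlgClosed.exists_pow_nat_eq c (Nat.pos_of_ne_zero d0)
  rw [div_eq_iff (mul_ne_zero (Units.ne_zero _) (pow_ne_zero _ w0)), map_pow] at hc
  have h1 : algebraMap k K c' ≠ 0 := fun e0 => f.ne_zero (by rw [hc, e0, zero_pow d0, zero_mul])
  refine ⟨a, Units.mk0 _ (mul_ne_zero h1 w0), Units.ext ?_⟩
  rw [hc, Units.val_mul, Units.val_pow_eq_pow_val, Units.val_mk0]
  ring

theorem Bas.rel (h : Bas n fun i => cl (B i)) (hu : ∀ i, dv k (u i : K) = n • B i) (hn : n ≠ 0)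
    {a : κ → ℕ} {z : Kˣ} (hz : ∏ i, u i ^ a i = z ^ n) (i : κ) : n ∣ a i := by
  have h1 := dv_prod_pow hu a
  rw [hz, Units.val_pow_eq_pow_val, dv_pow] at h1
  have h2 := congrArg cl (nsmul_right_injective hn h1)
  rw [cl_dv z.ne_zero] at h2
  exact h.ind a (by simpa only [map_nsmul, map_sum] using h2.symm) i

variable [Bg] [NeZero n]

theorem lh_cm {R V : Type} [CommRing R] [CommRing V] (c : κ → H 1 (cst V (ZMod n))) (j : R →+* V)
    {F : Sys R} (hF : F.Tor n) (m : κ → H 0 F) : lh c j hF 0 m =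
      Hmap 1 ((cstHom F).pb j) (∑ e, CV.cm (z0_tor hF) (c e) (m e)) := by
  refine Eq.trans ?_ (map_sum (Hmap 1 ((cstHom F).pb j)) _ _).symm
  refine Finset.sum_congr rfl fun e _ => Eq.symm ?_
  refine (cup_nat (cst_tor (z0_tor hF) V) (hF.pb j) ((cstHom F).pb j) (c e) 0
    (csec V (Z0 F) (m e))).trans ?_
  exact congrArg (fun x => cup (hF.pb j) x 0 (Hmap 0 (F.can j) (m e))) (LH.cpb_id (c e))

variable {ζ : k} {M : Type} [AddCommGroup M] {φ : Yr (ff e) →+* K}
  {c : κ → H 1 (cst (Yr (ff e)) (ZMod n))}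

theorem HE.okF (H : HE e x y) : OkF (ff e) :=
  okF_prod H.odd (fun i j hij => (sub_ne_zero.2 fun e0 => hij (H.inj e0)).isUnit) H.two.isUnit

theorem fib_b2 (hk : Good k) (hζ : Prim n ζ) (H : HE e x y) (hφ : YM e x y (RingHom.id k) φ)
    (hM : ∀ m : M, n • m = 0) (h : Bas n fun i => cl (B i)) (hu : ∀ i, dv k (u i : K) = n • B i)
    (hc : ∀ i, rc 1 (ZMod n) φ (c i) = kum n (algebraMap k K ζ) (u i))
    (ξ : RS.H 1 (cst (Yr (ff e)) M)) : ∃ m : κ → M, ∑ i, CV.cm hM (c i) (m i) = ξ := by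
  classical
  have := H.okF.dom
  have := H.okF.normal
  letI := φ.toAlgebra
  have := hφ.frac H
  have hr : IsPrimitiveRoot (algebraMap k K ζ) n :=
    (hζ.root hk).map_of_injective (algebraMap k K).injective
  have hp := hζ.map (algebraMap k K)
  obtain ⟨r, f, m, d, h1, h2, h3, h4⟩ := unram H.okF.crv (good_Y hk _) hM hr ξ
  choose a z hz using fun i => h.fn hu (NeZero.ne n) (h2 i) (f i) (YM.pw_ord hφ H (h4 i))
  have h5 : ∀ i, d i • m i = 0 := fun i => by
    have h6 := (h1 (Pi.single i (d i))).2 fun j => by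
      by_cases e : j = i
      · rw [e, Pi.single_eq_same]
      · rw [Pi.single_eq_of_ne e]
        exact dvd_zero _
    rw [Finset.sum_eq_single i (fun j _ e => by rw [Pi.single_eq_of_ne e, zero_smul])
      (fun e => (e (Finset.mem_univ i)).elim), Pi.single_eq_same, natCast_zsmul] at h6
    exact h6
  have h7 : ∀ (j : ℕ) (y : RS.H 1 (cst K (ZMod n))) (m : M), CV.cm hM (j • y) m = CV.cm hM y (j • m) :=
    fun j y m => by rw [map_nsmul, map_nsmul, AddMonoidHom.nsmul_apply]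
  have h8 : ∀ b : κ → ℕ, kum n (algebraMap k K ζ) (∏ j, u j ^ b j) =
      ∑ j, b j • kum n (algebraMap k K ζ) (u j) := fun b => by
    induction (Finset.univ : Finset κ) using Finset.induction_on with
    | empty => rw [Finset.prod_empty, Finset.sum_empty, kum_one hp]
    | insert j s hj ih => rw [Finset.prod_insert hj, Finset.sum_insert hj, kum_mul hp, kum_pow hp, ih]
  refine ⟨fun j => ∑ i, a i j • m i, rc_gen_inj (L := K) (good_Y hk _) ?_⟩
  rw [h3, map_sum]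
  refine (Finset.sum_congr rfl fun j _ => (rc_cm hM _ _ _).trans
    ((congrArg (CV.cm hM · _) (hc j)).trans (map_sum _ _ _))).trans (Finset.sum_comm.trans
      (Finset.sum_congr rfl fun i _ => ?_))
  rw [hz, kum_mul hp, kum_pow hp, h8, map_add, AddMonoidHom.add_apply, h7, h5, map_zero, add_zero,
    map_sum, AddMonoidHom.finsetSum_apply]
  exact Finset.sum_congr rfl fun j _ => (h7 _ _ _).symm

theorem fib_b3 (hk : Good k) (hζ : Prim n ζ) (H : HE e x y) (hφ : YM e x y (RingHom.id k) φ)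
    (hM : ∀ m : M, n • m = 0) (h : Bas n fun i => cl (B i)) (hu : ∀ i, dv k (u i : K) = n • B i)
    (hc : ∀ i, rc 1 (ZMod n) φ (c i) = kum n (algebraMap k K ζ) (u i)) (m : κ → M)
    (h0 : ∑ i, CV.cm hM (c i) (m i) = 0) : m = 0 := by
  classical
  funext i
  by_contra hm
  obtain ⟨ψ, hψ⟩ := exists_chr hM hm
  letI := φ.toAlgebra
  have := hφ.frac H
  have hL : Good K := (good_Y hk (ff e)).loc (nonZeroDivisors _) _
  have h2 := congrArg (rc 1 M φ) h0
  rw [map_sum, map_zero, Finset.sum_congr rfl fun i _ => (rc_cm hM _ _ _).trans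
    (congrArg (CV.cm hM · (m i)) (hc i))] at h2
  obtain ⟨z, hz⟩ := fk_rel hM hL ((hζ.map _).root hL) _ m h2 ψ
  exact hψ ((ZMod.val_eq_zero _).1 (Nat.eq_zero_of_dvd_of_lt (h.rel hu (NeZero.ne n) hz i)
    (ZMod.val_lt _)))

/-- The cohomology of one geometric fibre. -/
theorem fibK_hy {l j : ℕ} [Fact l.Prime] (hn : n = l ^ j) (hk : Good k) (hζ : Prim n ζ)
    (hl : (l : k) ≠ 0) (H : HE e x y) (hφ : YM e x y (RingHom.id k) φ)
    (h : Bas n fun i => cl (B i)) (hu : ∀ i, dv k (u i : K) = n • B i)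
    (hc : ∀ i, rc 1 (ZMod n) φ (c i) = kum n (algebraMap k K ζ) (u i)) :
    FibK n (algebraMap k (Yr (ff e))) c where
  b0 F := by
    have := H.okF.dom
    exact fib_b0 (good_Y hk _) _ F
  b1 F hF q ξ := by
    obtain ⟨ξ, rfl⟩ := (cstHom_bij F _ (q + 2)).2 ξ
    subst hn
    rw [van_crv H.okF.crv (good_Y hk _) hl (z0_tor hF) q ξ]
    exact map_zero _
  b2 F hF ξ := by
    obtain ⟨ξ, rfl⟩ := (cstHom_bij F _ 1).2 ξ
    obtain ⟨m, rfl⟩ := fib_b2 hk hζ H hφ (z0_tor hF) h hu hc ξ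
    exact ⟨m, lh_cm c _ hF m⟩
  b3 F hF m h0 := by
    rw [lh_cm] at h0
    exact fib_b3 hk hζ H hφ (z0_tor hF) h hu hc m
      ((cstHom_bij F _ 1).1 (h0.trans (map_zero _).symm))

/-- The same for functions in the coordinate ring. -/
theorem fibK_isKum {l j : ℕ} [Fact l.Prime] (hn : n = l ^ j) (hk : Good k) (hζ : Prim n ζ)
    (hl : (l : k) ≠ 0) (H : HE e x y) (hφ : YM e x y (RingHom.id k) φ)
    (h : Bas n fun i => cl (B i)) {z : κ → Yr (ff e)} (hz : ∀ i, Adm n (B i) (φ (z i)))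
    (hc : ∀ i, IsKum n (algebraMap k _ ζ) (z i) (c i)) : FibK n (algebraMap k (Yr (ff e))) c :=
  fibK_hy hn hk hζ hl H hφ h (u := fun i => Units.mk0 _ (hz i).1) (fun i => (hz i).2) fun i =>
    (hc i K φ _ rfl).trans (by rw [hφ.alg]; rfl)

end

end Pool.Agent.Lib.MP_16ef92_ag.HY
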