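import Mathlib

set_option autoImplicit false
set_option linter.unusedSectionVars false
set_option linter.unusedVariables false

namespace Pool.Agent.Lib.MP_16ef92_ag.HY

open Polynomial
open scoped Classical

noncomputable section

/-- A valuation ring of `L` with a local homomorphism to `κ` (not necessarily onto). -/
structure RV (L κ : Type) [Field L] [Field κ] where
  O : ValuationSubring L
  ρ : O →+* κ
  loc : ∀ z : O, ρ z ≠ 0 → (z : L)⁻¹ ∈ O

variable {L κ : Type} [Field L] [Field κ] (r : RV L κ)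

/-- The residue, with junk value zero. -/
def RV.rs (z : L) : κ := if h : z ∈ r.O then r.ρ ⟨z, h⟩ else 0

/-- `z` is integral with residue `c`. -/
def RV.To (z : L) (c : κ) : Prop := z ∈ r.O ∧ r.rs z = c

/-- Coefficientwise reduction. -/
def RV.PTo (p : L[X]) (q : κ[X]) : Prop := ∀ n, r.To (p.coeff n) (q.coeff n)

variable {r} {z z' : L} {c c' : κ} {p p' : L[X]} {q q' : κ[X]}

theorem RV.to_rs (h : z ∈ r.O) : r.To z (r.rs z) := ⟨h, rfl⟩

theorem RV.to_iff : r.To z c ↔ ∃ h : z ∈ r.O, r.ρ ⟨z, h⟩ = c :=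
  ⟨fun h => ⟨h.1, (dif_pos h.1).symm.trans h.2⟩, fun ⟨h, e⟩ => ⟨h, (dif_pos h).trans e⟩⟩

theorem RV.To.unique (h : r.To z c) (h' : r.To z c') : c = c' := h.2.symm.trans h'.2

theorem RV.To.add (h : r.To z c) (h' : r.To z' c') : r.To (z + z') (c + c') := by
  obtain ⟨h1, rfl⟩ := RV.to_iff.1 h
  obtain ⟨h2, rfl⟩ := RV.to_iff.1 h'
  exact RV.to_iff.2 ⟨add_mem h1 h2, map_add r.ρ ⟨z, h1⟩ ⟨z', h2⟩⟩

theorem RV.To.mul (h : r.To z c) (h' : r.To z' c') : r.To (z * z') (c * c') := by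
  obtain ⟨h1, rfl⟩ := RV.to_iff.1 h
  obtain ⟨h2, rfl⟩ := RV.to_iff.1 h'
  exact RV.to_iff.2 ⟨mul_mem h1 h2, map_mul r.ρ ⟨z, h1⟩ ⟨z', h2⟩⟩

theorem RV.To.neg (h : r.To z c) : r.To (-z) (-c) := by
  obtain ⟨h1, rfl⟩ := RV.to_iff.1 h
  exact RV.to_iff.2 ⟨neg_mem h1, map_neg r.ρ ⟨z, h1⟩⟩

theorem RV.To.sub (h : r.To z c) (h' : r.To z' c') : r.To (z - z') (c - c') := by
  rw [sub_eq_add_neg, sub_eq_add_neg]
  exact h.add h'.neg

theorem RV.to_zero : r.To 0 0 := by
  exact RV.to_iff.2 ⟨zero_mem _, map_zero r.ρ⟩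

theorem RV.to_one : r.To 1 1 := by
  exact RV.to_iff.2 ⟨one_mem _, map_one r.ρ⟩

theorem RV.to_nat (n : ℕ) : r.To n n := by
  induction n with
  | zero => simpa using RV.to_zero (r := r)
  | succ n ih => simpa using ih.add RV.to_one

theorem RV.To.pow (h : r.To z c) (n : ℕ) : r.To (z ^ n) (c ^ n) := by
  induction n with
  | zero => simpa using RV.to_one (r := r)
  | succ n ih => simpa [pow_succ] using ih.mul h

theorem RV.To.inv (h : r.To z c) (hc : c ≠ 0) : r.To z⁻¹ c⁻¹ := by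
  have h0 : z ≠ 0 := fun e => hc ((e ▸ h : r.To 0 c).unique RV.to_zero)
  obtain ⟨h1, e⟩ := RV.to_iff.1 h
  have h2 : z⁻¹ ∈ r.O := r.loc ⟨z, h1⟩ (e ▸ hc)
  have h3 := h.mul (RV.to_rs h2)
  rw [mul_inv_cancel₀ h0] at h3
  rw [← eq_inv_of_mul_eq_one_right (h3.unique RV.to_one)]
  exact RV.to_rs h2

theorem RV.To.zpow (h : r.To z c) (hc : c ≠ 0) (n : ℤ) : r.To (z ^ n) (c ^ n) := by
  rcases n with n | n
  · simpa using h.pow n
  · simpa [zpow_negSucc] using (h.pow (n + 1)).inv (pow_ne_zero _ hc)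

theorem RV.To.ne (h : r.To z c) (hc : c ≠ 0) : z ≠ 0 := by
  exact fun e => hc ((e ▸ h : r.To 0 c).unique RV.to_zero)

theorem RV.to_inv (h : z ∉ r.O) : r.To z⁻¹ 0 := by
  have h1 : z⁻¹ ∈ r.O := (r.O.mem_or_inv_mem z).resolve_left h
  refine ⟨h1, ?_⟩
  by_contra h2
  have h3 := ((RV.to_rs h1).inv h2).1
  rw [inv_inv] at h3
  exact h h3

theorem RV.to_prod {ι : Type} {s : Finset ι} {f : ι → L} {g : ι → κ}
    (h : ∀ i ∈ s, r.To (f i) (g i)) : r.To (∏ i ∈ s, f i) (∏ i ∈ s, g i) := by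
  induction s using Finset.induction_on with
  | empty => simpa using RV.to_one (r := r)
  | insert a s ha ih =>
    rw [Finset.prod_insert ha, Finset.prod_insert ha]
    exact (h a (Finset.mem_insert_self _ _)).mul (ih fun i hi => h i (Finset.mem_insert_of_mem hi))

theorem red_sum {ι : Type} {s : Finset ι} {f : ι → L} {g : ι → κ}
    (h : ∀ i ∈ s, r.To (f i) (g i)) : r.To (∑ i ∈ s, f i) (∑ i ∈ s, g i) := by
  induction s using Finset.induction_on with
  | empty => simpa using RV.to_zero (r := r)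
  | insert a s ha ih =>
    rw [Finset.sum_insert ha, Finset.sum_insert ha]
    exact (h a (Finset.mem_insert_self _ _)).add (ih fun i hi => h i (Finset.mem_insert_of_mem hi))

theorem RV.mem_of_pow {n : ℕ} (hn : n ≠ 0) (h : z ^ n ∈ r.O) : z ∈ r.O := by
  by_contra h1
  have h0 : z ≠ 0 := fun e => h1 (e ▸ zero_mem _)
  have h2 := (RV.to_rs h).mul ((RV.to_inv h1).pow n)
  rw [← mul_pow, mul_inv_cancel₀ h0, one_pow, zero_pow hn, mul_zero] at h2
  exact one_ne_zero (RV.to_one.unique h2)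

/-- Roots of unity of order prime to the residue characteristic inject. -/
theorem RV.To.root {n : ℕ} (hn : (n : κ) ≠ 0) (h : r.To z 1) (hz : z ^ n = 1) : z = 1 := by
  by_contra h1
  have h2 : ∑ i ∈ Finset.range n, z ^ i = 0 := by
    have h3 := geom_sum_mul z n
    rw [hz, sub_self] at h3
    exact (mul_eq_zero.1 h3).resolve_right (sub_ne_zero.2 h1)
  have h3 := red_sum (s := Finset.range n) fun i _ => h.pow i
  rw [h2] at h3
  exact hn (by simpa using h3.unique RV.to_zero)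

theorem RV.PTo.unique (h : r.PTo p q) (h' : r.PTo p q') : q = q' :=
  Polynomial.ext fun n => (h n).unique (h' n)

theorem RV.PTo.add (h : r.PTo p q) (h' : r.PTo p' q') : r.PTo (p + p') (q + q') := by
  intro n
  rw [coeff_add, coeff_add]
  exact (h n).add (h' n)

theorem RV.PTo.mul (h : r.PTo p q) (h' : r.PTo p' q') : r.PTo (p * p') (q * q') := by
  intro n
  rw [coeff_mul, coeff_mul]
  exact red_sum fun i _ => (h i.1).mul (h' i.2)

theorem RV.PTo.neg (h : r.PTo p q) : r.PTo (-p) (-q) := by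
  intro n
  rw [coeff_neg, coeff_neg]
  exact (h n).neg

theorem RV.PTo.sub (h : r.PTo p q) (h' : r.PTo p' q') : r.PTo (p - p') (q - q') := by
  intro n
  rw [coeff_sub, coeff_sub]
  exact (h n).sub (h' n)

theorem red_one : r.PTo 1 1 := by
  intro n
  rw [coeff_one, coeff_one]
  split_ifs
  · exact RV.to_one
  · exact RV.to_zero

theorem RV.PTo.pow (h : r.PTo p q) (n : ℕ) : r.PTo (p ^ n) (q ^ n) := by
  induction n with
  | zero => simpa using red_one (r := r)
  | succ n ih => simpa [pow_succ] using ih.mul h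

theorem RV.To.C (h : r.To z c) : r.PTo (C z) (C c) := by
  intro n
  rw [coeff_C, coeff_C]
  split_ifs
  · exact h
  · exact RV.to_zero

theorem RV.pto_X : r.PTo X X := by
  intro n
  rw [coeff_X, coeff_X]
  split_ifs
  · exact RV.to_one
  · exact RV.to_zero

theorem RV.pto_prod {ι : Type} {s : Finset ι} {f : ι → L[X]} {g : ι → κ[X]}
    (h : ∀ i ∈ s, r.PTo (f i) (g i)) : r.PTo (∏ i ∈ s, f i) (∏ i ∈ s, g i) := by
  induction s using Finset.induction_on with
  | empty => simpa using red_one (r := r)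
  | insert a s ha ih =>
    rw [Finset.prod_insert ha, Finset.prod_insert ha]
    exact (h a (Finset.mem_insert_self _ _)).mul (ih fun i hi => h i (Finset.mem_insert_of_mem hi))

theorem RV.PTo.eval (h : r.PTo p q) (hz : r.To z c) : r.To (p.eval z) (q.eval c) := by
  rw [eval_eq_sum_range' (n := p.natDegree + q.natDegree + 1) (by omega),
    eval_eq_sum_range' (n := p.natDegree + q.natDegree + 1) (by omega)]
  exact red_sum fun i _ => (h i).mul (hz.pow i)

theorem RV.PTo.ne (h : r.PTo p q) (hq : q ≠ 0) : p ≠ 0 := by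
  rintro rfl
  exact hq (Polynomial.ext fun n => (h n).unique RV.to_zero)

theorem RV.exists_pto (h : ∀ n, p.coeff n ∈ r.O) : ∃ q, r.PTo p q := by
  refine ⟨∑ i ∈ p.support, monomial i (r.rs (p.coeff i)), fun n => ⟨h n, ?_⟩⟩
  simp only [finsetSum_coeff, coeff_monomial, Finset.sum_ite_eq', mem_support_iff]
  split_ifs with h0
  · rfl
  · rw [not_not.1 h0]
    exact RV.to_zero.2

/-- Division by a linear factor (synthetic division, or `Polynomial.lifts` to `O[X]`). -/
theorem RV.PTo.div (h : r.PTo ((X - C z) * p) q) (hz : r.To z c) :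
    ∃ q', r.PTo p q' ∧ q = (X - C c) * q' := by
  have h1 : ∀ k n, p.natDegree < n + k → p.coeff n ∈ r.O := by
    intro k
    induction k with
    | zero =>
      intro n hn
      rw [coeff_eq_zero_of_natDegree_lt (n := n) hn]
      exact zero_mem _
    | succ k ih =>
      intro n hn
      have h2 := (h (n + 1)).1
      rw [coeff_X_sub_C_mul] at h2
      have h3 := add_mem h2 (mul_mem hz.1 (ih (n + 1) (by omega)))
      rwa [sub_add_cancel] at h3
  obtain ⟨q', hq'⟩ := RV.exists_pto fun n => h1 (p.natDegree + 1) n (by omega)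
  exact ⟨q', hq', h.unique ((RV.pto_X.sub hz.C).mul hq')⟩

theorem RV.PTo.map (h : r.PTo p q) (a : L →+* L) (b : κ →+* κ)
    (hab : ∀ z c, r.To z c → r.To (a z) (b c)) : r.PTo (p.map a) (q.map b) := by
  intro n
  rw [coeff_map, coeff_map]
  exact hab _ _ (h n)

/-- Divide by a coefficient of largest valuation. -/
theorem RV.exists_scale (r : RV L κ) (h : p ≠ 0 ∨ p' ≠ 0) : ∃ (a : L) (q q' : κ[X]), a ≠ 0 ∧
    r.PTo (C a * p) q ∧ r.PTo (C a * p') q' ∧ (q ≠ 0 ∨ q' ≠ 0) := by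
  have hne : (p.coeffs ∪ p'.coeffs).Nonempty := by
    rcases h with h | h
    · exact ⟨_, Finset.mem_union_left _ (coeff_mem_coeffs (leadingCoeff_ne_zero.2 h))⟩
    · exact ⟨_, Finset.mem_union_right _ (coeff_mem_coeffs (leadingCoeff_ne_zero.2 h))⟩
  obtain ⟨b, hb, hmax⟩ := Finset.exists_max_image _ r.O.valuation hne
  have hb0 : b ≠ 0 := by
    rcases Finset.mem_union.1 hb with e | e <;>
    · obtain ⟨n, hn, rfl⟩ := mem_coeffs_iff.1 e
      exact mem_support_iff.1 hn
  have key : ∀ x, (x ≠ 0 → x ∈ p.coeffs ∪ p'.coeffs) → b⁻¹ * x ∈ r.O := by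
    intro x hx
    by_cases h0 : x = 0
    · rw [h0, mul_zero]
      exact zero_mem _
    · rw [← r.O.valuation_le_one_iff, map_mul, map_inv₀,
        inv_mul_le_one₀ (zero_lt_iff.2 ((Valuation.ne_zero_iff _).2 hb0))]
      exact hmax x (hx h0)
  obtain ⟨q, hq⟩ := RV.exists_pto (r := r) (p := C b⁻¹ * p) fun n => by
    rw [coeff_C_mul]
    exact key _ fun h0 => Finset.mem_union_left _ (coeff_mem_coeffs h0)
  obtain ⟨q', hq'⟩ := RV.exists_pto (r := r) (p := C b⁻¹ * p') fun n => by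
    rw [coeff_C_mul]
    exact key _ fun h0 => Finset.mem_union_right _ (coeff_mem_coeffs h0)
  have fin : ∀ (u : L[X]) (v : κ[X]), r.PTo (C b⁻¹ * u) v → b ∈ u.coeffs → v ≠ 0 := by
    intro u v huv e h0
    obtain ⟨n, -, hn⟩ := mem_coeffs_iff.1 e
    have h1 := huv n
    rw [coeff_C_mul, ← hn, inv_mul_cancel₀ hb0, h0, coeff_zero] at h1
    exact one_ne_zero (RV.to_one.unique h1)
  exact ⟨b⁻¹, q, q', inv_ne_zero hb0, hq, hq',
    (Finset.mem_union.1 hb).imp (fin p q hq) (fin p' q' hq')⟩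

theorem red_div (h : r.PTo ((1 - C z * X) * p) q) (hz : r.To z 0) : r.PTo p q := by
  have e : (1 - C z * X) * p = p - C z * (X * p) := by ring
  have h1 : ∀ n, p.coeff n ∈ r.O := by
    intro n
    induction n with
    | zero => simpa [e] using (h 0).1
    | succ n ih =>
      have h2 := (h (n + 1)).1
      rw [e, coeff_sub, coeff_C_mul, coeff_X_mul] at h2
      have h3 := add_mem h2 (mul_mem hz.1 ih)
      rwa [sub_add_cancel] at h3
  obtain ⟨q', hq'⟩ := RV.exists_pto h1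
  have h2 := h.unique ((red_one.sub (hz.C.mul RV.pto_X)).mul hq')
  rw [C_0, zero_mul, sub_zero, one_mul] at h2
  exact h2 ▸ hq'

variable [IsAlgClosed L]

/-- `p = a ∏ (X - z) ∏ (1 - z⁻¹ X)` over the integral and the other roots. -/
theorem RV.PTo.roots (h : r.PTo p q) (hq : q ≠ 0) :
    q.roots = (p.roots.filter (· ∈ r.O)).map r.rs ∧
      q.natDegree = (p.roots.filter (· ∈ r.O)).card := by
  induction hn : p.natDegree using Nat.strong_induction_on generalizing p q with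
  | _ n ih =>
  have hp := h.ne hq
  by_cases h0 : p.natDegree = 0
  · have e := eq_C_of_natDegree_eq_zero h0
    have e' : q = C (q.coeff 0) := h.unique (e ▸ (h 0).C)
    rw [e, e']
    simp
  obtain ⟨z, hz⟩ := IsAlgClosed.exists_root p fun e => h0 (natDegree_eq_zero_iff_degree_le_zero.2 e.le)
  obtain ⟨p₁, rfl⟩ := dvd_iff_isRoot.2 hz
  have hp₁ : p₁ ≠ 0 := right_ne_zero_of_mul hp
  have hd : p₁.natDegree < n := by
    rw [← hn, natDegree_mul (X_sub_C_ne_zero z) hp₁, natDegree_X_sub_C]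
    omega
  rw [roots_mul hp, roots_X_sub_C, Multiset.singleton_add]
  by_cases hO : z ∈ r.O
  · obtain ⟨q₁, h1, rfl⟩ := h.div (RV.to_rs hO)
    have hq₁ : q₁ ≠ 0 := right_ne_zero_of_mul hq
    obtain ⟨a, b⟩ := ih _ hd h1 hq₁ rfl
    rw [Multiset.filter_cons_of_pos _ hO, Multiset.map_cons, Multiset.card_cons, roots_mul hq,
      roots_X_sub_C, Multiset.singleton_add, natDegree_mul (X_sub_C_ne_zero _) hq₁,
      natDegree_X_sub_C, a, b]
    exact ⟨rfl, add_comm _ _⟩
  · have hz0 : -z ≠ 0 := neg_ne_zero.2 fun e => hO (e ▸ zero_mem _)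
    have e : (X - C z) * p₁ = (1 - C z⁻¹ * X) * (C (-z) * p₁) := by
      have h1 : C z⁻¹ * C z = (1 : L[X]) := by
        rw [← C_mul, inv_mul_cancel₀ (neg_ne_zero.1 hz0), C_1]
      rw [C_neg]
      linear_combination (-(X * p₁)) * h1
    have h1 := red_div (e ▸ h) (RV.to_inv hO)
    have h2 := ih _ (by rwa [natDegree_C_mul hz0]) h1 hq rfl
    rw [roots_C_mul _ hz0] at h2
    rwa [Multiset.filter_cons_of_neg _ hO]

/-- A root of `X ∏ (X - t) + 1`, with `t` running through lifts. -/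
theorem RV.exists_res (r : RV L κ) (T : Finset κ) : ∃ z c, r.To z c ∧ c ∉ T := by
  set T' := T.filter fun t => ∃ z, r.To z t with hT'
  choose! l hl using fun t (ht : t ∈ T') => (Finset.mem_filter.1 ht).2
  have h1 : r.PTo (X * ∏ t ∈ T', (X - C (l t)) + C 1) (X * ∏ t ∈ T', (X - C t) + C 1) :=
    (RV.pto_X.mul (RV.pto_prod fun t ht => RV.pto_X.sub (hl t ht).C)).add RV.to_one.C
  have h2 : (X * ∏ t ∈ T', (X - C t) + C 1 : κ[X]).natDegree ≠ 0 := by
    rw [natDegree_add_C, natDegree_X_mul (Finset.prod_ne_zero_iff.2 fun t _ => X_sub_C_ne_zero t)]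
    omega
  have h3 : (X * ∏ t ∈ T', (X - C t) + C 1 : κ[X]) ≠ 0 := fun e => h2 (by rw [e, natDegree_zero])
  obtain ⟨a, b⟩ := h1.roots h3
  rw [b] at h2
  obtain ⟨z, hz⟩ := Multiset.card_pos_iff_exists_mem.1 (Nat.pos_of_ne_zero h2)
  have h4 := RV.to_rs (Multiset.mem_filter.1 hz).2
  refine ⟨z, _, h4, fun hT => ?_⟩
  have h5 := Multiset.mem_map_of_mem r.rs hz
  rw [← a, mem_roots h3, IsRoot.def, eval_add, eval_mul, eval_prod,
    Finset.prod_eq_zero (i := r.rs z) (Finset.mem_filter.2 ⟨hT, z, h4⟩) (by simp)] at h5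
  simp at h5

end

end Pool.Agent.Lib.MP_16ef92_ag.HY
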