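import Mathlib
import Pool.Agent.Lib.MP_16ef92_ag.HY.Red
import Pool.Agent.Lib.MP_16ef92_ag.HY.Pl2

set_option autoImplicit false
set_option linter.unusedSectionVars false
set_option linter.unusedVariables false

namespace Pool.Agent.Lib.MP_16ef92_ag.HY

open Polynomial AL Pool.Agent.Lib.MP_6adaea_nt
open scoped Classical

noncomputable section

/-- A curve `y ^ 2 = ff e` with integral `e`, and the normalisation of its reduction. -/
structure Rs (L κ K K' I I' : Type) [Field L] [Field κ] [Field K] [Field K'] [Algebra L K]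
    [Algebra κ K'] [Fintype I] [Fintype I'] where
  r : RV L κ
  e : I → L
  x : K
  y : K
  e' : I' → κ
  x' : K'
  y' : K'
  w : κ[X]
  he : HE e x y
  he' : HE e' x' y'
  mem : ∀ i, e i ∈ r.O
  fac : ff (fun i => r.rs (e i)) = w ^ 2 * ff e'

variable {L κ K K' I I' : Type} [Field L] [Field κ] [Field K] [Field K'] [Algebra L K]
  [Algebra κ K'] [Fintype I] [Fintype I'] (S : Rs L κ K K' I I')

theorem Rs.w_ne : S.w ≠ 0 := fun e => (ff_monic fun i => S.r.rs (S.e i)).ne_zero (by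
  rw [S.fac, e, zero_pow two_ne_zero, zero_mul])

theorem Rs.pto_ff : S.r.PTo (ff S.e) (S.w ^ 2 * ff S.e') :=
  S.fac ▸ RV.pto_prod fun i _ => RV.pto_X.sub (RV.to_rs (S.mem i)).C

/-- Exact reduction of functions. -/
def Rs.R1 (h : K) (h' : K') : Prop :=
  ∃ (u v d : L[X]) (u' v' d' : κ[X]), S.r.PTo u u' ∧ S.r.PTo v v' ∧ S.r.PTo d d' ∧ d' ≠ 0 ∧
    h * aeval S.x d = aeval S.x u + aeval S.x v * S.y ∧
    h' * aeval S.x' d' = aeval S.x' u' + aeval S.x' (v' * S.w) * S.y'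

/-- Reduction of functions up to constants. -/
def Rs.Rd (h : K) (h' : K') : Prop :=
  h' ≠ 0 ∧ ∃ a : L, a ≠ 0 ∧ S.R1 (algebraMap L K a * h) h'

/-- Compatible automorphisms. -/
structure Rs.Cp (s : SA L K) (s' : SA κ K') : Prop where
  x : s.γ S.x = S.x
  y : s.γ S.y = S.y
  x' : s'.γ S.x' = S.x'
  y' : s'.γ S.y' = S.y'
  w : S.w.map (s'.a : κ →+* κ) = S.w
  res : ∀ z c, S.r.To z c ↔ S.r.To (s.a z) (s'.a c)

variable {S} {h g : K} {h' g' : K'} {s : SA L K} {s' : SA κ K'}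

theorem rs_zero : S.r.PTo 0 0 := fun n => by
  simpa using RV.to_zero

theorem rs_one : S.r.PTo 1 1 := by
  simpa using (RV.to_one (r := S.r)).C

/-- A relation `u + v y = 0` reduces. -/
theorem rs_rel {u v : L[X]} {u' v' : κ[X]} (hu : S.r.PTo u u') (hv : S.r.PTo v v')
    (h0 : aeval S.x u + aeval S.x v * S.y = 0) : u' = 0 ∧ v' = 0 := by
  obtain ⟨rfl, rfl⟩ := S.he.ind h0
  exact ⟨hu.unique rs_zero, hv.unique rs_zero⟩

theorem rs_sq : (aeval S.x' S.w * S.y') ^ 2 = aeval S.x' (S.w ^ 2 * ff S.e') := by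
  rw [mul_pow, S.he'.eq, map_mul, map_pow]

/-- `HE.ind` upstairs gives `d₂ u₁ = d₁ u₂` and `d₂ v₁ = d₁ v₂`. -/
theorem Rs.R1.unique (h1 : S.R1 h h') (h2 : S.R1 h g') : h' = g' := by
  obtain ⟨u, v, d, u', v', d', hu, hv, hd, d0, e1, e1'⟩ := h1
  obtain ⟨a, b, c, a', b', c', ha, hb, hc, c0, e2, e2'⟩ := h2
  obtain ⟨h3, h4⟩ := rs_rel ((hc.mul hu).sub (hd.mul ha)) ((hc.mul hv).sub (hd.mul hb)) (by
    simp only [map_sub, map_mul]
    linear_combination aeval S.x d * e2 - aeval S.x c * e1)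
  have h5 := congrArg (aeval S.x') h3
  have h6 := congrArg (aeval S.x') h4
  simp only [map_sub, map_mul, map_zero] at h5 h6 e1' e2'
  apply mul_right_cancel₀ (mul_ne_zero (S.he'.aeval_ne d0) (S.he'.aeval_ne c0))
  linear_combination aeval S.x' c' * e1' - aeval S.x' d' * e2' + h5 +
    aeval S.x' S.w * S.y' * h6

theorem Rs.R1.add (h1 : S.R1 h h') (h2 : S.R1 g g') : S.R1 (h + g) (h' + g') := by
  obtain ⟨u, v, d, u', v', d', hu, hv, hd, d0, e1, e1'⟩ := h1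
  obtain ⟨a, b, c, a', b', c', ha, hb, hc, c0, e2, e2'⟩ := h2
  refine ⟨_, _, _, _, _, _, (hc.mul hu).add (hd.mul ha), (hc.mul hv).add (hd.mul hb), hd.mul hc,
    mul_ne_zero d0 c0, ?_, ?_⟩
  · simp only [map_add, map_mul]
    linear_combination aeval S.x c * e1 + aeval S.x d * e2
  · simp only [map_add, map_mul] at e1' e2' ⊢
    linear_combination aeval S.x' c' * e1' + aeval S.x' d' * e2'

theorem Rs.R1.mul (h1 : S.R1 h h') (h2 : S.R1 g g') : S.R1 (h * g) (h' * g') := by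
  obtain ⟨u, v, d, u', v', d', hu, hv, hd, d0, e1, e1'⟩ := h1
  obtain ⟨a, b, c, a', b', c', ha, hb, hc, c0, e2, e2'⟩ := h2
  refine ⟨_, _, _, _, _, _, (hu.mul ha).add ((hv.mul hb).mul S.pto_ff),
    (hu.mul hb).add (hv.mul ha), hd.mul hc, mul_ne_zero d0 c0, ?_, ?_⟩
  · simp only [map_add, map_mul, ← S.he.eq]
    linear_combination g * aeval S.x c * e1 + (aeval S.x u + aeval S.x v * S.y) * e2
  · simp only [map_add, map_mul, map_pow, ← S.he'.eq] at e1' e2' ⊢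
    linear_combination g' * aeval S.x' c' * e1' +
      (aeval S.x' u' + aeval S.x' v' * aeval S.x' S.w * S.y') * e2'

theorem Rs.r1_el {u v : L[X]} {u' v' : κ[X]} (hu : S.r.PTo u u') (hv : S.r.PTo v v') :
    S.R1 (aeval S.x u + aeval S.x v * S.y) (aeval S.x' u' + aeval S.x' (v' * S.w) * S.y') := by
  exact ⟨u, v, 1, u', v', 1, hu, hv, rs_one, one_ne_zero, by simp, by simp⟩

theorem Rs.r1_aeval {u : L[X]} {u' : κ[X]} (hu : S.r.PTo u u') :
    S.R1 (aeval S.x u) (aeval S.x' u') := by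
  simpa using Rs.r1_el hu rs_zero

theorem Rs.r1_const {z : L} {c : κ} (hz : S.r.To z c) :
    S.R1 (algebraMap L K z) (algebraMap κ K' c) := by
  simpa using Rs.r1_aeval hz.C

theorem Rs.r1_x : S.R1 S.x S.x' := by
  simpa using Rs.r1_aeval (S := S) RV.pto_X

theorem Rs.r1_y : S.R1 S.y (aeval S.x' S.w * S.y') := by
  simpa using Rs.r1_el (S := S) rs_zero rs_one

theorem Rs.R1.neg (h1 : S.R1 h h') : S.R1 (-h) (-h') := by
  simpa using (Rs.r1_const (S := S) RV.to_one.neg).mul h1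

theorem Rs.R1.sub (h1 : S.R1 h h') (h2 : S.R1 g g') : S.R1 (h - g) (h' - g') := by
  simpa only [sub_eq_add_neg] using h1.add h2.neg

theorem Rs.R1.pow (h1 : S.R1 h h') (n : ℕ) : S.R1 (h ^ n) (h' ^ n) := by
  induction n with
  | zero => simpa using Rs.r1_const (S := S) RV.to_one
  | succ n ih => simpa only [pow_succ] using ih.mul h1

theorem Rs.R1.ne (h1 : S.R1 h h') (h0 : h' ≠ 0) : h ≠ 0 := by
  rintro rfl
  exact h0 (h1.unique (by simpa using Rs.r1_const (S := S) RV.to_zero))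

/-- Multiply by the conjugate; `HE.norm` on both curves. -/
theorem Rs.R1.inv (h1 : S.R1 h h') (h0 : h' ≠ 0) : S.R1 h⁻¹ h'⁻¹ := by
  have h2 := h1.ne h0
  obtain ⟨u, v, d, u', v', d', hu, hv, hd, d0, e1, e1'⟩ := h1
  have h3 := S.he.norm u v
  have h4 := S.he'.norm u' (v' * S.w)
  have h5 : u' ^ 2 - v' ^ 2 * (S.w ^ 2 * ff S.e') = u' ^ 2 - (v' * S.w) ^ 2 * ff S.e' := by ring
  refine ⟨_, _, _, _, _, _, hd.mul hu, (hd.mul hv).neg, (hu.pow 2).sub ((hv.pow 2).mul S.pto_ff),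
    fun h6 => ?_, ?_, ?_⟩
  · rw [← h5, h6, map_zero, ← e1', mul_eq_zero] at h4
    have h7 := mul_ne_zero h0 (S.he'.aeval_ne d0)
    obtain ⟨h8, h9⟩ := S.he'.ind (u := u') (v := -(v' * S.w)) (by
      rw [map_neg, neg_mul, ← sub_eq_add_neg]
      exact h4.resolve_left h7)
    rw [h8, neg_eq_zero.1 h9] at e1'
    exact h7 (by simpa using e1')
  · rw [← h3, ← e1, mul_assoc h, inv_mul_cancel_left₀ h2]
    simp only [map_neg, map_mul]
    ring
  · rw [h5, ← h4, ← e1', mul_assoc h', inv_mul_cancel_left₀ h0]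
    simp only [map_neg, map_mul]
    ring

theorem Rs.R1.io (h1 : S.R1 h h') : S.R1 (S.he.io.γ h) (S.he'.io.γ h') := by
  obtain ⟨u, v, d, u', v', d', hu, hv, hd, d0, e1, e1'⟩ := h1
  have h2 := congrArg S.he.io.γ e1
  have h3 := congrArg S.he'.io.γ e1'
  simp only [map_add S.he.io.γ, map_mul S.he.io.γ, S.he.io_aeval, S.he.io_y] at h2
  simp only [map_add S.he'.io.γ, map_mul S.he'.io.γ, S.he'.io_aeval, S.he'.io_y] at h3
  refine ⟨_, _, _, _, _, _, hu, hv.neg, hd, d0, ?_, ?_⟩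
  · rw [h2, map_neg]
    ring
  · rw [h3, neg_mul, map_neg]
    ring

theorem Rs.R1.map (h1 : S.R1 h h') (hs : S.Cp s s') : S.R1 (s.γ h) (s'.γ h') := by
  obtain ⟨u, v, d, u', v', d', hu, hv, hd, d0, e1, e1'⟩ := h1
  have h2 := congrArg s.γ e1
  have h3 := congrArg s'.γ e1'
  simp only [map_add s.γ, map_mul s.γ, sa_aeval s hs.x, hs.y] at h2
  simp only [map_add s'.γ, map_mul s'.γ, sa_aeval s' hs.x', hs.y'] at h3
  rw [Polynomial.map_mul, hs.w] at h3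
  have h4 : ∀ z c, S.r.To z c → S.r.To ((s.a : L →+* L) z) ((s'.a : κ →+* κ) c) :=
    fun z c => (hs.res z c).1
  exact ⟨_, _, _, _, _, _, hu.map _ _ h4, hv.map _ _ h4, hd.map _ _ h4,
    Polynomial.map_ne_zero d0, h2, h3⟩

theorem Rs.R1.rd (h1 : S.R1 h h') (h0 : h' ≠ 0) : S.Rd h h' :=
  ⟨h0, 1, one_ne_zero, by rwa [map_one, one_mul]⟩

theorem Rs.exists_rd (S : Rs L κ K K' I I') (h0 : h ≠ 0) : ∃ h', S.Rd h h' := by
  obtain ⟨u, v, d, d0, e1⟩ := S.he.gen h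
  have h1 : u ≠ 0 ∨ v ≠ 0 := by
    by_contra h1
    push Not at h1
    rw [h1.1, h1.2] at e1
    exact mul_ne_zero h0 (S.he.aeval_ne d0) (by simpa using e1)
  obtain ⟨a, u', v', a0, hu, hv, h2⟩ := S.r.exists_scale h1
  obtain ⟨b, d', d'', b0, hd, hd', h3⟩ := S.r.exists_scale (p := d) (p' := d) (Or.inl d0)
  have h4 : d' ≠ 0 := by
    rw [← hd.unique hd', or_self] at h3
    exact h3
  have h5 := S.he'.aeval_ne h4
  have h6 : algebraMap L K b ≠ 0 := (_root_.map_ne_zero _).2 b0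
  refine ⟨(aeval S.x' u' + aeval S.x' (v' * S.w) * S.y') / aeval S.x' d', div_ne_zero
    (fun h7 => ?_) h5, a / b, div_ne_zero a0 b0, _, _, _, _, _, _, hu, hv, hd, h4, ?_,
    div_mul_cancel₀ _ h5⟩
  · obtain ⟨h8, h9⟩ := S.he'.ind h7
    exact h2.elim (fun h => h h8) fun h => mul_ne_zero h S.w_ne h9
  · simp only [map_mul, aeval_C, map_div₀]
    field_simp
    linear_combination algebraMap L K a * e1

theorem Rs.Rd.ne (h1 : S.Rd h h') : h ≠ 0 := by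
  obtain ⟨h0, a, -, h2⟩ := h1
  exact right_ne_zero_of_mul (h2.ne h0)

/-- The quotient of the two scalars or its inverse is integral. -/
theorem Rs.Rd.unique (h1 : S.Rd h h') (h2 : S.Rd h g') :
    ∃ c : κ, c ≠ 0 ∧ g' = algebraMap κ K' c * h' := by
  have key : ∀ {a b : L} {p q : K'}, a ≠ 0 → q ≠ 0 → b / a ∈ S.r.O →
      S.R1 (algebraMap L K a * h) p → S.R1 (algebraMap L K b * h) q →
      ∃ c : κ, c ≠ 0 ∧ q = algebraMap κ K' c * p := fun {a b p q} a0 q0 hm h3 h4 => by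
    have h5 := (Rs.r1_const (RV.to_rs hm)).mul h3
    rw [← mul_assoc, ← map_mul, div_mul_cancel₀ _ a0] at h5
    refine ⟨_, fun h6 => q0 ?_, h4.unique h5⟩
    rw [h4.unique h5, h6, map_zero, zero_mul]
  obtain ⟨h0, a, a0, h3⟩ := h1
  obtain ⟨g0, b, b0, h4⟩ := h2
  rcases S.r.O.mem_or_inv_mem (b / a) with hm | hm
  · exact key a0 g0 hm h3 h4
  · obtain ⟨c, c0, h5⟩ := key b0 h0 (by rwa [inv_div] at hm) h4 h3
    refine ⟨c⁻¹, inv_ne_zero c0, ?_⟩
    rw [h5, ← mul_assoc, ← map_mul, inv_mul_cancel₀ c0, map_one, one_mul]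

theorem Rs.Rd.mul (h1 : S.Rd h h') (h2 : S.Rd g g') : S.Rd (h * g) (h' * g') := by
  obtain ⟨h0, a, a0, h3⟩ := h1
  obtain ⟨g0, b, b0, h4⟩ := h2
  refine ⟨mul_ne_zero h0 g0, a * b, mul_ne_zero a0 b0, ?_⟩
  rw [map_mul, mul_mul_mul_comm]
  exact h3.mul h4

theorem Rs.Rd.inv (h1 : S.Rd h h') : S.Rd h⁻¹ h'⁻¹ := by
  obtain ⟨h0, a, a0, h3⟩ := h1
  refine ⟨inv_ne_zero h0, a⁻¹, inv_ne_zero a0, ?_⟩
  rw [map_inv₀, ← mul_inv]
  exact h3.inv h0

theorem Rs.Rd.pow (h1 : S.Rd h h') (n : ℕ) : S.Rd (h ^ n) (h' ^ n) := by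
  obtain ⟨h0, a, a0, h3⟩ := h1
  refine ⟨pow_ne_zero n h0, a ^ n, pow_ne_zero n a0, ?_⟩
  rw [map_pow, ← mul_pow]
  exact h3.pow n

theorem Rs.Rd.const (h1 : S.Rd h h') {a : L} (ha : a ≠ 0) : S.Rd (algebraMap L K a * h) h' := by
  obtain ⟨h0, b, b0, h3⟩ := h1
  refine ⟨h0, b / a, div_ne_zero b0 ha, ?_⟩
  rwa [← mul_assoc, ← map_mul, div_mul_cancel₀ _ ha]

theorem Rs.Rd.map (h1 : S.Rd h h') (hs : S.Cp s s') : S.Rd (s.γ h) (s'.γ h') := by
  obtain ⟨h0, a, a0, h3⟩ := h1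
  refine ⟨(_root_.map_ne_zero _).2 h0, s.a a, (_root_.map_ne_zero _).2 a0, ?_⟩
  rw [← s.h, ← map_mul]
  exact h3.map hs

end

end Pool.Agent.Lib.MP_16ef92_ag.HY
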