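import Mathlib
import Pool.Agent.Lib.MP_16ef92_ag.HY.Rs

set_option autoImplicit false
set_option linter.unusedSectionVars false
set_option linter.unusedVariables false

namespace Pool.Agent.Lib.MP_16ef92_ag.HY

open Polynomial AL Pool.Agent.Lib.MP_6adaea_nt
open scoped Classical

noncomputable section

variable {L κ K K' I I' : Type} [Field L] [Field κ] [Field K] [Field K'] [Algebra L K]
  [Algebra κ K'] [Fintype I] [Fintype I'] [IsAlgClosed L] [IsFF L K] [PosChar L] [IsAlgClosed κ]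
  [IsFF κ K'] [PosChar κ] (S : Rs L κ K K' I I')

/-- The place `v` reduces to `v'`. -/
def Rs.Sp (v : Place L K) (v' : Place κ K') : Prop :=
  (v.Ge S.x 0 ∧ v'.Ge S.x' 0 ∧ S.r.To (val v S.x) (val v' S.x') ∧
    S.r.To (val v S.y) (S.w.eval (val v' S.x') * val v' S.y')) ∨
  (v' = S.he'.inf ∧ ¬ (v.Ge S.x 0 ∧ val v S.x ∈ S.r.O))

/-- `v'` lies over a singular point of the reduction. -/
def Rs.Nd (v' : Place κ K') : Prop := v'.Ge S.x' 0 ∧ S.w.eval (val v' S.x') = 0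

/-- `HE.on`, `RV.mem_of_pow`, `HE.exists_pl`. -/
theorem Rs.exists_sp (v : Place L K) : ∃ v', S.Sp v v' := by
  by_cases h : v.Ge S.x 0 ∧ val v S.x ∈ S.r.O
  · have h1 := S.pto_ff.eval (RV.to_rs h.2)
    rw [← S.he.on h.1] at h1
    have h2 := RV.to_rs (RV.mem_of_pow two_ne_zero h1.1)
    have h3 := (h2.pow 2).unique h1
    obtain ⟨t, ht⟩ := IsAlgClosed.exists_pow_nat_eq ((ff S.e').eval (S.r.rs (val v S.x))) two_pos
    rw [eval_mul, eval_pow, ← ht, ← mul_pow, sq_eq_sq_iff_eq_or_eq_neg] at h3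
    obtain ⟨t, ht, h3⟩ : ∃ t, t ^ 2 = (ff S.e').eval (S.r.rs (val v S.x)) ∧
        S.r.rs (val v S.y) = S.w.eval (S.r.rs (val v S.x)) * t := by
      rcases h3 with h3 | h3
      · exact ⟨t, ht, h3⟩
      · exact ⟨-t, by rw [neg_sq, ht], by rw [h3, mul_neg]⟩
    obtain ⟨v', k1, k2, k3⟩ := S.he'.exists_pl ht
    refine ⟨v', Or.inl ⟨h.1, k1, ?_, ?_⟩⟩
    · rw [k2]
      exact RV.to_rs h.2
    · rw [k2, k3, ← h3]
      exact h2
  · exact ⟨_, Or.inr ⟨rfl, h⟩⟩

/-- The reduction of places. -/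
def Rs.sp (v : Place L K) : Place κ K' := (S.exists_sp v).choose

theorem Rs.sp_spec (v : Place L K) : S.Sp v (S.sp v) := (S.exists_sp v).choose_spec

/-- The reduction of divisors. -/
def Rs.pu : Dv L K →+ Dv κ K' := Finsupp.mapDomain.addMonoidHom S.sp

theorem Rs.pu_single (v : Place L K) (n : ℤ) :
    S.pu (Finsupp.single v n) = Finsupp.single (S.sp v) n := Finsupp.mapDomain_single

theorem Rs.pu_apply (D : Dv L K) (v' : Place κ K') :
    S.pu D v' = ∑ v ∈ D.support with S.sp v = v', D v := by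
  change Finsupp.mapDomain S.sp D v' = _
  rw [Finsupp.mapDomain, Finsupp.sum_apply, Finsupp.sum, Finset.sum_filter]
  exact Finset.sum_congr rfl fun v _ => Finsupp.single_apply

theorem Rs.deg_pu (D : Dv L K) : deg (S.pu D) = deg D := by
  induction D using Finsupp.induction_linear with
  | zero => simp
  | add a b ha hb => rw [map_add, map_add, map_add, ha, hb]
  | single v m => rw [S.pu_single, deg_single, deg_single]

variable {S} {v : Place L K} {v' u' : Place κ K'} {h : K} {h' : K'} {s : SA L K} {s' : SA κ K'}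

theorem Rs.Sp.unique (h1 : S.Sp v v') (h2 : S.Sp v u') (hn : ¬ S.Nd v') : v' = u' := by
  rcases h1 with h1 | h1 <;> rcases h2 with h2 | h2
  · have e := h1.2.2.1.unique h2.2.2.1
    have e2 := h1.2.2.2.unique h2.2.2.2
    rw [← e] at e2
    exact S.he'.pl_ext h1.2.1 h2.2.1 e (mul_left_cancel₀ (fun e0 => hn ⟨h1.2.1, e0⟩) e2)
  · exact absurd ⟨h1.1, h1.2.2.1.1⟩ h2.2
  · exact absurd ⟨h2.1, h2.2.2.1.1⟩ h1.2
  · exact h1.1.trans h2.1.symm

theorem Rs.Sp.nd (h1 : S.Sp v v') (h2 : S.Sp v u') (hn : S.Nd v') : S.Nd u' := by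
  rcases h1 with h1 | h1
  · rcases h2 with h2 | h2
    · exact ⟨h2.2.1, h1.2.2.1.unique h2.2.2.1 ▸ hn.2⟩
    · exact absurd ⟨h1.1, h1.2.2.1.1⟩ h2.2
  · exact absurd h1.1 (S.he'.fin_iff.1 hn.1)

theorem Rs.sp_iff (hn : ¬ S.Nd v') : S.sp v = v' ↔ S.Sp v v' :=
  ⟨fun e => e ▸ S.sp_spec v, fun e => (e.unique (S.sp_spec v) hn).symm⟩

theorem Rs.nd_inf : ¬ S.Nd S.he'.inf := fun e => S.he'.fin_iff.1 e.1 rfl

theorem Rs.sp_inf : S.sp S.he.inf = S.he'.inf :=
  (Rs.sp_iff Rs.nd_inf).2 (Or.inr ⟨rfl, fun e => S.he.fin_iff.1 e.1 rfl⟩)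

theorem Rs.Sp.io (h1 : S.Sp v v') : S.Sp (S.he.io.pl v) (S.he'.io.pl v') := by
  rcases h1 with h1 | h1
  · obtain ⟨a1, a2, a3⟩ := S.he.io_val h1.1
    obtain ⟨b1, b2, b3⟩ := S.he'.io_val h1.2.1
    refine Or.inl ⟨a1, b1, ?_, ?_⟩
    · rw [a2, b2]
      exact h1.2.2.1
    · rw [a3, b2, b3, mul_neg]
      exact h1.2.2.2.neg
  · refine Or.inr ⟨by rw [h1.1, S.he'.sa_inf _ S.he'.io_x], fun h2 => h1.2 ?_⟩
    have h3 := (sa_fin _ S.he.io_x).1 h2.1
    exact ⟨h3, (S.he.io_val h3).2.1 ▸ h2.2⟩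

theorem Rs.Cp.lf_w (hs : S.Cp s s') (c : κ) : S.w.eval (s'.a c) = s'.a (S.w.eval c) := by
  conv_lhs => rw [← hs.w]
  exact eval_map_apply (s'.a : κ →+* κ) c

theorem Rs.Sp.map (h1 : S.Sp v v') (hs : S.Cp s s') : S.Sp (s.pl v) (s'.pl v') := by
  rcases h1 with h1 | h1
  · refine Or.inl ⟨(sa_fin _ hs.x).2 h1.1, (sa_fin _ hs.x').2 h1.2.1, ?_, ?_⟩
    · rw [sa_val _ hs.x, sa_val _ hs.x']
      exact (hs.res _ _).1 h1.2.2.1
    · rw [sa_val _ hs.y, sa_val _ hs.x', sa_val _ hs.y', hs.lf_w, ← map_mul]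
      exact (hs.res _ _).1 h1.2.2.2
  · refine Or.inr ⟨by rw [h1.1, S.he'.sa_inf _ hs.x'], fun h2 => h1.2 ?_⟩
    refine ⟨(sa_fin _ hs.x).1 h2.1, ((hs.res _ (s'.a.symm (S.r.rs (s.a (val v S.x))))).2 ?_).1⟩
    rw [RingEquiv.apply_symm_apply]
    exact RV.to_rs (sa_val s hs.x v ▸ h2.2)

theorem Rs.Cp.nd (hs : S.Cp s s') : S.Nd (s'.pl v') ↔ S.Nd v' := by
  rw [Rs.Nd, Rs.Nd, sa_fin _ hs.x', sa_val _ hs.x', hs.lf_w, map_eq_zero_iff _ s'.a.injective]

theorem Rs.lf_pu (hs : ∀ v v', S.Sp v v' → S.Sp (s.pl v) (s'.pl v')) (D : Dv L K)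
    (hn : ¬ S.Nd v') : S.pu (s.dm D) v' = s'.dm (S.pu D) v' := by
  induction D using Finsupp.induction_linear with
  | zero => simp
  | add a b ha hb => simp only [map_add, Finsupp.add_apply, ha, hb]
  | single v m =>
    have h1 := hs _ _ (S.sp_spec v)
    have h2 : S.sp (s.pl v) = v' ↔ s'.pl (S.sp v) = v' :=
      (Rs.sp_iff hn).trans ⟨fun e => (e.unique h1 hn).symm, fun e => e ▸ h1⟩
    rw [SA.dm_single, S.pu_single, S.pu_single, SA.dm_single, Finsupp.single_apply,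
      Finsupp.single_apply]
    exact if_congr h2 rfl rfl

theorem Rs.Cp.pu (hs : S.Cp s s') (D : Dv L K) (hn : ¬ S.Nd v') :
    S.pu (s.dm D) v' = s'.dm (S.pu D) v' := by
  exact Rs.lf_pu (fun _ _ h => h.map hs) D hn

theorem lf_dv {k F J : Type} [Field k] [Field F] [Algebra k F] [Fintype J] {e : J → k} {x y : F}
    [IsAlgClosed k] [IsFF k F] [PosChar k] (h : HE e x y) {p : k[X]} (hp : p ≠ 0) :
    dv k (aeval x p) = (p.roots.map fun z => dv k (x - algebraMap k F z)).sum := by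
  have h1 : ∀ m : Multiset k, dv k (aeval x (m.map fun z => X - C z).prod) =
      (m.map fun z => dv k (x - algebraMap k F z)).sum := fun m => by
    induction m using Multiset.induction_on with
    | empty => simpa using dv_one
    | cons z m ih =>
      rw [Multiset.map_cons, Multiset.map_cons, Multiset.prod_cons, Multiset.sum_cons, map_mul,
        dv_mul (h.aeval_ne (X_sub_C_ne_zero z))
          (h.aeval_ne (monic_multisetProd_X_sub_C m).ne_zero), ih, map_sub, aeval_X, aeval_C]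
  conv_lhs => rw [← C_leadingCoeff_mul_prod_multiset_X_sub_C
    (IsAlgClosed.card_roots_eq_natDegree (p := p))]
  rw [map_mul, dv_mul (h.aeval_ne (C_ne_zero.2 (leadingCoeff_ne_zero.2 hp)))
    (h.aeval_ne (monic_multisetProd_X_sub_C _).ne_zero), aeval_C, dv_const, zero_add, h1]

theorem Rs.lf_xc (z : L) (hn : ¬ S.Nd v') : S.pu (dv L (S.x - algebraMap L K z)) v' =
    if z ∈ S.r.O then dv κ (S.x' - algebraMap κ K' (S.r.rs z)) v' else 0 := by
  obtain ⟨t, ht⟩ := IsAlgClosed.exists_pow_nat_eq ((ff S.e).eval z) two_pos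
  obtain ⟨v, k1, rfl, -⟩ := S.he.exists_pl ht
  have h1 := Rs.lf_pu (fun _ _ h => h.io) (Finsupp.single v 1) hn
  rw [SA.dm_single, S.pu_single v, SA.dm_single] at h1
  rw [S.he.dv_xc k1, map_sub, map_add, Finsupp.sub_apply, Finsupp.add_apply, h1, S.pu_single,
    S.pu_single, Rs.sp_inf]
  rcases S.sp_spec v with h2 | h2
  · rw [if_pos h2.2.2.1.1, h2.2.2.1.2, S.he'.dv_xc h2.2.1]
    rfl
  · rw [if_neg fun e => h2.2 ⟨k1, e⟩, h2.1, S.he'.sa_inf _ S.he'.io_x]
    simp only [Finsupp.single_apply]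
    split_ifs <;> rfl

/-- The formula for polynomials in `x`: `RV.PTo.roots`, additivity, and `dv_xc` for one factor.
For `x - z` with `z` integral both sides are `P + io P - 2 inf`; for `1 - z⁻¹ x` with `z` not
integral both sides vanish. -/
theorem Rs.lf_aeval {p : L[X]} {p' : κ[X]} (hp : S.r.PTo p p') (h0 : p' ≠ 0) (hn : ¬ S.Nd v') :
    v'.ord (aeval S.x' p') = S.pu (dv L (aeval S.x p)) v' := by
  rw [← dv_apply, lf_dv S.he' h0, lf_dv S.he (hp.ne h0), (hp.roots h0).1]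
  generalize p.roots = m
  induction m using Multiset.induction_on with
  | empty => simp
  | cons z m ih =>
    rw [Multiset.map_cons, Multiset.sum_cons, map_add, Finsupp.add_apply, ← ih, Rs.lf_xc z hn]
    by_cases hz : z ∈ S.r.O
    · rw [Multiset.filter_cons_of_pos _ hz, if_pos hz, Multiset.map_cons, Multiset.map_cons,
        Multiset.sum_cons, Finsupp.add_apply]
    · rw [Multiset.filter_cons_of_neg _ hz, if_neg hz, zero_add]

theorem Rs.lf_fin (e : S.sp v = v') (hv : v'.Ge S.x' 0) : v.Ge S.x 0 ∧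
    S.r.To (val v S.x) (val v' S.x') ∧
      S.r.To (val v S.y) (S.w.eval (val v' S.x') * val v' S.y') := by
  subst e
  rcases S.sp_spec v with h | h
  · exact ⟨h.1, h.2.2⟩
  · exact absurd h.1 (S.he'.fin_iff.1 hv)

theorem Rs.lf_nonneg {D : Dv L K} (hD : ∀ u, S.sp u = v' → 0 ≤ D u) : 0 ≤ S.pu D v' := by
  rw [S.pu_apply]
  exact Finset.sum_nonneg fun u hu => hD u (Finset.mem_filter.1 hu).2

theorem Rs.lf_ge {D : Dv L K} (hD : ∀ u, S.sp u = S.sp v → 0 ≤ D u) : D v ≤ S.pu D (S.sp v) := by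
  by_cases h0 : D v = 0
  · rw [h0]
    exact Rs.lf_nonneg hD
  · rw [S.pu_apply]
    exact Finset.single_le_sum (f := D) (fun u hu => hD u (Finset.mem_filter.1 hu).2)
      (Finset.mem_filter.2 ⟨Finsupp.mem_support_iff.2 h0, rfl⟩)

theorem Rs.lf_step {a b : L[X]} {a' b' : κ[X]} (ha : S.r.PTo a a') (hb : S.r.PTo b b')
    (h0 : aeval S.x' a' + aeval S.x' (b' * S.w) * S.y' ≠ 0) (hn : ¬ S.Nd v')
    (hv : v'.Ge S.x' 0) (hy : val v' S.y' ≠ 0) :
    S.pu (dv L (aeval S.x a + aeval S.x b * S.y)) v' ≤ 0 ∨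
    ∃ (a₁ b₁ : L[X]) (a₁' b₁' : κ[X]), S.r.PTo a₁ a₁' ∧ S.r.PTo b₁ b₁' ∧
      aeval S.x' a₁' + aeval S.x' (b₁' * S.w) * S.y' ≠ 0 ∧
      v'.ord (aeval S.x' a' + aeval S.x' (b' * S.w) * S.y') =
        1 + v'.ord (aeval S.x' a₁' + aeval S.x' (b₁' * S.w) * S.y') ∧
      S.pu (dv L (aeval S.x a + aeval S.x b * S.y)) v' ≤
        1 + S.pu (dv L (aeval S.x a₁ + aeval S.x b₁ * S.y)) v' := by
  by_cases h : ∀ v, S.sp v = v' → v.ord (aeval S.x a + aeval S.x b * S.y) ≤ 0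
  · left
    rw [S.pu_apply]
    exact Finset.sum_nonpos fun u hu => h u (Finset.mem_filter.1 hu).2
  right
  push Not at h
  obtain ⟨v, e, hpos⟩ := h
  obtain ⟨f1, f2, f3⟩ := Rs.lf_fin e hv
  have hw : S.w.eval (val v' S.x') * val v' S.y' ≠ 0 := mul_ne_zero (fun e0 => hn ⟨hv, e0⟩) hy
  have h1 := S.he.ge_el f1 a b
  have h2 := (val_eq_zero_iff h1.1).2 (Place.Ge.of_le hpos)
  rw [h1.2] at h2
  obtain ⟨a₁, b₁, e1, e2⟩ := div_trick (ff S.e) a b (S.he.on f1) h2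
  obtain ⟨a₁', k1, e1'⟩ := RV.PTo.div (e1 ▸ (ha.mul f3.C).add (hb.mul S.pto_ff)) f2
  obtain ⟨b₁', k2, e2'⟩ := RV.PTo.div (e2 ▸ ha.add (hb.mul f3.C)) f2
  have u1 : (aeval S.x a + aeval S.x b * S.y) *
      (aeval S.x (C (val v S.y)) + aeval S.x (1 : L[X]) * S.y) =
      aeval S.x (X - C (val v S.x)) * (aeval S.x a₁ + aeval S.x b₁ * S.y) := by
    have q1 := congrArg (aeval S.x) e1
    have q2 := congrArg (aeval S.x) e2
    simp only [map_add, map_mul, ← S.he.eq, map_one] at q1 q2 ⊢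
    linear_combination q1 + S.y * q2
  have u2 : (aeval S.x' a' + aeval S.x' (b' * S.w) * S.y') *
      (aeval S.x' (C (S.w.eval (val v' S.x') * val v' S.y')) + aeval S.x' S.w * S.y') =
      aeval S.x' (X - C (val v' S.x')) * (aeval S.x' a₁' + aeval S.x' (b₁' * S.w) * S.y') := by
    have q1 := congrArg (aeval S.x') e1'
    have q2 := congrArg (aeval S.x') e2'
    generalize C (S.w.eval (val v' S.x') * val v' S.y') = t at q1 q2 ⊢
    simp only [map_add, map_mul, map_pow, ← S.he'.eq] at q1 q2 ⊢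
    linear_combination q1 + aeval S.x' S.w * S.y' * q2
  obtain ⟨g1, g2⟩ := ord_of_val_ne (v := v') (f := aeval S.x'
      (C (S.w.eval (val v' S.x') * val v' S.y')) + aeval S.x' S.w * S.y') (by
    rw [(S.he'.ge_el hv _ _).2, eval_C, ← two_mul]
    exact mul_ne_zero S.he'.two hw)
  have g3 : aeval S.x' (X - C (val v' S.x')) ≠ 0 := S.he'.aeval_ne (X_sub_C_ne_zero _)
  have g4 : v'.ord (aeval S.x' (X - C (val v' S.x'))) = 1 := by
    rw [map_sub, aeval_X, aeval_C]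
    exact (S.he'.ord_par hv).1 hy
  have k3 := right_ne_zero_of_mul (u2 ▸ mul_ne_zero h0 g1)
  refine ⟨a₁, b₁, a₁', b₁', k1, k2, k3, ?_, ?_⟩
  · have := congrArg v'.ord u2
    rwa [v'.ord_mul h0 g1, v'.ord_mul g3 k3, g2, g4, add_zero] at this
  · have n1 : aeval S.x a + aeval S.x b * S.y ≠ 0 := fun e0 => by
      rw [e0, v.ord_zero] at hpos
      exact lt_irrefl _ hpos
    have n2 : aeval S.x (C (val v S.y)) + aeval S.x (1 : L[X]) * S.y ≠ 0 := fun e0 =>
      one_ne_zero (S.he.ind e0).2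
    have n3 := right_ne_zero_of_mul (u1 ▸ mul_ne_zero n1 n2)
    have q1 := congrArg (fun z => S.pu (dv L z) v') u1
    simp only [dv_mul n1 n2, dv_mul (S.he.aeval_ne (X_sub_C_ne_zero _)) n3, map_add S.pu,
      Finsupp.add_apply] at q1
    rw [← Rs.lf_aeval (RV.pto_X.sub f2.C) (X_sub_C_ne_zero _) hn, g4] at q1
    have q2 : 0 ≤ S.pu (dv L (aeval S.x (C (val v S.y)) + aeval S.x (1 : L[X]) * S.y)) v' :=
      Rs.lf_nonneg fun u hu => (S.he.ge_el (Rs.lf_fin hu hv).1 _ _).1.le n2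
    omega

/-- The inequality at a finite place with `y ≠ 0`, by induction on the right side: if some `v`
over `v'` is a zero of `h = a + b y`, then `h (y + y₀) = (x - x₀) h₁` by `div_trick` and
`RV.PTo.div` (or `div_trick` over the ring `O`); `y + y₀` is a unit at `v'` and at every place
over `v'`, and `x - x₀` contributes exactly one on both sides (`lf_aeval`). -/
theorem Rs.lf_le {a b : L[X]} {a' b' : κ[X]} (ha : S.r.PTo a a') (hb : S.r.PTo b b')
    (h0 : aeval S.x' a' + aeval S.x' (b' * S.w) * S.y' ≠ 0) (hn : ¬ S.Nd v')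
    (hv : v'.Ge S.x' 0) (hy : val v' S.y' ≠ 0) :
    S.pu (dv L (aeval S.x a + aeval S.x b * S.y)) v' ≤
      v'.ord (aeval S.x' a' + aeval S.x' (b' * S.w) * S.y') := by
  obtain ⟨n, hlt⟩ : ∃ n : ℕ, v'.ord (aeval S.x' a' + aeval S.x' (b' * S.w) * S.y') < n :=
    exists_nat_gt _
  induction n generalizing a b a' b' with
  | zero => exact absurd ((S.he'.ge_el hv a' (b' * S.w)).1.le h0) (by simpa using hlt)
  | succ n ih =>
    rcases Rs.lf_step ha hb h0 hn hv hy with h1 | ⟨a₁, b₁, a₁', b₁', k1, k2, k3, k4, k5⟩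
    · exact h1.trans ((S.he'.ge_el hv a' (b' * S.w)).1.le h0)
    · have := ih k1 k2 k3 (by push_cast at hlt; omega)
      omega

theorem Rs.lf_el {a b : L[X]} {a' b' : κ[X]} (ha : S.r.PTo a a') (hb : S.r.PTo b b')
    (h0 : aeval S.x' a' + aeval S.x' (b' * S.w) * S.y' ≠ 0) (hn : ¬ S.Nd v') :
    v'.ord (aeval S.x' a' + aeval S.x' (b' * S.w) * S.y') =
      S.pu (dv L (aeval S.x a + aeval S.x b * S.y)) v' := by
  have e1 : S.he.io.γ (aeval S.x a + aeval S.x b * S.y) = aeval S.x a + aeval S.x (-b) * S.y := by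
    rw [map_add, map_mul, S.he.io_aeval, S.he.io_aeval, S.he.io_y, map_neg, mul_neg, neg_mul]
  have e2 : S.he'.io.γ (aeval S.x' a' + aeval S.x' (b' * S.w) * S.y') =
      aeval S.x' a' + aeval S.x' (-b' * S.w) * S.y' := by
    rw [map_add, map_mul, S.he'.io_aeval, S.he'.io_aeval, S.he'.io_y, neg_mul, map_neg, mul_neg,
      neg_mul]
  have n1 : aeval S.x' a' + aeval S.x' (-b' * S.w) * S.y' ≠ 0 :=
    e2 ▸ (_root_.map_ne_zero _).2 h0
  have n2 := (Rs.r1_el ha hb).ne h0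
  have n3 := (Rs.r1_el ha hb.neg).ne n1
  have e3 : (aeval S.x a + aeval S.x b * S.y) * (aeval S.x a + aeval S.x (-b) * S.y) =
      aeval S.x (a ^ 2 - b ^ 2 * ff S.e) := by
    rw [← S.he.norm, map_neg, neg_mul, sub_eq_add_neg]
  have e4 : (aeval S.x' a' + aeval S.x' (b' * S.w) * S.y') *
      (aeval S.x' a' + aeval S.x' (-b' * S.w) * S.y') =
      aeval S.x' (a' ^ 2 - b' ^ 2 * (S.w ^ 2 * ff S.e')) := by
    rw [← mul_assoc, ← mul_pow, ← S.he'.norm, neg_mul, map_neg, neg_mul, sub_eq_add_neg]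
  have q1 := Rs.lf_aeval ((ha.pow 2).sub ((hb.pow 2).mul S.pto_ff))
    (fun e0 => mul_ne_zero h0 n1 (by rw [e4, e0, map_zero])) hn
  rw [← e3, ← e4, v'.ord_mul h0 n1, dv_mul n2 n3, map_add S.pu, Finsupp.add_apply] at q1
  by_cases hf : S.he'.io.pl v' = v'
  · have q2 := S.he'.io.pl_ord v' (aeval S.x' a' + aeval S.x' (b' * S.w) * S.y')
    have q3 := Rs.lf_pu (fun _ _ h => h.io) (dv L (aeval S.x a + aeval S.x b * S.y)) hn
    have q4 := S.he'.io.dm_pl (S.pu (dv L (aeval S.x a + aeval S.x b * S.y))) v'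
    rw [hf] at q2 q4
    rw [e2] at q2
    rw [SA.dm_dv, e1, q4] at q3
    omega
  · have hv : v'.Ge S.x' 0 := S.he'.fin_iff.2 fun e0 => hf (by
      rw [e0, S.he'.sa_inf _ S.he'.io_x])
    have hy : val v' S.y' ≠ 0 := fun e0 => hf ((S.he'.io_fix hv).2 e0)
    have q2 := Rs.lf_le ha hb h0 hn hv hy
    have q3 := Rs.lf_le ha hb.neg n1 hn hv hy
    omega

/-- The local formula.  Reduce to `h = a + b y` with integral `a, b` (`lf_aeval` for the
denominator).  Add the statements for `h` and `io h`: their product is the norm.  At `inf` and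
at the Weierstrass points the two statements coincide (`Sp.io`); elsewhere use `lf_le` twice. -/
theorem Rs.Rd.lf (h1 : S.Rd h h') (hn : ¬ S.Nd v') : v'.ord h' = S.pu (dv L h) v' := by
  obtain ⟨h0, a, ha, u, v, d, u', w', d', k1, k2, k3, k4, e1, e2⟩ := h1
  have n1 := S.he'.aeval_ne k4
  have n2 := S.he.aeval_ne (k3.ne k4)
  have n3 := e2 ▸ mul_ne_zero h0 n1
  have n4 : h ≠ 0 := Rs.Rd.ne ⟨h0, a, ha, u, v, d, u', w', d', k1, k2, k3, k4, e1, e2⟩
  have n5 : algebraMap L K a ≠ 0 := (_root_.map_ne_zero _).2 ha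
  have q1 := Rs.lf_el k1 k2 n3 hn
  rw [← e1, ← e2, v'.ord_mul h0 n1, dv_mul (mul_ne_zero n5 n4) n2, dv_mul n5 n4, dv_const,
    zero_add, map_add, Finsupp.add_apply, ← Rs.lf_aeval k3 k4 hn] at q1
  exact add_right_cancel q1

theorem Rs.R1.lf_val (h1 : S.R1 h h') (hn : ¬ S.Nd (S.sp v))
    (hu : ∀ u, S.sp u = S.sp v → u.Ge h 0) (hc : AL.val v h ∈ S.r.O) :
    S.r.To (AL.val v h) (AL.val (S.sp v) h') := by
  have h2 := h1.sub (Rs.r1_const (RV.to_rs hc))
  rw [val_eq (v := S.sp v) (f := h') (c := S.r.rs (AL.val v h)) ?_]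
  · exact RV.to_rs hc
  by_cases h0 : h' - algebraMap κ K' (S.r.rs (AL.val v h)) = 0
  · exact Or.inl h0
  have n1 := h2.ne h0
  refine Place.Ge.of_le (((val_spec (hu v rfl)).le n1).trans ?_)
  rw [(h2.rd h0).lf hn]
  exact Rs.lf_ge (D := dv L _) fun u e => ((hu u e).sub (u.ge_const _)).le n1

/-- Values.  Apply `lf` to `h - c` with `c = val v h` if `c` is integral (all terms of the sum are
nonnegative and the term of `v` is positive), and to `h⁻¹` otherwise. -/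
theorem Rs.R1.val (h1 : S.R1 h h') (h0 : h' ≠ 0) (hn : ¬ S.Nd (S.sp v))
    (hu : ∀ u, S.sp u = S.sp v → u.ord h = 0) :
    (S.sp v).ord h' = 0 ∧ S.r.To (val v h) (val (S.sp v) h') := by
  have n1 := h1.ne h0
  have q1 : (S.sp v).ord h' = 0 := by
    rw [(h1.rd h0).lf hn, S.pu_apply]
    exact Finset.sum_eq_zero fun u hu' => hu u (Finset.mem_filter.1 hu').2
  refine ⟨q1, ?_⟩
  by_cases hc : AL.val v h ∈ S.r.O
  · exact h1.lf_val hn (fun u e => Place.Ge.of_le (hu u e).ge) hc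
  · have q2 := RV.to_inv hc
    rw [← val_inv (hu v rfl)] at q2
    have q3 := q2.unique ((h1.inv h0).lf_val hn
      (fun u e => Place.Ge.of_le (by rw [Place.ord_inv, hu u e, neg_zero])) q2.1)
    rw [val_inv q1] at q3
    exact absurd (inv_eq_zero.1 q3.symm) (val_ne_zero h0 q1)

end

end Pool.Agent.Lib.MP_16ef92_ag.HY
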