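import Mathlib
import Pool.Agent.Lib.MP_16ef92_ag.HY.LF

set_option autoImplicit false
set_option linter.unusedSectionVars false
set_option linter.unusedVariables false

namespace Pool.Agent.Lib.MP_16ef92_ag.HY

open Polynomial AL Pool.Agent.Lib.MP_6adaea_nt
open scoped Classical

noncomputable section

variable {L κ K K' I I' : Type} [Field L] [Field κ] [Field K] [Field K'] [Algebra L K]
  [Algebra κ K'] [Fintype I] [Fintype I'] [IsAlgClosed L] [IsFF L K] [PosChar L] [IsAlgClosed κ]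
  [IsFF κ K'] [PosChar κ] {S : Rs L κ K K' I I'}
  {h : K} {h' : K'} {s : SA L K} {s' : SA κ K'} {n : ℕ}

theorem Rs.not_nd (hw : S.w = 1) (v' : Place κ K') : ¬ S.Nd v' := fun e => by
  simpa [hw] using e.2

theorem Rs.Rd.dv_eq (hw : S.w = 1) (h1 : S.Rd h h') : dv κ h' = S.pu (dv L h) :=
  Finsupp.ext fun v' => h1.lf (Rs.not_nd hw v')

theorem Rs.Rd.adm (hw : S.w = 1) (h1 : S.Rd h h') {A : Dv L K} (hA : Adm n A h) :
    Adm n (S.pu A) h' := ⟨h1.1, by rw [h1.dv_eq hw, hA.2, map_nsmul]⟩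

/-- The reduction of divisor classes. -/
def Rs.pi (hw : S.w = 1) : Pic L K →+ Pic κ K' :=
  QuotientAddGroup.map _ _ S.pu (by
    rintro _ ⟨f, hf, rfl⟩
    obtain ⟨f', h1⟩ := S.exists_rd hf
    exact ⟨f', h1.1, h1.dv_eq hw⟩)

theorem Rs.pi_cl (hw : S.w = 1) (D : Dv L K) : Rs.pi hw (cl D) = cl (S.pu D) := rfl

theorem Rs.Cp.pi (hw : S.w = 1) (hs : S.Cp s s') (c : Pic L K) :
    Rs.pi hw (s.pic c) = s'.pic (Rs.pi hw c) := by
  obtain ⟨D, rfl⟩ := cl_surj c
  rw [SA.pic_cl, Rs.pi_cl, Rs.pi_cl, SA.pic_cl]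
  exact congrArg cl (Finsupp.ext fun v' => hs.pu D (Rs.not_nd hw v'))

theorem good_le (D : Dv L K) {v' : Place κ K'} (hD : ∀ u, S.sp u = v' → 0 ≤ D u)
    {s : Finset (Place L K)} (hs : ∀ u ∈ s, S.sp u = v') : ∑ u ∈ s, D u ≤ S.pu D v' := by
  rw [S.pu_apply, ← Finset.sum_filter_ne_zero s]
  refine Finset.sum_le_sum_of_subset_of_nonneg (fun u hu => ?_) fun u hu _ =>
    hD u (Finset.mem_filter.1 hu).2
  rw [Finset.mem_filter] at hu ⊢
  exact ⟨Finsupp.mem_support_iff.2 hu.2, hs u hu.1⟩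

theorem good_ord {p : Place κ K'} {A B : K'} {c : κ} (hA : A ≠ 0) (hB : B ≠ 0)
    (hc : c ≠ val p (A / B)) : A - algebraMap κ K' c * B ≠ 0 ∧
      p.ord (A - algebraMap κ K' c * B) = min (p.ord A) (p.ord B) := by
  rcases lt_or_ge (p.ord A) (p.ord B) with e | e
  · rw [min_eq_left e.le, sub_eq_add_neg]
    exact Place.ord_add_of_ge hA (((p.ge_const c).mul (p.ge_ord B)).mono (by omega)).neg
  · have h1 : p.Ge (A / B) 0 := Or.inr (by rw [p.ord_div hA hB]; omega)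
    obtain ⟨h2, h3⟩ := ord_of_val_ne (v := p) (f := A / B - algebraMap κ K' c) (by
      rw [val_sub h1 (p.ge_const c), val_const]
      exact sub_ne_zero.2 hc.symm)
    rw [show A - algebraMap κ K' c * B = (A / B - algebraMap κ K' c) * B by field_simp,
      p.ord_mul h2 hB, h3, zero_add, min_eq_right e]
    exact ⟨mul_ne_zero h2 hB, rfl⟩

theorem good_yc {e : I' → κ} {x y : K'} (he : HE e x y) (c : κ) : y - algebraMap κ K' c ≠ 0 ∧
    he.inf.ord (y - algebraMap κ K' c) = -(Fintype.card I' : ℤ) := by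
  have := he.odd.pos
  rw [sub_eq_add_neg, ← he.inf_y]
  exact Place.ord_add_of_ge he.y_ne ((he.inf.ge_const c).mono (by rw [he.inf_y]; omega)).neg

theorem good_sp (hw : S.w = 1) {v : Place L K} (hv : S.sp v ≠ S.he'.inf) :
    v.Ge S.x 0 ∧ (S.sp v).Ge S.x' 0 ∧ S.r.To (val v S.x) (val (S.sp v) S.x') ∧
      S.r.To (val v S.y) (val (S.sp v) S.y') := by
  simpa only [hw, eval_one, one_mul] using (S.sp_spec v).resolve_right fun e => hv e.1

theorem good_y (hw : S.w = 1) : S.R1 S.y S.y' := by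
  simpa only [hw, map_one, one_mul] using S.r1_y

theorem good_triv (T : Finset (Place κ K')) {v : Place L K} (hv : S.sp v ∉ T) :
    ∃ D : Dv L K, cl D = cl (Finsupp.single v 1) ∧ ∀ u, S.sp u ∈ T → D u = 0 :=
  ⟨_, rfl, fun u hu => Finsupp.single_eq_of_ne fun e => hv (e ▸ hu)⟩

theorem good_cl {f : K} (hf : f ≠ 0) (D : Dv L K) : cl (D - dv L f) = cl D := by
  rw [map_sub, cl_dv hf, sub_zero]

/-- A function with a zero at `v` whose reduction has order one at `sp v` and order zero at the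
other places of `T`, and which is regular at the places over `T`, moves `v` away from `T`. -/
theorem Rs.move_of (hw : S.w = 1) (T : Finset (Place κ K')) {v : Place L K} (h1 : S.Rd h h')
    (hv : 0 < v.ord h) (h2 : (S.sp v).ord h' = 1) (h3 : ∀ v' ∈ T, v' ≠ S.sp v → v'.ord h' = 0)
    (h4 : ∀ u, S.sp u ∈ T → 0 ≤ u.ord h) (h5 : S.sp v ∈ T) (u : Place L K) (hu : S.sp u ∈ T) :
    (Finsupp.single v 1 - dv L h : Dv L K) u = 0 := by
  have k1 : ∀ s : Finset (Place L K), (∀ w ∈ s, S.sp w = S.sp u) →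
      ∑ w ∈ s, w.ord h ≤ (S.sp u).ord h' := fun s hs => by
    rw [h1.lf (Rs.not_nd hw _)]
    exact good_le (dv L h) (fun w e => h4 w (e ▸ hu)) hs
  have k2 := h4 u hu
  rw [Finsupp.sub_apply, dv_apply, Finsupp.single_apply]
  split_ifs with e
  · subst e
    have := k1 {v} (by simp)
    rw [Finset.sum_singleton] at this
    omega
  · by_cases e2 : S.sp u = S.sp v
    · have := k1 {v, u} (by simp [e2])
      rw [Finset.sum_pair e, e2] at this
      omega
    · have := k1 {u} (by simp)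
      rw [Finset.sum_singleton, h3 _ hu e2] at this
      omega

/-- `h = y - y₀ - lam (x - x₀)` with `lam` integral of generic residue (`RV.exists_res`). -/
theorem Rs.move_fin (hw : S.w = 1) (T : Finset (Place κ K')) (hT : S.he'.inf ∉ T)
    (v : Place L K) : ∃ D : Dv L K, cl D = cl (Finsupp.single v 1) ∧ ∀ u, S.sp u ∈ T → D u = 0 := by
  by_cases h5 : S.sp v ∈ T
  swap
  · exact good_triv T h5
  have hf : ∀ v' ∈ T, v' ≠ S.he'.inf := fun v' hv' e => hT (e ▸ hv')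
  obtain ⟨a1, a2, a3, a4⟩ := good_sp hw (hf _ h5)
  set A := S.y' - algebraMap κ K' (val (S.sp v) S.y') with eA
  set B := S.x' - algebraMap κ K' (val (S.sp v) S.x') with eB
  have hA : A ≠ 0 := (good_yc S.he' _).1
  have hB : B ≠ 0 := S.he'.xc_ne _
  obtain ⟨z, c, hz, hc⟩ := S.r.exists_res (T.image fun p => val p (A / B))
  have ho := fun p hp => good_ord (p := p) hA hB (c := c) fun e =>
    hc (Finset.mem_image.2 ⟨p, hp, e.symm⟩)
  have h1 := ((good_y hw).sub (S.r1_const a4)).sub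
    ((S.r1_const hz).mul (S.r1_x.sub (S.r1_const a3)))
  have h0 := (ho _ h5).1
  have h2 := h1.ne h0
  refine ⟨_, good_cl h2 _, Rs.move_of hw T (h1.rd h0) ?_ ?_ (fun p hp hne => ?_)
    (fun u hu => ?_) h5⟩
  · exact ((val_spec (S.he.ge_y a1)).sub
      (((v.ge_const z).mul (val_spec a1)).mono (by omega))).le h2
  · have b1 := (val_spec (S.he'.ge_y a2)).le hA
    have b2 := (val_spec a2).le hB
    rw [(ho _ h5).2]
    by_cases e : val (S.sp v) S.y' = 0
    · have b3 : (S.sp v).ord A = 1 := by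
        rw [eA, e, map_zero, sub_zero]
        exact (S.he'.ord_par a2).2 e
      rw [b3]
      exact min_eq_left b2
    · rw [(S.he'.ord_par a2).1 e]
      exact min_eq_right b1
  · have b0 := S.he'.fin_iff.2 (hf p hp)
    have b1 := (S.he'.ge_y b0).sub (p.ge_const (val (S.sp v) S.y'))
    have b2 := b0.sub (p.ge_const (val (S.sp v) S.x'))
    have b3 := b1.le hA
    have b4 := b2.le hB
    rw [(ho _ hp).2]
    by_contra hn
    have b5 : 1 ≤ p.ord A ∧ 1 ≤ p.ord B := by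
      rw [← eA] at b3
      rw [← eB] at b4
      omega
    exact hne (S.he'.pl_ext b0 a2 (val_eq (Or.inr b5.2)) (val_eq (Or.inr b5.1)))
  · have b0 := (good_sp hw (hf _ hu)).1
    exact (((S.he.ge_y b0).sub (u.ge_const _)).sub
      (ge_mul_zero (u.ge_const z) (b0.sub (u.ge_const _)))).le h2

theorem good_par {e : I' → κ} {x y : K'} (he : HE e x y) (a b : κ) {g : ℕ}
    (hg : Fintype.card I' = 2 * g + 1) :
    (y - algebraMap κ K' a) / (x - algebraMap κ K' b) ^ (g + 1) ≠ 0 ∧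
    he.inf.ord ((y - algebraMap κ K' a) / (x - algebraMap κ K' b) ^ (g + 1)) = 1 ∧
    ∀ p : Place κ K', p.Ge x 0 → val p x ≠ b →
      p.Ge ((y - algebraMap κ K' a) / (x - algebraMap κ K' b) ^ (g + 1)) 0 ∧ (val p y ≠ a →
        p.ord ((y - algebraMap κ K' a) / (x - algebraMap κ K' b) ^ (g + 1)) = 0) := by
  obtain ⟨h1, h2⟩ := good_yc he a
  have h3 := pow_ne_zero (g + 1) (he.xc_ne b)
  have h4 : he.inf.ord (x - algebraMap κ K' b) = -2 := by
    have := he.inf_aeval (X - C b)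
    rwa [natDegree_X_sub_C, map_sub, aeval_X, aeval_C, Nat.cast_one, mul_one] at this
  refine ⟨div_ne_zero h1 h3, ?_, fun p hp hb => ?_⟩
  · rw [Place.ord_div _ h1 h3, Place.ord_pow, h2, h4, hg]
    push_cast
    ring
  · have h5 : p.ord ((y - algebraMap κ K' a) / (x - algebraMap κ K' b) ^ (g + 1)) =
        p.ord (y - algebraMap κ K' a) := by
      rw [Place.ord_div _ h1 h3, Place.ord_pow, he.ord_xc hp, if_neg hb, mul_zero, sub_zero]
    refine ⟨Or.inr (h5 ▸ ((he.ge_y hp).sub (p.ge_const a)).le h1), fun ha => ?_⟩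
    rw [h5]
    refine (ord_of_val_ne ?_).2
    rw [val_sub (he.ge_y hp) (p.ge_const a), val_const]
    exact sub_ne_zero.2 ha

/-- `h = h₀ - val v h₀`, `h₀ = (y - mu) / (x - x₁) ^ (g + 1)` with `card I = 2 g + 1` and `mu`, `x₁`
integral of generic residue; `val v h₀` is integral with residue zero (`R1.val` for `h₀ + 1`,
which has no zero over `inf` by `lf`).  Note `card I' = card I` by the degrees in `fac`. -/
theorem Rs.move_inf (hw : S.w = 1) (T : Finset (Place κ K')) {v : Place L K}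
    (hv : S.sp v = S.he'.inf) :
    ∃ D : Dv L K, cl D = cl (Finsupp.single v 1) ∧ ∀ u, S.sp u ∈ T → D u = 0 := by
  by_cases h5 : S.sp v ∈ T
  swap
  · exact good_triv T h5
  obtain ⟨g, hg⟩ := S.he.odd
  have hg' : Fintype.card I' = 2 * g + 1 := by
    have := congrArg natDegree S.fac
    rw [hw, one_pow, one_mul, ff_natDegree, ff_natDegree] at this
    omega
  obtain ⟨x₁, c₁, hx, hc₁⟩ := S.r.exists_res (T.image fun p => val p S.x')
  obtain ⟨μ, c₂, hμ, hc₂⟩ := S.r.exists_res (T.image fun p => val p S.y')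
  have n1 : ∀ p ∈ T, val p S.x' ≠ c₁ := fun p hp e => hc₁ (Finset.mem_image.2 ⟨p, hp, e⟩)
  have n2 : ∀ p ∈ T, val p S.y' ≠ c₂ := fun p hp e => hc₂ (Finset.mem_image.2 ⟨p, hp, e⟩)
  obtain ⟨k0, k1, k2⟩ := good_par S.he μ x₁ hg
  obtain ⟨k0', k1', k2'⟩ := good_par S.he' c₂ c₁ hg'
  have r0 := ((good_y hw).sub (S.r1_const hμ)).mul
    (((S.r1_x.sub (S.r1_const hx)).pow (g + 1)).inv (pow_ne_zero _ (S.he'.xc_ne _)))
  rw [← div_eq_mul_inv, ← div_eq_mul_inv] at r0
  set h₀ := (S.y - algebraMap L K μ) / (S.x - algebraMap L K x₁) ^ (g + 1)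
  set h₀' := (S.y' - algebraMap κ K' c₂) / (S.x' - algebraMap κ K' c₁) ^ (g + 1)
  have reg : ∀ u, S.sp u ∈ T → u.Ge h₀ 0 := fun u hu => by
    by_cases e : u = S.he.inf
    · exact Or.inr (by rw [e, k1]; exact zero_le_one)
    have b0 := S.he.fin_iff.2 e
    refine (k2 u b0 fun e1 => ?_).1
    rcases S.sp_spec u with b1 | b1
    · exact n1 _ hu (b1.2.2.1.unique (e1 ▸ hx))
    · exact b1.2 ⟨b0, e1 ▸ hx.1⟩
  have r1 : S.R1 (h₀ + 1) (h₀' + 1) := by
    simpa only [map_one] using r0.add (S.r1_const RV.to_one)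
  have g1 : S.he'.inf.Ge h₀' 1 := Or.inr k1'.ge
  have v1 : val S.he'.inf (h₀' + 1) = 1 := val_eq (by simpa using g1)
  obtain ⟨m0, m1⟩ := ord_of_val_ne (v1.trans_ne one_ne_zero)
  have m2 := r1.ne m0
  have m3 : ∀ u, S.sp u = S.sp v → 0 ≤ u.ord (h₀ + 1) := fun u e =>
    ((reg u (e ▸ h5)).add u.ge_one).le m2
  have m4 := (r1.val m0 (Rs.not_nd hw (S.sp v)) fun u e => by
    have := good_le (dv L (h₀ + 1)) m3 (s := {u}) (by simpa using e)
    rw [Finset.sum_singleton, ← (r1.rd m0).lf (Rs.not_nd hw _), hv, m1] at this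
    exact le_antisymm this (m3 u e)).2
  rw [hv, v1] at m4
  have r2 := r1.sub (S.r1_const m4)
  rw [map_one, add_sub_cancel_right] at r2
  have h2 := r2.ne k0'
  refine ⟨_, good_cl h2 _, Rs.move_of hw T (r2.rd k0') ?_ (hv ▸ k1') (fun p hp hne => ?_)
    (fun u hu => ?_) h5⟩
  · exact (val_spec ((reg v h5).add v.ge_one)).le h2
  · exact (k2' p (S.he'.fin_iff.2 (hv ▸ hne)) (n1 p hp)).2 (n2 p hp)
  · exact (((reg u hu).add u.ge_one).sub (u.ge_const _)).le h2

theorem good_lin (Q : Place L K → Prop) (D₀ : Dv L K) (h : ∀ v, D₀ v ≠ 0 →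
    ∃ D : Dv L K, cl D = cl (Finsupp.single v 1) ∧ ∀ u, Q u → D u = 0) :
    ∃ D : Dv L K, cl D = cl D₀ ∧ ∀ u, Q u → D u = 0 := by
  choose! F h1 h2 using h
  refine ⟨∑ v ∈ D₀.support, D₀ v • F v, ?_, fun u hu => ?_⟩
  · conv_rhs => rw [← Finsupp.sum_single D₀, Finsupp.sum]
    rw [map_sum, map_sum]
    refine Finset.sum_congr rfl fun v hv => ?_
    rw [map_zsmul, h1 v (Finsupp.mem_support_iff.1 hv), ← map_zsmul, Finsupp.smul_single_one]
  · rw [Finsupp.finsetSum_apply]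
    refine Finset.sum_eq_zero fun v hv => ?_
    rw [Finsupp.smul_apply, h2 v (Finsupp.mem_support_iff.1 hv) u hu, smul_zero]

/-- First `move_fin` for `T.erase inf`, then `move_inf` for the places over `inf`. -/
theorem Rs.move (hw : S.w = 1) (T : Finset (Place κ K')) (c : Pic L K) :
    ∃ D : Dv L K, cl D = c ∧ ∀ u, S.sp u ∈ T → D u = 0 := by
  obtain ⟨D₀, rfl⟩ := cl_surj c
  obtain ⟨D₁, e1, h1⟩ := good_lin (fun u => S.sp u ∈ T.erase S.he'.inf) D₀ fun v _ =>
    Rs.move_fin hw _ (Finset.notMem_erase _ _) v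
  rw [← e1]
  refine good_lin (fun u => S.sp u ∈ T) D₁ fun v hv => ?_
  by_cases e : S.sp v = S.he'.inf
  · exact Rs.move_inf hw T e
  · exact good_triv T fun h2 => hv (h1 v (Finset.mem_erase.2 ⟨e, h2⟩))

theorem good_adm {A : Dv L K} (hA : cl A ∈ Tor L K n) :
    ∃ f f', Adm n A f ∧ S.R1 f f' ∧ f' ≠ 0 := by
  obtain ⟨f, h1, h2⟩ := cl_eq_zero.1 (show cl (n • A) = 0 by rw [map_nsmul]; exact hA)
  obtain ⟨f', h3, a, ha, h4⟩ := S.exists_rd h1
  have h5 : algebraMap L K a ≠ 0 := by simpa using ha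
  exact ⟨_, f', ⟨mul_ne_zero h5 h1, by rw [dv_mul h5 h1, dv_const, zero_add, h2]⟩, h4, h3⟩

theorem good_ev (hw : S.w = 1) (h1 : S.R1 h h') (h0 : h' ≠ 0) (B : Dv L K)
    (hB : ∀ u, B u ≠ 0 → ∀ w, S.sp w = S.sp u → w.ord h = 0) :
    S.r.To (evD h B) (evD h' (S.pu B)) := by
  have k := fun u hu => h1.val h0 (Rs.not_nd hw (S.sp u)) (hB u (Finsupp.mem_support_iff.1 hu))
  have e : S.pu B = ∑ u ∈ B.support, Finsupp.single (S.sp u) (B u) := rfl
  rw [e, evD_sum h0 fun u hu => dj_single h0 (k u hu).1 _]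
  refine RV.to_prod fun u hu => ?_
  rw [evD_single]
  exact (k u hu).2.zpow (val_ne_zero h0 (k u hu).1) _

/-- `wp_spec` on both curves with exact reductions (scale the functions), `move`, `R1.val`. -/
theorem Rs.wp_to (hw : S.w = 1) (hn : n ≠ 0) {c d : Tor L K n} {c' d' : Tor κ K' n}
    (hc : (c' : Pic κ K') = Rs.pi hw c) (hd : (d' : Pic κ K') = Rs.pi hw d) :
    S.r.To (wp n c d) (wp n c' d') := by
  obtain ⟨A, eA⟩ := cl_surj (c : Pic L K)
  obtain ⟨B, eB, hB⟩ := Rs.move hw (A.support.image S.sp) (d : Pic L K)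
  have hT : ∀ u, A u ≠ 0 → S.sp u ∈ A.support.image S.sp := fun u hu =>
    Finset.mem_image_of_mem _ (Finsupp.mem_support_iff.2 hu)
  obtain ⟨f, f', a1, a2, a3⟩ := good_adm (S := S) (eA ▸ c.2 : cl A ∈ Tor L K n)
  obtain ⟨g, g', b1, b2, b3⟩ := good_adm (S := S) (eB ▸ d.2 : cl B ∈ Tor L K n)
  have a4 := (a2.rd a3).adm hw a1
  have b4 := (b2.rd b3).adm hw b1
  have d1 : Dis A B := fun u => or_iff_not_imp_left.2 fun hu => hB u (hT u hu)
  have d2 : Dis (S.pu A) (S.pu B) := fun p => or_iff_not_imp_left.2 fun hp => by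
    rw [S.pu_apply] at hp ⊢
    obtain ⟨u, hu, hu'⟩ := Finset.exists_ne_zero_of_sum_ne_zero hp
    refine Finset.sum_eq_zero fun w hw' => hB w ?_
    rw [(Finset.mem_filter.1 hw').2, ← (Finset.mem_filter.1 hu).2]
    exact hT u hu'
  rw [wp_spec hn a1 b1 d1 eA eB, wp_spec hn a4 b4 d2 (by rw [hc, ← eA, Rs.pi_cl])
    (by rw [hd, ← eB, Rs.pi_cl]), div_eq_mul_inv, div_eq_mul_inv]
  refine (good_ev hw a2 a3 B fun u hu w e => ?_).mul
    ((good_ev hw b2 b3 A fun u hu w e => ?_).inv (evD_ne_zero (b4.dj d2.symm)))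
  · rw [← dv_apply, a1.2, Finsupp.smul_apply,
      show A w = 0 from not_not.1 fun h1 => hu (hB u (e ▸ hT w h1)), smul_zero]
  · rw [← dv_apply, b1.2, Finsupp.smul_apply, hB w (e ▸ hT u hu), smul_zero]

/-- `wp_to`, `RV.To.root`, `wp_nondeg`. -/
theorem Rs.pi_inj (hw : S.w = 1) (hn : (n : κ) ≠ 0) {c : Pic L K} (hc : n • c = 0)
    (h0 : Rs.pi hw c = 0) : c = 0 := by
  have n0 : n ≠ 0 := fun e => hn (by rw [e, Nat.cast_zero])
  refine congrArg Subtype.val (wp_nondeg ((RV.to_nat (r := S.r) n).ne hn)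
    (c := (⟨c, hc⟩ : Tor L K n)) fun d => ?_)
  have h1 := Rs.wp_to hw n0 (c := ⟨c, hc⟩) (d := d) (c' := 0)
    (d' := ⟨Rs.pi hw d, by rw [mem_Tor, ← map_nsmul, mem_Tor.1 d.2, map_zero]⟩) h0.symm rfl
  have h2 : ∀ d' : Tor κ K' n, wp n 0 d' = 1 := fun d' => by
    have := wp_add_left n0 0 0 d'
    rw [add_zero] at this
    exact (mul_eq_left₀ (wp_ne_zero _ _)).1 this.symm
  rw [h2] at h1
  exact h1.root hn (wp_pow n0 _ _)

end

end Pool.Agent.Lib.MP_16ef92_ag.HY
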