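import Mathlib
import Pool.Agent.Lib.MP_16ef92_ag.GF.Base
import Pool.Agent.Lib.MP_16ef92_ag.GF.HBd

set_option autoImplicit false
set_option linter.unusedSectionVars false
set_option linter.unusedVariables false

namespace Pool.Agent.Lib.MP_16ef92_ag.HY

open Polynomial Module

noncomputable section

/-- The index set of a symplectic basis. -/
abbrev Kp (g : ℕ) : Type := Fin g ⊕ Fin g

theorem card_Kp (g : ℕ) : Fintype.card (Kp g) = 2 * g := by simp [two_mul]

variable {R : Type} [CommRing R] {g : ℕ}

/-- The standard symplectic form. -/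
def og (x y : Kp g → R) : R := ∑ i, (x (.inl i) * y (.inr i) - x (.inr i) * y (.inl i))

/-- The form as a bilinear map. -/
def ogL : (Kp g → R) →ₗ[R] (Kp g → R) →ₗ[R] R :=
  LinearMap.mk₂ R og
    (fun x x' y => by
      simp only [og, ← Finset.sum_add_distrib, Pi.add_apply]
      exact Finset.sum_congr rfl fun _ _ => by ring)
    (fun c x y => by
      simp only [og, Finset.mul_sum, Pi.smul_apply, smul_eq_mul]
      exact Finset.sum_congr rfl fun _ _ => by ring)
    (fun x y y' => by
      simp only [og, ← Finset.sum_add_distrib, Pi.add_apply]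
      exact Finset.sum_congr rfl fun _ _ => by ring)
    fun c x y => by
      simp only [og, Finset.mul_sum, Pi.smul_apply, smul_eq_mul]
      exact Finset.sum_congr rfl fun _ _ => by ring

theorem ogL_apply (x y : Kp g → R) : ogL x y = og x y := rfl

/-- The nilpotent operator `y ↦ og r y • r`. -/
def ng (r : Kp g → R) : End R (Kp g → R) := (ogL r).smulRight r

theorem ng_apply (r y : Kp g → R) : ng r y = og r y • r := rfl

theorem og_add_left (x y z : Kp g → R) : og (x + y) z = og x z + og y z := map_add (ogL.flip z) x y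

theorem og_add_right (x y z : Kp g → R) : og x (y + z) = og x y + og x z := map_add (ogL x) y z

theorem og_sub_left (x y z : Kp g → R) : og (x - y) z = og x z - og y z := map_sub (ogL.flip z) x y

theorem og_sub_right (x y z : Kp g → R) : og x (y - z) = og x y - og x z := map_sub (ogL x) y z

theorem og_smul_left (c : R) (x y : Kp g → R) : og (c • x) y = c * og x y :=
  map_smul (ogL.flip y) c x

theorem og_smul_right (c : R) (x y : Kp g → R) : og x (c • y) = c * og x y := map_smul (ogL x) c y

theorem og_self (x : Kp g → R) : og x x = 0 := Finset.sum_eq_zero fun _ _ => by ring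

theorem og_swap (x y : Kp g → R) : og x y = -og y x := by
  simp only [og, ← Finset.sum_neg_distrib]
  exact Finset.sum_congr rfl fun _ _ => by ring

theorem og_map {R' : Type} [CommRing R'] (τ : R →+* R') (x y : Kp g → R) :
    og (fun a => τ (x a)) (fun a => τ (y a)) = τ (og x y) := by
  simp [og]

theorem sym_inr (x : Kp g → R) (i : Fin g) : og x (Pi.single (.inr i) 1) = x (.inl i) := by
  simp [og, Pi.single_apply]

theorem sym_inl (x : Kp g → R) (i : Fin g) : og x (Pi.single (.inl i) 1) = -x (.inr i) := by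
  simp [og, Pi.single_apply]

theorem sym_zero_left (y : Kp g → R) : og 0 y = 0 := by simp [og]

theorem sym_zero_right (x : Kp g → R) : og x 0 = 0 := by simp [og]

theorem og_nd {x : Kp g → R} (h : ∀ y, og x y = 0) : x = 0 := by
  funext t
  rcases t with i | i
  · rw [← sym_inr x, h]; rfl
  · have := h (Pi.single (.inl i) 1)
    rw [sym_inl, neg_eq_zero] at this
    exact this

theorem og_rep (μ : (Kp g → R) →ₗ[R] R) : ∃ r, ∀ y, og r y = μ y := by
  refine ⟨Sum.elim (fun i => μ (Pi.single (.inr i) 1)) fun i => -μ (Pi.single (.inl i) 1),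
    fun y => ?_⟩
  rw [LinearMap.pi_apply_eq_sum_univ μ y, Fintype.sum_sum_type, ← Finset.sum_add_distrib, og]
  refine Finset.sum_congr rfl fun i _ => ?_
  have e : ∀ t : Kp g, (fun j => if t = j then (1 : R) else 0) = Pi.single t 1 := fun t => by
    funext j
    simp [Pi.single_apply, eq_comm]
  simp only [e, Sum.elim_inl, Sum.elim_inr, smul_eq_mul]
  ring

theorem ng_skew (r x y : Kp g → R) : og (ng r x) y = -og x (ng r y) := by
  rw [ng_apply, ng_apply, og_smul_left, og_smul_right, og_swap x r]
  ring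

theorem ng_sat {r s : Kp g → R} (hs : og r s = 1) {c : R} (hc : c ∈ nonZeroDivisors R)
    (y z : Kp g → R) (h : c • y = ng r z) : ∃ w, y = ng r w := by
  have h0 : c • (y + og s y • r) = 0 := by
    have h1 : c * og s y = -og r z := by
      rw [← og_smul_right, h, ng_apply, og_smul_right, og_swap s r, hs]; ring
    rw [smul_add, smul_smul, h1, h, ng_apply, neg_smul, add_neg_cancel]
  have h2 : y + og s y • r = 0 := by
    funext t
    exact (mem_nonZeroDivisors_iff.1 hc).1 _ (congrFun h0 t)
  refine ⟨(-og s y) • s, ?_⟩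
  rw [ng_apply, og_smul_right, hs, mul_one, neg_smul]
  exact eq_neg_of_add_eq_zero_left h2

theorem ng_ker {r s : Kp g → R} (hs : og r s = 1) {y : Kp g → R} (h : ng r y = 0) :
    og r y = 0 := by
  have := congrArg (fun v => og v s) h
  simpa only [ng_apply, og_smul_left, hs, mul_one, sym_zero_left] using this

/-- The orthogonal of the orthogonal of a primitive vector. -/
theorem og_perp {r s : Kp g → R} (hs : og r s = 1) {z : Kp g → R}
    (h : ∀ y, og r y = 0 → og z y = 0) : z = og z s • r := by
  rw [← sub_eq_zero]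
  refine og_nd fun y => ?_
  have h1 := h (y - og r y • s) (by rw [og_sub_right, og_smul_right, hs, mul_one, sub_self])
  rw [og_sub_right, og_smul_right] at h1
  rw [og_sub_left, og_smul_left]
  linear_combination h1

theorem sym_unit {a : ℤ_[2]} (h : ¬ 2 ∣ a) : ∃ u, a * u = 1 := by
  have : IsUnit a := by
    by_contra hn
    have h1 : a ∈ IsLocalRing.maximalIdeal ℤ_[2] := hn
    rw [PadicInt.maximalIdeal_eq_span_p, Ideal.mem_span_singleton] at h1
    exact h (by simpa using h1)
  exact this.exists_right_inv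

theorem exists_og {r : Kp g → ℤ_[2]} (hr : (fun t => red 1 (r t)) ≠ 0) : ∃ s, og r s = 1 := by
  obtain ⟨t, ht⟩ := Function.ne_iff.1 hr
  have h1 : ¬ 2 ∣ r t := fun h => ht (red_eq_zero.2 (by simpa using h))
  obtain ⟨u, hu⟩ := sym_unit h1
  rcases t with i | i
  · exact ⟨u • Pi.single (.inr i) 1, by rw [og_smul_right, sym_inr, mul_comm, hu]⟩
  · exact ⟨(-u) • Pi.single (.inl i) 1, by
      rw [og_smul_right, sym_inl, neg_mul_neg, mul_comm, hu]⟩

/-- Forget the first pair of coordinates. -/
def symTail (R : Type) [CommRing R] (k : ℕ) : (Kp (k + 1) → R) →ₗ[R] Kp k → R :=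
  LinearMap.funLeft R R (Sum.map Fin.succ Fin.succ)

theorem sym_succ {k : ℕ} (x y : Kp (k + 1) → R) :
    og x y = x (.inl 0) * y (.inr 0) - x (.inr 0) * y (.inl 0) +
      og (symTail R k x) (symTail R k y) := by
  rw [og, Fin.sum_univ_succ]
  rfl

theorem sym_proj {M : Type} [AddCommGroup M] [Module R M] (B : M →ₗ[R] M →ₗ[R] R) {k : ℕ}
    {φ : (Kp k → R) →ₗ[R] M} (hφ : ∀ x y, B (φ x) (φ y) = og x y) (m : M) :
    ∃ r, ∀ y, B (m - φ r) (φ y) = 0 := by
  obtain ⟨r, hr⟩ := og_rep ((B m).comp φ)
  refine ⟨r, fun y => ?_⟩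
  rw [map_sub, LinearMap.sub_apply, hφ, hr, LinearMap.comp_apply, sub_self]

theorem sym_step {M : Type} [AddCommGroup M] [Module R M] (B : M →ₗ[R] M →ₗ[R] R)
    (h0 : ∀ x, B x x = 0) (h1 : ∀ x y, B x y = -B y x) {k : ℕ} {φ : (Kp k → R) →ₗ[R] M}
    (hφ : ∀ x y, B (φ x) (φ y) = og x y) {a b : M} (ha : ∀ y, B a (φ y) = 0)
    (hb : ∀ y, B b (φ y) = 0) (hab : B a b = 1) :
    ∃ ψ : (Kp (k + 1) → R) →ₗ[R] M, ∀ x y, B (ψ x) (ψ y) = og x y := by
  refine ⟨(LinearMap.proj (.inl 0) : (Kp (k + 1) → R) →ₗ[R] R).smulRight a +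
    (LinearMap.proj (.inr 0) : (Kp (k + 1) → R) →ₗ[R] R).smulRight b + φ.comp (symTail R k),
    fun x y => ?_⟩
  have ha' : ∀ y, B (φ y) a = 0 := fun y => by rw [h1, ha, neg_zero]
  have hb' : ∀ y, B (φ y) b = 0 := fun y => by rw [h1, hb, neg_zero]
  have hba : B b a = -1 := by rw [h1, hab]
  simp only [LinearMap.add_apply, LinearMap.smulRight_apply, LinearMap.proj_apply,
    LinearMap.comp_apply, map_add, map_smul, LinearMap.smul_apply, smul_eq_mul, h0, ha, hb, ha',
    hb', hab, hba, hφ, sym_succ x y]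
  ring

theorem sym_iso (B : (Kp g → ℤ_[2]) →ₗ[ℤ_[2]] (Kp g → ℤ_[2]) →ₗ[ℤ_[2]] ℤ_[2])
    (h1 : ∀ x y, B x y = -B y x) (h2 : ∀ x, (∀ y, 2 ∣ B x y) → ∀ a, 2 ∣ x a) (k : ℕ)
    (hk : k ≤ g) :
    ∃ φ : (Kp k → ℤ_[2]) →ₗ[ℤ_[2]] Kp g → ℤ_[2], ∀ x y, B (φ x) (φ y) = og x y := by
  have h0 : ∀ x, B x x = 0 := fun x => by
    have : 2 * B x x = 0 := by linear_combination h1 x x
    simpa using this
  induction k with
  | zero => exact ⟨0, fun x y => by simp [og]⟩
  | succ k ih =>
    obtain ⟨φ, hφ⟩ := ih (by omega)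
    obtain ⟨a, ha, hd⟩ : ∃ a, (∀ y, B a (φ y) = 0) ∧ ¬ ∀ t, 2 ∣ a t := by
      by_contra hn
      push Not at hn
      have hz : ∀ n : ℕ, ∀ p, (∀ y, B p (φ y) = 0) → ∀ t, 2 ^ n ∣ p t := by
        intro n
        induction n with
        | zero => intro p _ t; simp
        | succ n ihn =>
          intro p hp t
          choose q hq using hn p hp
          have e : p = (2 : ℤ_[2]) • q := funext hq
          have h3 : ∀ y, B q (φ y) = 0 := fun y => by
            have := hp y
            rw [e, map_smul, LinearMap.smul_apply, smul_eq_mul] at this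
            simpa using this
          rw [hq t, pow_succ']
          exact mul_dvd_mul_left _ (ihn q h3 t)
      have hs : Function.Surjective φ := fun m => by
        obtain ⟨r, hr⟩ := sym_proj B hφ m
        refine ⟨r, (sub_eq_zero.1 (_root_.funext fun t => ?_)).symm⟩
        exact eq_zero_of_dvd fun n => hz n _ hr t
      have := LinearMap.finrank_le_finrank_of_surjective hs
      simp only [Module.finrank_fintype_fun_eq_card, card_Kp] at this
      omega
    obtain ⟨y, hy⟩ : ∃ y, ¬ 2 ∣ B a y := by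
      by_contra hn
      push Not at hn
      exact hd (h2 a hn)
    obtain ⟨u, hu⟩ := sym_unit hy
    obtain ⟨r, hr⟩ := sym_proj B hφ y
    refine sym_step B h0 h1 hφ ha (b := u • (y - φ r)) (fun z => ?_) ?_
    · rw [map_smul, LinearMap.smul_apply, hr, smul_zero]
    · rw [map_smul, map_sub, ha, sub_zero, smul_eq_mul, mul_comm, hu]

/-- Symplectic bases.  Prove the statement for a finite free module `M` of rank `2 g` by induction
on `g`: take a basis vector `a`, some `b` with `B a b = 1`, and pass to the orthogonal of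
`a, b` (a direct summand, finite and torsion free, so free). -/
theorem exists_symp (B : (Kp g → ℤ_[2]) →ₗ[ℤ_[2]] (Kp g → ℤ_[2]) →ₗ[ℤ_[2]] ℤ_[2])
    (h1 : ∀ x y, B x y = -B y x) (h2 : ∀ x, (∀ y, 2 ∣ B x y) → ∀ a, 2 ∣ x a) :
    ∃ φ : (Kp g → ℤ_[2]) ≃ₗ[ℤ_[2]] Kp g → ℤ_[2], ∀ x y, B (φ x) (φ y) = og x y := by
  obtain ⟨φ, hφ⟩ := sym_iso B h1 h2 g le_rfl
  let ψ : (Kp g → ℤ_[2]) →ₗ[ℤ_[2]] Kp g → ℤ_[2] := LinearMap.pi
    (Sum.elim (fun i => B.flip (φ (Pi.single (.inr i) 1)))
      fun i => -B.flip (φ (Pi.single (.inl i) 1)))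
  have h3 : ∀ x, ψ (φ x) = x := fun x => by
    funext t
    rcases t with i | i
    · change B (φ x) (φ _) = _
      rw [hφ, sym_inr]
    · change -B (φ x) (φ _) = _
      rw [hφ, sym_inl, neg_neg]
  have h4 : Function.Injective ψ :=
    OrzechProperty.injective_of_surjective_endomorphism ψ fun x => ⟨φ x, h3 x⟩
  exact ⟨LinearEquiv.ofBijective φ ⟨Function.LeftInverse.injective h3,
    fun m => ⟨ψ m, h4 (h3 _)⟩⟩, hφ⟩

/-- The vectors `ε i + ε j` span, and `og (ε i + ε j) (ε j + ε k) = 1` for distinct indices, so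
products of the `ng` give all maps `og a · • b` with `a`, `b` of this form. -/
theorem adjoin_ng {I : Type} [Fintype I] (hc : Fintype.card I = 2 * g + 1) (hg : 0 < g)
    (ε : I → Kp g → GF.Z2) (h1 : Submodule.span GF.Z2 (Set.range ε) = ⊤) (h2 : ∑ i, ε i = 0)
    (h3 : ∀ i j, i ≠ j → og (ε i) (ε j) = 1) {T : Set (End GF.Z2 (Kp g → GF.Z2))}
    (hT : ∀ i j, i ≠ j → ng (ε i + ε j) ∈ T) : Algebra.adjoin GF.Z2 T = ⊤ := by
  classical
  obtain ⟨o⟩ : Nonempty I := Fintype.card_pos_iff.1 (by omega)
  have two : ∀ x : Kp g → GF.Z2, x + x = 0 := fun x => funext fun t =>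
    (by decide : ∀ c : GF.Z2, c + c = 0) _
  have hw : Submodule.span GF.Z2 (Set.range fun j => ε o + ε j) = ⊤ := by
    have ho : ε o ∈ Submodule.span GF.Z2 (Set.range fun j => ε o + ε j) := by
      have : ε o = ∑ j, (ε o + ε j) := by
        rw [Finset.sum_add_distrib, h2, add_zero, Finset.sum_const, Finset.card_univ, hc,
          add_smul, one_smul, mul_smul, two_smul, two, zero_add]
      have h4 : ∑ j, (ε o + ε j) ∈ Submodule.span GF.Z2 (Set.range fun j => ε o + ε j) :=
        Submodule.sum_mem _ fun j _ => Submodule.subset_span ⟨j, rfl⟩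
      rwa [← this] at h4
    rw [eq_top_iff, ← h1, Submodule.span_le]
    rintro _ ⟨j, rfl⟩
    have : ε j = ε o + (ε o + ε j) := by rw [← add_assoc, two, zero_add]
    rw [this]
    exact add_mem ho (Submodule.subset_span ⟨j, rfl⟩)
  have hE : ∀ i j, (ogL (ε o + ε i)).smulRight (ε o + ε j) ∈ Algebra.adjoin GF.Z2 T := by
    intro i j
    by_cases hi : o = i
    · subst hi
      rw [two, map_zero, LinearMap.zero_smulRight]
      exact zero_mem _
    by_cases hj : o = j
    · subst hj
      rw [two, LinearMap.smulRight_zero]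
      exact zero_mem _
    by_cases hij : j = i
    · subst hij
      exact Algebra.subset_adjoin (hT o j hj)
    have e : (ogL (ε o + ε i)).smulRight (ε o + ε j) = ng (ε o + ε j) * ng (ε o + ε i) := by
      refine LinearMap.ext fun y => ?_
      have : og (ε o + ε j) (ε o + ε i) = 1 := by
        rw [og_add_left, og_add_right, og_add_right, og_self, h3 _ _ hi, h3 _ _ (Ne.symm hj),
          h3 _ _ hij]
        decide
      rw [Module.End.mul_apply, ng_apply, ng_apply, og_smul_right, this, mul_one]
      rfl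
    rw [e]
    exact mul_mem (Algebra.subset_adjoin (hT o j hj)) (Algebra.subset_adjoin (hT o i hi))
  have hE' : ∀ i b, (ogL (ε o + ε i)).smulRight b ∈ Algebra.adjoin GF.Z2 T := by
    intro i b
    have hb : b ∈ Submodule.span GF.Z2 (Set.range fun j => ε o + ε j) := hw ▸ Submodule.mem_top
    induction hb using Submodule.span_induction with
    | mem x hx => obtain ⟨j, rfl⟩ := hx; exact hE i j
    | zero => rw [LinearMap.smulRight_zero]; exact zero_mem _
    | add x y _ _ hx hy =>
      have : (ogL (ε o + ε i)).smulRight (x + y) =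
          (ogL (ε o + ε i)).smulRight x + (ogL (ε o + ε i)).smulRight y :=
        LinearMap.ext fun z => smul_add _ _ _
      rw [this]
      exact add_mem hx hy
    | smul c x _ hx =>
      have : (ogL (ε o + ε i)).smulRight (c • x) = c • (ogL (ε o + ε i)).smulRight x :=
        LinearMap.ext fun z => smul_comm _ _ _
      rw [this]
      exact Subalgebra.smul_mem _ hx c
  have hA : ∀ a b : Kp g → GF.Z2, (ogL a).smulRight b ∈ Algebra.adjoin GF.Z2 T := by
    intro a b
    have ha : a ∈ Submodule.span GF.Z2 (Set.range fun j => ε o + ε j) := hw ▸ Submodule.mem_top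
    induction ha using Submodule.span_induction with
    | mem x hx => obtain ⟨j, rfl⟩ := hx; exact hE' j b
    | zero => rw [map_zero, LinearMap.zero_smulRight]; exact zero_mem _
    | add x y _ _ hx hy =>
      have : (ogL (x + y)).smulRight b = (ogL x).smulRight b + (ogL y).smulRight b :=
        LinearMap.ext fun z => by
          rw [map_add]; exact add_smul _ _ _
      rw [this]
      exact add_mem hx hy
    | smul c x _ hx =>
      have : (ogL (c • x)).smulRight b = c • (ogL x).smulRight b :=
        LinearMap.ext fun z => by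
          rw [map_smul]; exact mul_smul _ _ _
      rw [this]
      exact Subalgebra.smul_mem _ hx c
  rw [eq_top_iff]
  rintro f -
  choose r hr using fun t : Kp g => og_rep ((LinearMap.proj t).comp f)
  have : f = ∑ t, (ogL (r t)).smulRight (Pi.single t 1) := by
    refine LinearMap.ext fun y => funext fun t => ?_
    rcases t with i | i <;> simp [ogL_apply, hr, Pi.single_apply]
  rw [this]
  exact sum_mem fun t _ => hA _ _

end

end Pool.Agent.Lib.MP_16ef92_ag.HY
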