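import Mathlib
import Pool.Agent.Lib.MP_16ef92_ag.HY.Pl2

set_option autoImplicit false
set_option linter.unusedSectionVars false
set_option linter.unusedVariables false

namespace Pool.Agent.Lib.MP_16ef92_ag.HY

open Polynomial AL Pool.Agent.Lib.MP_6adaea_nt
open scoped Classical

noncomputable section

variable {k K I : Type} [Field k] [Field K] [Algebra k K] [Fintype I] {e : I → k} {x y : K}
  [IsAlgClosed k] [IsFF k K] [PosChar k]

theorem HE.twoa_fix (h : HE e x y) {v : Place k K} : h.io.pl v = v ↔ v = h.inf ∨ ∃ i, v = h.W i := by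
  by_cases hv : v = h.inf
  · simp [hv, h.sa_inf _ h.io_x]
  · rw [h.io_fix (h.fin_iff.2 hv), h.eq_W (h.fin_iff.2 hv), or_iff_right hv]

theorem HE.twoa_ncard (h : HE e x y) : {v | h.io.pl v = v}.ncard = Fintype.card I + 1 := by
  rw [show {v | h.io.pl v = v} = insert h.inf (Set.range h.W) from Set.ext fun v => by
      simp only [Set.mem_ofPred_eq, h.twoa_fix, Set.mem_insert_iff, Set.mem_range, eq_comm],
    Set.ncard_insert_of_notMem (fun g => g.elim fun i hi => h.W_ne i hi) (Set.finite_range _),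
    Set.ncard_range_of_injective h.W_inj, Nat.card_eq_fintype_card]

theorem HE.twoa_par (h : HE e x y) {v : Place k K} (hv : h.io.pl v = v) :
    ∃ τ : K, τ ≠ 0 ∧ v.ord τ = 1 ∧ h.io.γ τ = -τ := by
  rcases h.twoa_fix.1 hv with rfl | ⟨i, rfl⟩
  · obtain ⟨g, hg⟩ := h.odd
    have h0 : x ^ g ≠ 0 := pow_ne_zero _ (by simpa using h.xc_ne 0)
    refine ⟨x ^ g / y, div_ne_zero h0 h.y_ne, ?_, by rw [map_div₀, map_pow, h.io_x, h.io_y, div_neg]⟩
    rw [Place.ord_div _ h0 h.y_ne, Place.ord_pow, h.inf_x, h.inf_y, hg]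
    push_cast
    ring
  · exact ⟨y, h.y_ne, by rw [h.ord_y (h.W_spec i).1, if_pos (h.W_spec i).2.2], h.io_y⟩

theorem HE.twoa_symm (h : HE e x y) (z : K) : h.io.γ.symm z = h.io.γ z := by
  rw [RingEquiv.symm_apply_eq, ← mul_γ, h.io_io, one_γ]

theorem HE.twoa_hfix (h : HE e x y) {v : Place k K} (hv : h.io.pl v = v) {t : K}
    (ht : v.ord t = 1) : v.ord (h.io.γ t - t) = 1 := by
  obtain ⟨τ, h0, h1, h2⟩ := h.twoa_par hv
  have h3 : t ≠ 0 := fun e0 => by simp [e0] at ht
  have h4 : v.ord (t / τ) = 0 := by rw [v.ord_div h3 h0, ht, h1, sub_self]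
  have h5 := h.io.val_pl v (t / τ)
  have h6 := h.io.pl_ord v (t / τ)
  rw [hv, h.io_a] at h5
  rw [hv, h4] at h6
  obtain ⟨h7, h8⟩ := ord_of_val_ne (v := v) (f := h.io.γ (t / τ) + t / τ) (by
    rw [val_add (Or.inr h6.ge) (Or.inr h4.ge), h5, ← two_mul]
    exact mul_ne_zero h.two (val_ne_zero (div_ne_zero h3 h0) h4))
  rw [show h.io.γ t - t = -((h.io.γ (t / τ) + t / τ) * τ) by
    rw [map_div₀, h2]; field_simp; ring, v.ord_neg, v.ord_mul h7 h0, h8, h1, zero_add]

theorem twoa_step {l : ℕ} (hk : (l : k) ≠ 0) (m : ℕ) :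
    Nat.card (Tor k K (l ^ (m + 1))) = Nat.card (Tor k K (l ^ m)) * Nat.card (Tor k K l) := by
  have hl : l ≠ 0 := fun e0 => hk (by rw [e0, Nat.cast_zero])
  let f : Tor k K (l ^ (m + 1)) →+ Tor k K (l ^ m) :=
    ((nsmulAddMonoidHom l).comp (Tor k K _).subtype).codRestrict _ fun c => by
      exact (mul_smul (l ^ m) l (c : Pic k K)).symm.trans c.2
  have hf : ∀ c, (f c : Pic k K) = l • (c : Pic k K) := fun _ => rfl
  have hs : Function.Surjective f := fun c => by
    obtain ⟨A, g, hA, hc, -⟩ := exists_adm c ∅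
    obtain ⟨D, g', g0, e0⟩ := pic_div hk (hA.deg_eq (pow_ne_zero _ hl))
    have h1 : (c : Pic k K) = l • cl D := by rw [← hc, e0, map_add, cl_dv g0, add_zero, map_nsmul]
    exact ⟨⟨cl D, by rw [mem_Tor, pow_succ, mul_smul, ← h1]; exact c.2⟩, Subtype.ext h1.symm⟩
  rw [AddSubgroup.card_eq_card_quotient_mul_card_addSubgroup f.ker,
    Nat.card_congr (QuotientAddGroup.quotientKerEquivOfSurjective f hs).toEquiv]
  congr 1
  refine Nat.card_eq_of_bijective (fun c => ⟨c.1.1, congrArg Subtype.val c.2⟩)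
    ⟨fun c d e0 => Subtype.ext (Subtype.ext (Subtype.mk.inj e0)), fun c => ?_⟩
  exact ⟨⟨⟨c, by rw [mem_Tor, pow_succ, mul_smul, mem_Tor.1 c.2, smul_zero]⟩, Subtype.ext c.2⟩, rfl⟩

theorem twoa_pow {l : ℕ} (hk : (l : k) ≠ 0) (m : ℕ) :
    Nat.card (Tor k K (l ^ m)) = Nat.card (Tor k K l) ^ m := by
  induction m with
  | zero =>
    rw [pow_zero, pow_zero, Nat.card_eq_one_iff_exists]
    exact ⟨0, fun c => Subtype.ext ((one_nsmul _).symm.trans c.2)⟩
  | succ m ih => rw [twoa_step hk, ih, pow_succ]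

theorem HE.twoa_rank (h : HE e x y) {g : ℕ} (hg : Fintype.card I = 2 * g + 1) {l : ℕ}
    (hl : l.Prime) (hk : (l : k) ≠ 0) (m : ℕ) : ∃ r : ℕ,
      Nat.card (Tor k K (l ^ (m + 1))) = (l ^ (m + 1)) ^ r ∧ r ≡ 2 * g [MOD l ^ (m + 1)] := by
  obtain ⟨p, hp⟩ := ExpChar.exists k
  have hn : ((l ^ (m + 1) : ℕ) : k) ≠ 0 := by simpa using fun h => absurd h hk
  have := tor_finite (K := K) hn
  have := tor_free (K := K) hl hk (m + 1)
  have : Module.Finite (ZMod (l ^ (m + 1))) (Tor k K (l ^ (m + 1))) := Module.Finite.of_finite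
  have : Fact (1 < l ^ (m + 1)) := ⟨Nat.one_lt_pow m.succ_ne_zero hl.one_lt⟩
  have h1 := (weil hl hk (m + 1) h.io p 0 (fun c => by rw [h.io_a, pow_zero, pow_one])
    fun v hv t ht => by rw [pow_zero, pow_one, h.twoa_symm, h.twoa_hfix hv ht]).2
  rw [show h.io.tor (l ^ (m + 1)) = -LinearMap.id from LinearMap.ext fun c => Subtype.ext
    (h.io_tor (pow_ne_zero _ hl.ne_zero) c.2), map_neg, LinearMap.trace_id, h.twoa_ncard, hg] at h1
  refine ⟨Module.finrank (ZMod (l ^ (m + 1))) (Tor k K (l ^ (m + 1))), ?_,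
    (ZMod.natCast_eq_natCast_iff _ _ _).1 ?_⟩
  · rw [Nat.card_congr (Module.finBasis (ZMod (l ^ (m + 1))) _).equivFun.toEquiv, Nat.card_fun,
      Nat.card_zmod, Nat.card_fin]
  · push_cast at h1 ⊢
    linear_combination -h1

/-- `weil` for the involution with `r = 0` (at a fixed place with parameter `t`,
`io t - t = -2 t + ...`; the fixed places are the `W i` and `inf`), `io_tor`, `tor_free`: the rank
is congruent to `2 g` modulo `l ^ m` for all `m`, and it does not depend on `m ≥ 1` (the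
`l`-torsion of `Tor (l ^ m)` is `Tor l`). -/
theorem HE.card_tor (h : HE e x y) {g : ℕ} (hg : Fintype.card I = 2 * g + 1) {l : ℕ}
    (hl : l.Prime) (hk : (l : k) ≠ 0) (j : ℕ) :
    Nat.card {c : Pic k K // l ^ j • c = 0} = l ^ (2 * g * j) := by
  obtain ⟨r, h1, -⟩ := h.twoa_rank hg hl hk 0
  rw [zero_add, pow_one] at h1
  obtain ⟨r', h2, h3⟩ := h.twoa_rank hg hl hk (r + 2 * g)
  rw [twoa_pow hk, h1, ← pow_mul, ← pow_mul, mul_comm] at h2
  obtain rfl := Nat.eq_of_mul_eq_mul_left (Nat.succ_pos _) (Nat.pow_right_injective hl.two_le h2)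
  have h4 : r + 2 * g + 1 < l ^ (r + 2 * g + 1) := Nat.lt_pow_self hl.one_lt
  rw [pow_mul, ← h3.eq_of_lt_of_lt (by omega) (by omega), ← h1]
  exact twoa_pow hk j

/-- The classes of order two. -/
def HE.eps (h : HE e x y) (i : I) : Tor k K 2 :=
  ⟨cl (Finsupp.single (h.W i) 1 - Finsupp.single h.inf 1), by
    rw [mem_Tor, ← map_nsmul, ← h.dv_xe, cl_dv (h.xc_ne _)]⟩

theorem HE.eps_val (h : HE e x y) (i : I) :
    (h.eps i : Pic k K) = cl (Finsupp.single (h.W i) 1 - Finsupp.single h.inf 1) := rfl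

theorem HE.eps_adm (h : HE e x y) (i : I) :
    Adm 2 (Finsupp.single (h.W i) 1 - Finsupp.single h.inf 1) (x - algebraMap k K (e i)) :=
  ⟨h.xc_ne _, h.dv_xe i⟩

theorem HE.sum_eps (h : HE e x y) : ∑ i, h.eps i = 0 := by
  refine Subtype.ext ?_
  rw [AddSubgroup.val_finsetSum]
  simp only [h.eps_val]
  rw [← map_sum, ← h.dv_y, cl_dv h.y_ne]
  rfl

theorem HE.sa_eps (h : HE e x y) (s : SA k K) (hx : s.γ x = x) {i : I} (hi : s.a (e i) = e i) :
    s.pic (h.eps i) = h.eps i := by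
  rw [h.eps_val, SA.pic_cl, map_sub, SA.dm_single, SA.dm_single, h.sa_W s hx hi, h.sa_inf s hx]

/-- A function with divisor `∑_S (W i - inf)` is `a + b y` (`HE.poly`) with square
`c ∏_S (x - e i)`, so `a b = 0` (`HE.ind`). -/
theorem HE.eps_rel (h : HE e x y) {S : Finset I} (h0 : ∑ i ∈ S, h.eps i = 0) :
    S = ∅ ∨ S = Finset.univ := by
  have h1 := congrArg Subtype.val h0
  rw [AddSubgroup.val_finsetSum] at h1
  simp only [h.eps_val] at h1
  rw [← map_sum] at h1
  obtain ⟨f, hf, h2⟩ := cl_eq_zero.1 h1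
  have h3 : ∀ j, (h.W j).ord f = if j ∈ S then 1 else 0 := fun j => by
    rw [← dv_apply, h2, Finsupp.finsetSum_apply, ← Finset.sum_ite_eq' S j fun _ => (1 : ℤ)]
    exact Finset.sum_congr rfl fun i _ => by
      rw [Finsupp.sub_apply, Finsupp.single_eq_of_ne (h.W_ne j), sub_zero, Finsupp.single_apply]
      simp only [h.W_inj.eq_iff]
  have hP : aeval x (∏ i ∈ S, (X - C (e i))) = ∏ i ∈ S, (x - algebraMap k K (e i)) := by simp
  have h4 : ∏ i ∈ S, (x - algebraMap k K (e i)) ≠ 0 :=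
    Finset.prod_ne_zero_iff.2 fun i _ => h.xc_ne _
  obtain ⟨c, hc⟩ := const_of_dv (k := k) (f := f ^ 2 / ∏ i ∈ S, (x - algebraMap k K (e i))) (by
    rw [dv_div (pow_ne_zero _ hf) h4, dv_pow, h2, Finset.smul_sum, sub_eq_zero]
    ext w
    rw [dv_apply, w.ord_prod _ _ fun i _ => h.xc_ne _, Finsupp.finsetSum_apply]
    exact Finset.sum_congr rfl fun i _ => by rw [← h.dv_xe, dv_apply])
  rw [div_eq_iff h4, ← hP] at hc
  obtain ⟨u, v, d, hd, h5⟩ := h.gen f
  have h6 := (h.ind (u := u ^ 2 + v ^ 2 * ff e - C c * (∏ i ∈ S, (X - C (e i))) * d ^ 2)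
    (v := C 2 * (u * v)) (by
      simp only [map_sub, map_add, map_mul, map_pow, aeval_C, ← h.eq, map_ofNat]
      linear_combination aeval x d ^ 2 * hc -
        (f * aeval x d + aeval x u + aeval x v * y) * h5)).2
  have h7 := fun j => congrArg (h.W j).ord h5
  have h8 := mul_ne_zero hf (h.aeval_ne hd)
  have h9 : ∀ j {p : k[X]}, p ≠ 0 → (h.W j).ord (aeval x p) =
      2 * p.rootMultiplicity (val (h.W j) x) := fun j p hp => by
    rw [h.ord_aeval (h.W_spec j).1 hp, if_pos (h.W_spec j).2.2]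
  rcases mul_eq_zero.1 ((mul_eq_zero.1 h6).resolve_left (C_ne_zero.2 h.two)) with rfl | rfl
  · refine Or.inr (Finset.eq_univ_of_forall fun j => by_contra fun hj => ?_)
    have hv : v ≠ 0 := fun e0 => h8 (by simpa [e0] using h5)
    have := h7 j
    rw [map_zero, zero_add, Place.ord_mul _ hf (h.aeval_ne hd), Place.ord_mul _ (h.aeval_ne hv) h.y_ne,
      h3, if_neg hj, h9 j hd, h9 j hv, h.ord_y (h.W_spec j).1, if_pos (h.W_spec j).2.2] at this
    omega
  · refine Or.inl (Finset.eq_empty_of_forall_notMem fun j hj => ?_)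
    have hu : u ≠ 0 := fun e0 => h8 (by simpa [e0] using h5)
    have := h7 j
    rw [map_zero, zero_mul, add_zero, Place.ord_mul _ hf (h.aeval_ne hd), h3, if_pos hj, h9 j hd,
      h9 j hu] at this
    omega

/-- Counting: the sums over the subsets that miss a fixed index are distinct. -/
theorem HE.eps_span (h : HE e x y) (c : Tor k K 2) : ∃ S : Finset I, c = ∑ i ∈ S, h.eps i := by
  obtain ⟨g, hg⟩ := h.odd
  obtain ⟨i₀⟩ : Nonempty I := Fintype.card_pos_iff.1 h.odd.pos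
  have h2 : ((2 : ℕ) : k) ≠ 0 := by simpa using h.two
  have h1 : Nat.card (Tor k K 2) = 2 ^ (2 * g) := by
    have := h.card_tor hg Nat.prime_two h2 1
    rwa [pow_one, mul_one] at this
  have := tor_finite (K := K) h2
  have h3 : ∀ c : Tor k K 2, c + c = 0 := fun c => Subtype.ext ((two_nsmul _).symm.trans c.2)
  have h4 : Function.Injective fun S : (Finset.univ.erase i₀).powerset => ∑ i ∈ S.1, h.eps i := by
    rintro ⟨S, hS⟩ ⟨T, hT⟩ e0
    have h5 : ∑ i ∈ S \ T ∪ T \ S, h.eps i = 0 := by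
      have h6 : ∑ i ∈ S \ T, h.eps i = ∑ i ∈ T \ S, h.eps i :=
        Finset.sum_sdiff_eq_sum_sdiff_iff.2 e0
      rw [Finset.sum_union disjoint_sdiff_sdiff, h6, h3]
    rcases h.eps_rel h5 with h6 | h6
    · rw [Finset.union_eq_empty, Finset.sdiff_eq_empty_iff_subset,
        Finset.sdiff_eq_empty_iff_subset] at h6
      exact Subtype.ext (h6.1.antisymm h6.2)
    · rcases Finset.mem_union.1 (h6.ge (Finset.mem_univ i₀)) with h7 | h7
      · exact absurd (Finset.mem_powerset.1 hS (Finset.mem_sdiff.1 h7).1) (Finset.notMem_erase _ _)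
      · exact absurd (Finset.mem_powerset.1 hT (Finset.mem_sdiff.1 h7).1) (Finset.notMem_erase _ _)
  obtain ⟨S, hS⟩ := (h4.bijective_of_nat_card_le (by
    rw [h1, Nat.card_eq_fintype_card, Fintype.card_coe, Finset.card_powerset,
      Finset.card_erase_of_mem (Finset.mem_univ _), Finset.card_univ, hg]
    rfl)).2 c
  exact ⟨S.1, hS.symm⟩

theorem twoa_sum {n : ℕ} (hn : n ≠ 0) {ι : Type} (S : Finset ι) (c : ι → Tor k K n)
    (d : Tor k K n) : wp n (∑ i ∈ S, c i) d = ∏ i ∈ S, wp n (c i) d := by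
  induction S using Finset.induction_on with
  | empty =>
    have h1 := wp_add_left hn 0 0 d
    rw [add_zero] at h1
    simpa using (mul_eq_left₀ (wp_ne_zero 0 d)).1 h1.symm
  | insert i S hi ih => rw [Finset.sum_insert hi, Finset.prod_insert hi, wp_add_left hn, ih]

theorem HE.twoa_wp (h : HE e x y) {i j l : I} (hi : i ≠ l) (hj : j ≠ l) :
    wp 2 (h.eps i) (h.eps l) = wp 2 (h.eps j) (h.eps l) := by
  have hv : ∀ a b : I, val (h.W a) (x - algebraMap k K (e b)) = e a - e b := fun a b => by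
    rw [val_sub (h.W_spec a).1 (Place.ge_const _ _), val_const, (h.W_spec a).2.1]
  have hn : ∀ {a b : I}, a ≠ b → e a - e b ≠ 0 := fun hab => sub_ne_zero.2 (h.inj.ne hab)
  have ho : ∀ {a b : I}, a ≠ b → (h.W a).ord (x - algebraMap k K (e b)) = 0 := fun hab =>
    (ord_of_val_ne (by rw [hv]; exact hn hab)).2
  have hi' : ∀ c, h.inf.ord (x - algebraMap k K c) = -2 := fun c => by
    rw [pl2_pole_xc fun h1 => h.fin_iff.1 h1 rfl, h.inf_x]
  have h0 := div_ne_zero (h.xc_ne (e i)) (h.xc_ne (e j))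
  have hA : Adm 2 (Finsupp.single (h.W i) 1 - Finsupp.single (h.W j) 1 : Dv k K)
      ((x - algebraMap k K (e i)) / (x - algebraMap k K (e j))) :=
    ⟨h0, by rw [dv_div (h.xc_ne _) (h.xc_ne _), h.dv_xe, h.dv_xe, ← smul_sub,
      sub_sub_sub_cancel_right]⟩
  have hd : Dis (Finsupp.single (h.W i) 1 - Finsupp.single (h.W j) 1 : Dv k K)
      (Finsupp.single (h.W l) 1 - Finsupp.single h.inf 1) := fun v => by
    by_cases h1 : v = h.W i ∨ v = h.W j
    · refine Or.inr ?_
      rcases h1 with rfl | rfl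
      · rw [Finsupp.sub_apply, Finsupp.single_eq_of_ne (h.W_inj.ne hi),
          Finsupp.single_eq_of_ne (h.W_ne i), sub_self]
      · rw [Finsupp.sub_apply, Finsupp.single_eq_of_ne (h.W_inj.ne hj),
          Finsupp.single_eq_of_ne (h.W_ne j), sub_self]
    · rw [not_or] at h1
      exact Or.inl (by rw [Finsupp.sub_apply, Finsupp.single_eq_of_ne h1.1,
        Finsupp.single_eq_of_ne h1.2, sub_self])
  have h1 := wp_spec two_ne_zero hA (h.eps_adm l) hd (c := h.eps i - h.eps j) (d := h.eps l)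
    (by rw [AddSubgroup.coe_sub, h.eps_val, h.eps_val, ← map_sub, sub_sub_sub_cancel_right]) rfl
  have h2 : val h.inf ((x - algebraMap k K (e i)) / (x - algebraMap k K (e j))) = 1 := by
    refine val_eq ?_
    rw [map_one, div_sub_one (h.xc_ne _), sub_sub_sub_cancel_left, ← map_sub, div_eq_mul_inv]
    exact ((h.inf.ge_const _).mul (Place.Ge.of_le (m := 1) (by rw [Place.ord_inv, hi']; omega))).mono
      (by omega)
  rw [evD_sub (dj_single h0 (by rw [Place.ord_div _ (h.xc_ne _) (h.xc_ne _), ho hi.symm,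
      ho hj.symm, sub_self]) _) (dj_single h0 (by
      rw [Place.ord_div _ (h.xc_ne _) (h.xc_ne _), hi', hi', sub_self]) _),
    evD_sub (dj_single (h.xc_ne _) (ho hi) _) (dj_single (h.xc_ne _) (ho hj) _), evD_single,
    evD_single, evD_single, evD_single, h2, val_div (Or.inr (ho hi.symm).ge) (ho hj.symm), hv, hv,
    hv, hv] at h1
  have h3 := wp_add_left two_ne_zero (h.eps i - h.eps j) (h.eps j) (h.eps l)
  rw [sub_add_cancel, h1] at h3
  have g1 := hn hi
  have g2 := hn hj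
  have g3 := hn hj.symm
  rw [h3]
  field_simp
  ring

theorem HE.wp_eps_self (h : HE e x y) (i : I) : wp 2 (h.eps i) (h.eps i) = 1 := by
  obtain ⟨g, hg⟩ := h.odd
  obtain ⟨s, h1, h2⟩ : ∃ s : k, s ^ 2 = 1 ∧ ∀ j ∈ Finset.univ.erase i,
      wp 2 (h.eps j) (h.eps i) = s := by
    by_cases h0 : ∃ j, j ≠ i
    · obtain ⟨j, hj⟩ := h0
      exact ⟨_, wp_pow two_ne_zero (h.eps j) (h.eps i), fun l hl =>
        h.twoa_wp (Finset.ne_of_mem_erase hl) hj⟩
    · exact ⟨1, one_pow _, fun l hl => absurd ⟨l, Finset.ne_of_mem_erase hl⟩ h0⟩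
  have h3 := twoa_sum two_ne_zero Finset.univ h.eps (h.eps i)
  have h4 := twoa_sum two_ne_zero ∅ h.eps (h.eps i)
  rw [Finset.sum_empty, Finset.prod_empty] at h4
  rw [h.sum_eps, h4, ← Finset.mul_prod_erase _ _ (Finset.mem_univ i), Finset.prod_eq_pow_card h2,
    Finset.card_erase_of_mem (Finset.mem_univ _), Finset.card_univ, hg, Nat.add_sub_cancel,
    pow_mul, h1, one_pow, mul_one] at h3
  exact h3.symm

/-- Paper, section 2. -/
theorem HE.wp_eps (h : HE e x y) {i j : I} (hij : i ≠ j) : wp 2 (h.eps i) (h.eps j) = -1 := by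
  refine (mul_self_eq_one_iff.1 ((sq _).symm.trans (wp_pow two_ne_zero (h.eps i) (h.eps j)))).resolve_left
    fun h1 => ?_
  have h2 : h.eps j = 0 := wp_nondeg (by simpa using h.two) fun d => by
    obtain ⟨S, rfl⟩ := h.eps_span d
    have h3 := wp_swap two_ne_zero (h.eps j) (∑ a ∈ S, h.eps a)
    rwa [twoa_sum two_ne_zero, Finset.prod_eq_one fun a _ => ?_, mul_one] at h3
    by_cases ha : a = j
    · rw [ha, h.wp_eps_self]
    · rw [h.twoa_wp ha hij, h1]
  rcases h.eps_rel (S := {j}) (by rw [Finset.sum_singleton, h2]) with h3 | h3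
  · exact Finset.singleton_ne_empty j h3
  · exact hij (Finset.mem_singleton.1 (h3.ge (Finset.mem_univ i)))

theorem wp_lvl {n m : ℕ} (hn : n ≠ 0) (hm : m ≠ 0) {c d : Tor k K (n * m)} {c' d' : Tor k K n}
    (hc : (c' : Pic k K) = m • (c : Pic k K)) (hd : (d' : Pic k K) = m • (d : Pic k K)) :
    wp n c' d' = wp (n * m) c d ^ m := by
  obtain ⟨A, f, hA, e1, -⟩ := exists_adm c ∅
  obtain ⟨B, g, hB, e2, h1, -⟩ := wpair_avoid d A A
  have h2 : Dis (m • A) (m • B) := fun v => (h1 v).imp (fun h => by simp [h]) fun h => by simp [h]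
  rw [wp_spec (mul_ne_zero hn hm) hA hB h1 e1 e2,
    wp_spec hn (A := m • A) (B := m • B) ⟨hA.1, by rw [hA.2, mul_smul]⟩
      ⟨hB.1, by rw [hB.2, mul_smul]⟩ h2 (by rw [map_nsmul, e1, hc]) (by rw [map_nsmul, e2, hd]),
    evD_nsmul (hA.dj h1), evD_nsmul (hB.dj h1.symm), div_pow]

/-- The descent formula. -/
theorem descent (s : SA k K) {c' : Pic k K} {A B : Dv k K} {ψ : K} (hB : Adm 2 B ψ)
    (hd : Dis A B) (hc : 2 • c' = cl A) (h1 : s.dm A = A) (h2 : s.dm B = B) (h3 : s.γ ψ = ψ)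
    {z : k} (hz : z ^ 2 * evD ψ A = 1) {c d : Tor k K 2} (e1 : (c : Pic k K) = s.pic c' - c')
    (e2 : cl B = d) : wp 2 c d * z = s.a z := by
  obtain ⟨A', a1, a2⟩ := exists_rep c' B.support
  have d1 : Dis A' B := fun v => or_iff_not_imp_right.2 fun hv => a2 v (by simpa using hv)
  have d2 : Dis (s.dm A') B := fun v => by
    rw [← h2]
    exact d1 _
  have d3 : Dis (s.dm A' - A') B := fun v => or_iff_not_imp_right.2 fun hv => by
    rw [Finsupp.sub_apply, (d1 v).resolve_right hv, (d2 v).resolve_right hv, sub_zero]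
  obtain ⟨m, m0, hm⟩ := cl_eq.1 (show cl (2 • A') = cl A by rw [map_nsmul, a1, hc])
  have m1 : s.γ m ≠ 0 := by simpa using m0
  have j1 : Dj m B := ⟨m0, fun v hv => by
    rw [← dv_apply, hm, Finsupp.sub_apply, Finsupp.smul_apply, (d1 v).resolve_right hv,
      (hd v).resolve_right hv, smul_zero, sub_zero]⟩
  have j2 : Dj (s.γ m) B := h2 ▸ s.dj.2 j1
  have j3 := hB.dj d1.symm
  have j4 := hB.dj d2.symm
  have j5 := hB.dj hd.symm
  have hA : Adm 2 (s.dm A' - A') (s.γ m / m) := ⟨div_ne_zero m1 m0, by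
    rw [dv_div m1 m0, ← s.dm_dv, hm, map_sub, map_nsmul, h1, smul_sub, sub_sub_sub_cancel_right]⟩
  have v1 : evD (s.γ m) B = s.a (evD m B) := by
    conv_lhs => rw [← h2]
    exact s.evD m B
  have v2 : evD ψ (s.dm A') = s.a (evD ψ A') := by
    conv_lhs => rw [← h3]
    exact s.evD ψ A'
  have v3 : evD m B ^ 2 = evD ψ A' ^ 2 / evD ψ A := by
    rw [← evD_nsmul j1, ← hB.2, recip hB.1 (hB.2 ▸ j1.nsmul 2), hm, evD_sub (j3.nsmul 2) j5,
      evD_nsmul j3]
  have n1 := evD_ne_zero j1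
  have n3 := evD_ne_zero j3
  have n5 := evD_ne_zero j5
  have n4 : s.a (evD ψ A') ≠ 0 := by simpa using n3
  have v4 : z ^ 2 = (evD m B / evD ψ A') ^ 2 := by
    rw [div_pow, v3, eq_inv_of_mul_eq_one_left hz]
    field_simp
  rw [wp_spec two_ne_zero hA hB d3 (by rw [map_sub, ← s.pic_cl, a1, e1]) e2, evD_div j2 j1,
    evD_sub j4 j3, v1, v2]
  rcases sq_eq_sq_iff_eq_or_eq_neg.1 v4 with rfl | rfl
  · rw [map_div₀]
    field_simp
  · rw [map_neg, map_div₀]
    field_simp

/-- `A = W i - inf`, `B = W j - W l`, `ψ = (x - e j) / (x - e l)`. -/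
theorem HE.desc (h : HE e x y) (s : SA k K) (hx : s.γ x = x) (he : ∀ i, s.a (e i) = e i)
    {i j l : I} (h1 : i ≠ j) (h2 : i ≠ l) {c' : Pic k K} (hc : 2 • c' = h.eps i) {z : k}
    (hz : z ^ 2 * (e i - e j) = e i - e l) {c : Tor k K 2} (e1 : (c : Pic k K) = s.pic c' - c') :
    wp 2 c (h.eps j - h.eps l) * z = s.a z := by
  have w1 : h.W i ≠ h.W j := fun e0 => h1 (h.W_inj e0)
  have w2 : h.W i ≠ h.W l := fun e0 => h2 (h.W_inj e0)
  have n2 : e i - e l ≠ 0 := sub_ne_zero.2 fun e0 => h2 (h.inj e0)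
  have hB : Adm 2 (Finsupp.single (h.W j) 1 - Finsupp.single (h.W l) 1)
      ((x - algebraMap k K (e j)) / (x - algebraMap k K (e l))) :=
    ⟨div_ne_zero (h.xc_ne _) (h.xc_ne _), by
      rw [dv_div (h.xc_ne _) (h.xc_ne _), h.dv_xe, h.dv_xe, ← smul_sub, sub_sub_sub_cancel_right]⟩
  have d1 : Dis (Finsupp.single (h.W i) 1) (Finsupp.single (h.W j) 1 - Finsupp.single (h.W l) 1) :=
    fun v => by
      by_cases hv : v = h.W i
      · exact Or.inr (by simp [hv, w1, w2])
      · exact Or.inl (by simp [hv])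
  have d2 : Dis (Finsupp.single h.inf 1) (Finsupp.single (h.W j) 1 - Finsupp.single (h.W l) 1) :=
    fun v => by
      by_cases hv : v = h.inf
      · exact Or.inr (by simp [hv, (h.W_ne j).symm, (h.W_ne l).symm])
      · exact Or.inl (by simp [hv])
  have g1 : ∀ a : k, (h.W i).Ge (x - algebraMap k K a) 0 ∧
      val (h.W i) (x - algebraMap k K a) = e i - a := fun a => by
    have := ge_aeval (h.W_spec i).1 (X - C a)
    simpa [(h.W_spec i).2.1] using this
  have o1 : (h.W i).ord (x - algebraMap k K (e l)) = 0 := by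
    rw [h.ord_xc (h.W_spec i).1, (h.W_spec i).2.1, if_neg (sub_ne_zero.1 n2)]
  have o2 : h.inf.ord (x - algebraMap k K (e l)) = -2 := by
    rw [← dv_apply, h.dv_xe]
    simp [(h.W_ne l).symm]
  have v2 : val h.inf ((x - algebraMap k K (e j)) / (x - algebraMap k K (e l))) = 1 := by
    refine val_eq ?_
    have e2 : (x - algebraMap k K (e j)) / (x - algebraMap k K (e l)) - algebraMap k K 1 =
        (e l - e j) • (x - algebraMap k K (e l))⁻¹ := by
      have := h.xc_ne (e l)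
      rw [Algebra.smul_def, map_sub, map_one]
      field_simp
      ring
    rw [e2]
    refine Place.Ge.smul ?_ _
    rw [Place.ge_iff (inv_ne_zero (h.xc_ne _)), Place.ord_inv, o2]
    omega
  refine descent s hB (A := Finsupp.single (h.W i) 1 - Finsupp.single h.inf 1)
    (fun v => or_iff_not_imp_right.2 fun hv => by
      rw [Finsupp.sub_apply, (d1 v).resolve_right hv, (d2 v).resolve_right hv, sub_zero])
    hc ?_ ?_ ?_ ?_ e1 ?_
  · rw [map_sub, SA.dm_single, SA.dm_single, h.sa_W s hx (he i), h.sa_inf s hx]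
  · rw [map_sub, SA.dm_single, SA.dm_single, h.sa_W s hx (he j), h.sa_W s hx (he l)]
  · rw [map_div₀, map_sub, map_sub, hx, s.h, s.h, he, he]
  · rw [evD_sub (hB.dj d1.symm) (hB.dj d2.symm), evD_single, evD_single, zpow_one, zpow_one, v2,
      val_div (g1 _).1 o1, (g1 _).2, (g1 _).2, div_one, ← mul_div_assoc, hz, div_self n2]
  · rw [AddSubgroup.coe_sub, h.eps_val, h.eps_val, ← map_sub, sub_sub_sub_cancel_right]

end

end Pool.Agent.Lib.MP_16ef92_ag.HY
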