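import Mathlib
import Pool.Agent.Lib.MP_16ef92_ag.HY.Two
import Pool.Agent.Lib.MP_16ef92_ag.HY.Tat
import Pool.Agent.Lib.MP_16ef92_ag.HY.Sym

set_option autoImplicit false
set_option linter.unusedSectionVars false
set_option linter.unusedVariables false

namespace Pool.Agent.Lib.MP_16ef92_ag.HY

open Polynomial Module AL Pool.Agent.Lib.MP_6adaea_nt
open scoped Classical

noncomputable section

variable {k K I : Type} [Field k] [Field K] [Algebra k K] [Fintype I] {e : I → k} {x y : K}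
  [IsAlgClosed k] [IsFF k K] [PosChar k] {g : ℕ}

theorem HE.exists_ta (h : HE e x y) (hg : Fintype.card I = 2 * g + 1) (l : ℕ) [Fact l.Prime]
    (hk : (l : k) ≠ 0) : ∃ ev : (Kp g → ℤ_[l]) →+ ℕ → Pic k K, TA l ev :=
  exists_TA fun j => by rw [card_Kp, h.card_tor hg Fact.out hk]

/-- A compatible system of roots of unity. -/
structure Zt (ζ : ℕ → k) : Prop where
  prim : ∀ n, IsPrimitiveRoot (ζ n) (2 ^ n)
  sq : ∀ n, ζ (n + 1) ^ 2 = ζ n

theorem exists_zt (h : (2 : k) ≠ 0) : ∃ ζ : ℕ → k, Zt ζ := by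
  choose r hr using fun c : k => IsAlgClosed.exists_pow_nat_eq c two_pos
  let η : ℕ → k := fun n => r^[n] (-1)
  have h1 : ∀ n, η (n + 1) ^ 2 = η n := fun n => by
    simp only [η, Function.iterate_succ_apply', hr]
  have h2 : ∀ n, η n ^ 2 ^ n = -1 := fun n => by
    induction n with
    | zero => exact pow_one _
    | succ n ih => rw [pow_succ', pow_mul, h1, ih]
  refine ⟨fun n => Nat.casesOn n 1 η, fun n => ?_, fun n => ?_⟩
  · cases n with
    | zero => exact IsPrimitiveRoot.one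
    | succ n =>
      have := orderOf_eq_prime_pow (x := η n) (p := 2) (n := n)
        (fun e => h (by rw [h2] at e; linear_combination -e)) (by rw [pow_succ, pow_mul, h2]; ring)
      exact this ▸ IsPrimitiveRoot.orderOf (η n)
  · cases n with
    | zero => exact neg_one_sq
    | succ n => exact h1 n

theorem Zt.syp_cast {ζ : ℕ → k} (h : Zt ζ) (n m : ℕ) :
    ζ n ^ (m : ZMod (2 ^ n)).val = ζ n ^ m := by
  rw [ZMod.val_natCast, ← pow_eq_pow_mod _ (h.prim n).pow_eq_one]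

theorem Zt.syp_add {ζ : ℕ → k} (h : Zt ζ) (n : ℕ) (a b : ZMod (2 ^ n)) :
    ζ n ^ (a + b).val = ζ n ^ a.val * ζ n ^ b.val := by
  rw [ZMod.val_add, ← pow_eq_pow_mod _ (h.prim n).pow_eq_one, pow_add]

theorem Zt.syp_mul {ζ : ℕ → k} (h : Zt ζ) (n : ℕ) (a b : ZMod (2 ^ n)) :
    ζ n ^ (a * b).val = (ζ n ^ a.val) ^ b.val := by
  rw [ZMod.val_mul, ← pow_eq_pow_mod _ (h.prim n).pow_eq_one, pow_mul]

theorem Zt.syp_inj {ζ : ℕ → k} (h : Zt ζ) {n : ℕ} {a b : ZMod (2 ^ n)}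
    (e : ζ n ^ a.val = ζ n ^ b.val) : a = b :=
  ZMod.val_injective _ ((h.prim n).pow_inj a.val_lt b.val_lt e)

theorem Zt.syp_ext {ζ : ℕ → k} (h : Zt ζ) {a b : ℤ_[2]}
    (e : ∀ n, ζ n ^ (red n a).val = ζ n ^ (red n b).val) : a = b :=
  PadicInt.ext_of_toZModPow.1 fun n => h.syp_inj (e n)

theorem Zt.syp_log {ζ : ℕ → k} (h : Zt ζ) {w : ℕ → k} (h1 : ∀ n, w n ^ 2 ^ n = 1)
    (h2 : ∀ n, w n = w (n + 1) ^ 2) : ∃ c : ℤ_[2], ∀ n, w n = ζ n ^ (red n c).val := by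
  choose f _ hf using fun n => (h.prim n).eq_pow_of_pow_eq_one (h1 n)
  have hi : ∀ i, ((2 : ℕ) : ℤ) ^ i ∣ (f (i + 1) : ℤ) - f i := fun i => by
    have e : (f i : ZMod (2 ^ i)) = f (i + 1) := h.syp_inj (by
      rw [h.syp_cast, h.syp_cast, hf, h2, ← hf, ← pow_mul, mul_comm, pow_mul, h.sq])
    exact_mod_cast ((ZMod.natCast_eq_natCast_iff _ _ _).1 e).dvd
  exact ⟨_, fun n => by
    rw [PadicInt.toZModPow_ofIntSeq_of_pow_dvd_sub (fun n => (f n : ℤ)) 2 hi n, Int.cast_natCast,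
      h.syp_cast, hf]⟩

/-- The class at level `n` as a torsion class. -/
def TA.sypT {ev : (Kp g → ℤ_[2]) →+ ℕ → Pic k K} (h : TA 2 ev) (n : ℕ) :
    (Kp g → ℤ_[2]) →+ Tor k K (2 ^ n) :=
  AddMonoidHom.mk' (fun a => ⟨ev a n, h.tors a n⟩) fun a b =>
    Subtype.ext (congrFun (ev.map_add a b) n)

theorem TA.sypT_smul {ev : (Kp g → ℤ_[2]) →+ ℕ → Pic k K} (h : TA 2 ev) (n : ℕ) (c : ℤ_[2])
    (a : Kp g → ℤ_[2]) : h.sypT n (c • a) = (red n c).val • h.sypT n a :=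
  Subtype.ext (h.smul c a n)

/-- The coordinates are symplectic for the Weil pairing. -/
def SyP (ev : (Kp g → ℤ_[2]) →+ ℕ → Pic k K) (ζ : ℕ → k) : Prop :=
  ∀ (a b : Kp g → ℤ_[2]) (n : ℕ) (c d : Tor k K (2 ^ n)), (c : Pic k K) = ev a n →
    (d : Pic k K) = ev b n → wp (2 ^ n) c d = ζ n ^ (red n (og a b)).val

/-- The discrete logarithms of the pairings at the levels `2 ^ n` are compatible (`wp_lvl`), so
they come from a bilinear form `B` over `ℤ_[2]` (`PadicInt.lift` or `PadicInt.ofIntSeq`); `wp_swap`,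
`wp_nondeg` at level one, `exists_symp`, `TA.comp`. -/
theorem HE.exists_syp (h : HE e x y) (hg : Fintype.card I = 2 * g + 1) {ζ : ℕ → k} (hζ : Zt ζ) :
    ∃ ev : (Kp g → ℤ_[2]) →+ ℕ → Pic k K, TA 2 ev ∧ SyP ev ζ := by
  obtain ⟨ev, hT⟩ := h.exists_ta hg 2 (by exact_mod_cast h.two)
  have hn : ∀ n : ℕ, 2 ^ n ≠ 0 := fun n => by positivity
  choose B₀ hB using fun a b : Kp g → ℤ_[2] => hζ.syp_log
    (w := fun n => wp (2 ^ n) (hT.sypT n a) (hT.sypT n b)) (fun n => wp_pow (hn n) _ _)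
    fun n => wp_lvl (n := 2 ^ n) (m := 2) (hn n) two_ne_zero (c := hT.sypT (n + 1) a)
      (d := hT.sypT (n + 1) b) ((hT.mem a).2 n).symm ((hT.mem b).2 n).symm
  let B : (Kp g → ℤ_[2]) →ₗ[ℤ_[2]] (Kp g → ℤ_[2]) →ₗ[ℤ_[2]] ℤ_[2] := LinearMap.mk₂ _ B₀
    (fun a a' b => hζ.syp_ext fun n => by
      rw [map_add, hζ.syp_add, ← hB, ← hB, ← hB, map_add, wp_add_left (hn n)])
    (fun c a b => hζ.syp_ext fun n => by
      rw [smul_eq_mul, mul_comm, map_mul, hζ.syp_mul, ← hB, ← hB, hT.sypT_smul,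
        (wp_bim (hn n)).nsmul_left])
    (fun a b b' => hζ.syp_ext fun n => by
      rw [map_add, hζ.syp_add, ← hB, ← hB, ← hB, map_add, wp_add_right (hn n)])
    fun c a b => hζ.syp_ext fun n => by
      rw [smul_eq_mul, mul_comm, map_mul, hζ.syp_mul, ← hB, ← hB, hT.sypT_smul,
        (wp_bim (hn n)).nsmul_right]
  obtain ⟨φ, hφ⟩ := exists_symp B (fun a b => eq_neg_of_add_eq_zero_left (hζ.syp_ext fun n => by
      rw [map_add, hζ.syp_add, map_zero, ZMod.val_zero, pow_zero]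
      exact (congrArg₂ _ (hB a b n) (hB b a n)).symm.trans (wp_swap (hn n) _ _)))
    fun a ha i => by
      have e : hT.sypT 1 a = 0 := wp_nondeg (by exact_mod_cast h.two) fun d => by
        obtain ⟨b, hb⟩ := hT.lvl 1 d d.2
        rw [show d = hT.sypT 1 b from Subtype.ext hb.symm, hB,
          red_eq_zero.2 ((pow_one (2 : ℤ_[2])).symm ▸ ha b), ZMod.val_zero, pow_zero]
      simpa using (hT.zero 1 a).1 (congrArg Subtype.val e) i
  refine ⟨_, hT.comp φ, fun a b n c d hc hd => ?_⟩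
  rw [show c = hT.sypT n (φ a) from Subtype.ext hc, show d = hT.sypT n (φ b) from Subtype.ext hd,
    hB, ← hφ]
  rfl

variable {ev : (Kp g → ℤ_[2]) →+ ℕ → Pic k K} {ζ : ℕ → k}

/-- `wp_tor`. -/
theorem SyP.sim (h : SyP ev ζ) (hT : TA 2 ev) (hζ : Zt ζ) (s : SA k K)
    {M : End ℤ_[2] (Kp g → ℤ_[2])} (hM : ∀ a n, ev (M a) n = s.pic (ev a n)) {δ : ℤ_[2]}
    (hδ : ∀ n, s.a (ζ n) = ζ n ^ (red n δ).val) (a b : Kp g → ℤ_[2]) :
    og (M a) (M b) = δ * og a b := by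
  refine hζ.syp_ext fun n => ?_
  rw [← h (M a) (M b) n (s.tor _ (hT.sypT n a)) (s.tor _ (hT.sypT n b)) (hM a n).symm (hM b n).symm,
    wp_tor (by positivity), h a b n _ _ rfl rfl, map_pow, hδ, map_mul, hζ.syp_mul]

/-- The pairing at level one. -/
theorem SyP.one (h : SyP ev ζ) (hζ : Zt ζ) {a b : Kp g → ℤ_[2]} {c d : Tor k K 2}
    (hc : (c : Pic k K) = ev a 1) (hd : (d : Pic k K) = ev b 1) :
    wp 2 c d = (-1) ^ (red 1 (og a b)).val := by
  rw [← (hζ.prim 1).eq_neg_one_of_two_right]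
  exact h a b 1 c d hc hd

/-- Coordinates of the classes of order two. -/
theorem HE.exists_eps (h : HE e x y) (hT : TA 2 ev) (hS : SyP ev ζ) (hζ : Zt ζ) :
    ∃ ε : I → Kp g → ℤ_[2], (∀ i, ev (ε i) 1 = h.eps i) ∧
      Submodule.span GF.Z2 (Set.range fun i a => red 1 (ε i a)) = ⊤ ∧
      (∑ i, fun a => red 1 (ε i a)) = 0 ∧ ∀ i j, i ≠ j → red 1 (og (ε i) (ε j)) = 1 := by
  choose ε hε using fun i => hT.lvl 1 (h.eps i) (h.eps i).2
  have hs : ∀ S : Finset I, ev (∑ i ∈ S, ε i) 1 = (∑ i ∈ S, h.eps i : Tor k K 2) := fun S => by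
    rw [map_sum, Finset.sum_apply, AddSubgroup.val_finsetSum]
    exact Finset.sum_congr rfl fun i _ => hε i
  refine ⟨ε, hε, eq_top_iff.2 fun v _ => ?_, funext fun t => ?_, fun i j hij => ?_⟩
  · choose a ha using fun t => red_surj (v t)
    obtain ⟨S, hS'⟩ := h.eps_span (hT.sypT 1 a)
    have e := (hT.eq_iff 1 a (∑ i ∈ S, ε i)).1 ((congrArg Subtype.val hS').trans (hs S).symm)
    have : v = ∑ i ∈ S, fun t => red 1 (ε i t) := funext fun t => by
      rw [← ha, red_eq.2 (by exact_mod_cast e t), Finset.sum_apply, Finset.sum_apply, map_sum]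
    rw [this]
    exact Submodule.sum_mem _ fun i _ => Submodule.subset_span ⟨i, rfl⟩
  · have e := (hT.zero 1 _).1 ((hs Finset.univ).trans (congrArg Subtype.val h.sum_eps)) t
    rw [Finset.sum_apply, ← map_sum, ← Finset.sum_apply]
    exact red_eq_zero.2 (by exact_mod_cast e)
  · have e := (h.wp_eps hij).symm.trans (hS.one hζ (hε i).symm (hε j).symm)
    refine (by decide : ∀ z : ZMod (2 ^ 1), z ≠ 0 → z = 1) _ fun e0 => h.two ?_
    rw [e0, ZMod.val_zero, pow_zero] at e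
    linear_combination -e

end

end Pool.Agent.Lib.MP_16ef92_ag.HY
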