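import Mathlib
import Pool.Agent.Lib.MP_16ef92_ag.HY.Red
import Pool.Agent.Lib.MP_16ef92_ag.HY.SyP
import Pool.Agent.Lib.MP_16ef92_ag.Ari

set_option autoImplicit false
set_option linter.unusedSectionVars false
set_option linter.unusedVariables false

namespace Pool.Agent.Lib.MP_16ef92_ag.HY

open Polynomial AL
open scoped Classical

noncomputable section

/-- The algebraic closure of the separable closure. -/
abbrev Ob (F : Type) [Field F] [Clos F] : Type := AlgebraicClosure (Om F)

variable {F : Type} [Field F] [Clos F] [Fintype F] [hq : Fact (Odd (Fintype.card F))]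

/-- The inclusion. -/
abbrev ob : Om F →+* Ob F := algebraMap (Om F) (Ob F)

instance posChar_kk : PosChar (kk F) :=
  ⟨ringChar F, CharP.char_is_prime F _, charP_of_injective_algebraMap (algebraMap F _).injective _⟩

instance charP_ob : CharP (Ob F) (ringChar F) :=
  (ob.comp (algebraMap F (Om F))).charP (RingHom.injective _) _ |> fun _ =>
    charP_of_injective_ringHom (ob.comp (algebraMap F (Om F))).injective _

instance posChar_ob : PosChar (Ob F) := ⟨ringChar F, CharP.char_is_prime F _, inferInstance⟩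

theorem ob_cast {n : ℕ} (h : (n : F) ≠ 0) : (n : Ob F) ≠ 0 ∧ (n : kk F) ≠ 0 := by
  refine ⟨fun e => h ((ob.comp (algebraMap F (Om F))).injective ?_),
    fun e => h ((algebraMap F (kk F)).injective ?_)⟩
  · rw [map_natCast, e, map_zero]
  · rw [map_natCast, e, map_zero]

/-- The extension is purely inseparable. -/
theorem ob_pow (z : Ob F) : ∃ (s : ℕ) (w : Om F), z ^ ringChar F ^ s = ob w := by
  have : CharP (Om F) (ringChar F) :=
    charP_of_injective_algebraMap (algebraMap F (Om F)).injective _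
  have : ExpChar (Om F) (ringChar F) := ExpChar.prime (CharP.char_is_prime F _)
  obtain ⟨s, w, h⟩ := IsPurelyInseparable.pow_mem (Om F) (ringChar F) z
  exact ⟨s, w, h.symm⟩

/-- Extensions exist (`IsAlgClosure.equivOfEquiv`) and are unique by `ob_pow`. -/
theorem exists_lf : ∃ φ : Gam F →* (Ob F ≃+* Ob F), ∀ g z, φ g (ob z) = ob (g z) := by
  have h1 : ∀ (g : Gam F) z, IsAlgClosure.equivOfEquiv (Ob F) (Ob F) g.toRingEquiv (ob z) =
      ob (g z) := fun g z => IsAlgClosure.equivOfEquiv_algebraMap _ _ _ z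
  refine ⟨MonoidHom.mk' (fun g => IsAlgClosure.equivOfEquiv (Ob F) (Ob F) g.toRingEquiv)
    fun g g' => RingEquiv.toRingHom_injective
      (IsPurelyInseparable.injective_comp_algebraMap (Om F) (Ob F) (Ob F)
        (RingHom.ext fun z => ?_)), h1⟩
  exact (h1 (g * g') z).trans ((h1 g (g' z)).symm.trans (congrArg _ (h1 g' z).symm))

/-- The action of the Galois group. -/
def lf : Gam F →* (Ob F ≃+* Ob F) := exists_lf.choose

theorem lf_ob (g : Gam F) (z : Om F) : lf g (ob z) = ob (g z) := exists_lf.choose_spec g z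

theorem ob_frob (s : ℕ) : Function.Injective fun z : Ob F => z ^ ringChar F ^ s := by
  have : ExpChar (Ob F) (ringChar F) := ExpChar.prime (CharP.char_is_prime F _)
  exact (iterateFrobenius (Ob F) (ringChar F) s).injective

theorem lf_fix {g : Gam F} {z : Ob F} {s : ℕ} {w : Om F} (h : z ^ ringChar F ^ s = ob w) :
    lf g z = z ↔ g w = w := by
  have h1 : lf g z ^ ringChar F ^ s = ob (g w) := by rw [← map_pow, h, lf_ob]
  exact ⟨fun e => ob.injective (by rw [← h1, e, h]),
    fun e => ob_frob s (h1.trans ((congrArg ob e).trans h.symm))⟩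

theorem near_lf (z : Ob F) : Near fun g : Gam F => lf g z = z := by
  obtain ⟨s, w, h⟩ := ob_pow z
  exact (Near.fix w).mono fun g hg => (lf_fix h).2 hg

/-- The action on the constants. -/
def gk (g : Gam F) : kk F ≃+* kk F where
  toFun := ck g
  invFun := ck g⁻¹
  left_inv c := Subtype.ext (inv_apply_self g _)
  right_inv c := Subtype.ext (self_apply_inv g _)
  map_mul' a b := Subtype.ext (map_mul g _ _)
  map_add' a b := Subtype.ext (map_add g _ _)

theorem gk_val (g : Gam F) (c : kk F) : (gk g c : Om F) = g c := rfl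

theorem gk_geo {g : Gam F} (hg : g ∈ Geo F) (c : kk F) : gk g c = c := Subtype.ext (geo_fix hg c)

theorem gk_fr {g : Gam F} {Q : ℕ} (hg : Fr g Q) (c : kk F) : gk g c = c ^ Q := Subtype.ext (hg c)

/-- Every homomorphism from a subring to an algebraically closed field extends to a valuation
ring.  Zorn on subrings `G` of `L × κ` that contain the graph and satisfy `(0, c) ∈ G → c = 0`.  For
a maximal `G` the first projection `B` is local with maximal ideal the kernel; take a valuation
subring `O` that dominates `B` (`LocalSubring.exists_le_valuationSubring`); for `z ∈ O` the map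
extends to `B[z]` through the residue field of `O` (send the residue of `z` to a root of the image
of its minimal polynomial, or to zero), so `z ∈ B`. -/
theorem exists_rv_ext {A L κ : Type} [CommRing A] [Field L] [Field κ] [IsAlgClosed κ]
    {i : A →+* L} (hi : Function.Injective i) (τ : A →+* κ) :
    ∃ r : RV L κ, ∀ a, r.To (i a) (τ a) := by
  obtain ⟨G, hG1, hG⟩ := zorn_le_nonempty₀ {G : Subring (L × κ) | ∀ c, (0, c) ∈ G → c = 0}
    (fun S hS hc y hy => ⟨sSup S, fun c h => by
      obtain ⟨G, h1, h2⟩ := (Subring.mem_sSup_of_directedOn ⟨y, hy⟩ hc.directedOn).1 h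
      exact hS h1 c h2, fun z hz => le_sSup hz⟩) (i.prod τ).range (by
      rintro c ⟨a, ha⟩
      have h1 : a = 0 := hi ((congrArg Prod.fst ha).trans (map_zero i).symm)
      rw [h1, map_zero] at ha
      exact (congrArg Prod.snd ha).symm)
  have hinv : ∀ g ∈ G, g.2 ≠ 0 → g.1 ≠ 0 ∧ g⁻¹ ∈ G := fun g hg h2 => by
    have h1 : g.1 ≠ 0 := fun e => h2 (hG.prop g.2 (by rw [← e]; exact hg))
    let G' : Subring (L × κ) :=
      { carrier := {u | ∃ s ∈ G, s.2 ≠ 0 ∧ u * s ∈ G}
        mul_mem' := by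
          rintro u v ⟨s, a1, a2, a3⟩ ⟨t, b1, b2, b3⟩
          exact ⟨s * t, G.mul_mem a1 b1, mul_ne_zero a2 b2,
            mul_mul_mul_comm u s v t ▸ G.mul_mem a3 b3⟩
        one_mem' := ⟨1, G.one_mem, one_ne_zero, by rw [mul_one]; exact G.one_mem⟩
        add_mem' := by
          rintro u v ⟨s, a1, a2, a3⟩ ⟨t, b1, b2, b3⟩
          refine ⟨s * t, G.mul_mem a1 b1, mul_ne_zero a2 b2, ?_⟩
          rw [show (u + v) * (s * t) = u * s * t + v * t * s by ring]
          exact G.add_mem (G.mul_mem a3 b1) (G.mul_mem b3 a1)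
        zero_mem' := ⟨1, G.one_mem, one_ne_zero, by rw [mul_one]; exact G.zero_mem⟩
        neg_mem' := by
          rintro u ⟨s, a1, a2, a3⟩
          exact ⟨s, a1, a2, by rw [neg_mul]; exact G.neg_mem a3⟩ }
    refine ⟨h1, hG.le_of_ge (y := G') ?_
      (fun u hu => ⟨1, G.one_mem, one_ne_zero, by rwa [mul_one]⟩) ⟨g, hg, h2, ?_⟩⟩
    · rintro c ⟨s, a1, a2, a3⟩
      rw [show ((0, c) : L × κ) * s = (0, c * s.2) from Prod.ext (zero_mul _) rfl] at a3
      exact (mul_eq_zero.1 (hG.prop _ a3)).resolve_right a2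
    · rw [show g⁻¹ * g = 1 from Prod.ext (inv_mul_cancel₀ h1) (inv_mul_cancel₀ h2)]
      exact G.one_mem
  let f₁ : G →+* L := (RingHom.fst L κ).comp G.subtype
  let f₂ : G →+* κ := (RingHom.snd L κ).comp G.subtype
  have hu : ∀ g : G, f₂ g ≠ 0 → IsUnit g := fun g h => by
    obtain ⟨h1, h2⟩ := hinv g g.2 h
    exact isUnit_iff_exists_inv.2
      ⟨⟨_, h2⟩, Subtype.ext (Prod.ext (mul_inv_cancel₀ h1) (mul_inv_cancel₀ h))⟩
  have : IsLocalHom f₂ := ⟨fun g h => hu g h.ne_zero⟩
  have : IsLocalRing G := f₂.domain_isLocalRing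
  obtain ⟨O, hO, hl⟩ := IsLocalRing.exists_factor_valuationRing f₁
  let f : G →+* O := f₁.codRestrict O.toSubring hO
  have : IsLocalHom f := hl
  have hb : Function.Bijective f := by
    refine ⟨(injective_iff_map_eq_zero f).2 fun g h => ?_, fun z => ?_⟩
    · have h1 : (g : L × κ).1 = 0 := congrArg Subtype.val h
      exact Subtype.ext (Prod.ext h1 (hG.prop _ (by rw [← h1]; exact g.2)))
    let E := eval₂RingHom (IsLocalRing.ResidueField.map f) (IsLocalRing.residue O z)
    obtain ⟨q, hq⟩ := (IsPrincipalIdealRing.principal (RingHom.ker E)).principal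
    obtain ⟨c, hc⟩ := IsAlgClosed.exists_eval₂_eq_zero (IsLocalRing.ResidueField.lift f₂) q
      fun e => RingHom.ker_ne_top E (hq.trans (Ideal.span_singleton_eq_top.2
        (isUnit_iff_degree_eq_zero.2 e)))
    have h1 : ((z : L), c) ∈ G := by
      refine hG.le_of_ge (y := (eval₂RingHom G.subtype ((z : L), c)).range) ?_
        (fun u hu => ⟨C ⟨u, hu⟩, eval₂_C _ _⟩) ⟨X, eval₂_X _ _⟩
      rintro y ⟨p, hp⟩
      have h2 : (O.subtype : O →+* L) (eval₂ f z p) = 0 := by
        rw [hom_eval₂]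
        exact (hom_eval₂ p G.subtype (RingHom.fst L κ) _).symm.trans (congrArg Prod.fst hp)
      have h3 : p.map (IsLocalRing.residue G) ∈ RingHom.ker E := by
        rw [RingHom.mem_ker, coe_eval₂RingHom, eval₂_map,
          IsLocalRing.ResidueField.map_comp_residue, ← hom_eval₂,
          show eval₂ f z p = 0 from Subtype.ext h2, map_zero]
      rw [hq] at h3
      obtain ⟨t, ht⟩ := Ideal.mem_span_singleton.1 h3
      have h4 := congrArg (eval₂ (IsLocalRing.ResidueField.lift f₂) c) ht
      rw [eval₂_mul, hc, zero_mul, eval₂_map, IsLocalRing.ResidueField.lift_comp_residue] at h4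
      exact (congrArg Prod.snd hp).symm.trans
        ((hom_eval₂ p G.subtype (RingHom.snd L κ) _).trans h4)
    exact ⟨⟨_, h1⟩, rfl⟩
  have h5 : ∀ g, f₂ ((RingEquiv.ofBijective f hb).symm (f g)) = f₂ g := fun g =>
    congrArg f₂ ((RingEquiv.ofBijective f hb).symm_apply_apply g)
  refine ⟨⟨O, f₂.comp (RingEquiv.ofBijective f hb).symm.toRingHom, fun z hz => ?_⟩, fun a =>
    RV.to_iff.2 ⟨_, h5 ⟨(i a, τ a), hG1 ⟨a, rfl⟩⟩⟩⟩
  obtain ⟨g, rfl⟩ := hb.2 z
  exact hO ⟨_, (hinv g g.2 fun e => hz ((h5 g).trans e)).2⟩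

/-- `O' = {z | z ^ p ^ s ∈ O for some s}`; the residue of `z` is the constant `c` with `z - c` in the
maximal ideal (`Over.res`, `const_eq`, the Frobenius of `kk F` is bijective). -/
theorem exists_rv {O : ValuationSubring (Om F)} {x : Option (kk F)} (hO : Over O x) :
    ∃ r : RV (Ob F) (kk F), (∀ (w : Om F) (c : kk F), O.valuation (w - c) < 1 → r.To (ob w) c) ∧
      ∀ g ∈ St O, ∀ z c, r.To z c ↔ r.To (lf g z) (gk g c) := by
  let j : kk F →+* O := (algebraMap (kk F) (Om F)).codRestrict O.toSubring fun c =>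
    (O.valuation_le_one_iff _).1 (val_const_le O c)
  have h0 : ∀ (w : O) (c : kk F), O.valuation ((w : Om F) - c) < 1 →
      IsLocalRing.residue O w = IsLocalRing.residue O (j c) := fun w c h => by
    rw [← sub_eq_zero, ← map_sub, IsLocalRing.residue_eq_zero_iff, O.valuation_lt_one_iff]
    exact h
  have hb : Function.Bijective ((IsLocalRing.residue O).comp j) := by
    refine ⟨RingHom.injective _, fun y => ?_⟩
    obtain ⟨w, rfl⟩ := IsLocalRing.residue_surjective y
    obtain ⟨c, hc⟩ := hO.res w.2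
    exact ⟨c, (h0 w c hc).symm⟩
  obtain ⟨r, hr⟩ := exists_rv_ext (i := (ob (F := F)).comp O.subtype)
    ((ob (F := F)).injective.comp O.subtype_injective)
    ((RingEquiv.ofBijective _ hb).symm.toRingHom.comp (IsLocalRing.residue O))
  have h1 : ∀ (w : Om F) (c : kk F), O.valuation (w - c) < 1 → r.To (ob w) c := fun w c h => by
    have h2 : w ∈ O := by
      have h3 := O.add_mem _ _ ((O.valuation_le_one_iff _).1 h.le) (j c).2
      exact (sub_add_cancel w (c : Om F)) ▸ h3
    have h3 : (RingEquiv.ofBijective _ hb).symm (IsLocalRing.residue O ⟨w, h2⟩) = c := by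
      rw [RingEquiv.symm_apply_eq]
      exact h0 ⟨w, h2⟩ c h
    exact h3 ▸ hr ⟨w, h2⟩
  have hp := CharP.char_is_prime F (ringChar F)
  have h2 : ∀ {z : Ob F} {s : ℕ} {w : Om F}, z ^ ringChar F ^ s = ob w → ∀ c : kk F,
      (r.To z c ↔ O.valuation (w - (c ^ ringChar F ^ s : kk F)) < 1) := fun {z s w} h c => by
    refine ⟨fun h3 => ?_, fun h3 => ?_⟩
    · have h4 := h3.pow (ringChar F ^ s)
      rw [h] at h4
      have h5 : w ∈ O := by
        by_contra h5
        have h6 : w ≠ 0 := fun e => h5 (e ▸ O.zero_mem)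
        have h7 := h4.mul (h1 w⁻¹ 0 (by
          rw [ZeroMemClass.coe_zero, sub_zero, val_lt_one_iff, inv_inv]
          exact Or.inr h5))
        rw [← map_mul, mul_inv_cancel₀ h6, map_one, mul_zero] at h7
        exact zero_ne_one (h7.unique RV.to_one)
      obtain ⟨d, hd⟩ := hO.res h5
      rwa [h4.unique (h1 w d hd)]
    · have h4 := h1 w _ h3
      rw [← h] at h4
      have h5 := RV.to_rs (RV.mem_of_pow (pow_ne_zero s hp.ne_zero) h4.1)
      have h6 := (h5.pow (ringChar F ^ s)).unique h4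
      have : CharP (kk F) (ringChar F) :=
        charP_of_injective_algebraMap (algebraMap F _).injective _
      have : ExpChar (kk F) (ringChar F) := ExpChar.prime hp
      rwa [(iterateFrobenius (kk F) (ringChar F) s).injective h6] at h5
  refine ⟨r, h1, fun g hg z c => ?_⟩
  obtain ⟨s, w, h⟩ := ob_pow z
  rw [h2 h, h2 (z := lf g z) (s := s) (w := g w) (by rw [← map_pow, h, lf_ob]),
    val_lt_of_iff (fun z => (hg z).symm), map_sub, ← map_pow, gk_val]

/-- The cyclotomic character. -/
theorem exists_cyc : ∃ (ζ : ℕ → Ob F) (δ : Gam F →* ℤ_[2]), Zt ζ ∧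
    (∀ g n, lf g (ζ n) = ζ n ^ (red n (δ g)).val) ∧ (∀ g ∈ Geo F, δ g = 1) ∧
    ∀ g (Q : ℕ), Fr g Q → δ g = Q := by
  have h0 : ((2 : ℕ) : F) ≠ 0 := by exact_mod_cast two_neF (F := F)
  obtain ⟨η, hη⟩ := exists_zt (k := kk F) (by exact_mod_cast (ob_cast h0).2)
  let j : kk F →+* Ob F := ob.comp (algebraMap (kk F) (Om F))
  have hζ : Zt fun n => j (η n) :=
    ⟨fun n => (hη.prim n).map_of_injective j.injective, fun n => by rw [← map_pow, hη.sq]⟩
  choose δ hδ using fun g : Gam F => hζ.syp_log (w := fun n => lf g (j (η n)))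
    (fun n => by rw [← map_pow, (hζ.prim n).pow_eq_one, map_one])
    fun n => by rw [← map_pow, hζ.sq]
  have h1 : ∀ g (Q : ℕ), (∀ c : kk F, g c = (c : Om F) ^ Q) → δ g = Q := fun g Q hg =>
    hζ.syp_ext fun n => by
      rw [← hδ, map_natCast, hζ.syp_cast, ← map_pow]
      exact (lf_ob g _).trans (congrArg ob (hg _))
  refine ⟨_, ⟨⟨δ, ?_⟩, fun g g' => hζ.syp_ext fun n => ?_⟩, hζ, hδ, fun g hg => ?_, h1⟩
  · exact_mod_cast h1 1 1 fun c => (pow_one _).symm
  · rw [map_mul, hζ.syp_mul, ← hδ, ← hδ, ← map_pow, ← hδ, map_mul]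
    rfl
  · exact_mod_cast h1 g 1 fun c => (geo_fix hg c).trans (pow_one _).symm

end

end Pool.Agent.Lib.MP_16ef92_ag.HY
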