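import Mathlib
import Pool.Agent.Lib.MP_16ef92_ag.HY.BFib
import Pool.Agent.Lib.MP_16ef92_ag.HY.Good
import Pool.Agent.Lib.MP_16ef92_ag.HY.Ob
import Pool.Agent.Lib.MP_16ef92_ag.HY.Two

set_option autoImplicit false
set_option linter.unusedSectionVars false
set_option linter.unusedVariables false
set_option linter.style.haveILetI false

namespace Pool.Agent.Lib.MP_16ef92_ag.HY

open Polynomial RS AL CV Pool.Agent.Lib.MP_6adaea_nt

noncomputable section

section kum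

variable [Bg] {V : Type} [CommRing V] [IsDomain V] [IsIntegrallyClosed V] {n : ℕ} [NeZero n]
  {ζ f g : V} {ξ : H 1 (cst V (ZMod n))}

/-- The Kummer class depends only on the function modulo `n`-th powers. -/
theorem isKum_of_eq (hV : Good V) (hζ : Prim n ζ) (h : IsKum n ζ f ξ) {a b : V} (ha : a ≠ 0)
    (hf : f ≠ 0) (e : a ^ n * f = b ^ n * g) : IsKum n ζ g ξ := by
  have h0 : b ^ n * g ≠ 0 := e ▸ mul_ne_zero (pow_ne_zero _ ha) hf
  have hb : b ≠ 0 := fun h1 => left_ne_zero_of_mul h0 (by rw [h1, zero_pow (NeZero.ne n)])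
  have hj : ∀ {x : V}, x ≠ 0 → algebraMap V (FractionRing V) x ≠ 0 := fun hx =>
    (map_ne_zero_iff _ (IsFractionRing.injective V _)).2 hx
  have hp := hζ.map (algebraMap V (FractionRing V))
  have h2 : Units.mk0 _ (hj ha) ^ n * Units.mk0 _ (hj hf) =
      Units.mk0 _ (hj hb) ^ n * Units.mk0 _ (hj (right_ne_zero_of_mul h0)) := Units.ext (by
    simp only [Units.val_mul, Units.val_pow_eq_pow_val, Units.val_mk0, ← map_pow, ← map_mul, e])
  have h3 := congrArg (kum n (algebraMap V (FractionRing V) ζ)) h2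
  rw [kum_mul hp, kum_mul hp, kum_pow_n hp, kum_pow_n hp, zero_add, zero_add] at h3
  exact isKum_of_gen hV hζ (u := Units.mk0 _ (hj (right_ne_zero_of_mul h0))) rfl
    ((h _ _ _ rfl).trans h3)

end kum

variable {L κ K K' I I' : Type} [Field L] [Field κ] [Field K] [Field K'] [Algebra L K]
  [Algebra κ K'] [Fintype I] [Fintype I'] [IsAlgClosed L] [IsFF L K] [PosChar L] [IsAlgClosed κ]
  [IsFF κ K'] [PosChar κ]

/-- In the good case the reduction is onto on the torsion. -/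
theorem Rs.pi_surj {S : Rs L κ K K' I I'} (hw : S.w = 1) (hI : Fintype.card I' = Fintype.card I)
    {l : ℕ} (hl : l.Prime) (h1 : (l : L) ≠ 0) (h2 : (l : κ) ≠ 0) (j : ℕ) (c' : Pic κ K')
    (hc : l ^ j • c' = 0) : ∃ c, l ^ j • c = 0 ∧ Rs.pi hw c = c' := by
  obtain ⟨g, hg⟩ := S.he.odd
  have e1 := S.he.card_tor hg hl h1 j
  have e2 := S.he'.card_tor (hI.trans hg) hl h2 j
  have : Finite {c : Pic κ K' // l ^ j • c = 0} :=
    Nat.finite_of_card_ne_zero (e2 ▸ pow_ne_zero _ hl.ne_zero)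
  let m : {c : Pic L K // l ^ j • c = 0} → {c : Pic κ K' // l ^ j • c = 0} := fun c =>
    ⟨Rs.pi hw c, by rw [← map_nsmul, c.2, map_zero]⟩
  have hm : Function.Injective m := fun a b hab => Subtype.ext (sub_eq_zero.1
    (Rs.pi_inj hw (n := l ^ j) (by simpa using fun e => absurd e h2)
      (by rw [nsmul_sub, a.2, b.2, sub_self])
      (by rw [map_sub, sub_eq_zero]; exact congrArg Subtype.val hab)))
  obtain ⟨c, h3⟩ := (hm.bijective_of_nat_card_le (e2.trans e1.symm).le).2 ⟨c', hc⟩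
  exact ⟨c, c.2, congrArg Subtype.val h3⟩

theorem RV.pto_map {A : Type} [CommRing A] {r : RV L κ} {ι : A →+* L} {τ : A →+* κ}
    (h : ∀ a, r.To (ι a) (τ a)) (p : A[X]) : r.PTo (p.map ι) (p.map τ) := fun j => by
  rw [coeff_map, coeff_map]
  exact h _

theorem Rs.r1_ym {S : Rs L κ K K' I I'} (hw : S.w = 1) {A : Type} [CommRing A] {f : A[X]}
    {ι : A →+* L} {τ : A →+* κ} {φ : Yr f →+* K} {η : Yr f →+* K'} (hφ : YM S.e S.x S.y ι φ)
    (hη : YM S.e' S.x' S.y' τ η) (h : ∀ a, S.r.To (ι a) (τ a)) (z : Yr f) : S.R1 (φ z) (η z) := by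
  obtain ⟨u, v, rfl⟩ := Y_rep z
  have h1 := Rs.r1_el (RV.pto_map h u) (RV.pto_map h v)
  rwa [hw, mul_one, ← hφ.rep, ← hη.rep] at h1

variable [Bg] {A J : Type} [CommRing A] [IsDomain A] [IsIntegrallyClosed A] [Fintype J]
  {n : ℕ} [NeZero n]

/-- Kummer classes of functions that are locally `n`-th powers up to units and whose divisor
classes form a basis of the torsion on the generic fibre form a basis on every fibre. -/
theorem fbr_hy (p : ℕ) [Fact p.Prime] [CharP OO p] {l j : ℕ} [Fact l.Prime] (hn : n = l ^ j)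
    (hl : (l : OO) ≠ 0) (hl' : (l : L) ≠ 0) (hA : Good A) {ζ : A} (hζ : Prim n ζ) {a : I → A}
    (ha : ∀ i i', i ≠ i' → IsUnit (a i - a i')) (h2 : IsUnit (2 : A)) {ι : A →+* L}
    (hι : Function.Injective ι) {e : I → L} (he : ∀ i, e i = ι (a i)) {x y : K} (H : HE e x y)
    {φ : Yr (ff a) →+* K} (hφ : YM e x y ι φ) {G : J → Yr (ff a)} {B : J → AL.Dv L K}
    (hB : Bas n fun i => cl (B i)) (hG : ∀ i, Adm n (B i) (φ (G i)))
    (hP : ∀ i (q : Ideal (Yr (ff a))), q.IsPrime →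
      ∃ r s z : Yr (ff a), r ∉ q ∧ s ∉ q ∧ G i * r = s * z ^ n)
    {c : J → RS.H 1 (cst (Yr (ff a)) (ZMod n))}
    (hc : ∀ i, IsKum n (algebraMap A _ ζ) (G i) (c i)) : Fbr n (algebraMap A (Yr (ff a))) c := by
  have ho : OkF (ff a) := okF_prod H.odd ha h2
  refine ⟨Y_flat _, Y_fp _, fun y => Y_sur _ y, ho.locA, fun κ _ _ hκ τ V _ i j' hP' => ?_⟩
  have := ho.dom
  have := ho.normal
  have := posChar_of p hκ
  have hlκ : (l : κ) ≠ 0 := cast_ne hκ hl
  obtain ⟨K', _, _, x', y', H'⟩ := exists_HE (fun i => τ (a i))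
    (by simpa only [map_ofNat] using (h2.map τ).ne_zero) H.odd fun i i' e0 => by_contra fun hi =>
      ((ha i i' hi).map τ).ne_zero (by rw [map_sub]; exact sub_eq_zero.2 e0)
  have := H'.isFF
  obtain ⟨φ', hφ'⟩ := H'.exists_ym (f := ff fun i => τ (a i)) (ι := RingHom.id κ) map_id
  have hη := hφ'.comp (ff_map a τ)
  rw [RingHom.id_comp] at hη
  obtain ⟨r, hr⟩ := exists_rv_ext hι τ
  let S : Rs L κ K K' I I := ⟨r, e, x, y, fun i => τ (a i), x', y', 1, H, H',
    fun i => he i ▸ (hr _).1, by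
      rw [one_pow, one_mul]
      exact congrArg ff (funext fun i => he i ▸ (hr _).2)⟩
  have hw : S.w = 1 := rfl
  obtain ⟨η, hη'⟩ : ∃ η, η = φ'.comp (Ymap τ (ff_map a τ)) := ⟨_, rfl⟩
  rw [← hη'] at hη
  have hi := hφ.inj H hι
  have key : ∀ i, ∃ (u : K'ˣ) (B' : AL.Dv κ K'), cl B' = Rs.pi hw (cl (B i)) ∧
      dv κ (u : K') = n • B' ∧ rc 1 (ZMod n) η (c i) = kum n (algebraMap κ K' (τ ζ)) u := fun i => by
    obtain ⟨r', s, z, hr', hs, e0⟩ := hP i _ (RingHom.ker_isPrime η)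
    obtain ⟨m, hm⟩ := Nat.exists_eq_succ_of_ne_zero (NeZero.ne n)
    have G0 : G i ≠ 0 := fun e1 => (hG i).1 (by rw [e1, map_zero])
    have r0 : r' ≠ 0 := fun e1 => hr' (e1 ▸ zero_mem _)
    have e1 : r' ^ n * G i = z ^ n * (s * r' ^ m) := by
      have e1 : r' ^ n = r' ^ m * r' := by rw [hm, pow_succ r']
      linear_combination G i * e1 + r' ^ m * e0
    have h0 : η (s * r' ^ m) ≠ 0 := by
      rw [map_mul, map_pow]
      exact mul_ne_zero hs (pow_ne_zero _ hr')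
    have h3 := (Rs.r1_ym hw hφ hη hr (s * r' ^ m)).rd h0
    have e2 := congrArg φ e1
    rw [map_mul, map_mul φ (z ^ n), map_pow, map_pow] at e2
    have r1 : φ r' ≠ 0 := (map_ne_zero_iff _ hi).2 r0
    have h4 : φ z ^ n * φ (s * r' ^ m) ≠ 0 := e2 ▸ mul_ne_zero (pow_ne_zero _ r1) (hG i).1
    have z1 : φ z ≠ 0 := fun e3 => left_ne_zero_of_mul h4 (by rw [e3, zero_pow (NeZero.ne n)])
    have h5 : Adm n (B i + dv L (φ r') - dv L (φ z)) (φ (s * r' ^ m)) := ⟨h3.ne, by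
      have e3 := congrArg (dv L) e2
      rw [dv_mul (pow_ne_zero _ r1) (hG i).1, dv_mul (pow_ne_zero _ z1) h3.ne, dv_pow, dv_pow,
        (hG i).2] at e3
      rw [smul_sub, smul_add, add_comm, e3, add_sub_cancel_left]⟩
    refine ⟨Units.mk0 _ h0, _, ?_, (h3.adm hw h5).2, ?_⟩
    · rw [← Rs.pi_cl hw, map_sub, map_add, cl_dv r1, cl_dv z1, add_zero, sub_zero]
    · rw [← hη.alg]
      exact isKum_of_eq (good_Y hA _) (hζ.map _) (hc i) r0 G0 e1 K' η _ rfl
  choose u B' h6 h7 h8 using key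
  have h9 : Bas n fun i => cl (B' i) := by
    simp only [h6]
    subst hn
    exact hB.map _ (fun Q => Rs.pi_inj hw (by simpa using fun e => absurd e hlκ))
      (Rs.pi_surj hw rfl Fact.out hl' hlκ j)
  obtain ⟨ε, e1, e2⟩ := (Y_po τ (ff_map a τ)).equiv hP'
  have := fibK_equiv ε.bijective e2 (fibK_hy hn hκ (hζ.map τ) hlκ H' hφ' h9 h7
    (c := fun i => LH.cpb (Ymap τ (ff_map a τ)) (c i)) fun i =>
      (rc_rc _ _ _ hη'.symm _).trans (h8 i))
  simpa only [LH.cpb_cpb, e1] using this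

end

end Pool.Agent.Lib.MP_16ef92_ag.HY
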