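import Mathlib
import Pool.Agent.Lib.MP_16ef92_ag.HY.Pl2

set_option autoImplicit false
set_option linter.unusedSectionVars false
set_option linter.unusedVariables false

namespace Pool.Agent.Lib.MP_16ef92_ag.HY

open Polynomial AL Pool.Agent.Lib.MP_6adaea_nt
open scoped Classical

noncomputable section

variable {k K I : Type} [Field k] [Field K] [Algebra k K] [Fintype I] {e : I → k} {x y : K}
  [IsAlgClosed k] [IsFF k K] [PosChar k] {o : Place k K} {c : Pic k K} {E E' : Dv k K}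

/-- `E` is the effective divisor of least degree with `[E - deg E • o] = c`. -/
structure Can (o : Place k K) (c : Pic k K) (E : Dv k K) : Prop where
  eff : 0 ≤ E
  eq : cl (E - Finsupp.single o (deg E)) = c
  min : ∀ E' : Dv k K, 0 ≤ E' → cl (E' - Finsupp.single o (deg E')) = c → deg E ≤ deg E'

/-- `IsGen.eff`. -/
theorem exists_can (o : Place k K) {D : Dv k K} (hD : deg D = 0) : ∃ E, Can o (cl D) E := by
  obtain ⟨g, hg⟩ := exists_gen k K
  have h0 : deg (D + Finsupp.single o (g : ℤ)) = g := by rw [map_add, hD, deg_single, zero_add]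
  obtain ⟨f, hf, h1⟩ := hg.eff h0.ge
  obtain ⟨d, ⟨E, h2, h3, rfl⟩, h4⟩ := Int.exists_least_of_bdd
    (P := fun d => ∃ E : Dv k K, 0 ≤ E ∧ cl (E - Finsupp.single o (deg E)) = cl D ∧ deg E = d)
    ⟨0, by rintro _ ⟨E, h, -, rfl⟩; exact deg_nonneg h⟩
    ⟨_, _, h1, by
      rw [map_add (deg (k := k) (K := K)), h0, deg_dv, add_zero, add_sub_right_comm,
        add_sub_cancel_right, map_add, cl_dv hf, add_zero], rfl⟩
  exact ⟨E, h2, h3, fun E' a b => h4 _ ⟨E', a, b, rfl⟩⟩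

theorem Can.at (h : Can o c E) : E o = 0 := by
  by_contra h0
  have h1 : deg (E - Finsupp.single o 1) = deg E - 1 := by rw [map_sub, deg_single]
  have h2 := h.min (E - Finsupp.single o 1) (fun v => by
    have := h.eff v
    simp only [Finsupp.sub_apply, Finsupp.single_apply, Finsupp.coe_zero, Pi.zero_apply] at this ⊢
    split_ifs with e0
    · subst e0
      omega
    · omega) (by rw [h1, ← h.eq, sub_sub, ← Finsupp.single_add, add_sub_cancel])
  omega

theorem can_add (h : Can o c E) {f : K} (hf : f ≠ 0) (h1 : 0 ≤ E + dv k f) :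
    Can o c (E + dv k f) := by
  have h2 : deg (E + dv k f) = deg E := by rw [map_add, deg_dv, add_zero]
  exact ⟨h1, by rw [h2, add_sub_right_comm, map_add, cl_dv hf, add_zero, h.eq],
    fun E' a b => h2 ▸ h.min E' a b⟩

/-- If `E' = E + dv f`, then `f` is a unit at `o`, and `E + dv (f - f (o))` contains `o`. -/
theorem Can.unique (h : Can o c E) (h' : Can o c E') : E = E' := by
  have h1 : deg E' = deg E := le_antisymm (h'.min E h.eff h.eq) (h.min E' h'.eff h'.eq)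
  obtain ⟨f, hf, h2⟩ := cl_eq.1 (h'.eq.trans h.eq.symm)
  rw [h1, sub_sub_sub_cancel_right] at h2
  have h3 : o.ord f = 0 := by rw [← dv_apply, h2, Finsupp.sub_apply, h.at, h'.at, sub_zero]
  by_cases h4 : f - algebraMap k K (val o f) = 0
  · rw [sub_eq_zero.1 h4, dv_const] at h2
    exact (sub_eq_zero.1 h2.symm).symm
  have h5 : f - algebraMap k K (val o f) ∈ LL E :=
    sub_mem ((mem_LL_iff hf).2 (by rw [h2, add_sub_cancel]; exact h'.eff))
      fun v => (v.ge_const _).mono (neg_nonpos.2 (h.eff v))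
  have h6 := (can_add h h4 ((mem_LL_iff h4).1 h5)).at
  have h7 := (val_spec (Place.Ge.of_le h3.ge)).le h4
  rw [Finsupp.add_apply, h.at, dv_apply] at h6
  omega

theorem can_dm (s : SA k K) (hs : s.pl o = o) (E : Dv k K) :
    s.dm (E - Finsupp.single o (deg E)) = s.dm E - Finsupp.single o (deg (s.dm E)) := by
  rw [map_sub, SA.dm_single, hs, SA.deg_dm]

theorem Can.map (h : Can o c E) (s : SA k K) (hs : s.pl o = o) : Can o (s.pic c) (s.dm E) := by
  refine ⟨s.dm_nonneg.2 h.eff, by rw [← can_dm s hs, ← SA.pic_cl, h.eq], fun E' a b => ?_⟩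
  have h1 : (s⁻¹).pl o = o := by
    conv_lhs => rw [← hs, ← mul_pl, inv_mul_cancel, one_pl]
  have h2 := h.min ((s⁻¹).dm E') ((s⁻¹).dm_nonneg.2 a) (by
    rw [← can_dm _ h1, ← SA.pic_cl, b, ← mul_pic, inv_mul_cancel, one_pic])
  rwa [SA.deg_dm, ← s.deg_dm] at h2

/-- The leading coefficient at infinity. -/
def HE.lc (h : HE e x y) (z : K) : k :=
  val h.inf (z / (x ^ (Fintype.card I / 2) / y) ^ h.inf.ord z)

theorem can_x (h : HE e x y) : x ≠ 0 := by simpa using h.xc_ne 0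

theorem can_tau (h : HE e x y) : x ^ (Fintype.card I / 2) / y ≠ 0 ∧
    h.inf.ord (x ^ (Fintype.card I / 2) / y) = 1 := by
  have h1 := pow_ne_zero (Fintype.card I / 2) (can_x h)
  refine ⟨div_ne_zero h1 h.y_ne, ?_⟩
  obtain ⟨g, hg⟩ := h.odd
  rw [h.inf.ord_div h1 h.y_ne, Place.ord_pow, h.inf_x, h.inf_y]
  omega

theorem can_unit (h : HE e x y) {z : K} (hz : z ≠ 0) :
    z / (x ^ (Fintype.card I / 2) / y) ^ h.inf.ord z ≠ 0 ∧
      h.inf.ord (z / (x ^ (Fintype.card I / 2) / y) ^ h.inf.ord z) = 0 := by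
  have h1 := zpow_ne_zero (h.inf.ord z) (can_tau h).1
  exact ⟨div_ne_zero hz h1, by
    rw [h.inf.ord_div hz h1, Place.ord_zpow, (can_tau h).2, mul_one, sub_self]⟩

theorem HE.lc_ne (h : HE e x y) {z : K} (hz : z ≠ 0) : h.lc z ≠ 0 :=
  val_ne_zero (can_unit h hz).1 (can_unit h hz).2

theorem HE.lc_mul (h : HE e x y) {z w : K} (hz : z ≠ 0) (hw : w ≠ 0) :
    h.lc (z * w) = h.lc z * h.lc w := by
  rw [HE.lc, h.inf.ord_mul hz hw, zpow_add₀ (can_tau h).1, mul_div_mul_comm,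
    val_mul (.of_le (can_unit h hz).2.ge) (.of_le (can_unit h hw).2.ge), HE.lc, HE.lc]

theorem can_lc_val (h : HE e x y) {z : K} (hz : h.inf.ord z = 0) : h.lc z = val h.inf z := by
  rw [HE.lc, hz, zpow_zero, div_one]

theorem HE.lc_const (h : HE e x y) (c : k) : h.lc (algebraMap k K c) = c := by
  rw [can_lc_val h (h.inf.ord_const c), val_const]

theorem can_lc_one (h : HE e x y) : h.lc 1 = 1 := by simpa using h.lc_const 1

theorem can_lc_pow (h : HE e x y) {z : K} (hz : z ≠ 0) (m : ℕ) : h.lc (z ^ m) = h.lc z ^ m := by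
  induction m with
  | zero => simpa using can_lc_one h
  | succ m ih => rw [pow_succ, h.lc_mul (pow_ne_zero _ hz) hz, ih, pow_succ]

theorem can_lc_neg (h : HE e x y) {z : K} (hz : z ≠ 0) : h.lc (-z) = -h.lc z := by
  have := h.lc_mul (z := algebraMap k K (-1)) (by simp) hz
  rwa [h.lc_const, map_neg, map_one, neg_one_mul, neg_one_mul] at this

theorem can_lc_xc (h : HE e x y) (c : k) : h.lc (x - algebraMap k K c) = h.lc x := by
  have h1 : val h.inf (1 - algebraMap k K c * x⁻¹) = 1 := val_eq (by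
    rw [map_one, sub_sub_cancel_left]
    exact ((h.inf.ge_const c).mul (.of_le (m := 1) (by
      rw [Place.ord_inv, h.inf_x]; omega))).neg)
  obtain ⟨h2, h3⟩ := ord_of_val_ne (h1.trans_ne one_ne_zero)
  rw [show x - algebraMap k K c = x * (1 - algebraMap k K c * x⁻¹) by
    have := can_x h
    field_simp, h.lc_mul (can_x h) h2, can_lc_val h h3, h1, mul_one]

theorem HE.lc_xc (h : HE e x y) (c : k) : h.lc (x - algebraMap k K c) = 1 := by
  have h1 : ∀ s : Finset I, h.lc (∏ i ∈ s, (x - algebraMap k K (e i))) = h.lc x ^ s.card :=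
    fun s => by
      induction s using Finset.induction_on with
      | empty => simpa using can_lc_one h
      | insert i s hi ih =>
        rw [Finset.prod_insert hi, h.lc_mul (h.xc_ne _)
          (Finset.prod_ne_zero_iff.2 fun j _ => h.xc_ne _), ih, can_lc_xc,
          Finset.card_insert_of_notMem hi, pow_succ']
  have h2 := h1 Finset.univ
  rw [← ff_aeval, ← h.eq, can_lc_pow h h.y_ne, Finset.card_univ] at h2
  have h3 : h.lc (x ^ (Fintype.card I / 2) / y) = 1 := by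
    rw [HE.lc, (can_tau h).2, zpow_one, div_self (can_tau h).1, val_one]
  have h4 := h.lc_mul (can_tau h).1 h.y_ne
  rw [div_mul_cancel₀ _ h.y_ne, h3, one_mul, can_lc_pow h (can_x h)] at h4
  obtain ⟨g, hg⟩ := h.odd
  rw [← h4, hg, ← pow_mul, show (2 * g + 1) / 2 * 2 = 2 * g by omega, pow_succ] at h2
  rw [can_lc_xc]
  exact (mul_left_cancel₀ (pow_ne_zero _ (h.lc_ne (can_x h))) ((mul_one _).trans h2)).symm

theorem can_ord (h : HE e x y) (s : SA k K) (hx : s.γ x = x) (z : K) :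
    h.inf.ord (s.γ z) = h.inf.ord z := by
  conv_lhs => rw [← h.sa_inf s hx, s.pl_ord]

theorem can_sa (h : HE e x y) (s : SA k K) (hx : s.γ x = x) (z : K) :
    val h.inf (s.γ z / (x ^ (Fintype.card I / 2) / s.γ y) ^ h.inf.ord (s.γ z)) = s.a (h.lc z) := by
  rw [HE.lc, ← s.val_pl, h.sa_inf s hx, map_div₀, map_zpow₀, map_div₀, map_pow, hx, can_ord h s hx]

theorem HE.lc_sa (h : HE e x y) (s : SA k K) (hx : s.γ x = x) (hy : s.γ y = y) (z : K) :
    h.lc (s.γ z) = s.a (h.lc z) := by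
  rw [← can_sa h s hx, hy, HE.lc]

theorem HE.lc_io (h : HE e x y) (z : K) :
    h.lc (h.io.γ z) = h.lc z ∨ h.lc (h.io.γ z) = -h.lc z := by
  by_cases hz : z = 0
  · exact Or.inl (by rw [hz, map_zero])
  have h1 := can_sa h h.io h.io_x z
  rw [h.io_y, h.io_a, div_neg] at h1
  rcases Int.even_or_odd (h.inf.ord (h.io.γ z)) with h2 | h2
  · rw [h2.neg_zpow] at h1
    exact Or.inl h1
  · rw [h2.neg_zpow, div_neg, val_neg (.of_le (can_unit h (by simpa using hz)).2.ge)] at h1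
    exact Or.inr (neg_eq_iff_eq_neg.1 h1)

theorem HE.lc_ext (h : HE e x y) {z w : K} (hz : z ≠ 0) (hw : w ≠ 0) (h1 : dv k z = dv k w)
    (h2 : h.lc z = h.lc w) : z = w := by
  obtain ⟨a, ha⟩ := const_of_dv (k := k) (f := z / w) (by rw [dv_div hz hw, h1, sub_self])
  have h3 := h.lc_mul (div_ne_zero hz hw) hw
  rw [div_mul_cancel₀ _ hw, h2, ha, h.lc_const] at h3
  rw [mul_right_cancel₀ (h.lc_ne hw) (h3.symm.trans (one_mul _).symm), map_one] at ha
  exact (div_eq_one_iff_eq hw).1 ha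

theorem can_norm (h : HE e x y) {D : Dv k K} (hD : cl D = 0) :
    ∃ z : K, z ≠ 0 ∧ dv k z = D ∧ h.lc z = 1 := by
  obtain ⟨f, hf, rfl⟩ := cl_eq_zero.1 hD
  have h1 : algebraMap k K (h.lc f)⁻¹ ≠ 0 := by simpa using h.lc_ne hf
  exact ⟨_ * f, mul_ne_zero h1 hf, by rw [dv_mul h1 hf, dv_const, zero_add],
    by rw [h.lc_mul h1 hf, h.lc_const, inv_mul_cancel₀ (h.lc_ne hf)]⟩

/-- `z` is the normalised function of the class `c` of order dividing `n`. -/
def HE.NF (h : HE e x y) (n : ℕ) (c : Pic k K) (z : K) : Prop :=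
  ∃ E, Can h.inf c E ∧ Adm n (E - Finsupp.single h.inf (deg E)) z ∧ h.lc z = 1

variable {n : ℕ} {z z' : K} {h : HE e x y}

theorem HE.exists_nf (h : HE e x y) (hn : n ≠ 0) (hc : n • c = 0) : ∃ z, h.NF n c z := by
  obtain ⟨A, f, hA, h1, -⟩ := exists_adm (⟨c, hc⟩ : Tor k K n) ∅
  obtain ⟨E, hE⟩ := exists_can h.inf (hA.deg_eq hn)
  rw [show cl A = c from h1] at hE
  obtain ⟨z, h2, h3, h4⟩ := can_norm h (D := n • (E - Finsupp.single h.inf (deg E)))
    (by rw [map_nsmul, hE.eq, hc])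
  exact ⟨z, E, hE, ⟨h2, h3⟩, h4⟩

theorem HE.NF.unique (h1 : h.NF n c z) (h2 : h.NF n c z') : z = z' := by
  obtain ⟨E, a1, a2, a3⟩ := h1
  obtain ⟨E', b1, b2, b3⟩ := h2
  obtain rfl := a1.unique b1
  exact h.lc_ext a2.1 b2.1 (a2.2.trans b2.2.symm) (a3.trans b3.symm)

theorem HE.NF.map (h1 : h.NF n c z) (s : SA k K) (hx : s.γ x = x) (hy : s.γ y = y) :
    h.NF n (s.pic c) (s.γ z) := by
  obtain ⟨E, a1, a2, a3⟩ := h1
  exact ⟨_, a1.map s (h.sa_inf s hx), can_dm s (h.sa_inf s hx) E ▸ a2.map s,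
    by rw [h.lc_sa s hx hy, a3, map_one]⟩

theorem HE.NF.adm (h1 : h.NF n c z) : ∃ A, cl A = c ∧ Adm n A z :=
  let ⟨_, h2, h3, _⟩ := h1
  ⟨_, h2.eq, h3⟩

theorem can_u (h : HE e x y) (m : Place k K → ℕ) (s : Finset (Place k K))
    (hs : ∀ v ∈ s, v ≠ h.inf) : ∃ u : k[X], u.Monic ∧ h.lc (aeval x u) = 1 ∧ dv k (aeval x u) =
      ∑ v ∈ s, m v • (Finsupp.single v 1 + Finsupp.single (h.io.pl v) 1 -
        Finsupp.single h.inf 2) := by
  induction s using Finset.induction_on with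
  | empty => exact ⟨1, monic_one, by simpa using can_lc_one h, by simpa using dv_one⟩
  | insert v s hv ih =>
    obtain ⟨u, h1, h2, h3⟩ := ih fun w hw => hs w (Finset.mem_insert_of_mem hw)
    have h4 := pow_ne_zero (m v) (h.xc_ne (val v x))
    have h5 := h.aeval_ne h1.ne_zero
    refine ⟨(X - C (val v x)) ^ m v * u, ((monic_X_sub_C _).pow _).mul h1, ?_, ?_⟩
    · rw [map_mul, map_pow, map_sub, aeval_X, aeval_C, h.lc_mul h4 h5, h2,
        can_lc_pow h (h.xc_ne _), h.lc_xc, one_pow, one_mul]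
    · rw [map_mul, map_pow, map_sub, aeval_X, aeval_C, dv_mul h4 h5, h3, dv_pow,
        h.dv_xc (h.fin_iff.2 (hs v (Finset.mem_insert_self _ _))), Finset.sum_insert hv]

theorem can_u' (h : HE e x y) (h0 : 0 ≤ E) (h1 : E h.inf = 0) :
    ∃ u : k[X], u.Monic ∧ h.lc (aeval x u) = 1 ∧ dv k (aeval x u) =
      E - Finsupp.single h.inf (deg E) + h.io.dm (E - Finsupp.single h.inf (deg E)) := by
  obtain ⟨u, h2, h3, h4⟩ := can_u h (fun v => (E v).toNat) E.support
    fun v hv e0 => Finsupp.mem_support_iff.1 hv (e0 ▸ h1)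
  refine ⟨u, h2, h3, h4.trans ?_⟩
  have h5 : E - Finsupp.single h.inf (deg E) =
      ∑ v ∈ E.support, (Finsupp.single v (E v) - Finsupp.single h.inf (E v)) := by
    rw [Finset.sum_sub_distrib, ← Finsupp.single_finsetSum, deg_eq_sum E subset_rfl]
    exact congrArg (· - _) (Finsupp.sum_single E).symm
  rw [h5, map_sum, ← Finset.sum_add_distrib]
  refine Finset.sum_congr rfl fun v _ => ?_
  rw [map_sub, SA.dm_single, SA.dm_single, h.sa_inf _ h.io_x, ← natCast_zsmul,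
    Int.toNat_of_nonneg (h0 v), smul_sub, smul_add, Finsupp.smul_single, Finsupp.smul_single,
    Finsupp.smul_single, smul_eq_mul, smul_eq_mul, mul_one, mul_two, Finsupp.single_add]
  abel

/-- The function is a polynomial, and its norm is an `n`-th power up to sign:
`u = ∏ (X - x (P)) ^ E (P)`. -/
theorem HE.NF.poly (h1 : h.NF n c z) : ∃ a b u : k[X], z = aeval x a + aeval x b * y ∧ u.Monic ∧
    (a ^ 2 - b ^ 2 * ff e = u ^ n ∨ a ^ 2 - b ^ 2 * ff e = -u ^ n) := by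
  obtain ⟨E, a1, a2, a3⟩ := h1
  obtain ⟨a, b, hz⟩ := h.poly (z := z) fun v hv => .of_le (by
    rw [← dv_apply, a2.2, Finsupp.smul_apply, Finsupp.sub_apply, Finsupp.single_eq_of_ne hv,
      sub_zero]
    exact nsmul_nonneg (a1.eff v) n)
  obtain ⟨u, h2, h3, h4⟩ := can_u' h a1.eff a1.at
  have h5 := a2.map h.io
  have h6 : z * h.io.γ z = aeval x (a ^ 2 - b ^ 2 * ff e) := by
    rw [← h.norm, hz, map_add, map_mul, h.io_aeval, h.io_aeval, h.io_y, mul_neg, ← sub_eq_add_neg]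
  have h7 := h.aeval_ne h2.ne_zero
  have h8 : dv k (z * h.io.γ z) = dv k (aeval x u ^ n) := by
    rw [dv_mul a2.1 h5.1, a2.2, h5.2, dv_pow, h4, smul_add]
  have h9 : h.lc (aeval x u ^ n) = 1 := by rw [can_lc_pow h h7, h3, one_pow]
  have inj : ∀ p q : k[X], aeval x p = aeval x q → p = q := fun p q hpq =>
    by_contra fun hne => h.aeval_ne (sub_ne_zero.2 hne) (by rw [map_sub, hpq, sub_self])
  refine ⟨a, b, u, hz, h2, (h.lc_io z).imp (fun h10 => inj _ _ ?_) fun h10 => inj _ _ ?_⟩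
  · rw [← h6, map_pow]
    exact h.lc_ext (mul_ne_zero a2.1 h5.1) (pow_ne_zero _ h7) h8
      (by rw [h.lc_mul a2.1 h5.1, h10, a3, h9, mul_one])
  · rw [← h6, map_neg, map_pow]
    exact h.lc_ext (mul_ne_zero a2.1 h5.1) (neg_ne_zero.2 (pow_ne_zero _ h7))
      (h8.trans (Finsupp.ext fun v => (v.ord_neg _).symm))
      (by rw [h.lc_mul a2.1 h5.1, h10, a3, can_lc_neg h (pow_ne_zero _ h7), h9, one_mul])

/-- Additivity; `w` is the function with `lc w = 1` and divisor `A₁ + A₂ - A₃`, so it is fixed by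
every automorphism that fixes the three classes. -/
theorem HE.NF.add {c₁ c₂ : Pic k K} {z₁ z₂ z₃ : K} (h1 : h.NF n c₁ z₁) (h2 : h.NF n c₂ z₂)
    (h3 : h.NF n (c₁ + c₂) z₃) : ∃ w : K, w ≠ 0 ∧ z₁ * z₂ = z₃ * w ^ n ∧
      ∀ s : SA k K, s.γ x = x → s.γ y = y → s.pic c₁ = c₁ → s.pic c₂ = c₂ → s.γ w = w := by
  obtain ⟨E₁, a1, a2, a3⟩ := h1
  obtain ⟨E₂, b1, b2, b3⟩ := h2
  obtain ⟨E₃, d1, d2, d3⟩ := h3
  obtain ⟨w, w1, w2, w3⟩ := can_norm h (D := E₁ - Finsupp.single h.inf (deg E₁) +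
    (E₂ - Finsupp.single h.inf (deg E₂)) - (E₃ - Finsupp.single h.inf (deg E₃)))
    (by rw [map_sub, map_add, a1.eq, b1.eq, d1.eq, sub_self])
  have w4 := pow_ne_zero n w1
  refine ⟨w, w1, h.lc_ext (mul_ne_zero a2.1 b2.1) (mul_ne_zero d2.1 w4) ?_ ?_,
    fun s hx hy e1 e2 => h.lc_ext (by simpa using w1) w1 ?_ ?_⟩
  · rw [dv_mul a2.1 b2.1, dv_mul d2.1 w4, dv_pow, a2.2, b2.2, d2.2, w2, ← smul_add, ← smul_add,
      add_sub_cancel]
  · rw [h.lc_mul a2.1 b2.1, h.lc_mul d2.1 w4, can_lc_pow h w1, a3, b3, d3, w3, one_pow]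
  · have key : ∀ {c : Pic k K} {E : Dv k K}, Can h.inf c E → s.pic c = c →
        s.dm (E - Finsupp.single h.inf (deg E)) = E - Finsupp.single h.inf (deg E) :=
      fun {c E} hE hc => by
        have := hE.map s (h.sa_inf s hx)
        rw [hc] at this
        rw [can_dm s (h.sa_inf s hx), this.unique hE]
    rw [← s.dm_dv, w2, map_sub, map_add, key a1 e1, key b1 e2, key d1 (by rw [map_add, e1, e2])]
  · rw [h.lc_sa s hx hy, w3, map_one]

theorem HE.nf_zero (h : HE e x y) (n : ℕ) : h.NF n 0 1 :=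
  ⟨0, ⟨le_rfl, by simp, fun E' a _ => by simpa using deg_nonneg a⟩,
    ⟨one_ne_zero, by simpa using dv_one⟩, can_lc_one h⟩

end

end Pool.Agent.Lib.MP_16ef92_ag.HY
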