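import Mathlib
import Pool.Agent.Lib.MP_16ef92_ag.CV.Nrm
import Pool.Agent.Lib.MP_16ef92_ag.HY.BPw
import Pool.Agent.Lib.MP_16ef92_ag.HY.Can

set_option autoImplicit false
set_option linter.unusedSectionVars false
set_option linter.unusedVariables false
set_option linter.style.haveILetI false

namespace Pool.Agent.Lib.MP_16ef92_ag.HY

open Polynomial AL Pool.Agent.Lib.MP_6adaea_nt

noncomputable section

section ins

variable {Y K : Type} [CommRing Y] [Field K] {p : ℕ} {φ : Y →+* K} {w : K}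

theorem ins_up {j : ℕ} {a b : Y} (h : w ^ p ^ j * φ b = φ a) {j' : ℕ} (hj : j ≤ j') :
    w ^ p ^ j' * φ (b ^ p ^ (j' - j)) = φ (a ^ p ^ (j' - j)) := by
  rw [map_pow, map_pow, ← h, mul_pow, ← pow_mul, ← pow_add, Nat.add_sub_cancel' hj]

variable [hp : Fact p.Prime] [CharP K p]

variable (p φ) in
/-- The elements that are purely inseparable over the fraction field of the image. -/
def Ins : Subfield K where
  carrier := {w | ∃ (j : ℕ) (a b : Y), φ b ≠ 0 ∧ w ^ p ^ j * φ b = φ a}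
  mul_mem' := by
    rintro w w' ⟨j, a, b, hb, h⟩ ⟨j', a', b', hb', h'⟩
    refine ⟨max j j', a ^ p ^ (max j j' - j) * a' ^ p ^ (max j j' - j'),
      b ^ p ^ (max j j' - j) * b' ^ p ^ (max j j' - j'), ?_, by
      rw [map_mul, map_mul, ← ins_up h (le_max_left j j'), ← ins_up h' (le_max_right j j'), mul_pow,
        mul_mul_mul_comm]⟩
    rw [map_mul, map_pow, map_pow]
    exact mul_ne_zero (pow_ne_zero _ hb) (pow_ne_zero _ hb')
  one_mem' := ⟨0, 1, 1, by simp, by simp⟩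
  add_mem' := by
    rintro w w' ⟨j, a, b, hb, h⟩ ⟨j', a', b', hb', h'⟩
    have h1 := ins_up h (le_max_left j j')
    have h2 := ins_up h' (le_max_right j j')
    refine ⟨max j j', a ^ p ^ (max j j' - j) * b' ^ p ^ (max j j' - j') +
      a' ^ p ^ (max j j' - j') * b ^ p ^ (max j j' - j),
      b ^ p ^ (max j j' - j) * b' ^ p ^ (max j j' - j'), ?_, ?_⟩
    · rw [map_mul, map_pow, map_pow]
      exact mul_ne_zero (pow_ne_zero _ hb) (pow_ne_zero _ hb')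
    · rw [map_add, map_mul, map_mul, map_mul, ← h1, ← h2, add_pow_char_pow]
      ring
  zero_mem' := ⟨0, 0, 1, by simp, by simp⟩
  neg_mem' := by
    rintro w ⟨j, a, b, hb, h⟩
    refine ⟨j, (-1) ^ p ^ j * a, b, hb, ?_⟩
    rw [map_mul, map_pow, map_neg, map_one, ← h, neg_pow, mul_assoc]
  inv_mem' := by
    rintro w ⟨j, a, b, hb, h⟩
    by_cases h0 : w = 0
    · exact ⟨0, 0, 1, by simp, by simp [h0]⟩
    · have h1 := pow_ne_zero (p ^ j) h0
      exact ⟨j, b, a, h ▸ mul_ne_zero h1 hb, by rw [← h, inv_pow, inv_mul_cancel_left₀ h1]⟩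

theorem ins_mem (a : Y) : φ a ∈ Ins p φ := ⟨0, a, 1, by simp, by simp⟩

theorem ins_map {s : K →+* K} {χ : Y →+* Y} (h : ∀ z, φ (χ z) = s (φ z)) (hw : w ∈ Ins p φ) :
    s w ∈ Ins p φ := by
  obtain ⟨j, a, b, hb, h1⟩ := hw
  exact ⟨j, χ a, χ b, by rw [h]; exact (map_ne_zero s).2 hb, by
    rw [h, h, ← h1, map_mul, map_pow]⟩

/-- A common exponent that is one modulo `n`. -/
theorem ins_two {n : ℕ} (hn : (n : K) ≠ 0) {w' : K} (hw : w ∈ Ins p φ) (hw' : w' ∈ Ins p φ) :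
    ∃ (t : ℕ) (a b a' b' : Y), φ b ≠ 0 ∧ φ b' ≠ 0 ∧ w ^ (n * t + 1) * φ b = φ a ∧
      w' ^ (n * t + 1) * φ b' = φ a' := by
  obtain ⟨j, a, b, hb, h⟩ := hw
  obtain ⟨j', a', b', hb', h'⟩ := hw'
  have h0 : 0 < n := Nat.pos_of_ne_zero fun e => hn (by rw [e, Nat.cast_zero])
  have h1 : p.Coprime n := (Nat.Prime.coprime_iff_not_dvd hp.out).2 fun e =>
    hn ((CharP.cast_eq_zero_iff K p n).2 e)
  have h2 := (Nat.ModEq.pow_totient h1).pow (max j j')
  rw [one_pow, ← pow_mul] at h2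
  obtain ⟨t, ht⟩ := (Nat.modEq_iff_dvd' (Nat.one_le_pow _ _ hp.out.pos)).1 h2.symm
  have h3 : max j j' ≤ n.totient * max j j' := Nat.le_mul_of_pos_left _ (Nat.totient_pos.2 h0)
  have h4 := (Nat.sub_eq_iff_eq_add (Nat.one_le_pow _ _ hp.out.pos)).1 ht
  exact ⟨t, _, _, _, _, by rw [map_pow]; exact pow_ne_zero _ hb,
    by rw [map_pow]; exact pow_ne_zero _ hb', h4 ▸ ins_up h ((le_max_left _ _).trans h3),
    h4 ▸ ins_up h' ((le_max_right _ _).trans h3)⟩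

end ins

variable {A k K I : Type} [CommRing A] [Field k] [Field K] [Algebra k K] [Fintype I] {e : I → k}
  {x y : K} {f : A[X]} {ι : A →+* k} {φ : Yr f →+* K} {p : ℕ} [Fact p.Prime] [CharP K p]

variable (p x y φ) in
/-- A set of automorphisms whose fixed constants descend. -/
structure Dsc (S : Set (SA k K)) : Prop where
  x : ∀ s ∈ S, s.γ x = x
  y : ∀ s ∈ S, s.γ y = y
  c : ∀ c : k, (∀ s ∈ S, s.a c = c) → algebraMap k K c ∈ Ins p φ

variable {S : Set (SA k K)}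

theorem Dsc.pol (hS : Dsc x y φ p S) (h : YM e x y ι φ) {u : k[X]}
    (hu : ∀ s ∈ S, u.map (s.a : k →+* k) = u) : aeval x u ∈ Ins p φ := by
  rw [aeval_eq_sum_range]
  refine sum_mem fun i _ => ?_
  rw [Algebra.smul_def]
  exact mul_mem (hS.c _ fun s hs => (coeff_map (s.a : k →+* k) i).symm.trans (by rw [hu s hs]))
    (pow_mem (h.x ▸ ins_mem _) _)

/-- Fixed functions descend: the monic generator of the ideal of denominators is fixed. -/
theorem Dsc.fn (hS : Dsc x y φ p S) (h : YM e x y ι φ) (hE : HE e x y) {z : K}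
    (hz : ∀ s ∈ S, s.γ z = z) : z ∈ Ins p φ := by
  let J : Ideal k[X] :=
    { carrier := {d | ∃ u v : k[X], z * aeval x d = aeval x u + aeval x v * y}
      add_mem' := by
        rintro d d' ⟨u, v, h1⟩ ⟨u', v', h2⟩
        exact ⟨u + u', v + v', by rw [map_add, map_add, map_add, mul_add, h1, h2]; ring⟩
      zero_mem' := ⟨0, 0, by simp⟩
      smul_mem' := by
        rintro c d ⟨u, v, h1⟩
        exact ⟨c * u, c * v, by
          rw [smul_eq_mul, map_mul, map_mul, map_mul, mul_left_comm, h1]; ring⟩ }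
  obtain ⟨g, hg⟩ := IsPrincipalIdealRing.principal J
  have hJ : ∀ d, d ∈ J ↔ g ∣ d := fun d => by rw [hg]; exact Ideal.mem_span_singleton
  obtain ⟨u₀, v₀, d₀, h0, h1⟩ := hE.gen z
  have g0 : g ≠ 0 := ne_zero_of_dvd_ne_zero h0 ((hJ d₀).1 ⟨u₀, v₀, h1⟩)
  have hm := monic_mul_leadingCoeff_inv g0
  obtain ⟨u, v, h2⟩ := (hJ (g * C g.leadingCoeff⁻¹)).2 (dvd_mul_right _ _)
  have key : ∀ s ∈ S, (g * C g.leadingCoeff⁻¹).map (s.a : k →+* k) = g * C g.leadingCoeff⁻¹ ∧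
      u.map (s.a : k →+* k) = u ∧ v.map (s.a : k →+* k) = v := fun s hs => by
    have h3 := congrArg s.γ h2
    rw [map_mul s.γ, map_add, map_mul s.γ, hz s hs, hS.y s hs, sa_aeval s (hS.x s hs),
      sa_aeval s (hS.x s hs), sa_aeval s (hS.x s hs)] at h3
    have h4 := eq_of_monic_of_dvd_of_natDegree_le hm (hm.map (s.a : k →+* k))
      (((isUnit_C.2 (inv_ne_zero (leadingCoeff_ne_zero.2 g0)).isUnit).mul_right_dvd).2
        ((hJ _).1 ⟨_, _, h3⟩)) natDegree_map_le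
    rw [h4, h2] at h3
    have h5 := hE.ind (u := u.map (s.a : k →+* k) - u) (v := v.map (s.a : k →+* k) - v) (by
      rw [map_sub, map_sub]
      linear_combination -h3)
    exact ⟨h4, sub_eq_zero.1 h5.1, sub_eq_zero.1 h5.2⟩
  rw [eq_div_of_mul_eq (hE.aeval_ne hm.ne_zero) h2]
  exact div_mem (add_mem (hS.pol h fun s hs => (key s hs).2.1)
    (mul_mem (hS.pol h fun s hs => (key s hs).2.2) (h.y ▸ ins_mem _)))
    (hS.pol h fun s hs => (key s hs).1)

variable [IsAlgClosed k] [IsFF k K] [PosChar k] {hE : HE e x y} {n l : ℕ} {c c' : Pic k K}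
  {G G' : Yr f}

variable (p φ hE n l) in
/-- `G` is the normalised function of `c` up to an `n`-th power. -/
def KD (c : Pic k K) (G : Yr f) : Prop :=
  ∃ h z, hE.NF (n * l) c h ∧ z ∈ Ins p φ ∧ z ≠ 0 ∧ φ G = h * z ^ n

theorem KD.adm (h : KD φ p hE n l c G) : ∃ B, cl B = l • c ∧ Adm n B (φ G) := by
  obtain ⟨h, z, h1, -, h2, h3⟩ := h
  obtain ⟨B, h4, h5⟩ := h1.adm
  refine ⟨l • B + dv k z, by rw [map_add, map_nsmul, h4, cl_dv h2, add_zero], ?_⟩
  rw [h3]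
  exact ⟨mul_ne_zero h5.1 (pow_ne_zero _ h2), by
    rw [dv_mul h5.1 (pow_ne_zero _ h2), h5.2, dv_pow, smul_add, smul_smul]⟩

theorem KD.ne (h : KD φ p hE n l c G) : φ G ≠ 0 := h.adm.choose_spec.2.1

theorem KD.map (h : KD φ p hE n l c G) {s : SA k K} (hx : s.γ x = x) (hy : s.γ y = y)
    {χ : Yr f →+* Yr f} (hχ : ∀ z, φ (χ z) = s.γ (φ z)) : KD φ p hE n l (s.pic c) (χ G) := by
  obtain ⟨h, z, h1, h2, h3, h4⟩ := h
  exact ⟨_, s.γ z, h1.map s hx hy, ins_map (s := (s.γ : K →+* K)) hχ h2, by simpa using h3,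
    by rw [hχ, h4, map_mul, map_pow]⟩

theorem KD.mul (hS : Dsc x y φ p S) (hφ : YM e x y ι φ) (hn : n * l ≠ 0)
    (h0 : (n * l) • (c + c') = 0) (hc : ∀ s ∈ S, s.pic c = c) (hc' : ∀ s ∈ S, s.pic c' = c')
    (h : KD φ p hE n l c G) (h' : KD φ p hE n l c' G') : KD φ p hE n l (c + c') (G * G') := by
  obtain ⟨h, z, h1, h2, h3, h4⟩ := h
  obtain ⟨h', z', h1', h2', h3', h4'⟩ := h'
  obtain ⟨g, hg⟩ := hE.exists_nf hn h0
  obtain ⟨w, w0, w1, w2⟩ := h1.add h1' hg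
  refine ⟨g, w ^ l * (z * z'), hg, mul_mem (pow_mem (hS.fn hφ hE fun s hs =>
    w2 s (hS.x s hs) (hS.y s hs) (hc s hs) (hc' s hs)) _) (mul_mem h2 h2'),
    mul_ne_zero (pow_ne_zero _ w0) (mul_ne_zero h3 h3'), ?_⟩
  rw [map_mul, h4, h4', mul_mul_mul_comm, w1]
  ring

theorem KD.rel (hi : Function.Injective φ) (hn : (n : K) ≠ 0) (h : KD φ p hE n l c G)
    (h' : KD φ p hE n l c G') : ∃ a b : Yr f, a ≠ 0 ∧ a ^ n * G = b ^ n * G' := by
  have h0 := h.ne
  obtain ⟨h, z, h1, h2, h3, h4⟩ := h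
  obtain ⟨h', z', h1', h2', h3', h4'⟩ := h'
  obtain rfl := h1.unique h1'
  obtain ⟨t, a, b, -, -, hb, -, h5, -⟩ := ins_two hn (div_mem h2 h2') (div_mem h2 h2')
  have h6 : φ G = φ G' * (z / z') ^ n := by
    rw [h4, h4', div_pow, mul_assoc, mul_div_cancel₀ _ (pow_ne_zero n h3')]
  refine ⟨G ^ t * b, G' ^ t * a, fun e0 => mul_ne_zero (pow_ne_zero t h0) hb (by
    rw [← map_pow, ← map_mul, e0, map_zero]), hi ?_⟩
  simp only [map_mul, map_pow]
  rw [← h5, h6]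
  ring

theorem KD.ex {A : Type} [CommRing A] [IsDedekindDomain A] [IsJacobsonRing A] (hA : ¬IsField A)
    {f : A[X]} {ι : A →+* k} {φ : Yr f →+* K} (hS : Dsc x y φ p S) (hφ : YM e x y ι φ)
    (ho : OkF f) (hι : Function.Injective ι) (hn : ((n * l : ℕ) : k) ≠ 0)
    (hn' : ∀ a, n * l ∣ 2 * a → n ∣ a) (h0 : (n * l) • c = 0) (hc : ∀ s ∈ S, s.pic c = c) :
    ∃ G, KD φ p hE n l c G ∧ ∀ q : Ideal (Yr f), q.IsPrime →
      ∃ r s z : Yr f, r ∉ q ∧ s ∉ q ∧ G * r = s * z ^ n := by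
  have hi := hφ.inj hE hι
  have n0 : n * l ≠ 0 := fun e0 => hn (by rw [e0, Nat.cast_zero])
  obtain ⟨h, h1⟩ := hE.exists_nf n0 h0
  obtain ⟨a₀, b₀, u, h2, h3, h4⟩ := h1.poly
  have h5 : ∀ s ∈ S, s.γ h = h := fun s hs => by
    have := h1.map s (hS.x s hs) (hS.y s hs)
    rw [hc s hs] at this
    exact this.unique h1
  have h6 : h * hE.io.γ h = aeval x u ^ (n * l) ∨ h * hE.io.γ h = -aeval x u ^ (n * l) := by
    have : h * hE.io.γ h = aeval x (a₀ ^ 2 - b₀ ^ 2 * ff e) := by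
      rw [← hE.norm, h2, map_add, map_mul, hE.io_aeval, hE.io_aeval, hE.io_y, mul_neg,
        ← sub_eq_add_neg]
    rw [this]
    exact h4.imp (fun e0 => by rw [e0, map_pow]) fun e0 => by rw [e0, map_neg, map_pow]
  have h7 : aeval x u ∈ Ins p φ := hS.pol hφ fun s hs => by
    have h8 : s * hE.io = hE.io * s := hE.sa_ext (fun c => by rw [mul_a, mul_a, hE.io_a, hE.io_a])
      (by rw [mul_γ, mul_γ, hE.io_x, hS.x s hs, hE.io_x])
      (by rw [mul_γ, mul_γ, hE.io_y, map_neg, hS.y s hs, hE.io_y])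
    have h9 : s.γ (h * hE.io.γ h) = h * hE.io.γ h := by
      rw [map_mul, ← mul_γ, h8, mul_γ, h5 s hs]
    have h10 : aeval x (u.map (s.a : k →+* k) ^ (n * l) - u ^ (n * l)) = 0 := by
      rw [map_sub, map_pow, map_pow, ← sa_aeval s (hS.x s hs), ← map_pow, sub_eq_zero]
      rcases h6 with h6 | h6
      · rwa [h6] at h9
      · rwa [h6, map_neg, neg_inj] at h9
    have h11 := sub_eq_zero.1 (by_contra fun hne => hE.aeval_ne hne h10)
    exact eq_of_monic_of_associated (h3.map _) h3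
      ((Associated.pow_iff n0).1 (Associated.of_eq h11))
  have hK : ((n * l : ℕ) : K) ≠ 0 := by
    rw [← map_natCast (algebraMap k K)]
    exact (_root_.map_ne_zero _).2 hn
  obtain ⟨t, a, b, a', b', hb, hb', e1, e2⟩ := ins_two hK (hS.fn hφ hE h5) h7
  obtain ⟨m, hm⟩ := Nat.exists_eq_add_one_of_ne_zero n0
  have e3 : φ (a * b ^ m) = h ^ (n * l * t + 1) * φ b ^ (n * l) := by
    rw [map_mul, map_pow, ← e1, hm, pow_succ' (φ b), mul_assoc]
  have h00 := h1.adm.choose_spec.2.1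
  have hG : KD φ p hE n l c (a * b ^ m) := ⟨h, (h ^ t * φ b) ^ l, h1,
    pow_mem (mul_mem (pow_mem (hS.fn hφ hE h5) _) (ins_mem _)) _,
    pow_ne_zero _ (mul_ne_zero (pow_ne_zero _ h00) hb), by rw [e3]; ring⟩
  refine ⟨_, hG, hφ.pw hA hE ho hι (fun e0 => hn (by rw [Nat.cast_mul, e0, zero_mul])) hn'
    (u := a' * (b * cY f b)) (d := b') (fun e0 => hG.ne (by rw [e0, map_zero])) (fun v _ => ?_)
    (fun e0 => hb' (by rw [e0, map_zero])) ?_⟩
  · obtain ⟨B, -, hB⟩ := hG.adm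
    rw [← dv_apply, hB.2, Finsupp.smul_apply, nsmul_eq_mul]
    exact dvd_mul_right _ _
  · have e4 : φ (a * b ^ m * cY f (a * b ^ m) * b' ^ (n * l)) =
        (h * hE.io.γ h) ^ (n * l * t + 1) * (φ b' * φ (b * cY f b)) ^ (n * l) := by
      rw [map_mul, map_mul, hφ.io hE, e3, map_mul, map_mul φ b, hφ.io hE, map_pow, map_pow, map_pow]
      ring
    have e5 : (aeval x u ^ (n * l)) ^ (n * l * t + 1) * (φ b' * φ (b * cY f b)) ^ (n * l) =
        φ ((a' * (b * cY f b)) ^ (n * l)) := by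
      rw [map_pow, map_mul φ a', ← e2]
      ring
    rcases h6 with h6 | h6
    · exact Or.inl (hi (by rw [e4, h6, e5]))
    · rcases neg_one_pow_eq_or K (n * l * t + 1) with h8 | h8
      · exact Or.inl (hi (by rw [e4, h6, neg_pow, h8, one_mul, e5]))
      · exact Or.inr (hi (by rw [e4, h6, neg_pow, h8, neg_one_mul, neg_mul, e5, map_neg]))

open RS CV in
/-- The Kummer classes of the torsion classes. -/
theorem exists_kc [Bg] [NeZero n] {A : Type} [CommRing A] [IsDedekindDomain A] [IsJacobsonRing A]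
    (hA : ¬IsField A) (hg : Good A) {f : A[X]} {ι : A →+* k} {φ : Yr f →+* K} (hE : HE e x y)
    (hS : Dsc x y φ p S) (hφ : YM e x y ι φ) (ho : OkF f) (hι : Function.Injective ι)
    (hn : ((n * l : ℕ) : k) ≠ 0) (hn' : ∀ a, n * l ∣ 2 * a → n ∣ a) {ζ : Yr f} (hζ : Prim n ζ)
    {M : Type} [AddCommGroup M] (P : M →+ Pic k K) (h0 : ∀ v, (n * l) • P v = 0)
    (hc : ∀ v, ∀ s ∈ S, s.pic (P v) = P v) :
    ∃ (G : M → Yr f) (c : M →+ H 1 (cst (Yr f) (ZMod n))),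
      (∀ v, IsKum n ζ (G v) (c v) ∧ (∃ B, AL.cl B = l • P v ∧ Adm n B (φ (G v))) ∧
        ∀ q : Ideal (Yr f), q.IsPrime → ∃ r s z : Yr f, r ∉ q ∧ s ∉ q ∧ G v * r = s * z ^ n) ∧
      ∀ (s : SA k K) (χ : Yr f →+* Yr f) (q : ℕ), s.γ x = x → s.γ y = y →
        (∀ z, φ (χ z) = s.γ (φ z)) → χ ζ = ζ ^ q → ∀ v w, P w = s.pic (P v) →
          c w = q • rc 1 (ZMod n) χ (c v) := by
  have := ho.dom
  have := ho.normal
  have hK : (n : K) ≠ 0 := by
    rw [← map_natCast (algebraMap k K)]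
    exact (_root_.map_ne_zero _).2 fun e0 => hn (by rw [Nat.cast_mul, e0, zero_mul])
  have key : ∀ {c G G' ξ ξ'}, KD φ p hE n l c G → KD φ p hE n l c G' → IsKum n ζ G ξ →
      IsKum n ζ G' ξ' → ξ = ξ' := fun h h' k1 k2 => by
    obtain ⟨a, b, ha, hab⟩ := h.rel (hφ.inj hE hι) hK h'
    exact k1.eq (good_Y hg f) hζ k2 ha (fun e0 => h.ne (by rw [e0, map_zero])) hab
  choose G h1 h2 using fun v => KD.ex (hE := hE) hA hS hφ ho hι hn hn' (h0 v) (hc v)
  choose c h3 using fun v => exists_isKum (good_Y hg f) hζ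
    (fun e0 => (h1 v).ne (by rw [e0, map_zero])) (h2 v)
  refine ⟨G, AddMonoidHom.mk' c fun v w => key (map_add P v w ▸ h1 (v + w)) (KD.mul hS hφ
    (fun e0 => hn (by rw [e0, Nat.cast_zero])) (map_add P v w ▸ h0 (v + w)) (hc v) (hc w) (h1 v)
    (h1 w)) (h3 _) ((h3 v).mul hζ (h3 w)), fun v => ⟨h3 v, (h1 v).adm, h2 v⟩,
    fun s χ q hx hy hχ hq v w hw => ?_⟩
  exact key (hw ▸ h1 w) ((h1 v).map hx hy hχ) (h3 w)
    (IsKum.zeta hζ (hq ▸ hζ.map χ) (hq ▸ (h3 v).map χ))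

end

end Pool.Agent.Lib.MP_16ef92_ag.HY
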