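import Mathlib
import Pool.Agent.Lib.MP_16ef92_ag.HY.LDef

set_option autoImplicit false
set_option linter.unusedSectionVars false
set_option linter.unusedVariables false
set_option linter.style.haveILetI false

namespace Pool.Agent.Lib.MP_16ef92_ag.HY

open RS LH Polynomial
open FA (cut cutLift)

noncomputable section

variable [Bg] {R S T V : Type} [CommRing R] [CommRing S] [CommRing T] [CommRing V] {n : ℕ}
  [NeZero n] {κ : Type} [Fintype κ]

/-- Surjectivity of a map from tuples of sections is checked on the fibres. -/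
theorem fib_surjP {f : T →+* S} (hT : FA.AC T) (hG : Good T) (hS : Good S) (q : ℕ) (F : Sys S)
    (N : Sys T) (Φ : (κ → Z0 N) →+ H q F)
    (h1 : ∀ (e : T) (s : κ → Z0 N), IsIdempotentElem e →
      (∀ i, ∀ z : Pnt T, z e = 1 → (s i).1 z = 0) → Hmap q (F.can (cut (f e))) (Φ s) = 0)
    (ξ : H q F) (h2 : ∀ φ : Fib f, ∃ s, Hmap q (F.can φ.i) (Φ s) = Hmap q (F.can φ.i) ξ) :
    ∃ s, Φ s = ξ := by
  have a : ∀ x : Pnt T, ∃ (s : κ → Z0 N) (e : T), IsIdempotentElem e ∧ x e = 1 ∧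
      Hmap q (F.can (cut (f e))) (Φ s - ξ) = 0 := fun x => by
    obtain ⟨φ, ι, rfl⟩ := exists_fib hT hG f x
    obtain ⟨s, hs⟩ := h2 φ
    obtain ⟨e, k1, k2, k3⟩ := fib_loc hT hS φ.ie (Ten.po f φ.π) q F (Φ s - ξ)
      (by rw [map_sub, hs, sub_self])
    exact ⟨s, e, k1, by rw [RingHom.comp_apply, k2, map_one], k3⟩
  choose s e a1 a2 a3 using a
  obtain ⟨n, p, ε, k1, k2⟩ := hG.partition e a1 a2
  choose t ht t1 t2 using fun k i => N.cut_ext (k1.idem k) (N.res (cut (ε k)) (s (p k) i).2)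
  refine ⟨fun i => ∑ k, ⟨t k i, ht k i⟩, sub_eq_zero.1 (clopen_glue (f := f) hG q F _ fun x => ?_)⟩
  obtain ⟨k, -, hk⟩ := Finset.exists_ne_zero_of_sum_ne_zero (s := Finset.univ)
    (f := fun k => x (ε k)) (by rw [← map_sum, k1.complete, map_one]; exact one_ne_zero)
  refine ⟨ε k, k1.idem k, pnt_idem (k1.idem k) x hk, ?_⟩
  have e1 : f (ε k) * f (e (p k)) = f (ε k) := by rw [← map_mul, k2]
  have e2 : Hmap q (F.can (cut (f (ε k)))) (Φ (s (p k)) - ξ) = 0 := by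
    rw [← HR_can q F (cutLift (cut (f (ε k))) (cut_one e1)) (FA.cutLift_comp _ _), a3, map_zero]
  have e3 := h1 (ε k) ((fun i => ∑ k, ⟨t k i, ht k i⟩) - s (p k)) (k1.idem k) fun i z hz => by
    rw [Pi.sub_apply, AddSubgroup.coe_sub, AddSubgroup.val_finsetSum, Pi.sub_apply,
      Finset.sum_apply, Finset.sum_eq_single k (fun j _ hj => t2 j i z fun h => ?_) (by simp),
      sub_eq_zero]
    · exact t1 k i (cutLift z hz)
    · have := congrArg z (k1.ortho hj)
      rw [map_mul, h, hz, map_zero, one_mul] at this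
      exact one_ne_zero this
  rw [map_sub, map_sub, sub_eq_zero] at e3
  rw [map_sub, e3, ← map_sub, e2]

/-- The fibrewise statements hold over a base whose local rings are algebraically closed fields. -/
theorem Fbr.fibT (hT : FA.AC T) (hG : Good T) {j : T →+* V} {c : κ → H 1 (cst V (ZMod n))}
    (h : Fbr n j c) : FibK n j c := by
  have hV : Good V := hG.ft (RingHom.FiniteType.of_finitePresentation h.fp)
  have hφ : ∀ φ : Fib j, FibK n φ.j fun e => cpb φ.i (c e) := fun φ =>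
    h.fib φ.K φ.gd φ.π _ _ _ (Ten.po j φ.π)
  refine ⟨fun F ξ => ?_, fun F hF q ξ => ?_, fun F hF ξ => ?_, fun F hF m h0 => ?_⟩
  · refine fib_surj (f := j) hT hG hV 0 (F.pb j) F (Hmap 0 (F.can j)) (fun e s _ hs => ?_) ξ
      fun φ => ?_
    · refine Subtype.ext (funext fun w => hs _ ?_)
      exact (congrArg w (FA.cut_self (j e))).trans (map_one w)
    · obtain ⟨t, ht⟩ := (hφ φ).b0 (F.pb φ.π) (Hmap 0 (bcM (F.can φ.π) (Ten.comm j φ.π)) ξ)
      obtain ⟨s, rfl⟩ := fib_sec hT φ F t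
      exact ⟨s, bas_eq F (Ten.comm j φ.π) 0 _ _ ((bcM_can _ _ 0 s).trans ht)⟩
  · exact fib_zero (f := j) hT hG hV _ (F.pb j) ξ fun φ => bas_dz F (Ten.comm j φ.π) _ ξ
      ((hφ φ).b1 _ (hF.pb φ.π) q _)
  · refine fib_surjP (f := j) hT hG hV 1 (F.pb j) F (lhL c j hF 0) (fun e s _ hs => ?_) ξ
      fun φ => ?_
    · have e1 : (FA.cut (j e)).comp j =
          (FA.cutLift ((FA.cut (j e)).comp j) (FA.cut_self _)).comp (FA.cut e) := rfl
      refine bas_dz F e1 1 _ ((lh_nat c hF (hF.pb _) (F.can (FA.cut e)) e1 0 _).trans ?_)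
      have e2 : (fun k => Hmap 0 (F.can (FA.cut e)) (s k)) = 0 := funext fun k =>
        Subtype.ext (funext fun w => hs k _ ((congrArg w (FA.cut_self e)).trans (map_one w)))
      rw [e2]
      exact lh_zero' _ _ _ 0
    · obtain ⟨m', hm⟩ := (hφ φ).b2 _ (hF.pb φ.π) (Hmap 1 (bcM (F.can φ.π) (Ten.comm j φ.π)) ξ)
      choose m h1 using fun k => fib_sec hT φ F (m' k)
      refine ⟨m, bas_eq F (Ten.comm j φ.π) 1 _ _ ?_⟩
      refine (lh_nat c hF (hF.pb _) (F.can φ.π) (Ten.comm j φ.π) 0 _).trans (Eq.trans ?_ hm)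
      exact congrArg _ (funext h1)
  · refine funext fun k => Subtype.ext (funext fun x => ?_)
    obtain ⟨φ, ι, rfl⟩ := exists_fib hT hG j x
    have h1 := (hφ φ).b3 _ (hF.pb φ.π) _
      ((lh_nat c hF (hF.pb _) (F.can φ.π) (Ten.comm j φ.π) 0 m).symm.trans (by rw [h0, map_zero]))
    exact congrFun (congrArg Subtype.val (congrFun h1 k)) ι

variable {j : R →+* V} {c : κ → H 1 (cst V (ZMod n))}

theorem lh_pb {F G : Sys R} (hF : F.Tor n) (hG : G.Tor n) (u : Hom F G) (q : ℕ)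
    (m : κ → H q F) :
    Hmap (q + 1) (u.pb j) (lh c j hF q m) = lh c j hG q fun e => Hmap q u (m e) := by
  have := lh_nat c hF hG u (j := j) (i := RingHom.id V) (j' := j) rfl q m
  simp only [cpb_id] at this
  exact (Hmap_congr (q + 1) _ _ rfl (fun _ _ _ => rfl) _).trans this

/-- Independence of the classes is checked on the fibres. -/
theorem Fbr.ind (h : Fbr n j c) (F : Sys R) (hF : F.Tor n) (m : κ → H 0 F)
    (h0 : lh c j hF 0 m = 0) : m = 0 := by
  refine funext fun e => Subtype.ext (funext fun x => ?_)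
  have hP := Ten.po j x
  have h1 := (h.fib OO good_oo x _ _ _ hP).b3 (F.pb x) (hF.pb x) (fun e => Hmap 0 (F.can x) (m e))
    (by rw [← lh_nat c hF (hF.pb x) (F.can x) hP.comm, h0, map_zero])
  exact congrFun (congrArg Subtype.val (congrFun h1 e)) (RingHom.id OO)

section

variable (p : ℕ) [Fact p.Prime] [CharP OO p] (hC : CrvH n) (hR : Base R) (h : Fbr n j c)
include p hC hR h

theorem hull_bij {F : Sys R} (hF : F.Tor n) (q : ℕ) : Function.Bijective
    (Hmap q (bcM (eps (FA.toTR OO R) (F.pb (FA.toTR OO R))) (Ten.po j (FA.toTR OO R)).comm)) :=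
  sbc p hC hR h.loc h.flat h.fp (tt_TR hR.gd) (Ten.po j _) _ (hF.pb _) q

omit p hC in
theorem hull_fib : FibK n (Ten.inr j (FA.toTR OO R)) fun e => cpb (Ten.inl j _) (c e) :=
  (h.bc (Ten.po j _)).fibT FA.ac_TR hR.gd.tr

theorem hull_zero {F : Sys R} (hF : F.Tor n) :
    Function.Surjective (Hmap 0 ((hull F).can j)) := fun s => by
  obtain ⟨m, hm⟩ := (hull_fib hR h).b0 _ (Hmap 0 (bcM (eps _ (F.pb _)) (Ten.po j _).comm) s)
  obtain ⟨γ, rfl⟩ := (push_H0 (FA.toTR OO R) (F.pb _)).2 m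
  exact ⟨γ, (hull_bij p hC hR h hF 0).1 ((bcM_can _ _ 0 γ).trans hm)⟩

theorem hull_one {F : Sys R} (hF : F.Tor n) (ξ : HH 1 (hull F) j) :
    ∃ γ, lh c j (hull_tor hF) 0 γ = ξ := by
  obtain ⟨m, hm⟩ := (hull_fib hR h).b2 _ (hF.pb _)
    (Hmap 1 (bcM (eps _ (F.pb _)) (Ten.po j _).comm) ξ)
  choose γ hγ using fun e => (push_H0 (FA.toTR OO R) (F.pb _)).2 (m e)
  refine ⟨γ, (hull_bij p hC hR h hF 1).1
    ((lh_nat c (hull_tor hF) (hF.pb _) _ _ 0 γ).trans (Eq.trans ?_ hm))⟩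
  exact congrArg _ (funext hγ)

theorem hull_two {F : Sys R} (hF : F.Tor n) (q : ℕ) (ξ : HH (q + 2) (hull F) j) : ξ = 0 :=
  (hull_bij p hC hR h hF (q + 2)).1
    (((hull_fib hR h).b1 _ (hF.pb _) q _).trans (map_zero _).symm)

theorem lh_zero (F : Sys R) (hF : F.Tor n) : Function.Surjective (Hmap 0 (F.can j)) := fun s => by
  have hs := ses_hull F
  obtain ⟨γ, hγ⟩ := hull_zero p hC hR h hF (Hmap 0 ((toHull F).pb j) s)
  have h1 : Hmap 0 (toHull F).pr γ = 0 := can_inj h.sur _ _ (by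
    rw [← can_pb, hγ]
    exact ((hs.pb j).mid 0 _).2 ⟨s, rfl⟩)
  obtain ⟨α, rfl⟩ := (hs.mid 0 γ).1 h1
  exact ⟨α, (hs.pb j).inj.app ((can_pb _ j 0 α).trans hγ)⟩

/-- The Leray-Hirsch theorem for one fibre. -/
theorem lh_succ (q : ℕ) (F : Sys R) (hF : F.Tor n) (ξ : HH (q + 1) F j) :
    ∃ (z : H (q + 1) F) (m : κ → H q F), ξ = Hmap (q + 1) (F.can j) z + lh c j hF q m := by
  induction q generalizing F with
  | zero =>
    have hs := ses_hull F
    have hG := hull_tor hF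
    have hK := cok_tor (toHull F) hG
    obtain ⟨γ, hγ⟩ := hull_one p hC hR h hF (Hmap 1 ((toHull F).pb j) ξ)
    have h1 := h.ind _ hK (fun e => Hmap 0 (toHull F).pr (γ e)) (by
      rw [← lh_pb hG hK, hγ]
      exact ((hs.pb j).mid 1 _).2 ⟨ξ, rfl⟩)
    choose m hm using fun e => (hs.mid 0 (γ e)).1 (congrFun h1 e)
    obtain ⟨ζ, hζ⟩ := ((hs.pb j).del_range 0 (ξ - lh c j hF 0 m)).1 (by
      rw [map_sub, lh_pb hF hG, ← hγ, funext hm, sub_self])
    obtain ⟨ζ₀, rfl⟩ := lh_zero p hC hR h _ hK ζ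
    exact ⟨hs.del 0 ζ₀, m, by rw [← del_can, hζ, sub_add_cancel]⟩
  | succ q ih =>
    have hs := ses_hull F
    have hG := hull_tor hF
    have hK := cok_tor (toHull F) hG
    obtain ⟨ζ, rfl⟩ := ((hs.pb j).del_range (q + 1) ξ).1 (hull_two p hC hR h hF q _)
    obtain ⟨z, m, rfl⟩ := ih _ hK ζ
    exact ⟨hs.del (q + 1) z, fun e => hs.del q (m e), by
      rw [map_add, del_can, del_lh hs hF hG hK]⟩

end

end

end Pool.Agent.Lib.MP_16ef92_ag.HY
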