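import Mathlib

set_option autoImplicit false
set_option linter.unusedSectionVars false
set_option linter.unusedVariables false

namespace Pool.Agent.Lib.MP_16ef92_ag.HY

open Module

noncomputable section

variable {R ι κ : Type} [CommRing R] [Fintype ι] [Fintype κ] {B : ι → Type} [∀ i, Fintype (B i)]
  [∀ i, DecidableEq (B i)] (e : κ ≃ ∀ i, B i)

/-- Pure tensors. -/
def pu (x : ∀ i, B i → R) : κ → R := fun a => ∏ i, x i (e a i)

/-- The Kronecker product. -/
def kr (f : ∀ i, End R (B i → R)) : End R (κ → R) :=
  Matrix.mulVecLin (Matrix.of fun a b => ∏ i, f i (Pi.single (e b i) 1) (e a i))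

theorem kr_apply (f : ∀ i, End R (B i → R)) (v : κ → R) (a : κ) :
    kr e f v a = ∑ b, (∏ i, f i (Pi.single (e b i) 1) (e a i)) * v b := rfl

theorem sum_prod (g : ∀ i, B i → R) : ∑ b, ∏ i, g i (e b i) = ∏ i, ∑ t, g i t := by
  classical
  rw [Finset.prod_univ_sum, Fintype.piFinset_univ]
  exact e.sum_comp fun c => ∏ i, g i (c i)

theorem kr_pu (f : ∀ i, End R (B i → R)) (x : ∀ i, B i → R) :
    kr e f (pu e x) = pu e fun i => f i (x i) := funext fun a => by
  simp only [kr_apply, pu, ← Finset.prod_mul_distrib]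
  rw [sum_prod e fun i t => f i (Pi.single t 1) (e a i) * x i t]
  refine Finset.prod_congr rfl fun i _ => ?_
  conv_rhs => rw [pi_eq_sum_univ' (x i), map_sum, Finset.sum_apply]
  exact Finset.sum_congr rfl fun t _ => by rw [map_smul, Pi.smul_apply, smul_eq_mul, mul_comm]

theorem pu_single (a b : κ) : pu e (fun i => (Pi.single (e a i) 1 : B i → R)) b =
    open Classical in if b = a then 1 else 0 := by
  split_ifs with h
  · simp [pu, h]
  · obtain ⟨i, hi⟩ := Function.ne_iff.1 (e.injective.ne h)
    exact Finset.prod_eq_zero (Finset.mem_univ i) (Pi.single_eq_of_ne hi _)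

theorem pu_expand (v : κ → R) : v = ∑ a, v a • pu e fun i => Pi.single (e a i) 1 :=
  funext fun b => by
    classical
    simp only [Finset.sum_apply, Pi.smul_apply, pu_single, smul_eq_mul]
    rw [Finset.sum_eq_single b (fun a _ h => by rw [if_neg h.symm, mul_zero]) (by simp), if_pos rfl,
      mul_one]

theorem pu_ext {M : Type} [AddCommGroup M] [Module R M] {f g : (κ → R) →ₗ[R] M}
    (h : ∀ x, f (pu e x) = g (pu e x)) : f = g := LinearMap.ext fun v => by
  rw [pu_expand e v, map_sum, map_sum]
  exact Finset.sum_congr rfl fun a _ => by rw [map_smul, map_smul, h]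

theorem kr_mul (f g : ∀ i, End R (B i → R)) : kr e (f * g) = kr e f * kr e g :=
  pu_ext e fun x => by simp only [End.mul_apply, kr_pu, Pi.mul_apply]

theorem kr_one : kr e (1 : ∀ i, End R (B i → R)) = 1 :=
  pu_ext e fun x => by simp only [kr_pu, Pi.one_apply, End.one_apply]

/-- The Kronecker product is multiplicative. -/
def krM : (∀ i, End R (B i → R)) →* End R (κ → R) := ⟨⟨kr e, kr_one e⟩, kr_mul e⟩

/-- The tensor product of representations. -/
def krH {G : Type} [Monoid G] (ρ : ∀ i, G →* End R (B i → R)) : G →* End R (κ → R) :=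
  (krM e).comp (MonoidHom.pi ρ)

theorem krH_apply {G : Type} [Monoid G] (ρ : ∀ i, G →* End R (B i → R)) (g : G) :
    krH e ρ g = kr e fun i => ρ i g := rfl

theorem pu_smul (c : ι → R) (x : ∀ i, B i → R) :
    pu e (fun i => c i • x i) = (∏ i, c i) • pu e x :=
  funext fun a => by simp [pu, Finset.prod_mul_distrib]

theorem kr_smul (c : ι → R) (f : ∀ i, End R (B i → R)) :
    kr e (fun i => c i • f i) = (∏ i, c i) • kr e f :=
  pu_ext e fun x => by simp only [kr_pu, LinearMap.smul_apply, pu_smul]

theorem trace_kr (f : ∀ i, End R (B i → R)) :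
    LinearMap.trace R _ (kr e f) = ∏ i, LinearMap.trace R _ (f i) := by
  classical
  simp only [LinearMap.trace_eq_matrix_trace R (Pi.basisFun R _), LinearMap.toMatrix_eq_toMatrix',
    Matrix.trace, Matrix.diag, LinearMap.toMatrix'_apply]
  rw [← sum_prod e fun i t => f i (Pi.single t 1) t]
  refine Finset.sum_congr rfl fun a _ => ?_
  rw [kr_apply, Finset.sum_eq_single a (fun b _ hb => by simp [hb]) (by simp)]
  simp

theorem kr_dvd {c : R} {f : ∀ i, End R (B i → R)} (h : ∀ i x t, c ∣ (f i x - x) t) (v : κ → R)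
    (a : κ) : c ∣ (kr e f v - v) a := by
  change _ ∣ (kr e f - 1) v a
  rw [pu_expand e v, map_sum, Finset.sum_apply]
  refine Finset.dvd_sum fun b _ => ?_
  rw [map_smul, LinearMap.sub_apply, kr_pu]
  exact (Ideal.mem_span_singleton.1 (Ideal.Quotient.eq.1 (by
    simp only [pu, End.one_apply, map_prod]
    exact Finset.prod_congr rfl fun i _ =>
      Ideal.Quotient.eq.2 (Ideal.mem_span_singleton.2 (h i _ _))))).mul_left _

variable [DecidableEq ι]

theorem pu_update (x : ∀ i, B i → R) (i : ι) (y : B i → R) (a : κ) :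
    pu e (Function.update x i y) a = y (e a i) * ∏ j ∈ Finset.univ.erase i, x j (e a j) := by
  rw [pu, ← Finset.mul_prod_erase _ _ (Finset.mem_univ i), Function.update_self]
  exact congrArg _ (Finset.prod_congr rfl fun j hj => by
    rw [Function.update_of_ne (Finset.ne_of_mem_erase hj)])

/-- A pure tensor as a linear function of one slot. -/
def puL (x : ∀ i, B i → R) (i : ι) : (B i → R) →ₗ[R] κ → R where
  toFun y := pu e (Function.update x i y)
  map_add' y z := funext fun a => by simp only [pu_update, Pi.add_apply, add_mul]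
  map_smul' c y := funext fun a => by
    simp only [pu_update, Pi.smul_apply, smul_eq_mul, mul_assoc, RingHom.id_apply]

theorem puL_self (x : ∀ i, B i → R) (i : ι) : puL e x i (x i) = pu e x :=
  congrArg (pu e) (Function.update_eq_self i x)

theorem kr_single (i : ι) (f : End R (B i → R)) (x : ∀ i, B i → R) :
    kr e (Pi.mulSingle i f) (pu e x) = puL e x i (f (x i)) := by
  rw [kr_pu]
  refine congrArg (pu e) (funext fun j => ?_)
  by_cases h : j = i
  · subst h
    simp
  · simp [h]

/-- An operator on one slot. -/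
def sl (i : ι) : End R (B i → R) →ₐ[R] End R (κ → R) :=
  AlgHom.ofLinearMap
    { toFun := fun f => kr e (Pi.mulSingle i f)
      map_add' := fun f g => pu_ext e fun x => by
        simp only [kr_single, LinearMap.add_apply, map_add]
      map_smul' := fun c f => pu_ext e fun x => by
        simp only [kr_single, LinearMap.smul_apply, map_smul, RingHom.id_apply] }
    (by simp [kr_one]) fun f g => by simp [Pi.mulSingle_mul, kr_mul]

theorem sl_eq (i : ι) (f : End R (B i → R)) : sl e i f = kr e (Pi.mulSingle i f) := rfl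

theorem sl_pu (i : ι) (f : End R (B i → R)) (x : ∀ i, B i → R) :
    sl e i f (pu e x) = puL e x i (f (x i)) := kr_single e i f x

theorem sl_comm {i j : ι} (h : i ≠ j) (f : End R (B i → R)) (g : End R (B j → R)) :
    Commute (sl e i f) (sl e j g) := by
  rw [Commute, SemiconjBy, sl_eq, sl_eq, ← kr_mul, ← kr_mul]
  exact congrArg (kr e) (Pi.mulSingle_commute (f := fun i => End R (B i → R)) h f g)

theorem kr_eq_sl {f : ∀ i, End R (B i → R)} {i : ι} (h : ∀ j, j ≠ i → f j = 1) :
    kr e f = sl e i (f i) := congrArg (kr e) (funext fun j => by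
  by_cases hj : j = i
  · subst hj
    simp
  · simp [hj, h j hj])

theorem kr_noncommProd (f : ∀ i, End R (B i → R)) : kr e f = Finset.univ.noncommProd
    (fun i => sl e i (f i)) fun i _ j _ h => sl_comm e h _ _ := by
  conv_lhs => rw [← Finset.noncommProd_mulSingle f]
  exact Finset.map_noncommProd _ _ _ (krM e)

end

end Pool.Agent.Lib.MP_16ef92_ag.HY
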