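import Mathlib
import Pool.Agent.Lib.MP_16ef92_ag.HY.Def
import Pool.Agent.Lib.MP_16ef92_ag.FA.PO

set_option autoImplicit false
set_option linter.unusedSectionVars false
set_option linter.unusedVariables false
set_option linter.style.haveILetI false

namespace Pool.Agent.Lib.MP_16ef92_ag.HY

noncomputable section

open Polynomial

variable {A A' X X' Z ι : Type} [CommRing A] [CommRing A'] [CommRing X] [CommRing X'] [CommRing Z]
  {J : ι → Type} [∀ i, Fintype (J i)]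

/-- The images of the roots. -/
abbrev mp (φ : A →+* X) (e : ∀ i, J i → A) : ∀ i, J i → X := fun i j => φ (e i j)

/-- The equations. -/
def Eqs (e : ∀ i, J i → X) (x y : ι → X) : Prop := ∀ i, y i ^ 2 = ∏ j, (x i - e i j)

/-- `X` is generated over `A` by the `x i`, `y i`, subject to the equations. -/
structure Prs (e : ∀ i, J i → A) (φ : A →+* X) (x y : ι → X) : Prop where
  eq : Eqs (mp φ e) x y
  ex : ∀ (Z : Type) [CommRing Z] (ψ : A →+* Z) (x' y' : ι → Z), Eqs (mp ψ e) x' y' →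
    ∃ χ : X →+* Z, χ.comp φ = ψ ∧ (∀ i, χ (x i) = x' i) ∧ ∀ i, χ (y i) = y' i
  uq : ∀ (Z : Type) [CommRing Z] (χ χ' : X →+* Z), χ.comp φ = χ'.comp φ →
    (∀ i, χ (x i) = χ' (x i)) → (∀ i, χ (y i) = χ' (y i)) → χ = χ'

/-- The ideal of the equations. -/
def fibIdeal (e : ∀ i, J i → A) : Ideal (MvPolynomial (ι ⊕ ι) A) :=
  Ideal.span (Set.range fun i => MvPolynomial.X (Sum.inr i) ^ 2 -
    ∏ j, (MvPolynomial.X (Sum.inl i) - MvPolynomial.C (e i j)))

/-- The coordinate ring of the fibre product of the affine curves. -/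
abbrev fibRing (e : ∀ i, J i → A) : Type := MvPolynomial (ι ⊕ ι) A ⧸ fibIdeal e

variable {e : ∀ i, J i → A} {φ : A →+* X} {x y : ι → X} {e' : ∀ i, J i → A'} {φ' : A' →+* X'}
  {x' y' : ι → X'}

theorem Eqs.map {e : ∀ i, J i → X} {x y : ι → X} (h : Eqs e x y) (χ : X →+* Z) :
    Eqs (mp χ e) (χ ∘ x) (χ ∘ y) := fun i => by
  simpa using congrArg χ (h i)

theorem prs_fib (e : ∀ i, J i → A) : Prs e (algebraMap A (fibRing e))
    (fun i => Ideal.Quotient.mk _ (MvPolynomial.X (Sum.inl i)))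
    fun i => Ideal.Quotient.mk _ (MvPolynomial.X (Sum.inr i)) := by
  have hal : ∀ r : A, algebraMap A (fibRing e) r =
      Ideal.Quotient.mk (fibIdeal e) (MvPolynomial.C r) := fun _ => rfl
  refine ⟨fun i => ?_, fun Z _ ψ x' y' h => ?_, fun Z _ χ χ' h1 h2 h3 => ?_⟩
  · have : Ideal.Quotient.mk (fibIdeal e) (MvPolynomial.X (Sum.inr i) ^ 2 -
        ∏ j, (MvPolynomial.X (Sum.inl i) - MvPolynomial.C (e i j))) = 0 :=
      Ideal.Quotient.eq_zero_iff_mem.2 (Ideal.subset_span ⟨i, rfl⟩)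
    simp only [map_sub, map_prod, map_pow] at this
    simp only [hal]
    exact sub_eq_zero.1 this
  · have hk : ∀ p ∈ fibIdeal e, MvPolynomial.eval₂Hom ψ (Sum.elim x' y') p = 0 := by
      intro p hp
      refine (Ideal.span_le.2 ?_ : fibIdeal e ≤ RingHom.ker _) hp
      rintro _ ⟨i, rfl⟩
      have := h i
      simp [RingHom.mem_ker, this]
    refine ⟨Ideal.Quotient.lift _ _ hk, ?_, fun i => ?_, fun i => ?_⟩
    · ext r
      simp [hal]
    · simp
    · simp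
  · refine Ideal.Quotient.ringHom_ext (MvPolynomial.ringHom_ext (fun r => ?_) ?_)
    · exact RingHom.congr_fun h1 r
    · rintro (i | i)
      · exact h2 i
      · exact h3 i

theorem prsa_eqs {φ₁ : A →+* X'} {τ : A' →+* A} {e₀ : ∀ i, J i → A'}
    (he : ∀ i j, τ (e₀ i j) = e i j) (h : Eqs (mp φ₁ e) x' y') :
    Eqs (mp (φ₁.comp τ) e₀) x' y' := fun i => by
  simp only [RingHom.comp_apply, he]
  exact h i

theorem Prs.equiv (h : Prs e φ x y) {φ₁ : A →+* X'} (h' : Prs e φ₁ x' y') :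
    ∃ ε : X ≃+* X', ε.toRingHom.comp φ = φ₁ ∧ (∀ i, ε (x i) = x' i) ∧ ∀ i, ε (y i) = y' i := by
  obtain ⟨w, w1, w2, w3⟩ := h.ex X' φ₁ x' y' h'.eq
  obtain ⟨v, v1, v2, v3⟩ := h'.ex X φ x y h.eq
  refine ⟨RingEquiv.ofRingHom w v (h'.uq _ _ _ ?_ ?_ ?_) (h.uq _ _ _ ?_ ?_ ?_), w1, w2, w3⟩
  · rw [RingHom.comp_assoc, v1, w1, RingHom.id_comp]
  · intro i
    simp [v2, w2]
  · intro i
    simp [v3, w3]
  · rw [RingHom.comp_assoc, w1, v1, RingHom.id_comp]
  · intro i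
    simp [v2, w2]
  · intro i
    simp [v3, w3]

theorem Prs.ft [Finite ι] (h : Prs e φ x y) : φ.FiniteType := by
  obtain ⟨ε, e1, -⟩ := (prs_fib e).equiv h
  rw [← e1]
  refine RingHom.FiniteType.comp (RingHom.FiniteType.of_surjective _ ε.surjective) ?_
  exact RingHom.finiteType_algebraMap.2 inferInstance

theorem Prs.bij [IsEmpty ι] (h : Prs e φ x y) : Function.Bijective φ := by
  have h0 : Prs e (RingHom.id A) (fun i => isEmptyElim i) (fun i => isEmptyElim i) :=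
    ⟨fun i => isEmptyElim i,
      fun Z _ ψ _ _ _ => ⟨ψ, rfl, fun i => isEmptyElim i, fun i => isEmptyElim i⟩,
      fun Z _ χ χ' e _ _ => e⟩
  obtain ⟨ε, e1, -⟩ := h0.equiv h
  rw [← e1]
  exact ε.bijective

/-- Base change. -/
theorem Prs.po (h : Prs e φ x y) {τ : A →+* A'} {i : X →+* X'} (hP : FA.PO φ τ i φ') :
    Prs (mp τ e) φ' (i ∘ x) (i ∘ y) := by
  refine ⟨fun k => ?_, fun Z _ ψ x₁ y₁ e => ?_, fun Z _ χ χ' h1 h2 h3 => ?_⟩
  · have h1 := h.eq.map i k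
    have h2 : ∀ r, i (φ r) = φ' (τ r) := fun r => RingHom.congr_fun hP.comm r
    simp only [h2] at h1
    exact h1
  · obtain ⟨u, u1, u2, u3⟩ := h.ex Z (ψ.comp τ) x₁ y₁ e
    obtain ⟨w, w1, w2⟩ := hP.ex Z u ψ u1
    refine ⟨w, w2, fun k => ?_, fun k => ?_⟩
    · exact (RingHom.congr_fun w1 (x k)).trans (u2 k)
    · exact (RingHom.congr_fun w1 (y k)).trans (u3 k)
  · refine hP.uq Z χ χ' (h.uq Z _ _ ?_ h2 h3) h1
    rw [RingHom.comp_assoc, RingHom.comp_assoc, hP.comm, ← RingHom.comp_assoc, h1,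
      RingHom.comp_assoc]

theorem Prs.to_po (h : Prs e φ x y) (h' : Prs e' φ' x' y') {τ : A →+* A'}
    (he : ∀ i j, τ (e i j) = e' i j) {i : X →+* X'}
    (ec : i.comp φ = φ'.comp τ) (ex : ∀ k, i (x k) = x' k) (ey : ∀ k, i (y k) = y' k) :
    FA.PO φ τ i φ' := by
  refine ⟨ec, fun Z _ u v c => ?_, fun Z _ w w' h1 h2 => h'.uq Z w w' h2 (fun k => ?_) fun k => ?_⟩
  · have c' : ∀ r, u (φ r) = v (τ r) := fun r => RingHom.congr_fun c r
    obtain ⟨w, w1, w2, w3⟩ := h'.ex Z v (u ∘ x) (u ∘ y) (fun k => by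
      have h1 := h.eq.map u k
      simp only [c', he] at h1
      exact h1)
    refine ⟨w, h.uq Z _ _ ?_ (fun k => ?_) (fun k => ?_), w1⟩
    · rw [RingHom.comp_assoc, ec, ← RingHom.comp_assoc, w1, c]
    · rw [RingHom.comp_apply, ex, w2, Function.comp_apply]
    · rw [RingHom.comp_apply, ey, w3, Function.comp_apply]
  · rw [← ex]
    exact RingHom.congr_fun h1 (x k)
  · rw [← ey]
    exact RingHom.congr_fun h1 (y k)

/-- The map over a homomorphism of base rings. -/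
theorem Prs.exists_map (h : Prs e φ x y) (h' : Prs e' φ' x' y') {τ : A →+* A'}
    (he : ∀ i j, τ (e i j) = e' i j) : ∃ i : X →+* X',
      i.comp φ = φ'.comp τ ∧ (∀ k, i (x k) = x' k) ∧ ∀ k, i (y k) = y' k :=
  h.ex X' (φ'.comp τ) x' y' (prsa_eqs he h'.eq)

/-- A group action on the base that fixes the coefficients extends. -/
theorem Prs.exists_act (h : Prs e φ x y) {Γ : Type} [Group Γ] (ρ : Γ →* (A →+* A))
    (he : ∀ g i j, ρ g (e i j) = e i j) : ∃ ρ' : Γ →* (X →+* X),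
      ∀ g, (ρ' g).comp φ = φ.comp (ρ g) ∧ (∀ k, ρ' g (x k) = x k) ∧ ∀ k, ρ' g (y k) = y k := by
  choose r r1 r2 r3 using fun g => h.exists_map h (he g)
  refine ⟨⟨⟨r, h.uq X _ _ ?_ (fun k => r2 1 k) fun k => r3 1 k⟩, fun g g' =>
    h.uq X _ _ ?_ (fun k => ?_) fun k => ?_⟩, fun g => ⟨r1 g, r2 g, r3 g⟩⟩
  · rw [r1, map_one]
    rfl
  · change (r (g * g')).comp φ = ((r g).comp (r g')).comp φ
    rw [r1, map_mul, RingHom.comp_assoc, r1, ← RingHom.comp_assoc, r1]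
    rfl
  · change r (g * g') (x k) = r g (r g' (x k))
    rw [r2, r2, r2]
  · change r (g * g') (y k) = r g (r g' (y k))
    rw [r3, r3, r3]

theorem Prs.congr (h : Prs e φ x y) (ε : X ≃+* X') :
    Prs e (ε.toRingHom.comp φ) (ε ∘ x) (ε ∘ y) := by
  refine ⟨h.eq.map ε.toRingHom, fun Z _ ψ x' y' e => ?_, fun Z _ χ χ' h1 h2 h3 => ?_⟩
  · obtain ⟨w, w1, w2, w3⟩ := h.ex Z ψ x' y' e
    refine ⟨w.comp ε.symm.toRingHom, ?_, fun i => ?_, fun i => ?_⟩
    · rw [← w1]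
      ext r
      simp
    · simp [w2]
    · simp [w3]
  · have := h.uq Z (χ.comp ε.toRingHom) (χ'.comp ε.toRingHom) h1 h2 h3
    refine RingHom.ext fun z => ?_
    obtain ⟨z, rfl⟩ := ε.surjective z
    exact RingHom.congr_fun this z

section One

variable {I : Type} [Fintype I]

/-- One curve. -/
abbrev Prs1 (e : I → A) (φ : A →+* X) (x y : X) : Prop :=
  Prs (J := fun _ : Unit => I) (fun _ => e) φ (fun _ => x) fun _ => y

theorem prs_Y (e : I → A) : Prs1 e (algebraMap A (Yr (ff e))) (xY _) (yY _) := by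
  have h0 : ∀ r, algebraMap A (Yr (ff e)) r = AdjoinRoot.of _ (C r) := fun _ => rfl
  refine ⟨fun _ => ?_, fun Z _ ψ x' y' h => ?_, fun Z _ χ χ' h hx hy => ?_⟩
  · have h := AdjoinRoot.eval₂_root (Polynomial.X ^ 2 - C (ff e) : A[X][X])
    rw [eval₂_sub, eval₂_pow, eval₂_X, eval₂_C, sub_eq_zero] at h
    refine h.trans ?_
    conv_lhs => arg 2; rw [ff]
    rw [map_prod]
    exact Finset.prod_congr rfl fun j _ => map_sub _ _ _
  · have h1 : (Polynomial.X ^ 2 - C (ff e) : A[X][X]).eval₂ (eval₂RingHom ψ (x' ())) (y' ()) = 0 := by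
      rw [eval₂_sub, eval₂_pow, eval₂_X, eval₂_C, h (), ff, map_prod]
      simp
    refine ⟨AdjoinRoot.lift _ _ h1, RingHom.ext fun c => ?_, fun _ => ?_, fun _ => ?_⟩
    · rw [RingHom.comp_apply, h0, AdjoinRoot.lift_of, coe_eval₂RingHom, eval₂_C]
    · rw [xY, AdjoinRoot.lift_of, coe_eval₂RingHom, eval₂_X]
    · rw [yY, AdjoinRoot.lift_root]
  · exact Ideal.Quotient.ringHom_ext (Polynomial.ringHom_ext' (Polynomial.ringHom_ext' h (hx ()))
      (hy ()))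

end One

/-- Splitting off the first factor. -/
theorem Prs.step {r : ℕ} {J : Fin (r + 1) → Type} [∀ i, Fintype (J i)] {e : ∀ i, J i → A}
    {x y : Fin (r + 1) → X} (h : Prs e φ x y)
    {Y X₁ : Type} [CommRing Y] [CommRing X₁] {f : A →+* Y} {x₀ y₀ : Y}
    (h₀ : Prs1 (e 0) f x₀ y₀) {φ₁ : A →+* X₁} {x₁ y₁ : Fin r → X₁}
    (h₁ : Prs (J := fun i : Fin r => J i.succ) (fun i => e i.succ) φ₁ x₁ y₁) :
    ∃ (i : Y →+* X) (j : X₁ →+* X), FA.PO f φ₁ i j ∧ i.comp f = φ ∧ i x₀ = x 0 ∧ i y₀ = y 0 ∧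
      (∀ k, j (x₁ k) = x k.succ) ∧ ∀ k, j (y₁ k) = y k.succ := by
  obtain ⟨i, hi, hix, hiy⟩ := h₀.ex X φ (fun _ => x 0) (fun _ => y 0) fun _ => h.eq 0
  obtain ⟨j, hj, hjx, hjy⟩ := h₁.ex X φ (fun k => x k.succ) (fun k => y k.succ)
    fun k => h.eq k.succ
  refine ⟨i, j, ⟨hi.trans hj.symm, fun Z _ u v e => ?_, fun Z _ w w' e1 e2 => ?_⟩, hi, hix (),
    hiy (), hjx, hjy⟩
  · obtain ⟨w, hw, hwx, hwy⟩ := h.ex Z (u.comp f) (Fin.cons (u x₀) fun k => v (x₁ k))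
      (Fin.cons (u y₀) fun k => v (y₁ k)) (Fin.cases (h₀.eq.map u ()) fun k => by
        rw [e]
        exact h₁.eq.map v k)
    refine ⟨w, h₀.uq Z _ _ ?_ (fun _ => ?_) fun _ => ?_, h₁.uq Z _ _ ?_ (fun k => ?_) fun k => ?_⟩
    · rw [RingHom.comp_assoc, hi, hw]
    · rw [RingHom.comp_apply, hix (), hwx, Fin.cons_zero]
    · rw [RingHom.comp_apply, hiy (), hwy, Fin.cons_zero]
    · rw [RingHom.comp_assoc, hj, hw, e]
    · rw [RingHom.comp_apply, hjx, hwx, Fin.cons_succ]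
    · rw [RingHom.comp_apply, hjy, hwy, Fin.cons_succ]
  · refine h.uq Z w w' ?_ (Fin.cases ?_ fun k => ?_) (Fin.cases ?_ fun k => ?_)
    · rw [← hi, ← RingHom.comp_assoc, e1, RingHom.comp_assoc]
    · rw [← hix ()]
      exact RingHom.congr_fun e1 x₀
    · rw [← hjx k]
      exact RingHom.congr_fun e2 (x₁ k)
    · rw [← hiy ()]
      exact RingHom.congr_fun e1 y₀
    · rw [← hjy k]
      exact RingHom.congr_fun e2 (y₁ k)

end

end Pool.Agent.Lib.MP_16ef92_ag.HY
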