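import Mathlib
import Pool.Agent.Lib.MP_16ef92_ag.HY.TPrs
import Pool.Agent.Lib.MP_16ef92_ag.HY.TKr
import Pool.Agent.Lib.MP_16ef92_ag.HY.LMain
import Pool.Agent.Lib.MP_16ef92_ag.TP.Cls
import Pool.Agent.Lib.MP_16ef92_ag.ND.Kil

set_option autoImplicit false
set_option linter.unusedSectionVars false
set_option linter.unusedVariables false
set_option linter.style.haveILetI false

namespace Pool.Agent.Lib.MP_16ef92_ag.HY

noncomputable section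

open Polynomial AL RS LH TP Module

variable {F : Type} [Field F] [Clos F] [Fintype F] [hq : Fact (Odd (Fintype.card F))]
  (N : F[X]) [hN : Fact (N ≠ 0)] {l : ℕ} [Fact l.Prime]

/-- The roots as elements of a level. -/
abbrev eU {I : Type} (U : OS F) (e : I → F[X]) : I → lev N U.H := fun j => bU N U (cf N (e j))

/-- Classes on the curve `y ^ 2 = ∏ (x - e j)` over a level, attached to the representation `ρ`. -/
def Cls1 [Bg] {I κ : Type} [Fintype I] [Fintype κ] [DecidableEq κ] (e : I → F[X])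
    (ρ : Gam F →* End ℤ_[l] (κ → ℤ_[l])) (m : ℕ) [NeZero (l ^ m)] (ζ : kk F) : Prop :=
  ∃ (U : OS F) (hU : AdU N U)
    (c : (κ → ℤ_[l]) →+ H 1 (cst (Yr (ff (eU N U e))) (ZMod (l ^ m)))),
    Fbr (l ^ m) (algebraMap (lev N U.H) _) (fun ε => c (Pi.single ε 1)) ∧
    ∀ (g : Gam F) (χ : Yr (ff (eU N U e)) →+* Yr (ff (eU N U e))) (q : ℕ),
      (∀ r r' : lev N U.H, (r' : Om F) = g r → χ (algebraMap _ _ r) = algebraMap _ _ r') →
      χ (xY _) = xY _ → χ (yY _) = yY _ → g ζ = (ζ : Om F) ^ q →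
        ∀ v, c (ρ g v) = q • cpb χ (c v)

/-- The classes exist at every level of torsion. -/
def Cls {I κ : Type} [Fintype I] [Fintype κ] [DecidableEq κ] (e : I → F[X])
    (ρ : Gam F →* End ℤ_[l] (κ → ℤ_[l])) : Prop :=
  ∀ [Bg] [CharP OO (ringChar F)] (m : ℕ) [NeZero (l ^ m)] (ζ : kk F),
    IsPrimitiveRoot ζ (l ^ m) → Cls1 N e ρ m ζ

variable {n : ℕ} {J κ : Fin n → Type} [∀ i, Fintype (J i)] [∀ i, Fintype (κ i)]
  [∀ i, DecidableEq (κ i)]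

/-- The tensor product of the factors with index in `S`. -/
abbrev tmS (ρ : ∀ i, Gam F →* End ℤ_[l] (κ i → ℤ_[l])) (S : Finset (Fin n)) {d : ℕ}
    (ε : Fin d ≃ ∀ i : S, κ i) : Gam F →* End ℤ_[l] (Fin d → ℤ_[l]) :=
  krH (B := fun i : S => κ i) ε fun i => ρ i

/-- What the theory of the curves has to supply for the prime `l`. -/
structure Inp (e : ∀ i, J i → F[X]) (ρ : ∀ i, Gam F →* End ℤ_[l] (κ i → ℤ_[l])) : Prop where
  cls : ∀ i, Cls N (e i) (ρ i)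
  cr : ∀ (S : Finset (Fin n)) (d : ℕ) (ε : Fin d ≃ ∀ i : S, κ i),
    Cr (fam N) (GV.rg (tmS ρ S ε))
  tr : ∀ (S : Finset (Fin n)) (d : ℕ) (ε : Fin d ≃ ∀ i : S, κ i), ∃ a, GV.TrR N (tmS ρ S ε) a
  kil : ∀ (S : Finset (Fin n)) (j : ℕ), S.card = 2 * j + 1 + 1 → ∀ (d : ℕ)
    (ε : Fin d ≃ ∀ i : S, κ i), ∃ c, c ≠ 0 ∧ ND.Kil (tmS ρ S ε) c
  sim : ∀ (S : Finset (Fin n)) (j : ℕ), S.card = 2 * j + 1 → ∀ (d : ℕ)
    (ε : Fin d ≃ ∀ i : S, κ i) (s : Gam F), Fr s (Fintype.card F) → ∀ u : ℤ_[l],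
    u * (Fintype.card F : ℤ_[l]) ^ j = 1 → ∀ hC : Cr (fam N) (GV.rg (tmS ρ S ε)),
      Sim (cob hC) (u • GV.Ps N (tmS ρ S ε) s)

end

end Pool.Agent.Lib.MP_16ef92_ag.HY
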