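import Mathlib
import Pool.Agent.Lib.MP_16ef92_ag.HY.TIf
import Pool.Agent.Lib.MP_16ef92_ag.HY.BFbr

set_option autoImplicit false
set_option linter.unusedSectionVars false
set_option linter.unusedVariables false
set_option linter.style.haveILetI false

namespace Pool.Agent.Lib.MP_16ef92_ag.HY

noncomputable section

open Polynomial AL RS LH TP Pool.Agent.Lib.MP_6adaea_nt

variable {F : Type} [Field F] [Clos F] [Fintype F] [hq : Fact (Odd (Fintype.card F))]
  {N : F[X]} [hN : Fact (N ≠ 0)] {U : OS F} {I : Type} [Fintype I] {a : I → F[X]}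

theorem lev_ft [Bg] (hU : AdU N U) : (((bU N U).comp (hB N)).comp C).FiniteType :=
  (van_et_ft (et_comp hB_etale (bU_etale hU))).comp (van_ft _)

theorem lev_jac [Bg] (hU : AdU N U) : IsJacobsonRing (lev N U.H) := by
  letI := (((bU N U).comp (hB N)).comp C).toAlgebra
  have : Algebra.FiniteType (kk F) (lev N U.H) := lev_ft hU
  exact isJacobsonRing_of_finiteType (A := kk F)

theorem lev_int (U : OS F) : ((bU N U).comp (i0 N)).IsIntegral := fun z =>
  RingHom.IsIntegralElem.of_map (g := (lev N U.H).subtype) Subtype.val_injective z.2.1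

theorem lev_inj (U : OS F) : Function.Injective ((bU N U).comp (i0 N)) := by
  refine Function.Injective.of_comp (f := (lev N U.H).subtype) ?_
  refine IsLocalization.injective_of_map_algebraMap_zero (M := Submonoid.powers N) _
    (emb N) fun r h => ?_
  rw [ta_emb] at h
  rw [(map_eq_zero_iff _ ta_inj).1 h, map_zero]

theorem lev_ded [Bg] (hU : AdU N U) : IsDedekindDomain (lev N U.H) := by
  have h1 : IsNoetherianRing (lev N U.H) := by
    letI := (((bU N U).comp (hB N)).comp C).toAlgebra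
    have : Algebra.FiniteType (kk F) (lev N U.H) := lev_ft hU
    exact Algebra.FiniteType.isNoetherianRing (kk F) _
  have hle := powers_le_nonZeroDivisors_of_noZeroDivisors hN.out
  have : IsDomain (Localization.Away N) := IsLocalization.isDomain_localization hle
  have : IsDedekindDomain (Localization.Away N) := IsLocalization.isDedekindDomain F[X] hle _
  letI := ((bU N U).comp (i0 N)).toAlgebra
  have : Algebra.IsIntegral (Localization.Away N) (lev N U.H) := ⟨lev_int U⟩
  have : FaithfulSMul (Localization.Away N) (lev N U.H) :=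
    (faithfulSMul_iff_algebraMap_injective _ _).2 (lev_inj U)
  have h2 : Ring.DimensionLEOne (lev N U.H) :=
    Ring.DimensionLEOne.of_isIntegral (Localization.Away N) _
  have h3 : IsDedekindRing (lev N U.H) := { }
  infer_instance

theorem lev_nf (U : OS F) : ¬IsField (lev N U.H) := fun hf => by
  have hle := powers_le_nonZeroDivisors_of_noZeroDivisors hN.out
  have : IsDomain (Localization.Away N) := IsLocalization.isDomain_localization hle
  letI := ((bU N U).comp (i0 N)).toAlgebra
  have : Algebra.IsIntegral (Localization.Away N) (lev N U.H) := ⟨lev_int U⟩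
  have h2 := (Algebra.IsIntegral.isField_iff_isField (lev_inj U)).2 hf
  have hi := IsLocalization.injective (Localization.Away N) hle
  have h3 : (X * N + 1 : F[X]) ≠ 0 := fun e => by simpa using congrArg (eval 0) e
  obtain ⟨b, hb⟩ := h2.mul_inv_cancel ((map_ne_zero_iff _ hi).2 h3)
  obtain ⟨j, hj⟩ := (IsLocalization.Away.algebraMap_isUnit_iff N).1 (IsUnit.of_mul_eq_one _ hb)
  have h4 : IsCoprime (X * N + 1) (N ^ j) := IsCoprime.pow_right ⟨1, -X, by ring⟩
  have h5 := natDegree_eq_zero_of_isUnit (h4.isUnit_of_dvd hj)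
  rw [← C_1, natDegree_add_C, natDegree_X_mul hN.out] at h5
  exact Nat.succ_ne_zero _ h5

theorem eU_val (U : OS F) (i : I) : (eU N U a i : Om F) = ev (a i) :=
  (cf_val (a i)).trans (twa_alg _)

theorem lev_unit (U : OS F) {P : F[X]} (h : P ∣ N) : IsUnit (bU N U (cf N P)) :=
  ((IsLocalization.Away.isUnit_of_dvd (S := Localization.Away N) N h).map (i0 N)).map _

theorem eU_unit (U : OS F) (h : ∀ i k, i ≠ k → a i - a k ∣ N) (i k : I) (hik : i ≠ k) :
    IsUnit (eU N U a i - eU N U a k) := by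
  simpa only [eU, cf, map_sub] using lev_unit U (h i k hik)

theorem lev_two (U : OS F) : IsUnit (2 : lev N U.H) := by
  simpa only [map_ofNat] using (two_neF (F := F)).isUnit.map
    (((bU N U).comp ((i0 N).comp (algebraMap F[X] _))).comp C)

theorem okF_lev (U : OS F) (ho : Odd (Fintype.card I)) (h : ∀ i k, i ≠ k → a i - a k ∣ N) :
    OkF (ff (eU N U a)) := okF_prod ho (eU_unit U h) (lev_two U)

variable (N U) in
/-- The level in the algebraic closure. -/
def iU : lev N U.H →+* Ob F := ob.comp (lev N U.H).subtype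

theorem iU_apply (z : lev N U.H) : iU N U z = ob (z : Om F) := rfl

theorem iU_inj : Function.Injective (iU N U) := fun _ _ h =>
  Subtype.ext ((algebraMap (Om F) (Ob F)).injective h)

theorem iU_eU (i : I) : ob (ev (a i)) = iU N U (eU N U a i) := congrArg ob (eU_val U i).symm

variable {K : Type} [Field K] [Algebra (Ob F) K] {e : I → Ob F} {x y : K}

theorem exists_ym_lev (U : OS F) (he : ∀ i, e i = ob (ev (a i))) (H : HE e x y) :
    ∃ φ : Yr (ff (eU N U a)) →+* K, YM e x y (iU N U) φ :=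
  H.exists_ym ((ff_map _ _).trans (congrArg ff (funext fun i => ((he i).trans (iU_eU i)).symm)))

variable [IsFF (Ob F) K] {l m : ℕ} [Fact l.Prime] {φ : Yr (ff (eU N U a)) →+* K}

/-- The local condition over a level. -/
theorem pw_lev [Bg] (hU : AdU N U) (hl : (l : F) ≠ 0) (h : ∀ i k, i ≠ k → a i - a k ∣ N)
    (H : HE e x y) (hφ : YM e x y (iU N U) φ) {g u d : Yr (ff (eU N U a))} (g0 : g ≠ 0)
    (hg : ∀ v : Place (Ob F) K, v ≠ H.inf → ((l ^ m : ℕ) : ℤ) ∣ v.ord (φ g))
    (hd : d ≠ 0) (e0 : g * cY _ g * d ^ l ^ (m + 1) = u ^ l ^ (m + 1) ∨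
      g * cY _ g * d ^ l ^ (m + 1) = -u ^ l ^ (m + 1))
    (q : Ideal (Yr (ff (eU N U a)))) (hq : q.IsPrime) :
    ∃ r s z, r ∉ q ∧ s ∉ q ∧ g * r = s * z ^ l ^ m := by
  have := lev_ded hU
  have := lev_jac hU
  exact hφ.pw (lev_nf U) H (okF_lev U H.odd h) iU_inj
    (by rw [Nat.cast_pow]; exact pow_ne_zero _ (ob_cast hl).1) (dvd_of_two Fact.out m) g0 hg hd
    e0 q hq

variable [Bg] [CharP OO (ringChar F)] [NeZero (l ^ m)]

theorem good_lev (U : OS F) : Good (lev N U.H) := good_sub (ringChar F) _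

theorem prim_lev (U : OS F) {ζ : kk F} (hζ : IsPrimitiveRoot ζ (l ^ m)) :
    CV.Prim (l ^ m) (bU N U (kB N ζ)) := (CV.prim_field hζ).map ((bU N U).comp (kB N))

/-- The family over a level. -/
theorem fbr_lev (hl : (l : F) ≠ 0) (h : ∀ i k, i ≠ k → a i - a k ∣ N)
    (he : ∀ i, e i = ob (ev (a i))) (H : HE e x y) (hφ : YM e x y (iU N U) φ) {ζ : kk F}
    (hζ : IsPrimitiveRoot ζ (l ^ m)) {J : Type} [Fintype J] {G : J → Yr (ff (eU N U a))}
    {B : J → AL.Dv (Ob F) K} (hB : Bas (l ^ m) fun i => cl (B i))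
    (hG : ∀ i, Adm (l ^ m) (B i) (φ (G i)))
    (hP : ∀ i (q : Ideal (Yr (ff (eU N U a)))), q.IsPrime →
      ∃ r s z, r ∉ q ∧ s ∉ q ∧ G i * r = s * z ^ l ^ m)
    {c : J → RS.H 1 (cst (Yr (ff (eU N U a))) (ZMod (l ^ m)))}
    (hc : ∀ i, CV.IsKum (l ^ m) (algebraMap (lev N U.H) _ (bU N U (kB N ζ))) (G i) (c i)) :
    Fbr (l ^ m) (algebraMap (lev N U.H) (Yr (ff (eU N U a)))) c := by
  have : Fact (ringChar F).Prime := ⟨CharP.char_is_prime F _⟩
  exact fbr_hy (ringChar F) rfl (fun e0 => hl ((CharP.cast_eq_zero_iff F (ringChar F) l).2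
    ((CharP.cast_eq_zero_iff OO (ringChar F) l).1 e0))) (ob_cast hl).1 (good_lev U) (prim_lev U hζ)
    (eU_unit U h) (lev_two U) iU_inj (fun i => (he i).trans (iU_eU i)) H hφ hB hG hP hc

end

end Pool.Agent.Lib.MP_16ef92_ag.HY
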