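import Mathlib
import Pool.Agent.Lib.MP_16ef92_ag.HY.SyP
import Pool.Agent.Lib.MP_e97e2b_nt.Weil

set_option autoImplicit false
set_option linter.unusedSectionVars false
set_option linter.unusedVariables false

namespace Pool.Agent.Lib.MP_16ef92_ag.HY

open Polynomial Module AL Pool.Agent.Lib.MP_6adaea_nt
open scoped Classical

noncomputable section

/-- `IsAlgClosed.ringEquiv_of_equiv_of_charZero` or `IsAlgClosed.lift` over a transcendence
basis. -/
theorem exists_emb2 : ∃ j : ℤ_[2] →+* ℂ, Function.Injective j := by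
  have h1 : Cardinal.mk ℚ_[2] ≤ Cardinal.continuum := by
    refine Cardinal.mk_quotient_le.trans ((Cardinal.mk_subtype_le _).trans ?_)
    simp
  have h2 : Cardinal.continuum ≤ Cardinal.mk ℚ_[2] :=
    continuum_le_cardinal_of_nontriviallyNormedField _
  have h3 : Cardinal.mk (AlgebraicClosure ℚ_[2]) = Cardinal.continuum := le_antisymm
    ((Algebra.IsAlgebraic.cardinalMk_le_max ℚ_[2] _).trans
      (max_le h1 Cardinal.aleph0_le_continuum))
    (h2.trans (Cardinal.mk_le_of_injective (algebraMap ℚ_[2] (AlgebraicClosure ℚ_[2])).injective))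
  obtain ⟨φ⟩ : Nonempty (ℂ ≃+* AlgebraicClosure ℚ_[2]) :=
    IsAlgClosed.ringEquiv_of_equiv_of_charZero
      (by rw [Cardinal.mk_complex]; exact Cardinal.aleph0_lt_continuum)
      (Cardinal.eq.1 (Cardinal.mk_complex.trans h3.symm))
  exact ⟨(φ.symm.toRingHom.comp (algebraMap ℚ_[2] _)).comp PadicInt.Coe.ringHom,
    (φ.symm.toRingHom.comp (algebraMap ℚ_[2] _)).injective.comp Subtype.val_injective⟩

/-- All complex roots of the monic polynomial `P` have norm `Q`. -/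
def WtP (j : ℤ_[2] →+* ℂ) (P : ℤ_[2][X]) (Q : ℕ) : Prop :=
  P.Monic ∧ ∀ z : ℂ, (P.map j).IsRoot z → Complex.normSq z = Q

theorem rh_lim {a b C R : ℝ} (hR : 0 ≤ R) (hb : 0 < b) (h : ∀ m, 0 < m → a ^ m * b ≤ C * R ^ m) :
    a ≤ R := by
  by_contra! h1
  have h2 : 0 < a := hR.trans_lt h1
  have h3 := (tendsto_pow_atTop_nhds_zero_of_lt_one (div_nonneg hR h2.le)
    ((div_lt_one h2).2 h1)).const_mul C
  rw [mul_zero] at h3
  obtain ⟨m, h4, h5⟩ := ((h3.eventually (gt_mem_nhds hb)).and (Filter.eventually_gt_atTop 0)).exists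
  rw [div_pow, ← mul_div_assoc, div_lt_iff₀ (pow_pos h2 m), mul_comm b] at h4
  exact h4.not_ge (h m h5)

theorem rh_end {V : Type} [AddCommGroup V] [Module ℂ V] [FiniteDimensional ℂ V] (f : End ℂ V)
    {C R : ℝ} (hR : 0 ≤ R) (h : ∀ m, 0 < m → ‖LinearMap.trace ℂ V (f ^ m)‖ ≤ C * R ^ m) {z : ℂ}
    (hz : f.charpoly.IsRoot z) : ‖z‖ ≤ R := by
  obtain ⟨q, h1, h2⟩ := exists_eq_pow_rootMultiplicity_mul_and_not_dvd _ f.charpoly_monic.ne_zero z
  obtain ⟨μ, hμ⟩ := Nat.exists_eq_succ_of_ne_zero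
    ((rootMultiplicity_pos f.charpoly_monic.ne_zero).2 hz).ne'
  rw [hμ, Nat.succ_eq_add_one] at h1
  obtain ⟨a, b, h3⟩ : IsCoprime ((X - Polynomial.C z) ^ (μ + 1)) q :=
    ((irreducible_X_sub_C z).coprime_iff_not_dvd.2 h2).pow_left
  have h0 : ∀ u : ℂ[X], aeval f (u * f.charpoly) = 0 := fun u => by
    rw [map_mul, f.aeval_self_charpoly, mul_zero]
  have h4 : IsIdempotentElem (aeval f (b * q)) := by
    rw [IsIdempotentElem, ← map_mul, eq_comm, ← sub_eq_zero, ← map_sub, ← h0 (a * b), h1]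
    refine congrArg _ ?_
    linear_combination (-(b * q)) * h3
  have h5 : aeval f (b * q) ≠ 0 := fun e0 => by
    obtain ⟨w, hw⟩ := ((End.hasEigenvalue_iff_isRoot_charpoly f z).2 hz).exists_hasEigenvector
    have h6 := End.aeval_apply_of_hasEigenvector (p := b * q) hw
    have h7 := congrArg (eval z) h3
    simp only [eval_add, eval_mul, eval_pow, eval_sub, eval_X, eval_C, sub_self,
      zero_pow μ.succ_ne_zero, mul_zero, zero_add, eval_one] at h7
    rw [e0, eval_mul, h7, one_smul] at h6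
    exact hw.2 h6.symm
  have h6 := mt (LinearMap.IsIdempotentElem.trace_eq_zero_iff h4).1 h5
  have h7 : ∀ m, LinearMap.trace ℂ V (aeval f (X ^ m * (b * q))) =
      z ^ m * LinearMap.trace ℂ V (aeval f (b * q)) := fun m => by
    obtain ⟨u, hu⟩ := sub_dvd_pow_sub_pow (X : ℂ[X]) (Polynomial.C z) m
    have h8 : IsNilpotent (aeval f ((X ^ m - Polynomial.C z ^ m) * (b * q))) := ⟨μ + 1, by
      rw [← map_pow, ← h0 ((u * b) ^ (μ + 1) * q ^ μ), h1, hu]
      refine congrArg _ ?_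
      generalize X - Polynomial.C z = t
      ring⟩
    have h9 := (LinearMap.isNilpotent_trace_of_isNilpotent h8).eq_zero
    rwa [sub_mul, ← map_pow, C_mul', map_sub, map_sub, map_smul, map_smul, sub_eq_zero,
      smul_eq_mul] at h9
  refine rh_lim (C := ∑ i ∈ Finset.range ((b * q).natDegree + 1), ‖(b * q).coeff i‖ * (C * R ^ i))
    hR (norm_pos_iff.2 h6) fun m hm => ?_
  rw [← norm_pow, ← norm_mul, ← h7, map_mul, map_pow, aeval_X, aeval_eq_sum_range, Finset.mul_sum,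
    map_sum, Finset.sum_mul]
  refine norm_sum_le_of_le _ fun i _ => ?_
  rw [mul_smul_comm, map_smul, norm_smul, ← pow_add, mul_assoc, mul_assoc, ← pow_add, add_comm i]
  exact mul_le_mul_of_nonneg_left (h _ (by omega)) (norm_nonneg _)

/-- Eigenvalues are bounded if the traces of the powers are. -/
theorem rh_pow {κ : Type} [Fintype κ] [DecidableEq κ] (M : Matrix κ κ ℂ) {C R : ℝ} (hR : 0 ≤ R)
    (h : ∀ m, 0 < m → ‖(M ^ m).trace‖ ≤ C * R ^ m) {z : ℂ} (hz : M.charpoly.IsRoot z) :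
    ‖z‖ ≤ R := by
  refine rh_end (C := C) (Matrix.toLin' M) hR (fun m hm => ?_) (by rwa [Matrix.charpoly_toLin'])
  rw [← Matrix.toLin'_pow, Matrix.trace_toLin'_eq]
  exact h m hm

/-- The number of points over the field with `Q` elements inside `k`; `MP_e97e2b_nt.weil`. -/
theorem rh_count (n : ℕ) : ∃ C : ℝ, ∀ (k I : Type) [Field k] [IsAlgClosed k] [Fintype I]
    (e : I → k) (p r : ℕ) [Fact p.Prime] [CharP k p], (2 : k) ≠ 0 → Fintype.card I = n + 1 →
    Function.Injective e → 0 < r → (∀ i, e i ^ p ^ r = e i) →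
    |(({P : k × k | P.2 ^ 2 = (ff e).eval P.1 ∧ P.1 ^ p ^ r = P.1 ∧ P.2 ^ p ^ r = P.2}.ncard : ℝ)) -
      (p : ℝ) ^ r| ≤ C * Real.sqrt ((p : ℝ) ^ r) := by
  obtain ⟨C, hC⟩ := MP_e97e2b_nt.weil (n + 1)
  refine ⟨C, fun k I _ _ _ e p r _ _ h2 hI hi hr he => ?_⟩
  let F := GaloisField p r
  have := Fintype.ofFinite F
  have hF : Fintype.card F = p ^ r := by
    rw [← Nat.card_eq_fintype_card]
    exact GaloisField.card p r hr.ne'
  let := ZMod.algebra k p
  let φ : F →+* k := (IsAlgClosed.lift : F →ₐ[ZMod p] k)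
  have h3 : ∀ a : F, φ a ^ p ^ r = φ a := fun a => by rw [← map_pow, ← hF, FiniteField.pow_card]
  have h4 : ∀ c : k, c ^ p ^ r = c → ∃ a, φ a = c := fun c hc => by
    have h5 : 1 < p ^ r := Nat.one_lt_pow hr.ne' (Fact.out : p.Prime).one_lt
    have h6 := FiniteField.X_pow_card_sub_X_ne_zero k h5
    have h7 : ∀ c : k, c ∈ (X ^ p ^ r - X : k[X]).roots.toFinset ↔ c ^ p ^ r = c := fun c => by
      simp [h6, sub_eq_zero]
    have h8 : Finset.univ.image φ = (X ^ p ^ r - X : k[X]).roots.toFinset :=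
      Finset.eq_of_subset_of_card_le (fun c hc => by
        obtain ⟨a, -, rfl⟩ := Finset.mem_image.1 hc
        exact (h7 _).2 (h3 a)) (by
        rw [Finset.card_image_of_injective _ φ.injective, Finset.card_univ, hF]
        exact (Multiset.toFinset_card_le _).trans ((card_roots' _).trans
          (FiniteField.X_pow_card_sub_X_natDegree_eq k h5).le))
    have h9 := (h7 c).2 hc
    rw [← h8] at h9
    simpa using h9
  choose e' he' using fun i => h4 _ (he i)
  let σ := (Fintype.equivFinOfCardEq hI).symm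
  have h5 : ringChar F ≠ 2 := fun e0 => h2 (by
    have := congrArg φ ((ringChar.spec F 2).2 (e0 ▸ dvd_rfl))
    rwa [map_natCast, map_zero, Nat.cast_ofNat] at this)
  have h6 := hC F h5 (fun j => -e' (σ j)) 0 fun j hj e0 =>
    hj (σ.injective (hi (by rw [← he', neg_injective e0, he'])))
  have h7 : ∀ a : F, φ (∏ j, (a + -e' (σ j))) = (ff e).eval (φ a) := fun a => by
    rw [ff_eval, map_prod, ← σ.prod_comp]
    simp [he', sub_eq_add_neg]
  have h8 : {P : k × k | P.2 ^ 2 = (ff e).eval P.1 ∧ P.1 ^ p ^ r = P.1 ∧ P.2 ^ p ^ r = P.2} =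
      Prod.map φ φ '' (Finset.univ.filter fun P : F × F => P.2 ^ 2 = ∏ j, (P.1 + -e' (σ j))) := by
    ext ⟨a, b⟩
    constructor
    · rintro ⟨k1, k2, k3⟩
      obtain ⟨a, rfl⟩ := h4 a k2
      obtain ⟨b, rfl⟩ := h4 b k3
      refine ⟨(a, b), ?_, rfl⟩
      rw [Finset.mem_coe, Finset.mem_filter]
      exact ⟨Finset.mem_univ _, φ.injective (by rw [h7, map_pow]; exact k1)⟩
    · rintro ⟨⟨a, b⟩, k1, k2⟩
      obtain ⟨rfl, rfl⟩ := Prod.ext_iff.1 k2
      rw [Finset.mem_coe, Finset.mem_filter] at k1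
      exact ⟨(map_pow φ b 2).symm.trans ((congrArg φ k1.2).trans (h7 a)), h3 a, h3 b⟩
  have h9 : (((Finset.univ.filter fun P : F × F => P.2 ^ 2 = ∏ j, (P.1 + -e' (σ j))).card : ℤ)) =
      ∑ a : F, (quadraticChar F (∏ j, (a + -e' (σ j))) + 1) := by
    rw [Finset.card_filter, Fintype.sum_prod_type, Nat.cast_sum]
    refine Finset.sum_congr rfl fun a _ => ?_
    rw [← quadraticChar_card_sqrts h5, Set.toFinset_ofPred, Finset.card_filter]
  rw [h8, Set.ncard_image_of_injective _ (φ.injective.prodMap φ.injective), Set.ncard_coe_finset,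
    ← Int.cast_natCast, h9, Finset.sum_add_distrib]
  rw [hF] at h6
  simpa [hF] using h6

theorem rh_dual {g : ℕ} {A : Matrix (Kp g) (Kp g) ℂ} {Q : ℂ} (hQ : Q ≠ 0)
    (h : ∀ a b, og (A.mulVec a) (A.mulVec b) = Q * og a b) {z : ℂ} (hz : A.charpoly.IsRoot z) :
    z ≠ 0 ∧ A.charpoly.IsRoot (Q / z) := by
  rw [IsRoot.def, Matrix.eval_charpoly, ← Matrix.exists_mulVec_eq_zero_iff] at hz
  obtain ⟨w, h1, h2⟩ := hz
  have h0 : ∀ (t : ℂ) (c : Kp g → ℂ), (Matrix.scalar _ t - A).mulVec c = t • c - A.mulVec c :=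
    fun t c => by
    rw [Matrix.sub_mulVec]
    congr 1
    ext i
    simp [Matrix.mulVec_diagonal]
  rw [h0, sub_eq_zero] at h2
  have h3 : ∀ c, z * og w (A.mulVec c) = Q * og w c := fun c => by rw [← h, ← h2, og_smul_left]
  have h4 : z ≠ 0 := fun e0 => h1 (og_nd fun c => by simpa [e0, hQ] using h3 c)
  refine ⟨h4, by_contra fun h5 => h1 (og_nd fun b => ?_)⟩
  rw [IsRoot.def, Matrix.eval_charpoly] at h5
  obtain ⟨c, rfl⟩ := Matrix.mulVec_surjective_iff_isUnit.2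
    ((Matrix.isUnit_iff_isUnit_det _).2 (Ne.isUnit h5)) b
  rw [h0, og_sub_right, og_smul_right, div_mul_eq_mul_div, ← h3, mul_div_cancel_left₀ _ h4, sub_self]

theorem rh_ext {g : ℕ} (j : ℤ_[2] →+* ℂ) {M : End ℤ_[2] (Kp g → ℤ_[2])} {δ : ℤ_[2]}
    (h : ∀ a b, og (M a) (M b) = δ * og a b) (a b : Kp g → ℂ) :
    og (((LinearMap.toMatrix' M).map j).mulVec a) (((LinearMap.toMatrix' M).map j).mulVec b) =
      j δ * og a b := by
  set A := (LinearMap.toMatrix' M).map j with hA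
  have h1 : ∀ i, A.mulVec (Pi.single i 1) = fun t => j (M (Pi.single i 1) t) := fun i => by
    ext t
    simp [hA]
  have h2 : ∀ i : Kp g, (Pi.single i 1 : Kp g → ℂ) =
      fun t => j ((Pi.single i 1 : Kp g → ℤ_[2]) t) := fun i => by
    ext t
    simp [Pi.single_apply, apply_ite j]
  have h3 : ogL.compl₁₂ A.mulVecLin A.mulVecLin = j δ • ogL :=
    LinearMap.ext_basis (Pi.basisFun ℂ _) (Pi.basisFun ℂ _) fun i l => by
      simp only [LinearMap.compl₁₂_apply, Pi.basisFun_apply, Matrix.mulVecLin_apply, ogL_apply,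
        LinearMap.smul_apply, smul_eq_mul]
      rw [h1, h1, og_map, h, map_mul, h2, h2, og_map]
  exact LinearMap.congr_fun₂ h3 a b

variable {k K I : Type} [Field k] [Field K] [Algebra k K] [Fintype I] {e : I → k} {x y : K}
  [IsAlgClosed k] [IsFF k K] [PosChar k] {g : ℕ}

theorem rh_sa (s : SA k K) (hx : s.γ x = x) (hy : s.γ y = y) (he : ∀ i, s.a (e i) = e i) {p r : ℕ}
    (hs : ∀ c, s.a c = c ^ p ^ r) {ev : (Kp g → ℤ_[2]) →+ ℕ → Pic k K}
    {M : End ℤ_[2] (Kp g → ℤ_[2])} (hM : ∀ a n, ev (M a) n = s.pic (ev a n)) (m : ℕ) :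
    (s ^ m).γ x = x ∧ (s ^ m).γ y = y ∧ (∀ i, (s ^ m).a (e i) = e i) ∧
      (∀ c, (s ^ m).a c = c ^ p ^ (r * m)) ∧ ∀ a n, ev ((M ^ m) a) n = (s ^ m).pic (ev a n) := by
  induction m with
  | zero => simp [one_γ, one_a, one_pic]
  | succ m ih =>
    obtain ⟨h1, h2, h3, h4, h5⟩ := ih
    simp only [pow_succ' s, pow_succ' M, mul_γ, mul_a, mul_pic, End.mul_apply, h1, h2, h3, hx, hy,
      he, hM, h5, implies_true, and_true, true_and]
    intro c
    rw [h4, hs, ← pow_mul, ← pow_add, Nat.mul_succ]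

/-- The Riemann hypothesis.  Pass to symplectic coordinates (`exists_syp`, `TA.exists_map` for the
identity, `TA.bij`); `P` is the characteristic polynomial.  The traces of the powers are
`TA.trace_frob` for `s ^ m`, `HE.ncard_fix`, `rh_count`, so `‖z‖ ≤ √Q` by `rh_pow`; by `SyP.sim` the
number `Q / z` is an eigenvalue of the transpose. -/
theorem HE.rh (h : HE e x y) (hg : Fintype.card I = 2 * g + 1) {j : ℤ_[2] →+* ℂ}
    (hj : Function.Injective j) (s : SA k K) (hx : s.γ x = x) (hy : s.γ y = y)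
    (he : ∀ i, s.a (e i) = e i) (p r : ℕ) [Fact p.Prime] [CharP k p] (hr : 0 < r)
    (hs : ∀ c, s.a c = c ^ p ^ r) {ev : (Kp g → ℤ_[2]) →+ ℕ → Pic k K} (hT : TA 2 ev)
    {M : End ℤ_[2] (Kp g → ℤ_[2])} (hM : ∀ a n, ev (M a) n = s.pic (ev a n)) :
    ∃ P, WtP j P (p ^ r) ∧ aeval M P = 0 := by
  obtain ⟨ζ, hζ⟩ := exists_zt h.two
  obtain ⟨ev₀, hT₀, hS⟩ := h.exists_syp hg hζ
  obtain ⟨M₀, hM₀⟩ := hT₀.exists_map hT₀ s.pic
  obtain ⟨φ, hφ⟩ := hT₀.exists_map hT (AddMonoidHom.id _)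
  have h1 := hT₀.bij hT rfl (f := AddMonoidHom.id _) (fun P _ e0 => e0) hφ
  have h2 : M = (LinearEquiv.ofBijective φ h1).conj M₀ := by
    refine LinearMap.ext fun a => ?_
    obtain ⟨a, rfl⟩ := (LinearEquiv.ofBijective φ h1).surjective a
    rw [LinearEquiv.conj_apply_apply, LinearEquiv.symm_apply_apply]
    exact hT.ext fun n => by
      rw [hM, LinearEquiv.ofBijective_apply, LinearEquiv.ofBijective_apply, hφ, hφ]
      exact (hM₀ a n).symm
  refine ⟨M.charpoly, ⟨M.charpoly_monic, fun z hz => ?_⟩, M.aeval_self_charpoly⟩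
  rw [h2, LinearEquiv.charpoly_conj, ← LinearMap.charpoly_toMatrix M₀ (Pi.basisFun _ _),
    ← Matrix.charpoly_map, LinearMap.toMatrix_eq_toMatrix'] at hz
  have hp : (0 : ℝ) < p := Nat.cast_pos.2 (Fact.out : p.Prime).pos
  obtain ⟨C, hC⟩ := rh_count (2 * g)
  have h3 : ∀ z, ((LinearMap.toMatrix' M₀).map j).charpoly.IsRoot z →
      ‖z‖ ≤ Real.sqrt ((p : ℝ) ^ r) := fun z hz => by
    refine rh_pow (C := C) _ (Real.sqrt_nonneg _) (fun m hm => ?_) hz
    obtain ⟨k1, k2, k3, k4, k5⟩ := rh_sa s hx hy he hs hM₀ m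
    obtain ⟨k6, k7⟩ := hT₀.trace_frob (by simpa using h.two) _ k5 p (r * m) (Nat.mul_pos hr hm) k4
    have k8 := hC k I e p (r * m) h.two hg h.inj (Nat.mul_pos hr hm) fun i => by rw [← k4, k3]
    rw [h.ncard_fix _ k1 k2 k6] at k7
    simp only [k4] at k7
    have k9 : Real.sqrt ((p : ℝ) ^ r) ^ m = Real.sqrt ((p : ℝ) ^ (r * m)) :=
      (Real.sqrt_eq_iff_mul_self_eq (by positivity) (by positivity)).2 (by
        rw [← mul_pow, Real.mul_self_sqrt (by positivity), pow_mul]) |>.symm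
    rw [← Matrix.map_pow, ← AddMonoidHom.map_trace, ← LinearMap.toMatrix_eq_toMatrix',
      LinearMap.toMatrix_pow, ← LinearMap.trace_eq_matrix_trace, k7, map_intCast,
      Complex.norm_intCast, k9]
    rw [abs_sub_comm] at k8
    convert k8 using 2
    push_cast
    ring
  have h4 := hS.sim hT₀ hζ s hM₀ (δ := ((p ^ r : ℕ) : ℤ_[2])) fun n => by
    rw [hs, map_natCast, ZMod.val_natCast, ← pow_eq_pow_mod _ (hζ.prim n).pow_eq_one]
  obtain ⟨h5, h6⟩ := rh_dual (Q := ((p ^ r : ℕ) : ℂ))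
    (Nat.cast_ne_zero.2 (pow_ne_zero _ (Fact.out : p.Prime).ne_zero))
    (fun a b => by rw [rh_ext j h4, map_natCast]) hz
  have h7 := h3 _ h6
  have h8 := h3 _ hz
  have h9 := Real.mul_self_sqrt (pow_pos hp r).le
  have h10 := Real.sqrt_pos.2 (pow_pos hp r)
  rw [norm_div, Complex.norm_natCast, div_le_iff₀ (norm_pos_iff.2 h5), Nat.cast_pow] at h7
  rw [Complex.normSq_eq_norm_sq, Nat.cast_pow, pow_two,
    le_antisymm h8 (le_of_mul_le_mul_left (h9.le.trans h7) h10), h9]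

/-- If `M ^ 2 w = c ^ 2 • w` for an integer `c` of the wrong weight, then `w = 0`: `P (X) P (-X)` is a
polynomial in `X ^ 2`, and `P (c) P (-c) ≠ 0`. -/
theorem WtP.sq {V : Type} [AddCommGroup V] [Module ℤ_[2] V] [Module.IsTorsionFree ℤ_[2] V]
    {j : ℤ_[2] →+* ℂ} {P : ℤ_[2][X]} {Q : ℕ} (h : WtP j P Q) {M : End ℤ_[2] V}
    (hM : aeval M P = 0) {c : ℕ} (hc : c ^ 2 ≠ Q) {w : V}
    (hw : M (M w) = (c : ℤ_[2]) ^ 2 • w) : w = 0 := by
  have key : ∀ (a : ℤ) (u : V), a ^ 2 = (c : ℤ) ^ 2 → M u = (a : ℤ_[2]) • u → u = 0 :=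
    fun a u ha hu => by
    have h1 := End.aeval_apply_of_mem_apply_eq_smul (p := P) hu
    rw [hM, LinearMap.zero_apply, eq_comm, smul_eq_zero] at h1
    refine h1.resolve_left fun h2 => hc ?_
    have h3 := h.2 a (by
      rw [IsRoot.def, eval_map, ← map_intCast j, eval₂_at_apply, h2, map_zero])
    rw [Complex.normSq_intCast, ← pow_two] at h3
    have h4 : a ^ 2 = (Q : ℤ) := by exact_mod_cast h3
    exact_mod_cast ha.symm.trans h4
  have h1 := key c (M w + (c : ℤ_[2]) • w) rfl (by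
    rw [map_add, map_smul, hw, Int.cast_natCast, smul_add, smul_smul, pow_two, add_comm])
  exact key (-c) w (neg_sq _) (by
    rw [Int.cast_neg, Int.cast_natCast, neg_smul]
    exact eq_neg_of_add_eq_zero_left h1)

end

end Pool.Agent.Lib.MP_16ef92_ag.HY
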