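import Mathlib
import Pool.Agent.Lib.MP_16ef92_ag.HY.RH
import Pool.Agent.Lib.MP_16ef92_ag.ND.Rt

set_option autoImplicit false
set_option linter.unusedSectionVars false
set_option linter.unusedVariables false

namespace Pool.Agent.Lib.MP_16ef92_ag.HY

open Polynomial Module

noncomputable section

/-- All complex roots of the monic polynomial `P` have norm `Q` or `Q ^ 2`. -/
def Wt2 (j : ℤ_[2] →+* ℂ) (P : ℤ_[2][X]) (Q : ℕ) : Prop :=
  P.Monic ∧ ∀ z : ℂ, (P.map j).IsRoot z → Complex.normSq z = Q ∨ Complex.normSq z = Q ^ 2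

theorem WtP.wt2 {j : ℤ_[2] →+* ℂ} {P : ℤ_[2][X]} {Q : ℕ} (h : WtP j P Q) {η : ℤ_[2]}
    (hη : η = 1 ∨ η = -1) : Wt2 j ((X - C (η * Q)) * P) Q := by
  refine ⟨(monic_X_sub_C _).mul h.1, fun z hz => ?_⟩
  rw [Polynomial.map_mul, IsRoot, eval_mul, mul_eq_zero] at hz
  rcases hz with hz | hz
  · right
    rw [Polynomial.map_sub, map_X, map_C, eval_sub, eval_X, eval_C, sub_eq_zero] at hz
    rw [hz, map_mul, map_natCast, map_mul, Complex.normSq_natCast, pow_two]
    rcases hη with rfl | rfl <;> simp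
  · exact Or.inl (h.2 z hz)

/-- `P (-X)` up to sign. -/
theorem WtP.neg {j : ℤ_[2] →+* ℂ} {P : ℤ_[2][X]} {Q : ℕ} (h : WtP j P Q) {A : Type} [Ring A]
    [Algebra ℤ_[2] A] {a : A} (ha : aeval a P = 0) : ∃ P', WtP j P' Q ∧ aeval (-a) P' = 0 := by
  refine ⟨(-1) ^ P.natDegree * P.comp (-X), ⟨h.1.neg_one_pow_natDegree_mul_comp_neg_X,
    fun z hz => ?_⟩, ?_⟩
  · rw [← Complex.normSq_neg]
    refine h.2 _ ?_
    rw [Polynomial.map_mul, IsRoot, eval_mul, Polynomial.map_comp, eval_comp] at hz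
    simpa using hz
  · rw [map_mul, aeval_comp, map_neg, aeval_X, neg_neg, ha, mul_zero]

variable {g : ℕ} {δ s : Kp g → ℤ_[2]}

theorem noda_half {κ : Type} {x : κ → ℤ_[2]} (h : ∀ a, 2 ∣ x a) : ∃ z, x = (2 : ℤ_[2]) • z := by
  choose z hz using h
  exact ⟨z, funext hz⟩

theorem noda_aeval {N : Type} [AddCommGroup N] [Module ℤ_[2] N]
    {π : (Kp g → ℤ_[2]) →ₗ[ℤ_[2]] N} {f : End ℤ_[2] (Kp g → ℤ_[2])} {φ : End ℤ_[2] N}
    (h1 : ∀ x, og δ x = 0 → og δ (f x) = 0) (h2 : ∀ x, og δ x = 0 → π (f x) = φ (π x))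
    (P : ℤ_[2][X]) (x : Kp g → ℤ_[2]) (hx : og δ x = 0) :
    og δ (aeval f P x) = 0 ∧ π (aeval f P x) = aeval φ P (π x) := by
  induction P using Polynomial.induction_on' with
  | add p q hp hq =>
    rw [map_add, map_add, LinearMap.add_apply, LinearMap.add_apply, og_add_right, map_add, hp.1,
      hq.1, hp.2, hq.2]
    exact ⟨add_zero _, rfl⟩
  | monomial n a =>
    have h3 : og δ ((f ^ n) x) = 0 ∧ π ((f ^ n) x) = (φ ^ n) (π x) := by
      induction n with
      | zero => exact ⟨hx, rfl⟩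
      | succ n ih =>
        rw [pow_succ', pow_succ', Module.End.mul_apply, Module.End.mul_apply, h2 _ ih.1, ih.2]
        exact ⟨h1 _ ih.1, rfl⟩
    rw [aeval_monomial, aeval_monomial, Module.End.mul_apply, Module.End.mul_apply,
      Module.algebraMap_end_apply, Module.algebraMap_end_apply, og_smul_right, map_smul, h3.1, h3.2]
    exact ⟨mul_zero _, rfl⟩

/-- The algebra at a node.  `og (f δ - η Q δ) (f x) = 0`; `π δ = 0` by `WtP.sq` with `c = Q`; an
`x` in both kernels with `og x s = 0` is divisible by all powers of 2; `P (f) x` lies in both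
kernels; `μ (R (f) x) = R (η) μ x` and `R (η) ≠ 0` for `R = (X - η Q) P`. -/
theorem node_alg (hs : og δ s = 1) {κ : Type} {π : (Kp g → ℤ_[2]) →ₗ[ℤ_[2]] κ → ℤ_[2]}
    (h2 : ∀ x, og δ x = 0 → (∀ a, 2 ∣ π x a) → (∀ a, 2 ∣ x a) ∨ ∀ a, 2 ∣ (x - δ) a)
    {f : End ℤ_[2] (Kp g → ℤ_[2])} (hf : Function.Surjective f) {φ : End ℤ_[2] (κ → ℤ_[2])}
    {Q : ℕ} (hQ : 1 < Q) {η : ℤ_[2]} (hη : η = 1 ∨ η = -1)
    (h3 : ∀ x y, og (f x) (f y) = Q * og x y) (h4 : ∀ x, og δ (f x) = η * og δ x)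
    (h5 : ∀ x, og δ x = 0 → π (f x) = φ (π x)) {j : ℤ_[2] →+* ℂ} {P : ℤ_[2][X]} (hP : WtP j P Q)
    (hφ : aeval φ P = 0) :
    f δ = (η * Q) • δ ∧ π δ = 0 ∧ (∀ x, og δ x = 0 → π x = 0 → x = og x s • δ) ∧
      (∀ x, og δ x = 0 → aeval f ((X - C (η * Q)) * P) x = 0) ∧
      ∀ μ : (Kp g → ℤ_[2]) →ₗ[ℤ_[2]] ℤ_[2], (∀ x, og δ x = 0 → μ (f x) = η * μ x) →
        ∀ x, og δ x = 0 → μ x = 0 := by
  have hη2 : η * η = 1 := by rcases hη with rfl | rfl <;> simp
  have a1 : f δ = (η * Q) • δ := by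
    refine sub_eq_zero.1 (og_nd fun y => ?_)
    obtain ⟨x, rfl⟩ := hf y
    rw [og_sub_left, h3, og_smul_left, h4]
    linear_combination (-(Q : ℤ_[2]) * og δ x) * hη2
  have a2 : π δ = 0 := by
    have b1 : φ (π δ) = (η * Q) • π δ := by rw [← h5 δ (og_self δ), a1, map_smul]
    refine hP.sq hφ (c := Q) (by nlinarith) ?_
    rw [b1, map_smul, b1, smul_smul]
    congr 1
    linear_combination ((Q : ℤ_[2]) ^ 2) * hη2
  have a3 : ∀ x, og δ x = 0 → π x = 0 → x = og x s • δ := by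
    have b1 : ∀ (n : ℕ) y, og δ y = 0 → π y = 0 → og y s = 0 → ∀ a, 2 ^ n ∣ y a := by
      intro n
      induction n with
      | zero => exact fun y _ _ _ a => by simp
      | succ n ih =>
        intro y c1 c2 c3 a
        rcases h2 y c1 (fun a => by simp [c2]) with c4 | c4
        · obtain ⟨z, rfl⟩ := noda_half c4
          rw [og_smul_right] at c1
          rw [map_smul] at c2
          rw [og_smul_left] at c3
          rw [pow_succ', Pi.smul_apply, smul_eq_mul]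
          exact mul_dvd_mul_left _ (ih z ((mul_eq_zero.1 c1).resolve_left two_ne_zero)
            ((smul_eq_zero.1 c2).resolve_left two_ne_zero)
            ((mul_eq_zero.1 c3).resolve_left two_ne_zero) a)
        · obtain ⟨z, hz⟩ := noda_half c4
          have c5 := congrArg (fun w => red 1 (og w s)) hz
          simp only [og_sub_left, og_smul_left, c3, hs, map_sub, map_mul, map_zero, map_one,
            map_ofNat] at c5
          rw [show (2 : ZMod (2 ^ 1)) = 0 by decide, zero_mul] at c5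
          exact absurd c5 (by decide)
    intro x c1 c2
    refine sub_eq_zero.1 (funext fun a => eq_zero_of_dvd fun n => b1 n _ ?_ ?_ ?_ a)
    · rw [og_sub_right, og_smul_right, c1, og_self, mul_zero, sub_zero]
    · rw [map_sub, map_smul, c2, a2, smul_zero, sub_zero]
    · rw [og_sub_left, og_smul_left, hs, mul_one, sub_self]
  have hp : ∀ x, og δ x = 0 → og δ (f x) = 0 := fun x hx => by rw [h4, hx, mul_zero]
  have a4 : ∀ x, og δ x = 0 → aeval f ((X - C (η * Q)) * P) x = 0 := fun x hx => by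
    obtain ⟨b1, b2⟩ := noda_aeval hp h5 P x hx
    rw [hφ, LinearMap.zero_apply] at b2
    rw [map_mul, Module.End.mul_apply, a3 _ b1 b2, map_smul, map_sub, aeval_X, aeval_C,
      LinearMap.sub_apply, a1, Module.algebraMap_end_apply, sub_self, smul_zero]
  refine ⟨a1, a2, a3, a4, fun μ hμ x hx => ?_⟩
  have b1 := (noda_aeval (π := μ) (φ := algebraMap ℤ_[2] (End ℤ_[2] ℤ_[2]) η) hp hμ
    ((X - C (η * Q)) * P) x hx).2
  rw [a4 x hx, map_zero, aeval_algebraMap_apply_eq_algebraMap_eval, Module.algebraMap_end_apply,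
    smul_eq_mul] at b1
  refine (mul_eq_zero.1 b1.symm).resolve_left fun b2 => ?_
  have b3 := (hP.wt2 hη).2 (j η) (by rw [IsRoot, eval_map, eval₂_at_apply, b2, map_zero])
  have b4 : Complex.normSq (j η) = 1 := by rcases hη with rfl | rfl <;> simp
  have b5 : (1 : ℝ) < Q := by exact_mod_cast hQ
  rw [b4] at b3
  rcases b3 with b3 | b3 <;> nlinarith

/-- A symplectic map that fixes the orthogonal of `δ` is a transvection (`og_perp`). -/
theorem transv (hs : og δ s = 1) {γ : End ℤ_[2] (Kp g → ℤ_[2])}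
    (h1 : ∀ x y, og (γ x) (γ y) = og x y) (h2 : ∀ x, og δ x = 0 → γ x = x)
    (h3 : ∀ x a, 2 ∣ (γ x - x) a) : ∃ b : ℤ_[2], γ = 1 + (2 * b) • ng δ := by
  have a1 : γ s - s = og (γ s - s) s • δ := og_perp hs fun y hy => by
    rw [og_sub_left, ← h1 s y, h2 y hy, sub_self]
  obtain ⟨z, hz⟩ := noda_half (h3 s)
  refine ⟨og z s, LinearMap.ext fun x => ?_⟩
  have a2 := h2 (x - og δ x • s) (by rw [og_sub_right, og_smul_right, hs, mul_one, sub_self])
  rw [hz, og_smul_left, ← hz, sub_eq_iff_eq_add] at a1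
  rw [map_sub, map_smul, sub_eq_iff_eq_add, a1] at a2
  rw [a2, LinearMap.add_apply, LinearMap.smul_apply, ng_apply, Module.End.one_apply]
  module

/-- The vector that represents `α`. -/
theorem exists_del {I : Type} [DecidableEq I] {ε : I → Kp g → ℤ_[2]}
    (h1 : Submodule.span GF.Z2 (Set.range fun i a => red 1 (ε i a)) = ⊤)
    (h2 : ∀ i j, i ≠ j → red 1 (og (ε i) (ε j)) = 1) {i₁ i₂ : I} (h3 : i₁ ≠ i₂)
    {α : (Kp g → ℤ_[2]) →ₗ[ℤ_[2]] ℤ_[2]}
    (h4 : ∀ i, red 1 (α (ε i)) = if i = i₁ ∨ i = i₂ then 1 else 0) :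
    ∃ δ s, og δ s = 1 ∧ (∀ x, og δ x = α x) ∧ ∀ a, 2 ∣ (ε i₁ + ε i₂ - δ) a := by
  obtain ⟨δ, hδ⟩ := og_rep α
  obtain ⟨s, hs⟩ := exists_og (r := δ) fun c => by
    have a1 := og_map (red 1) δ (ε i₁)
    rw [c, hδ, h4, if_pos (Or.inl rfl), ← zero_smul GF.Z2 (0 : Kp g → GF.Z2), og_smul_left,
      zero_mul] at a1
    exact absurd a1 (by decide)
  refine ⟨δ, s, hs, hδ, fun a => ?_⟩
  have a1 : (fun a => red 1 ((ε i₁ + ε i₂ - δ) a)) = 0 := og_nd fun y => by
    have a2 : Submodule.span GF.Z2 (Set.range fun i a => red 1 (ε i a)) ≤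
        LinearMap.ker (ogL fun a => red 1 ((ε i₁ + ε i₂ - δ) a)) := by
      refine Submodule.span_le.2 ?_
      rintro _ ⟨i, rfl⟩
      rw [SetLike.mem_coe, LinearMap.mem_ker, ogL_apply, og_map, og_sub_left, og_add_left, hδ,
        map_sub, map_add, h4]
      by_cases c1 : i = i₁
      · rw [c1, og_self, h2 _ _ h3.symm, if_pos (Or.inl rfl), map_zero]
        decide
      by_cases c2 : i = i₂
      · rw [c2, og_self, h2 _ _ h3, if_pos (Or.inr rfl), map_zero]
        decide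
      · rw [h2 _ _ (Ne.symm c1), h2 _ _ (Ne.symm c2), if_neg (not_or.2 ⟨c1, c2⟩)]
        decide
    exact a2 (h1 ▸ Submodule.mem_top)
  simpa using red_eq_zero.1 (congrFun a1 a)

theorem noda_comm {R M ι : Type} [CommRing R] [Algebra ℤ_[2] R] [AddCommGroup M] [Module ℤ_[2] M]
    [Module.IsTorsionFree ℤ_[2] M] (j : ℤ_[2] →+* ℂ) (ρ : R →ₐ[ℤ_[2]] End ℤ_[2] M) (S : Finset ι)
    (m : ι → R) (P : ι → ℤ_[2][X]) (hP : ∀ i ∈ S, (P i).Monic) {x : M} (hx : x ≠ 0)
    (hm : ∀ i ∈ S, aeval (ρ (m i)) (P i) x = 0) {c : ℤ_[2]} (h : ρ (∏ i ∈ S, m i) x = c • x) :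
    ∃ z : ι → ℂ, (∀ i ∈ S, ((P i).map j).IsRoot (z i)) ∧ ∏ i ∈ S, z i = j c := by
  classical
  let I : Ideal R :=
    { carrier := {r | ρ r x = 0}
      add_mem' := fun {a b} ha hb => by
        rw [Set.mem_ofPred_eq] at *
        rw [map_add, LinearMap.add_apply, ha, hb, add_zero]
      zero_mem' := by rw [Set.mem_ofPred_eq, map_zero, LinearMap.zero_apply]
      smul_mem' := fun a b hb => by
        rw [Set.mem_ofPred_eq] at *
        rw [smul_eq_mul, map_mul, Module.End.mul_apply, hb, map_zero] }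
  have hI : ∀ r, r ∈ I ↔ ρ r x = 0 := fun r => Iff.rfl
  obtain ⟨J, hJ, hIJ, hd⟩ := I.exists_le_prime_disjoint
    ((nonZeroDivisors ℤ_[2]).map (algebraMap ℤ_[2] R)) (Set.disjoint_left.2 (by
      rintro _ h ⟨n, hn, rfl⟩
      have h1 := (hI _).1 h
      rw [AlgHom.commutes, Module.algebraMap_end_apply] at h1
      exact hx ((smul_eq_zero.1 h1).resolve_left (nonZeroDivisors.ne_zero hn))))
  let π := Ideal.Quotient.mkₐ ℤ_[2] J
  have hπ : ∀ r, ρ r x = 0 → π r = 0 := fun r hr =>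
    Ideal.Quotient.eq_zero_iff_mem.2 (hIJ ((hI r).2 hr))
  have h1 : ∀ i ∈ S, aeval (π (m i)) (P i) = 0 := fun i hi => by
    rw [aeval_algHom_apply]
    exact hπ _ (by rw [← aeval_algHom_apply]; exact hm i hi)
  let B := integralClosure ℤ_[2] (R ⧸ J)
  have hi : ∀ i ∈ S, π (m i) ∈ B := fun i hi => ⟨P i, hP i hi, h1 i hi⟩
  obtain ⟨ψ, hψ⟩ := ND.rta_ext (R := B) j fun a ha => by
    by_cases h0 : a = 0
    · rw [h0, map_zero]
    · have h2 : algebraMap ℤ_[2] R a ∈ J :=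
        Ideal.Quotient.eq_zero_iff_mem.1 (congrArg Subtype.val ha)
      exact absurd ⟨a, mem_nonZeroDivisors_of_ne_zero h0, rfl⟩ (Set.disjoint_left.1 hd h2)
  let z : ι → B := fun i => if h : i ∈ S then ⟨_, hi i h⟩ else 0
  have hz : ∀ i ∈ S, B.val (z i) = π (m i) := fun i h => by simp [z, h]
  have hj : j = ψ.comp (algebraMap ℤ_[2] B) := RingHom.ext fun a => (hψ a).symm
  refine ⟨fun i => ψ (z i), fun i hi => ?_, ?_⟩
  · have h2 : aeval (z i) (P i) = 0 := Subtype.ext (by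
      have := h1 i hi
      rwa [← hz i hi, aeval_algHom_apply] at this)
    rw [IsRoot, eval_map, hj, ← hom_eval₂, ← aeval_def, h2, map_zero]
  · rw [← map_prod, ← hψ]
    congr 1
    refine Subtype.ext ?_
    have h2 := hπ (∏ i ∈ S, m i - algebraMap ℤ_[2] R c) (by
      rw [map_sub, LinearMap.sub_apply, h, AlgHom.commutes, Module.algebraMap_end_apply, sub_self])
    rw [map_sub, sub_eq_zero, map_prod, ← Finset.prod_congr rfl hz, ← map_prod,
      AlgHom.commutes] at h2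
    exact h2

/-- Weights for commuting operators, as `GV.wt_end` (file GV/Wt0; `ND.rta_ext` extends `j`): in the
commutative algebra generated by the `m i` take a prime over the annihilator of `x` that meets
`ℤ_[2]` in zero; the quotient is integral over `ℤ_[2]`. -/
theorem wt_roots {M ι : Type} [AddCommGroup M] [Module ℤ_[2] M] [Module.IsTorsionFree ℤ_[2] M]
    {j : ℤ_[2] →+* ℂ} (hj : Function.Injective j) (S : Finset ι) (m : ι → End ℤ_[2] M)
    (hc : (S : Set ι).Pairwise (Function.onFun Commute m)) (P : ι → ℤ_[2][X])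
    (hP : ∀ i ∈ S, (P i).Monic) {x : M} (hx : x ≠ 0) (hm : ∀ i ∈ S, aeval (m i) (P i) x = 0)
    {c : ℤ_[2]} (h : S.noncommProd m hc x = c • x) :
    ∃ z : ι → ℂ, (∀ i ∈ S, ((P i).map j).IsRoot (z i)) ∧ ∏ i ∈ S, z i = j c := by
  classical
  let R := Algebra.adjoin ℤ_[2] (m '' S)
  have hR : IsMulCommutative R := Algebra.isMulCommutative_adjoin ℤ_[2] (by
    rintro _ ⟨i, hi, rfl⟩ _ ⟨k, hk, rfl⟩
    by_cases h : i = k
    · rw [h]
    · exact hc hi hk h)
  let _ : CommRing R := { (inferInstance : Ring R) with mul_comm := hR.is_comm.comm }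
  let z : ι → R := fun i => if h : i ∈ S then ⟨m i, Algebra.subset_adjoin ⟨i, h, rfl⟩⟩ else 0
  have hz : ∀ i ∈ S, R.val (z i) = m i := fun i h => by simp [z, h]
  refine noda_comm j R.val S z P hP hx (fun i hi => by rw [hz i hi]; exact hm i hi) ?_
  rw [← h, ← Finset.noncommProd_eq_prod]
  have h := Finset.map_noncommProd S z (fun _ _ _ _ _ => Commute.all _ _) R.val
  exact (congrArg (fun e : Module.End ℤ_[2] M => e x) h).trans
    (congrArg (fun e : Module.End ℤ_[2] M => e x) (Finset.noncommProd_congr rfl hz _))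

end

end Pool.Agent.Lib.MP_16ef92_ag.HY
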