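import Mathlib
import Pool.Agent.Lib.MP_16ef92_ag.HY.Ob
import Pool.Agent.Lib.MP_16ef92_ag.Loc

set_option autoImplicit false
set_option linter.unusedSectionVars false
set_option linter.unusedVariables false

namespace Pool.Agent.Lib.MP_16ef92_ag.HY

open Polynomial Module AL Pool.Agent.Lib.MP_6adaea_nt
open scoped Classical

noncomputable section

variable {F : Type} [Field F] [Clos F] [Fintype F] [hq : Fact (Odd (Fintype.card F))]
  {I : Type} [Fintype I] {g : ℕ}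

/-- The Tate module of the curve `y ^ 2 = ∏ (x - e i)` over `F(t)`. -/
structure TH (l : ℕ) [Fact l.Prime] (e : I → Om F) (ρ : Gam F →* End ℤ_[l] (Kp g → ℤ_[l]))
    (K : Type) [Field K] [Algebra (Ob F) K] [IsFF (Ob F) K] where
  x : K
  y : K
  he : HE (fun i => ob (e i)) x y
  card : Fintype.card I = 2 * g + 1
  fix : ∀ (σ : Gam F) i, σ (e i) = e i
  sa : Gam F →* SA (Ob F) K
  sa_a : ∀ σ c, (sa σ).a c = lf σ c
  sa_x : ∀ σ, (sa σ).γ x = x
  sa_y : ∀ σ, (sa σ).γ y = y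
  ev : (Kp g → ℤ_[l]) →+ ℕ → Pic (Ob F) K
  ta : TA l ev
  eqv : ∀ σ v n, ev (ρ σ v) n = (sa σ).pic (ev v n)

/-- `ρ` is the representation on a Tate module. -/
def IsT (l : ℕ) [Fact l.Prime] (e : I → Om F) (ρ : Gam F →* End ℤ_[l] (Kp g → ℤ_[l])) : Prop :=
  ∃ (K : Type) (_ : Field K) (_ : Algebra (Ob F) K) (_ : IsFF (Ob F) K), Nonempty (TH l e ρ K)

variable {l : ℕ} [Fact l.Prime] {e : I → Om F} {ρ : Gam F →* End ℤ_[l] (Kp g → ℤ_[l])}
  {K : Type} [Field K] [Algebra (Ob F) K] [IsFF (Ob F) K]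

theorem TH.isT (T : TH l e ρ K) : IsT l e ρ := ⟨K, _, _, _, ⟨T⟩⟩

theorem TH.sa_e (T : TH l e ρ K) (σ : Gam F) (i : I) : (T.sa σ).a (ob (e i)) = ob (e i) := by
  rw [T.sa_a, lf_ob, T.fix]

theorem th_ex {x y : K} (he : HE (fun i => ob (e i)) x y) (hc : Fintype.card I = 2 * g + 1)
    (hf : ∀ (σ : Gam F) i, σ (e i) = e i) {ev : (Kp g → ℤ_[l]) →+ ℕ → Pic (Ob F) K}
    (hT : TA l ev) : ∃ (ρ : Gam F →* End ℤ_[l] (Kp g → ℤ_[l])) (T : TH l e ρ K),
      T.x = x ∧ T.y = y ∧ T.ev = ev := by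
  choose s h1 h2 h3 using fun σ : Gam F =>
    he.exists_sa (lf σ) (fun i => by rw [lf_ob, hf]) (Or.inl rfl)
  simp only [one_mul] at h3
  let sa : Gam F →* SA (Ob F) K := MonoidHom.mk' s fun a b => he.sa_ext
    (fun c => by rw [mul_a, h1, h1, h1, map_mul]; rfl) (by rw [mul_γ, h2, h2, h2])
    (by rw [mul_γ, h3, h3, h3])
  obtain ⟨ρ, h4⟩ := hT.exists_rep (fun σ => (sa σ).pic) (fun P => by rw [map_one, one_pic])
    fun a b P => by rw [map_mul, mul_pic]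
  exact ⟨ρ, ⟨x, y, he, hc, hf, sa, fun σ c => RingEquiv.congr_fun (h1 σ) c, h2, h3, ev, hT, h4⟩,
    rfl, rfl, rfl⟩

theorem th_he (hi : Function.Injective e) (hc : Fintype.card I = 2 * g + 1) :
    ∃ (K : Type) (_ : Field K) (_ : Algebra (Ob F) K) (x y : K), HE (fun i => ob (e i)) x y :=
  exists_HE _ (by simpa only [map_ofNat] using (_root_.map_ne_zero (ob (F := F))).2 two_ne)
    ⟨g, hc⟩ fun _ _ h => hi ((ob (F := F)).injective h)

/-- `HE.exists_sa`, `HE.sa_ext`, `TA.exists_rep`, `mul_pic`. -/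
theorem exists_th {x y : K} (he : HE (fun i => ob (e i)) x y) (hc : Fintype.card I = 2 * g + 1)
    (hf : ∀ (σ : Gam F) i, σ (e i) = e i) {ev : (Kp g → ℤ_[l]) →+ ℕ → Pic (Ob F) K}
    (hT : TA l ev) : ∃ (ρ : Gam F →* End ℤ_[l] (Kp g → ℤ_[l])) (T : TH l e ρ K), T.ev = ev := by
  obtain ⟨ρ, T, -, -, h⟩ := th_ex he hc hf hT
  exact ⟨ρ, T, h⟩

/-- `exists_HE`, `HE.isFF`, `HE.exists_ta`. -/
theorem exists_isT (hl : (l : F) ≠ 0) (hi : Function.Injective e)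
    (hc : Fintype.card I = 2 * g + 1) (hf : ∀ (σ : Gam F) i, σ (e i) = e i) :
    ∃ ρ : Gam F →* End ℤ_[l] (Kp g → ℤ_[l]), IsT l e ρ := by
  obtain ⟨K, _, _, x, y, he⟩ := th_he hi hc
  have := he.isFF
  obtain ⟨ev, hT⟩ := he.exists_ta hc l (ob_cast hl).1
  obtain ⟨ρ, T, -⟩ := exists_th he hc hf hT
  exact ⟨ρ, T.isT⟩

/-- `HE.exists_syp`. -/
theorem exists_th2 (hi : Function.Injective e) (hc : Fintype.card I = 2 * g + 1)
    (hf : ∀ (σ : Gam F) i, σ (e i) = e i) {ζ : ℕ → Ob F} (hζ : Zt ζ) :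
    ∃ (ρ : Gam F →* End ℤ_[2] (Kp g → ℤ_[2])) (K : Type) (_ : Field K) (_ : Algebra (Ob F) K)
      (_ : IsFF (Ob F) K) (T : TH 2 e ρ K), SyP T.ev ζ := by
  obtain ⟨K, _, _, x, y, he⟩ := th_he hi hc
  have := he.isFF
  obtain ⟨ev, hT, hS⟩ := he.exists_syp hc hζ
  obtain ⟨ρ, T, h⟩ := exists_th he hc hf hT
  exact ⟨ρ, K, _, _, _, T, h ▸ hS⟩

theorem TH.th_pl (T : TH l e ρ K) (v : Place (Ob F) K) :
    Near fun σ : Gam F => (T.sa σ).pl v = v := by
  by_cases hv : v = T.he.inf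
  · exact Near.of_forall fun σ => by rw [hv, T.he.sa_inf _ (T.sa_x σ)]
  · have h := T.he.fin_iff.2 hv
    exact ((near_lf (val v T.x)).and (near_lf (val v T.y))).mono fun σ hσ =>
      T.he.pl_ext ((sa_fin _ (T.sa_x σ)).2 h) h (by rw [sa_val _ (T.sa_x σ), T.sa_a, hσ.1])
        (by rw [sa_val _ (T.sa_y σ), T.sa_a, hσ.2])

theorem th_all {ι : Type} [Fintype ι] {P : ι → Gam F → Prop} (h : ∀ i, Near (P i)) :
    Near fun σ : Gam F => ∀ i, P i σ := by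
  choose S hS using h
  exact ⟨Finset.univ.biUnion S, fun σ hσ i => hS i σ fun s hs =>
    hσ s (Finset.mem_biUnion.2 ⟨i, Finset.mem_univ i, hs⟩)⟩

/-- A finite place is fixed as soon as its coordinates are (`pl_ext`, `near_lf`). -/
theorem TH.near_pic (T : TH l e ρ K) (c : Pic (Ob F) K) :
    Near fun σ : Gam F => (T.sa σ).pic c = c := by
  obtain ⟨D, rfl⟩ := cl_surj c
  induction D using Finsupp.induction_linear with
  | zero => exact Near.of_forall fun σ => by rw [map_zero, map_zero]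
  | add a b ha hb => exact (ha.and hb).mono fun σ h => by rw [map_add, map_add, h.1, h.2]
  | single v m => exact (T.th_pl v).mono fun σ h => by rw [SA.pic_cl, SA.dm_single, h]

theorem IsT.near (h : IsT l e ρ) (n : ℕ) :
    Near fun σ : Gam F => ∀ x a, (l : ℤ_[l]) ^ n ∣ (ρ σ x - x) a := by
  obtain ⟨K, _, _, _, ⟨T⟩⟩ := h
  refine (th_all fun b : Kp g => T.near_pic (T.ev (Pi.single b 1) n)).mono fun σ hσ x a => ?_
  have h1 : ρ σ x - x = ∑ b, x b • (ρ σ (Pi.single b 1) - Pi.single b 1) := by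
    conv_lhs => rw [pi_eq_sum_univ' x]
    rw [map_sum, ← Finset.sum_sub_distrib]
    exact Finset.sum_congr rfl fun b _ => by rw [map_smul, smul_sub]
  rw [h1, Finset.sum_apply]
  exact Finset.dvd_sum fun b _ =>
    ((T.ta.eq_iff n _ _).1 ((T.eqv σ _ n).trans (hσ b)) a).mul_left (x b)

/-- `eps_span`, `sa_eps`. -/
theorem IsT.triv {ρ : Gam F →* End ℤ_[2] (Kp g → ℤ_[2])} (h : IsT 2 e ρ) (σ : Gam F)
    (x : Kp g → ℤ_[2]) (a : Kp g) : 2 ∣ (ρ σ x - x) a := by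
  obtain ⟨K, _, _, _, ⟨T⟩⟩ := h
  obtain ⟨S, hS⟩ := T.he.eps_span ⟨T.ev x 1, T.ta.tors x 1⟩
  have h1 : T.ev x 1 = ∑ i ∈ S, (T.he.eps i : Pic (Ob F) K) :=
    (congrArg Subtype.val hS).trans (AddSubgroup.val_finsetSum _ _ _)
  have h2 : T.ev (ρ σ x) 1 = T.ev x 1 := by
    rw [T.eqv, h1, map_sum]
    exact Finset.sum_congr rfl fun i _ => T.he.sa_eps _ (T.sa_x σ) (T.sa_e σ i)
  simpa using (T.ta.eq_iff 1 _ _).1 h2 a

/-- Twists.  `HE.scale` with `s ^ 2 = u ^ card I`, `s = u ^ g * √u` in `Om F` (`exists_sq`,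
`sg_spec`).  Apply `exists_th` to the new coordinates with the same `ev`; by `HE.sa_ext` the new
`sa σ` is the old one or the old one times `io`, and `io` is `-1` on torsion (`io_tor`). -/
theorem IsT.scale (h : IsT l e ρ) {u w : Om F} (hu : ∀ σ : Gam F, σ u = u)
    (hw : ∀ σ : Gam F, σ w = w) (h0 : u ≠ 0) : ∃ ρ' : Gam F →* End ℤ_[l] (Kp g → ℤ_[l]),
      IsT l (fun i => (e i - w) / u) ρ' ∧ ∀ σ, ρ' σ = (-1 : ℤ_[l]) ^ (sg u σ).val • ρ σ := by
  obtain ⟨K, _, _, _, ⟨T⟩⟩ := h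
  obtain ⟨s, hs⟩ := exists_sq u
  have he := T.he.scale (ob w) ((_root_.map_ne_zero ob).2 h0) (s := ob (u ^ g * s)) (by
    rw [← map_pow, ← map_pow, T.card, mul_pow, hs, ← pow_mul, pow_succ, mul_comm g])
  simp only [← map_sub ob, ← map_div₀ ob] at he
  obtain ⟨ρ', T', hx, hy, hev⟩ := th_ex (e := fun i => (e i - w) / u) he T.card
    (fun σ i => by rw [map_div₀, map_sub, T.fix, hw, hu]) T.ta
  refine ⟨ρ', T'.isT, fun σ => LinearMap.ext fun v => T.ta.ext fun n => ?_⟩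
  have h1 : ∀ z : Om F, (T.sa σ).γ (algebraMap (Ob F) K (ob z)) = algebraMap (Ob F) K (ob (σ z)) :=
    fun z => by rw [SA.h, T.sa_a, lf_ob]
  have h2 := T'.eqv σ v n
  rw [hev] at h2
  rw [h2]
  rcases z2_cases (sg u σ) with h3 | h3
  · have h4 : T'.sa σ = T.sa σ := T'.he.sa_ext (fun c => by rw [T'.sa_a, T.sa_a])
      (by rw [T'.sa_x, hx, map_div₀, map_sub, T.sa_x, h1, h1, hw, hu])
      (by rw [T'.sa_y, hy, map_div₀, T.sa_y, h1, map_mul σ, map_pow σ, hu,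
        sg_fix_root (hu σ) h0 hs h3])
    rw [h4, h3, ZMod.val_zero, pow_zero, one_smul, T.eqv]
  · have h4 : T'.sa σ = T.sa σ * T.he.io := T'.he.sa_ext
      (fun c => by rw [T'.sa_a, mul_a, T.he.io_a, T.sa_a])
      (by rw [T'.sa_x, hx, mul_γ, map_div₀, map_sub, T.he.io_x, T.he.io_const, T.he.io_const,
        map_div₀, map_sub, T.sa_x, h1, h1, hw, hu])
      (by rw [T'.sa_y, hy, mul_γ, map_div₀, T.he.io_y, T.he.io_const, map_div₀, map_neg, T.sa_y,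
        h1, map_mul σ, map_pow σ, hu, sg_neg_root (hu σ) h0 hs h3, mul_neg, map_neg, map_neg,
        neg_div_neg_eq])
    rw [h4, h3, show (1 : ZMod (2 ^ 1)).val = 1 from rfl, pow_one, LinearMap.smul_apply,
      neg_smul, one_smul, map_neg, Pi.neg_apply, T.eqv, mul_pic,
      T.he.io_tor (pow_ne_zero n (Fact.out : l.Prime).ne_zero) (T.ta.tors v n), map_neg]

end

end Pool.Agent.Lib.MP_16ef92_ag.HY
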