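import Mathlib
import Pool.Agent.Lib.MP_16ef92_ag.HY.Th
import Pool.Agent.Lib.MP_16ef92_ag.HY.Good
import Pool.Agent.Lib.MP_16ef92_ag.HY.NodA
import Pool.Agent.Lib.MP_16ef92_ag.GV.Tw
import Pool.Agent.Lib.MP_16ef92_ag.GV.LInd

set_option autoImplicit false
set_option linter.unusedSectionVars false
set_option linter.unusedVariables false

namespace Pool.Agent.Lib.MP_16ef92_ag.HY

open Polynomial Module AL Pool.Agent.Lib.MP_6adaea_nt
open scoped Classical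

noncomputable section

variable {F : Type} [Field F] [Clos F] [Fintype F] [hq : Fact (Odd (Fintype.card F))]
  {I : Type} [Fintype I] {g : ℕ} {l : ℕ} [Fact l.Prime] {e : I → Om F}
  {ρ : Gam F →* End ℤ_[l] (Kp g → ℤ_[l])} {O : ValuationSubring (Om F)} {x : Option (kk F)}
  {eb : I → kk F}

/-- The number of affine points over the field with `Q` elements. -/
def cnt (eb : I → kk F) (Q : ℕ) : ℕ :=
  {P : kk F × kk F | P.2 ^ 2 = (ff eb).eval P.1 ∧ P.1 ^ Q = P.1 ∧ P.2 ^ Q = P.2}.ncard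

theorem thg_ne : ((2 : ℕ) : F) ≠ 0 := fun h => by
  have h1 := FiniteField.even_card_iff_char_two (F := F)
  have h2 : ringChar F = 2 := (Nat.prime_dvd_prime_iff_eq (CharP.char_is_prime F _)
    Nat.prime_two).1 ((ringChar.spec F 2).1 h)
  have h3 := Nat.odd_iff.1 hq.out
  omega

theorem thg_two : (2 : kk F) ≠ 0 := by simpa using (ob_cast (thg_ne (F := F))).2

theorem thg_card {r : ℕ} (h0 : 0 < r) : ∃ (p d : ℕ) (_ : Fact p.Prime) (_ : CharP (kk F) p),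
    0 < d ∧ Fintype.card F ^ r = p ^ d := by
  obtain ⟨n, hp, hn⟩ := FiniteField.card F (ringChar F)
  exact ⟨ringChar F, n * r, ⟨hp⟩, charP_of_injective_algebraMap (algebraMap F _).injective _,
    Nat.mul_pos n.2 h0, by rw [hn, pow_mul]⟩

/-- An element of the decomposition group fixes the residues of invariant elements
(`st_lt`, `const_eq`). -/
theorem gk_res {f : Gam F} (hf : f ∈ St O) {z : Om F} (hz : f z = z) {c : kk F}
    (h : O.valuation (z - c) < 1) : gk f c = c := by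
  have h1 := st_lt hf h
  rw [map_sub, hz] at h1
  refine const_eq (O := O) ?_
  rw [show ((gk f c : kk F) : Om F) - c = (z - c) - (z - f c) by rw [gk_val]; ring]
  exact (O.valuation.map_sub _ _).trans_lt (max_lt h h1)

/-- Good reduction.  `exists_rv`, `exists_HE`, the setting `Rs` with `w = 1`;
`ev' v n = pi (ev v n)` is a system of coordinates (`exists_ta`, `TA.exists_map`, `TA.bij` with
`pi_inj`, `TA.comp`); `s'` from `HE.exists_sa`, `Cp.pi`. -/
theorem IsT.red (hl : (l : F) ≠ 0) (h : IsT l e ρ) (hO : Over O x) (hi : Function.Injective eb)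
    (hr : ∀ i, O.valuation (e i - eb i) < 1) :
    ∃ (K' : Type) (_ : Field K') (_ : Algebra (kk F) K') (_ : IsFF (kk F) K') (x' y' : K')
      (ev' : (Kp g → ℤ_[l]) →+ ℕ → Pic (kk F) K'), HE eb x' y' ∧ TA l ev' ∧
      Fintype.card I = 2 * g + 1 ∧ ∀ f ∈ St O, ∃ s : SA (kk F) K', s.a = gk f ∧ s.γ x' = x' ∧
        s.γ y' = y' ∧ (∀ i, s.a (eb i) = eb i) ∧ ∀ v n, ev' (ρ f v) n = s.pic (ev' v n) := by
  obtain ⟨K, _, _, _, ⟨T⟩⟩ := h
  obtain ⟨r, r1, r2⟩ := exists_rv hO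
  obtain ⟨K', _, _, x', y', he'⟩ := exists_HE eb thg_two T.he.odd hi
  have := he'.isFF
  let S : Rs (Ob F) (kk F) K K' I I := ⟨r, fun i => ob (e i), T.x, T.y, eb, x', y', 1, T.he, he',
    fun i => (r1 _ _ (hr i)).1, by
      rw [one_pow, one_mul]
      exact congrArg ff (funext fun i => (r1 _ _ (hr i)).2)⟩
  have hw : S.w = 1 := rfl
  have hl' := (ob_cast hl).2
  obtain ⟨ev₀, hT₀⟩ := he'.exists_ta T.card l hl'
  obtain ⟨M, hM⟩ := T.ta.exists_map hT₀ (Rs.pi hw)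
  have hb := T.ta.bij hT₀ rfl (fun P h1 h0 => Rs.pi_inj hw hl' h1 h0) hM
  refine ⟨K', inferInstance, inferInstance, this, x', y', _, he',
    hT₀.comp (LinearEquiv.ofBijective M hb), T.card, fun f hf => ?_⟩
  have hfix : ∀ i, gk f (eb i) = eb i := fun i => gk_res hf (T.fix f i) (hr i)
  obtain ⟨s, s1, s2, s3⟩ := he'.exists_sa (gk f) hfix (Or.inl rfl)
  rw [one_mul] at s3
  refine ⟨s, s1, s2, s3, fun i => by rw [s1, hfix], fun v n => ?_⟩
  have hc : S.Cp (T.sa f) s := ⟨T.sa_x f, T.sa_y f, s2, s3, Polynomial.map_one _, fun z c => by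
    rw [T.sa_a, s1]
    exact r2 f hf z c⟩
  change ev₀ (M (ρ f v)) n = s.pic (ev₀ (M v) n)
  rw [hM, hM, T.eqv, hc.pi hw]

/-- For `σ` in the inertia group `s = 1` (`HE.sa_ext`). -/
theorem IsT.unr (hl : (l : F) ≠ 0) (h : IsT l e ρ) (hO : Over O x) (hi : Function.Injective eb)
    (hr : ∀ i, O.valuation (e i - eb i) < 1) {σ : Gam F} (hσ : σ ∈ Ine O) : ρ σ = 1 := by
  obtain ⟨K', _, _, _, x', y', ev', he', hT, -, H⟩ := h.red hl hO hi hr
  obtain ⟨s, s1, s2, s3, -, s4⟩ := H σ hσ.2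
  obtain rfl : s = 1 := he'.sa_ext (fun c => by rw [s1, gk_geo hσ.1, one_a]) s2 s3
  exact LinearMap.ext fun v => hT.ext fun n => by rw [s4, one_pic, End.one_apply]

/-- `TA.trace_frob`, `HE.ncard_fix`; `card F` is a power of the characteristic. -/
theorem IsT.tr (hl : (l : F) ≠ 0) (h : IsT l e ρ) (hO : Over O x) (hi : Function.Injective eb)
    (hr : ∀ i, O.valuation (e i - eb i) < 1) {f : Gam F} (hf : f ∈ St O) {r : ℕ} (h0 : 0 < r)
    (hQ : Fr f (Fintype.card F ^ r)) : LinearMap.trace _ _ (ρ f) =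
      (((Fintype.card F ^ r : ℕ) - cnt eb (Fintype.card F ^ r) : ℤ) : ℤ_[l]) := by
  obtain ⟨K', _, _, _, x', y', ev', he', hT, -, H⟩ := h.red hl hO hi hr
  obtain ⟨s, s1, s2, s3, -, s4⟩ := H f hf
  obtain ⟨p, d, _, _, hd, hp⟩ := thg_card (F := F) h0
  have hs : ∀ c, s.a c = c ^ p ^ d := fun c => by rw [s1, gk_fr hQ, hp]
  obtain ⟨h1, h2⟩ := hT.trace_frob (ob_cast hl).2 s s4 p d hd hs
  rw [h2, he'.ncard_fix s s2 s3 h1, hp, cnt]
  simp only [hs]
  congr 1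
  push_cast
  ring

/-- `HE.rh`. -/
theorem IsT.wt {ρ : Gam F →* End ℤ_[2] (Kp g → ℤ_[2])} (h : IsT 2 e ρ) (hO : Over O x)
    (hi : Function.Injective eb) (hr : ∀ i, O.valuation (e i - eb i) < 1) {j : ℤ_[2] →+* ℂ}
    (hj : Function.Injective j) {f : Gam F} (hf : f ∈ St O) {r : ℕ} (h0 : 0 < r)
    (hQ : Fr f (Fintype.card F ^ r)) :
    ∃ P, WtP j P (Fintype.card F ^ r) ∧ aeval (ρ f) P = 0 := by
  obtain ⟨K', _, _, _, x', y', ev', he', hT, hc, H⟩ := h.red thg_ne hO hi hr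
  obtain ⟨s, s1, s2, s3, s5, s4⟩ := H f hf
  obtain ⟨p, d, _, _, hd, hp⟩ := thg_card (F := F) h0
  rw [hp] at hQ ⊢
  exact he'.rh hc hj s s2 s3 s5 p d hd (fun c => by rw [s1, gk_fr hQ]) hT s4

variable {a : I → F[X]} {c : kk F} {N D : F[X]}

theorem thg2_inv {z : Om F} {σ : Gam F} (hz : σ z = z) (h0 : z ≠ 0) : sg z⁻¹ σ = sg z σ := by
  have := kap_inv_left prim_one (fix_neg_one σ) hz h0
  rwa [neg_z2] at this

theorem thg2_two : ((2 : ℕ) : F) ≠ 0 := by exact_mod_cast two_neF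

theorem thg2_neg (u : End ℤ_[l] (Kp g → ℤ_[l])) : (-1 : ℤ_[l]) • u = -u :=
  LinearMap.ext fun v => by simp

theorem res_inj (hN : ∀ i k, i ≠ k → a i - a k ∣ N) (hc : aeval c N ≠ 0) :
    Function.Injective fun i => (aeval c (a i) : kk F) := by
  intro i k h
  by_contra hik
  refine hc (aeval_eq_zero_of_dvd_aeval_eq_zero (hN i k hik) ?_)
  rw [map_sub]
  exact sub_eq_zero.2 h

/-- `ev_sub`. -/
theorem IsT.unrP (hl : (l : F) ≠ 0) (h : IsT l (fun i => ev (a i)) ρ)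
    (hN : ∀ i k, i ≠ k → a i - a k ∣ N) : GI N fun σ => ρ σ = 1 := by
  intro c hc O hO σ hσ
  exact h.unr hl hO (res_inj hN hc) (fun i => ev_sub hO (a i)) hσ

theorem IsT.trP (hl : (l : F) ≠ 0) (h : IsT l (fun i => ev (a i)) ρ)
    (hN : ∀ i k, i ≠ k → a i - a k ∣ N) (hc : aeval c N ≠ 0) (hO : Over O (some c)) {f : Gam F}
    (hf : f ∈ St O) {r : ℕ} (h0 : 0 < r) (hQ : Fr f (Fintype.card F ^ r)) :
    LinearMap.trace _ _ (ρ f) = (((Fintype.card F ^ r : ℕ) -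
      cnt (fun i => (aeval c (a i) : kk F)) (Fintype.card F ^ r) : ℤ) : ℤ_[l]) := by
  exact h.tr hl hO (res_inj hN hc) (fun i => ev_sub hO (a i)) hf h0 hQ

/-- `IsT.scale` with `u = (ev D)⁻¹`, `w = 0`. -/
theorem IsT.twist (h : IsT l (fun i => ev (a i)) ρ) (hD : D ≠ 0) :
    ∃ ρ' : Gam F →* End ℤ_[l] (Kp g → ℤ_[l]), IsT l (fun i => ev (D * a i)) ρ' ∧
      ∀ σ, ρ' σ = (-1 : ℤ_[l]) ^ (sg (ev D) σ).val • ρ σ := by
  have h0 : ev D ≠ 0 := ev_ne hD
  obtain ⟨ρ', h1, h2⟩ := h.scale (u := (ev D)⁻¹) (w := 0)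
    (fun σ => by rw [map_inv₀, gam_ev]) (fun σ => map_zero _) (inv_ne_zero h0)
  refine ⟨ρ', ?_, fun σ => ?_⟩
  · have e1 : (fun i => (ev (a i) - 0) / (ev D)⁻¹) = fun i => ev (D * a i) := by
      funext i
      rw [sub_zero, div_inv_eq_mul, mul_comm, ev, ev, ev, map_mul]
    rwa [e1] at h1
  · rw [h2, thg2_inv (gam_ev _ _) h0]

/-- Inertia at a simple root of the twisting polynomial: `IsT.scale` with `u = ev D`, `unrP`,
`simple_root`, `Over.kap_val` as in `GV.tm_neg`. -/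
theorem IsT.neg (hl : (l : F) ≠ 0) (h : IsT l (fun i => ev (D * a i)) ρ)
    (hN : ∀ i k, i ≠ k → a i - a k ∣ N) (hsq : Squarefree (N * D)) (hc : aeval c D = 0)
    (hO : Over O (some c)) {σ : Gam F} (hσ : σ ∈ Ine O) (h1 : sg (pl (some c)) σ = 1) :
    ρ σ = -1 := by
  obtain ⟨h2, h3⟩ := simple_root (p := D) (q := N) (by rwa [mul_comm]) hc
  have h0 : ev D ≠ 0 := ev_ne (right_ne_zero_of_mul hsq.ne_zero)
  obtain ⟨ρ', h4, h5⟩ := h.scale (u := ev D) (w := 0) (fun σ => gam_ev _ _)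
    (fun σ => map_zero _) h0
  have e1 : (fun i => (ev (D * a i) - 0) / ev D) = fun i => ev (a i) := by
    funext i
    rw [sub_zero, ev, map_mul, mul_div_cancel_left₀ _ h0]
  rw [e1] at h4
  have h6 : ρ' σ = 1 := h4.unrP hl hN c h2 O hO σ hσ
  have h7 : sg (ev D) σ = 1 := by
    rw [sg, hO.kap_val prim_one hσ (gam_ev _ _) (j := 1) (by rw [zpow_one, h3 O hO]),
      Int.cast_one, one_mul, ← sg, h1]
  rw [h5, h7, show (1 : ZMod (2 ^ 1)).val = 1 from rfl, pow_one, thg2_neg] at h6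
  rw [← h6, neg_neg]

/-- The place at infinity: `IsT.scale` with `u = tt F ^ r`, `w = ev (a i₀)`; the residue of
`(a i - a i₀) / t ^ r` is the coefficient of `t ^ r` (`val_inf_poly` or directly); `GF.GV.chi_inf`
shows how to compute `sg (tt F ^ r)`; `WtP.neg`. -/
theorem IsT.inf {ρ : Gam F →* End ℤ_[2] (Kp g → ℤ_[2])} (h : IsT 2 (fun i => ev (a i)) ρ) {r : ℕ}
    (hd : ∀ i k, i ≠ k → a i - a k ≠ 0 ∧ (a i - a k).natDegree = r) (hO : Over O none) :
    (∀ σ ∈ Ine O, ρ σ = GF.sgz (r * sg (pl none) σ) • 1) ∧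
      ∀ j : ℤ_[2] →+* ℂ, Function.Injective j → ∀ f ∈ St O, ∀ d, 0 < d →
        Fr f (Fintype.card F ^ d) → ∃ P, WtP j P (Fintype.card F ^ d) ∧ aeval (ρ f) P = 0 := by
  have hne : Nonempty I := by
    obtain ⟨K, _, _, _, ⟨T⟩⟩ := h
    exact Fintype.card_pos_iff.1 (by rw [T.card]; omega)
  obtain ⟨i₀⟩ := hne
  have h0 : tt F ^ r ≠ 0 := pow_ne_zero _ tt_ne
  obtain ⟨ρ', h4, h5⟩ := h.scale (u := tt F ^ r) (w := ev (a i₀))
    (fun σ => by rw [map_pow, gam_tt]) (fun σ => gam_ev _ _) h0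
  have hv : ∀ i k, i ≠ k → O.valuation ((ev (a i) - ev (a k)) / tt F ^ r) = 1 := by
    intro i k hik
    have := val_inf_poly hO (hd i k hik).1
    rwa [(hd i k hik).2, ev, map_sub] at this
  have hm : ∀ i, (ev (a i) - ev (a i₀)) / tt F ^ r ∈ O := by
    intro i
    by_cases hi : i = i₀
    · rw [hi, sub_self, zero_div]
      exact O.zero_mem
    · exact (O.valuation_le_one_iff _).1 (hv i i₀ hi).le
  choose eb heb using fun i => hO.res (hm i)
  have hi : Function.Injective eb := by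
    intro i k hik
    by_contra hne
    have h1 := Valuation.map_sub_lt _ (heb i) (heb k)
    rw [hik, sub_sub_sub_cancel_right, ← sub_div, sub_sub_sub_cancel_right, hv i k hne] at h1
    exact lt_irrefl _ h1
  have hs : ∀ σ : Gam F, sg (tt F ^ r) σ = r * sg (pl none) σ := by
    intro σ
    rw [GF.sg_pow (gam_tt σ) tt_ne, ← thg2_inv (gam_tt σ) tt_ne]
    rfl
  have h2 : ((2 : ℕ) : F) ≠ 0 := thg2_two
  refine ⟨fun σ hσ => ?_, fun j hj f hf d hd0 hQ => ?_⟩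
  · have h6 : ρ' σ = 1 := h4.unr h2 hO hi heb hσ
    rw [h5, hs] at h6
    rw [← h6, GF.sgz, smul_smul, ← mul_pow, neg_mul_neg, one_mul, one_pow, one_smul]
  · obtain ⟨P, hP, h6⟩ := h4.wt hO hi heb hj hf hd0 hQ
    rw [h5] at h6
    rcases z2_cases (sg (tt F ^ r) f) with h7 | h7
    · rw [h7, ZMod.val_zero, pow_zero, one_smul] at h6
      exact ⟨P, hP, h6⟩
    · rw [h7, show (1 : ZMod (2 ^ 1)).val = 1 from rfl, pow_one, thg2_neg] at h6
      obtain ⟨P', hP', h8⟩ := hP.neg h6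
      rw [neg_neg] at h8
      exact ⟨P', hP', h8⟩

end

end Pool.Agent.Lib.MP_16ef92_ag.HY
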