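import Mathlib
import Pool.Agent.Lib.MP_16ef92_ag.HY.BLev
import Pool.Agent.Lib.MP_16ef92_ag.HY.BKc
import Pool.Agent.Lib.MP_16ef92_ag.HY.ThG

set_option autoImplicit false
set_option linter.unusedSectionVars false
set_option linter.unusedVariables false
set_option linter.style.haveILetI false

namespace Pool.Agent.Lib.MP_16ef92_ag.HY

open Polynomial Module AL RS TP Pool.Agent.Lib.MP_6adaea_nt

noncomputable section

variable {F : Type} [Field F] [Clos F] [Fintype F] [hq : Fact (Odd (Fintype.card F))]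
  {I : Type} [Fintype I] {g l : ℕ} [Fact l.Prime] {a : I → F[X]}
  {ρ : Gam F →* End ℤ_[l] (Kp g → ℤ_[l])}

/-- A level that fixes the torsion. -/
theorem exists_lev {N : F[X]} {K : Type} [Field K] [Algebra (Ob F) K] [IsFF (Ob F) K]
    (hl : (l : F) ≠ 0) (T : TH l (fun i => ev (a i)) ρ K) (hN : ∀ i k, i ≠ k → a i - a k ∣ N)
    (m : ℕ) : ∃ U : OS F, AdU N U ∧ ∀ σ ∈ U.H, ∀ v, (T.sa σ).pic (T.ev v m) = T.ev v m := by
  let G : Subgroup (Gam F) :=
    { carrier := {σ | ∀ v, (T.sa σ).pic (T.ev v m) = T.ev v m}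
      mul_mem' := fun {σ τ} hσ hτ v => by rw [map_mul, mul_pic, hτ v, hσ v]
      one_mem' := fun v => by rw [map_one, one_pic]
      inv_mem' := fun {σ} hσ v => by
        conv_lhs => rw [← hσ v, ← mul_pic, ← map_mul, inv_mul_cancel, map_one, one_pic] }
  exact exists_adU G ((T.isT.near m).mono fun σ hσ _ v => by
    rw [← T.eqv]
    exact (T.ta.eq_iff m _ _).2 (hσ v)) fun c hc O hO σ hσ v => by
      rw [← T.eqv, T.isT.unrP hl hN c hc O hO σ hσ, End.one_apply]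

/-- The classes on the family of curves. -/
theorem IsT.cls {N : F[X]} [Fact (N ≠ 0)] (hl : (l : F) ≠ 0) (h : IsT l (fun i => ev (a i)) ρ)
    (hN : ∀ i k, i ≠ k → a i - a k ∣ N) : Cls N a ρ := by
  intro _ _ m _ ζ hζ
  obtain ⟨K, _, _, _, ⟨T⟩⟩ := h
  obtain ⟨U, hU, hf⟩ := exists_lev hl T hN (m + 1)
  have := lev_ded hU
  have := lev_jac hU
  have := hU.normal
  have hp : Fact (ringChar F).Prime := ⟨CharP.char_is_prime F _⟩
  have : CharP K (ringChar F) := charP_of_injective_algebraMap (algebraMap (Ob F) K).injective _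
  have hcf : ∀ P, ((bU N U (cf N P) : lev N U.H) : Om F) = ev P := fun P =>
    (cf_val P).trans (twa_alg P)
  obtain ⟨φ, hφ⟩ := exists_ym_lev (N := N) U (fun _ => rfl) T.he
  have hS : Dsc T.x T.y φ (ringChar F) (T.sa '' U.H) := by
    refine ⟨?_, ?_, fun c hc => ?_⟩
    · rintro _ ⟨σ, -, rfl⟩
      exact T.sa_x σ
    · rintro _ ⟨σ, -, rfl⟩
      exact T.sa_y σ
    · obtain ⟨s, w, hw⟩ := ob_pow c
      obtain ⟨r, hr, hi⟩ := exists_den (N := N) w
      rw [twa_alg] at hi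
      refine ⟨s, algebraMap (lev N U.H) _ ⟨_, hi, fun σ hσ => ?_⟩,
        algebraMap (lev N U.H) _ (bU N U (cf N r)), ?_, ?_⟩
      · rw [map_mul, gam_ev, (lf_fix hw).1 ((T.sa_a σ c).symm.trans (hc _ ⟨σ, hσ, rfl⟩))]
      · rw [hφ.alg, _root_.map_ne_zero, map_ne_zero_iff _ iU_inj]
        exact fun e0 => ev_ne hr ((hcf r).symm.trans (congrArg Subtype.val e0))
      · rw [hφ.alg, hφ.alg, ← map_pow, ← map_mul, hw, mul_comm]
        exact congrArg _ ((congrArg (fun z => ob z * ob w) (hcf r)).trans (map_mul ob _ _).symm)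
  obtain ⟨G, c, h3, h4⟩ := exists_kc (l := l) (lev_nf U) (good_lev U) T.he hS hφ
    (okF_lev U T.he.odd hN) iU_inj
    (by rw [← pow_succ, Nat.cast_pow]; exact pow_ne_zero _ (ob_cast hl).1)
    (fun b hb => dvd_of_two Fact.out m b (pow_succ l m ▸ hb))
    ((prim_lev (N := N) U hζ).map (algebraMap _ _)) ((Pi.evalAddMonoidHom _ (m + 1)).comp T.ev)
    (fun v => pow_succ l m ▸ T.ta.tors v (m + 1)) (by rintro v _ ⟨σ, hσ, rfl⟩; exact hf σ hσ v)
  choose B hB hG using fun v => (h3 v).2.1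
  refine ⟨U, hU, c, fbr_lev hl hN (fun _ => rfl) T.he hφ hζ (B := fun i => B (Pi.single i 1)) ?_
    (fun i => hG _) (fun i => (h3 _).2.2) fun i => (h3 _).1,
    fun σ χ q e1 e2 e3 e4 v => h4 (T.sa σ) χ q (T.sa_x σ) (T.sa_y σ) ?_ ?_ v _ (T.eqv σ v _)⟩
  · have h5 : ∀ v, AL.cl (B v) = T.ev v m := fun v => (hB v).trans ((T.ta.mem v).2 m)
    simpa only [h5] using T.ta.bas m
  · refine RingHom.congr_fun (f := φ.comp χ) (g := ((T.sa σ).γ : K →+* K).comp φ)
      (Y_ext (RingHom.ext fun r => ?_) ?_ ?_)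
    · change φ (χ (algebraMap _ _ r)) = (T.sa σ).γ (φ (algebraMap _ _ r))
      rw [e1 r (actL N U.H σ r) rfl, hφ.alg, hφ.alg, (T.sa σ).h, T.sa_a]
      exact congrArg _ (lf_ob σ r).symm
    · change φ (χ _) = (T.sa σ).γ (φ _)
      rw [e2, hφ.x, T.sa_x]
    · change φ (χ _) = (T.sa σ).γ (φ _)
      rw [e3, hφ.y, T.sa_y]
  · rw [← map_pow]
    exact e1 _ _ e4.symm

end

end Pool.Agent.Lib.MP_16ef92_ag.HY
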