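import Mathlib
import Pool.Agent.Lib.MP_16ef92_ag.FT.St

set_option autoImplicit false

namespace Pool.Agent.Lib.MP_16ef92_ag.HY

open Polynomial

noncomputable section

variable {F : Type} [Field F] {n : ℕ} {J : Fin n → Type} [∀ i, Fintype (J i)]

/-- The ideal of the affine variety `y_i^2 = ∏_j (x_i - e_ij(t))` for all `i`, `N(t) ≠ 0`.  The
variables are `t = X (inl 0)`, `z = X (inl 1)` with `z = 1 / N(t)`, `x_i = X (inr (inl i))` and
`y_i = X (inr (inr i))`. -/
def varIdeal (N : F[X]) (e : ∀ i, J i → F[X]) : Ideal (MvPolynomial (Fin 2 ⊕ Fin n ⊕ Fin n) F) :=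
  Ideal.span (insert (MvPolynomial.X (Sum.inl 1) * aeval (MvPolynomial.X (Sum.inl 0)) N - 1)
    (Set.range fun i => MvPolynomial.X (Sum.inr (Sum.inr i)) ^ 2 -
      ∏ j, (MvPolynomial.X (Sum.inr (Sum.inl i)) - aeval (MvPolynomial.X (Sum.inl 0)) (e i j))))

/-- The coordinate ring of the variety. -/
abbrev var (N : F[X]) (e : ∀ i, J i → F[X]) : Type :=
  MvPolynomial (Fin 2 ⊕ Fin n ⊕ Fin n) F ⧸ varIdeal N e

end

end Pool.Agent.Lib.MP_16ef92_ag.HY
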