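import Mathlib
import Pool.Agent.Lib.MP_16ef92_ag.HY.FStm
import Pool.Agent.Lib.MP_16ef92_ag.HY.TPrs
import Pool.Agent.Lib.MP_16ef92_ag.FT.Var

/-! The presentation of the coordinate ring, smoothness, integrality. -/

set_option autoImplicit false
set_option linter.unusedSectionVars false
set_option linter.unusedVariables false

namespace Pool.Agent.Lib.MP_16ef92_ag.HY

open Polynomial CategoryTheory AlgebraicGeometry TensorProduct

noncomputable section

section Var

variable {F : Type} [Field F] {n : ℕ} {J : Fin n → Type} [∀ i, Fintype (J i)] (N : F[X])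
  (e : ∀ i, J i → F[X])

/-- The coordinates. -/
def vv (i : Fin 2 ⊕ Fin n ⊕ Fin n) : var N e := Ideal.Quotient.mk _ (MvPolynomial.X i)

theorem vv_aeval (P : F[X]) : aeval (vv N e (.inl 0)) P =
    Ideal.Quotient.mk (varIdeal N e) (aeval (MvPolynomial.X (Sum.inl 0)) P) :=
  aeval_algHom_apply (Ideal.Quotient.mkₐ F (varIdeal N e)) _ P

theorem vv_inv : aeval (vv N e (.inl 0)) N * vv N e (.inl 1) = 1 := by
  rw [mul_comm, vv_aeval, vv, ← map_mul, ← map_one (Ideal.Quotient.mk (varIdeal N e))]
  exact Ideal.Quotient.eq.2 (Ideal.subset_span (Set.mem_insert _ _))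

/-- The structure map from the base. -/
def vb : Localization.Away N →+* var N e :=
  IsLocalization.Away.lift N (g := (aeval (vv N e (.inl 0))).toRingHom)
    (IsUnit.of_mul_eq_one _ (vv_inv N e))

theorem vb_alg (P : F[X]) : vb N e (algebraMap F[X] _ P) = aeval (vv N e (.inl 0)) P :=
  IsLocalization.Away.lift_eq _ _ P

theorem vb_inv : vb N e (IsLocalization.Away.invSelf N) = vv N e (.inl 1) := by
  refine (IsUnit.of_mul_eq_one _ (vv_inv N e)).mul_left_cancel ?_
  rw [vv_inv, ← vb_alg, ← map_mul, IsLocalization.Away.mul_invSelf, map_one]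

theorem vb_C (c : F) : vb N e (algebraMap F _ c) = algebraMap F _ c := by
  rw [IsScalarTower.algebraMap_apply F F[X] (Localization.Away N), vb_alg, AlgHom.commutes]

theorem prs_var : Prs (mp (algebraMap F[X] _) e) (vb N e)
    (fun i => vv N e (.inr (.inl i))) fun i => vv N e (.inr (.inr i)) := by
  refine ⟨fun i => ?_, fun Z _ ψ x y h => ?_, fun Z _ χ χ' h1 h2 h3 => ?_⟩
  · simp only [vb_alg, vv_aeval]
    simp only [vv, ← map_pow, ← map_sub, ← map_prod]
    exact Ideal.Quotient.eq.2 (Ideal.subset_span (Set.mem_insert_of_mem _ ⟨i, rfl⟩))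
  · let w : MvPolynomial (Fin 2 ⊕ Fin n ⊕ Fin n) F →+* Z :=
      MvPolynomial.eval₂Hom (ψ.comp (algebraMap F _)) (Sum.elim ![ψ (algebraMap F[X] _ X),
        ψ (IsLocalization.Away.invSelf N)] (Sum.elim x y))
    have hw : ∀ i, w (MvPolynomial.X i) = _ := fun i => MvPolynomial.eval₂Hom_X' _ _ i
    have h0 : w.comp (aeval (MvPolynomial.X (Sum.inl 0))).toRingHom =
        ψ.comp (algebraMap F[X] _) := by
      refine Polynomial.ringHom_ext (fun c => ?_) ?_
      · change w (aeval _ (Polynomial.C c)) = _
        rw [aeval_C]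
        exact MvPolynomial.eval₂Hom_C _ _ c
      · change w (aeval _ X) = _
        rw [aeval_X]
        exact hw _
    have h1 : ∀ P : F[X], w (aeval (MvPolynomial.X (Sum.inl 0)) P) = ψ (algebraMap F[X] _ P) :=
      fun P => RingHom.congr_fun h0 P
    refine ⟨Ideal.Quotient.lift _ w fun t ht => ?_, IsLocalization.ringHom_ext
      (Submonoid.powers N) (RingHom.ext fun P => ?_), fun i => hw _, fun i => hw _⟩
    · refine (Ideal.span_le (I := RingHom.ker w)).2 ?_ ht
      rintro _ (rfl | ⟨i, rfl⟩)
      · rw [SetLike.mem_coe, RingHom.mem_ker, map_sub, map_mul, h1, hw, map_one, sub_eq_zero,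
          mul_comm]
        exact (map_mul ψ _ _).symm.trans
          ((congrArg ψ (IsLocalization.Away.mul_invSelf _)).trans (map_one ψ))
      · rw [SetLike.mem_coe, RingHom.mem_ker, map_sub, map_prod, map_pow, hw, sub_eq_zero]
        refine (h i).trans (Finset.prod_congr rfl fun j _ => ?_)
        rw [map_sub, h1, hw]
        rfl
    · rw [RingHom.comp_apply, RingHom.comp_apply, vb_alg, vv_aeval, Ideal.Quotient.lift_mk]
      exact h1 P
  · have h4 : ∀ r, χ (vb N e r) = χ' (vb N e r) := fun r => RingHom.congr_fun h1 r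
    refine Ideal.Quotient.ringHom_ext (MvPolynomial.ringHom_ext (fun c => ?_) ?_)
    · have := h4 (algebraMap F _ c)
      rw [vb_C] at this
      exact this
    · rintro (i | i | i)
      · fin_cases i
        · have := h4 (algebraMap F[X] _ X)
          rw [vb_alg, aeval_X] at this
          exact this
        · have := h4 (IsLocalization.Away.invSelf N)
          rw [vb_inv] at this
          exact this
      · exact h2 i
      · exact h3 i

end Var

theorem ff_sep {R I : Type} [CommRing R] [Fintype I] {e : I → R}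
    (h : ∀ j k, j ≠ k → IsUnit (e j - e k)) : (ff e).Separable := by
  classical
  exact separable_prod' (fun j _ k _ hjk => isCoprime_X_sub_C_of_isUnit_sub (h j k hjk))
    fun _ _ => separable_X_sub_C

/-- The fibre product of the curves is locally standard smooth over the base. -/
theorem fib_loc {R ι : Type} [CommRing R] [Fintype ι] {J : ι → Type} [∀ i, Fintype (J i)]
    (a : ∀ i, J i → R) (h2 : IsUnit (2 : R)) (h : ∀ i j k, j ≠ k → IsUnit (a i j - a i k)) :
    RingHom.Locally (RingHom.IsStandardSmoothOfRelativeDimension (Fintype.card ι))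
      (algebraMap R (fibRing a)) := by
  classical
  let v : ι → MvPolynomial (ι ⊕ ι) R := fun i => MvPolynomial.X (Sum.inr i) ^ 2 -
    ∏ j, (MvPolynomial.X (Sum.inl i) - MvPolynomial.C (a i j))
  have hv : ∀ i, v i = MvPolynomial.X (Sum.inr i) ^ 2 -
      aeval (MvPolynomial.X (Sum.inl i) : MvPolynomial (ι ⊕ ι) R) (ff (a i)) := fun i => by
    rw [ff_aeval]
    rfl
  let c : Bool → ι → ι ⊕ ι := fun e i => Bool.rec (Sum.inl i) (Sum.inr i) e
  have hc : ∀ e i, Sum.elim id id (c e i) = i := fun e i => by cases e <;> rfl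
  have hi : ∀ e : ι → Bool, Function.Injective fun i => c (e i) i := fun e i j hij => by
    rw [← hc (e i) i, ← hc (e j) j]
    exact congrArg _ hij
  let P := fun e : ι → Bool => Algebra.PreSubmersivePresentation.naive (v := v) _ (hi e)
  have hd : ∀ e, (P e).dimension = Fintype.card ι := fun e => by
    simp [Algebra.Presentation.dimension]
  have hz : ∀ e i j, i ≠ j → (v j).pderiv (c e i) = 0 := fun e i j hij => by
    have h1 : Sum.inl j ≠ c e i := fun h => hij ((hc e i).symm.trans (congrArg _ h.symm))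
    have h3 : Sum.inr j ≠ c e i := fun h => hij ((hc e i).symm.trans (congrArg _ h.symm))
    simp only [hv, map_sub, Derivation.comp_aeval_eq, Derivation.leibniz_pow,
      MvPolynomial.pderiv_X_of_ne h1, MvPolynomial.pderiv_X_of_ne h3, smul_zero, sub_zero]
  have hj : ∀ e, (P e).jacobian = Ideal.Quotient.mk _ (∏ i, (v i).pderiv (c (e i) i)) := fun e => by
    have : (P e).jacobiMatrix = Matrix.diagonal fun i => (v i).pderiv (c (e i) i) := by
      ext1 i j
      rw [Algebra.PreSubmersivePresentation.jacobiMatrix_naive, Matrix.diagonal_apply]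
      split_ifs with hij
      · rw [hij]
      · exact hz _ i j hij
    rw [Algebra.PreSubmersivePresentation.jacobian_eq_jacobiMatrix_det, this, Matrix.det_diagonal]
    rfl
  refine ⟨Set.range fun e => (P e).jacobian, ?_, ?_⟩
  · by_contra hne
    obtain ⟨m, hm, hle⟩ := Ideal.exists_le_maximal _ hne
    let φ : MvPolynomial (ι ⊕ ι) R →ₐ[R] _ :=
      (Ideal.Quotient.mkₐ R m).comp (Ideal.Quotient.mkₐ R _)
    have k : ∀ p, Ideal.Quotient.mk (Ideal.span (Set.range v)) p ∈ m → φ p = 0 := fun p hp =>
      Ideal.Quotient.eq_zero_iff_mem.2 hp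
    have r : ∀ j, φ (v j) = 0 := fun j => k _ (by
      rw [Ideal.Quotient.eq_zero_iff_mem.2 (Ideal.subset_span (Set.mem_range_self j))]
      exact zero_mem _)
    have t2 : (2 : fibRing a ⧸ m) ≠ 0 := by
      have := (h2.map (algebraMap R (fibRing a ⧸ m))).ne_zero
      rwa [map_ofNat] at this
    have ex : ∀ i, ∃ e, φ ((v i).pderiv (c e i)) ≠ 0 := fun i => by
      by_contra hn
      have e0 := r i
      have e1 : φ ((v i).pderiv (Sum.inr i)) = 0 := not_not.1 fun h => hn ⟨true, h⟩
      have e2 : φ ((v i).pderiv (Sum.inl i)) = 0 := not_not.1 fun h => hn ⟨false, h⟩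
      simp only [hv, Derivation.map_sub, Derivation.comp_aeval_eq, Derivation.leibniz_pow,
        MvPolynomial.pderiv_X_self,
        MvPolynomial.pderiv_X_of_ne (Sum.inl_ne_inr (a := i) (b := i)),
        MvPolynomial.pderiv_X_of_ne (Sum.inr_ne_inl (a := i) (b := i))] at e1 e2
      simp only [hv, map_sub, map_mul, map_pow, smul_eq_mul, mul_zero, mul_one, sub_zero,
        zero_sub, map_neg, neg_eq_zero, nsmul_eq_mul, Nat.cast_ofNat, map_ofNat,
        ← aeval_algHom_apply, Nat.add_one_sub_one, pow_one] at e0 e1 e2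
      rw [(mul_eq_zero.1 e1).resolve_left t2, zero_pow two_ne_zero, zero_sub, neg_eq_zero] at e0
      exact (ff_sep (h i)).aeval_derivative_ne_zero e0 e2
    choose e he using ex
    have := k _ (hle (Ideal.subset_span ⟨e, hj e⟩))
    rw [map_prod] at this
    exact Finset.prod_ne_zero_iff.2 (fun i _ => he i) this
  · rintro t ⟨e, rfl⟩
    exact ET.smo_away (P e) (hd e)

/-- The variety is smooth of dimension `n + 1`. -/
theorem var_smooth {F : Type} [Field F] (h2 : (2 : F) ≠ 0) {n : ℕ} {J : Fin n → Type}
    [∀ i, Fintype (J i)] {N : F[X]} {e : ∀ i, J i → F[X]}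
    (he : ∀ i j k, j ≠ k → e i j - e i k ∣ N) :
    SmoothOfRelativeDimension (n + 1)
      (Spec.map (CommRingCat.ofHom (algebraMap F (var N e)))) := by
  obtain ⟨ε, h, -⟩ := (prs_fib _).equiv (prs_var N e)
  refine FT.smooth_congr (R := fibRing (mp (algebraMap F[X] (Localization.Away N)) e))
    (AlgEquiv.ofRingEquiv (f := ε) fun c => ?_) ?_
  · rw [IsScalarTower.algebraMap_apply F (Localization.Away N) (fibRing _)]
    exact (RingHom.congr_fun h _).trans (vb_C N e c)
  rw [HasRingHomProperty.Spec_iff (P := @SmoothOfRelativeDimension (n + 1))]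
  have u2 : IsUnit (2 : Localization.Away N) := by
    have := (isUnit_iff_ne_zero.2 h2).map (algebraMap F (Localization.Away N))
    rwa [map_ofNat] at this
  obtain ⟨s, hs, hP⟩ := fib_loc (mp (algebraMap F[X] (Localization.Away N)) e) u2
    fun i j k hjk => by
      rw [← map_sub]
      exact IsLocalization.Away.isUnit_of_dvd N (he i j k hjk)
  refine ⟨s, hs, fun t ht => ?_⟩
  have h := (hP t ht).comp
    ((RingHom.IsStandardSmoothOfRelativeDimension.algebraMap_isLocalizationAway
      (Rᵣ := Localization.Away N) N).comp (FT.smo_poly F))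
  rw [Fintype.card_fin, zero_add, RingHom.comp_assoc, ← IsScalarTower.algebraMap_eq F F[X],
    ← IsScalarTower.algebraMap_eq F (Localization.Away N)] at h
  exact h

end

end Pool.Agent.Lib.MP_16ef92_ag.HY
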