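import Mathlib
import Pool.Agent.Lib.MP_16ef92_ag.HY.TPrs
import Pool.Agent.Lib.MP_16ef92_ag.HY.LMain
import Pool.Agent.Lib.MP_16ef92_ag.TP.Mono

set_option autoImplicit false
set_option linter.unusedSectionVars false
set_option linter.unusedVariables false
set_option linter.style.haveILetI false

namespace Pool.Agent.Lib.MP_16ef92_ag.HY

noncomputable section

open RS LH
open TP (mono mc_lift)

variable [Bg] {W Z : Type} [CommRing W] [CommRing Z] {n : ℕ} [NeZero n] {F : Sys Z}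

/-- The span of the ordered monomials in classes taken from the sets `cl i`. -/
def Spn (hF : F.Tor n) (s : H 0 F) {k : ℕ} (cl : Fin k → Set (H 1 (cst Z (ZMod n)))) (r : ℕ) :
    AddSubgroup (H r F) :=
  AddSubgroup.closure {ξ | ∃ (σ : Fin r → Fin k) (c : Fin r → H 1 (cst Z (ZMod n))),
    StrictMono σ ∧ (∀ t, c t ∈ cl (σ t)) ∧ ξ = mono hF s r c}

theorem monob_tail (hF : F.Tor n) (s : H 0 F) {k : ℕ}
    (cl : Fin (k + 1) → Set (H 1 (cst Z (ZMod n)))) (r : ℕ) :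
    Spn hF s (Fin.tail cl) r ≤ Spn hF s cl r := by
  refine AddSubgroup.closure_mono ?_
  rintro _ ⟨σ, c, hσ, hc, rfl⟩
  exact ⟨fun t => (σ t).succ, c, fun _ _ h => Fin.succ_lt_succ_iff.2 (hσ h), hc, rfl⟩

theorem monob_cup (hF : F.Tor n) (s : H 0 F) {k : ℕ}
    (cl : Fin (k + 1) → Set (H 1 (cst Z (ZMod n)))) {c₀ : H 1 (cst Z (ZMod n))} (h₀ : c₀ ∈ cl 0)
    (r : ℕ) {ξ : H r F} (h : ξ ∈ Spn hF s (Fin.tail cl) r) :
    cup hF c₀ r ξ ∈ Spn hF s cl (r + 1) := by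
  refine (AddSubgroup.closure_le ((Spn hF s cl (r + 1)).comap (cup hF c₀ r))).2 ?_ h
  rintro _ ⟨σ, c, hσ, hc, rfl⟩
  refine AddSubgroup.subset_closure ⟨Fin.cons 0 fun t => (σ t).succ, Fin.cons c₀ c, ?_,
    Fin.cases h₀ hc, rfl⟩
  intro t t' ht
  rcases Fin.eq_zero_or_eq_succ t' with rfl | ⟨u', rfl⟩
  · exact absurd ht (Fin.not_lt_zero t)
  rcases Fin.eq_zero_or_eq_succ t with rfl | ⟨u, rfl⟩
  · exact Fin.succ_pos _
  · exact Fin.succ_lt_succ_iff.2 (hσ (Fin.succ_lt_succ_iff.1 ht))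

variable (p : ℕ) [Fact p.Prime] [CharP OO p]

include p in
/-- Induction on the number of factors. -/
theorem span_mono (hC : CrvH n) (hW : Base W) (G : Sys W) (hG : G.Tor n) (ω : W →+* Z)
    (s : HH 0 G ω) (h0 : ∀ ξ : H 0 G, Hmap 0 (G.can ω) ξ ∈ AddSubgroup.zmultiples s)
    (h1 : ∀ (q : ℕ) (ξ : H (q + 1) G), Hmap (q + 1) (G.can ω) ξ = 0)
    {k : ℕ} {J κ : Fin k → Type} [∀ i, Fintype (J i)] [∀ i, Fintype (κ i)] {e : ∀ i, J i → W}
    {X : Type} [CommRing X] {φ : W →+* X} {x y : Fin k → X}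
    (hX : Prs e φ x y) (χ : X →+* Z) (hχ : χ.comp φ = ω)
    {Y : Fin k → Type} [∀ i, CommRing (Y i)] {f : ∀ i, W →+* Y i} {x₀ y₀ : ∀ i, Y i}
    (hY : ∀ i, Prs1 (e i) (f i) (x₀ i) (y₀ i))
    {c : ∀ i, κ i → H 1 (cst (Y i) (ZMod n))} (hc : ∀ i, Fbr n (f i) (c i))
    (cl : Fin k → Set (H 1 (cst Z (ZMod n))))
    (hcl : ∀ i (π : Y i →+* Z), π.comp (f i) = ω → π (x₀ i) = χ (x i) → π (y₀ i) = χ (y i) →
      ∀ ε, cpb π (c i ε) ∈ cl i)
    (r : ℕ) (ξ : HH r G φ) : HR r G χ hχ ξ ∈ Spn (hG.pb ω) s cl r := by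
  induction k generalizing X r with
  | zero =>
    obtain ⟨η, rfl⟩ := (Hmap_bij' r (G.can φ) hX.bij (fun _ _ _ h => h)
      fun _ v hv => ⟨v, hv, rfl⟩).2 ξ
    rw [HR_can]
    cases r with
    | zero =>
      refine (AddSubgroup.zmultiples_le_of_mem ?_ : _ ≤ Spn (hG.pb ω) s cl 0) (h0 η)
      exact AddSubgroup.subset_closure ⟨Fin.elim0, Fin.elim0, fun t => t.elim0, fun t => t.elim0,
        rfl⟩
    | succ q =>
      rw [h1]
      exact zero_mem _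
  | succ k ih =>
    have h₁ := prs_fib (J := fun i : Fin k => J i.succ) fun i => e i.succ
    obtain ⟨i, j, hP, e1, e2, e3, e4, e5⟩ := hX.step (hY 0) h₁
    generalize algebraMap W (fibRing (J := fun i : Fin k => J i.succ) fun i => e i.succ) = φ₁
      at h₁ hP
    obtain rfl : j.comp φ₁ = φ := hP.comm.symm.trans e1
    have hB := hW.of_ft h₁.ft
    have hf := (hc 0).bc hP
    have key : ∀ (r : ℕ) (z : HH r G φ₁), HR r G χ hχ (Hmap r ((G.pb φ₁).can j) z) ∈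
        Spn (hG.pb ω) s (Fin.tail cl) r := fun r z => by
      have h2 := ih h₁ (χ.comp j) hχ (fun i => hY i.succ) (fun i => hc i.succ) (Fin.tail cl)
        (fun i π p1 p2 p3 => hcl i.succ π p1 (p2.trans (congrArg χ (e4 i)))
          (p3.trans (congrArg χ (e5 i)))) r z
      exact Hmap_comp_of r ((G.pb φ₁).can j) (G.rm χ hχ) (G.rm (χ.comp j) hχ) rfl
        (fun _ _ _ => rfl) z ▸ h2
    cases r with
    | zero =>
      obtain ⟨z, rfl⟩ := lh_zero p hC hB hf (G.pb φ₁) (hG.pb φ₁) ξ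
      exact monob_tail _ _ _ _ (key 0 z)
    | succ q =>
      obtain ⟨z, m, rfl⟩ := lh_succ p hC hB hf q (G.pb φ₁) (hG.pb φ₁) ξ
      refine (map_add (HR (q + 1) G χ hχ) _ _).symm ▸ add_mem (monob_tail _ _ _ _ (key _ z)) ?_
      refine (map_sum (HR (q + 1) G χ hχ) _ _).symm ▸ sum_mem fun ε _ => ?_
      have h3 := cup_nat (hG.pb (j.comp φ₁)) (hG.pb ω) (G.rm χ hχ) (cpb i (c 0 ε)) q
        (Hmap q ((G.pb φ₁).can j) (m ε))
      have h4 : cpb χ (cpb i (c 0 ε)) ∈ cl 0 := (cpb_cpb i χ (c 0 ε)).symm ▸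
        hcl 0 (χ.comp i) (by rw [RingHom.comp_assoc, e1, hχ]) (congrArg χ e2) (congrArg χ e3) ε
      exact h3 ▸ monob_cup (hG.pb ω) s cl h4 q (key q (m ε))

include p in
/-- The same over an ind-etale algebra `T` without cohomology. -/
theorem span_top (hC : CrvH n) (hW : Base W) (G : Sys W) (hG : G.Tor n) {T : Type} [CommRing T]
    {d : W →+* T} (hd : FA.IE d) (s : HH 0 G d) (h0 : ∀ ξ, ξ ∈ AddSubgroup.zmultiples s)
    (h1 : ∀ (q : ℕ) (ξ : HH (q + 1) G d), ξ = 0)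
    {k : ℕ} {J κ : Fin k → Type} [∀ i, Fintype (J i)] [∀ i, Fintype (κ i)] {e : ∀ i, J i → W}
    {φ : T →+* Z} {x y : Fin k → Z} (hZ : Prs (mp d e) φ x y)
    {Y : Fin k → Type} [∀ i, CommRing (Y i)] {f : ∀ i, W →+* Y i} {x₀ y₀ : ∀ i, Y i}
    (hY : ∀ i, Prs1 (e i) (f i) (x₀ i) (y₀ i))
    {c : ∀ i, κ i → H 1 (cst (Y i) (ZMod n))} (hc : ∀ i, Fbr n (f i) (c i))
    (cl : Fin k → Set (H 1 (cst Z (ZMod n))))
    (hcl : ∀ i (π : Y i →+* Z), π.comp (f i) = φ.comp d → π (x₀ i) = x i → π (y₀ i) = y i →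
      ∀ ε, cpb π (c i ε) ∈ cl i)
    (r : ℕ) (ξ : HH r G (φ.comp d)) :
    ξ ∈ Spn (hG.pb (φ.comp d)) (HR 0 G φ rfl s) cl r := by
  have hX₀ := prs_fib e
  obtain ⟨i₀, e₀, ex₀, ey₀⟩ := hX₀.exists_map hZ (τ := d) fun _ _ => rfl
  have hP := hX₀.to_po hZ (τ := d) (fun _ _ => rfl) e₀ ex₀ ey₀
  obtain ⟨⟨W', u, d', hu, rfl⟩, X, _, i, j, χ, η, h, k1, k2, k3, rfl⟩ :=
    mc_lift hd hP (hW.gd.ft hX₀.ft) G r ξ
  choose Y' _ iY jY hPY using fun t => FA.exists_po (f t) u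
  have hf : ∀ (q : ℕ) (ζ : H q (G.pb u)), Hmap q ((G.pb u).can (φ.comp d')) ζ =
      HR q G φ rfl (HR q G d' rfl ζ) := fun q ζ =>
    (Hmap_comp_of q (G.rm d' rfl) (G.rm φ rfl) ((G.pb u).can (φ.comp d')) rfl
      (fun _ _ _ => rfl) ζ).symm
  refine span_mono p hC (hW.of_ft (RingHom.FiniteType.of_finitePresentation (FA.etale_fp hu)))
    (G.pb u) (hG.pb u) (φ.comp d')
    (HR 0 G φ rfl s) (fun ζ => ?_) (fun q ζ => ?_) (hX₀.po k1) χ k3 (Y := Y') (f := jY)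
    (x₀ := fun t => iY t (x₀ t)) (y₀ := fun t => iY t (y₀ t)) (fun t => (hY t).po (hPY t))
    (c := fun t e => cpb (iY t) (c t e))
    (fun t => (hc t).bc (hPY t)) cl (fun t π p1 p2 p3 e => ?_) r η
  · obtain ⟨m, hm⟩ := AddSubgroup.mem_zmultiples_iff.1 (h0 (HR 0 G d' rfl ζ))
    rw [hf, ← hm, map_zsmul]
    exact AddSubgroup.mem_zmultiples_iff.2 ⟨m, rfl⟩
  · rw [hf, h1 q (HR (q + 1) G d' rfl ζ)]
    exact map_zero _
  · rw [cpb_cpb]
    refine hcl t (π.comp (iY t)) ?_ (p2.trans ?_) (p3.trans ?_) e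
    · rw [RingHom.comp_assoc, (hPY t).comm, ← RingHom.comp_assoc, p1, RingHom.comp_assoc]
    · exact (RingHom.congr_fun k2 _).trans (ex₀ t)
    · exact (RingHom.congr_fun k2 _).trans (ey₀ t)

end

end Pool.Agent.Lib.MP_16ef92_ag.HY
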