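import Mathlib
import Pool.Agent.Lib.MP_16ef92_ag.HY.TMono
import Pool.Agent.Lib.MP_16ef92_ag.HY.TKr
import Pool.Agent.Lib.MP_16ef92_ag.TP.Pi

set_option autoImplicit false
set_option linter.unusedSectionVars false
set_option linter.unusedVariables false
set_option linter.style.haveILetI false

namespace Pool.Agent.Lib.MP_16ef92_ag.HY

noncomputable section

open RS LH Module AL
open TP (mono exists_monoL mono_nat mono_nsmul val_add_smul pi_zs pi_tor)

variable [Bg] {Z : Type} [CommRing Z] {l m : ℕ} [Fact l.Prime] [NeZero (l ^ m)] {F : Sys Z}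
  (hF : F.Tor (l ^ m)) (s : H 0 F) {k r d : ℕ} {κ : Fin k → Type} [∀ i, Fintype (κ i)]
  [∀ i, DecidableEq (κ i)] (cl : ∀ i, (κ i → ℤ_[l]) →+ H 1 (cst Z (ZMod (l ^ m))))
  {S : Finset (Fin k)} (hS : S.card = r) (e : Fin d ≃ ∀ i : S, κ i)

/-- The map from the tensor product. -/
def piS : (Fin d → ZMod (l ^ m)) →+ H r F :=
  AddMonoidHom.mk' (fun w => ∑ a : Fin d, (w a).val • mono hF s r fun t =>
    cl (S.orderIsoOfFin hS t) (Pi.single (e a (S.orderIsoOfFin hS t)) 1)) fun w w' => by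
      rw [← Finset.sum_add_distrib]
      exact Finset.sum_congr rfl fun a _ => val_add_smul (H_tor hF r _) _ _

theorem pi_exp {A B : Type} [AddCommGroup A] [Fintype B] [DecidableEq B]
    (h : ∀ a : A, l ^ m • a = 0) (c : (B → ℤ_[l]) →+ A) (x : B → ℤ_[l]) :
    c x = ∑ ε, ((PadicInt.toZModPow m (x ε)).val : ℤ) • c (Pi.single ε 1) := by
  have h1 : ∀ ε, ∃ y, x ε - ((PadicInt.toZModPow m (x ε)).val : ℤ_[l]) = (l : ℤ_[l]) ^ m * y :=
    fun ε => zp_zero.1 (by rw [map_sub, map_natCast, ZMod.natCast_zmod_val, sub_self])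
  choose y hy using h1
  have h2 : x = (∑ ε, (PadicInt.toZModPow m (x ε)).val • (Pi.single ε 1 : B → ℤ_[l])) +
      l ^ m • y := by
    funext ε
    rw [Pi.add_apply, Finset.sum_apply, Finset.sum_eq_single ε (fun b _ hb => by
      rw [Pi.smul_apply, Pi.single_eq_of_ne hb.symm, smul_zero]) (by simp), Pi.smul_apply,
      Pi.smul_apply, Pi.single_eq_same, nsmul_eq_mul, nsmul_eq_mul, mul_one, Nat.cast_pow, ← hy]
    ring
  conv_lhs => rw [h2, map_add, map_nsmul, h, add_zero, map_sum]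
  exact Finset.sum_congr rfl fun ε _ => by rw [map_nsmul, natCast_zsmul]

theorem piS_pu (x : ∀ i : S, κ i → ℤ_[l]) :
    piS hF s cl hS e (fun a => PadicInt.toZModPow m (pu (B := fun i : S => κ i) e x a)) =
      mono hF s r fun t => cl (S.orderIsoOfFin hS t) (x (S.orderIsoOfFin hS t)) := by
  classical
  obtain ⟨ν, hν⟩ := exists_monoL hF s r
  have h1 : (fun t => cl (S.orderIsoOfFin hS t) (x (S.orderIsoOfFin hS t))) = fun t => ∑ ε,
      ((PadicInt.toZModPow m (x (S.orderIsoOfFin hS t) ε)).val : ℤ) •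
        cl (S.orderIsoOfFin hS t) (Pi.single ε 1) :=
    funext fun t => pi_exp (H_tor pi_tor 1) _ _
  rw [h1, ← hν, ν.map_sum]
  change ∑ a : Fin d, _ = _
  refine Fintype.sum_equiv (e.trans (Equiv.piCongrLeft (fun i : S => κ i)
    (S.orderIsoOfFin hS).toEquiv).symm) _ _ fun a => ?_
  rw [ν.map_smul_univ, hν]
  refine (pi_zs (H_tor hF r _) _ _ ?_).symm
  beta_reduce
  rw [pu, map_prod, Int.cast_prod, ← (S.orderIsoOfFin hS).toEquiv.prod_comp]
  exact Finset.prod_congr rfl fun t _ => by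
    rw [Int.cast_natCast, ZMod.natCast_zmod_val]
    rfl

theorem piS_act {g : Z →+* Z} (μ : Mor g F F) {q : ℕ} (hs : Hmap 0 μ s = q • s)
    (f : ∀ i, End ℤ_[l] (κ i → ℤ_[l])) (hf : ∀ i v, cl i (f i v) = q • cpb g (cl i v))
    (w : Fin d → ZMod (l ^ m)) : q ^ r • Hmap r μ (piS hF s cl hS e w) =
      q • piS hF s cl hS e (redE (PadicInt.toZModPow m) d
        (kr (B := fun i : S => κ i) e fun i : S => f i) w) := by
  obtain ⟨ν, hν⟩ := exists_monoL hF s r
  have h1 : w = ∑ a, (w a).val • fun b => PadicInt.toZModPow m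
      (pu (B := fun i : S => κ i) e (fun i => (Pi.single (e a i) 1 : κ i → ℤ_[l])) b) := by
    funext b
    rw [Finset.sum_apply, Finset.sum_eq_single b (fun a _ h => by
      rw [Pi.smul_apply, pu_single, if_neg h.symm, map_zero, smul_zero]) (by simp), Pi.smul_apply,
      pu_single, if_pos rfl, map_one, nsmul_eq_mul, mul_one, ZMod.natCast_zmod_val]
  rw [h1]
  simp only [map_sum, map_nsmul, Finset.smul_sum]
  refine Finset.sum_congr rfl fun a _ => ?_
  rw [redE_apply, kr_pu, piS_pu, piS_pu, mono_nat hF hF, hs, mono_nsmul, smul_comm (q ^ r),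
    smul_comm q (w a).val, smul_comm (q ^ r)]
  refine congrArg _ (congrArg _ ?_)
  simp only [hf, ← hν, ← natCast_zsmul]
  rw [ν.map_smul_univ, Finset.prod_const, Finset.card_univ, Fintype.card_fin, Nat.cast_pow]

variable {d : {S : Finset (Fin k) // S.card = r} → ℕ}
  (e : ∀ S : {S : Finset (Fin k) // S.card = r}, Fin (d S) ≃ ∀ i : S.1, κ i)

/-- The sum over all subsets. -/
def piA : (∀ S, Fin (d S) → ZMod (l ^ m)) →+ H r F :=
  ∑ S, (piS hF s cl S.2 (e S)).comp (Pi.evalAddMonoidHom _ S)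

theorem piA_apply (w : ∀ S, Fin (d S) → ZMod (l ^ m)) :
    piA hF s cl e w = ∑ S, piS hF s cl S.2 (e S) (w S) := by
  rw [piA, AddMonoidHom.finsetSum_apply]
  rfl

theorem spn_le : Spn hF s (fun i => Set.range (cl i)) r ≤ (piA hF s cl e).range := by
  classical
  refine (AddSubgroup.closure_le _).2 ?_
  rintro _ ⟨σ, c, hσ, hc', rfl⟩
  have hc : (Finset.univ.map ⟨σ, hσ.injective⟩ : Finset (Fin k)).card = r := by simp
  have h1 : σ = (Finset.univ.map ⟨σ, hσ.injective⟩ : Finset (Fin k)).orderEmbOfFin hc :=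
    Finset.orderEmbOfFin_unique hc (fun t => by simp) hσ
  generalize (Finset.univ.map ⟨σ, hσ.injective⟩ : Finset (Fin k)) = T at hc h1
  have h2 : ∀ i : T, ∃ v, cl i v = c ((T.orderIsoOfFin hc).symm i) := fun i => by
    have := hc' ((T.orderIsoOfFin hc).symm i)
    rwa [h1, ← Finset.coe_orderIsoOfFin_apply, OrderIso.apply_symm_apply] at this
  choose v hv using h2
  refine ⟨Pi.single ⟨T, hc⟩ fun a => PadicInt.toZModPow m
    (pu (B := fun i : T => κ i) (e ⟨T, hc⟩) v a), ?_⟩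
  rw [piA_apply, Finset.sum_eq_single ⟨T, hc⟩ (fun b _ hb => by
    rw [Pi.single_eq_of_ne hb, map_zero]) (by simp), Pi.single_eq_same, piS_pu]
  simp only [hv, OrderIso.symm_apply_apply]

end

end Pool.Agent.Lib.MP_16ef92_ag.HY
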