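import Mathlib
import Pool.Agent.Lib.MP_16ef92_ag.HY.TIf
import Pool.Agent.Lib.MP_16ef92_ag.HY.TPi
import Pool.Agent.Lib.MP_16ef92_ag.HS.Rel
import Pool.Agent.Lib.MP_16ef92_ag.CV.GT7

set_option autoImplicit false
set_option linter.unusedSectionVars false
set_option linter.unusedVariables false
set_option linter.style.haveILetI false

namespace Pool.Agent.Lib.MP_16ef92_ag.HY

noncomputable section

open Polynomial AL RS LH Module
open TP hiding Prs Eqs Spn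

variable {F : Type} [Field F] [Clos F] [Fintype F] [hq : Fact (Odd (Fintype.card F))]
  {N : F[X]} [hN : Fact (N ≠ 0)] {k : ℕ} {J κ : Fin k → Type} [∀ i, Fintype (J i)]
  [∀ i, Fintype (κ i)] [∀ i, DecidableEq (κ i)] {e : ∀ i, J i → F[X]}
  {X Z : Type} [CommRing X] [CommRing Z]

variable (N) in
/-- The roots as elements of the base ring. -/
abbrev eB (e : ∀ i, J i → F[X]) : ∀ i, J i → Bb N := fun i j => cf N (e i j)

/-- The classes on a common level and on the top of the tower. -/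
theorem exists_cls [Bg] {l m : ℕ} [Fact l.Prime] [NeZero (l ^ m)]
    {ρ : ∀ i, Gam F →* End ℤ_[l] (κ i → ℤ_[l])} {ζ : kk F} (h : ∀ i, Cls1 N (e i) (ρ i) m ζ)
    {φ : top N →+* Z} {x y : Fin k → Z} (hZ : Eqs (mp φ (mp (aT N) (eB N e))) x y) :
    ∃ (U : OS F) (hU : AdU N U)
      (c : ∀ i, κ i → H 1 (cst (Yr (ff (eU N U (e i)))) (ZMod (l ^ m))))
      (cl : ∀ i, (κ i → ℤ_[l]) →+ H 1 (cst Z (ZMod (l ^ m)))),
      (∀ i, Fbr (l ^ m) (algebraMap (lev N U.H) _) (c i)) ∧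
      (∀ i (π : Yr (ff (eU N U (e i))) →+* Z),
        π.comp (algebraMap (lev N U.H) _) = φ.comp (dU hU) → π (xY _) = x i → π (yY _) = y i →
          ∀ ε, cpb π (c i ε) ∈ Set.range (cl i)) ∧
      ∀ (g : Gam F) (χ : Z →+* Z) (q : ℕ), χ.comp φ = φ.comp (actT N g) → (∀ i, χ (x i) = x i) →
        (∀ i, χ (y i) = y i) → g ζ = (ζ : Om F) ^ q →
          ∀ i v, cl i (ρ i g v) = q • cpb χ (cl i v) := by
  choose V hV c hf hc using h
  obtain ⟨_, ⟨U, hU, rfl⟩, h2⟩ := Fam.Ev.forall fun i => Fam.ev_mem (hV i).mem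
  have h3 : ∀ i, U.H ≤ (V i).H := fun i g hg => h2 ⟨g, U.le hg⟩ hg i
  choose ι ι1 ι2 ι3 using fun i => (prs_Y (eU N (V i) (e i))).exists_map (prs_Y (eU N U (e i)))
    (τ := Subring.inclusion (lev_le (h3 i))) fun _ _ => rfl
  have hP := fun i => (prs_Y (eU N (V i) (e i))).to_po (prs_Y (eU N U (e i)))
    (τ := Subring.inclusion (lev_le (h3 i))) (fun _ _ => rfl) (ι1 i) (ι2 i) (ι3 i)
  choose π' π1 π2 π3 using fun i => (prs_Y (eU N (V i) (e i))).ex Z (φ.comp (dU (hV i)))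
    (fun _ => x i) (fun _ => y i) fun _ => hZ i
  refine ⟨U, hU, fun i ε => cpb (ι i) (c i (Pi.single ε 1)),
    fun i => (Hmap 1 (cstMap (π' i) (AddMonoidHom.id _))).comp (c i),
    fun i => (hf i).bc (hP i),
    fun i π e1 e2 e3 ε => ⟨Pi.single ε 1, ?_⟩, fun g χ q e1 e2 e3 hg i v => ?_⟩
  · have h1 : π' i = π.comp (ι i) := (prs_Y _).uq Z _ _
      (by rw [π1, RingHom.comp_assoc, ι1, ← RingHom.comp_assoc, e1]; rfl)
      (fun u => by rw [π2 i u, RingHom.comp_apply, ι2 i u, e2])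
      fun u => by rw [π3 i u, RingHom.comp_apply, ι3 i u, e3]
    rw [cpb_cpb, ← h1]
    rfl
  · have := (hV i).normal
    obtain ⟨ψ, f1, f2, f3⟩ := (prs_Y (eU N (V i) (e i))).exists_map (prs_Y (eU N (V i) (e i)))
      (τ := actL N (V i).H g) fun _ j => Subtype.ext (gam_emb g _)
    have h1 : χ.comp (π' i) = (π' i).comp ψ := (prs_Y _).uq Z _ _
      (by rw [RingHom.comp_assoc, π1, ← RingHom.comp_assoc, e1, RingHom.comp_assoc _ ψ, f1,
        ← RingHom.comp_assoc _ _ (π' i), π1]; rfl)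
      (fun u => by rw [RingHom.comp_apply, π2 i u, e2, RingHom.comp_apply, f2 u, π2 i u])
      fun u => by rw [RingHom.comp_apply, π3 i u, e3, RingHom.comp_apply, f3 u, π3 i u]
    have h4 := hc i g ψ q (fun r r' hr => by
      rw [show r' = actL N (V i).H g r from Subtype.ext hr]
      exact RingHom.congr_fun f1 r) (f2 ()) (f3 ()) hg v
    change cpb (π' i) (c i _) = q • cpb χ (cpb (π' i) (c i v))
    rw [h4, cpb_cpb, h1, ← cpb_cpb]
    exact map_nsmul _ _ _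

variable (N e) in
/-- The fibre product over the base and over the top of the tower. -/
structure Dat (X Z : Type) [CommRing X] [CommRing Z] where
  φ : Bb N →+* X
  x : Fin k → X
  y : Fin k → X
  ψ : top N →+* Z
  a : X →+* Z
  ρ : Gam F →* (Z →+* Z)
  prs : Prs (eB N e) φ x y
  prs' : Prs (mp (aT N) (eB N e)) ψ (a ∘ x) (a ∘ y)
  comm : a.comp φ = ψ.comp (aT N)
  act : ∀ g, (ρ g).comp ψ = ψ.comp (actT N g)
  fx : ∀ g i, ρ g (a (x i)) = a (x i)
  fy : ∀ g i, ρ g (a (y i)) = a (y i)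

theorem exists_dat {φ : Bb N →+* X} {x y : Fin k → X} (h : Prs (eB N e) φ x y) :
    ∃ (Z : Type) (_ : CommRing Z) (D : Dat N e X Z), D.φ = φ ∧ D.x = x ∧ D.y = y := by
  have h' := prs_fib (mp (aT N) (eB N e))
  obtain ⟨a, a1, a2, a3⟩ := h.exists_map h' (τ := aT N) fun _ _ => rfl
  obtain ⟨ρ, hρ⟩ := h'.exists_act (actT N) fun g _ _ => actT_cf g _
  refine ⟨_, _, ⟨φ, x, y, _, a, ρ, h, ?_, a1, fun g => (hρ g).1, fun g i => ?_, fun g i => ?_⟩,
    rfl, rfl, rfl⟩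
  · rw [(funext a2 : a ∘ x = _), (funext a3 : a ∘ y = _)]
    exact h'
  · rw [a2]
    exact (hρ g).2.1 i
  · rw [a3]
    exact (hρ g).2.2 i

variable (D : Dat N e X Z)

theorem Dat.po : FA.PO (aT N) D.φ D.ψ D.a :=
  (D.prs.to_po D.prs' (fun _ _ => rfl) D.comm (fun _ => rfl) fun _ => rfl).symm

theorem Dat.ie : FA.IE D.a := ie_aT.baseChange D.po.symm

/-- A lift of the Frobenius. -/
theorem Dat.frob {s : Gam F} {fr : X →+* X} (h : fr.comp D.φ = D.φ.comp (actL N (Geo F) s))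
    (hx : ∀ i, fr (D.x i) = D.x i) (hy : ∀ i, fr (D.y i) = D.y i) :
    (D.ρ s).comp D.a = D.a.comp fr := by
  refine D.prs.uq Z _ _ ?_ (fun i => ?_) fun i => ?_
  · rw [RingHom.comp_assoc, D.comm, ← RingHom.comp_assoc, D.act, RingHom.comp_assoc D.φ fr, h,
      ← RingHom.comp_assoc, D.comm]
    rfl
  · rw [RingHom.comp_apply, RingHom.comp_apply, D.fx, hx]
  · rw [RingHom.comp_apply, RingHom.comp_apply, D.fy, hy]

variable [Bg] (p : ℕ) [CharP F p] [CharP OO p]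

include p D in
theorem Dat.good : Good X := (good_sub p _).ft D.prs.ft

include p in
theorem Dat.gt : CV.GT D.a (D.ρ.comp (Geo F).subtype) (fam N) := by
  refine (gt_top fun G s hs => ?_).bc ie_aT D.po (fun g => ⟨D.act g, ?_⟩) fun G s hs => ?_
  · obtain ⟨U, t, h1, h2⟩ := G.ie_lift ie_aT (good_sub p _) hs
    exact ⟨U, t, h1, (funext h2).symm⟩
  · refine D.frob (fr := RingHom.id X) (RingHom.ext fun r => ?_) (fun _ => rfl) fun _ => rfl
    exact congrArg D.φ (Subtype.ext (r.2.2 g g.2).symm)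
  · obtain ⟨U, t, h1, h2⟩ := G.ie_lift D.ie ((D.good p).ie D.ie) hs
    exact ⟨U, t, h1, (funext h2).symm⟩

variable {l m : ℕ} [Fact l.Prime] [NeZero (l ^ m)] [NeZero ((l ^ m : ℕ) : OO)]

include p in
/-- The cohomology of the top is spanned by the monomials. -/
theorem Dat.cls (hl : (l : F) ≠ 0) (hC : CrvH (l ^ m))
    {ρ : ∀ i, Gam F →* End ℤ_[l] (κ i → ℤ_[l])}
    (h : ∀ ζ : kk F, IsPrimitiveRoot ζ (l ^ m) → ∀ i, Cls1 N (e i) (ρ i) m ζ) :
    ∃ (s : H 0 (mu (l ^ m) Z)) (cl : ∀ i, (κ i → ℤ_[l]) →+ H 1 (cst Z (ZMod (l ^ m)))),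
      (∀ r ξ, ξ ∈ Spn (mu_tor (l ^ m)) s (fun i => Set.range (cl i)) r) ∧
      ∀ (g : Gam F) (q : ℕ), (g ∈ Geo F ∧ q = 1) ∨ Fr g q →
        Hmap 0 (muMap (l ^ m) (D.ρ g)) s = q • s ∧
          ∀ i v, cl i (ρ i g v) = q • cpb (D.ρ g) (cl i v) := by
  have hp : Fact p.Prime := ⟨CharP.char_is_prime F p⟩
  obtain ⟨r, hr⟩ := exists_prm (F := F) (n := l ^ m) (by push_cast; exact pow_ne_zero _ hl)
  obtain ⟨ζ, rfl⟩ := root_one_const (NeZero.pos (l ^ m)) hr.pow_eq_one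
  have hζ : IsPrimitiveRoot ζ (l ^ m) := IsPrimitiveRoot.of_map_of_injective (f := (kk F).val) hr
    Subtype.val_injective
  have hT : IsPrimitiveRoot (aT N (kB N ζ)) (l ^ m) :=
    hζ.map_of_injective ((aT N).comp (kB N)).injective
  obtain ⟨s₀, hs₀⟩ := exists_sec (n := l ^ m) hT.pow_eq_one
  obtain ⟨U, hU, c, cl, h1, h2, h3⟩ := exists_cls (h ζ hζ) (φ := D.ψ) D.prs'.eq
  have hs : ∀ x : Pnt Z, uv (((muMap (l ^ m) D.ψ).app s₀).1 x) = x (D.ψ (aT N (kB N ζ))) :=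
    fun x => hs₀ (x.comp D.ψ)
  refine ⟨(muMap (l ^ m) D.ψ).app s₀, cl, fun r ξ => ?_, fun g q hg => ?_⟩
  · exact span_top p hC (base_lev p hU) (mu (l ^ m) (lev N U.H)) (mu_tor _) (ie_dU hU) s₀
      (H0_dom (good_sub p _) hT hs₀) (H_top p hC) (e := fun i => eU N U (e i))
      D.prs' (fun i => prs_Y _) h1 (fun i => Set.range (cl i)) h2 r ξ
  · have e : g ζ = (ζ : Om F) ^ q := by
      rcases hg with ⟨hg, rfl⟩ | hg
      · rw [geo_fix hg, pow_one]
      · exact hg ζ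
    refine ⟨sec_map hs hs (D.ρ g) ?_, h3 g (D.ρ g) q (D.act g) (D.fx g) (D.fy g) e⟩
    rw [← map_pow]
    exact (RingHom.congr_fun (D.act g) _).trans (congrArg D.ψ (Subtype.ext e))

end

end Pool.Agent.Lib.MP_16ef92_ag.HY
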