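import Mathlib
import Pool.Agent.Lib.MP_16ef92_ag.HY.TDat
import Pool.Agent.Lib.MP_16ef92_ag.TP.Lvl0

set_option autoImplicit false
set_option linter.unusedSectionVars false
set_option linter.unusedVariables false
set_option linter.style.haveILetI false

namespace Pool.Agent.Lib.MP_16ef92_ag.HY

noncomputable section

open Polynomial AL RS LH Module TensorProduct
open TP hiding Prs Eqs Spn Dat piA piS
open GV (RlC rg)

variable {F : Type} [Field F] [Clos F] [Fintype F] [hq : Fact (Odd (Fintype.card F))]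
  {N : F[X]} [hN : Fact (N ≠ 0)] {k : ℕ} {J κ : Fin k → Type} [∀ i, Fintype (J i)]
  [∀ i, Fintype (κ i)] [∀ i, DecidableEq (κ i)] {e : ∀ i, J i → F[X]}

section Abs

variable {X Z : Type} [CommRing X] [CommRing Z] (D : Dat N e X Z)
  [Bg] (p : ℕ) [CharP F p] [CharP OO p]
  {l m : ℕ} [Fact l.Prime] [NeZero (l ^ m)] [NeZero ((l ^ m : ℕ) : OO)]

include p in
/-- The relation at one level. -/
theorem Dat.lvl (hl : (l : F) ≠ 0) (hC : CrvH (l ^ m))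
    {ρ : ∀ i, Gam F →* End ℤ_[l] (κ i → ℤ_[l])}
    (h : ∀ ζ : kk F, IsPrimitiveRoot ζ (l ^ m) → ∀ i, Cls1 N (e i) (ρ i) m ζ)
    {s : Gam F} (hs : Fr s (Fintype.card F)) {fr : X →+* X}
    (h1 : fr.comp D.φ = D.φ.comp (actL N (Geo F) s)) (hx : ∀ i, fr (D.x i) = D.x i)
    (hy : ∀ i, fr (D.y i) = D.y i) {j : ℕ}
    {d : {S : Finset (Fin k) // S.card = 2 * j + 1} → ℕ} (ε : ∀ S, Fin (d S) ≃ ∀ i : S.1, κ i)
    (hcr : ∀ S, Cr (fam N) (rg (tmS ρ S.1 (ε S))))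
    {d' : {S : Finset (Fin k) // S.card = 2 * j + 1 + 1} → ℕ}
    (ε' : ∀ S, Fin (d' S) ≃ ∀ i : S.1, κ i)
    {c : {S : Finset (Fin k) // S.card = 2 * j + 1 + 1} → ℕ}
    (hk : ∀ S, ND.Kil (tmS ρ S.1 (ε' S)) (c S))
    {u : ℤ_[l]} (hu : u * (Fintype.card F : ℤ_[l]) ^ j = 1)
    (t : H (2 * j + 1 + 1) (mu (l ^ m) X) →+ H (2 * j + 1 + 1) (mu (l ^ m) X))
    (ht : ∀ ξ, t ξ = Fintype.card F ^ (j + 1) • Hmap _ (muMap (l ^ m) fr) ξ - Fintype.card F • ξ) :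
    ∃ Cl, RlC (fam N) (sgm s) (fun S => rg (tmS ρ S.1 (ε S)))
      (fun S => tmS ρ S.1 (ε S) s) u (Fintype.card F) m t Cl ∧
        ∀ ξ, ∃ z, Cl ((∏ S, c S) • ξ) z := by
  obtain ⟨s₀, cl, hsp, hact⟩ := D.cls p hl hC h
  have hgt := D.gt p
  have key' : ∀ {r : ℕ} {d : {S : Finset (Fin k) // S.card = r} → ℕ}
      (ε : ∀ S, Fin (d S) ≃ ∀ i : S.1, κ i) (g : Gam F) (q : ℕ),
      (g ∈ Geo F ∧ q = 1) ∨ Fr g q → ∀ w,
      q ^ r • Hmap _ (muMap (l ^ m) (D.ρ g)) (piA (mu_tor (l ^ m)) s₀ cl ε w) =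
        q • piA (mu_tor (l ^ m)) s₀ cl ε fun S => redE (PadicInt.toZModPow m) (d S)
          (tmS ρ S.1 (ε S) g) (w S) := by
    intro r d ε g q hgq w
    obtain ⟨a1, a2⟩ := hact g q hgq
    rw [piA_apply, piA_apply, map_sum, Finset.smul_sum, Finset.smul_sum]
    exact Finset.sum_congr rfl fun S _ =>
      piS_act _ _ _ S.2 (ε S) _ a1 (fun i => ρ i g) a2 (w S)
  have key := key' ε
  have hσ : ∀ g : Geo F, (D.ρ s).comp ((D.ρ.comp (Geo F).subtype) (sgm s g)) =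
      ((D.ρ.comp (Geo F).subtype) g).comp (D.ρ s) := fun g => by
    change D.ρ s * D.ρ (sgm s g : Gam F) = D.ρ g * D.ρ s
    rw [← map_mul, ← map_mul, sgm_val, ← mul_assoc, mul_inv_cancel_left]
  obtain ⟨Cl, c1, c2⟩ := exists_rlC (τ := fun S => rg (tmS ρ S.1 (ε S)))
    (ψ := fun S => tmS ρ S.1 (ε S) s) hgt
    (fun G q ξ => H_J_ie D.ie (D.good p) q G ξ) (h2_fam hl) hcr (fam_inv s)
    (fun S g => psi_geo _ s g) (mu_tor (l ^ m)) (muMap (l ^ m) fr) (D.frob h1 hx hy) hσ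
    (piA (mu_tor (l ^ m)) s₀ cl ε) (fun ξ => spn_le (mu_tor (l ^ m)) s₀ cl ε (hsp _ ξ))
    (fun g w => by
      have h2 := key g 1 (Or.inl ⟨g.2, rfl⟩) w
      rw [one_pow, one_smul, one_smul] at h2
      exact Eq.trans (Hmap_congr _ _ _ rfl (fun _ _ _ => rfl) _) h2)
    (fun w => Eq.trans (congrArg _ (Hmap_congr _ _ _ rfl (fun _ _ _ => rfl) _))
      (key s _ (Or.inr hs) w)) hu t ht
  refine ⟨Cl, c1, fun ξ => c2 _ ?_⟩
  rw [map_nsmul]
  obtain ⟨w, hw⟩ := spn_le (mu_tor (l ^ m)) s₀ cl ε' (hsp _ (Hmap _ ((mu (l ^ m) X).can D.a) ξ))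
  have h3 := ND.kil_inv hk (piA (mu_tor (l ^ m)) s₀ cl ε').ker (fun γ r hγ v hv => ?_) (w := w)
    fun g hg => ?_
  · rw [AddMonoidHom.mem_ker, map_nsmul] at h3
    exact (congrArg _ hw).symm.trans h3
  · have h2 := key' ε' γ _ (Or.inr hγ) v
    rw [AddMonoidHom.mem_ker.1 hv, map_zero, smul_zero] at h2
    refine AddMonoid.addOrderOf_eq_one_iff.1 (Nat.eq_one_of_dvd_coprimes
      (lvl_cop hl r m) (addOrderOf_dvd_of_nsmul_eq_zero h2.symm)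
      (addOrderOf_dvd_of_nsmul_eq_zero (H_tor (mu_tor _) _ _)))
  · have h2 := key' ε' g 1 (Or.inl ⟨hg, rfl⟩) w
    rw [one_pow, one_smul, one_smul] at h2
    rw [AddMonoidHom.mem_ker, map_sub, sub_eq_zero]
    refine h2.symm.trans ?_
    rw [hw]
    exact Hmap_comp_of _ _ _ _ (hgt.fix ⟨g, hg⟩) (fun _ _ _ => rfl) ξ

end Abs

/-- The geometric fibre product as an algebra over the base ring. -/
theorem exists_prs {R : Type} [CommRing R] [Algebra F R] {φ₀ : Localization.Away N →+* R}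
    {x₀ y₀ : Fin k → R} (h₀ : Prs (mp (algebraMap F[X] _) e) φ₀ x₀ y₀)
    (hc : φ₀.comp (algebraMap F _) = algebraMap F R) :
    ∃ (φ : Bb N →+* AlgebraicClosure F ⊗[F] R) (x y : Fin k → AlgebraicClosure F ⊗[F] R),
      Prs (eB N e) φ x y ∧
      ∀ (s : Gam F) (fr : AlgebraicClosure F ⊗[F] R →+* AlgebraicClosure F ⊗[F] R),
        Fr s (Fintype.card F) → (∀ c r, fr (c ⊗ₜ r) = (c ^ Fintype.card F) ⊗ₜ r) →
        fr.comp φ = φ.comp (actL _ (Geo F) s) ∧ (∀ i, fr (x i) = x i) ∧ ∀ i, fr (y i) = y i := by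
  obtain ⟨ε⟩ := exists_ac (F := F)
  have hb := po_bb (N := N)
  have hT := lvlb_po (FA.po_tensor (R := F) (S := AlgebraicClosure F) (R' := R)) ε.toRingEquiv
  have e1 : ε.toRingEquiv.toRingHom.comp (algebraMap F (AlgebraicClosure F)) =
      algebraMap F (kk F) := RingHom.ext fun c => ε.commutes c
  rw [e1, ← hc] at hT
  obtain ⟨φ, h1, h2⟩ := hb.ex _ _ _ (hT.comm.trans (RingHom.comp_assoc _ _ _).symm)
  have hP := hb.symm.cancel (j' := φ) (h1 ▸ hT.symm) h2.symm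
  refine ⟨φ, _, _, h₀.po hP, fun s fr hs hf => ?_⟩
  have h3 : ∀ r, fr (1 ⊗ₜ r) = 1 ⊗ₜ r := fun r => by rw [hf, one_pow]
  refine ⟨hb.uq _ (fr.comp φ) (φ.comp (actL _ (Geo F) s)) (RingHom.ext fun c => ?_)
    (RingHom.ext fun r => ?_), fun i => h3 _, fun i => h3 _⟩
  · have h4 : ∀ c, φ (kB _ c) = ε.symm c ⊗ₜ 1 := fun c => RingHom.congr_fun h1 c
    have h5 : actL N (Geo F) s (kB _ c) = kB _ (c ^ Fintype.card F) := Subtype.ext (hs c)
    simp only [RingHom.comp_apply]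
    rw [h5, h4, h4, hf, map_pow]
  · have h4 : φ (i0 _ r) = 1 ⊗ₜ φ₀ r := RingHom.congr_fun h2 r
    have h5 : actL N (Geo F) s (i0 _ r) = i0 _ r := Subtype.ext (gam_emb s r)
    simp only [RingHom.comp_apply]
    rw [h5, h4, h3]

end

end Pool.Agent.Lib.MP_16ef92_ag.HY
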