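import Mathlib
import Pool.Agent.Lib.MP_16ef92_ag.HY.FVar
import Pool.Agent.Lib.MP_16ef92_ag.HY.TLvl
import Pool.Agent.Lib.MP_16ef92_ag.HY.Rng
import Pool.Agent.Lib.MP_16ef92_ag.FT.Glue

/-! The final assembly. -/

set_option autoImplicit false
set_option linter.unusedSectionVars false
set_option linter.unusedVariables false

namespace Pool.Agent.Lib.MP_16ef92_ag.HY

open Polynomial Filter AlgebraicGeometry RS AL Module
open FT (Bar frR SemiOn)

noncomputable section

theorem Prs.dom {A X : Type} [CommRing A] [IsDomain A] [CommRing X] {n : ℕ} {J : Fin n → Type}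
    [∀ i, Fintype (J i)] (hJ : ∀ i, Odd (Fintype.card (J i))) {e : ∀ i, J i → A} {φ : A →+* X}
    {x y : Fin n → X} (h : Prs e φ x y) : IsDomain X := by
  induction n generalizing X with
  | zero => exact (RingEquiv.ofBijective φ h.bij).symm.toMulEquiv.isDomain
  | succ n ih =>
    have h₁ := prs_fib (J := fun i : Fin n => J i.succ) fun i => e i.succ
    have := ih (fun i => hJ i.succ) h₁
    obtain ⟨i, j, hP, -⟩ := h.step (prs_Y (e 0)) h₁
    obtain ⟨ε, -⟩ := ((prs_Y (e 0)).po hP).equiv (prs_Y _)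
    have := Y_dom (ff_monic fun k => algebraMap A
      (fibRing (J := fun i : Fin n => J i.succ) fun i => e i.succ) (e 0 k))
      (by rw [ff_natDegree]; exact hJ 0)
    exact ε.toMulEquiv.isDomain

variable {F : Type} [Field F] [Fintype F] {n : ℕ} {J κ : Fin n → Type} [∀ i, Fintype (J i)]
  [∀ i, Fintype (κ i)] [∀ i, DecidableEq (κ i)]

theorem semi_all [Clos F] [hq : Fact (Odd (Fintype.card F))] {N : F[X]} [hN : Fact (N ≠ 0)]
    {e : ∀ i, J i → F[X]} (hJ : ∀ i, Odd (Fintype.card (J i))) {l : ℕ} [hl : Fact l.Prime]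
    (hF : (l : F) ≠ 0) {ρ : ∀ i, Gam F →* End ℤ_[l] (κ i → ℤ_[l])} (h : Inp N e ρ) (j : ℕ) :
    SemiOn l (Fintype.card F) j (n.choose (2 * j - 1)) (EL.frob F (var N e)) := by
  classical
  have hp : Fact (ringChar F).Prime := ⟨CharP.char_is_prime F _⟩
  obtain ⟨_, _⟩ := exists_bg (ringChar F)
  have h1 : (l : OO) ≠ 0 := fun e => hF ((CharP.cast_eq_zero_iff F (ringChar F) l).2
    ((CharP.cast_eq_zero_iff OO (ringChar F) l).1 e))
  obtain ⟨φ, x, y, h2, h3⟩ := exists_prs (prs_var N e) (RingHom.ext (vb_C N e))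
  obtain ⟨Z, _, E, e1, e2, e3⟩ := exists_dat (X := Bar (var N e) F) h2
  have hR : Good (Bar (var N e) F) := E.good (ringChar F)
  refine FT.semi_frob ?_
  cases j with
  | zero =>
    have : IsDomain (Bar (var N e) F) := E.prs.dom hJ
    rw [Nat.choose_zero_right]
    refine FT.semiOn_zero hR (frR _ F) h1 _ fun m => ?_
    obtain ⟨ζ, hζ⟩ := FT.prim_bar (F := F) (m := l ^ m) (by exact_mod_cast pow_ne_zero m hF)
    exact ⟨_, hζ.map_of_injective (FT.barL _ F).injective, by rw [FT.frR_L, map_pow]⟩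
  | succ j =>
    have hq0 : (Fintype.card F : ℤ_[l]) ≠ 0 := Nat.cast_ne_zero.2 Fintype.card_ne_zero
    obtain ⟨u, hu⟩ : ∃ u : ℤ_[l], u * (Fintype.card F : ℤ_[l]) ^ j = 1 := by
      refine (IsUnit.pow j (PadicInt.isUnit_iff.2 (PadicInt.norm_natCast_eq_one_iff.2
        ((Nat.Prime.coprime_iff_not_dvd hl.out).2 fun e => hF ?_)))).exists_left_inv
      obtain ⟨k, -, hk⟩ := FiniteField.card F (ringChar F)
      rw [(Nat.prime_dvd_prime_iff_eq hl.out hp.out).1 (hl.out.dvd_of_dvd_pow (hk ▸ e))]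
      exact CharP.cast_eq_zero F _
    let ε := fun S : FT.Sb n (2 * j + 1) => (Fintype.equivFin (∀ i : S.1, κ i)).symm
    let ε' := fun S : FT.Sb n (2 * j + 1 + 1) => (Fintype.equivFin (∀ i : S.1, κ i)).symm
    obtain ⟨s, hs⟩ := TP.exists_fr (F := F)
    obtain ⟨h4, h5, h6⟩ := h3 s (frR (var N e) F : Bar (var N e) F →+* Bar (var N e) F) hs
      FT.frR_tmul
    choose c h9 h10 using fun S : FT.Sb n (2 * j + 1 + 1) => h.kil S.1 j S.2 _ (ε' S)
    have hC := fun S : FT.Sb n (2 * j + 1) => h.cr S.1 _ (ε S)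
    have := FT.semiOn_of_rlC (h2_fam hF) hC (fam_inv s) (fun S => psi_geo _ s)
      (fun S => (GV.zi_free hN.out hF (hC S) (h.tr S.1 _ (ε S)).choose_spec hs).2)
      (fun S => h.sim S.1 j S.2 _ (ε S) s hs u hu (hC S)) hq0 hR (frR _ F) h1 (Fintype.card F)
      (j + 1) (k := ∏ S, c S) (Finset.prod_ne_zero_iff.2 fun S _ => h9 S) fun m _ => by
        have : NeZero (l ^ m) := ⟨pow_ne_zero _ hl.out.ne_zero⟩
        exact E.lvl (ringChar F) hF (CV.crvH (ringChar F) h1 m) (fun ζ hζ i => h.cls i m ζ hζ) hs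
          (e1 ▸ h4) (e2 ▸ h5) (e3 ▸ h6) ε hC ε' h10 hu _ fun ξ => rfl
    rwa [Fintype.card_finset_len, Fintype.card_fin] at this

variable (κ) in
/-- The input for all primes. -/
def InpAll [Clos F] [Fact (Odd (Fintype.card F))] (N : F[X]) (e : ∀ i, J i → F[X]) : Prop :=
  ∀ [Fact (N ≠ 0)] (l : ℕ) [Fact l.Prime], (l : F) ≠ 0 →
    ∃ ρ : ∀ i, Gam F →* End ℤ_[l] (κ i → ℤ_[l]), Inp N e ρ

variable (κ) in
/-- The main theorem, given the input for almost all twists. -/
theorem final_of (hq : Odd (Fintype.card F)) {N : F[X]} (hN : Squarefree N)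
    (e : F[X] → ∀ i, J i → F[X]) (hJ : ∀ i, Odd (Fintype.card (J i)))
    (he : ∀ D i j k, j ≠ k → e D i j - e D i k ∣ N * D)
    (h : ∀ [Clos F] [Fact (Odd (Fintype.card F))],
      GF.GV.DZ fun D => Squarefree (N * D) ∧ ¬ InpAll κ (N * D) (e D)) :
    Tendsto (fun d : ℕ => (({D : F[X] | D.natDegree = d ∧ Squarefree (N * D) ∧
      SmoothOfRelativeDimension (n + 1)
        (Spec.map (CommRingCat.ofHom (algebraMap F (var (N * D) (e D))))) ∧
      ∀ (l : ℕ) [Fact l.Prime], (l : F) ≠ 0 → ∀ j : ℕ,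
        SemiOn l (Fintype.card F) j (n.choose (2 * j - 1))
          (EL.frob F (var (N * D) (e D)))}.ncard : ℝ)) /
      ({D : F[X] | D.natDegree = d ∧ Squarefree (N * D)}.ncard : ℝ)) atTop (nhds 1) := by
  have : Fact (Odd (Fintype.card F)) := ⟨hq⟩
  let L := separableClosure (RatFunc F) (AlgebraicClosure (RatFunc F))
  let : Clos F := ⟨L, inferInstance, Classical.decEq _, inferInstance, inferInstance, inferInstance,
    inferInstance⟩
  refine GF.GV.dens_one hq hN h fun D h1 h2 h3 => ⟨var_smooth two_neF (he D), fun l _ hF j => ?_⟩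
  have : Fact (N * D ≠ 0) := ⟨h2.ne_zero⟩
  obtain ⟨ρ, hρ⟩ := not_not.1 (fun e => h3 ⟨h2, e⟩) l hF
  exact semi_all hJ hF hρ j

end

end Pool.Agent.Lib.MP_16ef92_ag.HY
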