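import Mathlib
import Pool.Agent.Lib.MP_16ef92_ag.HY.GKr
import Pool.Agent.Lib.MP_16ef92_ag.HY.Sym
import Pool.Agent.Lib.MP_16ef92_ag.GV.Pad

set_option autoImplicit false
set_option linter.unusedSectionVars false
set_option linter.unusedVariables false

namespace Pool.Agent.Lib.MP_16ef92_ag.GF.GV.HG

open Module Polynomial Pool.Agent.Lib.MP_16ef92_ag.HY
open scoped Classical

noncomputable section

/-- An odd number of factors and an enumeration of the basis of the tensor product. -/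
class Tg where
  ι : Type
  fin : Fintype ι
  j : ℕ
  card : Fintype.card ι = 2 * j + 1
  g : ι → ℕ
  pos : ∀ i, 0 < g i
  d : ℕ
  e : Fin d ≃ ∀ i, Kp (g i)

instance [P : Tg] : Fintype P.ι := P.fin

/-- The sign of an index. -/
def sn {g : ℕ} : Kp g → ℤ_[2] := Sum.elim (fun _ => 1) fun _ => -1

theorem og_eq {g : ℕ} (x y : Kp g → ℤ_[2]) : HY.og x y = ∑ k, sn k * x k * y k.swap := by
  simp [HY.og, sn, Fintype.sum_sum_type, sub_eq_add_neg, Finset.sum_add_distrib]

variable [P : Tg]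

/-- The symplectic structure on the tensor product. -/
instance spT : Sp where
  ι := Fin P.d
  fin := inferInstance
  bar a := P.e.symm fun i => (P.e a i).swap
  ε a := ∏ i, sn (P.e a i)
  bb a := by simp
  sq a := by
    rw [← Finset.prod_mul_distrib]
    exact Finset.prod_eq_one fun i _ => by
      rcases P.e a i with t | t <;> simp [sn]
  neg a := by
    have h : ∀ i (t : Kp (P.g i)), sn t.swap = -1 * sn t := fun i t => by
      rcases t with t | t <;> simp [sn]
    simp only [Equiv.apply_symm_apply, h, Finset.prod_mul_distrib, Finset.prod_const,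
      Finset.card_univ, P.card, pow_succ, pow_mul]
    simp
  pt := P.e.symm fun i => .inl ⟨0, P.pos i⟩

theorem om_pu (x y : ∀ i, Kp (P.g i) → ℤ_[2]) :
    om (pu P.e x : V) (pu P.e y : V) = ∏ i, HY.og (x i) (y i) := by
  simp only [og_eq]
  rw [← sum_prod P.e]
  refine Finset.sum_congr rfl fun a _ => ?_
  change (∏ i, _) * pu P.e x a * pu P.e y (P.e.symm _) = _
  simp only [pu, Equiv.apply_symm_apply, Finset.prod_mul_distrib]

theorem om_kr' {f g f' g' : ∀ i, End ℤ_[2] (Kp (P.g i) → ℤ_[2])} {c : P.ι → ℤ_[2]}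
    (h : ∀ i x y, HY.og (f i x) (g i y) = c i * HY.og (f' i x) (g' i y)) (v w : V) :
    om (kr P.e f v : V) (kr P.e g w : V) = (∏ i, c i) * om (kr P.e f' v : V) (kr P.e g' w : V) := by
  have : omL.compl₁₂ (kr P.e f) (kr P.e g) = (∏ i, c i) • omL.compl₁₂ (kr P.e f') (kr P.e g') :=
    pu_ext P.e fun x => pu_ext P.e fun y => by
      change om (kr P.e f (pu P.e x) : V) (kr P.e g (pu P.e y) : V) =
        _ * om (kr P.e f' (pu P.e x) : V) (kr P.e g' (pu P.e y) : V)
      simp only [kr_pu]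
      rw [om_pu, om_pu, ← Finset.prod_mul_distrib]
      exact Finset.prod_congr rfl fun i _ => h i _ _
  exact LinearMap.congr_fun₂ this v w

theorem om_kr {f : ∀ i, End ℤ_[2] (Kp (P.g i) → ℤ_[2])} {c : P.ι → ℤ_[2]}
    (h : ∀ i x y, HY.og (f i x) (f i y) = c i * HY.og x y) (v w : V) :
    om (kr P.e f v : V) (kr P.e f w : V) = (∏ i, c i) * om v w := by
  have := om_kr' (f' := 1) (g' := 1) h v w
  rwa [kr_one] at this

theorem sl_skew (i : P.ι) (r : Kp (P.g i) → ℤ_[2]) (v w : V) :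
    om (sl P.e i (ng r) v : V) w = -om v (sl P.e i (ng r) w : V) := by
  have := om_kr' (f := Pi.mulSingle i (ng r)) (g := 1) (f' := 1) (g' := Pi.mulSingle i (ng r))
    (c := Pi.mulSingle i (-1)) (fun j x y => by
      by_cases e : j = i
      · subst e
        simp only [Pi.mulSingle_eq_same, Pi.one_apply, End.one_apply, ng_skew, neg_one_mul]
      · simp only [Pi.mulSingle_eq_of_ne e, Pi.one_apply, one_mul]) v w
  rwa [kr_one, Finset.prod_pi_mulSingle', if_pos (Finset.mem_univ _), neg_one_mul] at this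

theorem sl_sat (i : P.ι) {r : Kp (P.g i) → ℤ_[2]} (hr : (fun t => red 1 (r t)) ≠ 0) (y z : V)
    (h : (2 : ℤ_[2]) • y = sl P.e i (ng r) z) : ∃ w, y = sl P.e i (ng r) w :=
  have ⟨_, hs⟩ := exists_og hr
  sl_sat' P.e i (.inl ⟨0, P.pos i⟩) (ng_sat hs (mem_nonZeroDivisors_of_ne_zero two_ne_zero)) y z h

theorem sl_ker (i : P.ι) {r : Kp (P.g i) → ℤ_[2]} (hr : (fun t => red 1 (r t)) ≠ 0)
    {f : End ℤ_[2] (Kp (P.g i) → ℤ_[2])} {Q : ℤ_[2][X]} (hf : ∀ y, HY.og r y = 0 → aeval f Q y = 0)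
    {w : V} (h : sl P.e i (ng r) w = 0) : aeval (sl P.e i f) Q w = 0 := by
  obtain ⟨s, hs⟩ := exists_og hr
  rw [aeval_algHom_apply]
  exact sl_ker' P.e i (fun y hy => hf y (ng_ker hs hy)) h

theorem rh_sl (i : P.ι) (r : Kp (P.g i) → ℤ_[2]) (y : V) :
    rh (sl P.e i (ng r) y : V) = sl P.e i (ng fun t => red 1 (r t)) (rh y) := funext fun a => by
  rw [rh_apply, sl_apply, sl_apply, ng_apply, ng_apply, Pi.smul_apply, Pi.smul_apply, smul_eq_mul,
    map_mul, ← og_map]
  rfl

end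

end Pool.Agent.Lib.MP_16ef92_ag.GF.GV.HG
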