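import Mathlib
import Pool.Agent.Lib.MP_16ef92_ag.HY.NodA
import Pool.Agent.Lib.MP_16ef92_ag.GF.Rep

set_option autoImplicit false
set_option linter.unusedSectionVars false
set_option linter.unusedVariables false

namespace Pool.Agent.Lib.MP_16ef92_ag.HY

open Polynomial Module GF
open scoped Classical

noncomputable section

variable {F : Type} [Field F] [Clos F] [Fintype F] [hq : Fact (Odd (Fintype.card F))]

/-- The properties of the 2-adic Tate module of one factor, as `GV.R2`. -/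
structure RG (j : ℤ_[2] →+* ℂ) {g : ℕ} (ρ : Gam F →* End ℤ_[2] (Kp g → ℤ_[2]))
    (δ : Gam F →* ℤ_[2]) (N : F[X]) (r : ℕ) (t : F[X] → Kp g → Z2) : Prop where
  pos : 0 < g
  triv : ∀ σ x i, 2 ∣ (ρ σ x - x) i
  near : ∀ n, Near fun σ => ∀ x i, 2 ^ n ∣ (ρ σ x - x) i
  sim : ∀ σ x y, og (ρ σ x) (ρ σ y) = δ σ * og x y
  geo : ∀ σ ∈ Geo F, δ σ = 1
  det : ∀ s (Q : ℕ), Fr s Q → δ s = Q
  good : ∀ c, aeval c N ≠ 0 → ∀ O, Over O (some c) → ∀ σ ∈ Ine O, ρ σ = 1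
  mult : ∀ l, Prm l → l ∣ N → ∀ c, aeval c l = 0 → ∀ O, Over O (some c) →
    ∃ (v : Kp g → ℤ_[2]) (b : Gam F → ℤ_[2]), (∀ i, red 1 (v i) = t l i) ∧
      (∀ σ ∈ Ine O, red 1 (b σ) = sg (pl (some c)) σ ∧ ρ σ = 1 + (2 * b σ) • ng v) ∧
      ∀ f ∈ St O, ∀ d, 0 < d → Fr f (Fintype.card F ^ d) →
        ∃ P, Wt2 j P (Fintype.card F ^ d) ∧ ∀ w, og v w = 0 → aeval (ρ f) P w = 0
  inf : ∀ O, Over O none → ∀ σ ∈ Ine O, ρ σ = sgz (r * sg (pl none) σ) • 1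
  ne : ∀ l, Prm l → l ∣ N → t l ≠ 0
  gen : Algebra.adjoin Z2 ((fun l => ng (t l)) '' {l | Prm l ∧ l ∣ N}) = ⊤
  wt : ∀ x : Option (kk F), (∀ c, x = some c → aeval c N ≠ 0) → ∀ O, Over O x → ∀ f ∈ St O,
    ∀ d, 0 < d → Fr f (Fintype.card F ^ d) →
      ∃ P, WtP j P (Fintype.card F ^ d) ∧ aeval (ρ f) P = 0

end

end Pool.Agent.Lib.MP_16ef92_ag.HY
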