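import Mathlib

set_option autoImplicit false

namespace Pool.Agent.Lib.MP_16ef92_ag.HY

open Polynomial

noncomputable section

variable {F : Type} [Field F]

/-- The product of the differences `a j - a k` with `j < k`. -/
def dsc {m : ℕ} (a : Fin m → F[X]) : F[X] := ∏ j, ∏ k ∈ Finset.Ioi j, (a j - a k)

/-- The product of all `dsc (a i) * C i`. -/
def bad {n : ℕ} {g : Fin n → ℕ} (a : ∀ i, Fin (2 * g i + 1) → F[X]) (C : Fin n → F[X]) : F[X] :=
  ∏ i, dsc (a i) * C i

end

end Pool.Agent.Lib.MP_16ef92_ag.HY
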