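import Mathlib
import Pool.Agent.Lib.MP_16ef92_ag.HY.LF
import Pool.Agent.Lib.MP_16ef92_ag.HY.Two
import Pool.Agent.Lib.MP_16ef92_ag.HY.Tat
import Pool.Agent.Lib.MP_16ef92_ag.Pad

set_option autoImplicit false
set_option linter.unusedSectionVars false
set_option linter.unusedVariables false

namespace Pool.Agent.Lib.MP_16ef92_ag.HY

open Polynomial Module AL Pool.Agent.Lib.MP_6adaea_nt
open scoped Classical

noncomputable section

variable {L κ K K' I I' : Type} [Field L] [Field κ] [Field K] [Field K'] [Algebra L K]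
  [Algebra κ K'] [Fintype I] [Fintype I'] [IsAlgClosed L] [IsFF L K] [PosChar L] [IsAlgClosed κ]
  [IsFF κ K'] [PosChar κ] (S : Rs L κ K K' I I')

/-- `P` and `Q` are the places over the node. -/
structure Rs.No (P Q : Place κ K') : Prop where
  ne : P ≠ Q
  nd : ∀ v', S.Nd v' ↔ v' = P ∨ v' = Q

/-- The difference of the two places. -/
def dl (P Q : Place κ K') : AL.Dv κ K' := Finsupp.single P 1 - Finsupp.single Q 1

/-- The reduction of the function of a class of order dividing `n`. -/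
def Rs.NR (P Q : Place κ K') (n : ℕ) (c : Pic L K) (a : ℤ) (c' : Pic κ K') : Prop :=
  ∃ (A : AL.Dv L K) (h : K) (h' : K') (B : AL.Dv κ K'), cl A = c ∧ Adm n A h ∧ S.Rd h h' ∧
    dv κ h' = n • B + a • dl P Q ∧ cl B = c'

variable {S} {P Q : Place κ K'} {n m : ℕ} {c d : Pic L K} {a b : ℤ} {c' d' : Pic κ K'}
  {s : SA L K} {s' : SA κ K'}

/-- `exists_pl`, `over`, `io_fix`, `dv_xc`. -/
theorem Rs.exists_no {t : κ} (hw : S.w = X - C t) (ht : ∀ j, S.e' j ≠ t) : ∃ P Q, S.No P Q ∧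
    dv κ (S.x' - algebraMap κ K' t) =
      Finsupp.single P 1 + Finsupp.single Q 1 - Finsupp.single S.he'.inf 2 := by
  obtain ⟨y₀, hy⟩ := IsAlgClosed.exists_pow_nat_eq ((ff S.e').eval t) two_pos
  obtain ⟨v, h1, h2, h3⟩ := S.he'.exists_pl hy
  have h4 : val v S.y' ≠ 0 := fun e0 => by
    rw [← h3, e0, zero_pow two_ne_zero, ff_eval] at hy
    obtain ⟨j, -, hj⟩ := Finset.prod_eq_zero_iff.1 hy.symm
    exact ht j (sub_eq_zero.1 hj).symm
  refine ⟨v, S.he'.io.pl v, ⟨fun e0 => h4 ((S.he'.io_fix h1).1 e0.symm), fun v' => ?_⟩,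
    h2 ▸ S.he'.dv_xc h1⟩
  rw [Rs.Nd, hw, eval_sub, eval_X, eval_C, sub_eq_zero, ← h2]
  refine ⟨fun e0 => (S.he'.over h1 e0.1).1 e0.2, ?_⟩
  rintro (rfl | rfl)
  · exact ⟨h1, rfl⟩
  · exact ⟨(S.he'.io_val h1).1, (S.he'.io_val h1).2.1⟩

theorem nod_dl_left (h : P ≠ Q) : dl P Q P = 1 := by
  rw [dl, Finsupp.sub_apply, Finsupp.single_eq_same, Finsupp.single_eq_of_ne h, sub_zero]

theorem nod_dl_right (h : P ≠ Q) : dl P Q Q = -1 := by
  rw [dl, Finsupp.sub_apply, Finsupp.single_eq_same, Finsupp.single_eq_of_ne h.symm, zero_sub]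

theorem Rs.No.eq (h : S.No P Q) {D D' : AL.Dv κ K'} (h1 : deg D = deg D')
    (h2 : ∀ v', ¬ S.Nd v' → D v' = D' v') : ∃ a : ℤ, D = D' + a • dl P Q := by
  have h3 : deg (D - D') = ∑ v ∈ {P, Q}, (D - D') v := deg_eq_sum _ fun v hv => by
    rw [Finset.mem_insert, Finset.mem_singleton, ← h.nd]
    exact not_not.1 fun e0 => Finsupp.mem_support_iff.1 hv (sub_eq_zero.2 (h2 v e0))
  rw [Finset.sum_pair h.ne, map_sub, h1, sub_self, Finsupp.sub_apply, Finsupp.sub_apply] at h3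
  refine ⟨D P - D' P, Finsupp.ext fun v => ?_⟩
  rw [Finsupp.add_apply, Finsupp.smul_apply, smul_eq_mul]
  by_cases e1 : v = P
  · rw [e1, nod_dl_left h.ne]
    omega
  by_cases e2 : v = Q
  · rw [e2, nod_dl_right h.ne]
    omega
  rw [h2 v fun e0 => ((h.nd v).1 e0).elim e1 e2, dl, Finsupp.sub_apply,
    Finsupp.single_eq_of_ne e1, Finsupp.single_eq_of_ne e2, sub_zero, mul_zero, add_zero]

/-- `Rd.lf` with `B = pu A`. -/
theorem Rs.No.exists_nr (h : S.No P Q) (hn : n ≠ 0) (hc : n • c = 0) :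
    ∃ a c', S.NR P Q n c a c' := by
  obtain ⟨A, f, hA, h1, -⟩ := exists_adm (⟨c, hc⟩ : Tor L K n) ∅
  obtain ⟨f', hf⟩ := S.exists_rd hA.1
  obtain ⟨a, ha⟩ := h.eq (D := dv κ f') (D' := n • S.pu A)
    (by rw [deg_dv, map_nsmul, S.deg_pu, hA.deg_eq hn, smul_zero])
    fun v' hv => by rw [dv_apply, hf.lf hv, hA.2, map_nsmul]
  exact ⟨a, _, A, f, f', _, h1, hA, hf, ha, rfl⟩

/-- If `A₂ = A₁ + dv m` then `h₂ = const h₁ m ^ n`; evaluate at `P`. -/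
theorem Rs.NR.unique (h : S.No P Q) (hn : n ≠ 0) (h1 : S.NR P Q n c a c')
    (h2 : S.NR P Q n c b d') : (n : ℤ) ∣ a - b ∧ (a = b → c' = d') := by
  obtain ⟨A, f, f', B, e1, hA, hf, e2, rfl⟩ := h1
  obtain ⟨A', g, g', B', e3, hA', hg, e4, rfl⟩ := h2
  obtain ⟨u, hu, e5⟩ := cl_eq.1 (e3.trans e1.symm)
  have h3 : f * u ^ n ≠ 0 := mul_ne_zero hA.1 (pow_ne_zero _ hu)
  obtain ⟨z, hz⟩ := const_of_dv (k := L) (f := g / (f * u ^ n)) (by
    rw [dv_div hA'.1 h3, dv_mul hA.1 (pow_ne_zero _ hu), dv_pow, e5, hA.2, hA'.2, smul_sub,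
      add_sub_cancel, sub_self])
  have h4 : z ≠ 0 := fun e0 => div_ne_zero hA'.1 h3 (by rw [hz, e0, map_zero])
  obtain ⟨u', hu'⟩ := S.exists_rd hu
  have h5 := (hf.mul (hu'.pow n)).const h4
  rw [← (div_eq_iff h3).1 hz] at h5
  obtain ⟨z', hz', e6⟩ := h5.unique hg
  have e7 : n • B' + b • dl P Q = n • (B + dv κ u') + a • dl P Q := by
    rw [← e4, e6, dv_mul (by simpa using hz') h5.1, dv_const, zero_add,
      dv_mul hf.1 (pow_ne_zero _ hu'.1), dv_pow, e2, smul_add, add_right_comm]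
  refine ⟨⟨B' P - (B + dv κ u') P, ?_⟩, fun e0 => ?_⟩
  · have := DFunLike.congr_fun e7 P
    simp only [Finsupp.add_apply (n • B'), Finsupp.add_apply (n • (B + dv κ u')),
      Finsupp.smul_apply, nod_dl_left h.ne, smul_eq_mul, nsmul_eq_mul] at this
    linear_combination -this
  · rw [e0, add_left_inj] at e7
    rw [nsmul_right_injective hn e7, map_add, cl_dv hu'.1, add_zero]

theorem Rs.NR.shift (h1 : S.NR P Q n c (n * b + a) c') :
    S.NR P Q n c a (c' + b • cl (dl P Q)) := by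
  obtain ⟨A, f, f', B, e1, hA, hf, e2, rfl⟩ := h1
  refine ⟨A, f, f', B + b • dl P Q, e1, hA, hf, ?_, by rw [map_add, map_zsmul]⟩
  rw [e2, add_smul, smul_add, mul_smul, natCast_zsmul, add_assoc]

theorem Rs.NR.add (h1 : S.NR P Q n c a c') (h2 : S.NR P Q n d b d') :
    S.NR P Q n (c + d) (a + b) (c' + d') := by
  obtain ⟨A, f, f', B, rfl, hA, hf, e2, rfl⟩ := h1
  obtain ⟨A', g, g', B', rfl, hA', hg, e4, rfl⟩ := h2
  refine ⟨A + A', f * g, f' * g', B + B', map_add _ _ _, hA.mul hA', hf.mul hg, ?_, map_add _ _ _⟩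
  rw [dv_mul hf.1 hg.1, e2, e4, smul_add, add_smul, add_add_add_comm]

theorem Rs.nr_zero : S.NR P Q n 0 0 0 := by
  have h1 := Rs.r1_const (S := S) RV.to_one
  rw [map_one, map_one] at h1
  exact ⟨0, 1, 1, 0, map_zero _, ⟨one_ne_zero, by rw [dv_one, smul_zero]⟩, h1.rd one_ne_zero,
    by rw [dv_one, smul_zero, zero_smul, add_zero], map_zero _⟩

theorem Rs.NR.lvl (h1 : S.NR P Q (n * m) c a c') : S.NR P Q n (m • c) a (m • c') := by
  obtain ⟨A, f, f', B, rfl, hA, hf, e2, rfl⟩ := h1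
  exact ⟨m • A, f, f', m • B, map_nsmul _ _ _, ⟨hA.1, by rw [hA.2, mul_smul]⟩, hf,
    by rw [e2, mul_smul], map_nsmul _ _ _⟩

theorem Rs.NR.tor (h1 : S.NR P Q n c 0 c') : n • c' = 0 := by
  obtain ⟨A, f, f', B, -, -, hf, e2, rfl⟩ := h1
  rw [zero_smul, add_zero] at e2
  rw [← map_nsmul, ← e2, cl_dv hf.1]

theorem Rs.No.map (h : S.No P Q) (hs : S.Cp s s') : ∃ η : ℤ, (η = 1 ∨ η = -1) ∧
    (s' = 1 → η = 1) ∧ ∀ n c a c', S.NR P Q n c a c' →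
      S.NR P Q n (s.pic c) (η * a) (s'.pic c') := by
  have key : ∀ η : ℤ, s'.dm (dl P Q) = η • dl P Q → ∀ n c a c', S.NR P Q n c a c' →
      S.NR P Q n (s.pic c) (η * a) (s'.pic c') := by
    rintro η hη n _ a _ ⟨A, f, f', B, rfl, hA, hf, e2, rfl⟩
    refine ⟨s.dm A, s.γ f, s'.γ f', s'.dm B, rfl, hA.map s, hf.map hs, ?_, rfl⟩
    rw [← SA.dm_dv, e2, map_add, map_nsmul, map_zsmul, hη, smul_smul, mul_comm]
  have h1 := (h.nd _).1 (hs.nd.2 ((h.nd P).2 (Or.inl rfl)))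
  have h2 := (h.nd _).1 (hs.nd.2 ((h.nd Q).2 (Or.inr rfl)))
  have h3 : s'.pl P ≠ s'.pl Q := s'.pl.injective.ne h.ne
  have h4 : s'.dm (dl P Q) = dl (s'.pl P) (s'.pl Q) := by
    rw [dl, dl, map_sub, SA.dm_single, SA.dm_single]
  rcases h1 with h1 | h1
  · refine ⟨1, Or.inl rfl, fun _ => rfl, key 1 ?_⟩
    rw [h4, h1, h2.resolve_left fun e0 => h3 (h1.trans e0.symm), one_smul]
  · refine ⟨-1, Or.inr rfl, fun e0 => (h.ne ?_).elim, key (-1) ?_⟩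
    · rw [← h1, e0, one_pl]
    · rw [h4, h1, h2.resolve_right fun e0 => h3 (h1.trans e0.symm), neg_smul, one_smul, dl, dl,
        neg_sub]

/-- The shape of the degeneration: the roots `i₁`, `i₂` collide. -/
structure Rs.Col (S : Rs L κ K K' I I') (t : κ) (i₁ i₂ : I) (ι : I' → I) : Prop where
  w : S.w = X - C t
  ne : ∀ j, S.e' j ≠ t
  ne' : i₁ ≠ i₂
  r₁ : S.r.rs (S.e i₁) = t
  r₂ : S.r.rs (S.e i₂) = t
  rs : ∀ j, S.r.rs (S.e (ι j)) = S.e' j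
  all : ∀ i, i = i₁ ∨ i = i₂ ∨ ∃ j, ι j = i

variable {t : κ} {i₁ i₂ : I} {ι : I' → I}

theorem nod_two (P Q o : Place κ K') :
    Finsupp.single P 1 + Finsupp.single Q 1 - Finsupp.single o 2 =
      2 • (Finsupp.single Q 1 - Finsupp.single o 1) + (1 : ℤ) • dl P Q := by
  rw [dl, ← one_add_one_eq_two, Finsupp.single_add]
  abel

theorem nod_eps (i : I) {B : AL.Dv κ K'}
    (h1 : dv κ (S.x' - algebraMap κ K' (S.r.rs (S.e i))) = 2 • B + a • dl P Q) (h2 : cl B = c') :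
    S.NR P Q 2 (S.he.eps i) a c' :=
  ⟨_, _, _, B, rfl, S.he.eps_adm i,
    (Rs.r1_x.sub (Rs.r1_const (RV.to_rs (S.mem i)))).rd (S.he'.xc_ne _), h1, h2⟩

theorem Rs.Col.nod_sum (h : S.Col t i₁ i₂ ι) {M : Type} [AddCommMonoid M] (f : I → M) :
    ∑ i, f i = f i₁ + f i₂ + ∑ j, f (ι j) := by
  have h1 : ∀ i, S.r.rs (S.e i) = t → i ∉ Finset.univ.image ι := fun i hi hm => by
    obtain ⟨j, -, rfl⟩ := Finset.mem_image.1 hm
    exact h.ne j ((h.rs j).symm.trans hi)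
  have h2 : (Finset.univ : Finset I) = insert i₁ (insert i₂ (Finset.univ.image ι)) :=
    Finset.ext fun i => by simpa using h.all i
  rw [h2, Finset.sum_insert (by simpa [h.ne'] using h1 i₁ h.r₁), Finset.sum_insert (h1 i₂ h.r₂),
    Finset.sum_image fun j _ l _ e0 => S.he'.inj (by rw [← h.rs, e0, h.rs]), add_assoc]

/-- The classes of order two: `x - e i` reduces to `x' - rs (e i)`.  For the last statement write
`c` as a sum over a set `T` (`eps_span`); `T` contains both or none of `i₁`, `i₂` (`NR.unique`),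
`eps i₁ + eps i₂` has `a = 0`, `c' = 0`, and `eps_rel` on the reduction, `sum_eps`. -/
theorem Rs.Col.eps (h : S.Col t i₁ i₂ ι) : ∃ P Q, S.No P Q ∧
    (∀ i, ∃ c', S.NR P Q 2 (S.he.eps i) (if i = i₁ ∨ i = i₂ then 1 else 0) c') ∧
    ∀ c, S.NR P Q 2 c 0 0 → c = 0 ∨ c = S.he.eps i₁ + S.he.eps i₂ := by
  obtain ⟨P, Q, hN, hd⟩ := Rs.exists_no h.w h.ne
  have h1 : ∀ i, S.r.rs (S.e i) = t → S.NR P Q 2 (S.he.eps i) 1
      (cl (Finsupp.single Q 1 - Finsupp.single S.he'.inf 1)) := fun i hi =>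
    nod_eps i (by rw [hi, hd, nod_two]) rfl
  have h2 : ∀ j, S.NR P Q 2 (S.he.eps (ι j)) 0 (S.he'.eps j) := fun j =>
    nod_eps _ (by rw [h.rs, S.he'.dv_xe, zero_smul, add_zero]) rfl
  refine ⟨P, Q, hN, fun i => ?_, fun c hc => ?_⟩
  · split_ifs with hi
    · exact ⟨_, h1 i (hi.elim (fun e0 => e0 ▸ h.r₁) fun e0 => e0 ▸ h.r₂)⟩
    · obtain ⟨j, rfl⟩ := ((h.all i).resolve_left fun e0 => hi (Or.inl e0)).resolve_left
        fun e0 => hi (Or.inr e0)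
      exact ⟨_, h2 j⟩
  have t2 : ∀ z : Tor L K 2, z + z = 0 := fun z => Subtype.ext ((two_nsmul _).symm.trans z.2)
  have h3 : ∀ T : Finset I', S.NR P Q 2 (∑ j ∈ T, S.he.eps (ι j) : Tor L K 2) 0
      (∑ j ∈ T, S.he'.eps j : Tor κ K' 2) := fun T => by
    induction T using Finset.induction_on with
    | empty =>
      rw [Finset.sum_empty, Finset.sum_empty]
      exact Rs.nr_zero
    | insert j T hj ih =>
      rw [Finset.sum_insert hj, Finset.sum_insert hj, AddSubgroup.coe_add, AddSubgroup.coe_add,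
        ← add_zero (0 : ℤ)]
      exact (h2 j).add ih
  have h4 : ∀ T : Finset I', S.NR P Q 2 (∑ j ∈ T, S.he.eps (ι j) : Tor L K 2) 0 0 →
      ∑ j ∈ T, S.he.eps (ι j) = 0 ∨ ∑ j ∈ T, S.he.eps (ι j) = S.he.eps i₁ + S.he.eps i₂ :=
    fun T hT => by
    rcases S.he'.eps_rel (S := T) (Subtype.ext (((h3 T).unique hN two_ne_zero hT).2 rfl)) with
      rfl | rfl
    · exact Or.inl rfl
    · have := S.he.sum_eps
      rw [h.nod_sum] at this
      exact Or.inr ((eq_neg_of_add_eq_zero_right this).trans (neg_eq_of_add_eq_zero_right (t2 _)))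
  have h5 : S.NR P Q 2 (S.he.eps i₁ + S.he.eps i₂ : Tor L K 2) 0 0 := by
    have := (h1 i₁ h.r₁).add (h1 i₂ h.r₂)
    rw [show (1 + 1 : ℤ) = (2 : ℕ) * 1 + 0 from rfl, ← AddSubgroup.coe_add] at this
    replace := this.shift
    rwa [← two_nsmul, ← map_nsmul, ← map_zsmul, ← map_add, ← nod_two, ← hd,
      cl_dv (S.he'.xc_ne t)] at this
  have hc2 : c ∈ Tor L K 2 := by
    obtain ⟨A, f, -, -, rfl, hA, -⟩ := hc
    exact hA.mem
  lift c to Tor L K 2 using hc2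
  obtain ⟨T, hT⟩ := S.he.eps_span c
  rw [← Finset.univ_inter T, ← Finset.sum_ite_mem, h.nod_sum, ← Finset.sum_filter] at hT
  have h6 := h3 (Finset.univ.filter fun j => ι j ∈ T)
  have h7 := h4 (Finset.univ.filter fun j => ι j ∈ T)
  generalize ∑ j ∈ Finset.univ.filter fun j => ι j ∈ T, S.he.eps (ι j) = z at hT h6 h7
  have h8 : ∀ i, S.r.rs (S.e i) = t → c ≠ S.he.eps i + z := fun i hi e0 => by
    rw [e0, AddSubgroup.coe_add] at hc
    have := (((h1 i hi).add h6).unique hN two_ne_zero hc).1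
    omega
  suffices c = 0 ∨ c = S.he.eps i₁ + S.he.eps i₂ from
    this.imp (congrArg Subtype.val) (congrArg Subtype.val)
  split_ifs at hT
  · have h9 := h5.add hc
    rw [add_zero, add_zero, ← AddSubgroup.coe_add, hT, ← add_assoc, t2, zero_add] at h9
    rcases h7 h9 with e0 | e0
    · exact Or.inr (by rw [hT, e0, add_zero])
    · exact Or.inl (by rw [hT, e0, t2])
  · exact (h8 i₁ h.r₁ (by rw [hT, add_zero])).elim
  · exact (h8 i₂ h.r₂ (by rw [hT, zero_add])).elim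
  · rw [zero_add, zero_add] at hT
    subst hT
    exact h7 hc

theorem nodt_lin {M : Type} [AddCommGroup M] [Module ℤ_[2] M] (f : M →+ ℤ_[2]) (a : ℤ_[2])
    (x : M) : f (a • x) = a * f x := by
  rw [← sub_eq_zero]
  refine eq_zero_of_dvd fun n => ?_
  obtain ⟨m, c, hc⟩ := exists_nat n a
  have h1 : ∀ (l : ℕ) (y : M), f ((l : ℤ_[2]) • y) = (l : ℤ_[2]) * f y := fun l y => by
    rw [Nat.cast_smul_eq_nsmul, map_nsmul, nsmul_eq_mul]
  have h2 := h1 (2 ^ n) (c • x)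
  push_cast at h2
  rw [sub_eq_iff_eq_add.1 hc, add_smul, map_add, h1, mul_smul, h2]
  exact ⟨f (c • x) - c * f x, by ring⟩

theorem nodt_core {A B κ₁ κ₂ : Type} [AddCommGroup A] [AddCommGroup B] [Fintype κ₁] [Fintype κ₂]
    {ev : (κ₁ → ℤ_[2]) →+ ℕ → A} (hT : TA 2 ev) {ev' : (κ₂ → ℤ_[2]) →+ ℕ → B} (hT' : TA 2 ev')
    {R : ℕ → A → ℤ → B → Prop} {δ : B}
    (hex : ∀ n c, n ≠ 0 → n • c = 0 → ∃ a c', R n c a c')
    (hun : ∀ n c a b c' d', n ≠ 0 → R n c a c' → R n c b d' →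
      (n : ℤ) ∣ a - b ∧ (a = b → c' = d'))
    (hsh : ∀ (n : ℕ) c a b c', R n c (n * b + a) c' → R n c a (c' + b • δ))
    (had : ∀ n c d a b c' d', R n c a c' → R n d b d' → R n (c + d) (a + b) (c' + d'))
    (hlv : ∀ n m c a c', R (n * m) c a c' → R n (m • c) a (m • c'))
    (hto : ∀ n c c', R n c 0 c' → n • c' = 0)
    {c₀ : A} {d₀ : B} (h2 : 2 • c₀ = 0) (h0 : R 2 c₀ 1 d₀) :
    ∃ (α : (κ₁ → ℤ_[2]) →ₗ[ℤ_[2]] ℤ_[2]) (π : (κ₁ → ℤ_[2]) →ₗ[ℤ_[2]] κ₂ → ℤ_[2]),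
      (∀ x n a c', R (2 ^ n) (ev x n) a c' → red n (α x) = a) ∧
      ∀ x, α x = 0 → ∀ n, R (2 ^ n) (ev x n) 0 (ev' (π x) n) := by
  have e0 : ∀ n : ℕ, 2 ^ n ≠ 0 := fun n => pow_ne_zero n two_ne_zero
  have e1 : ∀ x n, ∃ a c', R (2 ^ n) (ev x n) a c' := fun x n => hex _ _ (e0 n) (hT.tors x n)
  have e2 : ∀ x n a c', R (2 ^ (n + 1)) (ev x (n + 1)) a c' → R (2 ^ n) (ev x n) a (2 • c') :=
    fun x n a c' h => (hT.mem x).2 n ▸ hlv _ _ _ _ _ (pow_succ 2 n ▸ h)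
  have e3 : ∀ x, ∃ z : ℤ_[2], ∀ n a c', R (2 ^ n) (ev x n) a c' → red n z = a := fun x => by
    choose f g hf using e1 x
    have h1 : ∀ i, ((2 : ℕ) : ℤ) ^ i ∣ f (i + 1) - f i := fun i => by
      have := (hun _ _ _ _ _ _ (e0 i) (e2 x i _ _ (hf (i + 1))) (hf i)).1
      rwa [Nat.cast_pow] at this
    refine ⟨_, fun n a c' h => (PadicInt.toZModPow_ofIntSeq_of_pow_dvd_sub f 2 h1 n).trans ?_⟩
    exact (ZMod.intCast_eq_intCast_iff_dvd_sub _ _ _).2 (hun _ _ _ _ _ _ (e0 n) h (hf n)).1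
  choose α₀ hα using e3
  have e4 : ∀ x y, α₀ (x + y) = α₀ x + α₀ y := fun x y =>
    PadicInt.ext_of_toZModPow.1 fun n => by
      obtain ⟨a, c', h⟩ := e1 x n
      obtain ⟨b, d', h'⟩ := e1 y n
      have h1 := had _ _ _ _ _ _ _ h h'
      rw [← Pi.add_apply (ev x), ← map_add] at h1
      rw [map_add]
      exact (hα _ _ _ _ h1).trans (by
        rw [Int.cast_add, ← hα _ _ _ _ h, ← hα _ _ _ _ h'])
  let α : (κ₁ → ℤ_[2]) →ₗ[ℤ_[2]] ℤ_[2] :=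
    ⟨⟨α₀, e4⟩, fun a x => nodt_lin (AddMonoidHom.mk' α₀ e4) a x⟩
  have e5 : ∃ x₀, α x₀ = 1 := by
    obtain ⟨x, hx⟩ := hT.lvl 1 c₀ (by rwa [pow_one])
    have h1 : red 1 (α x) = ((1 : ℤ) : ZMod (2 ^ 1)) := hα x 1 1 d₀ (by rwa [hx, pow_one])
    obtain ⟨u, hu⟩ := unit_of_odd (a := α x) fun h3 => by
      rw [red_eq_zero.2 (by rwa [pow_one])] at h1
      exact absurd h1 (by decide)
    exact ⟨(u⁻¹ : ℤ_[2]ˣ).1 • x, by rw [map_smul, ← hu, smul_eq_mul, Units.inv_mul]⟩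
  obtain ⟨x₀, hx₀⟩ := e5
  have e6 : ∀ x, α x = 0 → ∃ y, ∀ n, R (2 ^ n) (ev x n) 0 (ev' y n) := fun x hx => by
    have h1 : ∀ n, ∃ c', R (2 ^ n) (ev x n) 0 c' := fun n => by
      obtain ⟨a, c', h⟩ := e1 x n
      have h3 : red n (α x) = a := hα _ _ _ _ h
      rw [hx, map_zero] at h3
      obtain ⟨b, rfl⟩ := (ZMod.intCast_zmod_eq_zero_iff_dvd _ _).1 h3.symm
      exact ⟨_, hsh _ _ 0 b c' (by rwa [add_zero])⟩
    choose g hg using h1
    obtain ⟨y, hy⟩ := hT'.surj g ⟨by simpa using hto _ _ _ (hg 0), fun n =>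
      (hun _ _ _ _ _ _ (e0 n) (e2 x n _ _ (hg (n + 1))) (hg n)).2 rfl⟩
    exact ⟨y, hy ▸ hg⟩
  have e7 : ∀ x, α (x - α x • x₀) = 0 := fun x => by
    rw [map_sub, map_smul, hx₀, smul_eq_mul, mul_one, sub_self]
  choose π₀ hπ using fun x => e6 _ (e7 x)
  have e8 : ∀ x y, π₀ (x + y) = π₀ x + π₀ y := fun x y => hT'.ext fun n => by
    have h1 := had _ _ _ _ _ _ _ (hπ x n) (hπ y n)
    rw [← Pi.add_apply (ev _), ← map_add, add_zero, sub_add_sub_comm, ← add_smul,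
      ← map_add] at h1
    rw [map_add, Pi.add_apply]
    exact (hun _ _ _ _ _ _ (e0 n) (hπ (x + y) n) h1).2 rfl
  refine ⟨α, ⟨⟨π₀, e8⟩, fun a x => funext fun i => nodt_lin
    (AddMonoidHom.mk' (fun x => π₀ x i) fun x y => congrFun (e8 x y) i) a x⟩, hα,
    fun x hx n => ?_⟩
  have h1 := hπ x n
  rwa [hx, zero_smul, sub_zero] at h1

/-- The limit.  `α x` is the 2-adic integer with `red n (α x) = a` whenever
`NR (2 ^ n) (ev x n) a c'`; for `α x = 0` the classes `c' n` with `NR (2 ^ n) (ev x n) 0 (c' n)`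
form a compatible system `ev' (π₀ x)`; `π x = π₀ (x - α x • x₀)` with `α x₀ = 1`. -/
theorem Rs.Col.tate (h : S.Col t i₁ i₂ ι) {κ₁ κ₂ : Type} [Fintype κ₁] [Fintype κ₂]
    {ev : (κ₁ → ℤ_[2]) →+ ℕ → Pic L K} (hT : TA 2 ev) {ev' : (κ₂ → ℤ_[2]) →+ ℕ → Pic κ K'}
    (hT' : TA 2 ev') : ∃ (α : (κ₁ → ℤ_[2]) →ₗ[ℤ_[2]] ℤ_[2]) (π : (κ₁ → ℤ_[2]) →ₗ[ℤ_[2]] κ₂ → ℤ_[2]),
      (∀ i x, ev x 1 = S.he.eps i → red 1 (α x) = if i = i₁ ∨ i = i₂ then 1 else 0) ∧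
      (∀ x, α x = 0 → ev' (π x) 1 = 0 → ev x 1 = 0 ∨ ev x 1 = S.he.eps i₁ + S.he.eps i₂) ∧
      ∀ s s', S.Cp s s' → ∀ (M : End ℤ_[2] (κ₁ → ℤ_[2])) (M' : End ℤ_[2] (κ₂ → ℤ_[2])),
        (∀ x n, ev (M x) n = s.pic (ev x n)) → (∀ x n, ev' (M' x) n = s'.pic (ev' x n)) →
        ∃ η : ℤ_[2], (η = 1 ∨ η = -1) ∧ (s' = 1 → η = 1) ∧ (∀ x, α (M x) = η * α x) ∧
          ∀ x, α x = 0 → π (M x) = M' (π x) := by
  obtain ⟨P, Q, hN, h1, h2⟩ := h.eps
  obtain ⟨d₀, h0⟩ := h1 i₁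
  rw [if_pos (Or.inl rfl)] at h0
  have e0 : ∀ n : ℕ, 2 ^ n ≠ 0 := fun n => pow_ne_zero n two_ne_zero
  obtain ⟨α, π, ha, hp⟩ := nodt_core hT hT' (R := S.NR P Q) (δ := cl (dl P Q))
    (fun _ _ => hN.exists_nr) (fun _ _ _ _ _ _ => Rs.NR.unique hN) (fun _ _ _ _ _ => Rs.NR.shift)
    (fun _ _ _ _ _ _ _ => Rs.NR.add) (fun _ _ _ _ _ => Rs.NR.lvl) (fun _ _ _ => Rs.NR.tor)
    (S.he.eps i₁).2 h0
  refine ⟨α, π, fun i x hx => ?_, fun x hx hx' => h2 _ ?_, fun s s' hs M M' hM hM' => ?_⟩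
  · obtain ⟨c', hc⟩ := h1 i
    rw [ha x 1 _ c' (by rwa [hx, pow_one])]
    split_ifs <;> simp
  · have h3 := hp x hx 1
    rwa [hx', pow_one] at h3
  · obtain ⟨η, e1, e2, e3⟩ := hN.map hs
    have e4 : ∀ x, α (M x) = η * α x := fun x => PadicInt.ext_of_toZModPow.1 fun n => by
      obtain ⟨a, c', h3⟩ := hN.exists_nr (e0 n) (hT.tors x n)
      have h4 := e3 _ _ _ _ h3
      rw [← hM] at h4
      rw [map_mul, map_intCast]
      exact (ha _ _ _ _ h4).trans (by rw [Int.cast_mul, ← ha _ _ _ _ h3])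
    refine ⟨η, ?_, fun h3 => ?_, e4, fun x hx => hT'.ext fun n => ?_⟩
    · rcases e1 with rfl | rfl <;> simp
    · rw [e2 h3, Int.cast_one]
    · have h3 := e3 _ _ _ _ (hp x hx n)
      rw [← hM, ← hM', mul_zero] at h3
      exact ((hp (M x) (by rw [e4, hx, mul_zero]) n).unique hN (e0 n) h3).2 rfl

end

end Pool.Agent.Lib.MP_16ef92_ag.HY
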