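import Mathlib
import Pool.Agent.Lib.MP_16ef92_ag.HY.ThG
import Pool.Agent.Lib.MP_16ef92_ag.HY.Nod
import Pool.Agent.Lib.MP_16ef92_ag.ET.W2
import Pool.Agent.Lib.MP_16ef92_ag.TP.Tw3

set_option autoImplicit false
set_option linter.unusedSectionVars false
set_option linter.unusedVariables false

namespace Pool.Agent.Lib.MP_16ef92_ag.HY

open Polynomial Module AL Pool.Agent.Lib.MP_6adaea_nt
open scoped Classical

noncomputable section

variable {F : Type} [Field F] [Clos F] [Fintype F] [hq : Fact (Odd (Fintype.card F))]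
  {I : Type} [Fintype I] {g : ℕ} {e : I → Om F} {ρ : Gam F →* End ℤ_[2] (Kp g → ℤ_[2])}
  {O : ValuationSubring (Om F)} {x : Option (kk F)} {eb : I → kk F} {j : ℤ_[2] →+* ℂ}
  {K : Type} [Field K] [Algebra (Ob F) K] [IsFF (Ob F) K] {v s : Kp g → ℤ_[2]} {κ : Type}
  {π : (Kp g → ℤ_[2]) →ₗ[ℤ_[2]] κ → ℤ_[2]} {δ : Gam F →* ℤ_[2]}

/-- What the geometry of the node gives. -/
structure NG (j : ℤ_[2] →+* ℂ) (ρ : Gam F →* End ℤ_[2] (Kp g → ℤ_[2]))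
    (O : ValuationSubring (Om F)) (v s : Kp g → ℤ_[2]) {κ : Type}
    (π : (Kp g → ℤ_[2]) →ₗ[ℤ_[2]] κ → ℤ_[2]) : Prop where
  one : og v s = 1
  two : ∀ z, og v z = 0 → (∀ a, 2 ∣ π z a) → (∀ a, 2 ∣ z a) ∨ ∀ a, 2 ∣ (z - v) a
  ine : ∀ σ ∈ Ine O, (∀ z, og v (ρ σ z) = og v z) ∧ ∀ z, og v z = 0 → π (ρ σ z) = π z
  fr : ∀ f ∈ St O, ∀ d, 0 < d → Fr f (Fintype.card F ^ d) →
    ∃ (η : ℤ_[2]) (φ : End ℤ_[2] (κ → ℤ_[2])) (P : ℤ_[2][X]), (η = 1 ∨ η = -1) ∧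
      (∀ z, og v (ρ f z) = η * og v z) ∧ (∀ z, og v z = 0 → π (ρ f z) = φ (π z)) ∧
      WtP j P (Fintype.card F ^ d) ∧ aeval φ P = 0

/-- Exactly the roots `i₁` and `i₂` collide. -/
structure Coll (O : ValuationSubring (Om F)) (e : I → Om F) (eb : I → kk F) (i₁ i₂ : I) : Prop where
  res : ∀ i, O.valuation (e i - eb i) < 1
  ne : i₁ ≠ i₂
  eq : eb i₁ = eb i₂
  inj : ∀ i k, eb i = eb k → i = k ∨ (i = i₁ ∧ k = i₂) ∨ (i = i₂ ∧ k = i₁)

variable {i₁ i₂ : I} {ε : I → Kp g → ℤ_[2]}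

theorem thn1_prod {M : Type} [CommMonoid M] (h : i₁ ≠ i₂) (f : I → M) :
    ∏ i, f i = f i₁ * f i₂ * ∏ i : {i // i ≠ i₁ ∧ i ≠ i₂}, f i := by
  rw [← Finset.mul_prod_erase _ _ (Finset.mem_univ i₁), ← Finset.mul_prod_erase _ _
    (Finset.mem_erase.2 ⟨h.symm, Finset.mem_univ i₂⟩), mul_assoc,
    Finset.prod_subtype (p := fun i => i ≠ i₁ ∧ i ≠ i₂) _ (fun i => by simp [and_comm])]

theorem thn1_card (h : i₁ ≠ i₂) :
    Fintype.card I = Fintype.card {i // i ≠ i₁ ∧ i ≠ i₂} + 2 := by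
  have h1 := thn1_prod h fun _ => (2 : ℕ)
  simp only [Finset.prod_const, Finset.card_univ] at h1
  exact Nat.pow_right_injective le_rfl (h1.trans (by simp only [pow_add]; ring))

/-- `exists_rv`; `I' = {i // i ≠ i₁ ∧ i ≠ i₂}` has `2 (g - 1) + 1` elements; `exists_HE`,
`exists_ta`, the setting `Rs` with `w = X - C (eb i₁)`, `Rs.Col.tate`, `exists_del`; `s'` from
`HE.exists_sa` and `gk_res`, `M'` from `TA.exists_map`; `HE.rh`. -/
theorem TH.exists_ng (T : TH 2 e ρ K) (hj : Function.Injective j) (hO : Over O x)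
    (hc : Coll O e eb i₁ i₂) (h1 : ∀ i, T.ev (ε i) 1 = T.he.eps i)
    (h2 : Submodule.span GF.Z2 (Set.range fun i a => red 1 (ε i a)) = ⊤)
    (h3 : ∀ i k, i ≠ k → red 1 (og (ε i) (ε k)) = 1) :
    ∃ (v s : Kp g → ℤ_[2]) (κ : Type) (π : (Kp g → ℤ_[2]) →ₗ[ℤ_[2]] κ → ℤ_[2]),
      NG j ρ O v s π ∧ ∀ a, 2 ∣ (ε i₁ + ε i₂ - v) a := by
  obtain ⟨r, hr1, hr2⟩ := exists_rv hO
  have h2k : ((2 : ℕ) : kk F) ≠ 0 := (ob_cast (n := 2) (by exact_mod_cast two_neF (F := F))).2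
  have hrs : ∀ i, r.rs (ob (e i)) = eb i := fun i => (hr1 _ _ (hc.res i)).2
  have hcard : Fintype.card {i // i ≠ i₁ ∧ i ≠ i₂} = 2 * (g - 1) + 1 := by
    have := thn1_card hc.ne
    have := T.card
    omega
  obtain ⟨K', _, _, x', y', he'⟩ := exists_HE (fun i : {i // i ≠ i₁ ∧ i ≠ i₂} => eb i)
    (by exact_mod_cast h2k) ⟨_, hcard⟩ fun a b hab => Subtype.ext
      ((hc.inj _ _ hab).elim id fun h => h.elim (fun h => (a.2.1 h.1).elim) fun h => (a.2.2 h.1).elim)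
  have := he'.isFF
  obtain ⟨ev', hT'⟩ := he'.exists_ta hcard 2 h2k
  let S : Rs (Ob F) (kk F) K K' I {i // i ≠ i₁ ∧ i ≠ i₂} :=
    ⟨r, fun i => ob (e i), T.x, T.y, fun i => eb i, x', y', X - C (eb i₁), T.he, he',
      fun i => (hr1 _ _ (hc.res i)).1, by
        simp only [hrs, ff]
        rw [thn1_prod hc.ne, ← hc.eq, sq]⟩
  have hS : S.Col (eb i₁) i₁ i₂ Subtype.val :=
    ⟨rfl, fun a h => (hc.inj _ _ h).elim a.2.1 fun h => h.elim (fun h => a.2.1 h.1)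
      fun h => a.2.2 h.1, hc.ne, hrs i₁, (hrs i₂).trans hc.eq.symm, fun a => hrs a, fun i => by
        by_cases e1 : i = i₁
        · exact .inl e1
        by_cases e2 : i = i₂
        · exact .inr (.inl e2)
        exact .inr (.inr ⟨⟨i, e1, e2⟩, rfl⟩)⟩
  obtain ⟨α, π, t1, t2, t3⟩ := hS.tate T.ta hT'
  obtain ⟨v, s, d1, d2, d3⟩ := exists_del h2 h3 hc.ne (α := α) fun i => by
    convert t1 i _ (h1 i)
  have key : ∀ f ∈ St O, ∃ s' : SA (kk F) K', s'.a = gk f ∧ s'.γ x' = x' ∧ s'.γ y' = y' ∧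
      (∀ i, gk f (eb i) = eb i) ∧ S.Cp (T.sa f) s' := fun f hf => by
    have k1 : ∀ i, gk f (eb i) = eb i := fun i => gk_res hf (T.fix f i) (hc.res i)
    obtain ⟨s', k2, k3, k4⟩ := he'.exists_sa (gk f) (fun i => k1 i) (.inl rfl)
    rw [one_mul] at k4
    refine ⟨s', k2, k3, k4, k1, T.sa_x f, T.sa_y f, k3, k4, ?_, fun z c => ?_⟩
    · simp [S, k2, k1]
    · rw [T.sa_a, k2]
      exact hr2 f hf z c
  refine ⟨v, s, _, π, ⟨d1, fun z hz hπ => ?_, fun σ hσ => ?_, fun f hf d hd hQ => ?_⟩, d3⟩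
  · refine (t2 z (d2 z ▸ hz) ((hT'.zero 1 _).2 (by simpa using hπ))).imp
      (fun h => by simpa using (T.ta.zero 1 z).1 h) fun h a => ?_
    have k1 := (T.ta.eq_iff 1 z (ε i₁ + ε i₂)).1 (by
      rw [h, map_add, Pi.add_apply, h1, h1]) a
    have k2 := dvd_add (by simpa using k1 : 2 ∣ z a - (ε i₁ + ε i₂) a) (d3 a)
    simpa using k2
  · obtain ⟨s', k1, k2, k3, -, k5⟩ := key σ hσ.2
    obtain rfl : s' = 1 := he'.sa_ext (fun c => by rw [k1, gk_geo hσ.1, one_a]) k2 k3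
    obtain ⟨η, -, k6, k7, k8⟩ := t3 _ _ k5 (ρ σ) 1 (T.eqv σ) fun z n => (one_pic _).symm
    simp only [d2]
    exact ⟨fun z => by rw [k7, k6 rfl, one_mul], k8⟩
  · obtain ⟨s', k1, k2, k3, k4, k5⟩ := key f hf
    obtain ⟨M, hM⟩ := hT'.exists_map hT' s'.pic
    obtain ⟨η, k6, -, k7, k8⟩ := t3 _ _ k5 (ρ f) M (T.eqv f) hM
    obtain ⟨m, hp, hm⟩ := FiniteField.card F (ringChar F)
    have := Fact.mk hp
    have : CharP (kk F) (ringChar F) := charP_of_injective_algebraMap (algebraMap F _).injective _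
    obtain ⟨P, hP, hP0⟩ := he'.rh hcard hj s' k2 k3 (fun i => by rw [k1, k4]) (ringChar F) (m * d)
      (Nat.mul_pos m.2 hd) (fun c => by rw [k1, gk_fr hQ, hm, ← pow_mul]) hT' hM
    simp only [d2]
    exact ⟨η, M, P, k6, k7, k8, by rwa [hm, ← pow_mul], hP0⟩

/-- `node_alg`, `WtP.wt2`. -/
theorem NG.wt (h : NG j ρ O v s π) (h1 : ∀ σ y z, og (ρ σ y) (ρ σ z) = δ σ * og y z)
    (h2 : ∀ σ (Q : ℕ), Fr σ Q → δ σ = Q) {f : Gam F} (hf : f ∈ St O) {d : ℕ} (hd : 0 < d)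
    (hQ : Fr f (Fintype.card F ^ d)) :
    ∃ P, Wt2 j P (Fintype.card F ^ d) ∧ ∀ w, og v w = 0 → aeval (ρ f) P w = 0 := by
  obtain ⟨η, φ, P, hη, a1, a2, hP, hφ⟩ := h.fr f hf d hd hQ
  exact ⟨_, hP.wt2 hη, (node_alg h.one h.two
    (fun z => ⟨ρ f⁻¹ z, by rw [← End.mul_apply, ← map_mul, mul_inv_cancel, map_one]; rfl⟩)
    (Nat.one_lt_pow hd.ne' Fintype.one_lt_card) hη (fun y z => by rw [h1, h2 f _ hQ]) a1 a2 hP
    hφ).2.2.2.1⟩

theorem thn_dvd {c : ℤ_[2]} {y : Kp g → ℤ_[2]} (h : ∀ a, c ∣ y a) (z : Kp g → ℤ_[2]) :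
    c ∣ og y z :=
  Finset.dvd_sum fun _ _ => dvd_sub ((h _).mul_right _) ((h _).mul_right _)

/-- Take a Frobenius element `f` in `St O` that fixes `pl x` (`TP.exists_fr`, `ET.exists_frob`).
By `node_alg`, `ρ σ z = z + lam σ z • v` with `lam σ z = og (ρ σ z - z) s` for `og v z = 0`, and
`ρ σ v = v` (`og_nd`).  So `σ ↦ lam σ z` is additive on `Ine O`; `Over.local_char`, `ET.conj_of`
give `lam (f σ f⁻¹) = Q lam σ`, and `lam (f σ f⁻¹) (ρ f z) = η Q lam σ z` directly. -/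
theorem NG.fix (h : NG j ρ O v s π) (hO : Over O x)
    (h1 : ∀ σ y z, og (ρ σ y) (ρ σ z) = δ σ * og y z) (h2 : ∀ σ (Q : ℕ), Fr σ Q → δ σ = Q)
    (h3 : ∀ σ ∈ Geo F, δ σ = 1)
    (h4 : ∀ n, Near fun σ : Gam F => ∀ z a, (2 : ℤ_[2]) ^ n ∣ (ρ σ z - z) a) {σ : Gam F}
    (hσ : σ ∈ Ine O) {z : Kp g → ℤ_[2]} (hz : og v z = 0) : ρ σ z = z := by
  obtain ⟨s₀, hs₀⟩ := TP.exists_fr (F := F)
  obtain ⟨d, hd, g₀, hg₀, hf, hp⟩ := ET.exists_frob hs₀ hO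
  have hQ := (hs₀.pow d).geo_mul hg₀
  generalize g₀ * s₀ ^ d = f at hf hp hQ
  have sj : ∀ τ : Gam F, Function.Surjective (ρ τ) := fun τ y => ⟨ρ τ⁻¹ y, by
    rw [← End.mul_apply, ← map_mul, mul_inv_cancel, map_one, End.one_apply]⟩
  obtain ⟨η, φ, P, hη, f1, f2, f3, f4⟩ := h.fr f hf d hd hQ
  have hQ1 : 1 < Fintype.card F ^ d := Nat.one_lt_pow hd.ne' Fintype.one_lt_card
  obtain ⟨a1, -, a3, -, a5⟩ := node_alg h.one h.two (sj f) hQ1 hη
    (fun x y => by rw [h1, h2 f _ hQ]) f1 f2 f3 f4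
  have b0 : ∀ {y w : Kp g → ℤ_[2]} {c : ℤ_[2]}, w = y + c • v → og (w - y) s = c := fun e => by
    rw [e, add_sub_cancel_left, og_smul_left, h.one, mul_one]
  have b1 : ∀ τ ∈ Ine O, ∀ y, og v y = 0 → ρ τ y = y + og (ρ τ y - y) s • v := fun τ hτ y hy =>
    eq_add_of_sub_eq' (a3 _ (by rw [og_sub_right, (h.ine τ hτ).1, sub_self])
      (by rw [map_sub, (h.ine τ hτ).2 y hy, sub_self]))
  have b2 : ∀ τ ∈ Ine O, ρ τ v = v := fun τ hτ => sub_eq_zero.1 (og_nd fun y => by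
    obtain ⟨y, rfl⟩ := sj τ y
    rw [og_sub_left, h1, h3 τ hτ.1, one_mul, (h.ine τ hτ).1, sub_self])
  have b3 : ∀ y, og v y = 0 → og (ρ (f * σ * f⁻¹) y - y) s =
      (Fintype.card F ^ d : ℕ) * og (ρ σ y - y) s := fun y hy =>
    ET.conj_of hf hQ hp (fun τ => og (ρ τ y - y) s) (fun n r hr => hO.local_char hr _
      (fun τ hτ τ' hτ' => by
        rw [← map_add]
        refine congrArg _ (b0 ?_)
        rw [map_mul, End.mul_apply, b1 τ' hτ' y hy, map_add, map_smul, b2 τ hτ,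
          add_sub_cancel_left, og_smul_left, h.one, mul_one, add_smul, ← add_assoc,
          ← b1 τ hτ y hy])
      ((h4 n).mono fun τ hτ _ => red_eq_zero.2 (thn_dvd (hτ y) s))) hσ
  have b4 := a5 ((ogL.flip s).comp (ρ σ - 1)) (fun y hy => by
    have c1 := b3 (ρ f y) (by rw [f1, hy, mul_zero])
    rw [b0 (c := og (ρ σ y - y) s * (η * (Fintype.card F ^ d : ℕ))) (by
      rw [← End.mul_apply, ← map_mul, inv_mul_cancel_right, map_mul, End.mul_apply, mul_smul, ← a1,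
        ← map_smul, ← map_add, ← b1 σ hσ y hy])] at c1
    refine mul_left_cancel₀ (a := ((Fintype.card F ^ d : ℕ) : ℤ_[2]))
      (Nat.cast_ne_zero.2 (by omega)) (c1.symm.trans ?_)
    show _ = _ * (η * og (ρ σ y - y) s)
    ring) z hz
  rw [b1 σ hσ z hz, show og (ρ σ z - z) s = 0 from b4, zero_smul, add_zero]

/-- The parity: `HE.desc` with `c' = ev (ε i₁) 2`, `j = i₂` and a third index `k`;
`c = ev (b * og v (ε i₁) • v) 1`, `SyP.one`; `z = ob z₀` with `z₀ ^ 2 = (e i₁ - e k) / (e i₁ - e i₂)`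
of valuation `-1` (`Over.kap_val`, `sg_spec`). -/
theorem TH.par (T : TH 2 e ρ K) (hg : 0 < g) {ζ : ℕ → Ob F} (hζ : Zt ζ) (hS : SyP T.ev ζ)
    (hO : Over O x) (hc : Coll O e eb i₁ i₂)
    (hv : O.valuation (e i₁ - e i₂) = O.valuation (pl x)) (h1 : ∀ i, T.ev (ε i) 1 = T.he.eps i)
    (h3 : ∀ i k, i ≠ k → red 1 (og (ε i) (ε k)) = 1) (h4 : ∀ a, 2 ∣ (ε i₁ + ε i₂ - v) a)
    {σ : Gam F} (hσ : σ ∈ Ine O) {b : ℤ_[2]} (hb : ρ σ = 1 + (2 * b) • ng v) :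
    red 1 b = sg (pl x) σ := by
  obtain ⟨k, k1, k2⟩ : ∃ k, i₁ ≠ k ∧ i₂ ≠ k := by
    by_contra hn
    have h5 : (Finset.univ : Finset I) ⊆ {i₁, i₂} := fun k _ => by
      by_contra h6
      rw [Finset.mem_insert, Finset.mem_singleton, not_or] at h6
      exact hn ⟨k, Ne.symm h6.1, Ne.symm h6.2⟩
    have h6 := (Finset.card_le_card h5).trans Finset.card_le_two
    rw [Finset.card_univ, T.card] at h6
    omega
  have v1 : O.valuation (e i₁ - e k) = 1 := by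
    refine val_one_of_sub O (val_const O (c := eb i₁ - eb k) (sub_ne_zero.2 fun h => ?_)) ?_
    · rcases hc.inj _ _ h with h | h | h
      · exact k1 h
      · exact k2 h.2.symm
      · exact hc.ne h.1
    · rw [show e i₁ - e k - ((eb i₁ - eb k : kk F) : Om F) = e i₁ - eb i₁ - (e k - eb k) by
        push_cast
        ring]
      exact O.valuation.map_sub_lt (hc.res _) (hc.res _)
  have n1 : e i₁ - e k ≠ 0 := fun h => by simp [h] at v1
  have n2 : e i₁ - e i₂ ≠ 0 := fun h => hO.val_ne (by rw [← hv, h, map_zero])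
  obtain ⟨z, hz⟩ := exists_sq ((e i₁ - e k) / (e i₁ - e i₂))
  have z0 : z ≠ 0 := fun h => div_ne_zero n1 n2 (by rw [← hz, h, zero_pow two_ne_zero])
  have s1 : σ ((e i₁ - e k) / (e i₁ - e i₂)) = (e i₁ - e k) / (e i₁ - e i₂) := by
    simp only [map_div₀, map_sub, T.fix]
  have s2 : sg ((e i₁ - e k) / (e i₁ - e i₂)) σ = sg (pl x) σ := by
    have h5 := hO.kap_val prim_one hσ s1 (j := -1) (by rw [map_div₀, v1, hv, one_div, zpow_neg_one])
    rwa [show ((-1 : ℤ) : ZMod (2 ^ 1)) = 1 by decide, one_mul] at h5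
  have s3 := sg_spec s1 (div_ne_zero n1 n2) hz
  have r0 : ∀ y, red 1 (og v y) = red 1 (og (ε i₁) y) + red 1 (og (ε i₂) y) := fun y => by
    rw [← map_add, ← og_add_left, eq_comm, red_eq, ← og_sub_left, pow_one]
    exact thn_dvd h4 y
  have r1 : red 1 (og ((b * og v (ε i₁)) • v) (ε i₂ - ε k)) = red 1 b := by
    rw [og_smul_left, og_sub_right, map_mul, map_mul, map_sub, r0, r0, r0, og_self, og_self,
      h3 _ _ hc.ne, h3 _ _ hc.ne.symm, h3 _ _ k1, h3 _ _ k2, map_zero, mul_assoc,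
      show ((0 : ZMod (2 ^ 1)) + 1) * (1 + 0 - (1 + 1)) = 1 by decide, mul_one]
  have d1 := T.he.desc (T.sa σ) (T.sa_x σ) (T.sa_e σ) hc.ne k1 (c' := T.ev (ε i₁) 2)
    (((T.ta.mem _).2 1).trans (h1 i₁)) (z := ob z)
    (by rw [← map_pow, hz, ← map_sub, ← map_sub, ← map_mul, div_mul_cancel₀ _ n2])
    (c := ⟨T.ev ((b * og v (ε i₁)) • v) 1, T.ta.tors _ 1⟩) (by
      rw [← T.eqv, hb, LinearMap.add_apply, End.one_apply, map_add, Pi.add_apply,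
        add_sub_cancel_left, LinearMap.smul_apply, ng_apply, smul_smul, mul_assoc,
        mul_smul 2, two_smul, map_add, Pi.add_apply, ← two_nsmul]
      exact ((T.ta.mem _).2 1).symm)
  rw [hS.one hζ (b := ε i₂ - ε k) rfl (by rw [map_sub, Pi.sub_apply, h1, h1]; rfl), r1, T.sa_a,
    lf_ob, s3, s2, map_mul] at d1
  refine ch_inj (F := F) prim_one (ob.injective ?_)
  rw [← mul_right_cancel₀ ((_root_.map_ne_zero _).2 z0) d1, ch, map_pow, map_neg, map_one]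

end

end Pool.Agent.Lib.MP_16ef92_ag.HY
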