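import Mathlib
import Pool.Agent.Lib.MP_16ef92_ag.HY.RGd
import Pool.Agent.Lib.MP_16ef92_ag.HY.ThN
import Pool.Agent.Lib.MP_16ef92_ag.HY.St

set_option autoImplicit false
set_option linter.unusedSectionVars false
set_option linter.unusedVariables false

namespace Pool.Agent.Lib.MP_16ef92_ag.HY

open Polynomial Module GF
open scoped Classical

noncomputable section

variable {F : Type} [Field F] [Clos F] [Fintype F] [hq : Fact (Odd (Fintype.card F))]
  {m : ℕ} {a : Fin m → F[X]}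

theorem dvd_dsc {i k : Fin m} (h : i ≠ k) : a i - a k ∣ dsc a := by
  have h1 : ∀ {i k : Fin m}, i < k → a i - a k ∣ dsc a := fun {i k} h =>
    (Finset.dvd_prod_of_mem (fun k => a i - a k) (Finset.mem_Ioi.2 h)).trans
      (Finset.dvd_prod_of_mem (fun j => ∏ k ∈ Finset.Ioi j, (a j - a k)) (Finset.mem_univ i))
  exact h.lt_or_gt.elim h1 fun h => neg_sub (a k) (a i) ▸ neg_dvd.2 (h1 h)

theorem prm_dsc {l : F[X]} (hl : Prm l) (h : l ∣ dsc a) : ∃ i k, i < k ∧ l ∣ a i - a k := by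
  obtain ⟨i, -, hi⟩ := (Prime.dvd_finsetProd_iff hl.2.prime _).1 h
  obtain ⟨k, hk, e⟩ := (Prime.dvd_finsetProd_iff hl.2.prime _).1 hi
  exact ⟨i, k, Finset.mem_Ioi.1 hk, e⟩

/-- A prime divides only one difference. -/
theorem dsc_one (hs : Squarefree (dsc a)) {c : kk F} {i k i' k' : Fin m} (h : i < k)
    (h' : i' < k') (hc : aeval c (a i - a k) = 0) (hc' : aeval c (a i' - a k') = 0) :
    i = i' ∧ k = k' := by
  by_contra hn
  have e : dsc a = ∏ p ∈ Finset.univ.sigma fun j : Fin m => Finset.Ioi j, (a p.1 - a p.2) :=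
    Finset.prod_sigma' _ _ fun j k => a j - a k
  have h1 : (⟨i, k⟩ : Σ _ : Fin m, Fin m) ≠ ⟨i', k'⟩ := fun e =>
    hn ⟨congrArg (·.1) e, congrArg (·.2) e⟩
  have h2 := Finset.prod_dvd_prod_of_subset {⟨i, k⟩, ⟨i', k'⟩}
    (Finset.univ.sigma fun j : Fin m => Finset.Ioi j) (fun p => a p.1 - a p.2) fun p hp => by
      rcases Finset.mem_insert.1 hp with rfl | hp
      · simpa using h
      · rw [Finset.mem_singleton.1 hp]
        simpa using h'
  rw [Finset.prod_pair h1, ← e] at h2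
  exact (simple_root (hs.squarefree_of_dvd h2) hc).1 hc'

/-- `ev_sub`, `simple_root`, `dsc_one`. -/
theorem dsc_coll (hs : Squarefree (dsc a)) {c : kk F} {i k : Fin m} (h : i < k)
    (hc : aeval c (a i - a k) = 0) {O : ValuationSubring (Om F)} (hO : Over O (some c)) :
    Coll O (fun i => ev (a i)) (fun i => aeval c (a i)) i k ∧
      O.valuation (ev (a i) - ev (a k)) = O.valuation (pl (some c)) := by
  obtain ⟨q, hq⟩ := dvd_dsc (a := a) h.ne
  refine ⟨⟨fun i => ev_sub hO _, h.ne, sub_eq_zero.1 ((map_sub _ _ _).symm.trans hc),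
    fun i' k' e => ?_⟩, (congrArg _ (map_sub _ _ _).symm).trans
      ((simple_root (hq ▸ hs) hc).2 O hO)⟩
  rcases lt_trichotomy i' k' with h' | h' | h'
  · exact .inr (.inl (dsc_one hs h' h ((map_sub _ _ _).trans (sub_eq_zero.2 e)) hc))
  · exact .inl h'
  · exact .inr (.inr (dsc_one hs h' h ((map_sub _ _ _).trans (sub_eq_zero.2 e.symm)) hc).symm)

/-- The analogue of `GV.exists_r2`.  `exists_cyc`, `exists_th2`, `exists_eps`; `t l` is the reduction
of `ε i + ε k` for the pair with `l ∣ a i - a k`; `mult`: `TH.exists_ng`, `NG.fix`, `transv`, `TH.par`,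
`NG.wt`; `ne`: `og (ε i + ε k) (ε i)` is odd; `gen`: `adjoin_ng`, every difference has a prime
factor (`GF.GV.root_prm` in GV/Ten or `exists_monic_irreducible_factor`). -/
theorem exists_rg {j : ℤ_[2] →+* ℂ} (hj : Function.Injective j) {g r : ℕ} (hg : 0 < g)
    (hr : 0 < r) {a : Fin (2 * g + 1) → F[X]} (hd : ∀ i k, i ≠ k → (a i - a k).natDegree = r)
    (hs : Squarefree (dsc a)) : ∃ (ρ : Gam F →* End ℤ_[2] (Kp g → ℤ_[2])) (δ : Gam F →* ℤ_[2])
      (t : F[X] → Kp g → Z2), RG j ρ δ (dsc a) r t ∧ IsT 2 (fun i => ev (a i)) ρ := by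
  obtain ⟨ζ, δ, hζ, hδ, hgeo, hfr⟩ := exists_cyc (F := F)
  have h0 : ∀ i k, i ≠ k → a i - a k ≠ 0 := fun i k h e => by
    have := hd i k h
    rw [e, natDegree_zero] at this
    exact hr.ne this
  have hi : Function.Injective fun i => ev (a i) := fun i k e => by_contra fun h =>
    ev_ne (h0 i k h) ((map_sub _ _ _).trans (sub_eq_zero.2 e))
  obtain ⟨ρ, K, _, _, _, T, hS⟩ :=
    exists_th2 (g := g) hi (Fintype.card_fin _) (fun σ i => gam_ev σ _) hζ
  obtain ⟨ε, e1, e2, e3, e4⟩ := T.he.exists_eps T.ta hS hζ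
  have sim : ∀ σ x y, og (ρ σ x) (ρ σ y) = δ σ * og x y := fun σ =>
    hS.sim T.ta hζ (T.sa σ) (T.eqv σ) fun n => (T.sa_a σ _).trans (hδ σ n)
  have near : ∀ n, Near fun σ : Gam F => ∀ x i, (2 : ℤ_[2]) ^ n ∣ (ρ σ x - x) i := fun n => by
    have := T.isT.near n
    rwa [Nat.cast_ofNat] at this
  have two : ((2 : ℕ) : F) ≠ 0 := by exact_mod_cast (two_neF : (2 : F) ≠ 0)
  have hN : ∀ i k, i ≠ k → a i - a k ∣ dsc a := fun i k => dvd_dsc
  have hp : ∀ l : F[X], ∃ i k, Prm l → l ∣ dsc a → i < k ∧ l ∣ a i - a k := fun l => by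
    by_cases h : Prm l ∧ l ∣ dsc a
    · obtain ⟨i, k, h⟩ := prm_dsc h.1 h.2
      exact ⟨i, k, fun _ _ => h⟩
    · exact ⟨0, 0, fun h1 h2 => absurd ⟨h1, h2⟩ h⟩
  choose p q hp using hp
  have hinf := fun O (hO : Over O none) => T.isT.inf (fun i k h => ⟨h0 i k h, hd i k h⟩) hO
  refine ⟨ρ, δ, fun l => (fun s => red 1 (ε (p l) s)) + fun s => red 1 (ε (q l) s),
    ⟨hg, T.isT.triv, near, sim, hgeo, hfr, T.isT.unrP two hN, fun l hl h c hc O hO => ?_,
      fun O hO => (hinf O hO).1, fun l hl h e => ?_,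
      adjoin_ng (Fintype.card_fin _) hg _ e2 e3 (fun i k h => (og_map _ _ _).trans (e4 i k h))
        fun i k h => ?_, fun x hx O hO f hf d hd hQ => ?_⟩, T.isT⟩
  · obtain ⟨h1, h2⟩ := hp l hl h
    obtain ⟨h3, h4⟩ := dsc_coll hs h1 (aeval_eq_zero_of_dvd_aeval_eq_zero h2 hc) hO
    obtain ⟨v, s, κ, π, h5, h6⟩ := T.exists_ng hj hO h3 e1 e2 e4
    have hb : ∀ σ, ∃ b : ℤ_[2], σ ∈ Ine O → ρ σ = 1 + (2 * b) • ng v := fun σ => by
      by_cases hσ : σ ∈ Ine O
      · obtain ⟨b, hb⟩ := transv h5.one (γ := ρ σ)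
          (fun x y => by rw [sim, hgeo σ hσ.1, one_mul])
          (fun x hx => h5.fix hO sim hfr hgeo near hσ hx) (T.isT.triv σ)
        exact ⟨b, fun _ => hb⟩
      · exact ⟨0, fun h => absurd h hσ⟩
    choose b hb using hb
    refine ⟨v, b, fun s => ?_,
      fun σ hσ => ⟨T.par hg hζ hS hO h3 h4 e1 e4 h6 hσ (hb σ hσ), hb σ hσ⟩,
      fun f hf d hd hQ => h5.wt sim hfr hf hd hQ⟩
    rw [Pi.add_apply, ← map_add]
    exact (red_eq.2 ((pow_one (2 : ℤ_[2])).symm ▸ h6 s)).symm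
  · have h1 := congrArg (og · fun s => red 1 (ε (p l) s)) e
    simp only [og_add_left, og_self, og_map, e4 _ _ (hp l hl h).1.ne', zero_add] at h1
    exact (by decide : (1 : Z2) ≠ 0) (h1.trans (by simp [og]))
  · obtain ⟨c, hc⟩ := IsAlgClosed.exists_aeval_eq_zero (kk F) (a i - a k)
      (natDegree_pos_iff_degree_pos.1 (hd i k h ▸ hr)).ne'
    have h1 : minpoly F c ∣ dsc a := (minpoly.dvd F c hc).trans (hN i k h)
    have h5 : IsIntegral F c := Algebra.IsIntegral.isIntegral c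
    have h6 : Prm (minpoly F c) := ⟨minpoly.monic h5, minpoly.irreducible h5⟩
    obtain ⟨h2, h3⟩ := hp _ h6 h1
    have h4 := aeval_eq_zero_of_dvd_aeval_eq_zero h3 (minpoly.aeval F c)
    refine ⟨minpoly F c, ⟨h6, h1⟩, congrArg ng ?_⟩
    rcases h.lt_or_gt with h | h
    · obtain ⟨rfl, rfl⟩ := dsc_one hs h h2 hc h4
      rfl
    · obtain ⟨rfl, rfl⟩ := dsc_one hs h h2 (by rw [← neg_sub, map_neg, hc, neg_zero]) h4
      exact add_comm _ _
  · cases x with
    | none => exact (hinf O hO).2 j hj f hf d hd hQ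
    | some c => exact T.isT.wt hO (res_inj hN (hx c rfl)) (fun i => ev_sub hO _) hj hf hd hQ

end

end Pool.Agent.Lib.MP_16ef92_ag.HY
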