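import Mathlib
import Pool.Agent.Lib.MP_16ef92_ag.HY.GTen
import Pool.Agent.Lib.MP_16ef92_ag.HY.RG
import Pool.Agent.Lib.MP_16ef92_ag.GV.One

set_option autoImplicit false
set_option linter.unusedSectionVars false
set_option linter.unusedVariables false

namespace Pool.Agent.Lib.MP_16ef92_ag.HY

open Polynomial Module Filter AL GV

noncomputable section

variable {F : Type} [Field F] [Clos F] [Fintype F] [hq : Fact (Odd (Fintype.card F))]

section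
variable {ι : Type} [Fintype ι] {g : ι → ℕ} {l d : ℕ} [Fact l.Prime] {N D : F[X]} {C : ι → F[X]}
  {a : ∀ i, Fin (2 * g i + 1) → F[X]} {ρ : ∀ i, Gam F →* End ℤ_[l] (Kp (g i) → ℤ_[l])}

theorem tm_cr (hF : (l : F) ≠ 0) (h : ∀ i k k', k ≠ k' → a i k - a i k' ∣ N)
    (e : Fin d ≃ ∀ i, Kp (g i)) (T : ∀ i, IsT l (fun k => ev (a i k)) (ρ i)) :
    Cr (fam N) (rg (krH e ρ)) :=
  cr_of (fun n => (GF.GV.HG.near_fin fun i => (T i).near n).mono fun _ hg => kr_dvd e hg)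
    fun c hc O hO σ hσ => (congrArg (kr e) (funext fun i =>
      (T i).unrP hF (h i) c hc O hO σ hσ)).trans (kr_one e)

theorem tm_tr (hF : (l : F) ≠ 0) (h : ∀ i k k', k ≠ k' → a i k - a i k' ∣ N)
    (e : Fin d ≃ ∀ i, Kp (g i)) (T : ∀ i, IsT l (fun k => ev (a i k)) (ρ i)) :
    TrR N (krH e ρ) fun c r => ∏ i, ((Fintype.card F ^ r : ℕ) -
      cnt (fun k => (aeval c (a i k) : kk F)) (Fintype.card F ^ r) : ℤ) :=
  fun c hc O hO f hf r hr hQ => by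
    rw [krH_apply, trace_kr, Int.cast_prod]
    exact Finset.prod_congr rfl fun i _ => (T i).trP hF (h i) hc hO hf hr hQ

theorem tw_dvd (i : ι) : dsc (a i) * (D * C i) ∣ (∏ i, dsc (a i) * C i) * D := by
  rw [mul_comm D, ← mul_assoc]
  exact mul_dvd_mul_right (Finset.dvd_prod_of_mem (fun i => dsc (a i) * C i) (Finset.mem_univ i)) D

theorem tw_sub {m : ℕ} {b : Fin m → F[X]} {k k' : Fin m} (h : k ≠ k') :
    D * b k - D * b k' ∣ dsc b * D := by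
  rw [← mul_sub, mul_comm]
  exact mul_dvd_mul_right (dvd_dsc h) D

theorem one_h0 {j : ℕ} (hj : Fintype.card ι = 2 * j + 1)
    (hsq : Squarefree ((∏ i, dsc (a i) * C i) * D)) (hD : 0 < D.natDegree) (hF : (l : F) ≠ 0)
    (e : Fin d ≃ ∀ i, Kp (g i)) (T : ∀ i, IsT l (fun k => ev (D * C i * a i k)) (ρ i))
    {x : Fin d → ℤ_[l]} (h : ∀ σ ∈ Geo F, krH e ρ σ x = x) : x = 0 := by
  obtain ⟨c, hc⟩ := IsAlgClosed.exists_aeval_eq_zero (kk F) D
    (natDegree_pos_iff_degree_pos.1 hD).ne'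
  obtain ⟨O, hO⟩ := exists_over (some c)
  obtain ⟨σ, hσ, h1⟩ := hO.exists_sg
  have h2 := h σ hσ.1
  have h3 : (fun i => ρ i σ) =
      fun i => (-1 : ℤ_[l]) • (1 : ∀ i, End ℤ_[l] (Kp (g i) → ℤ_[l])) i :=
    funext fun i => ((T i).neg hF (fun _ _ => dvd_dsc) (hsq.squarefree_of_dvd (tw_dvd i))
      (by rw [map_mul, hc, zero_mul]) hO hσ h1).trans (neg_one_smul _ _).symm
  rw [krH_apply, h3, kr_smul, kr_one, Finset.prod_const, Finset.card_univ, hj, pow_succ, pow_mul,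
    neg_one_sq, one_pow, one_mul, LinearMap.smul_apply, End.one_apply, neg_one_smul,
    neg_eq_iff_add_eq_zero, ← two_smul ℤ_[l]] at h2
  exact (smul_eq_zero.1 h2).resolve_left two_ne_zero

end

/-- For every prime and every Frobenius element the eigenvalue `q ^ j` on the cohomology of the
tensor product of the Tate modules is simple or absent. -/
def SimT {ι : Type} [Fintype ι] {g : ι → ℕ} (a : ∀ i, Fin (2 * g i + 1) → F[X]) (C : ι → F[X])
    (N D : F[X]) (j : ℕ) : Prop :=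
  ∀ (l : ℕ) [Fact l.Prime], (l : F) ≠ 0 → ∀ ρ : ∀ i, Gam F →* End ℤ_[l] (Kp (g i) → ℤ_[l]),
    (∀ i, IsT l (fun k => ev (D * C i * a i k)) (ρ i)) → ∀ (d : ℕ) (e : Fin d ≃ ∀ i, Kp (g i))
    (s : Gam F), Fr s (Fintype.card F) → ∀ u : ℤ_[l], u * (Fintype.card F : ℤ_[l]) ^ j = 1 →
    ∀ hC : Cr (fam (N * D)) (rg (krH e ρ)), Sim (cob hC) (u • Ps (N * D) (krH e ρ) s)

section
open GF.GV

variable [P : HG.Tg] {a : ∀ i, Fin (2 * P.g i + 1) → F[X]} {C : P.ι → F[X]} {N D : F[X]}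
  {ρ σ : ∀ i, Gam F →* End ℤ_[2] (Kp (P.g i) → ℤ_[2])} {δ : P.ι → Gam F →* ℤ_[2]}
  {M : P.ι → F[X]} {r : P.ι → ℕ} {t : ∀ i, F[X] → Kp (P.g i) → GF.Z2} {j : ℤ_[2] →+* ℂ}

theorem one_two (hj : Function.Injective j) (hR : ∀ i, RG j (ρ i) (δ i) (M i) (r i) (t i))
    (i₀ : P.ι) {τ : F[X] → Nb} (hF : GF.GV.Fam (HG.ten hR i₀) (∏ i, M i) (∑ i, r i) τ)
    (h2 : (∏ i, M i) * ((∏ i, C i) * D) ∣ N) (h3 : Squarefree ((∏ i, M i) * ((∏ i, C i) * D)))
    (hD : D.natDegree ≠ 0) (hT : ∀ i g, σ i g = GF.chi (D * C i) g • ρ i g)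
    (hC : Cr (fam N) (rg (krH P.e σ))) {s : Gam F} (hs : Fr s (Fintype.card F))
    (hb : ¬ Bad0 ((HG.ten hR i₀).twist ((∏ i, C i) * D)) s) :
    AL.Sim (cob hC) (δ i₀ s⁻¹ ^ P.j • Ps N (krH P.e σ) s) := by
  have h0 := mul_ne_zero_iff.1 (right_ne_zero_of_mul h3.ne_zero)
  have h7 : ∀ g, ((HG.ten hR i₀).twist ((∏ i, C i) * D)).ro g = δ i₀ g⁻¹ ^ P.j • krH P.e σ g :=
    fun g => by
      rw [twist_ro, HG.ten_ro, krH_apply, funext (hT · g), kr_smul, one_prod P.card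
        (fun i => Finset.prod_ne_zero_iff.1 h0.1 i (Finset.mem_univ i)) h0.2]
      exact smul_comm _ _ _
  have h6 := hF.twist h3
  have h8 : 0 < ((∏ i, C i) * D).natDegree := by
    rw [natDegree_mul h0.1 h0.2]
    omega
  have h9 := wt_of h6.geo hs (h6.det s hs) (HG.ten_noFix hR i₀ hj h3) N
  have h4 := h6.good
  have h5 := h6.rp h8
  generalize (HG.ten hR i₀).twist ((∏ i, C i) * D) = T' at *
  generalize krH P.e σ = σ' at *
  refine sim_of_good (φ := LinearEquiv.refl ℤ_[2] (Fin P.d → ℤ_[2])) h5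
    (fun c hc => h4 c fun e => hc (aeval_eq_zero_of_dvd_aeval_eq_zero h2 e))
    (fun g hg x => ?_) (fun x => ?_) hC h9 hb
  · rw [h7, (hR i₀).geo _ (inv_mem hg), one_pow, one_smul]
    rfl
  · rw [h7]
    rfl

theorem one_dz (hN : Squarefree N) (hd : (∏ i, dsc (a i) * C i) ∣ N) (hr : ∀ i, 0 < r i)
    (ha : ∀ i k k', k ≠ k' → (a i k - a i k').natDegree = r i) :
    DZ fun D => Squarefree (N * D) ∧ ¬ SimT a C N D P.j := by
  obtain ⟨j, hj⟩ := exists_emb2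
  have h1 : ∀ i, dsc (a i) * C i ∣ N := fun i =>
    dvd_trans (Finset.dvd_prod_of_mem (fun i => dsc (a i) * C i) (Finset.mem_univ i)) hd
  have hC0 : ∀ i, C i ≠ 0 := fun i => right_ne_zero_of_mul (ne_zero_of_dvd_ne_zero hN.ne_zero (h1 i))
  choose ρ δ t hR hT using fun i => exists_rg hj (P.pos i) (hr i) (ha i)
    (hN.squarefree_of_dvd (h1 i)).of_mul_left
  obtain ⟨i₀⟩ : Nonempty P.ι := Fintype.card_pos_iff.1 (P.card ▸ Nat.succ_pos _)
  have hd' := mul_dvd_mul_right hd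
  rw [Finset.prod_mul_distrib] at hd
  obtain ⟨τ, hF⟩ := HG.ten_fam hR i₀ (hN.squarefree_of_dvd hd).of_mul_left
  have h0 := dz_deg.or (dz_bad hF (C := ∏ i, C i) (Finset.prod_ne_zero_iff.2 fun i _ => hC0 i))
  refine h0.mono fun D hD => ?_
  obtain ⟨hsq, hS⟩ := hD
  have h2 : (∏ i, dsc (a i)) * ((∏ i, C i) * D) ∣ N * D := by
    rw [← mul_assoc]
    exact mul_dvd_mul_right hd D
  have h3 := hsq.squarefree_of_dvd h2
  by_contra hb
  rw [not_or, not_and, not_exists] at hb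
  obtain ⟨hD, hb⟩ := hb
  replace hb := hb h3
  apply hS
  intro l _ hl ρ' T d e s hs u hu hCr
  have hD0 : ∀ i, D * C i ≠ 0 := fun i => mul_ne_zero (right_ne_zero_of_mul hsq.ne_zero) (hC0 i)
  have h4 : ∀ i k k', k ≠ k' → D * C i * a i k - D * C i * a i k' ∣ N * D := fun i k k' h =>
    (tw_sub h).trans ((tw_dvd i).trans (hd' D))
  have h5 := hsq.squarefree_of_dvd (hd' D)
  have h2F : ((2 : ℕ) : F) ≠ 0 := by exact_mod_cast two_neF
  choose σ T₂ hT₂ using fun i => (hT i).twist (hD0 i)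
  have hC₂ := tm_cr h2F h4 P.e T₂
  refine sim_transfer hsq.ne_zero h2F hl hC₂ hCr (tm_tr h2F h4 P.e T₂) (tm_tr hl h4 e T) hs hs ?_ hu
    (fun x hx _ => one_h0 P.card h5 (Nat.pos_of_ne_zero hD) h2F P.e T₂ hx)
    (fun x hx _ => one_h0 P.card h5 (Nat.pos_of_ne_zero hD) hl e T hx)
    (one_two hj hR i₀ hF h2 h3 hD (fun i g => (hT₂ i g).trans (by rw [GF.chi_eq (hD0 i)]; rfl))
      hC₂ hs fun e => hb s ⟨hs, e⟩)
  rw [← mul_pow, ← (hR i₀).det s _ hs, ← map_mul, inv_mul_cancel, map_one, one_pow]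

end

end

end Pool.Agent.Lib.MP_16ef92_ag.HY
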