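import Mathlib
import Pool.Agent.Lib.MP_16ef92_ag.GF.Step
import Pool.Agent.Lib.MP_16ef92_ag.GF.Count
import Pool.Agent.Lib.MP_16ef92_ag.GV.LInd

set_option autoImplicit false
set_option linter.unusedSectionVars false
set_option linter.unusedVariables false

namespace Pool.Agent.Lib.MP_16ef92_ag.HY

open Polynomial Module AL

noncomputable section

variable {F : Type} [Field F] [Clos F] [Fintype F] [hq : Fact (Odd (Fintype.card F))]
  {N : F[X]} {s : Gam F}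

open GF Finset in
/-- Existence of Frobenius elements, from the upper bound `GF.cheb`. -/
theorem cheb_ex {B : Type} [Group B] [Finite B] (hB : IsPGroup 2 B) (φ : Gam F →* B)
    (hn : Near fun σ => φ σ = 1) (hN : N ≠ 0) (hu : GI N fun σ => φ σ = 1)
    (hs : Fr s (Fintype.card F)) : ∃ n, 0 < n ∧ ∀ γ ∈ Geo F,
      ∃ (c : kk F) (O : ValuationSubring (Om F)) (f : Gam F), aeval c N ≠ 0 ∧ Over O (some c) ∧
        f ∈ St O ∧ Fr f (Fintype.card F ^ n) ∧ φ f = φ (γ * s) := by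
  classical
  obtain ⟨Z₀, g₀, hg₀, e₀⟩ := exists_fro hs
  change ss F = g₀ * s at e₀
  have := Fintype.ofFinite B
  let B₀ : Finset B := univ.filter fun b => ∃ g ∈ Geo F, φ g = b
  have hB₀ : ∀ b, b ∈ B₀ ↔ ∃ g ∈ Geo F, φ g = b := fun b => by simp [B₀]
  have hB0 : 0 < B₀.card := card_pos.2 ⟨_, (hB₀ _).2 ⟨1, one_mem _, rfl⟩⟩
  let Z := (UniqueFactorizationMonoid.normalizedFactors N).toFinset
  have hZ : ∀ p, p ∈ Z ↔ Irreducible p ∧ p.Monic ∧ p ∣ N := fun p => by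
    rw [Multiset.mem_toFinset, Polynomial.mem_normalizedFactors_iff hN]
  obtain ⟨δ, hδ⟩ : ∃ δ, ∑ p ∈ Z, p.natDegree + 1 ≤ δ := ⟨_, le_rfl⟩
  obtain ⟨n, hn1, hn2⟩ : ∃ n, 80 * (B₀.card ^ 3 * δ) + 16 + N.natDegree ≤ n ∧
      φ (ss F ^ n) = φ (ss F) := by
    refine ⟨1 + Nat.card B * (80 * (B₀.card ^ 3 * δ) + 16 + N.natDegree), ?_, ?_⟩
    · exact (Nat.le_mul_of_pos_left _ Nat.card_pos).trans (Nat.le_add_left _ _)
    · rw [map_pow, pow_add, pow_mul, pow_card_eq_one', one_pow, mul_one, pow_one]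
  have hnd : ∀ p ∈ Pn F n, ¬ p ∣ N := fun p hp h => by
    have := natDegree_le_of_dvd h hN
    rw [(mem_Pn.1 hp).2] at this
    omega
  refine ⟨n, by omega, fun γ hγ => ?_⟩
  by_contra hcon
  have hD : ∀ p : F[X], ∃ σ f : Gam F, p ∈ Pn F n → Dec p σ f := fun p => by
    by_cases hp : p ∈ Pn F n
    · obtain ⟨σ, f, h⟩ := (mem_Pn.1 hp).1.exists_dec
      exact ⟨σ, f, fun _ => h⟩
    · exact ⟨1, 1, fun e => (hp e).elim⟩
  choose σ f hD using hD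
  have hh : (0 : ℝ) < B₀.card := by exact_mod_cast hB0
  have hh1 : (1 : ℝ) ≤ B₀.card := by exact_mod_cast hB0
  have h2 := cheb (η := (B₀.card : ℝ)⁻¹) (n := n) hB (φ := φ)
    ⟨fun g _ l _ => map_mul φ g l, hn.mono fun g h _ _ => h⟩ Z
    (fun p hp => ⟨((hZ p).1 hp).2.1, ((hZ p).1 hp).1⟩)
    (fun c O hO hc => hu c (fun h0 => hc (minpoly F c)
      ((hZ _).2 ⟨(prm_minpoly c).2, (prm_minpoly c).1, minpoly.dvd F c h0⟩) (minpoly.aeval F c))
      O hO) hδ B₀ hB₀ (inv_pos.2 hh) (inv_le_one_of_one_le₀ hh1) (by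
      rw [le_inv_mul_iff₀ hh]
      have h3 : 40 * (B₀.card ^ 3 * δ) ≤ Fintype.card F ^ (n / 2) :=
        le_trans (by omega) (Nat.lt_pow_self Fintype.one_lt_card).le
      have h4 : (40 * (B₀.card ^ 3 * δ) : ℝ) ≤ (Fintype.card F : ℝ) ^ (n / 2) := by
        exact_mod_cast h3
      exact le_trans (le_of_eq (by ring)) h4) (Pn F n) σ f
    (fun p hp => ⟨hp, fun h => hnd p hp ((hZ p).1 h).2.2, hD p hp⟩)
  let C : Finset B := B₀.image fun b => b * φ (ss F)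
  have hC : C.card = B₀.card := card_image_of_injective _ (mul_left_injective _)
  have hβ : φ (γ * s) ∈ C := mem_image.2 ⟨_, (hB₀ _).2 ⟨_, mul_mem hγ (inv_mem hg₀), rfl⟩, by
    rw [← map_mul, e₀, mul_assoc, inv_mul_cancel_left]⟩
  have h3 : Set.MapsTo (fun y : F[X] × ℕ × B =>
      y.2.2⁻¹ * φ (ss F ^ y.2.1 * f y.1 * (ss F ^ y.2.1)⁻¹) * y.2.2)
      (Pn F n ×ˢ range n ×ˢ B₀ : Finset _) (C.erase (φ (γ * s))) := by
    rintro ⟨p, k, b⟩ hy
    rw [mem_coe, mem_product, mem_product] at hy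
    obtain ⟨g, hg, rfl⟩ := (hB₀ _).1 hy.2.2
    obtain ⟨c, O, h1, h4, -, -, h5, h6⟩ :=
      (hD p hy.1).conj (mul_mem (geo_le (inv_mem hg)) (pow_mem ss_mem k))
    rw [(mem_Pn.1 hy.1).2] at h6
    have e : (φ g)⁻¹ * φ (ss F ^ k * f p * (ss F ^ k)⁻¹) * φ g =
        φ (g⁻¹ * ss F ^ k * f p * (g⁻¹ * ss F ^ k)⁻¹) := by
      simp only [map_mul, map_inv, mul_inv_rev, inv_inv, mul_assoc]
    rw [mem_coe, mem_erase]
    simp only [e]
    refine ⟨fun h7 => hcon ⟨c, O, _, fun h0 => hnd p hy.1 ?_, h4, h5, fr_of h6, h7⟩,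
      mem_image.2 ⟨_, (hB₀ _).2 ⟨_, h6, rfl⟩, ?_⟩⟩
    · exact ((mem_Pn.1 hy.1).1.minpoly h1).symm.dvd.trans (minpoly.dvd F c h0)
    · rw [← hn2, ← map_mul, zpow_neg, zpow_natCast, inv_mul_cancel_right]
  have h4 : ((Pn F n ×ˢ range n ×ˢ B₀).card : ℝ) ≤ (C.erase (φ (γ * s))).card *
      ((1 + (B₀.card : ℝ)⁻¹) * (n * (Pn F n).card)) := by
    rw [card_eq_sum_card_fiberwise h3, Nat.cast_sum, ← nsmul_eq_mul]
    exact sum_le_card_nsmul _ _ _ fun β _ => h2 β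
  rw [card_erase_of_mem hβ, hC, Nat.cast_pred hB0, card_product, card_product, card_range] at h4
  have h5 : (0 : ℝ) < n * (Pn F n).card := by
    have := (Nat.two_pow_pos _).trans_le (two_pow_le_Pn (F := F) (n := n) (by omega))
    have : 0 < n := by omega
    positivity
  have h6 := mul_inv_cancel₀ hh.ne'
  have h7 := mul_pos (inv_pos.2 hh) h5
  push_cast at h4
  nlinarith

theorem kche_pow {d : ℕ} (u : End ℤ_[2] (Fin d → ℤ_[2])) (h : ∀ x i, 2 ∣ (u x - x) i) (k : ℕ) :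
    ∀ x i, (2 : ℤ_[2]) ^ (k + 1) ∣ ((u ^ 2 ^ k) x - x) i := by
  induction k with
  | zero => simpa using h
  | succ k ih =>
    intro x i
    choose y hy using ih x
    obtain ⟨z, hz⟩ := (dvd_pow_self 2 k.succ_ne_zero).trans (ih y i)
    have e : (u ^ 2 ^ k) x = x + (2 : ℤ_[2]) ^ (k + 1) • y := by
      funext j
      rw [Pi.add_apply, Pi.smul_apply, smul_eq_mul, ← hy j, Pi.sub_apply, add_sub_cancel]
    refine ⟨z + y i, ?_⟩
    rw [pow_succ 2 k, pow_mul, sq, End.mul_apply, e, map_add, map_smul, e]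
    simp only [Pi.sub_apply, Pi.add_apply, Pi.smul_apply, smul_eq_mul] at hz ⊢
    linear_combination (2 : ℤ_[2]) ^ (k + 1) * hz

/-- `B` is the range of the reduction modulo `2 ^ M` in the units, which is a 2-group. -/
theorem cheb_rep {d : ℕ} (ρ : Gam F →* End ℤ_[2] (Fin d → ℤ_[2]))
    (h1 : ∀ σ x i, 2 ∣ (ρ σ x - x) i)
    (h2 : ∀ n, Near fun σ => ∀ x i, (2 : ℤ_[2]) ^ n ∣ (ρ σ x - x) i) (hN : N ≠ 0)
    (hu : GI N fun σ => ρ σ = 1) (hs : Fr s (Fintype.card F)) (M : ℕ) : ∃ n, 0 < n ∧ ∀ γ ∈ Geo F,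
      ∃ (c : kk F) (O : ValuationSubring (Om F)) (f : Gam F), aeval c N ≠ 0 ∧ Over O (some c) ∧
        f ∈ St O ∧ Fr f (Fintype.card F ^ n) ∧
        ∀ x i, (2 : ℤ_[2]) ^ M ∣ (ρ f x - ρ (γ * s) x) i := by
  let r : ℤ_[2] →+* ZMod (2 ^ M) := PadicInt.toZModPow M
  have hr : ∀ a, r a = 0 ↔ (2 : ℤ_[2]) ^ M ∣ a := fun a => by
    rw [← RingHom.mem_ker, PadicInt.ker_toZModPow, Ideal.mem_span_singleton, Nat.cast_ofNat]
  let ψ := ((redE r d).comp ρ).toHomUnits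
  have : Finite (End (ZMod (2 ^ M)) (Fin d → ZMod (2 ^ M))) :=
    Finite.of_injective _ DFunLike.coe_injective
  have hψ : ∀ σ, (∀ x i, (2 : ℤ_[2]) ^ M ∣ (ρ σ x - x) i) → ψ.rangeRestrict σ = 1 := fun σ h =>
    Subtype.ext (Units.ext (redE_eq_one r fun i j => (hr _).2 (h _ _)))
  obtain ⟨n, hn, H⟩ := cheb_ex (B := ψ.range) (fun b => by
      obtain ⟨σ, rfl⟩ := ψ.rangeRestrict_surjective b
      refine ⟨M, ?_⟩
      rw [← map_pow]
      refine hψ _ fun x i => (pow_dvd_pow _ M.le_succ).trans ?_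
      rw [map_pow]
      exact kche_pow _ (h1 σ) M x i) ψ.rangeRestrict ((h2 M).mono hψ) hN
    (fun c hc O hO g hg => hψ g fun x i => by simp [hu c hc O hO g hg]) hs
  refine ⟨n, hn, fun γ hγ => ?_⟩
  obtain ⟨c, O, f, e1, e2, e3, e4, e5⟩ := H γ hγ
  refine ⟨c, O, f, e1, e2, e3, e4, fun x i => (hr _).1 ?_⟩
  have e6 : redE r d (ρ f) = redE r d (ρ (γ * s)) := congrArg (fun b : ψ.range => b.1.1) e5
  have e7 := (redE_apply r (ρ f) x).symm.trans (e6 ▸ redE_apply r (ρ (γ * s)) x)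
  rw [Pi.sub_apply, map_sub, sub_eq_zero]
  exact congrFun e7 i

end

end Pool.Agent.Lib.MP_16ef92_ag.HY
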