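import Mathlib
import Pool.Agent.Lib.MP_16ef92_ag.HY.Sym

set_option autoImplicit false
set_option linter.unusedSectionVars false
set_option linter.unusedVariables false

namespace Pool.Agent.Lib.MP_16ef92_ag.HY

open Module

noncomputable section

variable {K V : Type} [Field K] [AddCommGroup V] [Module K V] [FiniteDimensional K V]

theorem klin_codim (U : Submodule K V) (μ : V →ₗ[K] K) :
    finrank K U ≤ finrank K (U ⊓ LinearMap.ker μ : Submodule K V) + 1 := by
  have h1 := Submodule.finrank_sup_add_finrank_inf_eq U (LinearMap.ker μ)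
  have h2 := Submodule.finrank_le (U ⊔ LinearMap.ker μ)
  have h3 := μ.finrank_range_add_finrank_ker
  have h4 := (Submodule.finrank_le (LinearMap.range μ)).trans_eq (finrank_self K)
  omega

theorem klin_mem {T : End K V} {μ : V →ₗ[K] K} {v x : V} {t : K} :
    x ∈ LinearMap.ker (T + t • μ.smulRight v) ↔ T x + (t * μ x) • v = 0 := by
  rw [LinearMap.mem_ker, LinearMap.add_apply, LinearMap.smul_apply, LinearMap.smulRight_apply,
    smul_smul]

/-- Rank one perturbations.  If `μ` is not zero on `ker T`, then `ker T ⊓ ker μ` has codimension one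
in `ker T` and at most one in the new kernel.  Otherwise a vector `x` of the new kernel with
`μ x ≠ 0` gives `v = T y` and `1 + t μ y = 0`, where `μ y` does not depend on `y`. -/
theorem ker_pert (T : End K V) (μ : V →ₗ[K] K) (v : V) :
    {t : K | finrank K (LinearMap.ker T) <
      finrank K (LinearMap.ker (T + t • μ.smulRight v))}.Subsingleton := by
  have key : ∀ t : K, finrank K (LinearMap.ker T) <
      finrank K (LinearMap.ker (T + t • μ.smulRight v)) → (∀ z, T z = 0 → μ z = 0) ∧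
        ∃ x, T x + (t * μ x) • v = 0 ∧ μ x ≠ 0 := fun t ht => by
    have h1 : LinearMap.ker (T + t • μ.smulRight v) ⊓ LinearMap.ker μ ≤
        LinearMap.ker T ⊓ LinearMap.ker μ := fun x hx => ⟨by
      have h2 := klin_mem.1 hx.1
      rwa [show μ x = 0 from hx.2, mul_zero, zero_smul, add_zero] at h2, hx.2⟩
    have h2 := Submodule.finrank_mono h1
    have h3 := klin_codim (LinearMap.ker (T + t • μ.smulRight v)) μ
    have h4 : LinearMap.ker T ⊓ LinearMap.ker μ = LinearMap.ker T :=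
      Submodule.eq_of_le_of_finrank_le inf_le_left (by omega)
    refine ⟨fun z hz => inf_eq_left.1 h4 hz, by_contra fun hn => ht.not_ge ?_⟩
    exact Submodule.finrank_mono fun x hx =>
      (h1 ⟨hx, by_contra fun e => hn ⟨x, klin_mem.1 hx, e⟩⟩).1
  intro t ht t' ht'
  obtain ⟨h1, x, h2, h3⟩ := key t ht
  obtain ⟨-, y, h4, h5⟩ := key t' ht'
  have h6 := h1 ((t' * μ y) • x - (t * μ x) • y) (by
    rw [map_sub, map_smul, map_smul, eq_neg_of_add_eq_zero_left h2, eq_neg_of_add_eq_zero_left h4,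
      smul_neg, smul_neg, smul_comm, sub_self])
  rw [map_sub, map_smul, map_smul, smul_eq_mul, smul_eq_mul] at h6
  exact mul_right_cancel₀ (mul_ne_zero h3 h5) (by linear_combination -h6)

theorem ker_pert_lt {T : End K V} {μ : V →ₗ[K] K} {v w : V} (hv : v ∉ LinearMap.range T)
    (hw : T w = 0) (h : μ w ≠ 0) {t : K} (ht : t ≠ 0) :
    finrank K (LinearMap.ker (T + t • μ.smulRight v)) < finrank K (LinearMap.ker T) := by
  have key : ∀ x ∈ LinearMap.ker (T + t • μ.smulRight v), μ x = 0 := fun x hx =>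
    by_contra fun e => hv ⟨-(t * μ x)⁻¹ • x, by
      rw [map_smul, eq_neg_of_add_eq_zero_left (klin_mem.1 hx), neg_smul_neg, smul_smul,
        inv_mul_cancel₀ (mul_ne_zero ht e), one_smul]⟩
  refine Submodule.finrank_lt_finrank_of_lt
    (SetLike.lt_iff_le_and_exists.2 ⟨fun x hx => ?_, w, hw, fun e => h (key w e)⟩)
  have h1 := klin_mem.1 hx
  rwa [key x hx, mul_zero, zero_smul, add_zero] at h1

variable [CharZero K] {g : ℕ} {Γ : Type} [Group Γ]

/-- The vectors of the transvections in the image. -/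
def Tv (ρ : Γ →* End K (Kp g → K)) : Set (Kp g → K) :=
  {v | ∃ (σ : Γ) (t : K), t ≠ 0 ∧ ρ σ = 1 + t • ng v}

variable {ρ : Γ →* End K (Kp g → K)}

theorem klin_app (t : K) (v y : Kp g → K) :
    (1 + t • ng v : End K (Kp g → K)) y = y + (t * og v y) • v := by
  rw [LinearMap.add_apply, End.one_apply, LinearMap.smul_apply, ng_apply, smul_smul]

/-- Conjugation. -/
theorem Tv.map (h : ∀ σ x y, og (ρ σ x) (ρ σ y) = og x y) {v : Kp g → K} (hv : v ∈ Tv ρ)
    (σ : Γ) : ρ σ v ∈ Tv ρ := by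
  obtain ⟨τ, t, ht, e⟩ := hv
  have h1 : ∀ y, ρ σ (ρ σ⁻¹ y) = y := fun y => by
    rw [← End.mul_apply, ← map_mul, mul_inv_cancel, map_one, End.one_apply]
  refine ⟨σ * τ * σ⁻¹, t, ht, LinearMap.ext fun y => ?_⟩
  rw [map_mul, map_mul, End.mul_apply, End.mul_apply, e, klin_app, klin_app, map_add, map_smul,
    ← h σ v, h1]

theorem tv_pow {σ : Γ} {t : K} {v : Kp g → K} (h : ρ σ = 1 + t • ng v) (n : ℕ) :
    ρ (σ ^ n) = 1 + (n * t) • ng v := by
  induction n with
  | zero => simp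
  | succ n ih =>
    refine LinearMap.ext fun y => ?_
    rw [pow_succ, map_mul, End.mul_apply, ih, h, klin_app, klin_app, klin_app, og_add_right,
      og_smul_right, og_self, mul_zero, add_zero, add_assoc, ← add_smul, Nat.cast_succ]
    congr 2
    ring

/-- Let `U` be the span of the `v ∈ Tv ρ` with `a v ≠ 0`.  For such `v` and `w ∈ Tv ρ`, the vectors
`v + n t og w v • w` lie in `Tv ρ` and `a` is not zero on them for `n = 1` or `n = 2`; so `U` is
stable.  If `U = ⊤` then `b = 0`.  If `U = ⊥` then `ker a` is stable and not zero. -/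
theorem tv_irr (hg : 0 < g) (h : ∀ σ x y, og (ρ σ x) (ρ σ y) = og x y)
    (hV : ∀ U : Submodule K (Kp g → K), (∀ v ∈ Tv ρ, ∀ x ∈ U, ng v x ∈ U) → U = ⊥ ∨ U = ⊤)
    {a b : (Kp g → K) →ₗ[K] K} (hab : ∀ v ∈ Tv ρ, a v * b v = 0) : a = 0 ∨ b = 0 := by
  have st : ∀ w ∈ Tv ρ, ∀ x ∈ Submodule.span K {v | v ∈ Tv ρ ∧ a v ≠ 0},
      ng w x ∈ Submodule.span K {v | v ∈ Tv ρ ∧ a v ≠ 0} := by
    rintro w ⟨τ, t, ht, e⟩ x hx
    refine Submodule.mem_comap.1 (Submodule.span_le.2 (fun v hv => ?_) hx)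
    have key : ∀ n : ℕ, n ≠ 0 → a v + n * t * og w v * a w ≠ 0 →
        ng w v ∈ Submodule.span K {v | v ∈ Tv ρ ∧ a v ≠ 0} := fun n hn h1 => by
      have h2 := Tv.map h hv.1 (τ ^ n)
      rw [tv_pow e, klin_app] at h2
      have h3 := sub_mem (Submodule.subset_span (R := K) (s := {v | v ∈ Tv ρ ∧ a v ≠ 0})
        ⟨h2, by rwa [map_add, map_smul, smul_eq_mul]⟩) (Submodule.subset_span hv)
      rw [add_sub_cancel_left, mul_smul] at h3
      exact (Submodule.smul_mem_iff _ (mul_ne_zero (Nat.cast_ne_zero.2 hn) ht)).1 h3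
    by_cases h1 : a v + (1 : ℕ) * t * og w v * a w = 0
    · refine key 2 two_ne_zero fun h2 => hv.2 ?_
      push_cast at h1 h2
      linear_combination 2 * h1 - h2
    · exact key 1 one_ne_zero h1
  rcases hV _ st with e | e
  · have h1 : ∀ v ∈ Tv ρ, a v = 0 := fun v hv => by_contra fun hn =>
      hn (by rw [Submodule.span_eq_bot.1 e v ⟨hv, hn⟩, map_zero])
    rcases hV (LinearMap.ker a) fun v hv x _ => Submodule.smul_mem _ _ (h1 v hv) with e | e
    · have := LinearMap.finrank_le_finrank_of_injective (LinearMap.ker_eq_bot.1 e)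
      rw [finrank_fintype_fun_eq_card, card_Kp, finrank_self] at this
      omega
    · exact Or.inl (LinearMap.ker_eq_top.1 e)
  · exact Or.inr (LinearMap.ext_on e fun v hv => (mul_eq_zero.1 (hab v hv.1)).resolve_left hv.2)

/-- Take `σ` that minimises `∑ β ∈ Λ, finrank (ker (ρ σ * A - β))`.  If some kernel contains
`w ≠ 0` (then `β ≠ 0`), let `a ≠ 0` vanish on the range and `b = og · w`; `tv_irr` gives `v`, and
`ρ (τ ^ n * σ) * A - β = (ρ σ * A - β) + (n t) • (og v (ρ σ A ·)) v`; choose `n > 0` outside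
finitely many values (`ker_pert`), `ker_pert_lt`. -/
theorem exists_avoid (hg : 0 < g) (h : ∀ σ x y, og (ρ σ x) (ρ σ y) = og x y)
    (hV : ∀ U : Submodule K (Kp g → K), (∀ v ∈ Tv ρ, ∀ x ∈ U, ng v x ∈ U) → U = ⊥ ∨ U = ⊤)
    {A : End K (Kp g → K)} (hA : Function.Injective A) (Λ : Finset K) :
    ∃ σ, ∀ β ∈ Λ, Function.Injective (ρ σ * A - β • 1 : End K (Kp g → K)) := by
  obtain ⟨σ, -, hσ⟩ := (InvImage.wf (fun σ => ∑ β ∈ Λ,
    finrank K (LinearMap.ker (ρ σ * A - β • 1 : End K (Kp g → K)))) Nat.lt_wfRel.wf).has_min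
      Set.univ ⟨1, trivial⟩
  refine ⟨σ, fun β hβ => by_contra fun hn => ?_⟩
  obtain ⟨w, hw, w0⟩ := Submodule.exists_mem_ne_zero_of_ne_bot (mt LinearMap.ker_eq_bot.1 hn)
  obtain ⟨a, a0, ha⟩ := Submodule.exists_le_ker_of_lt_top _ (lt_top_iff_ne_top.2
    fun e => hn (LinearMap.injective_iff_surjective.2 (LinearMap.range_eq_top.1 e)))
  obtain ⟨v, ⟨τ, t, ht, e⟩, hv⟩ : ∃ v ∈ Tv ρ, a v * ogL w v ≠ 0 := by
    by_contra! h1
    exact (tv_irr hg h hV h1).elim a0 fun e => w0 (og_nd fun y => LinearMap.congr_fun e y)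
  have h1 : ρ σ (A w) = β • w := sub_eq_zero.1 hw
  have h2 : β ≠ 0 := fun e => w0 (hA (by
    rw [map_zero, ← End.one_apply (R := K) (A w), ← map_one ρ, ← inv_mul_cancel σ, map_mul,
      End.mul_apply, h1, e, zero_smul, map_zero]))
  have h3 : ∀ (n : ℕ) (γ : K), (ρ (τ ^ n * σ) * A - γ • 1 : End K (Kp g → K)) =
      ρ σ * A - γ • 1 + (n * t) • ((ogL v).comp (ρ σ * A)).smulRight v := fun n γ => by
    rw [map_mul, tv_pow e, add_mul, add_mul, one_mul, add_sub_right_comm]
    rfl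
  obtain ⟨n, h4⟩ := (((Λ.finite_toSet.biUnion fun γ _ => (ker_pert (ρ σ * A - γ • 1)
    ((ogL v).comp (ρ σ * A)) v).finite).insert 0).preimage (f := fun n : ℕ => n * t)
      fun _ _ _ _ e => Nat.cast_injective (mul_right_cancel₀ ht e)).exists_notMem
  rw [Set.mem_preimage, Set.mem_insert_iff, not_or] at h4
  refine hσ (τ ^ n * σ) trivial (Finset.sum_lt_sum (fun γ hγ => ?_) ⟨β, hβ, ?_⟩)
  · rw [h3]
    exact not_lt.1 fun h5 => h4.2 (Set.mem_biUnion hγ h5)
  · rw [h3]
    refine ker_pert_lt (fun h5 => left_ne_zero_of_mul hv (ha h5)) hw ?_ h4.1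
    rw [LinearMap.comp_apply, End.mul_apply, h1, ogL_apply, og_smul_right, og_swap]
    exact mul_ne_zero h2 (neg_ne_zero.2 (right_ne_zero_of_mul hv))

end

end Pool.Agent.Lib.MP_16ef92_ag.HY
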