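import Mathlib
import Pool.Agent.Lib.MP_16ef92_ag.HY.KLin
import Pool.Agent.Lib.MP_16ef92_ag.HY.NodA
import Pool.Agent.Lib.MP_16ef92_ag.HY.TKr

set_option autoImplicit false
set_option linter.unusedSectionVars false
set_option linter.unusedVariables false

namespace Pool.Agent.Lib.MP_16ef92_ag.HY

open Polynomial Module
open scoped Classical

noncomputable section

section bc

variable {R S κ : Type} [CommRing R] [CommRing S] [Fintype κ] [DecidableEq κ] (τ : R →+* S)

/-- Base change of endomorphisms. -/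
def bce : End R (κ → R) →+* End S (κ → S) :=
  (Matrix.toLinAlgEquiv' (R := S) (n := κ)).toRingEquiv.toRingHom.comp
    ((τ.mapMatrix (m := κ)).comp (LinearMap.toMatrixAlgEquiv' (R := R) (n := κ)).toRingEquiv.toRingHom)

theorem kirr_eq (f : End R (κ → R)) :
    bce τ f = Matrix.toLin' ((LinearMap.toMatrix' f).map τ) := rfl

theorem kirr_ext {M : Type} [AddCommGroup M] [Module S M] {F G : (κ → S) →ₗ[S] M}
    (h : ∀ x : κ → R, F (fun a => τ (x a)) = G fun a => τ (x a)) : F = G := by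
  refine (Pi.basisFun S κ).ext fun b => ?_
  have e : Pi.basisFun S κ b = fun a => τ ((Pi.single b 1 : κ → R) a) := by
    funext a
    by_cases hab : a = b
    · simp [hab]
    · simp [hab]
  rw [e, h]

theorem bce_apply (f : End R (κ → R)) (x : κ → R) :
    bce τ f (fun a => τ (x a)) = fun a => τ (f x a) := by
  funext a
  rw [kirr_eq, Matrix.toLin'_apply, ← LinearMap.toMatrix'_mulVec f x, RingHom.map_mulVec]
  rfl

theorem bce_smul (c : R) (f : End R (κ → R)) : bce τ (c • f) = τ c • bce τ f := by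
  refine kirr_ext τ fun x => ?_
  rw [LinearMap.smul_apply, bce_apply, bce_apply]
  funext a
  simp

theorem bce_charpoly (f : End R (κ → R)) : (bce τ f).charpoly = f.charpoly.map τ := by
  rw [kirr_eq, Matrix.charpoly_toLin', Matrix.charpoly_map, ← Matrix.charpoly_toLin',
    Matrix.toLin'_toMatrix']

theorem bce_ng {g : ℕ} (v : Kp g → R) : bce τ (ng v) = ng fun a => τ (v a) := by
  refine kirr_ext τ fun x => ?_
  rw [bce_apply, ng_apply, ng_apply, og_map]
  funext a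
  simp

theorem bce_og {g : ℕ} {f : End R (Kp g → R)} (h : ∀ x y, og (f x) (f y) = og x y)
    (x y : Kp g → S) : og (bce τ f x) (bce τ f y) = og x y := by
  have e : (ogL (R := S) (g := g)).compl₁₂ (bce τ f) (bce τ f) = ogL :=
    kirr_ext τ fun x => kirr_ext τ fun y => by
      rw [LinearMap.compl₁₂_apply, ogL_apply, ogL_apply, bce_apply, bce_apply, og_map, og_map, h]
  exact LinearMap.congr_fun₂ e x y

end bc

variable {j : ℤ_[2] →+* ℂ}

theorem kirr_half {κ : Type} [Fintype κ] [DecidableEq κ] {f : End ℤ_[2] (κ → ℤ_[2])}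
    (h : bce (red 1) f = 0) : ∃ f', f = (2 : ℤ_[2]) • f' := by
  have h1 : ∀ a b, 2 ∣ LinearMap.toMatrix' f a b := fun a b => by
    have h2 := congrFun (bce_apply (red 1) f (Pi.single b 1)) a
    rw [h, LinearMap.zero_apply, Pi.zero_apply] at h2
    simpa using red_eq_zero.1 h2.symm
  choose N hN using h1
  refine ⟨Matrix.toLin' (Matrix.of N), ?_⟩
  rw [← map_smul, ← Matrix.toLin'_toMatrix' f]
  exact congrArg _ (Matrix.ext fun a b => hN a b)

theorem kirr_nak {κ : Type} [Fintype κ] [DecidableEq κ]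
    (A : Subalgebra ℤ_[2] (End ℤ_[2] (κ → ℤ_[2]))) (h : ∀ F, ∃ f ∈ A, bce (red 1) f = F)
    (f : End ℤ_[2] (κ → ℤ_[2])) : f ∈ A := by
  have h1 : (⊤ : Submodule ℤ_[2] (End ℤ_[2] (κ → ℤ_[2]))) ≤ Subalgebra.toSubmodule A := by
    refine Submodule.le_of_le_smul_of_le_jacobson_bot (I := Ideal.span {2}) Module.Finite.fg_top
      ?_ fun f _ => ?_
    · rw [IsLocalRing.jacobson_eq_maximalIdeal _ bot_ne_top, PadicInt.maximalIdeal_eq_span_p]
      exact le_rfl
    · obtain ⟨a, ha, e⟩ := h (bce (red 1) f)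
      obtain ⟨f', hf⟩ := kirr_half (f := f - a) (by rw [map_sub, e, sub_self])
      rw [sub_eq_iff_eq_add'.1 hf]
      exact Submodule.add_mem_sup ha
        (Submodule.smul_mem_smul (Ideal.mem_span_singleton_self _) Submodule.mem_top)
  exact h1 Submodule.mem_top

/-- The endomorphisms whose base change preserves `U` form a subalgebra over `ℤ_[2]` whose
reduction (`bce (red 1)`) is everything; Nakayama; elementary matrices. -/
theorem irr_of_gen {g : ℕ} {T : Set (Kp g → ℤ_[2])}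
    (h : Algebra.adjoin GF.Z2 ((fun v => ng fun a => red 1 (v a)) '' T) = ⊤)
    (U : Submodule ℂ (Kp g → ℂ)) (hU : ∀ v ∈ T, ∀ x ∈ U, ng (fun a => j (v a)) x ∈ U) :
    U = ⊥ ∨ U = ⊤ := by
  let A : Subalgebra ℤ_[2] (End ℤ_[2] (Kp g → ℤ_[2])) :=
    { carrier := {f | ∀ x ∈ U, bce j f x ∈ U}
      mul_mem' := fun {a b} ha hb x hx => by
        rw [map_mul, End.mul_apply]
        exact ha _ (hb x hx)
      add_mem' := fun {a b} ha hb x hx => by
        rw [map_add, LinearMap.add_apply]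
        exact U.add_mem (ha x hx) (hb x hx)
      algebraMap_mem' := fun c x hx => by
        rw [Algebra.algebraMap_eq_smul_one, bce_smul, map_one, LinearMap.smul_apply]
        exact U.smul_mem _ hx }
  have hA : ∀ f, f ∈ A := kirr_nak A fun F => by
    have hF : F ∈ Algebra.adjoin GF.Z2 ((fun v => ng fun a => red 1 (v a)) '' T) :=
      h ▸ Algebra.mem_top
    induction hF using Algebra.adjoin_induction with
    | mem F hF =>
      obtain ⟨v, hv, rfl⟩ := hF
      exact ⟨ng v, fun x hx => by rw [bce_ng]; exact hU v hv x hx, bce_ng _ v⟩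
    | algebraMap c =>
      obtain ⟨c', rfl⟩ := ZMod.ringHom_surjective (red 1) c
      exact ⟨_, A.algebraMap_mem c', by
        rw [Algebra.algebraMap_eq_smul_one, Algebra.algebraMap_eq_smul_one, bce_smul, map_one]⟩
    | add F F' _ _ h1 h2 =>
      obtain ⟨a, ha, rfl⟩ := h1
      obtain ⟨b, hb, rfl⟩ := h2
      exact ⟨a + b, A.add_mem ha hb, map_add _ _ _⟩
    | mul F F' _ _ h1 h2 =>
      obtain ⟨a, ha, rfl⟩ := h1
      obtain ⟨b, hb, rfl⟩ := h2
      exact ⟨a * b, A.mul_mem ha hb, map_mul _ _ _⟩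
  refine or_iff_not_imp_left.2 fun h0 => ?_
  obtain ⟨x, hx, hx0⟩ := Submodule.exists_mem_ne_zero_of_ne_bot h0
  obtain ⟨a, ha⟩ := Function.ne_iff.1 hx0
  refine top_unique ((Pi.basisFun ℂ (Kp g)).span_eq.ge.trans (Submodule.span_le.2 ?_))
  rintro _ ⟨b, rfl⟩
  have e : bce j ((LinearMap.proj a : (Kp g → ℤ_[2]) →ₗ[ℤ_[2]] ℤ_[2]).smulRight (Pi.single b 1)) =
      (LinearMap.proj a : (Kp g → ℂ) →ₗ[ℂ] ℂ).smulRight (Pi.basisFun ℂ (Kp g) b) :=
    kirr_ext j fun y => by
      rw [bce_apply]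
      funext c
      by_cases hc : c = b
      · simp [hc]
      · simp [hc]
  have h1 : bce j _ x ∈ U := hA
    ((LinearMap.proj a : (Kp g → ℤ_[2]) →ₗ[ℤ_[2]] ℤ_[2]).smulRight (Pi.single b 1)) x hx
  rw [e, LinearMap.smulRight_apply] at h1
  exact (U.smul_mem_iff ha).1 h1

theorem kirr_comm {R M ι : Type} [CommRing R] [Algebra ℤ_[2] R] [AddCommGroup M] [Module ℤ_[2] M]
    [Module.IsTorsionFree ℤ_[2] M] (j : ℤ_[2] →+* ℂ) (ρ : R →ₐ[ℤ_[2]] End ℤ_[2] M) (S : Finset ι)
    (m : ι → R) (P : ι → ℤ_[2][X]) (hP : ∀ i ∈ S, (P i).Monic) {x : M} (hx : x ≠ 0)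
    (hm : ∀ i ∈ S, aeval (ρ (m i)) (P i) x = 0) {χ : ℤ_[2][X]}
    (h : aeval (ρ (∏ i ∈ S, m i)) χ x = 0) :
    ∃ z : ι → ℂ, (∀ i ∈ S, ((P i).map j).IsRoot (z i)) ∧ (χ.map j).IsRoot (∏ i ∈ S, z i) := by
  let I : Ideal R :=
    { carrier := {r | ρ r x = 0}
      add_mem' := fun {a b} ha hb => by
        rw [Set.mem_ofPred_eq] at *
        rw [map_add, LinearMap.add_apply, ha, hb, add_zero]
      zero_mem' := by rw [Set.mem_ofPred_eq, map_zero, LinearMap.zero_apply]
      smul_mem' := fun a b hb => by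
        rw [Set.mem_ofPred_eq] at *
        rw [smul_eq_mul, map_mul, Module.End.mul_apply, hb, map_zero] }
  have hI : ∀ r, r ∈ I ↔ ρ r x = 0 := fun r => Iff.rfl
  obtain ⟨J, hJ, hIJ, hd⟩ := I.exists_le_prime_disjoint
    ((nonZeroDivisors ℤ_[2]).map (algebraMap ℤ_[2] R)) (Set.disjoint_left.2 (by
      rintro _ h ⟨n, hn, rfl⟩
      have h1 := (hI _).1 h
      rw [AlgHom.commutes, Module.algebraMap_end_apply] at h1
      exact hx ((smul_eq_zero.1 h1).resolve_left (nonZeroDivisors.ne_zero hn))))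
  let π := Ideal.Quotient.mkₐ ℤ_[2] J
  have hπ : ∀ (r : R) (Q : ℤ_[2][X]), aeval (ρ r) Q x = 0 → aeval (π r) Q = 0 := fun r Q hr => by
    rw [aeval_algHom_apply] at hr ⊢
    exact Ideal.Quotient.eq_zero_iff_mem.2 (hIJ ((hI _).2 hr))
  let B := integralClosure ℤ_[2] (R ⧸ J)
  have hi : ∀ i ∈ S, π (m i) ∈ B := fun i hi => ⟨P i, hP i hi, hπ _ _ (hm i hi)⟩
  obtain ⟨ψ, hψ⟩ := ND.rta_ext (R := B) j fun a ha => by
    by_cases h0 : a = 0
    · rw [h0, map_zero]
    · have h2 : algebraMap ℤ_[2] R a ∈ J :=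
        Ideal.Quotient.eq_zero_iff_mem.1 (congrArg Subtype.val ha)
      exact absurd ⟨a, mem_nonZeroDivisors_of_ne_zero h0, rfl⟩ (Set.disjoint_left.1 hd h2)
  let z : ι → B := fun i => if h : i ∈ S then ⟨_, hi i h⟩ else 0
  have hz : ∀ i ∈ S, B.val (z i) = π (m i) := fun i h => by simp [z, h]
  have hj : j = ψ.comp (algebraMap ℤ_[2] B) := RingHom.ext fun a => (hψ a).symm
  have hr : ∀ (b : B) (Q : ℤ_[2][X]), aeval (B.val b) Q = 0 → (Q.map j).IsRoot (ψ b) :=
    fun b Q hb => by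
      have h2 : aeval b Q = 0 := Subtype.ext (by rwa [aeval_algHom_apply] at hb)
      rw [IsRoot, eval_map, hj, ← hom_eval₂, ← aeval_def, h2, map_zero]
  refine ⟨fun i => ψ (z i), fun i hi => hr _ _ ?_, ?_⟩
  · rw [hz i hi]
    exact hπ _ _ (hm i hi)
  · rw [← map_prod]
    refine hr _ _ ?_
    rw [map_prod, Finset.prod_congr rfl hz, ← map_prod]
    exact hπ _ _ h

/-- As `wt_roots` (copy its proof), for a polynomial relation. -/
theorem wt_roots' {M ι : Type} [AddCommGroup M] [Module ℤ_[2] M] [Module.IsTorsionFree ℤ_[2] M]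
    (S : Finset ι) (m : ι → End ℤ_[2] M) (hc : (S : Set ι).Pairwise (Function.onFun Commute m))
    (P : ι → ℤ_[2][X]) (hP : ∀ i ∈ S, (P i).Monic) {x : M} (hx : x ≠ 0)
    (hm : ∀ i ∈ S, aeval (m i) (P i) x = 0) {χ : ℤ_[2][X]}
    (h : aeval (S.noncommProd m hc) χ x = 0) :
    ∃ z : ι → ℂ, (∀ i ∈ S, ((P i).map j).IsRoot (z i)) ∧ (χ.map j).IsRoot (∏ i ∈ S, z i) := by
  let R := Algebra.adjoin ℤ_[2] (m '' S)
  have hR : IsMulCommutative R := Algebra.isMulCommutative_adjoin ℤ_[2] (by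
    rintro _ ⟨i, hi, rfl⟩ _ ⟨k, hk, rfl⟩
    by_cases h : i = k
    · rw [h]
    · exact hc hi hk h)
  let _ : CommRing R := { (inferInstance : Ring R) with mul_comm := hR.is_comm.comm }
  let z : ι → R := fun i => if h : i ∈ S then ⟨m i, Algebra.subset_adjoin ⟨i, h, rfl⟩⟩ else 0
  have hz : ∀ i ∈ S, R.val (z i) = m i := fun i h => by simp [z, h]
  refine kirr_comm j R.val S z P hP hx (fun i hi => by rw [hz i hi]; exact hm i hi) ?_
  have e : R.val (∏ i ∈ S, z i) = S.noncommProd m hc := by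
    rw [← Finset.noncommProd_eq_prod]
    exact (Finset.map_noncommProd S z (fun _ _ _ _ _ => Commute.all _ _) R.val).trans
      (Finset.noncommProd_congr rfl hz _)
  rw [e]
  exact h

theorem kirr_root {κ : Type} [Fintype κ] [DecidableEq κ] {f : End ℤ_[2] (κ → ℤ_[2])} {z : ℂ}
    (h : (f.charpoly.map j).IsRoot z) :
    ¬Function.Injective (bce j f - z • 1 : End ℂ (κ → ℂ)) := by
  rw [← bce_charpoly, ← End.hasEigenvalue_iff_isRoot_charpoly, End.hasEigenvalue_iff,
    End.eigenspace_def] at h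
  exact fun h1 => h (LinearMap.ker_eq_bot.2 h1)

theorem kirr_inj {κ Γ : Type} [Fintype κ] [DecidableEq κ] [Group Γ]
    (ρ : Γ →* End ℤ_[2] (κ → ℤ_[2])) (s : Γ) : Function.Injective (bce j (ρ s)) :=
  ((End.isUnit_iff _).1 (((Group.isUnit s).map ρ).map (bce j))).1

/-- Let `H` be the group of the `σ ∈ G` with `ρ k σ = 1` for `k ≠ i`.  Apply `exists_avoid` over `ℂ` to
the base change of `ρ i` on `H`, `A = bce j (ρ i s)` and the finite set of all `β / ∏ ω k`, where
`β` is a root of `χ.map j` and `ω k` (`k ≠ i`) is a root of the characteristic polynomial of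
`bce j (ρ k s)` (not zero, as this is a unit).  If the determinant vanishes there is `x ≠ 0` in the
kernel; `kr_noncommProd`, `wt_roots'` with the characteristic polynomials. -/
theorem exists_cop (hj : Function.Injective j) {ι Γ : Type} [Fintype ι] [Group Γ] {g : ι → ℕ}
    (ρ : ∀ i, Γ →* End ℤ_[2] (Kp (g i) → ℤ_[2])) (G : Subgroup Γ) {i : ι} (hg : 0 < g i)
    (h1 : ∀ σ ∈ G, ∀ x y, og (ρ i σ x) (ρ i σ y) = og x y) {T : Set (Kp (g i) → ℤ_[2])}
    (h2 : Algebra.adjoin GF.Z2 ((fun v => ng fun a => red 1 (v a)) '' T) = ⊤)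
    (h3 : ∀ v ∈ T, ∃ σ ∈ G, ∃ b : ℤ_[2], b ≠ 0 ∧ ρ i σ = 1 + b • ng v ∧ ∀ k, k ≠ i → ρ k σ = 1)
    {d : ℕ} (e : Fin d ≃ ∀ i, Kp (g i)) (s : Γ) {χ : ℤ_[2][X]} (hχ : χ.Monic) :
    ∃ γ ∈ G, LinearMap.det (aeval (krH e ρ (γ * s)) χ) ≠ 0 := by
  let H : Subgroup Γ :=
    { carrier := {σ | σ ∈ G ∧ ∀ k, k ≠ i → ρ k σ = 1}
      mul_mem' := fun {a b} ha hb => ⟨G.mul_mem ha.1 hb.1, fun k hk => by
        rw [map_mul, ha.2 k hk, hb.2 k hk, mul_one]⟩
      one_mem' := ⟨G.one_mem, fun k _ => map_one _⟩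
      inv_mem' := fun {a} ha => ⟨G.inv_mem ha.1, fun k hk => by
        rw [← mul_one (ρ k a⁻¹), ← ha.2 k hk, ← map_mul, inv_mul_cancel, map_one, ha.2 k hk]⟩ }
  let r : H →* End ℂ (Kp (g i) → ℂ) := (bce j).toMonoidHom.comp ((ρ i).comp H.subtype)
  have hr : ∀ σ : H, r σ = bce j (ρ i σ) := fun _ => rfl
  let W : ι → Finset ℂ := fun k => insert 0 ((ρ k s).charpoly.map j).roots.toFinset
  obtain ⟨σ, hσ⟩ := exists_avoid (ρ := r) hg (fun σ => bce_og j (h1 σ σ.2.1))
    (fun U hU => irr_of_gen (j := j) h2 U fun v hv => hU _ (by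
      obtain ⟨σ, h4, b, h5, h6, h7⟩ := h3 v hv
      refine ⟨⟨σ, h4, h7⟩, j b, fun h8 => h5 (hj (h8.trans (map_zero j).symm)), ?_⟩
      rw [hr, h6, map_add, map_one, bce_smul, bce_ng]))
    (kirr_inj (j := j) (ρ i) s)
    (((χ.map j).roots.toFinset ×ˢ Fintype.piFinset W).image
      fun p => p.1 / ∏ k ∈ Finset.univ.erase i, p.2 k)
  refine ⟨σ, σ.2.1, fun h0 => ?_⟩
  obtain ⟨x, hx, hx0⟩ := Submodule.exists_mem_ne_zero_of_ne_bot
    (LinearMap.det_eq_zero_iff_ker_ne_bot.1 h0)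
  rw [LinearMap.mem_ker, krH_apply, kr_noncommProd] at hx
  obtain ⟨z, hz, hp⟩ := wt_roots' (j := j) Finset.univ _ _ (fun k => (ρ k (σ * s)).charpoly)
    (fun k _ => LinearMap.charpoly_monic _) hx0 (fun k _ => by
      rw [aeval_algHom_apply, LinearMap.aeval_self_charpoly, map_zero, LinearMap.zero_apply]) hx
  have hz' : ∀ k, k ≠ i → ((ρ k s).charpoly.map j).IsRoot (z k) := fun k hk => by
    have := hz k (Finset.mem_univ k)
    rwa [map_mul, σ.2.2 k hk, one_mul] at this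
  have hn : ∏ k ∈ Finset.univ.erase i, z k ≠ 0 := Finset.prod_ne_zero_iff.2 fun k hk h4 =>
    kirr_root (hz' k (Finset.ne_of_mem_erase hk)) (by
      rw [h4, zero_smul, sub_zero]
      exact kirr_inj (ρ k) s)
  refine kirr_root (hz i (Finset.mem_univ i)) ?_
  rw [map_mul, map_mul]
  refine hσ (z i) (Finset.mem_image.2 ⟨(∏ k, z k, Function.update z i 0),
    Finset.mem_product.2 ⟨?_, Fintype.mem_piFinset.2 fun k => ?_⟩, ?_⟩)
  · exact Multiset.mem_toFinset.2 ((mem_roots (hχ.map j).ne_zero).2 hp)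
  · by_cases hk : k = i
    · subst hk
      simp [W]
    · refine Finset.mem_insert_of_mem (Multiset.mem_toFinset.2
        ((mem_roots ((LinearMap.charpoly_monic _).map j).ne_zero).2 ?_))
      simpa only [Function.update_of_ne hk] using hz' k hk
  · have h4 : ∏ k ∈ Finset.univ.erase i, Function.update z i 0 k =
        ∏ k ∈ Finset.univ.erase i, z k :=
      Finset.prod_congr rfl fun k hk => Function.update_of_ne (Finset.ne_of_mem_erase hk) _ _
    simp only [h4]
    rw [← Finset.mul_prod_erase _ _ (Finset.mem_univ i), mul_div_cancel_right₀ _ hn]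

end

end Pool.Agent.Lib.MP_16ef92_ag.HY
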