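import Mathlib
import Pool.Agent.Lib.MP_16ef92_ag.ND.Kil

set_option autoImplicit false
set_option linter.unusedSectionVars false
set_option linter.unusedVariables false

namespace Pool.Agent.Lib.MP_16ef92_ag.HY

open Polynomial Module AL

noncomputable section

/-- The formula of Jacobi. -/
theorem knew_jac {R n : Type} [CommRing R] [Fintype n] [DecidableEq n] (B : Matrix n n R[X]) :
    derivative B.det = (B.adjugate * B.map derivative).trace := by
  have h : ∀ j, (B.adjugate * B.map derivative) j j =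
      (B.updateCol j fun i => derivative (B i j)).det := fun j => by
    rw [← Matrix.cramer_apply, Matrix.cramer_eq_adjugate_mulVec]
    rfl
  simp only [Matrix.trace, Matrix.diag_apply, h, Matrix.det_apply', derivative_sum]
  rw [Finset.sum_comm]
  refine Finset.sum_congr rfl fun σ _ => ?_
  rw [derivative_intCast_mul, derivative_prod_finset, Finset.mul_sum]
  refine Finset.sum_congr rfl fun j _ => ?_
  rw [← Finset.prod_erase_mul _ _ (Finset.mem_univ j), Matrix.updateCol_self]
  congr 2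
  exact Finset.prod_congr rfl fun i hi => (Matrix.updateCol_ne (Finset.ne_of_mem_erase hi)).symm

/-- The identities of Newton for a matrix. -/
theorem knew_rec {R n : Type} [CommRing R] [Fintype n] [DecidableEq n] (M : Matrix n n R) (j : ℕ) :
    M.charpolyRev.coeff (j + 1) * (j + 1) =
      -∑ i ∈ Finset.range (j + 1), (M ^ (i + 1)).trace * M.charpolyRev.coeff (j - i) := by
  obtain ⟨B, hB⟩ : ∃ B : Matrix n n R[X], B = 1 - (X : R[X]) • M.map C := ⟨_, rfl⟩
  have h0 : M.charpolyRev = B.det := by rw [hB]; rfl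
  have h1 : ∀ k, ((M ^ k).map C * B.adjugate).trace = C (M ^ k).trace * B.det +
      X * ((M ^ (k + 1)).map C * B.adjugate).trace := fun k => by
    have h := congrArg (fun A => ((M ^ k).map C * A).trace) (Matrix.mul_adjugate B)
    nth_rewrite 1 [hB] at h
    rw [sub_mul, one_mul, mul_sub, Matrix.trace_sub, smul_mul_assoc, mul_smul_comm,
      Matrix.trace_smul, ← mul_assoc, ← Matrix.map_mul, ← pow_succ, mul_smul_comm, mul_one,
      Matrix.trace_smul, ← AddMonoidHom.map_trace C, smul_eq_mul, smul_eq_mul] at h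
    linear_combination h
  have h2 : ∀ j k, ((M ^ k).map C * B.adjugate).trace.coeff j =
      ∑ i ∈ Finset.range (j + 1), (M ^ (i + k)).trace * B.det.coeff (j - i) := by
    intro j
    induction j with
    | zero => intro k; rw [h1]; simp
    | succ j ih =>
      intro k
      rw [h1, coeff_add, coeff_C_mul, coeff_X_mul, ih, Finset.sum_range_succ' _ (j + 1), zero_add,
        Nat.sub_zero, add_comm]
      congr 1
      exact Finset.sum_congr rfl fun i _ => by
        rw [Nat.add_sub_add_right, add_right_comm, add_assoc]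
  have h3 : B.map derivative = -(M ^ 1).map C := by
    ext1 a b
    by_cases h : a = b <;> simp [hB, h]
  rw [h0, ← coeff_derivative, knew_jac, h3, mul_neg, Matrix.trace_neg, Matrix.trace_mul_comm,
    coeff_neg, h2]

theorem knew_co (a : ℕ → ℤ) (j : ℕ) : ∃ e : ℤ, ∀ (R n : Type) [CommRing R] [Fintype n]
    [DecidableEq n] (M : Matrix n n R), (∀ k, 0 < k → (M ^ k).trace = a k) →
      (j.factorial : R) * M.charpolyRev.coeff j = e := by
  induction j using Nat.strong_induction_on with
  | _ j ih =>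
    rcases j with _ | j
    · exact ⟨1, fun R n _ _ _ M _ => by simp [coeff_zero_eq_eval_zero]⟩
    choose! e he using ih
    refine ⟨-∑ i ∈ Finset.range (j + 1), a (i + 1) * (j.factorial / (j - i).factorial : ℕ) *
      e (j - i), fun R n _ _ _ M hM => ?_⟩
    rw [Nat.factorial_succ, Nat.cast_mul, Nat.cast_succ, mul_right_comm, mul_comm (_ + _ : R),
      knew_rec, neg_mul, Finset.sum_mul, Int.cast_neg, Int.cast_sum]
    refine congrArg _ (Finset.sum_congr rfl fun i _ => ?_)
    rw [hM _ i.succ_pos, Int.cast_mul, Int.cast_mul, ← he (j - i) (by omega) R n M hM,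
      Int.cast_natCast, mul_assoc (a _ : R) ((_ : ℕ) : R), ← mul_assoc ((_ : ℕ) : R),
      ← Nat.cast_mul, Nat.div_mul_cancel (Nat.factorial_dvd_factorial (Nat.sub_le j i))]
    ring

/-- The characteristic polynomial is determined by the traces of the powers.  Over an algebraic
closure of the fraction field the traces are the power sums of the roots; Newton's identities
(`MvPolynomial.mul_esymm_eq_sum`) give the elementary symmetric functions recursively as rational
numbers that depend only on `a`.  (Or: the reversed polynomial `R` has `R (0) = 1` and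
`R' = -R ∑ a (k + 1) T ^ k`.) -/
theorem exists_chi (d : ℕ) (a : ℕ → ℤ) : ∃ (m : ℤ) (χ : ℤ[X]), m ≠ 0 ∧
    ∀ (R : Type) [CommRing R] [IsDomain R] [CharZero R] (f : End R (Fin d → R)),
      (∀ k, 0 < k → LinearMap.trace R _ (f ^ k) = a k) →
        χ.map (Int.castRingHom R) = C (m : R) * f.charpoly := by
  choose e he using knew_co a
  refine ⟨d.factorial, ∑ i ∈ Finset.range (d + 1),
    monomial i ((d.factorial / (d - i).factorial : ℕ) * e (d - i)),
    Int.natCast_ne_zero.2 d.factorial_ne_zero, fun R _ _ _ f hf => ?_⟩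
  have hM : ∀ k, 0 < k → (LinearMap.toMatrix (Pi.basisFun R (Fin d)) (Pi.basisFun R (Fin d)) f ^
      k).trace = a k := fun k hk => by
    rw [LinearMap.toMatrix_pow, ← LinearMap.trace_eq_matrix_trace, hf k hk]
  rw [← LinearMap.charpoly_toMatrix f (Pi.basisFun R (Fin d))]
  generalize LinearMap.toMatrix (Pi.basisFun R (Fin d)) (Pi.basisFun R (Fin d)) f = M at hM
  have hd : M.charpoly.natDegree = d := by rw [Matrix.charpoly_natDegree_eq_dim, Fintype.card_fin]
  conv_rhs => rw [M.charpoly.as_sum_range, hd]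
  rw [Polynomial.map_sum, Finset.mul_sum]
  refine Finset.sum_congr rfl fun i hi => ?_
  have hi' : i ≤ d := Nat.lt_succ_iff.1 (Finset.mem_range.1 hi)
  rw [map_monomial, C_mul_monomial, eq_intCast, Int.cast_mul, ← he (d - i) R _ M hM,
    Int.cast_natCast, Int.cast_natCast, ← mul_assoc, ← Nat.cast_mul,
    Nat.div_mul_cancel (Nat.factorial_dvd_factorial (Nat.sub_le d i)), ← Matrix.reverse_charpoly,
    coeff_reverse, hd, revAt_le (Nat.sub_le d i), Nat.sub_sub_self hi']

variable {R R' : Type} [CommRing R] [IsDomain R] [CharZero R] [CommRing R'] [IsDomain R']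
  [CharZero R'] {d : ℕ}

theorem knew_tr (d : ℕ) (b : ℕ → ℤ) (P : ℤ[X]) : ∃ c : ℤ, ∀ (R : Type) [CommRing R] [Nontrivial R]
    (f : End R (Fin d → R)), (∀ k, 0 < k → LinearMap.trace R _ (f ^ k) = b k) →
      LinearMap.trace R _ (aeval f P) = c := by
  induction P using Polynomial.induction_on' with
  | add p q hp hq =>
    obtain ⟨c, hc⟩ := hp
    obtain ⟨c', hc'⟩ := hq
    exact ⟨c + c', fun R _ _ f hf => by rw [map_add, map_add, hc R f hf, hc' R f hf, Int.cast_add]⟩
  | monomial k a =>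
    refine ⟨a * if k = 0 then (d : ℤ) else b k, fun R _ _ f hf => ?_⟩
    rw [aeval_monomial, ← Algebra.smul_def, map_zsmul, zsmul_eq_mul, Int.cast_mul]
    congr 1
    split_ifs with h
    · simp [h]
    · exact hf k (Nat.pos_of_ne_zero h)

theorem knew_ev {R : Type} [CommRing R] {f : End R (Fin d → R)} {χ : ℤ[X]} {m : R} {p : R[X]}
    (h : χ.map (Int.castRingHom R) = C m * p) : aeval f χ = m • aeval f p := by
  rw [← aeval_map_algebraMap R, algebraMap_int_eq, h, map_mul, aeval_C, Algebra.smul_def]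

/-- With `χ` from `exists_chi` for `a`, put `u = χ (f₂)`, `u' = χ (f₂')`.  The traces of their powers
are the same integers, so `exists_chi` gives `ψ = X w + c` that kills both, and `c ≠ 0` because
`u'` is injective (the constant term of the characteristic polynomial is the determinant up to
sign).  Take `P = ± χ * w.comp χ`. -/
theorem exists_sep {f₁ f₂ : End R (Fin d → R)} {f₁' f₂' : End R' (Fin d → R')} {a b : ℕ → ℤ}
    (h1 : ∀ k, 0 < k → LinearMap.trace R _ (f₁ ^ k) = a k)
    (h1' : ∀ k, 0 < k → LinearMap.trace R' _ (f₁' ^ k) = a k)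
    (h2 : ∀ k, 0 < k → LinearMap.trace R _ (f₂ ^ k) = b k)
    (h2' : ∀ k, 0 < k → LinearMap.trace R' _ (f₂' ^ k) = b k)
    (h : LinearMap.det (aeval f₂' f₁'.charpoly) ≠ 0) :
    ∃ (P : ℤ[X]) (c : ℕ), c ≠ 0 ∧ aeval f₁ P = 0 ∧ aeval f₂ P = c := by
  obtain ⟨m, χ, m0, hχ⟩ := exists_chi d a
  choose t ht using fun k => knew_tr d b (χ ^ k)
  obtain ⟨m', ψ, m1, hψ⟩ := exists_chi d t
  have e1 := hψ R (aeval f₂ χ) fun k _ => by rw [← map_pow, ht k R f₂ h2]
  have e2 := hψ R' (aeval f₂' χ) fun k _ => by rw [← map_pow, ht k R' f₂' h2']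
  have c0 : ψ.coeff 0 ≠ 0 := fun h0 => by
    have h3 := congrArg (coeff · 0) e2
    simp only [coeff_map, h0, map_zero, coeff_C_mul] at h3
    have h4 := LinearMap.det_eq_sign_charpoly_coeff (aeval f₂' χ)
    rw [(mul_eq_zero.1 h3.symm).resolve_left (Int.cast_ne_zero.2 m1), mul_zero,
      knew_ev (hχ R' f₁' h1'), LinearMap.det_smul] at h4
    exact mul_ne_zero (pow_ne_zero _ (Int.cast_ne_zero.2 m0)) h h4
  have e3 : aeval (aeval f₂ χ) ψ = 0 := by
    rw [knew_ev e1, LinearMap.aeval_self_charpoly, smul_zero]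
  rw [← X_mul_divX_add ψ, map_add, map_mul, aeval_X, aeval_C, ← aeval_comp, ← map_mul] at e3
  refine ⟨C (-(ψ.coeff 0).sign) * (χ * ψ.divX.comp χ), (ψ.coeff 0).natAbs,
    Int.natAbs_ne_zero.2 c0, ?_, ?_⟩
  · rw [map_mul, map_mul, knew_ev (hχ R f₁ h1), LinearMap.aeval_self_charpoly, smul_zero, zero_mul,
      mul_zero]
  · rw [map_mul, eq_neg_of_add_eq_zero_left e3, aeval_C, ← map_neg, ← map_mul, neg_mul_neg,
      Int.sign_mul_self_eq_natAbs, map_natCast]

/-- Reduce the matrices modulo `c` (`Matrix.charpoly_map`, `RingHom.map_det`). -/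
theorem det_congr {R : Type} [CommRing R] {c : R} {f₁ f₂ g₁ g₂ : End R (Fin d → R)}
    (h1 : ∀ x i, c ∣ (f₁ x - g₁ x) i) (h2 : ∀ x i, c ∣ (f₂ x - g₂ x) i) :
    c ∣ LinearMap.det (aeval f₂ f₁.charpoly) - LinearMap.det (aeval g₂ g₁.charpoly) := by
  have key : ∀ f g : End R (Fin d → R), Ideal.Quotient.mk (Ideal.span {c})
      (LinearMap.det (aeval g f.charpoly)) = (aeval ((LinearMap.toMatrix' g).map
        (Ideal.Quotient.mk (Ideal.span {c}))) ((LinearMap.toMatrix' f).map
          (Ideal.Quotient.mk (Ideal.span {c}))).charpoly).det := fun f g => by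
    have e := aeval_algHom_apply (LinearMap.toMatrixAlgEquiv' (R := R) (n := Fin d)) g f.charpoly
    rw [← LinearMap.det_toMatrix', RingHom.map_det, Matrix.charpoly_map,
      ← LinearMap.toMatrix_eq_toMatrix', ← LinearMap.charpoly_toMatrix f (Pi.basisFun R (Fin d)),
      LinearMap.toMatrix_eq_toMatrix']
    rw [← LinearMap.charpoly_toMatrix f (Pi.basisFun R (Fin d)), LinearMap.toMatrix_eq_toMatrix'] at e
    refine congrArg _ ((congrArg _ e.symm).trans (map_aeval_eq_aeval_map ?_ _ _))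
    ext r i j
    by_cases h : i = j <;> simp [Matrix.algebraMap_eq_diagonal, h]
  have red : ∀ {f g : End R (Fin d → R)}, (∀ x i, c ∣ (f x - g x) i) →
      (LinearMap.toMatrix' f).map (Ideal.Quotient.mk (Ideal.span {c})) =
        (LinearMap.toMatrix' g).map (Ideal.Quotient.mk (Ideal.span {c})) := fun h => by
    ext i j
    exact Ideal.Quotient.eq.2 (Ideal.mem_span_singleton.2 (h _ i))
  rw [← Ideal.mem_span_singleton, ← Ideal.Quotient.eq, key, key, red h1, red h2]

variable {F : Type} [Field F] [Clos F] [Fintype F] [hq : Fact (Odd (Fintype.card F))]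

/-- `exists_sep` with the traces `a c (n k)` of the powers (`Fr.pow`), `ND.kil_of`. -/
theorem kil_of_det {l l' : ℕ} [Fact l.Prime] [Fact l'.Prime]
    {ρ : Gam F →* End ℤ_[l] (Fin d → ℤ_[l])} {ρ' : Gam F →* End ℤ_[l'] (Fin d → ℤ_[l'])}
    {N : F[X]} {a : kk F → ℕ → ℤ} (h : GV.TrR N ρ a) (h' : GV.TrR N ρ' a) {n : ℕ} (hn : 0 < n)
    {c₁ c₂ : kk F} (h1 : aeval c₁ N ≠ 0) (h2 : aeval c₂ N ≠ 0) {O₁ O₂ : ValuationSubring (Om F)}
    (o1 : Over O₁ (some c₁)) (o2 : Over O₂ (some c₂)) {f₁ f₂ : Gam F} (s1 : f₁ ∈ St O₁)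
    (s2 : f₂ ∈ St O₂) (q1 : Fr f₁ (Fintype.card F ^ n)) (q2 : Fr f₂ (Fintype.card F ^ n))
    (hd : LinearMap.det (aeval (ρ' f₂) (ρ' f₁).charpoly) ≠ 0) : ∃ c, c ≠ 0 ∧ ND.Kil ρ c := by
  have t : ∀ {l : ℕ} [Fact l.Prime] {ρ : Gam F →* End ℤ_[l] (Fin d → ℤ_[l])}, GV.TrR N ρ a →
      ∀ {c : kk F}, aeval c N ≠ 0 → ∀ {O}, Over O (some c) → ∀ {f}, f ∈ St O →
      Fr f (Fintype.card F ^ n) → ∀ k, 0 < k →
      LinearMap.trace _ _ (ρ f ^ k) = (a c (n * k) : ℤ_[l]) := by
    intro l _ ρ h c hc O o f s q k hk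
    rw [← map_pow]
    exact h c hc O o _ (pow_mem s k) _ (Nat.mul_pos hn hk) (by rw [pow_mul]; exact q.pow k)
  obtain ⟨P, c, c0, e1, e2⟩ := exists_sep (t h h1 o1 s1 q1) (t h' h1 o1 s1 q1) (t h h2 o2 s2 q2)
    (t h' h2 o2 s2 q2) hd
  exact ⟨c, c0, ND.kil_of ρ q1 q2 e1 e2⟩

end

end Pool.Agent.Lib.MP_16ef92_ag.HY
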