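import Mathlib
import Pool.Agent.Lib.MP_16ef92_ag.HY.KNew
import Pool.Agent.Lib.MP_16ef92_ag.HY.KChe
import Pool.Agent.Lib.MP_16ef92_ag.HY.KIrr
import Pool.Agent.Lib.MP_16ef92_ag.HY.RG

set_option autoImplicit false
set_option linter.unusedSectionVars false
set_option linter.unusedVariables false

namespace Pool.Agent.Lib.MP_16ef92_ag.HY

open Polynomial Module AL
open scoped Classical

noncomputable section

variable {F : Type} [Field F] [Clos F] [Fintype F] [hq : Fact (Odd (Fintype.card F))]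
  {ι : Type} [Fintype ι] {g r : ι → ℕ} {a : ∀ i, Fin (2 * g i + 1) → F[X]} {C : ι → F[X]}
  {D : F[X]}

theorem ktop_dif (i : ι) (j k : Fin (2 * g i + 1)) (h : j ≠ k) :
    D * C i * a i j - D * C i * a i k ∣ D * C i * dsc (a i) := by
  rw [← mul_sub]
  exact mul_dvd_mul_left _ (dvd_dsc h)

theorem ktop_dvd (i : ι) : D * C i * dsc (a i) ∣ (∏ i, dsc (a i) * C i) * D := by
  rw [show D * C i * dsc (a i) = dsc (a i) * C i * D by ring]
  exact mul_dvd_mul_right (Finset.dvd_prod_of_mem (fun i => dsc (a i) * C i) (Finset.mem_univ i)) _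

theorem ktop_two {i k : ι} (h : k ≠ i) :
    dsc (a i) * (D * C k * dsc (a k)) ∣ (∏ i, dsc (a i) * C i) * D := by
  have h1 := Finset.prod_dvd_prod_of_subset {i, k} Finset.univ (fun i => dsc (a i) * C i)
    (Finset.subset_univ _)
  rw [Finset.prod_pair h.symm] at h1
  refine Dvd.dvd.trans ⟨C i, by ring⟩ (mul_dvd_mul_right h1 D)

/-- The traces do not depend on `l`. -/
theorem ktop_tr {l : ℕ} [Fact l.Prime] (hl : (l : F) ≠ 0)
    {ρ : ∀ i, Gam F →* End ℤ_[l] (Kp (g i) → ℤ_[l])}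
    (hρ : ∀ i, IsT l (fun j => ev (D * C i * a i j)) (ρ i)) {d : ℕ} (e : Fin d ≃ ∀ i, Kp (g i)) :
    GV.TrR ((∏ i, dsc (a i) * C i) * D) (krH e ρ) fun c n => ∏ i, ((Fintype.card F ^ n : ℕ) -
      cnt (fun j => (aeval c (D * C i * a i j) : kk F)) (Fintype.card F ^ n) : ℤ) := by
  intro c hc O hO f hf n hn hQ
  rw [krH_apply, trace_kr, Int.cast_prod]
  exact Finset.prod_congr rfl fun i _ => (hρ i).trP hl
    (fun j k h => (ktop_dif i j k h).trans (ktop_dvd i)) hc hO hf hn hQ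

/-- No geometrically trivial subquotient.  Two-adic models: `exists_emb2`, `exists_rg`,
`IsT.twist` by `D * C i`.  For a prime `p ∣ dsc (a i₀)` take `v`, `b` from `RG.mult` and `σ` from
`Over.exists_sg`: the twisting character and the other factors (`IsT.unrP`, `simple_root`) are
trivial on `σ`.  `exists_cop` with `χ` the characteristic polynomial of `s` (`TP.exists_fr`),
`M` with `2 ^ M` not dividing the determinant (`eq_zero_of_dvd`), `cheb_rep` for `1` and `γ`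
(`kr_dvd`, `IsT.triv`, `IsT.near`), `det_congr`, `kil_of_det` (`trace_kr`, `IsT.trP`). -/
theorem kil_all [Nonempty ι] (hg : ∀ i, 0 < g i) (hr : ∀ i, 0 < r i)
    (hd : ∀ i j k, j ≠ k → (a i j - a i k).natDegree = r i)
    (hsq : Squarefree ((∏ i, dsc (a i) * C i) * D)) {l : ℕ} [Fact l.Prime] (hl : (l : F) ≠ 0)
    {ρ : ∀ i, Gam F →* End ℤ_[l] (Kp (g i) → ℤ_[l])}
    (hρ : ∀ i, IsT l (fun j => ev (D * C i * a i j)) (ρ i)) {d : ℕ}
    (e : Fin d ≃ ∀ i, Kp (g i)) : ∃ c, c ≠ 0 ∧ ND.Kil (krH e ρ) c := by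
  obtain ⟨j, hj⟩ := exists_emb2
  obtain ⟨i₀⟩ := ‹Nonempty ι›
  have hs : ∀ i, Squarefree (dsc (a i)) := fun i =>
    hsq.squarefree_of_dvd ((dvd_mul_left _ _).trans (ktop_dvd i))
  have h0 : ∀ i, D * C i ≠ 0 := fun i h =>
    hsq.ne_zero (zero_dvd_iff.1 (h ▸ (dvd_mul_right _ _).trans (ktop_dvd (D := D) i)))
  choose ρ₀ δ t hR hT using fun i => exists_rg hj (hg i) (hr i) (hd i) (hs i)
  choose ρ₂ hT₂ hw using fun i => (hT i).twist (h0 i)
  obtain ⟨s, hfr⟩ := TP.exists_fr (F := F)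
  obtain ⟨γ, hγ, hdet⟩ := exists_cop hj ρ₂ (Geo F) (hg i₀) (fun σ hσ x y => by
      rw [hw, LinearMap.smul_apply, LinearMap.smul_apply, og_smul_left, og_smul_right,
        (hR i₀).sim, (hR i₀).geo σ hσ, one_mul, ← mul_assoc, ← mul_pow, neg_mul_neg, one_mul,
        one_pow, one_mul])
    (T := {v | ∃ σ ∈ Geo F, ∃ b : ℤ_[2], b ≠ 0 ∧ ρ₂ i₀ σ = 1 + b • ng v ∧
      ∀ k, k ≠ i₀ → ρ₂ k σ = 1})
    (top_le_iff.1 ((hR i₀).gen.symm.le.trans (Algebra.adjoin_mono (by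
      rintro _ ⟨p, ⟨hp, hpd⟩, rfl⟩
      obtain ⟨c, hc⟩ := IsAlgClosed.exists_aeval_eq_zero (kk F) p
        (natDegree_pos_iff_degree_pos.1 hp.pos).ne'
      have hc' : aeval c (dsc (a i₀)) = 0 := aeval_eq_zero_of_dvd_aeval_eq_zero hpd hc
      obtain ⟨O, hO⟩ := exists_over (some c)
      obtain ⟨v, b, h1, h2, -⟩ := (hR i₀).mult p hp hpd c hc O hO
      obtain ⟨σ, hσ, h3⟩ := hO.exists_sg
      obtain ⟨h4, h5⟩ := h2 σ hσ
      have h6 : aeval c (D * C i₀) ≠ 0 :=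
        (simple_root (hsq.squarefree_of_dvd (mul_comm (D * C i₀) _ ▸ ktop_dvd i₀)) hc').1
      have h7 : sg (ev (D * C i₀)) σ = 0 := hO.kap_unit prim_one hσ (gam_ev _ _) (over_ev hO h6)
      refine ⟨v, ⟨σ, hσ.1, 2 * b σ, mul_ne_zero two_ne_zero fun h => ?_, ?_, fun k hk => ?_⟩,
        congrArg ng (funext h1)⟩
      · rw [h, map_zero, h3] at h4
        exact absurd h4 (by decide)
      · rw [hw, h7, ZMod.val_zero, pow_zero, one_smul, h5]
      · exact (hT₂ k).unrP thg_ne (ktop_dif k) c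
          (simple_root (hsq.squarefree_of_dvd (ktop_two hk)) hc').1 O hO σ hσ))))
    (fun v hv => hv) e s (LinearMap.charpoly_monic (krH e ρ₂ s))
  obtain ⟨M, hM⟩ := not_forall.1 fun h => hdet (eq_zero_of_dvd h)
  obtain ⟨n, hn, H⟩ := cheb_rep (krH e ρ₂) (fun σ => kr_dvd e fun i => (hT₂ i).triv σ)
    (fun n => (th_all fun i => (hT₂ i).near n).mono fun σ h => kr_dvd e fun i x t => by
      have h1 := h i x t
      rwa [Nat.cast_ofNat] at h1) hsq.ne_zero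
    (fun c hc O hO σ hσ => (congrArg (kr e) (funext fun i => (hT₂ i).unrP thg_ne
      (fun j k h => (ktop_dif i j k h).trans (ktop_dvd i)) c hc O hO σ hσ)).trans (kr_one e)) hfr M
  obtain ⟨c₁, O₁, f₁, a1, a2, a3, a4, a5⟩ := H 1 (one_mem _)
  obtain ⟨c₂, O₂, f₂, b1, b2, b3, b4, b5⟩ := H γ hγ
  rw [one_mul] at a5
  refine kil_of_det (ktop_tr hl hρ e) (ktop_tr thg_ne hT₂ e) hn a1 b1 a2 b2 a3 b3 a4 b4 fun h => ?_
  have h1 := det_congr a5 b5
  rw [h, zero_sub, dvd_neg] at h1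
  exact hM h1

end

end Pool.Agent.Lib.MP_16ef92_ag.HY
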