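import Mathlib
import Pool.Agent.Lib.MP_16ef92_ag.HY.GOne
import Pool.Agent.Lib.MP_16ef92_ag.HY.BTop
import Pool.Agent.Lib.MP_16ef92_ag.HY.KTop
import Pool.Agent.Lib.MP_16ef92_ag.HY.FTop

set_option autoImplicit false
set_option linter.unusedSectionVars false
set_option linter.unusedVariables false

namespace Pool.Agent.Lib.MP_16ef92_ag.HY

open Polynomial Module Filter AlgebraicGeometry AL GV
open FT (SemiOn)

noncomputable section

variable {F : Type} [Field F] [Fintype F] {n : ℕ} {g r : Fin n → ℕ}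
  {a : ∀ i, Fin (2 * g i + 1) → F[X]} {C : Fin n → F[X]}

theorem sub_bad (S : Finset (Fin n)) : (∏ i : S, dsc (a i) * C i) ∣ bad a C := by
  rw [Finset.prod_coe_sort S fun i => dsc (a i) * C i]
  exact Finset.prod_dvd_prod_of_subset _ _ _ S.subset_univ

theorem dsc_dvd {m : ℕ} (b : Fin m → F[X]) {j k : Fin m} (h : j ≠ k) : b j - b k ∣ dsc b := by
  wlog h1 : j < k generalizing j k
  · rw [← neg_sub]
    exact (this h.symm (h.lt_or_gt.resolve_left h1)).neg_left
  exact (Finset.dvd_prod_of_mem (fun k => b j - b k) (Finset.mem_Ioi.2 h1)).trans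
    (Finset.dvd_prod_of_mem (fun j => ∏ k ∈ Finset.Ioi j, (b j - b k)) (Finset.mem_univ j))

theorem dvd_bad (D : F[X]) (i : Fin n) (j k : Fin (2 * g i + 1)) (h : j ≠ k) :
    D * C i * a i j - D * C i * a i k ∣ bad a C * D := by
  rw [← mul_sub, mul_assoc, mul_comm, mul_comm (C i)]
  exact mul_dvd_mul_right ((mul_dvd_mul_right (dsc_dvd _ h) _).trans
    (Finset.dvd_prod_of_mem (fun i => dsc (a i) * C i) (Finset.mem_univ i))) D

theorem inp_all [Clos F] [hq : Fact (Odd (Fintype.card F))] {D : F[X]}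
    (hg : ∀ i, 0 < g i) (hr : ∀ i, 0 < r i)
    (ha : ∀ i j k, j ≠ k → (a i j - a i k).natDegree = r i) (hsq : Squarefree (bad a C * D))
    (hS : ∀ (S : Finset (Fin n)) (j : ℕ), S.card = 2 * j + 1 →
      SimT (g := fun i : S => g i) (fun i => a i) (fun i => C i) (bad a C) D j) :
    InpAll (fun i => Kp (g i)) (bad a C * D) fun i j => D * C i * a i j := by
  intro _ l _ hl
  choose ρ T using fun i => exists_isT (g := g i) (e := fun k => ev (D * C i * a i k)) hl
    (fun j k e => by_contra fun h => ev_ne (ne_zero_of_dvd_ne_zero hsq.ne_zero (dvd_bad D i j k h))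
      ((map_sub _ _ _).trans (sub_eq_zero.2 e))) (Fintype.card_fin _) fun σ k => gam_ev σ _
  refine ⟨ρ, fun i => (T i).cls hl (dvd_bad D i),
    fun S d ε => tm_cr (g := fun i : S => g i) hl (fun i => dvd_bad (a := a) D i) ε fun i => T i,
    fun S d ε => ⟨_, tm_tr (g := fun i : S => g i) hl (fun i => dvd_bad (a := a) D i) ε fun i => T i⟩,
    fun S j hj d ε => ?_, fun S j hj => hS S j hj l hl _ fun i => T i⟩
  have : Nonempty S := (Finset.card_pos.1 (by omega)).to_subtype
  exact kil_all (g := fun i : S => g i) (fun i => hg i) (fun i => hr i) (fun i => ha i)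
    (hsq.squarefree_of_dvd (mul_dvd_mul_right (sub_bad S) D)) hl (fun i => T i) ε

/-- The main theorem. -/
theorem main (hq : Odd (Fintype.card F)) (hg : ∀ i, 0 < g i) (hr : ∀ i, 0 < r i)
    (ha : ∀ i j k, j ≠ k → (a i j - a i k).natDegree = r i) (hsq : Squarefree (bad a C)) :
    Tendsto (fun d : ℕ => (({D : F[X] | D.natDegree = d ∧ Squarefree (bad a C * D) ∧
      SmoothOfRelativeDimension (n + 1) (Spec.map (CommRingCat.ofHom
        (algebraMap F (var (bad a C * D) fun i j => D * C i * a i j)))) ∧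
      ∀ (l : ℕ) [Fact l.Prime], (l : F) ≠ 0 → ∀ j : ℕ,
        SemiOn l (Fintype.card F) j (n.choose (2 * j - 1))
          (EL.frob F (var (bad a C * D) fun i j => D * C i * a i j))}.ncard : ℝ)) /
      ({D : F[X] | D.natDegree = d ∧ Squarefree (bad a C * D)}.ncard : ℝ)) atTop (nhds 1) := by
  classical
  refine final_of (fun i => Kp (g i)) hq hsq (fun D i j => D * C i * a i j)
    (fun i => ⟨g i, Fintype.card_fin _⟩) dvd_bad ?_
  intro _ _
  refine (GF.GV.dz_exists (J := Finset (Fin n)) (B := fun S D => Odd S.card ∧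
    Squarefree (bad a C * D) ∧ ¬ SimT (g := fun i : S => g i) (fun i => a i) (fun i => C i)
      (bad a C) D (S.card / 2)) fun S => ?_).mono fun D hD => by_contra fun h3 =>
    hD.2 (inp_all hg hr ha hD.1 fun S j hj => not_not.1 fun e =>
      h3 ⟨S, ⟨j, hj⟩, hD.1, by rwa [show S.card / 2 = j by omega]⟩)
  by_cases e : Odd S.card
  · exact (one_dz (P := ⟨S, inferInstance, S.card / 2, by
      rw [Fintype.card_coe, Nat.two_mul_div_two_add_one_of_odd e], fun i => g i, fun i => hg i, _,
      (Fintype.equivFin _).symm⟩) hsq (sub_bad S) (fun i : S => hr i) fun i : S => ha i).mono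
      fun D hD => hD.2
  · exact GF.GV.dz_false.mono fun D hD => e hD.1

end

end Pool.Agent.Lib.MP_16ef92_ag.HY
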